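import Pool.Agent.P.MP_bb7f8f_gt.Q2.Base

set_option linter.unusedSectionVars false

namespace Pool.Agent.STS.Cy
open Equiv Finset Filter Topology

namespace BadAux

/-- union bound with a uniform estimate of the pieces -/
theorem union_le {ι X : Type} [Finite X] (t : Finset ι) (s : ι → Set X) (B : Set X)
    (hB : ∀ a ∈ B, ∃ i ∈ t, a ∈ s i) (c : ℝ) (h : ∀ i ∈ t, ((s i).ncard : ℝ) ≤ c) :
    (B.ncard : ℝ) ≤ #t * c := by
  have h1 : B.ncard ≤ (⋃ i ∈ t, s i).ncard :=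
    Set.ncard_le_ncard (fun a ha => by
      obtain ⟨i, hi, h2⟩ := hB a ha
      exact Set.mem_biUnion hi h2) (Set.toFinite _)
  have h2 : (B.ncard : ℝ) ≤ ∑ i ∈ t, ((s i).ncard : ℝ) := by
    exact_mod_cast h1.trans (t.set_ncard_biUnion_le s)
  refine h2.trans ((Finset.sum_le_card_nsmul t _ c h).trans (le_of_eq ?_))
  rw [nsmul_eq_mul]

theorem empty_le {X : Type} (B : Set X) (hB : ∀ a ∈ B, False) {c : ℝ} (hc : 0 ≤ c) :
    (B.ncard : ℝ) ≤ c := by
  rwa [Set.eq_empty_of_forall_notMem hB, Set.ncard_empty, Nat.cast_zero]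

/-- the number of subsets with at most `K` elements -/
theorem small_subsets {X : Type} [DecidableEq X] (A : Finset X) (K : ℕ) :
    #{O ∈ A.powerset | #O ≤ K} ≤ (#A + 1) ^ K := by
  have h1 : {O ∈ A.powerset | #O ≤ K} ⊆ (range (K + 1)).biUnion fun i => A.powersetCard i := by
    intro O hO
    simp only [mem_filter, mem_powerset] at hO
    exact mem_biUnion.2 ⟨#O, mem_range.2 (by omega), mem_powersetCard.2 ⟨hO.1, rfl⟩⟩
  refine (card_le_card h1).trans (card_biUnion_le.trans ?_)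
  rw [add_pow]
  refine Finset.sum_le_sum fun i hi => ?_
  rw [card_powersetCard, one_pow, mul_one, Nat.cast_id]
  have h2 : 0 < K.choose i := Nat.choose_pos (by have := mem_range.1 hi; omega)
  exact (Nat.choose_le_pow _ _).trans (Nat.le_mul_of_pos_right _ h2)

/-- the number of vertex sets of a given degree -/
theorem sets_le {J : Type} [Fintype J] [DecidableEq J] (v : J → ℕ) (hv : ∀ j, Odd (v j)) {M : ℕ}
    (hM : #{j | v j = 1} ≤ M) {x y : ℝ} (hx : 0 ≤ x) (hy : 0 ≤ y) (hxy : x ^ 3 + y ^ 3 = 1)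
    (a b : ℕ) (hab : ∑ j, v j = a + b) :
    (#{V : Finset J | ∑ j ∈ V, v j = a} : ℝ) * (x ^ a * y ^ b) ≤ 2 ^ M := by
  have hx1 : x ≤ 1 := by
    by_contra h
    have h1 : 1 < x ^ 3 := one_lt_pow₀ (not_le.1 h) (by norm_num)
    have h2 : 0 ≤ y ^ 3 := by positivity
    linarith
  have hy1 : y ≤ 1 := by
    by_contra h
    have h1 : 1 < y ^ 3 := one_lt_pow₀ (not_le.1 h) (by norm_num)
    have h2 : 0 ≤ x ^ 3 := by positivity
    linarith
  have h1 : ∏ j, (x ^ v j + y ^ v j) ≤ 2 ^ M :=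
    Est.vprod v hv hM univ _ (by norm_num) (fun j => by positivity) (fun j => by
      have := pow_le_one₀ (n := v j) hx hx1
      have := pow_le_one₀ (n := v j) hy hy1
      linarith) fun j hj => by
      have := pow_le_pow_of_le_one hx hx1 hj
      have := pow_le_pow_of_le_one hy hy1 hj
      linarith
  refine le_trans ?_ h1
  rw [Finset.prod_add, powerset_univ, ← nsmul_eq_mul, ← Finset.sum_const]
  refine le_trans (le_of_eq (Finset.sum_congr rfl fun V hV => ?_))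
    (Finset.sum_le_sum_of_subset_of_nonneg (filter_subset _ _) fun V _ _ => by positivity)
  have h2 := (mem_filter.1 hV).2
  have h3 := Finset.sum_add_sum_compl V v
  rw [Finset.prod_pow_eq_pow_sum, Finset.prod_pow_eq_pow_sum, ← compl_eq_univ_sdiff, h2,
    show ∑ j ∈ Vᶜ, v j = b by omega]

theorem df_prod {d e : ℕ} (hd : 1 ≤ d) (he : 1 ≤ e) {x y : ℝ} (hx : x ^ 3 = d / (d + e : ℕ))
    (hy : y ^ 3 = e / (d + e : ℕ)) :
    DF {d} * DF {e} ≤ 4 * DF {d + e} * (x ^ (3 * d) * y ^ (3 * e)) := by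
  have h1 := Est.df_up d hd
  have h2 := Est.df_up e he
  have h3 := Est.df_low (d + e) (by omega)
  rw [← Est.DF_single] at h1 h2 h3
  have hD : (0 : ℝ) < (d + e : ℕ) := by exact_mod_cast (by omega : 0 < d + e)
  have hE := Real.exp_pos 1
  have p1 := Est.DF_nonneg {e}
  rw [pow_mul, pow_mul, hx, hy]
  calc _ ≤ (2 * (2 * d / Real.exp 1) ^ d) * (2 * (2 * e / Real.exp 1) ^ e) := by gcongr
    _ = 4 * (2 * (d + e : ℕ) / Real.exp 1) ^ (d + e) *
        (((d : ℝ) / (d + e : ℕ)) ^ d * ((e : ℝ) / (d + e : ℕ)) ^ e) := by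
      have e1 : (2 * d / Real.exp 1 : ℝ) =
          (2 * (d + e : ℕ) / Real.exp 1) * ((d : ℝ) / (d + e : ℕ)) := by field_simp
      have e2 : (2 * e / Real.exp 1 : ℝ) =
          (2 * (d + e : ℕ) / Real.exp 1) * ((e : ℝ) / (d + e : ℕ)) := by field_simp
      rw [e1, e2, mul_pow, mul_pow, pow_add]
      ring
    _ ≤ _ := by gcongr

theorem pow_small {x : ℝ} (hx : 0 ≤ x) (h : x ^ 3 ≤ 1 / 2) {d u : ℕ} (hu : u ≤ 2 * d) :
    x ^ d ≤ (1 / 2) ^ (u / 6) := by
  have hx1 : x ≤ 1 := by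
    by_contra h'
    have h1 : 1 < x ^ 3 := one_lt_pow₀ (not_le.1 h') (by norm_num)
    linarith
  calc x ^ d ≤ x ^ (3 * (u / 6)) := pow_le_pow_of_le_one hx hx1 (by omega)
    _ = (x ^ 3) ^ (u / 6) := pow_mul _ _ _
    _ ≤ _ := by gcongr

theorem cube (a : ℝ) (ha : 0 ≤ a) : ∃ x : ℝ, 0 ≤ x ∧ x ^ 3 = a :=
  ⟨a ^ ((3 : ℕ) : ℝ)⁻¹, by positivity, Real.rpow_inv_natCast_pow ha (by norm_num)⟩

/-- the contribution of the vertex sets of degree `2 d` -/
theorem level {J : Type} [Fintype J] [DecidableEq J] (v : J → ℕ) (hv : ∀ j, Odd (v j)) {M : ℕ}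
    (hM : #{j | v j = 1} ≤ M) {d e u : ℕ} (hu : 1 ≤ u) (hd : u ≤ 2 * d) (he : u ≤ 2 * e)
    (hs : ∑ j, v j = 2 * (d + e)) :
    (#{V : Finset J | ∑ j ∈ V, v j = 2 * d} : ℝ) * (DF {d} * DF {e}) ≤
      2 ^ (M + 2) * DF {d + e} * (1 / 2) ^ (u / 6) := by
  have hD : (0 : ℝ) < (d + e : ℕ) := by exact_mod_cast (by omega : 0 < d + e)
  obtain ⟨x, hx0, hx⟩ := cube ((d : ℝ) / (d + e : ℕ)) (by positivity)
  obtain ⟨y, hy0, hy⟩ := cube ((e : ℝ) / (d + e : ℕ)) (by positivity)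
  have hxy : x ^ 3 + y ^ 3 = 1 := by
    rw [hx, hy, ← add_div, div_eq_one_iff_eq hD.ne']
    push_cast
    ring
  have h1 := sets_le v hv hM hx0 hy0 hxy (2 * d) (2 * e) (by omega)
  have h2 := df_prod (d := d) (e := e) (by omega) (by omega) hx hy
  have hx3 : 0 ≤ x ^ 3 := by positivity
  have hy3 : 0 ≤ y ^ 3 := by positivity
  have hx1 : x ≤ 1 := by
    by_contra h
    have h1 : 1 < x ^ 3 := one_lt_pow₀ (not_le.1 h) (by norm_num)
    linarith
  have hy1 : y ≤ 1 := by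
    by_contra h
    have h1 : 1 < y ^ 3 := one_lt_pow₀ (not_le.1 h) (by norm_num)
    linarith
  have h3 : x ^ d * y ^ e ≤ (1 / 2) ^ (u / 6) := by
    rcases le_total (x ^ 3) (1 / 2) with h | h
    · have h4 := pow_small hx0 h hd
      have h5 := pow_le_one₀ (n := e) hy0 hy1
      calc _ ≤ (1 / 2 : ℝ) ^ (u / 6) * 1 := by gcongr
        _ = _ := mul_one _
    · have h4 := pow_small hy0 (by linarith) he
      have h5 := pow_le_one₀ (n := d) hx0 hx1
      calc _ ≤ 1 * (1 / 2 : ℝ) ^ (u / 6) := by gcongr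
        _ = _ := one_mul _
  have p := Est.DF_nonneg {d + e}
  calc _ ≤ (#{V : Finset J | ∑ j ∈ V, v j = 2 * d} : ℝ) *
        (4 * DF {d + e} * (x ^ (3 * d) * y ^ (3 * e))) := by gcongr
    _ = ((#{V : Finset J | ∑ j ∈ V, v j = 2 * d} : ℝ) * (x ^ (2 * d) * y ^ (2 * e))) *
        (4 * DF {d + e}) * (x ^ d * y ^ e) := by ring
    _ ≤ 2 ^ M * (4 * DF {d + e}) * (1 / 2) ^ (u / 6) := by gcongr
    _ = _ := by ring

end BadAux

open BadAux

theorem pBadA (hMt : SMt) : SBadA := by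
  intro H J _ _ _ _ σ π v D M hV u hu
  have p := Est.DF_nonneg {D}
  have key := union_le (range (D + 1))
    (fun d => {α : Perm H | u ≤ 2 * d ∧ u ≤ 2 * (D - d) ∧ IsMt α ∧
      ∃ V : Finset J, ∑ j ∈ V, v j = 2 * d ∧ ∀ x, π (α x) ∈ V ↔ π x ∈ V})
    {α : Perm H | IsMt α ∧ BadA π u α} (fun α ⟨hα, V, h1, h2, h3⟩ => ?_)
    (2 ^ (M + 2) * DF {D} * (1 / 2) ^ (u / 6)) fun d hd => ?_
  · refine key.trans (le_of_eq ?_)
    rw [card_range]
    push_cast
    ring
  · obtain ⟨d, hd⟩ := LatUp.deg_even hV.cyc hα h1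
    have h4 := LatUp.deg_eq hV.cyc V
    have h5 := LatUp.deg_eq hV.cyc Vᶜ
    have h6 := Finset.sum_add_sum_compl V v
    have h7 := hV.sum
    simp only [mem_compl] at h5
    exact ⟨d, mem_range.2 (by omega), by omega, by omega, hα, V, by omega, h1⟩
  · by_cases h : u ≤ 2 * d ∧ u ≤ 2 * (D - d)
    · have hd' : d ≤ D := by have := mem_range.1 hd; omega
      have h1 := level v hV.cyc.odd hV.pole hu h.1 h.2 (by rw [hV.sum]; omega)
      rw [show d + (D - d) = D by omega] at h1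
      refine le_trans ?_ h1
      refine union_le {V : Finset J | ∑ j ∈ V, v j = 2 * d}
        (fun V => {α : Perm H | IsMt α ∧
          ∀ x, α x ∈ ({x | π x ∈ V} : Finset H) ↔ x ∈ ({x | π x ∈ V} : Finset H)}) _
        (fun α hα => ?_) _ fun V hV' => (hMt H D hV.card).1 _ d ?_
      · obtain ⟨-, -, hα, V, h2, h3⟩ := hα
        exact ⟨V, by simpa using h2, hα, by simpa using h3⟩
      · rw [← LatUp.deg_eq hV.cyc V]
        exact (mem_filter.1 hV').2
    · exact empty_le _ (fun α hα => h ⟨hα.1, hα.2.1⟩) (by positivity)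

theorem pBadB (hMt : SMt) : SBadB := by
  intro H _ _ σ D hD K u
  have p := Est.DF_nonneg {D}
  have key := union_le
    {O ∈ ((univ : Finset H) ×ˢ range (2 * D + 1)).powerset | #O ≤ K}
    (fun O => {α : Perm H | Disjoint (alt σ O 1) (alt σ O 0) ∧ u ≤ 4 * #(alt σ O 1) ∧ IsMt α ∧
      (∀ x ∈ alt σ O 1, α x ∈ alt σ O 0) ∧ ∀ x ∈ alt σ O 0, α x ∈ alt σ O 1})
    {α : Perm H | IsMt α ∧ BadB σ K u α} (fun α ⟨hα, O, h1, h2, h3, h4, h5, h6⟩ => ?_)
    ((2 / 3) ^ (u / 4 - 1) * DF {D}) fun O _ => ?_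
  · refine key.trans ?_
    have h1 := small_subsets ((univ : Finset H) ×ˢ range (2 * D + 1)) K
    rw [card_product, card_univ, card_range, hD] at h1
    rw [mul_assoc]
    refine mul_le_mul_of_nonneg_right ?_ (by positivity)
    exact_mod_cast h1
  · refine ⟨O, mem_filter.2 ⟨mem_powerset.2 fun q hq => mem_product.2 ⟨mem_univ _, ?_⟩, h1⟩,
      h3, h6, hα, h4, h5⟩
    have := h2 q hq
    exact mem_range.2 (by omega)
  · by_cases h : Disjoint (alt σ O 1) (alt σ O 0) ∧ u ≤ 4 * #(alt σ O 1)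
    · have h1 := (hMt H D hD).2 _ _ h.1
      have h2 : (2 / 3 : ℝ) ^ (#(alt σ O 1) - 1) ≤ (2 / 3) ^ (u / 4 - 1) :=
        pow_le_pow_of_le_one (by norm_num) (by norm_num) (by have := h.2; omega)
      refine le_trans ?_ (h1.trans (mul_le_mul_of_nonneg_right h2 p))
      refine Nat.cast_le.2 (Set.ncard_le_ncard ?_ (Set.toFinite _))
      exact fun α hα => hα.2.2
    · exact empty_le _ (fun α hα => h ⟨hα.1, hα.2.1⟩) (by positivity)

end Pool.Agent.STS.Cy
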