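import Pool.Agent.P.MP_bb7f8f_gt.Q2.Base

/-!
Construction of a framed surface with prescribed connected cylinder data.
-/

set_option linter.unusedSectionVars false

namespace Pool.Agent.STS.Cy
open Equiv Finset Filter Topology

namespace ConsAux

variable {H : Type} [Fintype H] [DecidableEq H] [Nonempty H] {σ : Perm H} {k N : ℕ}
  {δ : Datum H k}

/-- unit segments of the edges -/
abbrev YY (δ : Datum H k) : Type := Σ x : H, Fin (δ.ℓ x)

lemma Yext {y y' : YY δ} (h1 : y.1 = y'.1) (h2 : y.2.val = y'.2.val) : y = y' := by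
  obtain ⟨x, i⟩ := y
  obtain ⟨x', i'⟩ := y'
  cases h1
  exact congrArg _ (Fin.ext h2)

variable (hδ : IsDat σ N δ)
include hδ

lemma al_al (x : H) : δ.α (δ.α x) = x := (hδ.mt x).1
lemma al_ne (x : H) : δ.α x ≠ x := (hδ.mt x).2
lemma ln_pos (x : H) : 0 < δ.ℓ x := hδ.pos x
lemma lb_step (x : H) : δ.c (σ (δ.α x)) = δ.c x :=
  (hδ.lab.1 _ _).2 (Perm.sameCycle_apply_left.2 (Perm.SameCycle.refl (σ * δ.α) x))

def th (x : H) : YY δ := ⟨x, ⟨0, ln_pos hδ x⟩⟩

def a0 (y : YY δ) : YY δ :=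
  ⟨δ.α y.1, ⟨δ.ℓ y.1 - 1 - y.2.val, by rw [hδ.inv]; have := y.2.2; omega⟩⟩

lemma a0_inv : Function.Involutive (a0 hδ) := fun y =>
  Yext (al_al hδ _) (by simp only [a0, hδ.inv]; have := y.2.2; omega)

lemma a0_fst (y : YY δ) : (a0 hδ y).1 = δ.α y.1 := rfl
lemma a0_snd (y : YY δ) : (a0 hδ y).2.val = δ.ℓ y.1 - 1 - y.2.val := rfl

def f0 (y : YY δ) : YY δ :=
  if h : y.2.val + 1 < δ.ℓ y.1 then ⟨y.1, ⟨_, h⟩⟩ else th hδ (σ (δ.α y.1))

lemma f0_inj : Function.Injective (f0 hδ) := by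
  intro y y' h
  have hy := y.2.2
  have hy' := y'.2.2
  unfold f0 at h
  split_ifs at h with h1 h2 h2
  · have e1 := congrArg Sigma.fst h
    have e2 := congrArg (fun z : YY δ => z.2.val) h
    exact Yext e1 (by simpa using e2)
  · have e2 := congrArg (fun z : YY δ => z.2.val) h
    simp [th] at e2
  · have e2 := congrArg (fun z : YY δ => z.2.val) h
    simp [th] at e2
  · have e1 : σ (δ.α y.1) = σ (δ.α y'.1) := congrArg Sigma.fst h
    have e3 : y.1 = y'.1 := δ.α.injective (σ.injective e1)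
    have e4 : δ.ℓ y.1 = δ.ℓ y'.1 := by rw [e3]
    exact Yext e3 (by omega)

noncomputable def fY : Perm (YY δ) :=
  Equiv.ofBijective (f0 hδ) (Finite.injective_iff_bijective.1 (f0_inj hδ))

lemma fY_lt (y : YY δ) (h : y.2.val + 1 < δ.ℓ y.1) : fY hδ y = ⟨y.1, ⟨_, h⟩⟩ := dif_pos h
lemma fY_ge (y : YY δ) (h : ¬ y.2.val + 1 < δ.ℓ y.1) : fY hδ y = th hδ (σ (δ.α y.1)) :=
  dif_neg h

lemma lb_fY (y : YY δ) : δ.c (fY hδ y).1 = δ.c y.1 := by
  by_cases h : y.2.val + 1 < δ.ℓ y.1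
  · rw [fY_lt hδ y h]
  · rw [fY_ge hδ y h]; exact lb_step hδ _

lemma lb_pow (n : ℕ) (y : YY δ) : δ.c ((fY hδ ^ n) y).1 = δ.c y.1 := by
  induction n with
  | zero => rfl
  | succ n ih => rw [pow_succ', Perm.mul_apply, lb_fY, ih]

lemma lb_same {y y' : YY δ} (h : (fY hδ).SameCycle y y') : δ.c y'.1 = δ.c y.1 := by
  obtain ⟨n, rfl⟩ := h.exists_nat_pow_eq
  exact lb_pow hδ n y

lemma lb_zpow (n : ℤ) (y : YY δ) : δ.c ((fY hδ ^ n) y).1 = δ.c y.1 := lb_same hδ ⟨n, rfl⟩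

lemma pow_th (x : H) (i : ℕ) (hi : i < δ.ℓ x) : (fY hδ ^ i) (th hδ x) = ⟨x, ⟨i, hi⟩⟩ := by
  induction i with
  | zero => rfl
  | succ i ih => rw [pow_succ', Perm.mul_apply, ih (by omega), fY_lt hδ _ hi]

lemma pow_ln (x : H) : (fY hδ ^ δ.ℓ x) (th hδ x) = th hδ (σ (δ.α x)) := by
  have h := ln_pos hδ x
  have h1 : δ.ℓ x = (δ.ℓ x - 1) + 1 := by omega
  have h2 := pow_th hδ x (δ.ℓ x - 1) (by omega)
  conv_lhs => rw [h1]
  rw [pow_succ', Perm.mul_apply, h2, fY_ge hδ _ (by simp only; omega)]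

lemma sc_th (n : ℕ) (x : H) : (fY hδ).SameCycle (th hδ x) (th hδ (((σ * δ.α) ^ n) x)) := by
  induction n with
  | zero => exact Perm.SameCycle.refl _ _
  | succ n ih =>
    refine ih.trans ?_
    rw [pow_succ', Perm.mul_apply, Perm.mul_apply, ← pow_ln]
    exact ⟨(δ.ℓ _ : ℕ), by rw [zpow_natCast]⟩

lemma sc_of_lb (y y' : YY δ) (h : δ.c y.1 = δ.c y'.1) : (fY hδ).SameCycle y y' := by
  obtain ⟨n, hn⟩ := ((hδ.lab.1 _ _).1 h).exists_nat_pow_eq
  have h1 : ∀ z : YY δ, (fY hδ).SameCycle (th hδ z.1) z := fun z =>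
    ⟨(z.2.val : ℕ), by rw [zpow_natCast, pow_th hδ z.1 z.2.val z.2.2]⟩
  exact (h1 y).symm.trans ((hn ▸ sc_th hδ n y.1).trans (h1 y'))

lemma fa_pos (y : YY δ) (h : y.2.val ≠ 0) :
    (fY hδ (a0 hδ y)).1 = δ.α y.1 ∧ (fY hδ (a0 hδ y)).2.val = δ.ℓ y.1 - y.2.val := by
  have hy := y.2.2
  have h1 : (a0 hδ y).2.val + 1 < δ.ℓ (a0 hδ y).1 := by
    rw [a0_snd, a0_fst, hδ.inv]; omega
  rw [fY_lt hδ _ h1]
  exact ⟨rfl, by simp only [a0_snd]; omega⟩

omit hδ in
/-- the segments on the face `f` -/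
def face (δ : Datum H k) (f : Fin k × Bool) : Finset (YY δ) := univ.filter fun y => δ.c y.1 = f

omit hδ in
lemma mem_face {f : Fin k × Bool} {y : YY δ} : y ∈ face δ f ↔ δ.c y.1 = f := by simp [face]

lemma card_face (f : Fin k × Bool) : (face δ f).card = δ.w f.1 := by
  have h : face δ f = (univ.filter fun x => δ.c x = f).sigma (fun _ => univ) := by
    ext y; simp [face]
  have h1 : (face δ f).card = per δ.c δ.ℓ f := by
    rw [h, card_sigma]
    simp [per]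
  rw [h1]
  obtain ⟨i, _ | _⟩ := f
  · exact hδ.bal i
  · rfl

lemma cyc_face (f : Fin k × Bool) : (fY hδ).IsCycleOn (face δ f : Set (YY δ)) := by
  refine ⟨⟨fun y hy => ?_, (fY hδ).injective.injOn, fun y hy => ⟨(fY hδ).symm y, ?_, by simp⟩⟩,
    fun y hy y' hy' => ?_⟩
  · rw [mem_coe, mem_face] at hy ⊢
    rw [lb_fY, hy]
  · rw [mem_coe, mem_face] at hy ⊢
    rw [← lb_fY hδ, apply_symm_apply, hy]
  · rw [mem_coe, mem_face] at hy hy'
    exact sc_of_lb hδ _ _ (hy.trans hy'.symm)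

noncomputable def bs (f : Fin k × Bool) : YY δ := th hδ (δ.bs f)

lemma lb_bs (f : Fin k × Bool) : δ.c (bs hδ f).1 = f := Function.invFun_eq (hδ.lab.2 f)

lemma ex_pos (y : YY δ) : ∃ m : ℤ, (fY hδ ^ m) (bs hδ (δ.c y.1)) = y :=
  sc_of_lb hδ _ _ (lb_bs hδ _)

/-- the point across the cylinder -/
noncomputable def tau (y : YY δ) : YY δ :=
  (fY hδ ^ ((δ.t (δ.c y.1).1 : ℤ) - (ex_pos hδ y).choose))
    (bs hδ ((δ.c y.1).1, !(δ.c y.1).2))

lemma lb_tau (y : YY δ) : δ.c (tau hδ y).1 = ((δ.c y.1).1, !(δ.c y.1).2) := by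
  rw [tau, lb_zpow, lb_bs]

lemma tau_spec (f : Fin k × Bool) (m : ℤ) :
    tau hδ ((fY hδ ^ m) (bs hδ f)) = (fY hδ ^ ((δ.t f.1 : ℤ) - m)) (bs hδ (f.1, !f.2)) := by
  have hl : δ.c ((fY hδ ^ m) (bs hδ f)).1 = f := by rw [lb_zpow, lb_bs]
  have h1 := (ex_pos hδ ((fY hδ ^ m) (bs hδ f))).choose_spec
  unfold tau
  generalize (ex_pos hδ ((fY hδ ^ m) (bs hδ f))).choose = m' at h1 ⊢
  rw [hl] at h1 ⊢
  have h2 := ((cyc_face hδ f).zpow_apply_eq_zpow_apply (mem_face.2 (lb_bs hδ f))).1 h1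
  refine ((cyc_face hδ (f.1, !f.2)).zpow_apply_eq_zpow_apply
    (mem_face.2 (lb_bs hδ _))).2 ?_
  rw [card_face hδ] at h2 ⊢
  exact h2.sub_left _

lemma tau_tau (y : YY δ) : tau hδ (tau hδ y) = y := by
  obtain ⟨m, hm⟩ := ex_pos hδ y
  generalize δ.c y.1 = f at hm
  subst hm
  rw [tau_spec, tau_spec]
  simp

lemma f_tau_f (y : YY δ) : fY hδ (tau hδ (fY hδ y)) = tau hδ y := by
  obtain ⟨m, hm⟩ := ex_pos hδ y
  generalize δ.c y.1 = f at hm
  subst hm
  have h1 : ∀ (n : ℤ) (z : YY δ), fY hδ ((fY hδ ^ n) z) = (fY hδ ^ (1 + n)) z := fun n z => by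
    rw [zpow_add, zpow_one, Perm.mul_apply]
  rw [h1, tau_spec, h1, tau_spec]
  congr 2
  ring

lemma pow_tau (f : Fin k × Bool) (m : ℕ) :
    (fY hδ ^ m) (tau hδ ((fY hδ ^ m) (bs hδ f))) = (fY hδ ^ δ.t f.1) (bs hδ (f.1, !f.2)) := by
  rw [← zpow_natCast, tau_spec, ← Perm.mul_apply, ← zpow_add, ← zpow_natCast]
  congr 2
  ring

lemma tau_ne {y y' : YY δ} (h : δ.c y'.1 = δ.c y.1) : tau hδ y ≠ y' := by
  intro e
  have h1 := lb_tau hδ y
  rw [e, h] at h1
  simpa using congrArg Prod.snd h1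

omit hδ in
/-- the height of the cylinder of `y` -/
def hh (δ : Datum H k) (y : YY δ) : ℕ := δ.h (δ.c y.1).1

lemma hh_pos (y : YY δ) : 0 < hh δ y := hδ.hpos _

lemma hh_fY (y : YY δ) : hh δ (fY hδ y) = hh δ y := by rw [hh, lb_fY, hh]

lemma hh_tau (y : YY δ) : hh δ (tau hδ y) = hh δ y := by rw [hh, lb_tau, hh]

omit hδ in
/-- oriented squares -/
abbrev XX (δ : Datum H k) : Type := Σ y : YY δ, Fin (hh δ y)

omit hδ in
lemma Xext {q q' : XX δ} (h1 : q.1 = q'.1) (h2 : q.2.val = q'.2.val) : q = q' := by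
  obtain ⟨x, i⟩ := q
  obtain ⟨x', i'⟩ := q'
  cases h1
  exact congrArg _ (Fin.ext h2)

lemma card_XX : Fintype.card (XX δ) = N * 2 := by
  rw [Fintype.card_sigma]
  simp only [Fintype.card_fin]
  rw [← Finset.sum_fiberwise (s := univ) (g := fun y : YY δ => δ.c y.1)]
  have h1 : ∀ f : Fin k × Bool, ∑ y : YY δ with δ.c y.1 = f, hh δ y = δ.h f.1 * δ.w f.1 := by
    intro f
    rw [Finset.sum_congr rfl (g := fun _ => δ.h f.1) fun y hy => by
      rw [hh, (mem_filter.1 hy).2], sum_const, smul_eq_mul, mul_comm]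
    exact congrArg _ (card_face hδ f)
  simp only [h1]
  rw [Fintype.sum_prod_type, ← hδ.area, Finset.sum_mul]
  refine Finset.sum_congr rfl fun i _ => ?_
  simp [mul_comm]

def top (y : YY δ) : XX δ := ⟨y, ⟨0, hh_pos hδ y⟩⟩

noncomputable def fx0 (q : XX δ) : XX δ := ⟨fY hδ q.1, ⟨q.2.val, by rw [hh_fY]; exact q.2.2⟩⟩

lemma fx0_inj : Function.Injective (fx0 hδ) := by
  intro q q' h
  have h1 := congrArg (fun z : XX δ => z.1) h
  have h2 := congrArg (fun z : XX δ => z.2.val) h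
  exact Xext ((fY hδ).injective h1) h2

noncomputable def fX : Perm (XX δ) :=
  Equiv.ofBijective (fx0 hδ) (Finite.injective_iff_bijective.1 (fx0_inj hδ))

lemma fX_fst (q : XX δ) : (fX hδ q).1 = fY hδ q.1 := rfl
lemma fX_snd (q : XX δ) : (fX hδ q).2.val = q.2.val := rfl

lemma fX_pow (n : ℕ) (q : XX δ) :
    ((fX hδ ^ n) q).1 = (fY hδ ^ n) q.1 ∧ ((fX hδ ^ n) q).2.val = q.2.val := by
  induction n with
  | zero => exact ⟨rfl, rfl⟩
  | succ n ih =>
    rw [pow_succ', pow_succ', Perm.mul_apply, Perm.mul_apply]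
    exact ⟨congrArg (fY hδ) ih.1, ih.2⟩

lemma pow_top (n : ℕ) (y : YY δ) : (fX hδ ^ n) (top hδ y) = top hδ ((fY hδ ^ n) y) :=
  Xext (fX_pow hδ n _).1 (fX_pow hδ n _).2

noncomputable def ioX (q : XX δ) : XX δ :=
  ⟨tau hδ q.1, ⟨hh δ q.1 - 1 - q.2.val, by rw [hh_tau]; have := q.2.2; omega⟩⟩

lemma ioX_fst (q : XX δ) : (ioX hδ q).1 = tau hδ q.1 := rfl
lemma ioX_snd (q : XX δ) : (ioX hδ q).2.val = hh δ q.1 - 1 - q.2.val := rfl

lemma ioX_inv (q : XX δ) : ioX hδ (ioX hδ q) = q :=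
  Xext (tau_tau hδ _) (by rw [ioX_snd, ioX_snd, ioX_fst, hh_tau]; have := q.2.2; omega)

lemma ioX_ne (q : XX δ) : ioX hδ q ≠ q := fun h => tau_ne hδ rfl (congrArg Sigma.fst h)

noncomputable def ax0 (q : XX δ) : XX δ :=
  if h : q.2.val = 0 then top hδ (a0 hδ q.1)
  else ⟨tau hδ q.1, ⟨hh δ q.1 - q.2.val, by rw [hh_tau]; have := q.2.2; omega⟩⟩

lemma ax0_zero {q : XX δ} (h : q.2.val = 0) : ax0 hδ q = top hδ (a0 hδ q.1) := dif_pos h

lemma ax0_pos {q : XX δ} (h : q.2.val ≠ 0) :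
    (ax0 hδ q).1 = tau hδ q.1 ∧ (ax0 hδ q).2.val = hh δ q.1 - q.2.val := by
  rw [ax0, dif_neg h]
  exact ⟨rfl, rfl⟩

lemma ax0_inv : Function.Involutive (ax0 hδ) := by
  intro q
  have hq := q.2.2
  by_cases h : q.2.val = 0
  · rw [ax0_zero hδ h, ax0_zero hδ rfl]
    exact Xext (a0_inv hδ _) h.symm
  · obtain ⟨h1, h2⟩ := ax0_pos hδ h
    obtain ⟨h3, h4⟩ := ax0_pos hδ (q := ax0 hδ q) (by omega)
    refine Xext (by rw [h3, h1, tau_tau]) ?_
    have h5 : hh δ (ax0 hδ q).1 = hh δ q.1 := by rw [h1, hh_tau]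
    rw [h4, h2, h5]
    omega

noncomputable def aX : Perm (XX δ) := (ax0_inv hδ).toPerm

lemma aX_apply (q : XX δ) : aX hδ q = ax0 hδ q := rfl

lemma aX_top (y : YY δ) : aX hδ (top hδ y) = top hδ (a0 hδ y) :=
  ax0_zero hδ (q := top hδ y) rfl

lemma fX_top (y : YY δ) : fX hδ (top hδ y) = top hδ (fY hδ y) := Xext rfl rfl

lemma eq_top {q : XX δ} (h : q.2.val = 0) : q = top hδ q.1 := Xext rfl h

lemma down (q : XX δ) (h : q.2.val + 1 < hh δ q.1) :
    aX hδ (ioX hδ q) = ⟨q.1, ⟨q.2.val + 1, h⟩⟩ := by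
  obtain ⟨h1, h2⟩ := ax0_pos hδ (q := ioX hδ q) (by rw [ioX_snd]; omega)
  refine Xext (by rw [aX_apply, h1, ioX_fst, tau_tau]) ?_
  rw [aX_apply, h2, ioX_snd, ioX_fst, hh_tau]
  simp only
  omega

/-! ### Transport to the standard set of oriented squares -/

variable (e : XS N ≃ XX δ)

noncomputable def TT : Tri H N :=
  (e.symm.permCongr (aX hδ), e.symm.permCongr (fX hδ), fun x => e.symm (top hδ (th hδ x)))

lemma e_a (q : XS N) : e ((TT hδ e).1 q) = aX hδ (e q) := by simp [TT]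
lemma e_f (q : XS N) : e ((TT hδ e).2.1 q) = fX hδ (e q) := by simp [TT]
lemma e_th (x : H) : e ((TT hδ e).2.2 x) = top hδ (th hδ x) := by simp [TT]

lemma e_pow (n : ℕ) (q : XS N) : e (((TT hδ e).2.1 ^ n) q) = (fX hδ ^ n) (e q) := by
  induction n with
  | zero => rfl
  | succ n ih => rw [pow_succ', pow_succ', Perm.mul_apply, Perm.mul_apply, e_f, ih]

lemma e_row (n : ℕ) (x : H) :
    e (((TT hδ e).2.1 ^ n) ((TT hδ e).2.2 x)) = top hδ ((fY hδ ^ n) (th hδ x)) := by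
  rw [e_pow, e_th, pow_top]

lemma mem_range_iff (q : XS N) :
    q ∈ Set.range (TT hδ e).2.2 ↔ (e q).2.val = 0 ∧ (e q).1.2.val = 0 := by
  constructor
  · rintro ⟨x, rfl⟩
    rw [e_th]
    exact ⟨rfl, rfl⟩
  · rintro ⟨h1, h2⟩
    refine ⟨(e q).1.1, e.injective ?_⟩
    rw [e_th]
    exact Xext (Yext rfl h2.symm) h1.symm

lemma top_zero {q : XS N} (h : Top (TT hδ e) q) : (e q).2.val = 0 := by
  obtain ⟨x, hx⟩ := h
  obtain ⟨n, hn⟩ := hx.exists_nat_pow_eq
  have h1 := (fX_pow hδ n (e q)).2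
  rw [← e_pow, hn, e_th] at h1
  exact h1.symm

lemma r1 (x : H) : (TT hδ e).2.2 (δ.α x) =
    (TT hδ e).1 (((TT hδ e).2.1 ^ (δ.ℓ x - 1)) ((TT hδ e).2.2 x)) := by
  apply e.injective
  have := ln_pos hδ x
  rw [e_a, e_row, e_th, aX_top, pow_th hδ x _ (by omega)]
  exact congrArg _ (Yext rfl (by simp [a0_snd, th]))

variable (he : ∀ q, e (io N q) = ioX hδ (e q))
include he

lemma e_dn (j : ℕ) (q : XS N) (h0 : (e q).2.val = 0) (hj : j < hh δ (e q).1) :
    e ((dn (TT hδ e) ^ j) q) = ⟨(e q).1, ⟨j, hj⟩⟩ := by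
  induction j with
  | zero => exact Xext rfl h0
  | succ j ih =>
    rw [pow_succ', Perm.mul_apply, dn, Perm.mul_apply, e_a, he, ← dn, ih (by omega),
      down hδ _ hj]

theorem realizes : Realizes σ (TT hδ e) δ where
  r1 := r1 hδ e
  r2 x := e.injective (by rw [e_row, e_th, pow_ln])
  r3 x i h0 hi := by
    rw [mem_range_iff, e_row, pow_th hδ x i hi]
    exact fun h => h0.ne' h.2
  r4 x m j h0 hj h := by
    have h1 := top_zero hδ e h
    have h2 : j < hh δ (e (((TT hδ e).2.1 ^ m) ((TT hδ e).2.2 x))).1 := by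
      rw [e_row, hh]
      exact (lb_pow hδ m (th hδ x)).symm ▸ hj
    rw [e_dn hδ e he j _ (by rw [e_row]; rfl) h2] at h1
    exact h0.ne' h1
  r5 i s m := by
    apply e.injective
    have h1 := e_row hδ e m (δ.bs (i, s))
    have h2 : hh δ (e (((TT hδ e).2.1 ^ m) ((TT hδ e).2.2 (δ.bs (i, s))))).1 = δ.h i := by
      rw [h1, hh]
      exact congrArg (fun f : Fin k × Bool => δ.h f.1)
        ((lb_pow hδ m (bs hδ (i, s))).trans (lb_bs hδ (i, s)))
    have h3 := hδ.hpos i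
    rw [e_row hδ e (δ.t i), e_pow, he, e_dn hδ e he _ _ (by rw [h1]; rfl) (by omega)]
    refine Xext ?_ ?_
    · rw [(fX_pow hδ m _).1, ioX_fst]
      simp only [h1]
      exact pow_tau hδ (i, s) m
    · rw [(fX_pow hδ m _).2, ioX_snd]
      simp only [h2]
      exact Nat.sub_self _
  r6 x m := by
    rw [← e.injective.eq_iff, e_row, e_th, ← card_face hδ (δ.c x),
      ← (cyc_face hδ (δ.c x)).pow_apply_eq (a := th hδ x) (mem_face.2 rfl)]
    exact ⟨fun h => congrArg Sigma.fst h, fun h => congrArg _ h⟩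

/-- connectedness in the model -/
lemma connX (hc : Conn (δ.α, δ.c)) (q q' : XS N) : Relation.EqvGen
    (fun p q => q = io N p ∨ q = (TT hδ e).1 p ∨ q = (TT hδ e).2.1 p) q q' := by
  set R := Relation.EqvGen
    (fun p q => q = io N p ∨ q = (TT hδ e).1 p ∨ q = (TT hδ e).2.1 p) with hR
  have tr : ∀ {a b c}, R a b → R b c → R a c := fun h1 h2 => Relation.EqvGen.trans _ _ _ h1 h2
  have sy : ∀ {a b}, R a b → R b a := fun h1 => Relation.EqvGen.symm _ _ h1
  have hio : ∀ a, R a (io N a) := fun a => Relation.EqvGen.rel _ _ (Or.inl rfl)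
  have ha : ∀ a, R a ((TT hδ e).1 a) := fun a => Relation.EqvGen.rel _ _ (Or.inr (Or.inl rfl))
  have hf : ∀ (n : ℕ) a, R a (((TT hδ e).2.1 ^ n) a) := by
    intro n a
    induction n with
    | zero => exact Relation.EqvGen.refl _
    | succ n ih =>
      refine tr ih (Relation.EqvGen.rel _ _ (Or.inr (Or.inr ?_)))
      rw [pow_succ', Perm.mul_apply]
  have hd : ∀ (n : ℕ) a, R a ((dn (TT hδ e) ^ n) a) := by
    intro n a
    induction n with
    | zero => exact Relation.EqvGen.refl _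
    | succ n ih =>
      rw [pow_succ', Perm.mul_apply, dn, Perm.mul_apply, ← dn]
      exact tr ih (tr (hio _) (ha _))
  have h1 : ∀ (x : H) (a : XS N), δ.c (e a).1.1 = δ.c x → R ((TT hδ e).2.2 x) a := by
    intro x a h
    obtain ⟨n, hn⟩ := (sc_of_lb hδ (th hδ x) (e a).1 h.symm).exists_nat_pow_eq
    have h2 := e_row hδ e n x
    rw [hn] at h2
    refine tr (hf n _) ?_
    have h3 : (dn (TT hδ e) ^ (e a).2.val) (((TT hδ e).2.1 ^ n) ((TT hδ e).2.2 x)) = a := by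
      apply e.injective
      rw [e_dn hδ e he _ _ (by rw [h2]; rfl) (by rw [h2]; exact (e a).2.2)]
      exact Xext (by simp only [h2]; rfl) rfl
    have h4 := hd (e a).2.val (((TT hδ e).2.1 ^ n) ((TT hδ e).2.2 x))
    rwa [h3] at h4
  have h2 : ∀ x y, R ((TT hδ e).2.2 x) ((TT hδ e).2.2 y) := by
    intro x y
    refine Dart.eqv_map (TT hδ e).2.2 ?_ (hc x y)
    rintro a b (rfl | h)
    · rw [r1]
      exact tr (hf _ _) (ha _)
    · by_cases h3 : (δ.c b).2 = (δ.c a).2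
      · exact h1 a _ (by rw [e_th]; exact Prod.ext h h3)
      · refine tr (hio _) (sy (h1 b _ ?_))
        rw [he, e_th, ioX_fst, lb_tau]
        refine Prod.ext h.symm ?_
        change (!(δ.c a).2) = (δ.c b).2
        revert h3
        cases (δ.c a).2 <;> cases (δ.c b).2 <;> simp
  exact tr (sy (h1 _ q rfl)) (tr (h2 _ _) (h1 _ q' rfl))

theorem isFr (hc : Conn (δ.α, δ.c)) : IsFr σ (TT hδ e) where
  aa q := e.injective (by rw [e_a, e_a]; exact ax0_inv hδ _)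
  ane q h := by
    have h1 : ax0 hδ (e q) = e q := by rw [← aX_apply, ← e_a, h]
    by_cases h0 : (e q).2.val = 0
    · rw [ax0_zero hδ h0] at h1
      exact al_ne hδ _ (congrArg (fun z : XX δ => z.1.1) h1)
    · exact tau_ne hδ rfl ((ax0_pos hδ h0).1.symm.trans (congrArg Sigma.fst h1))
  ff q := by
    apply e.injective
    rw [he, e_f, he, e_f]
    have hq := (e q).2.2
    refine Xext ?_ ?_
    · rw [ioX_fst, fX_fst, ioX_fst, fX_fst, f_tau_f, tau_tau]
    · rw [ioX_snd, fX_snd, ioX_snd, fX_snd, fX_fst, fX_fst, ioX_fst, hh_fY, hh_tau, fX_fst,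
        hh_fY]
      omega
  fne q h := by
    have h1 : fX hδ (e q) = ioX hδ (e q) := by rw [← e_f, h, he]
    exact tau_ne hδ (lb_fY hδ _) (congrArg Sigma.fst h1).symm
  conn := connX hδ e he hc
  inj x y h := by
    have h1 := congrArg (fun z => (e z).1.1) h
    simp only [e_th] at h1
    exact h1
  eqv x := by
    apply e.injective
    rw [e_f, e_a, e_th, e_th, aX_top, fX_top, fY_ge, a0_fst]
    · exact congrArg (fun z => top hδ (th hδ (σ z))) (al_al hδ x).symm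
    · rw [a0_snd, a0_fst, hδ.inv]
      have := ln_pos hδ x
      simp only [th]
      omega
  reg q hq := by
    rw [mem_range_iff] at hq
    have hq2 := (e q).2.2
    by_cases h0 : (e q).2.val = 0
    · have hq1 : (e q).1.2.val ≠ 0 := fun h => hq ⟨h0, h⟩
      obtain ⟨h1, h2⟩ := fa_pos hδ _ hq1
      have hy := (e q).1.2.2
      have h6 : e ((TT hδ e).2.1 ((TT hδ e).1 q)) = top hδ (fY hδ (a0 hδ (e q).1)) := by
        rw [e_f, e_a, aX_apply, ax0_zero hδ h0, fX_top]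
      constructor
      · apply e.injective
        rw [e_f, e_a, h6, aX_top, fX_top]
        obtain ⟨h3, h4⟩ := fa_pos hδ (fY hδ (a0 hδ (e q).1)) (by rw [h2]; omega)
        refine Xext (Yext (h3.trans (by rw [h1, al_al hδ])) (h4.trans ?_)) h0.symm
        have h5 : δ.ℓ (fY hδ (a0 hδ (e q).1)).1 = δ.ℓ (e q).1.1 := by rw [h1, hδ.inv]
        rw [h2, h5]
        omega
      · intro h
        rw [h] at h6
        exact al_ne hδ _ (h1.symm.trans (congrArg (fun z : XX δ => z.1.1) h6).symm)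
    · obtain ⟨h1, h2⟩ := ax0_pos hδ h0
      have h3 : (e ((TT hδ e).2.1 ((TT hδ e).1 q))).1 = fY hδ (tau hδ (e q).1) := by
        rw [e_f, e_a, fX_fst, aX_apply, h1]
      have h4 : (e ((TT hδ e).2.1 ((TT hδ e).1 q))).2.val = hh δ (e q).1 - (e q).2.val := by
        rw [e_f, e_a, fX_snd, aX_apply, h2]
      constructor
      · apply e.injective
        obtain ⟨h5, h6⟩ := ax0_pos hδ (q := e ((TT hδ e).2.1 ((TT hδ e).1 q))) (by omega)
        rw [e_f, e_a]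
        refine Xext ?_ ?_
        · rw [fX_fst, aX_apply, h5, h3, f_tau_f, tau_tau]
        · have h7 : hh δ (e ((TT hδ e).2.1 ((TT hδ e).1 q))).1 = hh δ (e q).1 := by
            rw [h3, hh_fY, hh_tau]
          rw [fX_snd, aX_apply, h6, h4, h7]
          omega
      · intro h
        rw [h] at h3
        have h5 := lb_fY hδ (tau hδ (e q).1)
        rw [← h3, lb_tau] at h5
        simpa using congrArg Prod.snd h5

end ConsAux

theorem pCons : SCons := by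
  intro H J _ _ _ _ _ σ π v _ k N δ hδ hc
  obtain ⟨N', e, he⟩ := StructUp.pairing (ConsAux.ioX hδ) (ConsAux.ioX_inv hδ) (ConsAux.ioX_ne hδ)
  have h1 : N' = N := by
    have h2 := Fintype.card_congr e
    rw [ConsAux.card_XX hδ, Fintype.card_prod, Fintype.card_fin, Fintype.card_bool] at h2
    omega
  subst h1
  exact ⟨ConsAux.TT hδ e, ConsAux.isFr hδ e he hc, ConsAux.realizes hδ e he⟩

end Pool.Agent.STS.Cy
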