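import Pool.Agent.P.MP_bb7f8f_gt.Q2.Base

set_option linter.unusedSectionVars false

namespace Pool.Agent.STS.Cy
open Equiv Finset Filter Topology

namespace ConvAux

/-- the binomial comparison sequence -/
noncomputable def P (d n : ℕ) : ℝ := ((n + d).choose d : ℝ)

/-- running sums -/
noncomputable def S (a : ℕ → ℝ) (N : ℕ) : ℝ := ∑ m ∈ range (N + 1), a m

/-- convolution -/
noncomputable def cv (a b : ℕ → ℝ) (N : ℕ) : ℝ := ∑ q ∈ antidiagonal N, a q.1 * b q.2

theorem one_le_P (d n : ℕ) : 1 ≤ P d n := by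
  have : 1 ≤ (n + d).choose d := Nat.choose_pos (Nat.le_add_left _ _)
  unfold P
  exact_mod_cast this

theorem P_pos (d n : ℕ) : 0 < P d n := lt_of_lt_of_le one_pos (one_le_P d n)

theorem P_zero (n : ℕ) : P 0 n = 1 := by simp [P]

theorem P_succ_left (d n : ℕ) : P (d + 1) n * ((d : ℝ) + 1) = P d n * ((n : ℝ) + d + 1) := by
  have h := Nat.add_one_mul_choose_eq (n + d) d
  unfold P
  have h2 : (((n + d + 1) * (n + d).choose d : ℕ) : ℝ) =
      (((n + d + 1).choose (d + 1) * (d + 1) : ℕ) : ℝ) := by rw [h]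
  push_cast at h2
  rw [show n + (d + 1) = n + d + 1 from rfl]
  linarith

theorem P_succ_right (d n : ℕ) : P d (n + 1) * ((n : ℝ) + 1) = P d n * ((n : ℝ) + d + 1) := by
  have h := Nat.choose_mul_succ_eq (n + d) d
  rw [show n + d + 1 - d = n + 1 by omega] at h
  unfold P
  have h2 : (((n + d).choose d * (n + d + 1) : ℕ) : ℝ) =
      (((n + d + 1).choose d * (n + 1) : ℕ) : ℝ) := by rw [h]
  push_cast at h2
  rw [show n + 1 + d = n + d + 1 by omega]
  linarith

theorem P_le_succ_left (d n : ℕ) : P d n ≤ P (d + 1) n := by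
  have h := P_succ_left d n
  have hp := P_pos d n
  have hn : (0 : ℝ) ≤ n := Nat.cast_nonneg n
  have hd : (0 : ℝ) < (d : ℝ) + 1 := by positivity
  refine le_of_mul_le_mul_right ?_ hd
  rw [h]
  nlinarith

theorem P_mono {d d' n n' : ℕ} (hd : d ≤ d') (hn : n ≤ n') : P d n ≤ P d' n' := by
  have h1 : P d n ≤ P d n' := by
    unfold P
    exact_mod_cast Nat.choose_le_choose d (by omega)
  have h2 : Monotone fun k => P k n' := monotone_nat_of_le_succ fun k => P_le_succ_left k n'
  exact h1.trans (h2 hd)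

theorem S_succ (a : ℕ → ℝ) (N : ℕ) : S a (N + 1) = S a N + a (N + 1) :=
  Finset.sum_range_succ _ _

theorem S_zero (a : ℕ → ℝ) : S a 0 = a 0 := by simp [S]

theorem S_P (d : ℕ) : S (P d) = P (d + 1) := by
  funext N
  induction N with
  | zero => simp [S_zero, P]
  | succ N ih =>
    rw [S_succ, ih]
    unfold P
    rw [show N + 1 + (d + 1) = (N + (d + 1)) + 1 by omega, Nat.choose_succ_succ',
      show N + 1 + d = N + (d + 1) by omega]
    push_cast
    ring

theorem S_cv (a b : ℕ → ℝ) : S (cv a b) = cv (S a) b := by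
  funext N
  induction N with
  | zero => simp [S_zero, cv]
  | succ N ih =>
    rw [S_succ, ih]
    unfold cv
    rw [Finset.Nat.sum_antidiagonal_succ, Finset.Nat.sum_antidiagonal_succ]
    simp only [S_succ, S_zero, add_mul, Finset.sum_add_distrib]
    ring

theorem cv_eq (a b : ℕ → ℝ) (N : ℕ) : cv a b N = ∑ n ∈ range (N + 1), a n * b (N - n) :=
  Finset.Nat.sum_antidiagonal_eq_sum_range_succ (fun i j => a i * b j) N

theorem cv_one_right (a : ℕ → ℝ) : cv a (fun _ => 1) = S a := by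
  funext N
  simp [cv_eq, S]

theorem cv_P_zero (b : ℕ → ℝ) : cv (P 0) b = S b := by
  funext N
  rw [cv_eq]
  simp only [P_zero, one_mul]
  exact Finset.sum_flip b

/-- weighted means of a null sequence -/
theorem toeplitz (w : ℕ → ℕ → ℝ) (x : ℕ → ℝ) (z : ℝ) (hw : ∀ N n, 0 ≤ w N n)
    (hM : Tendsto (fun N => ∑ n ∈ range (N + 1), w N n) atTop (𝓝 z))
    (h0 : ∀ n, Tendsto (fun N => w N n) atTop (𝓝 0)) (hx : Tendsto x atTop (𝓝 0)) :
    Tendsto (fun N => ∑ n ∈ range (N + 1), w N n * x n) atTop (𝓝 0) := by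
  rw [Metric.tendsto_atTop]
  intro ε hε
  have hz : 0 < |z| + 1 := by positivity
  have hδ : 0 < ε / (2 * (|z| + 1)) := by positivity
  obtain ⟨n0, hn0⟩ := Metric.tendsto_atTop.1 hx _ hδ
  have h1 : Tendsto (fun N => ∑ n ∈ range n0, w N n * |x n|) atTop (𝓝 0) := by
    have := tendsto_finsetSum (range n0) fun n _ => (h0 n).mul_const |x n|
    simpa using this
  have e1 := h1.eventually (gt_mem_nhds (half_pos hε))
  have e2 := hM.eventually (gt_mem_nhds (show z < |z| + 1 by linarith [le_abs_self z]))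
  obtain ⟨N0, hN0⟩ := eventually_atTop.1 (e1.and e2)
  refine ⟨N0, fun N hN => ?_⟩
  obtain ⟨f1, f2⟩ := hN0 N hN
  rw [Real.dist_eq, sub_zero]
  have b1 : |∑ n ∈ range (N + 1), w N n * x n| ≤ ∑ n ∈ range (N + 1),
      (w N n * (ε / (2 * (|z| + 1))) + if n < n0 then w N n * |x n| else 0) := by
    refine (Finset.abs_sum_le_sum_abs _ _).trans (Finset.sum_le_sum fun n _ => ?_)
    rw [abs_mul, abs_of_nonneg (hw N n)]
    split_ifs with h
    · have := mul_nonneg (hw N n) hδ.le
      linarith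
    · have h3 := hn0 n (not_lt.1 h)
      rw [Real.dist_eq, sub_zero] at h3
      rw [add_zero]
      exact mul_le_mul_of_nonneg_left h3.le (hw N n)
  have b2 : ∑ n ∈ range (N + 1), (if n < n0 then w N n * |x n| else 0) ≤
      ∑ n ∈ range n0, w N n * |x n| := by
    rw [← Finset.sum_filter]
    refine Finset.sum_le_sum_of_subset_of_nonneg (fun n hn => ?_)
      fun n _ _ => mul_nonneg (hw N n) (abs_nonneg _)
    exact Finset.mem_range.2 (Finset.mem_filter.1 hn).2
  rw [Finset.sum_add_distrib, ← Finset.sum_mul] at b1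
  have b3 : (∑ n ∈ range (N + 1), w N n) * (ε / (2 * (|z| + 1))) ≤ ε / 2 := by
    calc _ ≤ (|z| + 1) * (ε / (2 * (|z| + 1))) := mul_le_mul_of_nonneg_right f2.le hδ.le
      _ = ε / 2 := by field_simp
  linarith

/-- replacing the left factor by its comparison sequence -/
theorem key {A b Q : ℕ → ℝ} {d : ℕ} {z₁ z₂ : ℝ} (hb : ∀ m, 0 ≤ b m) (hQ : ∀ N, 0 < Q N)
    (hA : Tendsto (fun n => A n / P d n) atTop (𝓝 z₁))
    (hP : Tendsto (fun N => cv (P d) b N / Q N) atTop (𝓝 z₂))
    (h0 : ∀ n, Tendsto (fun N => b (N - n) / Q N) atTop (𝓝 0)) :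
    Tendsto (fun N => cv A b N / Q N) atTop (𝓝 (z₁ * z₂)) := by
  have hx : Tendsto (fun n => A n / P d n - z₁) atTop (𝓝 0) := by
    simpa using hA.sub_const z₁
  have hs : ∀ N, ∑ n ∈ range (N + 1), P d n * (b (N - n) / Q N) = cv (P d) b N / Q N := by
    intro N
    rw [cv_eq, Finset.sum_div]
    exact Finset.sum_congr rfl fun n _ => by ring
  have hT := toeplitz (fun N n => P d n * (b (N - n) / Q N)) _ z₂
    (fun N n => mul_nonneg (P_pos d n).le (div_nonneg (hb _) (hQ N).le))
    (hP.congr fun N => (hs N).symm) (fun n => by simpa using (h0 n).const_mul (P d n)) hx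
  have h2 := hT.add (hP.const_mul z₁)
  rw [zero_add] at h2
  refine h2.congr fun N => ?_
  rw [← hs N, Finset.mul_sum, ← Finset.sum_add_distrib, cv_eq, Finset.sum_div]
  refine Finset.sum_congr rfl fun n _ => ?_
  have := (P_pos d n).ne'
  field_simp
  ring

theorem inv_P_tendsto (d : ℕ) : Tendsto (fun N => (1 : ℝ) / P (d + 1) N) atTop (𝓝 0) := by
  refine squeeze_zero (fun N => (one_div_pos.2 (P_pos _ _)).le) (fun N => ?_)
    tendsto_one_div_add_atTop_nhds_zero_nat
  have h : P 1 N ≤ P (d + 1) N := P_mono (by omega) le_rfl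
  have h1 : P 1 N = (N : ℝ) + 1 := by simp [P]
  rw [h1] at h
  exact one_div_le_one_div_of_le (by positivity) h

/-- one summation step -/
theorem step {A : ℕ → ℝ} {d : ℕ} {z : ℝ} (hA : Tendsto (fun n => A n / P d n) atTop (𝓝 z)) :
    Tendsto (fun n => S A n / P (d + 1) n) atTop (𝓝 z) := by
  have h := key (b := fun _ => 1) (Q := P (d + 1)) (z₂ := 1) (fun _ => zero_le_one) (P_pos _) hA
    (by
      rw [cv_one_right, S_P]
      exact tendsto_const_nhds.congr fun N => (div_self (P_pos _ N).ne').symm)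
    (fun _ => inv_P_tendsto d)
  rwa [cv_one_right, mul_one] at h

theorem cv_P_tendsto {b : ℕ → ℝ} {d₂ : ℕ} {z : ℝ}
    (hb : Tendsto (fun n => S b n / P d₂ n) atTop (𝓝 z)) (d₁ : ℕ) :
    Tendsto (fun n => cv (P d₁) b n / P (d₁ + d₂) n) atTop (𝓝 z) := by
  induction d₁ with
  | zero => rwa [cv_P_zero, zero_add]
  | succ d ih =>
    have h := step ih
    rwa [S_cv, S_P, show d + d₂ + 1 = d + 1 + d₂ by omega] at h

theorem ratio_tendsto (d : ℕ) : Tendsto (fun m => P d m / P d (m + 1)) atTop (𝓝 1) := by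
  have h := tendsto_add_mul_div_add_mul_atTop_nhds (1 : ℝ) ((d : ℝ) + 1) 1 one_ne_zero
  rw [div_one] at h
  refine h.congr fun m => ?_
  have h1 := P_succ_right d m
  have h2 := (P_pos d (m + 1)).ne'
  have h3 : (0 : ℝ) < (d : ℝ) + 1 + 1 * m := by positivity
  rw [div_eq_div_iff h3.ne' h2]
  linarith

theorem term_tendsto {b : ℕ → ℝ} {d : ℕ} {z : ℝ}
    (hb : Tendsto (fun n => S b n / P d n) atTop (𝓝 z)) :
    Tendsto (fun n => b n / P d n) atTop (𝓝 0) := by
  rw [← tendsto_add_atTop_iff_nat 1]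
  have h1 := (tendsto_add_atTop_iff_nat 1).2 hb
  have h2 := h1.sub (hb.mul (ratio_tendsto d))
  rw [mul_one, sub_self] at h2
  refine h2.congr fun m => ?_
  have := (P_pos d m).ne'
  have := (P_pos d (m + 1)).ne'
  rw [S_succ]
  field_simp
  ring

theorem fact_P_tendsto (d : ℕ) :
    Tendsto (fun N : ℕ => (d.factorial : ℝ) * P d N / (N : ℝ) ^ d) atTop (𝓝 1) := by
  induction d with
  | zero => simp [P_zero]
  | succ d ih =>
    have h := tendsto_add_mul_div_add_mul_atTop_nhds ((d : ℝ) + 1) 0 1 one_ne_zero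
    rw [div_one] at h
    have h2 := ih.mul h
    rw [mul_one] at h2
    refine h2.congr fun N => ?_
    have h1 := P_succ_left d N
    rw [Nat.factorial_succ, pow_succ, div_mul_div_comm, zero_add, one_mul]
    push_cast
    congr 1
    linear_combination (-(d.factorial : ℝ)) * h1

theorem asy_iff (a : ℕ → ℝ) (d : ℕ) (z : ℝ) :
    Asy a d z ↔ Tendsto (fun n => S a n / P d n) atTop (𝓝 z) := by
  have hf : (0 : ℝ) < d.factorial := by exact_mod_cast d.factorial_pos
  constructor
  · intro h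
    have h2 := Tendsto.div h (fact_P_tendsto d) one_ne_zero
    rw [div_one] at h2
    refine h2.congr' ?_
    filter_upwards [eventually_gt_atTop 0] with N hN
    have h3 : (0 : ℝ) < N := by exact_mod_cast hN
    have := (P_pos d N).ne'
    simp only [Pi.div_apply, S]
    field_simp
  · intro h
    have h2 := h.mul (fact_P_tendsto d)
    rw [mul_one] at h2
    refine h2.congr fun N => ?_
    have := (P_pos d N).ne'
    simp only [S]
    field_simp

end ConvAux

open ConvAux in
theorem pConv : SConv := by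
  intro a b d₁ d₂ z₁ z₂ _ hb h1 h2
  rw [asy_iff] at h1 h2 ⊢
  have h3 : (fun m => ∑ q ∈ antidiagonal m, a q.1 * b q.2) = cv a b := rfl
  rw [h3, S_cv]
  refine key hb (P_pos _) h1 (cv_P_tendsto h2 d₁) fun n => ?_
  refine squeeze_zero (fun N => div_nonneg (hb _) (P_pos _ _).le) (fun N => ?_)
    ((term_tendsto h2).comp (tendsto_sub_atTop_nat n))
  exact div_le_div_of_nonneg_left (hb _) (P_pos _ _) (P_mono (by omega) (Nat.sub_le _ _))

end Pool.Agent.STS.Cy
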