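import Pool.Agent.P.MP_bb7f8f_gt.Q2.Base

set_option linter.unusedSectionVars false

namespace Pool.Agent.STS.Cy
open Equiv Finset Filter Topology

namespace CoresAux

theorem card_small {A : Type} [DecidableEq A] (S : Finset A) (r : ℕ) :
    #(S.powerset.filter fun O => #O ≤ r) ≤ (#S + 1) ^ r := by
  calc _ ≤ #((range (r + 1)).biUnion fun k => powersetCard k S) := by
        refine card_le_card fun O hO => ?_
        rw [mem_filter, mem_powerset] at hO
        exact mem_biUnion.2 ⟨#O, mem_range.2 (by omega), mem_powersetCard.2 ⟨hO.1, rfl⟩⟩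
    _ ≤ ∑ k ∈ range (r + 1), #(powersetCard k S) := card_biUnion_le
    _ ≤ ∑ k ∈ range (r + 1), #S ^ k * 1 ^ (r - k) * (r.choose k : ℕ) := by
        refine sum_le_sum fun k hk => ?_
        rw [card_powersetCard, one_pow, mul_one]
        exact (Nat.choose_le_pow _ _).trans
          (Nat.le_mul_of_pos_right _ (Nat.choose_pos (by have := mem_range.1 hk; omega)))
    _ = _ := (add_pow (#S) 1 r).symm

theorem card_fix {H J : Type} [Fintype H] [DecidableEq H] [Fintype J] [DecidableEq J]
    {σ : Perm H} {π : H → J} {v : J → ℕ} {D M : ℕ} (h : Vx σ π v D M) :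
    #{x | σ x = x} ≤ M := by
  refine le_trans (card_le_card_of_injOn π ?_ ?_) h.pole
  · intro x hx
    have hx' : σ x = x := by simpa using hx
    have h1 : ({y | π y = π x} : Finset H) = {x} := by
      ext y
      simp only [mem_filter, mem_univ, true_and, mem_singleton]
      exact ⟨fun k => ((h.cyc.same y x).1 k).eq_of_right hx', fun k => by rw [k]⟩
    have h2 := h.cyc.card (π x)
    rw [h1, card_singleton] at h2
    simpa using h2.symm
  · intro x hx y _ k
    have hx' : σ x = x := by simpa using hx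
    exact ((h.cyc.same x y).1 k).eq_of_left hx'

theorem ww_le (hZle : SZle) {H : Type} [Fintype H] [DecidableEq H] (σ : Perm H) (Y : Finset H)
    {s : ℕ} (hs : #Yᶜ = 2 * s) (k : ℕ) :
    WW σ Y k ≤ ((2 * s).factorial * (2 * k + 1) ^ (2 * s) : ℕ) * (4 ^ s * (s : ℝ) ^ k) := by
  classical
  have hc : Fintype.card {x // x ∉ Y} = 2 * s := by
    rw [← hs, Fintype.card_subtype]
    congr 1
    ext x
    simp
  unfold WW WI
  refine (sum_le_card_nsmul _ _ (4 ^ s * (s : ℝ) ^ k) fun p hp => ?_).trans ?_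
  · have ha := (mem_filter.1 hp).2
    obtain ⟨h0, h1⟩ := hZle _ _ p.1 p.2 _ ha.ok
    have h2 := h1 ha.mt
    have h3 : (nu p.1 p.2 : ℝ) ≤ 4 ^ s := by
      have := nu_le (α := p.1) (c := p.2)
      rw [hc, pow_mul] at this
      exact_mod_cast this
    have h4 : Fintype.card {x // x ∉ Y} / 2 = s := by rw [hc]; omega
    rw [h4, Fintype.card_fin] at h2
    rw [h4] at h0 ⊢
    exact mul_le_mul h3 h2 h0 (by positivity)
  · rw [nsmul_eq_mul]
    refine mul_le_mul_of_nonneg_right ?_ (by positivity)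
    refine Nat.cast_le.2 ((card_le_univ _).trans (le_of_eq ?_))
    rw [Fintype.card_prod, Fintype.card_perm, Fintype.card_fun, Fintype.card_option,
      Fintype.card_prod, Fintype.card_fin, Fintype.card_bool, hc, mul_comm k 2]

end CoresAux

theorem pCores : SCores := by
  intro H J _ _ _ _ σ π v D M h s
  classical
  have hsub : Cores σ π s ⊆ ((({x | σ x = x} : Finset H).powerset) ×ˢ
      (((univ : Finset H) ×ˢ range (2 * s + 1)).powerset.filter fun O => #O ≤ 2 * s / 3)).image
      fun q => (q.1 ∪ q.2.biUnion (seg σ))ᶜ := by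
    intro Y hY
    obtain ⟨hsh, hc⟩ := (mem_filter.1 hY).2
    obtain ⟨P, O, h1, h2, h3, h4⟩ := hsh.cov
    rw [hc] at h2 h3
    refine mem_image.2 ⟨(P, O), mem_product.2 ⟨mem_powerset.2 fun x hx => ?_,
      mem_filter.2 ⟨mem_powerset.2 fun q hq => ?_, ?_⟩⟩, ?_⟩
    · simpa using h1 x hx
    · exact mem_product.2 ⟨mem_univ _, mem_range.2 (Nat.lt_succ_of_le (h2 q hq))⟩
    · change #O ≤ _
      omega
    · change (P ∪ O.biUnion (seg σ))ᶜ = Y
      rw [← h4, compl_compl]
  refine (card_le_card hsub).trans (card_image_le.trans ?_)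
  rw [card_product, card_powerset]
  refine Nat.mul_le_mul (Nat.pow_le_pow_right (by norm_num) (CoresAux.card_fix h)) ?_
  refine (CoresAux.card_small _ _).trans (le_of_eq ?_)
  rw [card_product, card_univ, h.card, card_range]

theorem pWW (hZle : SZle) : SWW := by
  intro H _ _ σ Y s hs
  classical
  refine ⟨fun k => ?_, ?_⟩
  · unfold WW WI
    refine sum_nonneg fun p hp => mul_nonneg (Nat.cast_nonneg _) ?_
    exact (hZle _ _ p.1 p.2 _ (mem_filter.1 hp).2.ok).1
  · have h1 : (1 : ℝ) ≤ 2 * s + 1 := by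
      have : (0 : ℝ) ≤ s := Nat.cast_nonneg s
      linarith
    have hterm : ∀ k ∈ range (s + 1), WW σ Y k * 2 ^ k / (2 ^ k * k.factorial) ≤
        4 ^ s * (2 * s + 1 : ℝ) ^ (5 * s) := by
      intro k hk
      have hks : k ≤ s := Nat.lt_succ_iff.1 (mem_range.1 hk)
      have hf : (1 : ℝ) ≤ k.factorial := by exact_mod_cast k.factorial_pos
      have h2 : ((2 * s).factorial * (2 * k + 1) ^ (2 * s) : ℕ) ≤
          (2 * s + 1) ^ (2 * s) * (2 * s + 1) ^ (2 * s) :=
        Nat.mul_le_mul ((Nat.factorial_le_pow _).trans (Nat.pow_le_pow_left (by omega) _))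
          (Nat.pow_le_pow_left (by omega) _)
      have h3 : (((2 * s).factorial * (2 * k + 1) ^ (2 * s) : ℕ) : ℝ) ≤
          (2 * s + 1) ^ (2 * s) * (2 * s + 1) ^ (2 * s) := by exact_mod_cast h2
      have h4 : (s : ℝ) ^ k ≤ (2 * s + 1) ^ s :=
        (pow_le_pow_left₀ (Nat.cast_nonneg s) (by linarith) k).trans (pow_le_pow_right₀ h1 hks)
      have h5 : WW σ Y k ≤ 4 ^ s * (2 * s + 1 : ℝ) ^ (5 * s) := by
        refine (CoresAux.ww_le hZle σ Y hs k).trans ?_
        calc _ ≤ (2 * s + 1 : ℝ) ^ (2 * s) * (2 * s + 1) ^ (2 * s) *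
              (4 ^ s * (2 * s + 1) ^ s) := by gcongr
          _ = _ := by ring
      rw [mul_comm (WW σ Y k), mul_div_mul_left _ _ (by positivity)]
      exact (div_le_iff₀ (by positivity)).2 (h5.trans (le_mul_of_one_le_right (by positivity) hf))
    have h6 : s + 1 ≤ (2 * s + 1) ^ s := by
      rcases Nat.eq_zero_or_pos s with h | h
      · simp [h]
      · exact (by omega : s + 1 ≤ 2 * s + 1).trans (Nat.le_self_pow h.ne' _)
    have h7 : ((s + 1 : ℕ) : ℝ) ≤ (2 * s + 1) ^ s := by exact_mod_cast h6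
    unfold egr
    refine (sum_le_card_nsmul _ _ _ hterm).trans ?_
    rw [card_range, nsmul_eq_mul]
    calc _ ≤ (2 * s + 1 : ℝ) ^ s * (4 ^ s * (2 * s + 1) ^ (5 * s)) := by gcongr
      _ = _ := by ring

end Pool.Agent.STS.Cy
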