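import Pool.Agent.P.MP_bb7f8f_gt.Q2.Base

set_option linter.unusedSectionVars false

namespace Pool.Agent.STS.Cy
open Equiv Finset Filter Topology

namespace Corr2Aux
open Dart

variable {H : Type} {σ : Perm H} {N : ℕ} {γ γ' : Perm (Side N)} {a f : Perm (XS N)}
  {θ : H → XS N}

lemma top_f (x : XS N) : Top (a, f, θ) (f x) ↔ Top (a, f, θ) x :=
  exists_congr fun _ => Perm.sameCycle_apply_left

lemma top_pow (m : ℕ) (x : XS N) : Top (a, f, θ) ((f ^ m) x) ↔ Top (a, f, θ) x :=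
  exists_congr fun _ => Perm.sameCycle_pow_left

lemma top_theta (h : H) : Top (a, f, θ) (θ h) := ⟨h, Perm.SameCycle.refl _ _⟩

/-- across a row without prongs the rows on both sides are traversed in opposite directions -/
lemma flip (hT : IsFr σ (a, f, θ)) (m : ℕ) (x : XS N) (hx : ¬ Top (a, f, θ) x) :
    ∃ z, ¬ Top (a, f, θ) z ∧ (f ^ m) (a x) = a z := by
  induction m with
  | zero => exact ⟨x, hx, rfl⟩
  | succ m ih =>
    obtain ⟨z, hz, e⟩ := ih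
    have h1 : f (a (f (a z))) = z :=
      (hT.reg z fun ⟨h, hh⟩ => hz (by rw [← show θ h = z from hh]; exact top_theta h)).1
    have h2 : ∀ y, a (a y) = y := hT.aa
    refine ⟨a (f (a z)), fun h => hz ?_, ?_⟩
    · rw [← h1]
      exact (top_f _).2 h
    · rw [pow_succ', Perm.mul_apply, e, h2]

lemma top_of_a (hT : IsFr σ (a, f, θ)) (x : XS N) (h : Top (a, f, θ) (a x)) :
    Top (a, f, θ) x := by
  by_contra hx
  obtain ⟨w, hw⟩ := h
  obtain ⟨m, hm⟩ := (same_iff f _ _).1 hw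
  obtain ⟨z, hz, e⟩ := flip hT m x hx
  have h1 : θ (σ w) = f (a (θ w)) := hT.eqv w
  have h2 : ∀ y, a (a y) = y := hT.aa
  have h3 : (f ^ m) (a x) = θ w := hm
  rw [← h3, e, h2] at h1
  exact hz ((top_f z).1 (h1 ▸ top_theta (σ w)))

lemma top_a (hT : IsFr σ (a, f, θ)) (x : XS N) : Top (a, f, θ) (a x) ↔ Top (a, f, θ) x :=
  ⟨top_of_a hT x, fun h => top_of_a hT (a x) (by
    have h2 : a (a x) = x := hT.aa x
    rw [h2]
    exact h)⟩

/-- the side lies at the top of a cylinder -/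
def Sd (T : Tri H N) (y : Side N) : Prop :=
  ∃ x, (y = hz 1 x ∨ y = rot N (hz 1 x)) ∧ Top T x

lemma sd_hz (T : Tri H N) (x : XS N) : Sd T (hz 1 x) ↔ Top T x := by
  refine ⟨?_, fun h => ⟨x, Or.inl rfl, h⟩⟩
  rintro ⟨y, e | e, hy⟩
  · rw [hz_inj 1 e]
    exact hy
  · exact absurd e.symm (hz_ne 1 _ _)

lemma sd_rot (T : Tri H N) (x : XS N) : Sd T (rot N (hz 1 x)) ↔ Top T x := by
  refine ⟨?_, fun h => ⟨x, Or.inr rfl, h⟩⟩
  rintro ⟨y, e | e, hy⟩
  · exact absurd e (hz_ne 1 _ _)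
  · rw [hz_inj 1 ((rot N).injective e)]
    exact hy

lemma rot_snd (x : XS N) : (rot N (hz 1 x)).2 = 0 ∨ (rot N (hz 1 x)).2 = 2 := by
  obtain ⟨s, _ | _⟩ := x
  · exact Or.inl rfl
  · exact Or.inr rfl

lemma hz_odd (x : XS N) : (hz 1 x).2 = 1 ∨ (hz 1 x).2 = 3 := by
  obtain ⟨s, _ | _⟩ := x
  · exact Or.inr rfl
  · exact Or.inl rfl

lemma par_ne : ∀ t : ZMod 4, t = 0 ∨ t = 2 → t = 1 ∨ t = 3 → False := by decide

lemma sd_inv (h : Corr 1 γ a f) (hT : IsFr σ (a, f, θ)) {p q : Side N}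
    (e : Relation.EqvGen (fun a b => b = vert γ a ∨ ((a.2 = 1 ∨ a.2 = 3) ∧ b = γ a)) p q) :
    Sd (a, f, θ) p ↔ Sd (a, f, θ) q := by
  induction e with
  | rel p q hpq =>
    obtain ⟨y, rfl | rfl⟩ := side_cases 1 p
    · rcases hpq with rfl | ⟨-, rfl⟩
      · rw [h.vert_hz, sd_hz, sd_rot, top_a hT]
      · rw [← h.1, sd_hz, sd_hz, top_a hT]
    · rcases hpq with rfl | ⟨h1, -⟩
      · rw [h.vert_rot, sd_hz, sd_rot, top_f]
      · exact (par_ne _ (rot_snd y) h1).elim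
  | refl p => exact Iff.rfl
  | symm p q _ ih => exact ih.symm
  | trans p q r _ _ ih ih' => exact ih.trans ih'

lemma step_f (h : Corr 1 γ a f) (hT : IsFr σ (a, f, θ)) (p : XS N) :
    Relation.EqvGen (fun a b => b = vert γ a ∨ ((a.2 = 1 ∨ a.2 = 3) ∧ b = γ a))
      (hz 1 p) (hz 1 (f p)) := by
  refine .trans _ _ _ (.rel _ _ (Or.inr ⟨hz_odd p, h.1 p⟩))
    (.trans _ _ _ (.rel _ _ (Or.inl rfl)) (.rel _ _ (Or.inl ?_)))
  have e : a (a p) = p := hT.aa p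
  rw [h.vert_hz, h.vert_rot, e]

lemma step_pow (h : Corr 1 γ a f) (hT : IsFr σ (a, f, θ)) (m : ℕ) (p : XS N) :
    Relation.EqvGen (fun a b => b = vert γ a ∨ ((a.2 = 1 ∨ a.2 = 3) ∧ b = γ a))
      (hz 1 p) (hz 1 ((f ^ m) p)) := by
  induction m with
  | zero => exact .refl _
  | succ m ih =>
    rw [pow_succ', Perm.mul_apply]
    exact .trans _ _ _ ih (step_f h hT _)

lemma sing_iff {J : Type} [Fintype H] [DecidableEq J] {π : H → J} {v : J → ℕ} (hc : Cyc σ π v)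
    (h : Corr 1 γ a f) (hT : IsFr σ (a, f, θ)) (x : XS N) :
    OnSing γ (hz 1 x) ↔ Top (a, f, θ) x := by
  constructor
  · rintro ⟨y, hy, e⟩
    obtain ⟨z, hz1, hz2⟩ := h.to_hz y
    obtain ⟨w, rfl⟩ : z ∈ Set.range θ :=
      by_contra fun hn => hy (hz2 ▸ (h.four_iff z).2 (hT.reg z hn))
    rw [← sd_hz, sd_inv h hT e]
    rcases hz1 with e1 | e1
    · rw [e1, sd_hz]
      exact top_theta w
    · rw [sd_inv h hT (.rel _ _ (Or.inl e1)), sd_hz]
      exact top_theta w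
  · rintro ⟨w, hw⟩
    obtain ⟨m, hm⟩ := (same_iff f _ _).1 hw
    have h3 : (f ^ m) x = θ w := hm
    refine ⟨hz 1 (θ w), ?_, h3 ▸ step_pow h hT m x⟩
    have hs : ∀ x, θ (σ x) = (f * a) (θ x) := hT.eqv
    rw [h.corners_hz, semi_per hT.inj hs, cyc_per hc]
    obtain ⟨k, hk⟩ := hc.odd (π w)
    omega

lemma mk_true {R : XS N → XS N → Prop} (hR : ∀ p, R p (io N p)) (p : XS N) :
    Quot.mk R (p.1, true) = Quot.mk R p := by
  obtain ⟨s, _ | _⟩ := p
  · exact Quot.sound (hR (s, true))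
  · rfl

lemma cyl_eq {J : Type} [Fintype H] [DecidableEq J] {π : H → J} {v : J → ℕ} (hc : Cyc σ π v)
    (h : Corr 1 γ a f) (hT : IsFr σ (a, f, θ)) : numCyl γ = xcyl (a, f, θ) := by
  unfold numCyl xcyl
  have hR : ∀ p : XS N, io N p = io N p ∨ io N p = f p ∨ (io N p = a p ∧ ¬ Top (a, f, θ) p) :=
    fun p => Or.inl rfl
  refine Nat.card_congr
    { toFun := Quot.lift (fun s => Quot.mk _ (s, true)) ?_
      invFun := Quot.lift (fun p => Quot.mk _ p.1) ?_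
      left_inv := ?_
      right_inv := ?_ }
  · rintro _ _ ⟨x, rfl, rfl, hx⟩
    obtain ⟨y, rfl | rfl⟩ := side_cases 1 x
    · have h1 : ¬ OnSing γ (hz 1 y) := by
        rcases hx with hx | hx | hx
        · exact (par_ne _ (Or.inl hx) (hz_odd y)).elim
        · exact (par_ne _ (Or.inr hx) (hz_odd y)).elim
        · exact hx
      rw [sing_iff hc h hT] at h1
      rw [← h.1]
      refine (mk_true hR y).trans (Eq.trans (Quot.sound ?_) (mk_true hR (a y)).symm)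
      exact Or.inr (Or.inr ⟨rfl, h1⟩)
    · rw [h.rot_hz]
      refine (mk_true hR y).trans (Eq.trans (Quot.sound ?_) (mk_true hR (f y)).symm)
      exact Or.inr (Or.inl rfl)
  · rintro p _ (rfl | rfl | ⟨rfl, hp⟩)
    · rfl
    · refine Quot.sound ⟨rot N (hz 1 p), rfl, ?_, ?_⟩
      · rw [h.rot_hz]
        rfl
      · exact (rot_snd p).imp_right Or.inl
    · refine Quot.sound ⟨hz 1 p, rfl, ?_, Or.inr (Or.inr ?_)⟩
      · rw [← h.1]
        rfl
      · rw [sing_iff hc h hT]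
        exact hp
  · rintro ⟨s⟩
    rfl
  · rintro ⟨p⟩
    exact mk_true hR p

lemma sing_map {g : Perm (Side N)} (hg : IsRelabel g) (e : g * γ = γ' * g) {x : Side N}
    (hx : OnSing γ x) : OnSing γ' (g x) := by
  obtain ⟨y, hy, hxy⟩ := hx
  refine ⟨g y, by rw [Class.corners_conj hg e]; exact hy, eqv_map g ?_ hxy⟩
  rintro p _ (rfl | ⟨h1, rfl⟩)
  · exact .rel _ _ (Or.inl (congrArg (fun u : Perm (Side N) => u p) (Class.vert_conj hg e)))
  · have key : ∀ b c : ZMod 4, (b = 1 ∨ b = 3) → (c = b ∨ c = b + 2) → (c = 1 ∨ c = 3) := by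
      decide
    exact .rel _ _ (Or.inr ⟨key _ _ h1 (hg.2 p), congrArg (fun u : Perm (Side N) => u p) e⟩)

lemma sing_conj {g : Perm (Side N)} (hg : IsRelabel g) (e : g * γ = γ' * g) (x : Side N) :
    OnSing γ' (g x) ↔ OnSing γ x := by
  refine ⟨fun h => ?_, sing_map hg e⟩
  have e' : g⁻¹ * γ' = γ * g⁻¹ := by
    rw [inv_mul_eq_iff_eq_mul, ← mul_assoc, e, mul_assoc, mul_inv_cancel, mul_one]
  have h1 := sing_map (Class.relabel_inv hg) e' h
  rwa [show g⁻¹ (g x) = x from g.symm_apply_apply x] at h1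

lemma cyl_iso (h : Iso γ γ') : numCyl γ = numCyl γ' := by
  obtain ⟨g, hg, e⟩ := h
  obtain ⟨q, hq⟩ := Class.mkRel_surj hg
  have h1 : ∀ x, (g x).1 = q.1 x.1 := fun x => by
    rw [← hq]
    rfl
  have h2 : ∀ x, γ' (g x) = g (γ x) := fun x => (congrArg (fun u : Perm (Side N) => u x) e).symm
  have key : ∀ b c : ZMod 4, (c = b ∨ c = b + 2) → ∀ P : Prop,
      (c = 0 ∨ c = 2 ∨ P ↔ b = 0 ∨ b = 2 ∨ P) := by
    have k2 : ∀ b c : ZMod 4, (c = b ∨ c = b + 2) → (c = 0 ∨ c = 2 ↔ b = 0 ∨ b = 2) := by decide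
    intro b c hbc P
    rw [← or_assoc, ← or_assoc, k2 b c hbc]
  unfold numCyl
  refine Nat.card_congr (Quot.congr q.1 fun s s' => ⟨?_, ?_⟩)
  · rintro ⟨x, rfl, rfl, hx⟩
    refine ⟨g x, h1 x, by rw [h2, h1], ?_⟩
    rw [key _ _ (hg.2 x), sing_conj hg e]
    exact hx
  · rintro ⟨x, e1, e2, hx⟩
    obtain ⟨x, rfl⟩ := g.surjective x
    rw [key _ _ (hg.2 x), sing_conj hg e] at hx
    rw [h1] at e1
    rw [h2, h1] at e2
    exact ⟨x, q.1.injective e1, q.1.injective e2, hx⟩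

end Corr2Aux

theorem pCorr : SCorr :=
  ⟨fun _ _ _ _ _ _ _ _ _ hc _ _ _ _ _ h hT => Corr2Aux.cyl_eq hc h hT,
    fun _ _ _ h => Corr2Aux.cyl_iso h⟩

end Pool.Agent.STS.Cy
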