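import Pool.Agent.P.MP_bb7f8f_gt.Q2.Base

set_option linter.unusedSectionVars false

namespace Pool.Agent.STS.Cy
open Equiv Finset Filter Topology

namespace DatAux

variable {H : Type} [Fintype H] [DecidableEq H] {k : ℕ}

theorem pr_shift (c : H → Fin k × Bool) (l : H → ℕ) (f : Fin k × Bool) :
    pr (tot c) (fun x => (l x : ℤ) - 1) f + eo (tot c) (fun _ => true) f = per c l f := by
  rw [eo, ← pr_add, pr_tot, per]
  push_cast
  exact Finset.sum_congr rfl fun x _ => by simp

theorem fibre (σ : Perm H) (m : ℕ) {p : Dg H (Fin k)} (hp : IsDg σ p) :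
    Set.ncard {δ : Datum H k | IsDat σ m δ ∧ (δ.α, δ.c) = p} =
      cn p.1 (tot p.2) (eo (tot p.2) fun _ => true) m := by
  refine Set.ncard_congr
    (fun δ _ => (fun x => (δ.ℓ x : ℤ) - 1, fun i => (δ.h i : ℤ), fun i => (δ.t i : ℤ))) ?_ ?_ ?_
  · rintro δ ⟨h, rfl⟩
    refine ⟨⟨fun x => by simp only [h.inv x], fun i => ?_⟩, fun x => ?_, fun i => ?_,
      fun i => ⟨by positivity, ?_⟩, ?_⟩
    · simp only [pr_shift, h.bal i, Datum.w]
    · have := h.pos x
      simp only
      omega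
    · exact Int.ofNat_le.2 (h.hpos i)
    · simp only [pr_shift]
      exact_mod_cast h.tlt i
    · simp only [pr_shift]
      exact_mod_cast h.area
  · rintro ⟨α, c, l, h, t⟩ ⟨α', c', l', h', t'⟩ ⟨-, h1⟩ ⟨-, h2⟩ e
    simp only [Prod.mk.injEq, funext_iff, sub_left_inj, Nat.cast_inj] at e
    have h3 := h1.trans h2.symm
    simp only [Prod.mk.injEq] at h3
    rw [h3.1, h3.2, funext e.1, funext e.2.1, funext e.2.2]
  · rintro ⟨l, h, t⟩ ⟨⟨a1, a2⟩, a3, a4, a5, a6⟩
    simp only at a1 a2 a3 a4 a5 a6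
    have e1 : (fun x => (((l x + 1).toNat : ℕ) : ℤ) - 1) = l := funext fun x => by
      have := a3 x
      omega
    have e2 : ∀ i, (((h i).toNat : ℕ) : ℤ) = h i := fun i => by
      have := a4 i
      omega
    have e3 : ∀ i, (((t i).toNat : ℕ) : ℤ) = t i := fun i => by
      have := (a5 i).1
      omega
    have e4 := pr_shift p.2 fun x => (l x + 1).toNat
    rw [e1] at e4
    simp only [e4] at a2 a5 a6
    refine ⟨⟨p.1, p.2, fun x => (l x + 1).toNat, fun i => (h i).toNat, fun i => (t i).toNat⟩,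
      ⟨⟨hp.1, hp.2, fun x => by simp only [a1 x], fun x => ?_, fun i => ?_, fun i => ?_,
        fun i => ?_, ?_⟩, rfl⟩, ?_⟩
    · have := a3 x
      simp only
      omega
    · exact_mod_cast (a2 i).symm
    · have := a4 i
      simp only
      omega
    · have := (a5 i).2
      rw [← e3 i] at this
      exact_mod_cast this
    · rw [Finset.sum_congr rfl fun i _ => by rw [← e2 i]] at a6
      exact_mod_cast a6
    · simp only [e1, e2, e3]

open Classical in
/-- the diagrams with property `P` -/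
noncomputable def sel (σ : Perm H) (P : Dg H (Fin k) → Prop) : Finset (Dg H (Fin k)) :=
  {p | IsDg σ p ∧ P p}

theorem mem_sel {σ : Perm H} {P : Dg H (Fin k) → Prop} {p : Dg H (Fin k)} :
    p ∈ sel σ P ↔ IsDg σ p ∧ P p := by
  simp [sel]

theorem datc_eq (σ : Perm H) (m : ℕ) (P : Dg H (Fin k) → Prop) :
    datc σ k m (fun δ => P (δ.α, δ.c)) = ∑ p ∈ sel σ P,
      cn p.1 (tot p.2) (eo (tot p.2) fun _ => true) m := by
  have e : {δ : Datum H k | IsDat σ m δ ∧ P (δ.α, δ.c)} =
      ⋃ p ∈ ((sel σ P : Finset _) : Set (Dg H (Fin k))),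
        {δ : Datum H k | IsDat σ m δ ∧ (δ.α, δ.c) = p} := by
    ext δ
    simp only [Set.mem_ofPred_eq, Set.mem_iUnion, Finset.mem_coe, mem_sel]
    constructor
    · rintro ⟨h1, h2⟩
      exact ⟨_, ⟨⟨h1.mt, h1.lab⟩, h2⟩, h1, rfl⟩
    · rintro ⟨p, h1, h2, rfl⟩
      exact ⟨h2, h1.2⟩
  rw [datc, e, Set.Finite.ncard_biUnion (Finset.finite_toSet _)
    (fun p _ => (dat_finite σ k m).subset fun δ h => h.1)
    (fun p _ q _ hpq => Set.disjoint_left.2 fun δ h1 h2 => hpq (h1.2.symm.trans h2.2)),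
    finsum_mem_coe_finset]
  exact Finset.sum_congr rfl fun p hp => fibre σ m (mem_sel.1 hp).1

open Classical in
theorem tp_eq (σ : Perm H) (P : Dg H (Fin k) → Prop) :
    TP σ (Fin k) P = ∑ p ∈ sel σ fun p => Conn p ∧ P p,
      if ∀ x, ¬ Static p.1 (tot p.2) x then zz p.1 (tot p.2) (Fintype.card H / 2) else 0 := by
  rw [TP, ← Finset.sum_filter]
  refine Finset.sum_congr ?_ fun _ _ => rfl
  ext p
  simp only [mem_filter, mem_univ, true_and, mem_sel, Prim]
  tauto

theorem good_iff (α : Perm H) (c : H → Fin k × Bool) :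
    Good α (tot c) (eo (tot c) fun _ => true) ↔ ∀ x, ¬ Static α (tot c) x := by
  constructor
  · rintro ⟨a, h1, h2⟩ x hx
    have h3 : Sol α (tot c) 0 (a + fun _ => 1) := ⟨fun y => by simp [h1.1 y], fun i => by
      have := h1.2 i
      simp only [pr_add, Pi.zero_apply, add_zero]
      exact this⟩
    have h4 := hx _ h3
    have h5 := h2 x hx
    simp only [Pi.add_apply] at h4
    omega
  · intro h
    refine ⟨fun _ => ((0 : ℕ) : ℤ) - 1, ⟨fun _ => rfl, fun i => ?_⟩, fun x hx => (h x hx).elim⟩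
    rw [pr_shift c fun _ => 0, pr_shift c fun _ => 0]
    simp [per]

end DatAux

open DatAux in
theorem pDat (hLat : SLat) : SDat := by
  intro H J _ _ _ _ σ π v D M hv k P
  have e0 : (fun m => (datc σ k m fun δ => Conn (δ.α, δ.c) ∧ P (δ.α, δ.c) : ℝ)) = fun m =>
      ∑ p ∈ sel σ fun p => Conn p ∧ P p,
        (cn p.1 (tot p.2) (eo (tot p.2) fun _ => true) m : ℝ) := funext fun m => by
    rw [← Nat.cast_sum, ← datc_eq σ m fun p => Conn p ∧ P p]
  rw [e0, tp_eq, hv.half]
  refine asy_sum _ fun p hp => ?_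
  have hd := (mem_sel.1 hp).1
  split_ifs with h
  · exact (hLat H (Fin k) p.1 (tot p.2) D (dg_ok hv.cyc hv.card hd)).2
      (fun i => dg_w hv.cyc hd i true) _ (eo_nonneg _) ((good_iff p.1 p.2).2 h)
  · simp only [cn_eq_zero fun hg => h ((good_iff p.1 p.2).1 hg), Nat.cast_zero]
    exact asy_zero D

end Pool.Agent.STS.Cy
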