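import Pool.Agent.P.MP_bb7f8f_gt.Q2.Base

set_option linter.unusedSectionVars false

namespace Pool.Agent.STS.Cy
open Equiv Finset Filter Topology

namespace DecAux

variable {H I : Type} [Fintype H] [DecidableEq H] [Fintype I] [DecidableEq I]
  {σ : Perm H} {Y : Finset H} {L : Finset I}

theorem exists_glue (p₁ : Dg {x // x ∈ Y} {i // i ∈ L}) {α₂ : Perm {x // x ∉ Y}}
    {c₂ : {x // x ∉ Y} → Option ({i // i ∉ L} × Bool)} (hA : Adm σ Y α₂ c₂) :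
    ∃ p : Dg H I, Glue σ Y L p p₁ α₂ c₂ := by
  have h : ∀ x : {x // x ∉ Y}, ∃ g : I × Bool, (∀ f, c₂ x = some f → g = (f.1.1, f.2)) ∧
      (c₂ x = none → ∃ h : nxt σ Y x.1 ∈ Y,
        g = ((p₁.2 ⟨_, h⟩).1.1, (p₁.2 ⟨_, h⟩).2)) := by
    intro x
    rcases hx : c₂ x with _ | f
    · have h1 := nxt_mem σ Y x.1 (hA.outer x hx).1
      exact ⟨_, fun f hf => by simp at hf, fun _ => ⟨h1, rfl⟩⟩
    · refine ⟨(f.1.1, f.2), fun f' hf => ?_, fun hf => by simp at hf⟩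
      rw [Option.some.inj hf]
  choose g hg using h
  refine ⟨(Perm.subtypeCongr p₁.1 α₂, fun x => if h : x ∈ Y then
    ((p₁.2 ⟨x, h⟩).1.1, (p₁.2 ⟨x, h⟩).2) else g ⟨x, h⟩), fun x => ?_, fun x => ?_, fun x => ?_,
    fun x f hf => ?_, fun x hx => ?_⟩
  · exact Perm.subtypeCongr.left_apply_subtype _ _ x
  · exact Perm.subtypeCongr.right_apply_subtype _ _ x
  · simp only [dif_pos x.2]
  · simp only [dif_neg x.2]
    exact (hg x).1 f hf
  · obtain ⟨h1, h2⟩ := (hg x).2 hx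
    refine ⟨h1, ?_⟩
    simp only [dif_neg x.2, dif_pos h1]
    exact h2

theorem glue_unique {p p' : Dg H I} {p₁ : Dg {x // x ∈ Y} {i // i ∈ L}}
    {α₂ : Perm {x // x ∉ Y}} {c₂ : {x // x ∉ Y} → Option ({i // i ∉ L} × Bool)}
    (h : Glue σ Y L p p₁ α₂ c₂) (h' : Glue σ Y L p' p₁ α₂ c₂) : p = p' := by
  refine Prod.ext (Equiv.ext fun x => ?_) (funext fun x => ?_)
  · by_cases hx : x ∈ Y
    · exact (h.a1 ⟨x, hx⟩).trans (h'.a1 ⟨x, hx⟩).symm
    · exact (h.a2 ⟨x, hx⟩).trans (h'.a2 ⟨x, hx⟩).symm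
  · by_cases hx : x ∈ Y
    · exact (h.c1 ⟨x, hx⟩).trans (h'.c1 ⟨x, hx⟩).symm
    · rcases hc : c₂ ⟨x, hx⟩ with _ | f
      · obtain ⟨h1, h2⟩ := h.c3 _ hc
        obtain ⟨-, h3⟩ := h'.c3 _ hc
        exact h2.trans (((h.c1 ⟨_, h1⟩).trans (h'.c1 ⟨_, h1⟩).symm).trans h3.symm)
      · exact (h.c2 _ f hc).trans (h'.c2 _ f hc).symm

theorem glue_none {p : Dg H I} {p₁ : Dg {x // x ∈ Y} {i // i ∈ L}}
    {α₂ : Perm {x // x ∉ Y}} {c₂ : {x // x ∉ Y} → Option ({i // i ∉ L} × Bool)}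
    (h : Glue σ Y L p p₁ α₂ c₂) (x : {x // x ∉ Y}) : c₂ x = none ↔ (p.2 x.1).1 ∈ L := by
  constructor
  · intro hc
    obtain ⟨h1, h2⟩ := h.c3 _ hc
    rw [h2, h.c1 ⟨_, h1⟩]
    exact (p₁.2 ⟨_, h1⟩).1.2
  · intro hm
    rcases hc : c₂ x with _ | f
    · rfl
    · rw [h.c2 _ f hc] at hm
      exact absurd hm f.1.2

theorem glue_inj {p : Dg H I} {p₁ p₁' : Dg {x // x ∈ Y} {i // i ∈ L}}
    {α₂ α₂' : Perm {x // x ∉ Y}} {c₂ c₂' : {x // x ∉ Y} → Option ({i // i ∉ L} × Bool)}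
    (h : Glue σ Y L p p₁ α₂ c₂) (h' : Glue σ Y L p p₁' α₂' c₂') :
    p₁ = p₁' ∧ α₂ = α₂' ∧ c₂ = c₂' := by
  refine ⟨Prod.ext (Equiv.ext fun x => Subtype.ext ((h.a1 x).symm.trans (h'.a1 x)))
    (funext fun x => ?_), Equiv.ext fun x => Subtype.ext ((h.a2 x).symm.trans (h'.a2 x)),
    funext fun x => ?_⟩
  · have h1 := (h.c1 x).symm.trans (h'.c1 x)
    exact Prod.ext (Subtype.ext (Prod.ext_iff.1 h1).1) (Prod.ext_iff.1 h1).2
  · rcases hc : c₂ x with _ | f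
    · exact ((glue_none h' x).2 ((glue_none h x).1 hc)).symm
    · rcases hc' : c₂' x with _ | f'
      · rw [(glue_none h x).2 ((glue_none h' x).1 hc')] at hc
        exact absurd hc (by simp)
      · have h1 := (h.c2 x f hc).symm.trans (h'.c2 x f' hc')
        rw [show f = f' from
          Prod.ext (Subtype.ext (Prod.ext_iff.1 h1).1) (Prod.ext_iff.1 h1).2]

theorem mf {α : Type} {q : α → Prop} {_ : DecidablePred q} {s : Finset α} {a : α} :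
    a ∈ s.filter q ↔ a ∈ s ∧ q a := Finset.mem_filter

theorem card_out (Y : Finset H) : Fintype.card {x // x ∉ Y} = #Yᶜ := by
  rw [Fintype.card_subtype]
  congr 1
  ext x
  simp

end DecAux

open DecAux

theorem pDec (hLat : SLat) (hConv : SConv) (hRed : SRed) (hPar : SPar) (hGlue : SGlue) (hGdg : SGdg) : SDec := by
  intro H J I _ _ _ _ _ _ σ π v D M hV s Y hY L
  obtain ⟨hSh, hc⟩ : Shape σ π Y ∧ #Yᶜ = 2 * s := by simpa [Cores] using hY
  obtain ⟨hsD, J', _, _, π', v', hV'⟩ := hRed H J σ π v D M hV Y s hSh hc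
  have hs : Fintype.card {x // x ∉ Y} / 2 = s := by rw [card_out, hc]; omega
  have key : ∀ (p : Dg H I) (p₁ : Dg {x // x ∈ Y} {i // i ∈ L}) (α₂ : Perm {x // x ∉ Y})
      (c₂ : {x // x ∉ Y} → Option ({i // i ∉ L} × Bool)), Prim (red σ Y) p₁ → Adm σ Y α₂ c₂ →
      Glue σ Y L p p₁ α₂ c₂ →
      (2 : ℝ) ^ (2 * (D - s) - 1) * (zz p₁.1 (tot p₁.2) (D - s) * (nu α₂ c₂ * zz α₂ c₂ s)) =
        nu p.1 (tot p.2) * zz p.1 (tot p.2) D := by
    intro p p₁ α₂ c₂ hP hA hG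
    have hp := hGdg H I σ Y L p p₁ α₂ c₂ hP.1 hA hG
    obtain ⟨-, -, -, hcn, hnu⟩ := hGlue H I σ Y L p p₁ α₂ c₂ hG hA.ok.1
    have h0 := (hLat _ _ _ _ _ (dg_ok hV.cyc hV.card hp)).1
    have h1 := (hLat _ _ _ _ _ (dg_ok hV'.cyc hV'.card hP.1)).1
    have h2 := (hLat _ _ _ _ _ hA.ok).1
    rw [hs] at h2
    have h3 := hConv _ _ _ _ _ _ (fun m => Nat.cast_nonneg _) (fun m => Nat.cast_nonneg _) h1 h2
    rw [Nat.sub_add_cancel hsD] at h3
    have h4 : (fun m => (cn p.1 (tot p.2) 0 m : ℝ)) = fun m => ∑ q ∈ antidiagonal m,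
        (cn p₁.1 (tot p₁.2) 0 q.1 : ℝ) * (cn α₂ c₂ 0 q.2 : ℝ) := by
      funext m
      rw [hcn m]
      push_cast
      rfl
    rw [h4] at h0
    have h5 := hnu _ hP.2.2 (hPar _ J' _ (red σ Y) π' v' hV'.cyc p₁ hP.1 hP.2.1)
    rw [h0.unique h3, h5, hV'.card]
    push_cast
    ring
  unfold XP TP WI
  rw [hV.half, hV'.half, hs, mul_assoc, Finset.sum_mul_sum, ← Finset.sum_product', Finset.mul_sum]
  symm
  refine Finset.sum_bij (fun q hq => Classical.choose (exists_glue q.1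
    (mf.1 (Finset.mem_product.1 hq).2).2)) ?_ ?_ ?_ ?_
  · intro q hq
    have hP := (mf.1 (Finset.mem_product.1 hq).1).2.1
    have hA := (mf.1 (Finset.mem_product.1 hq).2).2
    have hG := Classical.choose_spec (exists_glue q.1 hA)
    exact mf.2 ⟨Finset.mem_univ _, hGdg H I σ Y L _ _ _ _ hP.1 hA hG,
      _, _, _, hP, hA, hG⟩
  · intro q hq q' hq' h
    have hG := Classical.choose_spec (exists_glue q.1
      (mf.1 (Finset.mem_product.1 hq).2).2)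
    have hG' := Classical.choose_spec (exists_glue q'.1
      (mf.1 (Finset.mem_product.1 hq').2).2)
    rw [← show _ = _ from h] at hG'
    obtain ⟨h1, h2, h3⟩ := glue_inj hG hG'
    exact Prod.ext h1 (Prod.ext h2 h3)
  · intro p hp
    obtain ⟨-, -, p₁, α₂, c₂, hP, hA, hG⟩ := mf.1 hp
    refine ⟨(p₁, α₂, c₂), Finset.mem_product.2 ⟨mf.2 ⟨Finset.mem_univ _, hP, trivial⟩,
      mf.2 ⟨Finset.mem_univ _, hA⟩⟩, ?_⟩
    exact glue_unique (Classical.choose_spec (exists_glue p₁ hA)) hG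
  · intro q hq
    have hP := (mf.1 (Finset.mem_product.1 hq).1).2.1
    have hA := (mf.1 (Finset.mem_product.1 hq).2).2
    exact key _ _ _ _ hP hA (Classical.choose_spec (exists_glue q.1 hA))

end Pool.Agent.STS.Cy
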