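import Pool.Agent.P.MP_bb7f8f_gt.Q2.Base

set_option linter.unusedSectionVars false

namespace Pool.Agent.STS.Cy.EmAux
open Equiv Finset Filter Topology

theorem rpow_cmp {x y c e : ℝ} (k : ℕ) (hx : 0 < x) (hy : 0 < y) (hc : 1 ≤ c) (h : y ≤ c * x)
    (he : e ≤ 0) (hk : -(k : ℝ) ≤ e) : x ^ e ≤ c ^ k * y ^ e := by
  have hc0 : 0 < c := by linarith
  have h1 : (c * x) ^ e ≤ y ^ e := Real.rpow_le_rpow_of_nonpos hy h he
  rw [Real.mul_rpow hc0.le hx.le] at h1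
  have h2 : 1 ≤ c ^ k * c ^ e := by
    rw [← Real.rpow_natCast, ← Real.rpow_add hc0]
    exact Real.one_le_rpow hc (by linarith)
  have h3 : 0 ≤ x ^ e := by positivity
  calc x ^ e ≤ (c ^ k * c ^ e) * x ^ e := le_mul_of_one_le_left h3 h2
    _ = c ^ k * (c ^ e * x ^ e) := by ring
    _ ≤ _ := by gcongr

theorem ab_succ (s : ℂ) (m : ℕ) : ab s (m + 1) = ab s m * (s + m) / (m + 1) := by
  have h1 : ((m.factorial : ℕ) : ℂ) ≠ 0 := by exact_mod_cast m.factorial_ne_zero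
  have h2 : ((m : ℂ) + 1) ≠ 0 := by exact_mod_cast m.succ_ne_zero
  simp only [ab, Finset.prod_range_succ, Nat.factorial_succ]
  push_cast
  field_simp

theorem norm_succ (m : ℕ) : ‖(m : ℂ) + 1‖ = m + 1 := by
  have : ((m : ℂ) + 1) = ((m + 1 : ℕ) : ℂ) := by push_cast; ring
  rw [this, Complex.norm_natCast]; push_cast; ring

theorem ab_le_one {s : ℂ} (hs : ‖s‖ ≤ 1) (m : ℕ) : ‖ab s m‖ ≤ 1 := by
  induction m with
  | zero => simp [ab]
  | succ m ih =>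
    have h1 : ‖s + m‖ ≤ m + 1 := by
      have := norm_add_le s (m : ℂ)
      rw [Complex.norm_natCast] at this
      linarith
    rw [ab_succ, norm_div, norm_mul, norm_succ, div_le_one (by positivity)]
    calc _ ≤ 1 * ((m : ℝ) + 1) := by gcongr
      _ = _ := one_mul _

theorem re_le {s : ℂ} (hs : ‖s‖ ≤ 1) : -1 ≤ s.re ∧ s.re ≤ 1 :=
  abs_le.1 ((Complex.abs_re_le_norm s).trans hs)

section
variable {A : ℝ} (hA : ∀ n : ℕ, 1 ≤ n → ∀ s : ℂ, ‖s‖ ≤ 1 →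
  ‖ab s n - (n : ℂ) ^ (s - 1) / Complex.Gamma s‖ ≤ A * (n : ℝ) ^ (s.re - 2))
include hA

theorem A_nonneg : 0 ≤ A := by
  have := (norm_nonneg _).trans (hA 1 le_rfl 0 (by simp))
  simpa using this

theorem ab_le {s : ℂ} (hs : ‖s‖ ≤ 1) {m : ℕ} (hm : 1 ≤ m) :
    ‖ab s m‖ ≤ (1 + 2 * A) * (m : ℝ) ^ (s.re - 1) := by
  have hA0 := A_nonneg hA
  have h1 : ‖1 / Complex.Gamma s‖ ≤ 1 + A := by
    have h := hA 1 le_rfl s hs
    simp only [Nat.cast_one, Complex.one_cpow, Real.one_rpow, mul_one] at h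
    have h2 := ab_le_one hs 1
    have h3 := norm_sub_le (ab s 1) (ab s 1 - 1 / Complex.Gamma s)
    rw [sub_sub_cancel] at h3
    linarith
  have hm' : (1 : ℝ) ≤ m := by exact_mod_cast hm
  have h2 : ‖(m : ℂ) ^ (s - 1) / Complex.Gamma s‖ ≤ (m : ℝ) ^ (s.re - 1) * (1 + A) := by
    rw [div_eq_mul_one_div, norm_mul, Complex.norm_natCast_cpow_of_pos hm]
    simp only [Complex.sub_re, Complex.one_re]
    gcongr
  have h3 : (m : ℝ) ^ (s.re - 2) ≤ (m : ℝ) ^ (s.re - 1) :=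
    Real.rpow_le_rpow_of_exponent_le hm' (by linarith)
  have h4 := norm_add_le (ab s m - (m : ℂ) ^ (s - 1) / Complex.Gamma s)
    ((m : ℂ) ^ (s - 1) / Complex.Gamma s)
  rw [sub_add_cancel] at h4
  have h5 := hA m hm s hs
  have h6 := mul_le_mul_of_nonneg_left h3 hA0
  linarith

theorem ab_diff {s : ℂ} (hs : ‖s‖ ≤ 1) {m : ℕ} (hm : 1 ≤ m) :
    ‖ab s m - ab s (m + 1)‖ ≤ 2 * (1 + 2 * A) * (m : ℝ) ^ (s.re - 2) := by
  have hA0 := A_nonneg hA
  have hm' : (0 : ℝ) < m := by exact_mod_cast hm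
  have h2 : ((m : ℂ) + 1) ≠ 0 := by exact_mod_cast m.succ_ne_zero
  have e : ab s m - ab s (m + 1) = ab s m * (1 - s) / (m + 1) := by
    rw [ab_succ]; field_simp; ring
  have h3 : ‖1 - s‖ ≤ 2 := by
    have := norm_sub_le (1 : ℂ) s
    rw [norm_one] at this
    linarith
  have e2 : (m : ℝ) ^ (s.re - 1) = (m : ℝ) ^ (s.re - 2) * m := by
    rw [← Real.rpow_add_one hm'.ne']; congr 1; ring
  have h4 := ab_le hA hs hm
  rw [e, norm_div, norm_mul, norm_succ, div_le_iff₀ (by positivity)]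
  calc _ ≤ (1 + 2 * A) * (m : ℝ) ^ (s.re - 1) * 2 := by gcongr
    _ = 2 * (1 + 2 * A) * (m : ℝ) ^ (s.re - 2) * m := by rw [e2]; ring
    _ ≤ _ := by gcongr; linarith

theorem ab_near {s : ℂ} (hs : ‖s‖ ≤ 1) (n i : ℕ) (hi : 2 * i ≤ n) :
    ‖ab s (n - i) - ab s n‖ ≤ 16 * (1 + 2 * A) * i * (n : ℝ) ^ (s.re - 2) := by
  have hA0 := A_nonneg hA
  induction i with
  | zero => simp
  | succ i ih =>
    have h1 := ih (by omega)
    have hm : 1 ≤ n - (i + 1) := by omega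
    have h2 := ab_diff hA hs hm
    rw [show n - (i + 1) + 1 = n - i by omega] at h2
    have h3 : ((n - (i + 1) : ℕ) : ℝ) ^ (s.re - 2) ≤ 2 ^ 3 * (n : ℝ) ^ (s.re - 2) := by
      refine rpow_cmp 3 (by exact_mod_cast hm) (by exact_mod_cast (by omega : 0 < n)) one_le_two
        (by exact_mod_cast (by omega : n ≤ 2 * (n - (i + 1)))) ?_ ?_
      · linarith [(re_le hs).2]
      · push_cast; linarith [(re_le hs).1]
    have h4 := norm_sub_le_norm_sub_add_norm_sub (ab s (n - (i + 1))) (ab s (n - i)) (ab s n)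
    have h5 := mul_le_mul_of_nonneg_left h3 (by positivity : 0 ≤ 2 * (1 + 2 * A))
    push_cast
    linarith

theorem ab_all {s : ℂ} (hs : ‖s‖ ≤ 1) {n : ℕ} (hn : 1 ≤ n) (i : ℕ) :
    ‖(if i ≤ n then ab s (n - i) else 0) - ab s n‖ ≤
      16 * (1 + 2 * A) * (i : ℝ) ^ 3 * (n : ℝ) ^ (s.re - 2) := by
  have hA0 := A_nonneg hA
  have hn' : (1 : ℝ) ≤ n := by exact_mod_cast hn
  by_cases hi : 2 * i ≤ n
  · rw [if_pos (by omega)]
    refine (ab_near hA hs n i hi).trans ?_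
    have : (i : ℝ) ≤ (i : ℝ) ^ 3 := by exact_mod_cast Nat.le_self_pow (by norm_num) i
    gcongr
  · have h1 : ‖(if i ≤ n then ab s (n - i) else 0) - ab s n‖ ≤ 2 := by
      refine (norm_sub_le _ _).trans ?_
      have := ab_le_one hs n
      split_ifs
      · linarith [ab_le_one hs (n - i)]
      · simp only [norm_zero]; linarith
    have h2 : 1 ≤ (n : ℝ) ^ 3 * (n : ℝ) ^ (s.re - 2) := by
      rw [← Real.rpow_natCast, ← Real.rpow_add (by linarith)]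
      exact Real.one_le_rpow hn' (by push_cast; linarith [(re_le hs).1])
    have h3 : (n : ℝ) ≤ 2 * i := by exact_mod_cast (by omega : n ≤ 2 * i)
    have h4 : (n : ℝ) ^ 3 ≤ (2 * i) ^ 3 := by gcongr
    have h5 : 0 ≤ (n : ℝ) ^ (s.re - 2) := by positivity
    calc _ ≤ 2 * ((n : ℝ) ^ 3 * (n : ℝ) ^ (s.re - 2)) := by linarith
      _ ≤ 2 * ((2 * i) ^ 3 * (n : ℝ) ^ (s.re - 2)) := by gcongr
      _ = 16 * 1 * (i : ℝ) ^ 3 * (n : ℝ) ^ (s.re - 2) := by ring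
      _ ≤ _ := by gcongr; linarith

theorem conv_near {B S : ℝ} (hS : HasSum (fun i : ℕ => (i : ℝ) ^ 3 * (1 / 3) ^ i) S) {s : ℂ}
    (hs : ‖s‖ ≤ 1) {b : ℕ → ℂ} (hb : ∀ i, ‖b i‖ ≤ B / 3 ^ i) (hsum : HasSum b (2 ^ s)) {n : ℕ}
    (hn : 1 ≤ n) : ‖∑ q ∈ antidiagonal n, b q.1 * ab s q.2 - 2 ^ s * ab s n‖ ≤
      B * (16 * (1 + 2 * A)) * (n : ℝ) ^ (s.re - 2) * S := by
  have h1 : HasSum (fun i => b i * (if i ≤ n then ab s (n - i) else 0))
      (∑ q ∈ antidiagonal n, b q.1 * ab s q.2) := by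
    rw [Finset.Nat.sum_antidiagonal_eq_sum_range_succ (fun i j => b i * ab s j)]
    have e : ∑ k ∈ range n.succ, b k * ab s (n - k) =
        ∑ k ∈ range n.succ, b k * (if k ≤ n then ab s (n - k) else 0) :=
      Finset.sum_congr rfl fun k hk => by rw [if_pos (Nat.lt_succ_iff.1 (mem_range.1 hk))]
    rw [e]
    refine hasSum_sum_of_ne_finset_zero fun i hi => ?_
    rw [if_neg (fun h => hi (mem_range.2 (Nat.lt_succ_iff.2 h))), mul_zero]
  refine (h1.sub (hsum.mul_right (ab s n))).norm_le_of_bounded (hS.mul_left _) fun i => ?_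
  rw [← mul_sub, norm_mul]
  calc _ ≤ B / 3 ^ i * (16 * (1 + 2 * A) * (i : ℝ) ^ 3 * (n : ℝ) ^ (s.re - 2)) :=
        mul_le_mul (hb i) (ab_all hA hs hn i) (norm_nonneg _) ((norm_nonneg _).trans (hb i))
    _ = _ := by rw [one_div, inv_pow]; ring

end

theorem two_cpow_le {s : ℂ} (hs : ‖s‖ ≤ 1) : ‖(2 : ℂ) ^ s‖ ≤ 2 := by
  have h := Complex.norm_natCast_cpow_of_pos (n := 2) (by norm_num) s
  push_cast at h
  rw [h]
  calc (2 : ℝ) ^ s.re ≤ 2 ^ (1 : ℝ) := Real.rpow_le_rpow_of_exponent_le one_le_two (re_le hs).2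
    _ = 2 := Real.rpow_one 2

theorem GG_eq (n : ℕ) (s : ℂ) :
    GG (2 * n) (2 * s) = 2 ^ s * ((n : ℂ) ^ (s - 1) / Complex.Gamma s) := by
  have e : 2 * s / 2 = s := by ring
  have h := Complex.natCast_mul_natCast_cpow 2 n (s - 1)
  have h2 : (2 : ℂ) ^ s = 2 * 2 ^ (s - 1) := by
    rw [Complex.cpow_sub _ _ two_ne_zero, Complex.cpow_one]; ring
  push_cast at h
  rw [GG, e, h2]
  push_cast
  rw [h]
  ring

end Pool.Agent.STS.Cy.EmAux

namespace Pool.Agent.STS.Cy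
open Equiv Finset Filter Topology

theorem pEm (hEmA : SEmA) (hEmB : SEmB) : SEm := by
  obtain ⟨A, hA⟩ := hEmA
  obtain ⟨B, hB⟩ := hEmB
  have hA0 := EmAux.A_nonneg hA
  have hB0 : 0 ≤ B := by
    obtain ⟨b, hb, -⟩ := hB 0 (by simp)
    simpa using (norm_nonneg _).trans (hb 0)
  have hS := (summable_pow_mul_geometric_of_norm_lt_one (R := ℝ) 3 (r := 1 / 3)
    (by norm_num)).hasSum
  set S := ∑' i : ℕ, (i : ℝ) ^ 3 * (1 / 3) ^ i with hSd
  have hS0 : 0 ≤ S := tsum_nonneg fun i => by positivity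
  set K := B * (16 * (1 + 2 * A)) * S with hK
  have hK0 : 0 ≤ K := by positivity
  refine ⟨B + 9 * (K + 2 * (1 + 2 * A)), fun t ht => ?_⟩
  obtain ⟨s, rfl⟩ : ∃ s, t = 2 * s := ⟨t / 2, by ring⟩
  have hs : ‖s‖ ≤ 1 := by
    rw [norm_mul, Complex.norm_ofNat] at ht
    linarith
  have hre : (2 * s).re / 2 = s.re := by simp
  obtain ⟨r1, r2⟩ := EmAux.re_le hs
  obtain ⟨b, hb, hsum, hee⟩ := hB s hs
  have key : ∀ n : ℕ, 1 ≤ n →
      ‖ee (2 * n) (2 * s) - 2 ^ s * ab s n‖ ≤ K * (n : ℝ) ^ (s.re - 2) := fun n hn => by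
    rw [(hee n).2]
    exact (EmAux.conv_near hA hS hs hb hsum hn).trans (le_of_eq (by rw [hK]; ring))
  have h2 := EmAux.two_cpow_le hs
  rw [hre]
  constructor
  · intro n
    obtain ⟨m, rfl | rfl⟩ := Nat.even_or_odd' n
    · rcases Nat.eq_zero_or_pos m with rfl | hm
      · rw [(hee 0).2]
        have := hb 0
        simp only [pow_zero, div_one] at this
        have h3 : 0 ≤ 9 * (K + 2 * (1 + 2 * A)) := by positivity
        simp [ab]
        linarith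
      · have hm' : (1 : ℝ) ≤ m := by exact_mod_cast hm
        have h3 := EmAux.ab_le hA hs hm
        have h4 : (m : ℝ) ^ (s.re - 2) ≤ (m : ℝ) ^ (s.re - 1) :=
          Real.rpow_le_rpow_of_exponent_le hm' (by linarith)
        have h5 : (m : ℝ) ^ (s.re - 1) ≤ 3 ^ 2 * (((2 * m : ℕ) : ℝ) + 1) ^ (s.re - 1) :=
          EmAux.rpow_cmp 2 (by linarith) (by positivity) (by norm_num) (by push_cast; linarith)
            (by linarith) (by push_cast; linarith)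
        have h6 := norm_add_le (ee (2 * m) (2 * s) - 2 ^ s * ab s m) (2 ^ s * ab s m)
        rw [sub_add_cancel, norm_mul] at h6
        have h7 : ‖(2 : ℂ) ^ s‖ * ‖ab s m‖ ≤ 2 * ((1 + 2 * A) * (m : ℝ) ^ (s.re - 1)) := by
          gcongr
        have h8 := (key m hm).trans (mul_le_mul_of_nonneg_left h4 hK0)
        calc _ ≤ (K + 2 * (1 + 2 * A)) * (m : ℝ) ^ (s.re - 1) := by linarith
          _ ≤ (K + 2 * (1 + 2 * A)) * (3 ^ 2 * (((2 * m : ℕ) : ℝ) + 1) ^ (s.re - 1)) := by gcongr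
          _ = (9 * (K + 2 * (1 + 2 * A))) * (((2 * m : ℕ) : ℝ) + 1) ^ (s.re - 1) := by ring
          _ ≤ _ := by gcongr; linarith
    · rw [(hee m).1, norm_zero]
      positivity
  · rintro D ⟨n, hn⟩ hD
    obtain rfl : D = 2 * n := by omega
    have hn1 : 1 ≤ n := by omega
    have hn' : (1 : ℝ) ≤ n := by exact_mod_cast hn1
    have h3 := hA n hn1 s hs
    have h5 : (n : ℝ) ^ (s.re - 2) ≤ 2 ^ 3 * ((2 * n : ℕ) : ℝ) ^ (s.re - 2) :=
      EmAux.rpow_cmp 3 (by linarith) (by positivity) (by norm_num) (by push_cast; linarith)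
        (by linarith) (by push_cast; linarith)
    have h6 := norm_sub_le_norm_sub_add_norm_sub (ee (2 * n) (2 * s)) (2 ^ s * ab s n)
      (GG (2 * n) (2 * s))
    rw [EmAux.GG_eq, ← mul_sub, norm_mul] at h6
    have h7 : ‖(2 : ℂ) ^ s‖ * ‖ab s n - (n : ℂ) ^ (s - 1) / Complex.Gamma s‖ ≤
        2 * (A * (n : ℝ) ^ (s.re - 2)) := by gcongr
    have h8 := key n hn1
    rw [EmAux.GG_eq]
    calc _ ≤ (K + 2 * A) * (n : ℝ) ^ (s.re - 2) := by linarith
      _ ≤ (K + 2 * A) * (2 ^ 3 * ((2 * n : ℕ) : ℝ) ^ (s.re - 2)) := by gcongr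
      _ = (8 * (K + 2 * A)) * ((2 * n : ℕ) : ℝ) ^ (s.re - 2) := by ring
      _ ≤ _ := by gcongr; linarith

end Pool.Agent.STS.Cy
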