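import Pool.Agent.P.MP_bb7f8f_gt.Q2.Base

set_option linter.unusedSectionVars false

namespace Pool.Agent.STS.Cy.EmAAux
open Finset Filter Topology

/-- the normalised coefficients -/
noncomputable def rr (s : ℂ) (n : ℕ) : ℂ := ab s n / (n : ℂ) ^ (s - 1)

/-- the ratio of consecutive powers -/
noncomputable def ex (s : ℂ) (n : ℕ) : ℂ := Complex.exp (-(s * (Real.log (1 + 1 / n) : ℝ)))

theorem ab_succ (s : ℂ) (n : ℕ) : ab s (n + 1) = ab s n * (s + n) / (n + 1) := by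
  have h1 : (n.factorial : ℂ) ≠ 0 := by exact_mod_cast n.factorial_ne_zero
  have h2 : ((n : ℂ) + 1) ≠ 0 := by exact_mod_cast n.succ_ne_zero
  unfold ab
  rw [prod_range_succ, Nat.factorial_succ]
  push_cast
  field_simp

theorem cpow_eq (s : ℂ) {n : ℕ} (hn : 1 ≤ n) :
    (n : ℂ) ^ s = Complex.exp (s * (Real.log n : ℝ)) := by
  have h : (n : ℂ) ≠ 0 := by exact_mod_cast (show n ≠ 0 by omega)
  rw [Complex.cpow_def_of_ne_zero h, mul_comm, ← Complex.ofReal_natCast,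
    ← Complex.ofReal_log (Nat.cast_nonneg n)]

theorem cpow_ne (s : ℂ) {n : ℕ} (hn : 1 ≤ n) : (n : ℂ) ^ s ≠ 0 := by
  rw [cpow_eq s hn]; exact Complex.exp_ne_zero _

theorem ex_mul (s : ℂ) {n : ℕ} (hn : 1 ≤ n) :
    ex s n * ((n + 1 : ℕ) : ℂ) ^ s = (n : ℂ) ^ s := by
  have h0 : (0 : ℝ) < n := by exact_mod_cast hn
  have h : Real.log ((n + 1 : ℕ) : ℝ) = Real.log n + Real.log (1 + 1 / n) := by
    rw [← Real.log_mul h0.ne' (by positivity)]
    congr 1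
    push_cast
    field_simp
  rw [cpow_eq s hn, cpow_eq s (Nat.le_add_left 1 n), ex, ← Complex.exp_add, h]
  congr 1
  push_cast
  ring

theorem cpow_sub_one (s : ℂ) {n : ℕ} (hn : 1 ≤ n) : (n : ℂ) ^ (s - 1) = (n : ℂ) ^ s / n := by
  have h : (n : ℂ) ≠ 0 := by exact_mod_cast (show n ≠ 0 by omega)
  rw [Complex.cpow_sub _ _ h, Complex.cpow_one]

theorem rr_succ (s : ℂ) {n : ℕ} (hn : 1 ≤ n) :
    rr s (n + 1) = rr s n * ((1 + s * (1 / n : ℝ)) * ex s n) := by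
  have h : (n : ℂ) ≠ 0 := by exact_mod_cast (show n ≠ 0 by omega)
  have h2 : ((n : ℂ) + 1) ≠ 0 := by exact_mod_cast n.succ_ne_zero
  have h3 := cpow_ne s hn
  have h4 := cpow_ne s (Nat.le_add_left 1 n)
  have h5 : ex s n = (n : ℂ) ^ s / ((n + 1 : ℕ) : ℂ) ^ s := by
    rw [eq_div_iff h4, ex_mul s hn]
  rw [rr, rr, cpow_sub_one s hn, cpow_sub_one s (Nat.le_add_left 1 n), ab_succ, h5]
  generalize ((n + 1 : ℕ) : ℂ) ^ s = A at h4 ⊢
  generalize (n : ℂ) ^ s = B at h3 ⊢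
  push_cast
  field_simp
  ring

theorem log_bounds {u : ℝ} (h0 : 0 ≤ u) :
    0 ≤ Real.log (1 + u) ∧ Real.log (1 + u) ≤ u ∧ u - Real.log (1 + u) ≤ u ^ 2 := by
  have h1 : 0 < 1 + u := by positivity
  refine ⟨Real.log_nonneg (by linarith), ?_, ?_⟩
  · have := Real.log_le_sub_one_of_pos h1
    linarith
  · have h2 := Real.one_sub_inv_le_log_of_pos h1
    have h3 : (1 + u)⁻¹ ≤ 1 - u + u ^ 2 := by
      rw [inv_le_iff_one_le_mul₀ h1]
      have : 0 ≤ u ^ 3 := by positivity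
      nlinarith
    linarith

theorem ratio_bound {s : ℂ} (hs : ‖s‖ ≤ 1) {u : ℝ} (h0 : 0 ≤ u) (h1 : u ≤ 1) :
    ‖(1 + s * (u : ℝ)) * Complex.exp (-(s * (Real.log (1 + u) : ℝ))) - 1‖ ≤ 4 * u ^ 2 := by
  obtain ⟨a1, a2, a3⟩ := log_bounds h0
  generalize Real.log (1 + u) = l at a1 a2 a3 ⊢
  have hs0 := norm_nonneg s
  have b1 : ‖-(s * (l : ℂ))‖ ≤ u := by
    rw [norm_neg, norm_mul, Complex.norm_real, Real.norm_of_nonneg a1]
    nlinarith
  have b2 := Complex.norm_exp_sub_one_sub_id_le (b1.trans h1)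
  have b3 : ‖Complex.exp (-(s * (l : ℂ))) - 1 - -(s * (l : ℂ))‖ ≤ u ^ 2 :=
    b2.trans (pow_le_pow_left₀ (norm_nonneg _) b1 2)
  generalize Complex.exp (-(s * (l : ℂ))) = E at b3 ⊢
  have b4 : ‖s * (u : ℂ)‖ ≤ u := by
    rw [norm_mul, Complex.norm_real, Real.norm_of_nonneg h0]
    nlinarith
  have b5 : ‖1 + s * (u : ℂ)‖ ≤ 2 := by
    have := norm_add_le (1 : ℂ) (s * u)
    rw [norm_one] at this
    linarith
  have b6 : ‖s * ((u - l : ℝ) : ℂ)‖ ≤ u ^ 2 := by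
    rw [norm_mul, Complex.norm_real, Real.norm_of_nonneg (by linarith)]
    nlinarith
  have b7 : ‖s * (u : ℂ) * -(s * (l : ℂ))‖ ≤ u ^ 2 := by
    rw [norm_mul, sq]
    exact mul_le_mul b4 b1 (norm_nonneg _) h0
  have b8 : ‖(1 + s * (u : ℂ)) * (E - 1 - -(s * (l : ℂ)))‖ ≤ 2 * u ^ 2 := by
    rw [norm_mul]
    exact mul_le_mul b5 b3 (norm_nonneg _) (by norm_num)
  have e : (1 + s * (u : ℂ)) * E - 1 = s * ((u - l : ℝ) : ℂ) + s * (u : ℂ) * -(s * (l : ℂ)) +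
      (1 + s * (u : ℂ)) * (E - 1 - -(s * (l : ℂ))) := by
    push_cast; ring
  rw [e]
  have := norm_add₃_le (a := s * ((u - l : ℝ) : ℂ)) (b := s * (u : ℂ) * -(s * (l : ℂ)))
    (c := (1 + s * (u : ℂ)) * (E - 1 - -(s * (l : ℂ))))
  linarith

theorem step_bound {s : ℂ} (hs : ‖s‖ ≤ 1) {n : ℕ} (hn : 1 ≤ n) :
    ‖rr s (n + 1) - rr s n‖ ≤ ‖rr s n‖ * (8 / n - 8 / ((n + 1 : ℕ) : ℝ)) := by
  have h0 : (1 : ℝ) ≤ n := by exact_mod_cast hn
  have h1 := ratio_bound hs (u := 1 / n) (by positivity) (by rw [div_le_one (by linarith)]; exact h0)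
  have h2 : 4 * (1 / n : ℝ) ^ 2 ≤ 8 / n - 8 / ((n + 1 : ℕ) : ℝ) := by
    push_cast
    rw [div_sub_div _ _ (by positivity) (by positivity), div_pow, mul_div_assoc',
      div_le_div_iff₀ (by positivity) (by positivity)]
    nlinarith
  rw [rr_succ s hn, ← mul_sub_one, norm_mul]
  exact mul_le_mul_of_nonneg_left (h1.trans h2) (norm_nonneg _)

theorem rr_one (s : ℂ) : rr s 1 = s := by simp [rr, ab]

theorem rr_le {s : ℂ} (hs : ‖s‖ ≤ 1) {n : ℕ} (hn : 1 ≤ n) :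
    ‖rr s n‖ ≤ Real.exp (8 - 8 / n) := by
  induction n, hn using Nat.le_induction with
  | base => simpa [rr_one] using hs
  | succ n hn ih =>
    have h1 := step_bound hs hn
    have h2 : ‖rr s (n + 1)‖ ≤ ‖rr s n‖ * (8 / n - 8 / ((n + 1 : ℕ) : ℝ) + 1) := by
      have := norm_le_insert' (rr s (n + 1)) (rr s n)
      linarith
    refine h2.trans ((mul_le_mul_of_nonneg_left (Real.add_one_le_exp _) (norm_nonneg _)).trans ?_)
    refine (mul_le_mul_of_nonneg_right ih (Real.exp_nonneg _)).trans ?_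
    rw [← Real.exp_add]
    exact le_of_eq (by congr 1; ring)

theorem rr_le' {s : ℂ} (hs : ‖s‖ ≤ 1) {n : ℕ} (hn : 1 ≤ n) : ‖rr s n‖ ≤ Real.exp 8 :=
  (rr_le hs hn).trans (Real.exp_le_exp.2 (by
    have : (0 : ℝ) ≤ 8 / n := by positivity
    linarith))

theorem rr_sub {s : ℂ} (hs : ‖s‖ ≤ 1) {n m : ℕ} (hn : 1 ≤ n) (hm : n ≤ m) :
    ‖rr s m - rr s n‖ ≤ Real.exp 8 * (8 / n - 8 / m) := by
  induction m, hm using Nat.le_induction with
  | base => simp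
  | succ m hm ih =>
    have hm1 : 1 ≤ m := hn.trans hm
    have h0 : (1 : ℝ) ≤ m := by exact_mod_cast hm1
    have h1 := step_bound hs hm1
    have h2 : (0 : ℝ) ≤ 8 / m - 8 / ((m + 1 : ℕ) : ℝ) := by
      rw [sub_nonneg]
      gcongr
      exact Nat.le_succ m
    have h3 := mul_le_mul_of_nonneg_right (rr_le' hs hm1) h2
    have h4 := norm_sub_le_norm_sub_add_norm_sub (rr s (m + 1)) (rr s m) (rr s n)
    linarith

theorem ex_tendsto (s : ℂ) : Tendsto (ex s) atTop (𝓝 1) := by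
  have h1 : Tendsto (fun n : ℕ => (1 + 1 / n : ℝ)) atTop (𝓝 (1 + 0)) :=
    tendsto_const_nhds.add tendsto_one_div_atTop_nhds_zero_nat
  have h2 := (Real.continuousAt_log (by norm_num : (1 + 0 : ℝ) ≠ 0)).tendsto.comp h1
  have h3 := (Complex.continuous_ofReal.tendsto _).comp h2
  have h4 := (Complex.continuous_exp.tendsto _).comp (h3.const_mul s).neg
  have e : Complex.exp (-(s * (Real.log (1 + 0) : ℝ))) = 1 := by simp
  rw [e] at h4
  exact h4

theorem rr_gamma (s : ℂ) {n : ℕ} (hn : 1 ≤ n) :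
    rr s (n + 1) = (Complex.GammaSeq s n)⁻¹ * ex s n := by
  have h1 : (n.factorial : ℂ) ≠ 0 := by exact_mod_cast n.factorial_ne_zero
  have h2 : ((n : ℂ) + 1) ≠ 0 := by exact_mod_cast n.succ_ne_zero
  have h3 := cpow_ne s hn
  have h4 := cpow_ne s (Nat.le_add_left 1 n)
  have h5 : ex s n = (n : ℂ) ^ s / ((n + 1 : ℕ) : ℂ) ^ s := by
    rw [eq_div_iff h4, ex_mul s hn]
  rw [rr, cpow_sub_one s (Nat.le_add_left 1 n), h5, Complex.GammaSeq, inv_div, ab,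
    Nat.factorial_succ]
  generalize ((n + 1 : ℕ) : ℂ) ^ s = A at h4 ⊢
  generalize (n : ℂ) ^ s = B at h3 ⊢
  push_cast
  field_simp

theorem rr_tendsto (s : ℂ) : Tendsto (rr s) atTop (𝓝 (Complex.Gamma s)⁻¹) := by
  by_cases h : Complex.Gamma s = 0
  · obtain ⟨m, hm⟩ := (Complex.Gamma_eq_zero_iff s).1 h
    rw [h, inv_zero]
    refine tendsto_const_nhds.congr' ?_
    filter_upwards [eventually_gt_atTop m] with n hn
    rw [rr, ab, prod_eq_zero (mem_range.2 hn) (by rw [hm]; ring), zero_div, zero_div]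
  · rw [← tendsto_add_atTop_iff_nat 1]
    have h1 := ((Complex.GammaSeq_tendsto_Gamma s).inv₀ h).mul (ex_tendsto s)
    rw [mul_one] at h1
    refine h1.congr' ?_
    filter_upwards [eventually_ge_atTop 1] with n hn
    exact (rr_gamma s hn).symm

theorem rr_lim {s : ℂ} (hs : ‖s‖ ≤ 1) {n : ℕ} (hn : 1 ≤ n) :
    ‖(Complex.Gamma s)⁻¹ - rr s n‖ ≤ Real.exp 8 * 8 / n := by
  refine le_of_tendsto (((rr_tendsto s).sub_const (rr s n)).norm) ?_
  filter_upwards [eventually_ge_atTop n] with m hm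
  refine (rr_sub hs hn hm).trans ?_
  rw [mul_div_assoc]
  have : (0 : ℝ) ≤ 8 / m := by positivity
  exact mul_le_mul_of_nonneg_left (by linarith) (Real.exp_nonneg _)

end Pool.Agent.STS.Cy.EmAAux

namespace Pool.Agent.STS.Cy
open Equiv Finset Filter Topology

theorem pEmA : SEmA := by
  refine ⟨Real.exp 8 * 8, fun n hn s hs => ?_⟩
  have h0 : (0 : ℝ) < n := by exact_mod_cast hn
  have h1 := EmAAux.rr_lim hs hn
  have h2 := EmAAux.cpow_ne (s - 1) hn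
  have e : ab s n - (n : ℂ) ^ (s - 1) / Complex.Gamma s =
      -((n : ℂ) ^ (s - 1) * ((Complex.Gamma s)⁻¹ - EmAAux.rr s n)) := by
    rw [EmAAux.rr, mul_sub, mul_div_cancel₀ _ h2, div_eq_mul_inv ((n : ℂ) ^ (s - 1))]
    ring
  have e2 : (n : ℝ) ^ (s.re - 2) = (n : ℝ) ^ (s.re - 1) / n := by
    rw [← Real.rpow_sub_one h0.ne']
    congr 1
    ring
  rw [e, norm_neg, norm_mul, Complex.norm_natCast_cpow_of_pos hn, Complex.sub_re, Complex.one_re, e2]
  have h3 : (0 : ℝ) ≤ (n : ℝ) ^ (s.re - 1) := by positivity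
  refine (mul_le_mul_of_nonneg_left h1 h3).trans (le_of_eq ?_)
  ring

end Pool.Agent.STS.Cy
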