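import Pool.Agent.P.MP_bb7f8f_gt.Q2.Base

set_option linter.unusedSectionVars false

namespace Pool.Agent.STS.Cy
open Equiv Finset Filter Topology

namespace EmBAux
open PowerSeries

/-- the formal exponential of `s G` -/
noncomputable def ex (s : ℂ) (G : ℂ⟦X⟧) : ℂ⟦X⟧ :=
  PowerSeries.mk fun n => ∑ k ∈ range (n + 1), s ^ k / k.factorial * coeff n (G ^ k)

theorem coeff_pow_zero {R : Type} [CommRing R] {G : R⟦X⟧} (hG : constantCoeff G = 0) {n k : ℕ}
    (h : n < k) : coeff n (G ^ k) = 0 :=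
  coeff_of_lt_order n (lt_of_lt_of_le (by exact_mod_cast h)
    (le_order_pow_of_constantCoeff_eq_zero k hG))

theorem coeff_ex (s : ℂ) {G : ℂ⟦X⟧} (hG : constantCoeff G = 0) {n N : ℕ} (h : n < N) :
    coeff n (ex s G) = ∑ k ∈ range N, s ^ k / k.factorial * coeff n (G ^ k) := by
  rw [ex, coeff_mk]
  refine Finset.sum_subset (Finset.range_subset_range.2 h) fun k _ hk => ?_
  rw [coeff_pow_zero hG (by simpa using hk), mul_zero]

theorem ex_zero (s : ℂ) (G : ℂ⟦X⟧) : coeff 0 (ex s G) = 1 := by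
  simp [ex]

theorem ex_deriv (s : ℂ) {G : ℂ⟦X⟧} (hG : constantCoeff G = 0) :
    derivative ℂ (ex s G) = C s * derivative ℂ G * ex s G := by
  ext n
  rw [coeff_derivative, coeff_ex s hG (Nat.lt_succ_self _), Finset.sum_range_succ', mul_assoc,
    coeff_C_mul, coeff_mul]
  have h1 : ∀ q ∈ antidiagonal n, coeff q.1 (derivative ℂ G) * coeff q.2 (ex s G) =
      ∑ k ∈ range (n + 1), s ^ k / k.factorial *
        (coeff q.1 (derivative ℂ G) * coeff q.2 (G ^ k)) := fun q hq => by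
    have := mem_antidiagonal.1 hq
    rw [coeff_ex s hG (show q.2 < n + 1 by omega), Finset.mul_sum]
    exact Finset.sum_congr rfl fun k _ => by ring
  rw [Finset.sum_congr rfl h1, Finset.sum_comm, Finset.mul_sum, pow_zero, pow_zero,
    coeff_one, if_neg (Nat.succ_ne_zero n), mul_zero, add_zero, Finset.sum_mul]
  refine Finset.sum_congr rfl fun k _ => ?_
  rw [← Finset.mul_sum, ← coeff_mul, mul_assoc, ← coeff_derivative, derivative_pow,
    Nat.add_sub_cancel, mul_assoc, ← nsmul_eq_mul, map_nsmul, nsmul_eq_mul, Nat.factorial_succ,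
    mul_comm (G ^ k)]
  have h2 : (k.factorial : ℂ) ≠ 0 := by exact_mod_cast k.factorial_ne_zero
  have h3 : ((k : ℂ) + 1) ≠ 0 := by exact_mod_cast Nat.succ_ne_zero k
  push_cast
  field_simp
  ring

theorem uniq {W P Q : ℂ⟦X⟧} (h0 : coeff 0 P = coeff 0 Q) (hP : derivative ℂ P = W * P)
    (hQ : derivative ℂ Q = W * Q) : P = Q := by
  ext n
  induction n using Nat.strong_induction_on with
  | _ n ih =>
    rcases n with _ | n
    · exact h0
    have h1 := congrArg (coeff n) hP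
    have h2 := congrArg (coeff n) hQ
    rw [coeff_derivative, coeff_mul] at h1 h2
    have h3 : ((n : ℂ) + 1) ≠ 0 := by exact_mod_cast Nat.succ_ne_zero n
    refine mul_right_cancel₀ h3 ?_
    rw [h1, h2]
    refine Finset.sum_congr rfl fun q hq => ?_
    have := mem_antidiagonal.1 hq
    rw [ih q.2 (by omega)]

theorem ab_succ (s : ℂ) (n : ℕ) : ab s (n + 1) * (n + 1) = (s + n) * ab s n := by
  have h2 : (n.factorial : ℂ) ≠ 0 := by exact_mod_cast n.factorial_ne_zero
  have h3 : ((n : ℂ) + 1) ≠ 0 := by exact_mod_cast Nat.succ_ne_zero n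
  rw [ab, ab, Finset.prod_range_succ, Nat.factorial_succ]
  push_cast
  field_simp

theorem ab_deriv (s : ℂ) : derivative ℂ (PowerSeries.mk (ab s)) =
    C s * PowerSeries.mk 1 * PowerSeries.mk (ab s) := by
  have h : (1 - X) * derivative ℂ (PowerSeries.mk (ab s)) = C s * PowerSeries.mk (ab s) := by
    ext n
    rw [sub_mul, one_mul, map_sub, coeff_C_mul, coeff_derivative, coeff_mk, coeff_mk, ab_succ]
    rcases n with _ | n
    · simp
    · rw [coeff_succ_X_mul, coeff_derivative, coeff_mk]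
      push_cast
      ring
  have h1 := mk_one_mul_one_sub_eq_one ℂ
  calc _ = (PowerSeries.mk 1 * (1 - X)) * derivative ℂ (PowerSeries.mk (ab s)) := by
        rw [h1, one_mul]
    _ = _ := by rw [mul_assoc, h]; ring

/-- the tail of the zeta value -/
noncomputable def w (j : ℕ) : ℝ := ∑' m : ℕ, (1 / ((m : ℝ) + 2) ^ 2) ^ (j + 1)

theorem x_pos (m : ℕ) : 0 < 1 / ((m : ℝ) + 2) ^ 2 := by positivity

theorem x_le (m : ℕ) : 1 / ((m : ℝ) + 2) ^ 2 ≤ 1 / 4 := by
  have : (0 : ℝ) ≤ m := Nat.cast_nonneg m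
  exact one_div_le_one_div_of_le (by norm_num) (by nlinarith)

theorem x_sum (N : ℕ) : ∑ m ∈ range N, 1 / ((m : ℝ) + 2) ^ 2 ≤ 1 - 1 / ((N : ℝ) + 1) := by
  induction N with
  | zero => simp
  | succ N ih =>
    rw [Finset.sum_range_succ]
    have h : (0 : ℝ) ≤ N := Nat.cast_nonneg N
    have : 1 / ((N : ℝ) + 2) ^ 2 ≤ 1 / ((N : ℝ) + 1) - 1 / ((N : ℝ) + 1 + 1) := by
      rw [div_sub_div _ _ (by positivity) (by positivity), div_le_div_iff₀ (by positivity)
        (by positivity)]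
      nlinarith
    push_cast
    linarith

theorem p_sum (j N : ℕ) : ∑ m ∈ range N, (1 / ((m : ℝ) + 2) ^ 2) ^ (j + 1) ≤ (1 / 4) ^ j := by
  calc _ ≤ ∑ m ∈ range N, (1 / 4) ^ j * (1 / ((m : ℝ) + 2) ^ 2) :=
        Finset.sum_le_sum fun m _ => by
          rw [pow_succ]
          exact mul_le_mul_of_nonneg_right (pow_le_pow_left₀ (x_pos m).le (x_le m) j) (x_pos m).le
    _ ≤ (1 / 4) ^ j * 1 := by
        rw [← Finset.mul_sum]
        refine mul_le_mul_of_nonneg_left ((x_sum N).trans ?_) (by positivity)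
        have : 0 ≤ 1 / ((N : ℝ) + 1) := by positivity
        linarith
    _ = _ := mul_one _

theorem p_summable (j : ℕ) : Summable fun m : ℕ => (1 / ((m : ℝ) + 2) ^ 2) ^ (j + 1) :=
  summable_of_sum_range_le (fun m => (pow_pos (x_pos m) _).le) (p_sum j)

theorem w_nonneg (j : ℕ) : 0 ≤ w j := tsum_nonneg fun m => (pow_pos (x_pos m) _).le

theorem w_le (j : ℕ) : w j ≤ (1 / 4) ^ j :=
  Real.tsum_le_of_sum_range_le (fun m => (pow_pos (x_pos m) _).le) (p_sum j)

theorem zt_eq (j : ℕ) : zt (2 * (j + 1)) = 1 + w j := by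
  have e : ∀ m : ℕ, 1 / ((((m + 1 : ℕ) : ℝ)) + 1) ^ (2 * (j + 1)) =
      (1 / ((m : ℝ) + 2) ^ 2) ^ (j + 1) := fun m => by
    rw [pow_mul, one_div_pow]
    push_cast
    rw [add_assoc, one_add_one_eq_two]
  have hs : Summable fun h : ℕ => 1 / ((h : ℝ) + 1) ^ (2 * (j + 1)) := by
    rw [← summable_nat_add_iff 1]
    simp only [e]
    exact p_summable j
  rw [zt, hs.tsum_eq_zero_add]
  simp only [e]
  simp [w]

theorem log_sum : HasSum (fun m : ℕ => -Real.log (1 - 1 / ((m : ℝ) + 2) ^ 2)) (Real.log 2) := by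
  have e : ∀ m : ℕ, -Real.log (1 - 1 / ((m : ℝ) + 2) ^ 2) =
      Real.log (1 + 1 / ((m : ℝ) + 1)) - Real.log (1 + 1 / (((m + 1 : ℕ) : ℝ) + 1)) := fun m => by
    have h : (0 : ℝ) ≤ m := Nat.cast_nonneg m
    rw [← Real.log_div (by positivity) (by positivity), ← Real.log_inv]
    congr 1
    have h1 : ((m : ℝ) + 2) ^ 2 - 1 ≠ 0 := by nlinarith
    have h2 : 1 - 1 / ((m : ℝ) + 2) ^ 2 = ((m : ℝ) + 1) * (m + 3) / (m + 2) ^ 2 := by
      field_simp
      ring
    rw [h2]
    push_cast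
    field_simp
    ring
  rw [hasSum_iff_tendsto_nat_of_nonneg fun m => neg_nonneg.2 (Real.log_nonpos
    (by linarith [x_le m]) (by linarith [x_pos m]))]
  simp only [e]
  have e2 : ∀ N : ℕ, ∑ m ∈ range N, (Real.log (1 + 1 / ((m : ℝ) + 1)) -
      Real.log (1 + 1 / (((m + 1 : ℕ) : ℝ) + 1))) =
      Real.log 2 - Real.log (1 + 1 / ((N : ℝ) + 1)) := fun N => by
    rw [Finset.sum_range_sub' fun m : ℕ => Real.log (1 + 1 / ((m : ℝ) + 1))]
    norm_num
  simp only [e2]
  have h1 : Tendsto (fun N : ℕ => 1 + 1 / ((N : ℝ) + 1)) atTop (𝓝 (1 + 0)) :=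
    tendsto_one_div_add_atTop_nhds_zero_nat.const_add 1
  have h2 := (h1.log (by norm_num)).const_sub (Real.log 2)
  simpa using h2

theorem w_sum : HasSum (fun j : ℕ => w j / ((j : ℝ) + 1)) (Real.log 2) := by
  have h1 : ∀ m : ℕ, HasSum (fun j : ℕ => (1 / ((m : ℝ) + 2) ^ 2) ^ (j + 1) / ((j : ℝ) + 1))
      (-Real.log (1 - 1 / ((m : ℝ) + 2) ^ 2)) := fun m =>
    Real.hasSum_pow_div_log_of_abs_lt_one (by rw [abs_of_pos (x_pos m)]; linarith [x_le m])
  have h2 : Summable fun q : ℕ × ℕ => (1 / ((q.1 : ℝ) + 2) ^ 2) ^ (q.2 + 1) / ((q.2 : ℝ) + 1) := by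
    rw [summable_prod_of_nonneg fun q => by positivity]
    refine ⟨fun m => (h1 m).summable, ?_⟩
    simp only [fun m => (h1 m).tsum_eq]
    exact log_sum.summable
  have h3 := (h2.hasSum.prod_fiberwise h1).unique log_sum
  have h4 := h2.hasSum
  rw [h3] at h4
  exact ((Equiv.prodComm ℕ ℕ).hasSum_iff.2 h4).prod_fiberwise fun j =>
    (p_summable j).hasSum.div_const _

/-- the regular part of the series -/
noncomputable def hh : ℝ⟦X⟧ := PowerSeries.mk fun j => if j = 0 then 0 else w (j - 1) / j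

theorem hh_zero : coeff 0 hh = 0 := by simp [hh]

theorem hh_succ (j : ℕ) : coeff (j + 1) hh = w j / ((j : ℝ) + 1) := by simp [hh]

theorem hh_nonneg (j : ℕ) : 0 ≤ coeff j hh := by
  rcases j with _ | j
  · rw [hh_zero]
  · rw [hh_succ]
    have := w_nonneg j
    positivity

theorem hh_sum : HasSum (fun j => coeff j hh) (Real.log 2) := by
  rw [← hasSum_nat_add_iff' 1]
  simp only [hh_succ, Finset.sum_range_one, hh_zero, sub_zero]
  exact w_sum

theorem hh_pow (k : ℕ) : (∀ i, 0 ≤ coeff i (hh ^ k)) ∧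
    HasSum (fun i => coeff i (hh ^ k)) (Real.log 2 ^ k) := by
  induction k with
  | zero =>
    simp only [pow_zero, coeff_one]
    exact ⟨fun i => by split_ifs <;> norm_num, hasSum_ite_eq 0 1⟩
  | succ k ih =>
    simp only [pow_succ, coeff_mul]
    refine ⟨fun i => Finset.sum_nonneg fun q _ => mul_nonneg (ih.1 _) (hh_nonneg _), ?_⟩
    have a1 := ih.2.summable.norm
    have a2 := hh_sum.summable.norm
    rw [← ih.2.tsum_eq, ← hh_sum.tsum_eq,
      tsum_mul_tsum_eq_tsum_sum_antidiagonal_of_summable_norm a1 a2]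
    exact (summable_norm_sum_mul_antidiagonal_of_summable_norm a1 a2).of_norm.hasSum

/-- the complex version -/
noncomputable def hc : ℂ⟦X⟧ := PowerSeries.map Complex.ofRealHom hh

theorem hc_pow (k i : ℕ) : coeff i (hc ^ k) = ((coeff i (hh ^ k) : ℝ) : ℂ) := by
  rw [hc, ← map_pow, coeff_map]
  rfl

theorem hc_const : constantCoeff hc = 0 := by
  rw [← coeff_zero_eq_constantCoeff_apply, hc, coeff_map, hh_zero, map_zero]

theorem hc_deriv (i : ℕ) : coeff i (derivative ℂ hc) = (w i : ℂ) := by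
  have h3 : ((i : ℂ) + 1) ≠ 0 := by exact_mod_cast Nat.succ_ne_zero i
  rw [coeff_derivative, hc, coeff_map, hh_succ, Complex.ofRealHom_eq_coe]
  push_cast
  field_simp

theorem b_sum (s : ℂ) : HasSum (fun i => coeff i (ex s hc)) (2 ^ s) := by
  have h1 : ∀ k : ℕ, HasSum (fun i : ℕ => s ^ k / k.factorial * coeff i (hc ^ k))
      ((Complex.log 2 * s) ^ k / k.factorial) := fun k => by
    have := (Complex.hasSum_ofReal.2 (hh_pow k).2).mul_left (s ^ k / k.factorial)
    simp only [hc_pow]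
    rw [show (Complex.log 2 * s) ^ k / k.factorial =
      s ^ k / k.factorial * ((Real.log 2 ^ k : ℝ) : ℂ) by
        rw [Complex.ofReal_pow, Complex.ofReal_log (by norm_num)]
        push_cast
        ring]
    exact this
  have h2 : Summable fun q : ℕ × ℕ => s ^ q.1 / q.1.factorial * coeff q.2 (hc ^ q.1) := by
    refine Summable.of_norm ?_
    have e : ∀ k i : ℕ, ‖s ^ k / k.factorial * coeff i (hc ^ k)‖ =
        ‖s‖ ^ k / k.factorial * coeff i (hh ^ k) := fun k i => by
      rw [hc_pow, norm_mul, norm_div, norm_pow, Complex.norm_natCast, Complex.norm_real,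
        Real.norm_of_nonneg ((hh_pow k).1 i)]
    rw [summable_prod_of_nonneg fun q => norm_nonneg _]
    simp only [e]
    refine ⟨fun k => (hh_pow k).2.summable.mul_left _, ?_⟩
    simp only [fun k => ((hh_pow k).2.mul_left (‖s‖ ^ k / k.factorial)).tsum_eq]
    refine (Real.summable_pow_div_factorial (‖s‖ * Real.log 2)).congr fun k => ?_
    rw [mul_pow]
    ring
  have h3 := (h2.hasSum.prod_fiberwise h1).unique
    (NormedSpace.expSeries_div_hasSum_exp (Complex.log 2 * s))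
  have h4 := h2.hasSum
  rw [h3, ← Complex.exp_eq_exp_ℂ, ← Complex.cpow_def_of_ne_zero (by norm_num)] at h4
  refine ((Equiv.prodComm ℕ ℕ).hasSum_iff.2 h4).prod_fiberwise fun i => ?_
  rw [ex, coeff_mk]
  refine hasSum_sum_of_ne_finset_zero fun k hk => ?_
  change s ^ k / k.factorial * coeff i (hc ^ k) = 0
  rw [coeff_pow_zero hc_const (by simpa using hk), mul_zero]

theorem geo (n : ℕ) : ∑ q ∈ antidiagonal n, (3 / 4 : ℝ) ^ q.1 ≤ 4 := by
  rw [Finset.Nat.sum_antidiagonal_eq_sum_range_succ (fun i _ => (3 / 4 : ℝ) ^ i) n,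
    geom_sum_eq (by norm_num)]
  have : 0 < (3 / 4 : ℝ) ^ n.succ := by positivity
  rw [div_le_iff_of_neg (by norm_num)]
  linarith

theorem b_le {s : ℂ} (hs : ‖s‖ ≤ 1) (n : ℕ) :
    ‖coeff n (ex s hc)‖ * 3 ^ n ≤ 12 ^ min n 12 := by
  induction n using Nat.strong_induction_on with
  | _ n ih =>
    rcases n with _ | n
    · simp [ex_zero]
    have h1 := congrArg (coeff n) (ex_deriv s hc_const)
    rw [coeff_derivative, mul_assoc, coeff_C_mul, coeff_mul] at h1
    have h2 : ‖coeff (n + 1) (ex s hc)‖ * (n + 1) ≤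
        ∑ q ∈ antidiagonal n, (1 / 4) ^ q.1 * ‖coeff q.2 (ex s hc)‖ := by
      have e : ‖((n : ℂ) + 1)‖ = n + 1 := by exact_mod_cast Complex.norm_natCast (n + 1)
      rw [← e, ← norm_mul, h1, norm_mul]
      refine (mul_le_of_le_one_left (norm_nonneg _) hs).trans ((norm_sum_le _ _).trans
        (Finset.sum_le_sum fun q _ => ?_))
      rw [norm_mul, hc_deriv, Complex.norm_real, Real.norm_of_nonneg (w_nonneg _)]
      exact mul_le_mul_of_nonneg_right (w_le _) (norm_nonneg _)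
    have h3 : (∑ q ∈ antidiagonal n, (1 / 4) ^ q.1 * ‖coeff q.2 (ex s hc)‖) * 3 ^ n ≤
        4 * 12 ^ min n 12 := by
      rw [Finset.sum_mul]
      refine le_trans (Finset.sum_le_sum fun q hq => ?_) ((Finset.sum_mul _ _ _).symm.le.trans
        (mul_le_mul_of_nonneg_right (geo n) (by positivity)))
      have hq' := mem_antidiagonal.1 hq
      have a1 := (ih q.2 (by omega)).trans
        (pow_le_pow_right₀ (by norm_num : (1 : ℝ) ≤ 12) (show min q.2 12 ≤ min n 12 by omega))
      calc _ = (3 / 4) ^ q.1 * (‖coeff q.2 (ex s hc)‖ * 3 ^ q.2) := by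
            rw [← hq', pow_add, show (3 / 4 : ℝ) = 1 / 4 * 3 by norm_num, mul_pow]
            ring
        _ ≤ _ := mul_le_mul_of_nonneg_left a1 (by positivity)
    have h4 : ‖coeff (n + 1) (ex s hc)‖ * 3 ^ (n + 1) * (n + 1) ≤ 12 * 12 ^ min n 12 := by
      have := mul_le_mul_of_nonneg_right h2 (by positivity : (0 : ℝ) ≤ 3 ^ n)
      rw [pow_succ]
      nlinarith
    have h5 : 0 ≤ ‖coeff (n + 1) (ex s hc)‖ * 3 ^ (n + 1) := by positivity
    have h6 : (0 : ℝ) ≤ n := Nat.cast_nonneg n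
    rcases lt_or_ge n 12 with h | h
    · rw [show min (n + 1) 12 = min n 12 + 1 by omega, pow_succ (12 : ℝ)]
      nlinarith
    · rw [show min (n + 1) 12 = min n 12 by omega]
      have : (12 : ℝ) ≤ n := by exact_mod_cast h
      nlinarith

/-- the series in the variable `X ^ 2` -/
noncomputable def gu : ℝ⟦X⟧ := PowerSeries.mk fun j => if j = 0 then 0 else zt (2 * j) / (2 * j)

theorem GZ_eq : GZ = expand 2 two_ne_zero gu := by
  ext n
  rcases Nat.even_or_odd' n with ⟨j, rfl | rfl⟩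
  · rw [coeff_expand_mul, GZ, gu, coeff_mk, coeff_mk]
    by_cases hj : j = 0
    · simp [hj]
    · rw [if_neg hj, if_pos ⟨even_two_mul j, by omega⟩]
      push_cast
      rfl
  · rw [coeff_expand_of_not_dvd _ _ _ (by omega), GZ, coeff_mk, if_neg]
    rintro ⟨h, -⟩
    exact Nat.not_even_two_mul_add_one j h

/-- the complex version -/
noncomputable def gc : ℂ⟦X⟧ := PowerSeries.map Complex.ofRealHom gu

theorem gc_const : constantCoeff gc = 0 := by
  rw [← coeff_zero_eq_constantCoeff_apply, gc, coeff_map]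
  simp [gu]

theorem gc_deriv : C 2 * derivative ℂ gc = derivative ℂ hc + PowerSeries.mk 1 := by
  ext i
  have h3 : ((i : ℂ) + 1) ≠ 0 := by exact_mod_cast Nat.succ_ne_zero i
  rw [map_add, hc_deriv, coeff_C_mul, coeff_derivative, gc, coeff_map, gu, coeff_mk, coeff_mk,
    if_neg (Nat.succ_ne_zero i), zt_eq, Complex.ofRealHom_eq_coe, Pi.one_apply]
  push_cast
  field_simp
  ring

theorem ex_eq (s : ℂ) : ex (2 * s) gc = ex s hc * PowerSeries.mk (ab s) := by
  refine uniq (W := C (2 * s) * derivative ℂ gc) ?_ (ex_deriv _ gc_const) ?_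
  · simp [ex, ab]
  · rw [Derivation.leibniz, ab_deriv, ex_deriv s hc_const, smul_eq_mul, smul_eq_mul, map_mul,
      mul_comm (C 2), mul_assoc (C s) (C 2), gc_deriv]
    ring

end EmBAux

open EmBAux PowerSeries in
theorem pEmB : SEmB := by
  refine ⟨12 ^ 12, fun s hs => ⟨fun i => coeff i (ex s hc), fun i => ?_, b_sum s, fun n => ⟨?_, ?_⟩⟩⟩
  · rw [le_div_iff₀ (by positivity)]
    exact (b_le hs i).trans (pow_le_pow_right₀ (by norm_num) (min_le_right _ _))
  · refine Finset.sum_eq_zero fun k _ => ?_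
    rw [GZ_eq, ← map_pow, coeff_expand_of_not_dvd _ _ _ (by omega)]
    simp
  · have h := congrArg (coeff n) (ex_eq s)
    rw [coeff_mul, coeff_ex _ gc_const (show n < 2 * n + 1 by omega)] at h
    simp only [coeff_mk] at h
    rw [← h]
    refine Finset.sum_congr rfl fun k _ => ?_
    rw [GZ_eq, ← map_pow, coeff_expand_mul, gc, ← map_pow, coeff_map]
    rfl

end Pool.Agent.STS.Cy
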