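import Pool.Agent.P.MP_bb7f8f_gt.Q2.Base

set_option linter.unusedSectionVars false

namespace Pool.Agent.STS.Cy
open Equiv Finset Filter Topology

namespace ExplAux

theorem yc_nonneg {a : ℕ} (ha : 1 ≤ a) (w : ℕ) : 0 ≤ yc a w := by
  have := (QF.GenFun.y_bound a w ha).1
  unfold yc
  exact_mod_cast this

theorem shift_tend (c : ℝ) (d : ℕ) :
    Tendsto (fun n : ℕ => ((n : ℝ) + c) ^ d / (n : ℝ) ^ d) atTop (𝓝 1) := by
  have h1 : Tendsto (fun n : ℕ => (1 + c / (n : ℝ)) ^ d) atTop (𝓝 ((1 + 0) ^ d)) :=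
    (tendsto_const_nhds.add (tendsto_const_div_atTop_nhds_zero_nat c)).pow d
  rw [add_zero, one_pow] at h1
  refine h1.congr' ?_
  filter_upwards [eventually_gt_atTop 0] with n hn
  have : (n : ℝ) ≠ 0 := by exact_mod_cast hn.ne'
  rw [← div_pow]
  congr 1
  field_simp

theorem yc_tend (d : ℕ) :
    Tendsto (fun w : ℕ => yc (d + 1) w / (w : ℝ) ^ d) atTop (𝓝 (2 ^ (d + 1) / d.factorial)) := by
  have h4 : (4 : ℝ) ^ (d + 1) = 2 ^ (d + 1) * 2 ^ (d + 1) := by rw [← mul_pow]; norm_num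
  have hd : (0 : ℝ) < ((d + 1 : ℕ) : ℝ) := by positivity
  have hU := (shift_tend ((d + 1 : ℕ) : ℝ) d).const_mul ((2 : ℝ) ^ (d + 1) / d.factorial)
  have hL := (shift_tend (-((d + 1 : ℕ) : ℝ)) d).const_mul ((2 : ℝ) ^ (d + 1) / d.factorial)
  rw [mul_one] at hU hL
  refine tendsto_of_tendsto_of_tendsto_of_le_of_le' hL hU ?_ ?_
  · filter_upwards [eventually_ge_atTop (d + 1)] with w hw
    have h := (QF.GenFun.y_bound (d + 1) w (by omega)).2.2 hw
    have h2 : 4 ^ (d + 1) * omM (d + 1) w =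
        2 ^ (d + 1) / d.factorial * ((w : ℝ) + -((d + 1 : ℕ) : ℝ)) ^ d *
          (2 / ((d + 1 : ℕ) : ℝ)) := by
      rw [omM, h4, Nat.factorial_succ, Nat.add_sub_cancel, ← sub_eq_add_neg]
      push_cast
      field_simp
    rw [h2] at h
    have h3 := le_of_mul_le_mul_right h (by positivity)
    rw [← mul_div_assoc]
    exact div_le_div_of_nonneg_right h3 (by positivity)
  · filter_upwards with w
    have h := (QF.GenFun.y_bound (d + 1) w (by omega)).2.1
    have h2 : 4 ^ (d + 1) * omP (d + 1) w =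
        2 ^ (d + 1) / d.factorial * ((w : ℝ) + ((d + 1 : ℕ) : ℝ)) ^ d *
          (2 / ((d + 1 : ℕ) : ℝ)) := by
      rw [omP, h4, Nat.factorial_succ, Nat.add_sub_cancel]
      push_cast
      field_simp
    rw [h2] at h
    have h3 := le_of_mul_le_mul_right h (by positivity)
    rw [← mul_div_assoc]
    exact div_le_div_of_nonneg_right h3 (by positivity)

theorem diff_tend (e : ℕ) :
    Tendsto (fun w : ℕ => (((w : ℝ) + 1) ^ (e + 1) - (w : ℝ) ^ (e + 1)) / (w : ℝ) ^ e) atTop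
      (𝓝 ((e : ℝ) + 1)) := by
  have h1 : Tendsto (fun w : ℕ => ∑ i ∈ range (e + 1), ((w : ℝ) + 1) ^ i / (w : ℝ) ^ i) atTop
      (𝓝 (∑ _i ∈ range (e + 1), (1 : ℝ))) :=
    tendsto_finsetSum _ fun i _ => shift_tend 1 i
  simp only [sum_const, card_range, nsmul_eq_mul, mul_one, Nat.cast_add, Nat.cast_one] at h1
  refine h1.congr' ?_
  filter_upwards [eventually_gt_atTop 0] with w hw
  have hw' : (w : ℝ) ≠ 0 := by exact_mod_cast hw.ne'
  have h2 := geom_sum₂_mul ((w : ℝ) + 1) (w : ℝ) (e + 1)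
  rw [add_sub_cancel_left, mul_one] at h2
  rw [← h2, Finset.sum_div]
  refine Finset.sum_congr rfl fun i hi => ?_
  have hi' : i ≤ e := Nat.lt_succ_iff.1 (mem_range.1 hi)
  obtain ⟨j, rfl⟩ := Nat.exists_eq_add_of_le hi'
  rw [show i + j + 1 - 1 - i = j by omega, pow_add]
  field_simp

/-- summation of a regularly growing sequence -/
theorem sum_tend {f : ℕ → ℝ} {e : ℕ} {L : ℝ}
    (h : Tendsto (fun w : ℕ => f w / (w : ℝ) ^ e) atTop (𝓝 L)) :
    Tendsto (fun x : ℕ => (∑ w ∈ range (x + 1), f w) / (x : ℝ) ^ (e + 1)) atTop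
      (𝓝 (L / (e + 1))) := by
  set g : ℕ → ℝ := fun w => ((w : ℝ) + 1) ^ (e + 1) - (w : ℝ) ^ (e + 1) with hg
  have he : ((e : ℝ) + 1) ≠ 0 := by positivity
  have gpos : ∀ w, 0 < g w := fun w =>
    sub_pos.2 (pow_lt_pow_left₀ (lt_add_one _) (by positivity) (by omega))
  have gsum : ∀ x : ℕ, ∑ w ∈ range x, g w = (x : ℝ) ^ (e + 1) := fun x => by
    have := Finset.sum_range_sub (fun w : ℕ => (w : ℝ) ^ (e + 1)) x
    simpa [hg] using this
  have h1 : Tendsto (fun w => f w / g w) atTop (𝓝 (L / (e + 1))) := by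
    refine (h.div (diff_tend e) he).congr' ?_
    filter_upwards [eventually_gt_atTop 0] with w hw
    have hw' : (w : ℝ) ^ e ≠ 0 := pow_ne_zero _ (by exact_mod_cast hw.ne')
    simp only [Pi.div_apply]
    rw [div_div_div_cancel_right₀ hw']
  have h2 : (fun w => f w - L / (e + 1) * g w) =o[atTop] g := by
    refine (Asymptotics.isLittleO_iff_tendsto fun w hw => absurd hw (gpos w).ne').2 ?_
    have := h1.sub_const (L / (e + 1))
    rw [sub_self] at this
    refine this.congr fun w => ?_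
    have := (gpos w).ne'
    field_simp
  have h3 : Tendsto (fun x : ℕ => ∑ w ∈ range x, g w) atTop atTop := by
    simp only [gsum]
    exact (tendsto_pow_atTop (by omega)).comp tendsto_natCast_atTop_atTop
  have h4 := (h2.sum_range (fun w => (gpos w).le) h3).tendsto_div_nhds_zero
  simp only [Finset.sum_sub_distrib, ← Finset.mul_sum, gsum] at h4
  have h5 := (h4.add_const (L / (e + 1))).comp (tendsto_add_atTop_nat 1)
  have h6 := h5.mul (shift_tend 1 (e + 1))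
  rw [zero_add, mul_one] at h6
  refine h6.congr fun x => ?_
  have hx : ((x : ℝ) + 1) ^ (e + 1) ≠ 0 := by positivity
  simp only [Function.comp_apply, Nat.cast_add, Nat.cast_one]
  rw [sub_div, mul_div_assoc, div_self hx, mul_one, sub_add_cancel, div_mul_div_cancel₀ hx]

theorem natdiv_tend (h : ℕ) :
    Tendsto (fun N : ℕ => ((N / (h + 1) : ℕ) : ℝ) / N) atTop (𝓝 (1 / ((h : ℝ) + 1))) := by
  have hh : (0 : ℝ) < (h : ℝ) + 1 := by positivity
  have hL : Tendsto (fun N : ℕ => 1 / ((h : ℝ) + 1) - 1 / (N : ℝ)) atTop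
      (𝓝 (1 / ((h : ℝ) + 1) - 0)) :=
    tendsto_const_nhds.sub (tendsto_const_div_atTop_nhds_zero_nat 1)
  rw [sub_zero] at hL
  refine tendsto_of_tendsto_of_tendsto_of_le_of_le' hL tendsto_const_nhds ?_ ?_
  · filter_upwards [eventually_gt_atTop 0] with N hN
    have hN' : (0 : ℝ) < N := by exact_mod_cast hN
    have h1 : N < (h + 1) * (N / (h + 1) + 1) := Nat.lt_mul_div_succ N (by omega)
    have h2 : (N : ℝ) < ((h : ℝ) + 1) * (((N / (h + 1) : ℕ) : ℝ) + 1) := by exact_mod_cast h1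
    rw [sub_le_iff_le_add, ← add_div, div_le_div_iff₀ hh hN']
    linarith
  · filter_upwards [eventually_gt_atTop 0] with N hN
    have hN' : (0 : ℝ) < N := by exact_mod_cast hN
    have h1 : N / (h + 1) * (h + 1) ≤ N := Nat.div_mul_le_self N _
    have h2 : ((N / (h + 1) : ℕ) : ℝ) * ((h : ℝ) + 1) ≤ N := by exact_mod_cast h1
    rw [div_le_div_iff₀ hN' hh]
    linarith

/-- the count for one cylinder -/
noncomputable def one (f : ℕ → ℝ) (m : ℕ) : ℝ := ∑ q ∈ m.divisorsAntidiagonal, f q.2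

theorem sum_one {f : ℕ → ℝ} (h0 : f 0 = 0) (N : ℕ) :
    ∑ m ∈ range (N + 1), one f m = ∑ h ∈ range N, ∑ w ∈ range (N / (h + 1) + 1), f w := by
  have e1 : ∀ x : ℕ, ∑ w ∈ range (x + 1), f w = ∑ w ∈ Icc 1 x, f w := fun x => by
    symm
    refine Finset.sum_subset (fun w hw => ?_) fun w hw hw' => ?_
    · have := (mem_Icc.1 hw).2
      exact mem_range.2 (by omega)
    · have h1 := mem_range.1 hw
      rw [mem_Icc] at hw'
      rw [show w = 0 by omega, h0]
  simp only [e1, one]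
  rw [Finset.sum_sigma', Finset.sum_sigma']
  refine Finset.sum_nbij' (fun x => ⟨x.2.1 - 1, x.2.2⟩)
    (fun y => ⟨(y.1 + 1) * y.2, (y.1 + 1, y.2)⟩) ?_ ?_ ?_ ?_ fun _ _ => rfl
  · rintro ⟨m, a, b⟩ hx
    simp only [mem_sigma, mem_range, Nat.mem_divisorsAntidiagonal, mem_Icc] at hx ⊢
    obtain ⟨h1, h2, h3⟩ := hx
    have ha : 0 < a := Nat.pos_of_ne_zero fun h => h3 (by rw [← h2, h, zero_mul])
    have hb : 0 < b := Nat.pos_of_ne_zero fun h => h3 (by rw [← h2, h, mul_zero])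
    have h4 : a ≤ a * b := Nat.le_mul_of_pos_right a hb
    refine ⟨by omega, hb, ?_⟩
    rw [Nat.sub_add_cancel ha, Nat.le_div_iff_mul_le ha, mul_comm]
    omega
  · rintro ⟨h, w⟩ hy
    simp only [mem_sigma, mem_range, Nat.mem_divisorsAntidiagonal, mem_Icc] at hy ⊢
    obtain ⟨h1, h2, h3⟩ := hy
    rw [Nat.le_div_iff_mul_le (by omega), mul_comm] at h3
    exact ⟨by omega, trivial, Nat.mul_ne_zero (by omega) (by omega)⟩
  · rintro ⟨m, a, b⟩ hx
    simp only [mem_sigma, mem_range, Nat.mem_divisorsAntidiagonal] at hx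
    obtain ⟨h1, h2, h3⟩ := hx
    have ha : 0 < a := Nat.pos_of_ne_zero fun h => h3 (by rw [← h2, h, zero_mul])
    subst h2
    simp only [Nat.sub_add_cancel ha]
  · rintro ⟨h, w⟩ _
    simp

theorem asy_one {f : ℕ → ℝ} {e : ℕ} {L : ℝ} (h0 : f 0 = 0) (he : 1 ≤ e)
    (h : Tendsto (fun w : ℕ => f w / (w : ℝ) ^ e) atTop (𝓝 L)) :
    Asy (one f) (e + 1) (e.factorial * L * zt (e + 1)) := by
  have hF := sum_tend h
  set F : ℕ → ℝ := fun x => ∑ w ∈ range (x + 1), f w with hFd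
  obtain ⟨K, hK⟩ := hF.norm.bddAbove_range
  have hK' : ∀ x : ℕ, ‖F x / (x : ℝ) ^ (e + 1)‖ ≤ K := fun x => hK ⟨x, rfl⟩
  have hF0 : F 0 = 0 := by simp [hFd, h0]
  have split : ∀ N h : ℕ, F (N / (h + 1)) / (N : ℝ) ^ (e + 1) =
      F (N / (h + 1)) / ((N / (h + 1) : ℕ) : ℝ) ^ (e + 1) *
        (((N / (h + 1) : ℕ) : ℝ) / N) ^ (e + 1) := fun N h => by
    rcases Nat.eq_zero_or_pos (N / (h + 1)) with h1 | h1
    · rw [h1, hF0]; simp
    · have : (((N / (h + 1) : ℕ) : ℝ)) ^ (e + 1) ≠ 0 := pow_ne_zero _ (by exact_mod_cast h1.ne')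
      rw [div_pow, div_mul_div_cancel₀ this]
  have hs : Summable fun h : ℕ => 1 / ((h : ℝ) + 1) ^ (e + 1) := by
    have := (summable_nat_add_iff 1).2 (Real.summable_one_div_nat_pow.2 (by omega : 1 < e + 1))
    simpa using this
  have key : Tendsto (fun N : ℕ => ∑' h : ℕ, F (N / (h + 1)) / (N : ℝ) ^ (e + 1)) atTop
      (𝓝 (∑' h : ℕ, L / (e + 1) * (1 / ((h : ℝ) + 1) ^ (e + 1)))) := by
    refine tendsto_tsum_of_dominated_convergence (hs.mul_left K) (fun h => ?_) ?_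
    · simp only [split]
      rw [← one_div_pow]
      exact (hF.comp (Nat.tendsto_div_const_atTop (by omega))).mul ((natdiv_tend h).pow _)
    · filter_upwards [eventually_gt_atTop 0] with N hN h
      have hN' : (0 : ℝ) < N := by exact_mod_cast hN
      rw [split, norm_mul]
      refine mul_le_mul (hK' _) ?_ (norm_nonneg _) ((norm_nonneg _).trans (hK' 0))
      rw [Real.norm_of_nonneg (by positivity), ← one_div_pow]
      refine pow_le_pow_left₀ (by positivity) ?_ _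
      have h1 : N / (h + 1) * (h + 1) ≤ N := Nat.div_mul_le_self N _
      have h2 : ((N / (h + 1) : ℕ) : ℝ) * ((h : ℝ) + 1) ≤ N := by exact_mod_cast h1
      rw [div_le_div_iff₀ hN' (by positivity)]
      linarith
  rw [tsum_mul_left] at key
  have key2 := key.const_mul (((e + 1).factorial : ℕ) : ℝ)
  have e1 : (((e + 1).factorial : ℕ) : ℝ) * (L / (e + 1) * ∑' h : ℕ, 1 / ((h : ℝ) + 1) ^ (e + 1)) =
      e.factorial * L * zt (e + 1) := by
    rw [zt, Nat.factorial_succ]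
    push_cast
    field_simp
  rw [e1] at key2
  refine key2.congr fun N => ?_
  rw [sum_one h0, mul_div_assoc, Finset.sum_div, tsum_eq_sum]
  intro h hh
  rw [Nat.div_eq_of_lt (by have := mem_range.not.1 hh; omega), hF0, zero_div]

theorem mem_HWm {k m : ℕ} {p : (Fin k → ℕ) × (Fin k → ℕ)} :
    p ∈ HWm k m ↔ (∀ i, p.1 i * p.2 i ≠ 0) ∧ ∑ i, p.1 i * p.2 i = m := by
  simp only [HWm, mem_filter, mem_product, Fintype.mem_piFinset, mem_Icc]
  refine and_congr_left fun hm => ⟨fun h i => ?_, fun h => ?_⟩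
  · exact Nat.mul_ne_zero (by have := (h.1 i).1; omega) (by have := (h.2 i).1; omega)
  · have h1 : ∀ i, p.1 i * p.2 i ≤ m := fun i => hm ▸
      Finset.single_le_sum (f := fun i => p.1 i * p.2 i) (fun _ _ => Nat.zero_le _) (mem_univ i)
    have ha : ∀ i, 0 < p.1 i := fun i => Nat.pos_of_ne_zero fun h' => h i (by rw [h', zero_mul])
    have hb : ∀ i, 0 < p.2 i := fun i => Nat.pos_of_ne_zero fun h' => h i (by rw [h', mul_zero])
    exact ⟨fun i => ⟨ha i, (Nat.le_mul_of_pos_right _ (hb i)).trans (h1 i)⟩,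
      fun i => ⟨hb i, (Nat.le_mul_of_pos_left _ (ha i)).trans (h1 i)⟩⟩

theorem step (k m : ℕ) (f : Fin (k + 1) → ℕ → ℝ) :
    ∑ p ∈ HWm (k + 1) m, ∏ i, f i (p.2 i) =
      ∑ q ∈ antidiagonal m, one (f 0) q.1 * ∑ p ∈ HWm k q.2, ∏ i : Fin k, f i.succ (p.2 i) := by
  simp only [one, Finset.sum_mul_sum, ← Finset.sum_product']
  rw [Finset.sum_sigma']
  refine Finset.sum_nbij'
    (fun p => ⟨(p.1 0 * p.2 0, ∑ i : Fin k, p.1 i.succ * p.2 i.succ),
      ((p.1 0, p.2 0), (Fin.tail p.1, Fin.tail p.2))⟩)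
    (fun x => (Fin.cons x.2.1.1 x.2.2.1, Fin.cons x.2.1.2 x.2.2.2)) ?_ ?_ ?_ ?_ ?_
  · intro p hp
    obtain ⟨h1, h2⟩ := mem_HWm.1 hp
    rw [Fin.sum_univ_succ] at h2
    simp only [mem_sigma, HasAntidiagonal.mem_antidiagonal, mem_product, Nat.mem_divisorsAntidiagonal, mem_HWm]
    exact ⟨h2, ⟨trivial, h1 0⟩, fun i => h1 i.succ, rfl⟩
  · rintro ⟨⟨m₁, m₂⟩, ⟨a, b⟩, p⟩ hx
    simp only [mem_sigma, HasAntidiagonal.mem_antidiagonal, mem_product, Nat.mem_divisorsAntidiagonal,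
      mem_HWm] at hx
    obtain ⟨h1, ⟨h2, h3⟩, h4, h5⟩ := hx
    rw [mem_HWm, Fin.sum_univ_succ, Fin.forall_fin_succ]
    simp only [Fin.cons_zero, Fin.cons_succ]
    exact ⟨⟨h2 ▸ h3, h4⟩, by rw [h2, h5, h1]⟩
  · intro p _
    simp
  · rintro ⟨⟨m₁, m₂⟩, ⟨a, b⟩, p⟩ hx
    simp only [mem_sigma, HasAntidiagonal.mem_antidiagonal, mem_product, Nat.mem_divisorsAntidiagonal,
      mem_HWm] at hx
    obtain ⟨-, ⟨h2, -⟩, -, h5⟩ := hx
    subst h2 h5
    simp
  · intro p _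
    rw [Fin.prod_univ_succ]
    rfl

theorem asy_prod (hConv : SConv) (k : ℕ) : ∀ (f : Fin k → ℕ → ℝ) (d : Fin k → ℕ) (z : Fin k → ℝ),
    (∀ i w, 0 ≤ f i w) → (∀ i, Asy (one (f i)) (d i) (z i)) →
    Asy (fun m => ∑ p ∈ HWm k m, ∏ i, f i (p.2 i)) (∑ i, d i) (∏ i, z i) := by
  induction k with
  | zero =>
    intro f d z _ _
    have e1 : ∀ N : ℕ, ∑ m ∈ range (N + 1), ∑ p ∈ HWm 0 m, ∏ i, f i (p.2 i) = 1 := fun N => by
      rw [Finset.sum_eq_single 0]
      · rw [show HWm 0 0 = univ from eq_univ_of_forall fun p => by simp [mem_HWm]]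
        simp
      · intro m _ hm
        rw [show HWm 0 m = ∅ from eq_empty_of_forall_notMem fun p hp => by
          simpa [hm.symm] using (mem_HWm.1 hp).2, sum_empty]
      · simp
    simp only [Asy, e1]
    simp
  | succ k ih =>
    intro f d z hf hz
    have h1 : Asy (fun m => ∑ p ∈ HWm k m, ∏ i : Fin k, f i.succ (p.2 i)) (∑ i : Fin k, d i.succ)
        (∏ i : Fin k, z i.succ) :=
      ih (fun i => f i.succ) (fun i => d i.succ) (fun i => z i.succ)
        (fun i => hf i.succ) fun i => hz i.succ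
    have h2 := hConv (one (f 0)) (fun m => ∑ p ∈ HWm k m, ∏ i : Fin k, f i.succ (p.2 i)) (d 0)
      (∑ i : Fin k, d i.succ) (z 0) (∏ i : Fin k, z i.succ)
      (fun m => Finset.sum_nonneg fun q _ => hf 0 _)
      (fun m => Finset.sum_nonneg fun p _ => Finset.prod_nonneg fun i _ => hf i.succ (p.2 i))
      (hz 0) h1
    rw [Fin.sum_univ_succ, Fin.prod_univ_succ, funext fun m => step k m f]
    exact h2

theorem asy_cyl {a b : ℕ} (ha : 1 ≤ a) (hb : 1 ≤ b) :
    Asy (one fun w => (w : ℝ) * yc a w * yc b w) (a + b) (bt a b) := by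
  obtain ⟨a, rfl⟩ : ∃ d, a = d + 1 := ⟨a - 1, by omega⟩
  obtain ⟨b, rfl⟩ : ∃ d, b = d + 1 := ⟨b - 1, by omega⟩
  have h1 : Tendsto (fun w : ℕ => (w : ℝ) * yc (a + 1) w * yc (b + 1) w / (w : ℝ) ^ (a + 1 + b))
      atTop (𝓝 (2 ^ (a + 1) / a.factorial * (2 ^ (b + 1) / b.factorial))) := by
    refine ((yc_tend a).mul (yc_tend b)).congr' ?_
    filter_upwards [eventually_gt_atTop 0] with w hw
    have hw' : (w : ℝ) ≠ 0 := by exact_mod_cast hw.ne'
    rw [pow_add, pow_succ]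
    field_simp
  have h2 := asy_one (f := fun w => (w : ℝ) * yc (a + 1) w * yc (b + 1) w) (e := a + 1 + b)
    (by simp) (by omega) h1
  have e1 : bt (a + 1) (b + 1) = ((a + 1 + b).factorial : ℝ) *
      (2 ^ (a + 1) / a.factorial * (2 ^ (b + 1) / b.factorial)) * zt (a + 1 + b + 1) := by
    rw [bt, Nat.add_sub_cancel, Nat.add_sub_cancel, show a + 1 + (b + 1) - 1 = a + 1 + b by omega,
      ← add_assoc, show a + 1 + b + 1 = (a + 1) + (b + 1) by omega, pow_add]
    field_simp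
  rw [e1, ← add_assoc]
  exact h2

end ExplAux

theorem pExpl (hConv : SConv) : SExpl := by
  intro k κ hκ
  rw [Fintype.sum_prod_type]
  simp only [Fintype.sum_bool]
  exact ExplAux.asy_prod hConv k
    (fun i w => (w : ℝ) * yc (κ (i, true)) w * yc (κ (i, false)) w) _ _
    (fun i w => mul_nonneg (mul_nonneg (Nat.cast_nonneg w) (ExplAux.yc_nonneg (hκ _) w))
      (ExplAux.yc_nonneg (hκ _) w)) fun i => ExplAux.asy_cyl (hκ _) (hκ _)

end Pool.Agent.STS.Cy
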