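import Pool.Agent.P.MP_bb7f8f_gt.Q2.Base

set_option linter.unusedSectionVars false

namespace Pool.Agent.STS.Cy
open Equiv Finset Filter Topology

namespace F12Aux

theorem egf_comb {ι : Type} (s : Finset ι) (c : ℝ) (g : ι → ℝ) (P : ι → ℕ → ℝ) (a : ℕ → ℝ)
    (ha : ∀ k, a k = c * ∑ i ∈ s, g i * P i k) (n : ℕ) (t : ℂ) :
    egf a n t = c * ∑ i ∈ s, (g i : ℂ) * egf (P i) n t := by
  simp only [egf, ha, Finset.mul_sum]
  rw [Finset.sum_comm]
  refine Finset.sum_congr rfl fun k _ => ?_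
  push_cast
  rw [Finset.sum_mul, Finset.sum_div]
  exact Finset.sum_congr rfl fun i _ => by ring

theorem egr_comb {ι : Type} (s : Finset ι) (c : ℝ) (g : ι → ℝ) (P : ι → ℕ → ℝ) (n : ℕ) (ρ : ℝ) :
    egr (fun k => c * ∑ i ∈ s, g i * P i k) n ρ = c * ∑ i ∈ s, g i * egr (P i) n ρ := by
  simp only [egr, Finset.mul_sum]
  rw [Finset.sum_comm]
  refine Finset.sum_congr rfl fun k _ => ?_
  rw [Finset.sum_mul, Finset.sum_div]
  exact Finset.sum_congr rfl fun i _ => by ring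

theorem card_small {D : ℕ} (hD : 1 ≤ D) (a : ℕ) :
    #{A ∈ SP D | D - A.sup id ≤ a} ≤ 2 ^ a := by
  have h : #((Icc 1 a).powerset) = 2 ^ a := by simp
  rw [← h]
  refine card_le_card_of_injOn (fun A => A.erase (A.sup id)) (fun A hA => ?_) ?_
  · obtain ⟨hA, h1⟩ := mem_filter.1 (mem_coe.1 hA)
    refine mem_coe.2 (mem_powerset.2 fun R hR => ?_)
    have h2 := Est.sum_erase hD hA
    have h3 : R ≤ ∑ R ∈ A.erase (A.sup id), R :=
      single_le_sum (f := fun R => R) (fun _ _ => Nat.zero_le _) hR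
    exact mem_Icc.2 ⟨((Est.mem_SP hA).1 R (mem_of_mem_erase hR)).1, by omega⟩
  · intro A hA A' hA' e
    have hA := (mem_filter.1 (mem_coe.1 hA)).1
    have hA' := (mem_filter.1 (mem_coe.1 hA')).1
    have e' : A.erase (A.sup id) = A'.erase (A'.sup id) := e
    have h1 := Est.sum_erase hD hA
    have h2 := Est.sum_erase hD hA'
    rw [e'] at h1
    have h3 : A.sup id = A'.sup id := by omega
    rw [← insert_erase (Est.sup_mem hD hA), ← insert_erase (Est.sup_mem hD hA'), e', h3]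

theorem single_mem {D : ℕ} (hD : 1 ≤ D) : ({D} : Finset ℕ) ∈ SP D := by
  simp [SP, hD]

end F12Aux
open F12Aux

theorem pF1 (hXF : SXF) (hPhi0 : SPhi0) (hPhi1 : SPhi1) (hPhi2 : SPhi2) (hGam1 : SGam1) (hGam2 : SGam2) : SF1 := by
  intro M
  obtain ⟨C₁, h1⟩ := hPhi1 48
  obtain ⟨C₂, hC₂, h2⟩ := hPhi2 2 (by norm_num)
  obtain ⟨C₃, D₃, h3⟩ := hGam1 M 48
  obtain ⟨C₄, D₄, h4⟩ := hGam2 C₂ hC₂
  refine ⟨2 ^ 48 * (|C₃| * |C₁|) + |C₄|, D₃ + D₄ + M ^ 4 + 1,
    fun D hD H J _ _ _ _ σ π v hV t ht => ?_⟩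
  have hD1 : 1 ≤ D := by omega
  have hD1' : (1 : ℝ) ≤ D := by exact_mod_cast hD1
  have hD0 : (0 : ℝ) < D := by linarith
  have hre := abs_le.1 ((Complex.abs_re_le_norm t).trans ht)
  have hDF := Est.DF_nonneg {D}
  rw [egf_comb (SP D) (2 ^ D) (gm v) (PhA D) _ (hXF H J σ π v D M hV hD1),
    ← Finset.add_sum_erase _ _ (single_mem hD1), gm_single hV.cyc.odd hV.sum hD1,
    show PhA D {D} = fun k => Ph D k (QF.q D) from funext (phA_single D), hPhi0]
  have e0 : (((2 : ℝ) ^ D : ℝ) : ℂ) * ((((DF {D} / 2 ^ (D + 1) : ℝ)) : ℂ) * (4 ^ D * ee D t)) =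
      2 ^ (2 * D - 1) * (DF {D} : ℝ) * ee D t := by
    obtain ⟨d, rfl⟩ : ∃ d, D = d + 1 := ⟨D - 1, by omega⟩
    rw [show 2 * (d + 1) - 1 = 2 * d + 1 by omega, show (4 : ℂ) = 2 ^ 2 by norm_num, ← pow_mul]
    push_cast
    field_simp
    ring
  rw [mul_add, e0, add_sub_cancel_left, norm_mul, Complex.norm_real, Real.norm_eq_abs,
    abs_of_nonneg (by positivity)]
  set E : ℝ := (D : ℝ) ^ (t.re / 2 - 2) with hE
  have hE0 : 0 ≤ E := by positivity
  have small : ∀ A ∈ (SP D).erase {D}, D - A.sup id ≤ 48 →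
      ‖(gm v A : ℂ) * egf (PhA D A) D t‖ ≤ |C₃| * |C₁| * 4 ^ D * DF {D} * E / 2 ^ D := by
    intro A hA ha
    obtain ⟨hne, hA⟩ := mem_erase.1 hA
    have a1 := h3 D (by omega) J v hV.cyc.odd hV.pole hV.sum A hA hne ha
    have a2 := h1 D A hA ha t ht
    have a3 : ((D : ℝ) + 1) ^ (t.re / 2 - 1) ≤ (D : ℝ) ^ (t.re / 2 - 1) :=
      Real.rpow_le_rpow_of_nonpos hD0 (by linarith) (by linarith)
    have a4 : (D : ℝ) ^ (t.re / 2 - 1) = E * D := by
      rw [hE, ← Real.rpow_add_one hD0.ne']; congr 1; ring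
    rw [norm_mul, Complex.norm_real, Real.norm_eq_abs]
    calc _ ≤ (|C₃| * DF {D} / (2 ^ D * D)) * (|C₁| * 4 ^ D * (E * D)) := by
          refine mul_le_mul (a1.trans ?_) (a2.trans ?_) (norm_nonneg _) (by positivity)
          · gcongr; exact le_abs_self _
          · rw [← a4]; gcongr; exact le_abs_self _
      _ = _ := by field_simp
  have big : ∑ A ∈ SP D with 48 < D - A.sup id, ‖(gm v A : ℂ) * egf (PhA D A) D t‖ ≤
      |C₄| * 4 ^ D * DF {D} * E / 2 ^ D := by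
    have a1 := (h4 D (by omega) J v M hV.cyc.odd hV.pole (by omega) hV.sum).2
    have a3 : (D : ℝ) ^ (-3 : ℝ) ≤ E := Real.rpow_le_rpow_of_exponent_le hD1' (by linarith)
    rw [Real.rpow_neg hD0.le, show (3 : ℝ) = (3 : ℕ) by norm_num, Real.rpow_natCast] at a3
    calc _ ≤ ∑ A ∈ SP D with 48 < D - A.sup id, 4 ^ D * D *
            (|gm v A| * C₂ ^ (#A ^ 2) * (100 / 97 : ℝ) ^ (D - A.sup id)) := by
          refine Finset.sum_le_sum fun A hA => ?_
          have a2 := (norm_egf_le _ D ht).trans (h2 D hD1 A (mem_filter.1 hA).1)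
          rw [show (2 : ℝ) / 2 = 1 by norm_num, Real.rpow_one] at a2
          rw [norm_mul, Complex.norm_real, Real.norm_eq_abs]
          exact (mul_le_mul_of_nonneg_left a2 (abs_nonneg _)).trans_eq (by ring)
      _ ≤ 4 ^ D * D * (|C₄| * DF {D} / (2 ^ D * D ^ 4)) := by
          rw [← Finset.mul_sum]
          refine mul_le_mul_of_nonneg_left (a1.trans ?_) (by positivity)
          gcongr; exact le_abs_self _
      _ = |C₄| * 4 ^ D * DF {D} * ((D : ℝ) ^ 3)⁻¹ / 2 ^ D := by field_simp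
      _ ≤ _ := by gcongr
  have tot : ‖∑ A ∈ (SP D).erase {D}, (gm v A : ℂ) * egf (PhA D A) D t‖ ≤
      2 ^ 48 * (|C₃| * |C₁| * 4 ^ D * DF {D} * E / 2 ^ D) +
        |C₄| * 4 ^ D * DF {D} * E / 2 ^ D := by
    refine (norm_sum_le _ _).trans ?_
    rw [← Finset.sum_filter_add_sum_filter_not _ (fun A => D - A.sup id ≤ 48)]
    refine add_le_add ?_ (le_trans ?_ big)
    · refine (Finset.sum_le_card_nsmul _ _ _ fun A hA =>
        small A (mem_filter.1 hA).1 (mem_filter.1 hA).2).trans ?_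
      rw [nsmul_eq_mul]
      refine mul_le_mul_of_nonneg_right ?_ (by positivity)
      have := (card_le_card (filter_subset_filter (fun A : Finset ℕ => D - A.sup id ≤ 48)
        (erase_subset {D} (SP D)))).trans (card_small hD1 48)
      exact_mod_cast this
    · refine Finset.sum_le_sum_of_subset_of_nonneg (fun A hA => ?_) fun _ _ _ => norm_nonneg _
      obtain ⟨a1, a2⟩ := mem_filter.1 hA
      exact mem_filter.2 ⟨mem_of_mem_erase a1, by omega⟩
  exact (mul_le_mul_of_nonneg_left tot (by positivity)).trans_eq (by field_simp)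

theorem pF2 (hXF : SXF) (hPhi2 : SPhi2) (hGam2 : SGam2) : SF2 := by
  intro ρ hρ
  obtain ⟨C₂, hC₂, h2⟩ := hPhi2 ρ hρ
  obtain ⟨C₄, D₄, h4⟩ := hGam2 C₂ hC₂
  refine ⟨C₄, D₄ + 1, fun D hD H J _ _ _ _ σ π v M hV hM => ?_⟩
  have hD1 : 1 ≤ D := by omega
  have a1 := (h4 D (by omega) J v M hV.cyc.odd hV.pole hM hV.sum).1
  calc _ ≤ egr (fun k => 2 ^ D * ∑ A ∈ SP D, |gm v A| * |PhA D A k|) D ρ := by
        refine egr_mono (fun k => ?_) D hρ
        rw [hXF H J σ π v D M hV hD1]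
        refine mul_le_mul_of_nonneg_left (Finset.sum_le_sum fun A _ => ?_) (by positivity)
        rw [← abs_mul]; exact le_abs_self _
    _ = 2 ^ D * ∑ A ∈ SP D, |gm v A| * egr (fun k => |PhA D A k|) D ρ :=
        egr_comb (SP D) (2 ^ D) (fun A => |gm v A|) (fun A k => |PhA D A k|) D ρ
    _ ≤ 2 ^ D * ∑ A ∈ SP D, 4 ^ D * (D : ℝ) ^ (ρ / 2) *
          (|gm v A| * C₂ ^ (#A ^ 2) * (100 / 97 : ℝ) ^ (D - A.sup id)) := by
        refine mul_le_mul_of_nonneg_left (Finset.sum_le_sum fun A hA => ?_) (by positivity)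
        exact (mul_le_mul_of_nonneg_left (h2 D hD1 A hA) (abs_nonneg _)).trans_eq (by ring)
    _ ≤ 2 ^ D * (4 ^ D * (D : ℝ) ^ (ρ / 2) * (C₄ * DF {D} / 2 ^ D)) := by
        rw [← Finset.mul_sum]; gcongr
    _ = _ := by field_simp

end Pool.Agent.STS.Cy
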