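import Pool.Agent.P.MP_bb7f8f_gt.Q2.Base

set_option linter.unusedSectionVars false

namespace Pool.Agent.STS.Cy
open Equiv Finset Filter Topology

namespace FamAux

variable {H J I : Type} [Fintype H] [DecidableEq H] [Fintype J] [DecidableEq J]
  [Fintype I] [DecidableEq I] {σ : Perm H} {π : H → J} {v : J → ℕ} {p : Dg H I}

theorem mem_seg {a z : H} {m : ℕ} : z ∈ seg σ (a, m) ↔ ∃ i ≤ m, (σ ^ i) a = z := by
  simp only [seg, mem_image, mem_range, Nat.lt_succ_iff]

theorem pow_mod (a : H) {i j : ℕ} (h : (σ ^ i) a = (σ ^ j) a) :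
    i % Function.minimalPeriod σ a = j % Function.minimalPeriod σ a := by
  have hp : 0 < Function.minimalPeriod σ a :=
    Function.minimalPeriod_pos_of_mem_periodicPts (σ.injective.mem_periodicPts a)
  refine (Function.iterate_eq_iterate_iff_of_lt_minimalPeriod (Nat.mod_lt _ hp)
    (Nat.mod_lt _ hp)).1 ?_
  rw [Function.iterate_mod_minimalPeriod_eq, Function.iterate_mod_minimalPeriod_eq]
  simpa only [Perm.iterate_eq_pow] using h

theorem per_pow (a : H) (j : ℕ) :
    Function.minimalPeriod σ ((σ ^ j) a) = Function.minimalPeriod σ a := by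
  have := Function.minimalPeriod_apply_iterate (σ.injective.mem_periodicPts a) j
  simpa only [Perm.iterate_eq_pow] using this

theorem mod_cases {i j P : ℕ} (hi : i < 2 * P) (hj : j < P) (h : i % P = j % P) :
    i = j ∨ i = j + P := by
  rw [Nat.mod_eq_of_lt hj] at h
  rcases lt_or_ge i P with h1 | h1
  · left; rwa [Nat.mod_eq_of_lt h1] at h
  · right
    rw [Nat.mod_eq_sub_mod h1, Nat.mod_eq_of_lt (by omega)] at h
    omega

theorem tile_uniq {a : H} {m m' : ℕ} (h : Tile σ p a m) (h' : Tile σ p a m') : m = m' := by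
  have h1 := pow_mod a (h.al.symm.trans h'.al)
  rwa [Nat.mod_eq_of_lt h.lt, Nat.mod_eq_of_lt h'.lt] at h1

/-- a tile which starts inside another tile ends inside it -/
theorem nested (hc : Cyc σ π v) (hp : IsDg σ p) {a : H} {m m' j : ℕ} (h : Tile σ p a m)
    (h' : Tile σ p ((σ ^ j) a) m') (hj : 1 ≤ j) (hjm : j ≤ m) : j + m' ≤ m := by
  have hodd : Odd (Function.minimalPeriod σ a) := by rw [Dart.cyc_per hc]; exact hc.odd _
  have hm := h.lt
  have hm' := h'.lt
  rw [per_pow] at hm'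
  have e1 : p.1 ((σ ^ j) a) = (σ ^ (j + m')) a := by
    rw [h'.al, add_comm, pow_add, Perm.mul_apply]
  obtain ⟨r, hr⟩ := hodd
  obtain ⟨s, hs⟩ := h.odd
  obtain ⟨s', hs'⟩ := h'.odd
  rcases eq_or_lt_of_le hjm with h1 | h1
  · exfalso
    subst h1
    rw [← h.al, (hp.1 a).1] at e1
    have h2 := pow_mod a (i := j + m') (j := 0) (by rw [← e1]; simp)
    have := mod_cases (by omega) (by omega) h2
    omega
  · obtain ⟨y, -, y1, y2⟩ := h.ex
    have e2 : y (p.2 (p.1 ((σ ^ j) a))) = (-1) ^ (j + 1 + 1) := by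
      rw [← hp.sigma, ← y1 (j + 1) (by omega) (by omega), pow_succ', Perm.mul_apply]
    rcases y2 (p.1 ((σ ^ j) a)) with ⟨j', a1, a2, a3⟩ | h0
    · have e3 : ((-1 : ℚ)) ^ (j' + 1) = (-1) ^ (j + 1 + 1) := by
        rw [← e2, a3, y1 j' a1 a2]
      have h2 := pow_mod a (e1.symm.trans a3)
      rcases mod_cases (by omega) (by omega) h2 with h3 | h3
      · omega
      · exfalso
        rcases Nat.even_or_odd j with ⟨t, ht⟩ | ⟨t, ht⟩
        · rw [Even.neg_one_pow (n := j + 1 + 1) ⟨t + 1, by omega⟩,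
            Odd.neg_one_pow (n := j' + 1) ⟨j' / 2, by omega⟩] at e3
          norm_num at e3
        · rw [Odd.neg_one_pow (n := j + 1 + 1) ⟨t + 1, by omega⟩,
            Even.neg_one_pow (n := j' + 1) ⟨(j' + 1) / 2, by omega⟩] at e3
          norm_num at e3
    · rw [e2] at h0
      exact absurd h0 (pow_ne_zero _ (by norm_num))

theorem nested' (hc : Cyc σ π v) (hp : IsDg σ p) {a a' : H} {m m' : ℕ} (h : Tile σ p a m)
    (h' : Tile σ p a' m') (hm : a' ∈ seg σ (a, m)) (hne : a ≠ a') :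
    seg σ (a', m') ⊆ seg σ (a, m) ∧ m' < m := by
  obtain ⟨j, hj, rfl⟩ := mem_seg.1 hm
  have h1 : 1 ≤ j := Nat.one_le_iff_ne_zero.2 fun h0 => hne (by rw [h0]; simp)
  have h2 := nested hc hp h h' h1 hj
  refine ⟨fun z hz => ?_, by omega⟩
  obtain ⟨i, hi, rfl⟩ := mem_seg.1 hz
  exact mem_seg.2 ⟨i + j, by omega, by rw [pow_add, Perm.mul_apply]⟩

theorem meet {a a' : H} {m m' : ℕ} (h : ¬ Disjoint (seg σ (a, m)) (seg σ (a', m'))) :
    a' ∈ seg σ (a, m) ∨ a ∈ seg σ (a', m') := by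
  obtain ⟨z, h1, h2⟩ := Finset.not_disjoint_iff.1 h
  obtain ⟨i, hi, rfl⟩ := mem_seg.1 h1
  obtain ⟨i', hi', e⟩ := mem_seg.1 h2
  rcases le_total i' i with h3 | h3
  · obtain ⟨k, rfl⟩ := Nat.exists_eq_add_of_le h3
    rw [pow_add, Perm.mul_apply] at e
    exact Or.inl (mem_seg.2 ⟨k, by omega, ((σ ^ i').injective e).symm⟩)
  · obtain ⟨k, rfl⟩ := Nat.exists_eq_add_of_le h3
    rw [pow_add, Perm.mul_apply] at e
    exact Or.inr (mem_seg.2 ⟨k, by omega, (σ ^ i).injective e⟩)

theorem tile_lt {a : H} {m : ℕ} (h : Tile σ p a m) : m < Fintype.card H :=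
  h.lt.trans_le Function.minimalPeriod_le_card

end FamAux

open FamAux in
theorem pFam : SFam := by
  intro H J I _ _ _ _ _ _ σ π v hc p hp
  classical
  let O : Finset (H × ℕ) := (univ ×ˢ range (Fintype.card H)).filter fun q =>
    Tile σ p q.1 q.2 ∧ ∀ a m, Tile σ p a m → q.1 ∈ seg σ (a, m) → a = q.1
  have hO : ∀ q, q ∈ O ↔
      Tile σ p q.1 q.2 ∧ ∀ a m, Tile σ p a m → q.1 ∈ seg σ (a, m) → a = q.1 := fun q => by
    simp only [O, mem_filter, mem_product, mem_univ, mem_range, true_and]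
    exact ⟨fun h => h.2, fun h => ⟨tile_lt h.1, h⟩⟩
  have hext : ∀ q ∈ O, ∀ q' ∈ O, q.1 = q'.1 → q = q' := fun q hq q' hq' e =>
    Prod.ext e (tile_uniq ((hO q).1 hq).1 (e ▸ ((hO q').1 hq').1))
  refine ⟨O, fun q hq => ((hO q).1 hq).1, fun q hq q' hq' hne => ?_, fun a m h => ?_, ?_⟩
  · by_contra hd
    rcases meet (a := q.1) (m := q.2) (a' := q'.1) (m' := q'.2) hd with h | h
    · exact hne (hext q hq q' hq' (((hO q').1 hq').2 _ _ ((hO q).1 hq).1 h))
    · exact hne (hext q hq q' hq' (((hO q).1 hq).2 _ _ ((hO q').1 hq').1 h).symm)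
  · obtain ⟨n, hn⟩ : ∃ n, Fintype.card H ≤ m + n := ⟨Fintype.card H, by omega⟩
    induction n generalizing a m with
    | zero => have := tile_lt h; omega
    | succ n ih =>
      by_cases hq : (a, m) ∈ O
      · exact ⟨_, hq, subset_rfl⟩
      · rw [hO] at hq
        push Not at hq
        obtain ⟨a', m', h1, h2, h3⟩ := hq h
        obtain ⟨h4, h5⟩ := nested' hc hp h1 h h2 h3
        obtain ⟨q, h6, h7⟩ := ih a' m' h1 (by omega)
        exact ⟨q, h6, h4.trans h7⟩
  · have h1 : #O ≤ #(univ : Finset (I × Bool)) := by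
      refine Finset.card_le_card_of_injOn (fun q => p.2 (σ q.1)) (fun _ _ => mem_univ _)
        fun q hq q' hq' e => ?_
      have hq1 := (hO q).1 hq
      have hq2 := (hO q').1 hq'
      obtain ⟨y, -, y1, y2⟩ := hq1.1.ex
      have h3 := hq1.1.three
      have e1 : y (p.2 (σ q'.1)) = 1 := by
        have e' : p.2 (σ q.1) = p.2 (σ q'.1) := e
        have := y1 1 le_rfl (by omega)
        rw [pow_one, e'] at this
        rw [this]; norm_num
      rcases y2 (σ q'.1) with ⟨j, a1, a2, a3⟩ | h0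
      · obtain ⟨k, rfl⟩ := Nat.exists_eq_add_of_le' a1
        rw [pow_succ', Perm.mul_apply] at a3
        exact hext q hq q' hq' (hq2.2 _ _ hq1.1
          (mem_seg.2 ⟨k, by omega, (σ.injective a3).symm⟩))
      · rw [e1] at h0
        exact absurd h0 one_ne_zero
    rw [card_univ, Fintype.card_prod, Fintype.card_bool] at h1
    omega

end Pool.Agent.STS.Cy
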