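import Pool.Agent.P.MP_bb7f8f_gt.Q2.Base

set_option linter.unusedSectionVars false

namespace Pool.Agent.STS.Cy
open Equiv Finset Filter Topology

namespace FinAux

/-- a lower bound for the reciprocal of the Gamma function near the origin -/
theorem gam_low {r : ℝ} (hr : r < 2) : ∃ c : ℝ, 0 < c ∧ ∀ t : ℂ, ‖t‖ ≤ r →
    c * ‖t‖ ≤ ‖(Complex.Gamma (t / 2))⁻¹‖ := by
  have hc : Continuous fun t : ℂ => ‖(Complex.Gamma (t / 2 + 1))⁻¹‖ :=
    (Complex.differentiable_one_div_Gamma.continuous.comp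
      (f := fun t : ℂ => t / 2 + 1) (by fun_prop)).norm
  have hpos : ∀ t ∈ Metric.closedBall (0 : ℂ) r, 0 < ‖(Complex.Gamma (t / 2 + 1))⁻¹‖ := by
    intro t ht
    rw [mem_closedBall_zero_iff] at ht
    refine norm_pos_iff.2 (inv_ne_zero (Complex.Gamma_ne_zero_of_re_pos ?_))
    have h1 := (abs_le.1 ((Complex.abs_re_le_norm t).trans ht)).1
    simp only [Complex.add_re, Complex.div_ofNat_re, Complex.one_re]
    linarith
  obtain ⟨c, hc0, hc1⟩ := (isCompact_closedBall (0 : ℂ) r).exists_forall_le'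
    hc.continuousOn hpos
  refine ⟨c / 2, by positivity, fun t ht => ?_⟩
  rw [Complex.one_div_Gamma_eq_self_mul_one_div_Gamma_add_one, norm_mul, norm_div,
    Complex.norm_ofNat]
  have := hc1 t (mem_closedBall_zero_iff.2 ht)
  nlinarith [norm_nonneg t]

theorem norm_GG {D : ℕ} (hD : 0 < D) (t : ℂ) :
    ‖GG D t‖ = 2 * (D : ℝ) ^ (t.re / 2 - 1) * ‖(Complex.Gamma (t / 2))⁻¹‖ := by
  rw [GG, div_eq_mul_inv _ (Complex.Gamma _), norm_mul, norm_mul,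
    Complex.norm_natCast_cpow_of_pos hD]
  simp

theorem GG_one (D : ℕ) :
    GG D 1 = ((2 * (D : ℝ) ^ (1 / 2 - 1 : ℝ) / √Real.pi : ℝ) : ℂ) := by
  have h : Complex.Gamma (1 / 2) = (√Real.pi : ℝ) := by
    rw [← Real.Gamma_one_half_eq, ← Complex.Gamma_ofReal]; simp
  rw [GG, h, Complex.ofReal_div, Complex.ofReal_mul, Complex.ofReal_cpow (Nat.cast_nonneg D)]
  simp

theorem mt_eq {D : ℕ} (hD : 0 < D) (t : ℂ) :
    mt D t = GG D t / ((2 * (D : ℝ) ^ (1 / 2 - 1 : ℝ) / √Real.pi : ℝ) : ℂ) := by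
  have h0 : (D : ℂ) ≠ 0 := by exact_mod_cast hD.ne'
  have h1 : ((√Real.pi : ℝ) : ℂ) ≠ 0 := by
    exact_mod_cast (Real.sqrt_pos.2 Real.pi_pos).ne'
  have h2 : (D : ℂ) ^ (t / 2 - 1) = (D : ℂ) ^ ((t - 1) / 2) * (D : ℂ) ^ (1 / 2 - 1 : ℂ) := by
    rw [← Complex.cpow_add _ _ h0]; congr 1; ring
  have h3 : (D : ℂ) ^ (1 / 2 - 1 : ℂ) ≠ 0 := by
    rw [Ne, Complex.cpow_eq_zero_iff]; tauto
  have h4 : (((D : ℝ) ^ (1 / 2 - 1 : ℝ) : ℝ) : ℂ) = (D : ℂ) ^ (1 / 2 - 1 : ℂ) := by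
    rw [Complex.ofReal_cpow (Nat.cast_nonneg D)]; simp
  rw [mt, GG, h2, Complex.ofReal_div, Complex.ofReal_mul, h4, Complex.ofReal_ofNat,
    div_eq_mul_inv _ (Complex.Gamma _), div_eq_mul_inv _ (Complex.Gamma _)]
  generalize (D : ℂ) ^ (1 / 2 - 1 : ℂ) = u at h3
  generalize (Complex.Gamma (t / 2))⁻¹ = w
  field_simp

/-- the error term vanishes at the origin -/
theorem schwarz {D : ℕ} (hD : 0 < D) {C : ℝ} {A : ℕ → ℝ} (hA : A 0 = 0)
    (h : ∀ t : ℂ, ‖t‖ ≤ 2 → ‖∑ k ∈ range (D + 1), (A k : ℂ) * t ^ k - GG D t‖ ≤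
      C * (D : ℝ) ^ (t.re / 2 - 2)) {t : ℂ} (ht : ‖t‖ < 2) :
    ‖∑ k ∈ range (D + 1), (A k : ℂ) * t ^ k - GG D t‖ ≤
      C * (D : ℝ) ^ (t.re / 2 - 2) * (‖t‖ / 2) := by
  have h0 : (D : ℂ) ≠ 0 := by exact_mod_cast hD.ne'
  have hD' : (0 : ℝ) < D := by exact_mod_cast hD
  set E : ℂ → ℂ := fun t => (∑ k ∈ range (D + 1), (A k : ℂ) * t ^ k - GG D t) *
    (D : ℂ) ^ (-(t / 2)) with hE
  have hn : ∀ t : ℂ, ‖E t‖ = ‖∑ k ∈ range (D + 1), (A k : ℂ) * t ^ k - GG D t‖ *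
      (D : ℝ) ^ (-(t.re / 2)) := fun t => by
    rw [hE]
    simp only [norm_mul, Complex.norm_natCast_cpow_of_pos hD]
    simp
  have hE0 : E 0 = 0 := by
    simp [hE, GG, Finset.sum_range_succ', hA]
  have hG : Differentiable ℂ (GG D) := by
    have : GG D = fun t => 2 * (D : ℂ) ^ (t / 2 - 1) * (Complex.Gamma (t / 2))⁻¹ := by
      funext t; rw [GG, div_eq_mul_inv _ (Complex.Gamma _)]
    rw [this]
    exact (((differentiable_id.div_const 2).sub_const 1).const_cpow (Or.inl h0)).const_mul 2 |>.mul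
      (Complex.differentiable_one_div_Gamma.comp (differentiable_id.div_const 2))
  have hd : Differentiable ℂ E :=
    ((Differentiable.fun_sum fun k _ => by fun_prop).sub hG).mul
      ((differentiable_id.div_const 2).neg.const_cpow (Or.inl h0))
  have hm : Set.MapsTo E (Metric.ball 0 2) (Metric.closedBall (E 0) (C * (D : ℝ) ^ (-2 : ℝ))) := by
    intro z hz
    rw [hE0, mem_closedBall_zero_iff, hn]
    have h1 := h z (mem_ball_zero_iff.1 hz).le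
    calc _ ≤ C * (D : ℝ) ^ (z.re / 2 - 2) * (D : ℝ) ^ (-(z.re / 2)) := by gcongr
      _ = _ := by rw [mul_assoc, ← Real.rpow_add hD']; congr 2; ring
  have h1 := Complex.dist_le_div_mul_dist_of_mapsTo_ball hd.differentiableOn hm
    (mem_ball_zero_iff.2 ht)
  rw [hE0, dist_zero_right, dist_zero_right, hn] at h1
  have h2 : (D : ℝ) ^ (-(t.re / 2)) * (D : ℝ) ^ (t.re / 2) = 1 := by
    rw [← Real.rpow_add hD']; simp
  have h3 : (D : ℝ) ^ (t.re / 2 - 2) = (D : ℝ) ^ (-2 : ℝ) * (D : ℝ) ^ (t.re / 2) := by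
    rw [← Real.rpow_add hD']; congr 1; ring
  calc _ = ‖∑ k ∈ range (D + 1), (A k : ℂ) * t ^ k - GG D t‖ *
        (D : ℝ) ^ (-(t.re / 2)) * (D : ℝ) ^ (t.re / 2) := by rw [mul_assoc, h2, mul_one]
    _ ≤ C * (D : ℝ) ^ (-2 : ℝ) / 2 * ‖t‖ * (D : ℝ) ^ (t.re / 2) := by gcongr
    _ = _ := by rw [h3]; ring

theorem sqrt_pi_le : √Real.pi ≤ 2 := by
  rw [Real.sqrt_le_iff]; constructor <;> linarith [Real.pi_le_four]

theorem part1 {r : ℝ} (hr : r < 2) (C : ℝ) : ∃ (C' : ℝ) (D₀ : ℕ), ∀ D ≥ D₀, ∀ A : ℕ → ℝ,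
    A 0 = 0 → (∀ t : ℂ, ‖t‖ ≤ 2 → ‖∑ k ∈ range (D + 1), (A k : ℂ) * t ^ k - GG D t‖ ≤
      C * (D : ℝ) ^ (t.re / 2 - 2)) → ∀ t : ℂ, ‖t‖ ≤ r →
    ‖∑ k ∈ range (D + 1), ((A k / ∑ j ∈ range (D + 1), A j : ℝ) : ℂ) * t ^ k - mt D t‖ ≤
      C' / D * ‖mt D t‖ := by
  obtain ⟨c, hc, hc1⟩ := gam_low hr
  refine ⟨|C| / c + 2 * |C|, ⌈2 * |C|⌉₊ + 1, fun D hD A hA h t ht => ?_⟩
  have hD0 : 0 < D := by omega
  have hD' : (0 : ℝ) < D := by exact_mod_cast hD0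
  have hD1 : 2 * |C| ≤ D := (Nat.le_ceil _).trans (by exact_mod_cast (by omega))
  have hpi : 0 < √Real.pi := Real.sqrt_pos.2 Real.pi_pos
  set g : ℝ := 2 * (D : ℝ) ^ (1 / 2 - 1 : ℝ) / √Real.pi with hg
  have hg0 : 0 < g := by positivity
  set B : ℝ := ∑ j ∈ range (D + 1), A j with hB
  have hstep : ∀ x : ℝ, (D : ℝ) ^ (x - 2) = (D : ℝ) ^ (x - 1) / D := fun x => by
    rw [← Real.rpow_sub_one hD'.ne']; congr 1; ring
  have hBg : |B - g| ≤ |C| / D * g := by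
    have h1 := h 1 (by simp)
    rw [GG_one, ← hg] at h1
    simp only [one_pow, mul_one, Complex.one_re] at h1
    rw [← Complex.ofReal_sum, ← hB, ← Complex.ofReal_sub, Complex.norm_real, Real.norm_eq_abs,
      hstep] at h1
    have h2 : (D : ℝ) ^ (1 / 2 - 1 : ℝ) ≤ g := by
      rw [hg, le_div_iff₀ hpi]
      nlinarith [sqrt_pi_le, Real.rpow_pos_of_pos hD' (1 / 2 - 1 : ℝ)]
    calc _ ≤ _ := h1
      _ ≤ |C| * (g / D) := by gcongr; exact le_abs_self C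
      _ = _ := by ring
  have hB1 : g / 2 ≤ B := by
    have h1 : |C| / D ≤ 1 / 2 := by rw [div_le_iff₀ hD']; linarith
    have h2 := (abs_le.1 hBg).1
    nlinarith
  have hB0 : 0 < B := by linarith
  set P : ℂ := ∑ k ∈ range (D + 1), (A k : ℂ) * t ^ k with hP
  have e1 : ∑ k ∈ range (D + 1), ((A k / B : ℝ) : ℂ) * t ^ k = P / B := by
    rw [hP, Finset.sum_div]
    exact Finset.sum_congr rfl fun k _ => by push_cast; ring
  have hgc : (g : ℂ) ≠ 0 := by exact_mod_cast hg0.ne'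
  have hBc : (B : ℂ) ≠ 0 := by exact_mod_cast hB0.ne'
  have e2 : P / B - GG D t / g = (P - GG D t) / B + GG D t / g * (((g - B) / B : ℝ) : ℂ) := by
    push_cast; field_simp; ring
  have h3 : ‖P - GG D t‖ ≤ |C| / c / D * ‖GG D t‖ / 4 := by
    have h4 := schwarz hD0 hA h (ht.trans_lt hr)
    have h5 := hc1 t ht
    rw [hstep] at h4
    rw [norm_GG hD0]
    calc _ ≤ _ := h4
      _ ≤ |C| * ((D : ℝ) ^ (t.re / 2 - 1) / D) * (‖t‖ / 2) := by gcongr; exact le_abs_self C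
      _ = |C| / c / D * (2 * (D : ℝ) ^ (t.re / 2 - 1) * (c * ‖t‖)) / 4 := by field_simp; ring
      _ ≤ _ := by gcongr
  rw [e1, mt_eq hD0, ← hg, e2]
  refine (norm_add_le _ _).trans ?_
  rw [norm_mul, norm_div, norm_div, Complex.norm_real, Complex.norm_real, Complex.norm_real,
    Real.norm_of_nonneg hB0.le, Real.norm_of_nonneg hg0.le, Real.norm_eq_abs, abs_div,
    abs_of_pos hB0, abs_sub_comm]
  have h6 : ‖P - GG D t‖ / B ≤ |C| / c / D * (‖GG D t‖ / g) := by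
    calc _ ≤ (|C| / c / D * ‖GG D t‖ / 4) / (g / 2) := by gcongr
      _ = |C| / c / D * (‖GG D t‖ / g) / 2 := by field_simp; ring
      _ ≤ _ := half_le_self (by positivity)
  have h7 : |B - g| / B ≤ 2 * |C| / D := by
    calc _ ≤ (|C| / D * g) / (g / 2) := by gcongr
      _ = _ := by field_simp
  calc _ ≤ |C| / c / D * (‖GG D t‖ / g) + ‖GG D t‖ / g * (2 * |C| / D) := by gcongr
    _ = _ := by ring

theorem part2 {r : ℝ} (hr : r < 2) {D : ℕ} (hD : 1 ≤ D) : ∃ C' : ℝ, ∀ p : ℕ → ℝ, p 0 = 0 →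
    (∀ k, |p k| ≤ 1) → ∀ t : ℂ, ‖t‖ ≤ r →
    ‖∑ k ∈ range (D + 1), (p k : ℂ) * t ^ k - mt D t‖ ≤ C' / D * ‖mt D t‖ := by
  obtain ⟨c, hc, hc1⟩ := gam_low hr
  have hD' : (1 : ℝ) ≤ D := by exact_mod_cast hD
  have hpi : 0 < √Real.pi := Real.sqrt_pos.2 Real.pi_pos
  set g : ℝ := 2 * (D : ℝ) ^ (1 / 2 - 1 : ℝ) / √Real.pi with hg
  have hg0 : 0 < g := by positivity
  set a : ℝ := 2 * (D : ℝ) ^ (-2 : ℝ) * c / g with ha
  have ha0 : 0 < a := by positivity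
  refine ⟨D * (D * 2 ^ D / a + 1), fun p hp0 hp t ht => ?_⟩
  have h1 : a * ‖t‖ ≤ ‖mt D t‖ := by
    rw [mt_eq hD, ← hg, norm_div, Complex.norm_real, Real.norm_of_nonneg hg0.le, norm_GG hD]
    have h2 : (D : ℝ) ^ (-2 : ℝ) ≤ (D : ℝ) ^ (t.re / 2 - 1) := by
      refine Real.rpow_le_rpow_of_exponent_le hD' ?_
      have := (abs_le.1 ((Complex.abs_re_le_norm t).trans ht)).1
      linarith
    calc _ = 2 * (D : ℝ) ^ (-2 : ℝ) * (c * ‖t‖) / g := by rw [ha]; ring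
      _ ≤ _ := by gcongr; exact hc1 t ht
  have h2 : ‖∑ k ∈ range (D + 1), (p k : ℂ) * t ^ k‖ ≤ D * 2 ^ D * ‖t‖ := by
    rw [Finset.sum_range_succ', hp0]
    simp only [Complex.ofReal_zero, zero_mul, add_zero]
    refine (norm_sum_le _ _).trans ?_
    refine (Finset.sum_le_card_nsmul _ _ (2 ^ D * ‖t‖) fun k hk => ?_).trans ?_
    · rw [norm_mul, norm_pow, Complex.norm_real, Real.norm_eq_abs, pow_succ]
      have h3 : ‖t‖ ^ k ≤ 2 ^ D :=
        (pow_le_pow_left₀ (norm_nonneg t) (ht.trans hr.le) k).trans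
          (pow_le_pow_right₀ one_le_two (mem_range.1 hk).le)
      calc _ ≤ 1 * (2 ^ D * ‖t‖) := by gcongr; exact hp _
        _ = _ := one_mul _
    · rw [card_range, nsmul_eq_mul, mul_assoc]
  calc _ ≤ D * 2 ^ D * ‖t‖ + ‖mt D t‖ := (norm_sub_le _ _).trans (by gcongr)
    _ = D * 2 ^ D / a * (a * ‖t‖) + ‖mt D t‖ := by field_simp
    _ ≤ D * 2 ^ D / a * ‖mt D t‖ + ‖mt D t‖ := by gcongr
    _ = _ := by field_simp

end FinAux

theorem pFin : SFin := fun _ hr => ⟨FinAux.part1 hr, fun _ hD => FinAux.part2 hr hD⟩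

end Pool.Agent.STS.Cy
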