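import Pool.Agent.P.MP_bb7f8f_gt.Q2.Base

set_option linter.unusedSectionVars false

namespace Pool.Agent.STS.Cy.Gam1Aux
open Equiv Finset Filter Topology QF QF.Mor Est

/-- the number of sublists with sum at most `m` -/
def NN : List ℕ → ℕ → ℕ
  | [], _ => 1
  | k :: v, m => NN v m + if k ≤ m then NN v (m - k) else 0

theorem NN_pos (v : List ℕ) (m : ℕ) : 1 ≤ NN v m := by
  induction v with
  | nil => simp [NN]
  | cons k v ih => simp only [NN]; omega

theorem NN_mono (v : List ℕ) {m m' : ℕ} (h : m ≤ m') : NN v m ≤ NN v m' := by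
  induction v generalizing m m' with
  | nil => simp [NN]
  | cons k v ih =>
    simp only [NN]
    have h1 := ih h
    have h2 : NN v (m - k) ≤ NN v (m' - k) := ih (by omega)
    split_ifs <;> omega

/-- two to the number of ones -/
def PP (v : List ℕ) : ℕ := (v.map fun k => if k = 1 then 2 else 1).prod

theorem NN_two (v : List ℕ) (hv : ∀ k ∈ v, Odd k) {m : ℕ} (hm : m ≤ 2) : NN v m ≤ PP v := by
  induction v generalizing m with
  | nil => simp [NN, PP]
  | cons k v ih =>
    have h1 := ih (fun x hx => hv x (by simp [hx])) hm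
    have h2 : NN v (m - k) ≤ PP v := ih (fun x hx => hv x (by simp [hx])) (by omega)
    obtain ⟨r, hr⟩ := hv k (by simp)
    simp only [NN, PP, List.map_cons, List.prod_cons] at h1 h2 ⊢
    split_ifs <;> omega

theorem NN_four (v : List ℕ) (hv : ∀ k ∈ v, Odd k) {m : ℕ} (hm : m ≤ 4) :
    NN v m ≤ PP v * (1 + v.length) := by
  induction v generalizing m with
  | nil => simp [NN, PP]
  | cons k v ih =>
    have hv' : ∀ x ∈ v, Odd x := fun x hx => hv x (by simp [hx])
    have h1 := ih hv' hm
    have h2 : NN v (m - k) ≤ PP v * (1 + v.length) := ih hv' (by omega)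
    obtain ⟨r, hr⟩ := hv k (by simp)
    have e : PP (k :: v) = (if k = 1 then 2 else 1) * PP v := by simp [PP]
    rw [e, List.length_cons]
    simp only [NN]
    by_cases hk : k = 1
    · rw [if_pos hk]
      split_ifs <;> nlinarith
    · have h3 : NN v (m - k) ≤ PP v := NN_two v hv' (by omega)
      rw [if_neg hk]
      split_ifs <;> nlinarith

theorem mor_add (k : ℕ) (ν : List ℕ) (F G : List ℕ → ℚ) :
    mor k ν (fun x => F x + G x) = mor k ν F + mor k ν G := by
  induction ν generalizing F G with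
  | nil =>
    simp only [mor, smul_eq_mul, mul_add, sum_add_distrib]
    ring
  | cons e ν ih =>
    simp only [mor, ih]
    ring

theorem cof_add (v : List ℕ) (F G : List ℕ → ℚ) :
    cof v (fun x => F x + G x) = cof v F + cof v G := by
  induction v generalizing F G with
  | nil => simp [cof]
  | cons k v ih => simp only [cof, mor_add, ih]

theorem cof_zero (v : List ℕ) : cof v (fun _ => (0 : ℚ)) = 0 := by
  rw [cof_short v _ fun _ _ => rfl]
  simp

theorem cf_ite (v ν : List ℕ) (p : Prop) [Decidable p] :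
    cof v (fun ν' => if p then (if ν' = ν then (1 : ℚ) else 0) else 0) =
      if p then cf v ν else 0 := by
  split_ifs with h
  · rfl
  · exact cof_zero v

theorem cf_zero (v : List ℕ) (hv : ∀ k ∈ v, 1 ≤ k) (x : ℕ) : cf v [x, 0] = 0 := by
  rw [cf, cof_congr v hv _ (fun _ => 0) fun ν h1 _ => if_neg (by
    rintro rfl
    simpa using h1 0 (by simp)), cof_zero]

theorem mor_ind (k x y : ℕ) (ν : List ℕ) :
    mor k ν (fun ν' => if ν' = [x, y] then (1 : ℚ) else 0) =
      (if k ≤ x then (if ν = [x - k, y] then 1 else 0) else 0) +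
      (if k ≤ y then (if ν = [x, y - k] then 1 else 0) else 0) +
      if ν.length ≤ 1 then mor k ν (fun ν' => if ν' = [x, y] then (1 : ℚ) else 0) else 0 := by
  match ν with
  | [] => simp
  | [e] => simp
  | [e, f] =>
    have h1 : (e + k = x ∧ f = y) ↔ (k ≤ x ∧ e = x - k ∧ f = y) := by omega
    have h2 : (e = x ∧ f + k = y) ↔ (k ≤ y ∧ e = x ∧ f = y - k) := by omega
    simp [mor, h1, h2, ite_and]
  | e :: f :: g :: ν =>
    rw [mor_zero k _ _ fun ν' h => if_neg (by
      rintro rfl
      simp at h)]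
    simp

theorem cf_cons (k x y : ℕ) (v : List ℕ) (hv : v ≠ []) :
    cf (k :: v) [x, y] = (if k ≤ x then cf v [x - k, y] else 0) +
      (if k ≤ y then cf v [x, y - k] else 0) + if v.sum = x ∧ k = y then 1 / 4 else 0 := by
  rw [cf, cof, funext (mor_ind k x y), cof_add, cof_add, cf_ite, cf_ite,
    cof_short v _ fun ν h => if_neg (by omega), if_neg hv]
  congr 1
  simp only [List.length_singleton, le_refl, if_true, mor, smul_eq_mul]
  by_cases h : v.sum = x ∧ k = y
  · simp [h]
    norm_num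
  · simp [h]

theorem cf_single (k x y : ℕ) : |cf [k] [x, y]| ≤ 1 := by
  simp only [cf, cof, mor, smul_eq_mul]
  rw [if_neg (by simp), mul_zero, zero_add]
  refine (abs_sum_le_sum_abs _ _).trans ?_
  refine (sum_le_sum (g := fun e => if e = y then (1 : ℚ) else 0) fun e _ => ?_).trans ?_
  · by_cases h : e = y
    · rw [if_pos h, abs_mul, abs_div, abs_pow, abs_neg, abs_one, one_pow]
      split_ifs <;> norm_num
    · simp [h]
  · rw [sum_ite_eq']
    split_ifs <;> norm_num

theorem cf_two (v : List ℕ) (hv : ∀ k ∈ v, 1 ≤ k) (x y : ℕ) :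
    |cf v [x, y]| ≤ NN v (min x y) := by
  induction v generalizing x y with
  | nil => simp [cf, cof]
  | cons k v ih =>
    have hv' : ∀ x ∈ v, 1 ≤ x := fun x hx => hv x (by simp [hx])
    by_cases h0 : v = []
    · subst h0
      exact (cf_single k x y).trans (by exact_mod_cast NN_pos _ _)
    have key : ∀ {a b m : ℕ}, min a b ≤ m → |cf v [a, b]| ≤ NN v m := fun h =>
      (ih hv' _ _).trans (by exact_mod_cast NN_mono v h)
    have h2 : ∀ m, k ≤ y → min x (y - k) ≤ m → |cf v [x, y - k] +
        if v.sum = x ∧ k = y then 1 / 4 else 0| ≤ NN v m := fun m h1 h2 => by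
      split_ifs with h
      · rw [h.2, Nat.sub_self, cf_zero v hv', zero_add]
        have : (1 : ℚ) ≤ NN v m := by exact_mod_cast NN_pos v m
        rw [abs_of_pos (by norm_num)]
        linarith
      · rw [add_zero]
        exact key h2
    rw [cf_cons k x y v h0, add_assoc]
    refine (abs_add_le _ _).trans ?_
    simp only [NN]
    push_cast
    by_cases hx : k ≤ x <;> by_cases hy : k ≤ y
    · rw [if_pos hx, if_pos hy, if_pos (le_min hx hy)]
      rcases le_total x y with h | h
      · rw [add_comm]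
        exact add_le_add (h2 _ hy (by omega)) (key (by omega))
      · exact add_le_add (key (by omega)) (h2 _ hy (by omega))
    · rw [if_pos hx, if_neg hy, if_neg (by omega), if_neg (by omega)]
      simpa using key (a := x - k) (b := y) (m := min x y) (by omega)
    · rw [if_neg hx, if_pos hy, if_neg (show ¬ k ≤ min x y by omega)]
      simpa using h2 (min x y) hy (by omega)
    · rw [if_neg hx, if_neg hy, if_neg (by omega), if_neg (by omega)]
      simp

variable {J : Type} [Fintype J] [DecidableEq J]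

theorem gm_two (v : J → ℕ) (hv : ∀ j, Odd (v j)) {A : Finset ℕ} (hA : #A = 2) {a : ℕ}
    (ha : a ∈ A) : |gm v A| ≤
      2 * (DF A / 2 ^ (∑ R ∈ A, R) * NN ((univ : Finset J).toList.map v) (2 * a)) := by
  set V : List ℕ := (univ : Finset J).toList.map v with hV
  have V1 : ∀ k ∈ V, 1 ≤ k := fun k hk => by
    obtain ⟨j, _, rfl⟩ := List.mem_map.1 hk
    exact (hv j).pos
  have hDF : 0 ≤ DF A / 2 ^ (∑ R ∈ A, R) := by
    have := DF_nonneg A
    positivity
  have h2 : ∀ l ∈ ords A, |(sg l : ℝ) * ((((l.map fun R => 2 * R).map mu).prod : ℚ) : ℝ) *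
      (cf V (l.map fun R => 2 * R) : ℝ)| ≤ DF A / 2 ^ (∑ R ∈ A, R) * NN V (2 * a) := fun l hl => by
    obtain ⟨h1, h2⟩ := mem_ords.1 hl
    rw [abs_mul, abs_mul, abs_sg, one_mul, prod_mu l h1, h2, abs_of_nonneg hDF]
    refine mul_le_mul_of_nonneg_left ?_ hDF
    have h3 : l.length = 2 := by rw [← List.toFinset_card_of_nodup h1, h2, hA]
    obtain ⟨p, q, rfl⟩ := List.length_eq_two.1 h3
    have h4 : a = p ∨ a = q := by simpa [← h2] using ha
    have h5 := (cf_two V V1 (2 * p) (2 * q)).trans
      (show (NN V (min (2 * p) (2 * q)) : ℚ) ≤ NN V (2 * a) by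
        exact_mod_cast NN_mono V (by omega))
    simp only [List.map_cons, List.map_nil]
    exact_mod_cast h5
  have h4 : (#(ords A) : ℝ) ≤ 2 := by
    have := card_ords A
    rw [hA] at this
    exact_mod_cast this
  rw [gm, gam]
  push_cast
  refine (abs_sum_le_sum_abs _ _).trans ?_
  calc _ ≤ #(ords A) • (DF A / 2 ^ (∑ R ∈ A, R) * NN V (2 * a)) := sum_le_card_nsmul _ _ _ (by
          intro l hl
          have := h2 l hl
          push_cast at this
          exact this)
    _ ≤ _ := by
          rw [nsmul_eq_mul]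
          gcongr

theorem PP_le (v : J → ℕ) {M : ℕ} (hM : #{j | v j = 1} ≤ M) :
    PP ((univ : Finset J).toList.map v) ≤ 2 ^ M := by
  rw [PP, List.map_map, prod_map_toList]
  simp only [Function.comp]
  rw [prod_ite, prod_const, prod_const_one, mul_one]
  exact Nat.pow_le_pow_right (by norm_num) hM

theorem eq_single {B : Finset ℕ} (hB : ∀ R ∈ B, 1 ≤ R) {a : ℕ} (hs : ∑ R ∈ B, R = a) (h1 : 1 ≤ a)
    (h2 : a ≤ 2) : B = {a} := by
  have h3 := sq_le_min (#B) B hB le_rfl
  have h4 : ∑ R ∈ B, min R (#B) ≤ ∑ R ∈ B, R := sum_le_sum fun R _ => min_le_left _ _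
  have h5 : #B ≤ 1 := by nlinarith
  have h6 : #B ≠ 0 := fun h => by
    rw [card_eq_zero.1 h, sum_empty] at hs
    omega
  obtain ⟨b, rfl⟩ := card_eq_one.1 (show #B = 1 by omega)
  rw [← hs, sum_singleton]

theorem small (v : J → ℕ) (hv : ∀ j, Odd (v j)) {M D : ℕ} (hM : #{j | v j = 1} ≤ M)
    (hs : ∑ j, v j = 2 * D) (hD : 5 ≤ D) {a : ℕ} (h1 : 1 ≤ a) (h2 : a ≤ 2) :
    |gm v {D - a, a}| ≤ 18 * 2 ^ M * DF {D} / (2 ^ D * D) := by
  have hne : D - a ≠ a := by omega
  have h3 := gm_two v hv (card_pair hne) (a := a) (by simp)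
  rw [sum_pair hne, show D - a + a = D by omega, DF, prod_pair hne, ← DF_single (D - a)] at h3
  have V1 : ∀ k ∈ (univ : Finset J).toList.map v, Odd k := fun k hk => by
    obtain ⟨j, _, rfl⟩ := List.mem_map.1 hk
    exact hv j
  have h4 := DF_shift D a (by omega)
  have h5 := PP_le v hM
  have hD' : (0 : ℝ) < D := by exact_mod_cast (by omega : 0 < D)
  have p0 := DF_nonneg {D - a}
  refine h3.trans ?_
  rw [le_div_iff₀ (by positivity)]
  have key : (((2 * a - 1).doubleFactorial : ℕ) : ℝ) *
      NN ((univ : Finset J).toList.map v) (2 * a) * D ≤ 9 * 2 ^ M * D ^ a := by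
    have : (2 * a - 1).doubleFactorial * NN ((univ : Finset J).toList.map v) (2 * a) * D ≤
        9 * 2 ^ M * D ^ a := by
      rcases (by omega : a = 1 ∨ a = 2) with rfl | rfl
      · have h6 := (NN_two _ V1 (m := 2 * 1) le_rfl).trans h5
        rw [pow_one]
        exact Nat.mul_le_mul_right _ (by
          rw [show Nat.doubleFactorial (2 * 1 - 1) = 1 from rfl]; omega)
      · have h6 := NN_four _ V1 (m := 2 * 2) le_rfl
        have h7 : ((univ : Finset J).toList.map v).length ≤ 2 * D := by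
          rw [List.length_map, length_toList, ← hs]
          exact card_le_sum v hv univ
        have h8 := h6.trans (Nat.mul_le_mul h5 (show _ ≤ 3 * D by omega))
        calc _ ≤ 3 * (2 ^ M * (3 * D)) * D := Nat.mul_le_mul_right _ (Nat.mul_le_mul le_rfl h8)
          _ = _ := by ring
    exact_mod_cast this
  calc _ = 2 * DF {D - a} * ((((2 * a - 1).doubleFactorial : ℕ) : ℝ) *
        NN ((univ : Finset J).toList.map v) (2 * a) * D) := by field_simp
    _ ≤ 2 * DF {D - a} * (9 * 2 ^ M * D ^ a) := by gcongr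
    _ = 18 * 2 ^ M * (DF {D - a} * D ^ a) := by ring
    _ ≤ _ := by gcongr

theorem xx_mono (N : ℕ) {R R' : ℕ} (h : R ≤ R') : xx N R ≤ xx N R' := by
  apply xx_le (xx_nonneg _ _)
  rw [xx_six]
  gcongr

theorem tail {L : ℝ} (hL : 1 ≤ L) {D a₀ : ℕ} (hD : a₀ ≤ D) {B : Finset ℕ} (hB : ∀ R ∈ B, 1 ≤ R)
    (h3 : 3 ≤ ∑ R ∈ B, R) (h0 : ∑ R ∈ B, R ≤ a₀) :
    Est.GG D B * ∏ R ∈ B, hh L D R ≤ (4 * L) ^ a₀ * (a₀ / D) := by
  have hx0 := xx_nonneg D a₀
  have hx1 : xx D a₀ ≤ 1 := xx_le_one hD
  calc _ = ∏ R ∈ B, (xx D R ^ R * hh L D R) := by rw [Est.GG, prod_mul_distrib]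
    _ ≤ ∏ R ∈ B, (4 * L * xx D a₀ ^ 2) ^ R := by
        refine prod_le_prod (fun R _ => mul_nonneg (pow_nonneg (xx_nonneg _ _) _)
          (hh_nonneg (by linarith) _ _)) fun R hR => ?_
        have e1 : xx D R ≤ xx D a₀ := xx_mono D
          ((single_le_sum (f := fun R => R) (fun _ _ => Nat.zero_le _) hR).trans h0)
        have e2 : (2 * R : ℝ) ≤ 2 ^ R := by
          have : 2 * R ≤ 2 ^ R := by
            obtain ⟨m, rfl⟩ : ∃ m, R = m + 1 := ⟨R - 1, by have := hB R hR; omega⟩
            have : m < 2 ^ m := Nat.lt_two_pow_self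
            rw [pow_succ]
            omega
          exact_mod_cast this
        have e3 : L ^ (min R (Nat.sqrt (2 * D))) ≤ L ^ R := pow_le_pow_right₀ hL (min_le_left _ _)
        have e4 : (100 / 97 : ℝ) ≤ 2 := by norm_num
        have := xx_nonneg D R
        calc _ ≤ xx D a₀ ^ R * (2 ^ R * 2 ^ R * L ^ R * xx D a₀ ^ R) := by
              unfold hh
              gcongr
          _ = _ := by
              rw [show (4 : ℝ) = 2 * 2 by norm_num, sq]
              simp only [mul_pow]
              ring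
    _ = (4 * L) ^ (∑ R ∈ B, R) * (xx D a₀ ^ 2) ^ (∑ R ∈ B, R) := by
        rw [prod_pow_eq_pow_sum, mul_pow]
    _ ≤ (4 * L) ^ a₀ * (xx D a₀ ^ 2) ^ 3 :=
        mul_le_mul (pow_le_pow_right₀ (by linarith) h0)
          (pow_le_pow_of_le_one (by positivity) (pow_le_one₀ hx0 hx1) h3) (by positivity)
          (by positivity)
    _ = _ := by rw [← pow_mul, xx_six]

end Pool.Agent.STS.Cy.Gam1Aux

namespace Pool.Agent.STS.Cy
open Equiv Finset Filter Topology

open Gam1Aux Est in
theorem pGam1 : SGam1 := by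
  intro M a₀
  set K : ℝ := 2 ^ (M + 2) * 1 with hKd
  have hK : 1 ≤ K := one_le_mul_of_one_le_of_one_le (one_le_pow₀ (by norm_num)) le_rfl
  refine ⟨18 * 2 ^ M + K ^ 2 * ((4 * K ^ 4) ^ a₀ * a₀), a₀ + 5,
    fun D hD J _ _ v hv hM hs A hA hne ha => ?_⟩
  have hD1 : 1 ≤ D := by omega
  have hD' : (0 : ℝ) < D := by exact_mod_cast hD1
  have p0 := DF_nonneg {D}
  have e := sum_erase hD1 hA
  have hB : ∀ R ∈ A.erase (A.sup id), 1 ≤ R := fun R hR => (erase_half hD1 hA R hR).1
  have h1 : 1 ≤ ∑ R ∈ A.erase (A.sup id), R := by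
    rcases (A.erase (A.sup id)).eq_empty_or_nonempty with h | ⟨R, hR⟩
    · exfalso
      apply hne
      rw [h, sum_empty, add_zero] at e
      rw [← insert_erase (sup_mem hD1 hA), h, e]
      rfl
    · exact (hB R hR).trans (single_le_sum (f := fun R => R) (fun _ _ => Nat.zero_le _) hR)
  rw [add_mul, add_div]
  rcases le_or_gt (∑ R ∈ A.erase (A.sup id), R) 2 with h2 | h2
  · have h3 := eq_single hB rfl h1 h2
    have h4 := small v hv hM hs (by omega) h1 h2
    rw [← h3, show D - ∑ R ∈ A.erase (A.sup id), R = A.sup id by omega,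
      insert_erase (sup_mem hD1 hA)] at h4
    exact h4.trans (le_add_of_nonneg_right (by positivity))
  · refine le_trans ?_ (le_add_of_nonneg_left (by positivity))
    have h3 := gm_kap hv hs hD1 hA (uu D) fun R hR => uu_pos hD1 hR
    have h4 := term_le v hv hM univ 1 le_rfl hD1 hA
    have h5 := tail (L := K ^ 4) (one_le_pow₀ hK) (show a₀ ≤ D by omega) hB h2 (by omega)
    have h6 : 0 ≤ kap univ v A (uu D) * DF A := by
      have := (abs_nonneg _).trans h3
      exact (div_nonneg_iff.1 this).elim (·.1) fun h => absurd h.2 (not_le.2 (by positivity))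
    have h7 : kap univ v A (uu D) * DF A ≤ DF {D} * K ^ 2 * ((4 * K ^ 4) ^ a₀ * (a₀ / D)) := by
      rw [one_pow, mul_one, mul_assoc (DF {D} * K ^ 2)] at h4
      refine (le_mul_of_one_le_right h6 (one_le_pow₀ (by norm_num))).trans (h4.trans ?_)
      exact mul_le_mul_of_nonneg_left h5 (by positivity)
    refine h3.trans ((div_le_div_of_nonneg_right h7 (by positivity)).trans (le_of_eq ?_))
    field_simp

end Pool.Agent.STS.Cy
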