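import Pool.Agent.P.MP_bb7f8f_gt.Q2.Base

set_option linter.unusedSectionVars false

namespace Pool.Agent.STS.Cy
open Equiv Finset Filter Topology

namespace Gam2Aux
open Est

theorem gain_row48 : ∃ N₀ : ℕ, ∀ N ≥ N₀, ∀ R, 2 * R ≤ N →
    (xx N R ^ R) ^ 12 ≤ ((N : ℝ)⁻¹) ^ (min R 48) := by
  have ht := tendsto_pow_const_mul_const_pow_of_abs_lt_one 8 (r := (0.891 : ℝ))
    (by rw [abs_of_pos] <;> norm_num)
  obtain ⟨R₀, hR₀⟩ := eventually_atTop.1 (ht.eventually (eventually_le_nhds zero_lt_one))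
  refine ⟨R₀ ^ 2 + 1, fun N hN R hRN => ?_⟩
  have hN1 : (1 : ℝ) ≤ N := by exact_mod_cast (by omega : 1 ≤ N)
  have hx0 := xx_nonneg N R
  have hi : (N : ℝ)⁻¹ ≤ 1 := inv_le_one_of_one_le₀ hN1
  rcases le_or_gt (R ^ 2) N with h | h
  · have e1 : xx N R ^ 12 ≤ (N : ℝ)⁻¹ := by
      rw [show 12 = 6 * 2 by norm_num, pow_mul, xx_six, div_pow, div_le_iff₀ (by positivity)]
      have : ((R ^ 2 : ℕ) : ℝ) ≤ N := by exact_mod_cast h
      push_cast at this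
      refine this.trans (le_of_eq ?_)
      field_simp
    rw [← pow_mul, mul_comm, pow_mul]
    calc _ ≤ ((N : ℝ)⁻¹) ^ R := by gcongr
      _ ≤ _ := pow_le_pow_of_le_one (by positivity) hi (min_le_left _ _)
  · have hR : R₀ ≤ R := by nlinarith
    have e1 := hR₀ R hR
    have e2 : (N : ℝ) ^ 4 ≤ (R : ℝ) ^ 8 := by
      have : (N : ℝ) ≤ ((R ^ 2 : ℕ) : ℝ) := by exact_mod_cast h.le
      push_cast at this
      calc (N : ℝ) ^ 4 ≤ ((R : ℝ) ^ 2) ^ 4 := by gcongr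
        _ = _ := by ring
    have e3 : (0.891 : ℝ) ^ R ≤ ((N : ℝ)⁻¹) ^ 4 := by
      rw [inv_pow, ← one_div, le_div_iff₀ (by positivity)]
      calc (0.891 : ℝ) ^ R * N ^ 4 ≤ 0.891 ^ R * R ^ 8 := by gcongr
        _ ≤ 1 := by rw [mul_comm]; exact e1
    have hx := xx_half hRN
    calc _ ≤ (((N : ℝ)⁻¹) ^ 4) ^ 12 := by
          gcongr
          exact (pow_le_pow_left₀ hx0 hx _).trans e3
      _ = ((N : ℝ)⁻¹) ^ 48 := by rw [← pow_mul]
      _ ≤ _ := pow_le_pow_of_le_one (by positivity) hi (min_le_right _ _)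

theorem gain48 : ∃ N₀ : ℕ, ∀ N ≥ N₀, ∀ B : Finset ℕ, (∀ R ∈ B, 2 * R ≤ N) →
    48 ≤ ∑ R ∈ B, R → Est.GG N B ≤ ((N : ℝ) ^ 4)⁻¹ := by
  obtain ⟨N₀, h⟩ := gain_row48
  refine ⟨N₀ + 1, fun N hN B hB hs => ?_⟩
  have hN1 : (1 : ℝ) ≤ N := by exact_mod_cast (by omega : 1 ≤ N)
  have e1 : Est.GG N B ^ 12 ≤ (((N : ℝ) ^ 4)⁻¹) ^ 12 := by
    unfold Est.GG
    rw [← Finset.prod_pow]
    calc _ ≤ ∏ R ∈ B, ((N : ℝ)⁻¹) ^ (min R 48) :=
          prod_le_prod (fun R _ => pow_nonneg (pow_nonneg (xx_nonneg N R) _) _)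
            fun R hR => h N (by omega) R (hB R hR)
      _ = ((N : ℝ)⁻¹) ^ (∑ R ∈ B, min R 48) := prod_pow_eq_pow_sum _ _ _
      _ ≤ ((N : ℝ)⁻¹) ^ 48 := by
          refine pow_le_pow_of_le_one (by positivity) (inv_le_one_of_one_le₀ hN1) ?_
          have := min_sum B 48
          omega
      _ = _ := by rw [← inv_pow, ← pow_mul]
  exact (pow_le_pow_iff_left₀ (GG_nonneg _ _) (by positivity) (by norm_num)).1 e1

theorem exp_small : Real.exp (1 / 101) ≤ 1.01 := by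
  have h := Real.add_one_le_exp (-(1 / 101))
  have h2 : Real.exp (1 / 101) * Real.exp (-(1 / 101)) = 1 := by
    rw [← Real.exp_add]; simp
  have h3 := Real.exp_pos (1 / 101)
  nlinarith

theorem pole_row {N M R : ℕ} (hN : 101 ^ 12 ≤ N) (hM : M ^ 4 ≤ N) (hR : 1 ≤ R) :
    Real.exp (M * uu N R) ≤ 1.01 ^ R := by
  have hN0 : (0 : ℝ) < N := by exact_mod_cast (by omega : 0 < N)
  have hN' : (101 : ℝ) ^ 12 ≤ N := by exact_mod_cast hN
  have hM' : (M : ℝ) ^ 4 ≤ N := by exact_mod_cast hM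
  have hR' : (1 : ℝ) ≤ R := by exact_mod_cast hR
  have hx := xx_nonneg N R
  have h1 : (M * uu N R) ^ 12 ≤ ((R : ℝ) * (1 / 101)) ^ 12 := by
    have e1 : (M * uu N R) ^ 12 = ((M : ℝ) ^ 4) ^ 3 * (xx N R ^ 6) ^ 4 := by
      unfold uu; ring
    rw [e1, xx_six]
    have e2 : (R : ℝ) ^ 4 ≤ (R : ℝ) ^ 12 := pow_le_pow_right₀ hR' (by norm_num)
    calc ((M : ℝ) ^ 4) ^ 3 * ((R : ℝ) / N) ^ 4 ≤ (N : ℝ) ^ 3 * ((R : ℝ) / N) ^ 4 := by gcongr
      _ = (R : ℝ) ^ 4 / N := by field_simp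
      _ ≤ (R : ℝ) ^ 12 / 101 ^ 12 := by gcongr
      _ = _ := by ring
  have h2 : M * uu N R ≤ (R : ℝ) * (1 / 101) := by
    refine (pow_le_pow_iff_left₀ ?_ (by positivity) (by norm_num)).1 h1
    unfold uu
    positivity
  refine (Real.exp_le_exp.2 h2).trans ?_
  rw [Real.exp_nat_mul]
  exact pow_le_pow_left₀ (Real.exp_pos _).le exp_small R

theorem vertex_le {J : Type} [Fintype J] [DecidableEq J] (v : J → ℕ) (hv : ∀ j, Odd (v j))
    {M : ℕ} (hM : #{j | v j = 1} ≤ M) {N : ℕ} (hN : 101 ^ 12 ≤ N) (hMN : M ^ 4 ≤ N)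
    {A : Finset ℕ} (hA : A ∈ SP N) :
    ∏ j, ∑ R ∈ A, uu N R ^ v j ≤ ∏ R ∈ A.erase (A.sup id), (1.01 : ℝ) ^ R := by
  have hN1 : 1 ≤ N := by omega
  have hN' : (0 : ℝ) < N := by exact_mod_cast hN1
  have hAN : ∀ R ∈ A, R ≤ N := fun R hR => ((Est.mem_SP hA).1 R hR).2
  have hm := Est.sup_mem hN1 hA
  have s0 : 0 ≤ ∑ R ∈ A.erase (A.sup id), uu N R :=
    sum_nonneg fun R _ => by unfold uu; positivity
  have hr : 1 ≤ Real.exp (∑ R ∈ A.erase (A.sup id), uu N R) := Real.one_le_exp s0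
  have h3 : ∀ j, 3 ≤ v j → ∑ R ∈ A, uu N R ^ v j ≤ 1 := fun j hj =>
    (usum_three hAN hj).trans (by rw [(Est.mem_SP hA).2, div_self hN'.ne'])
  have h1 : ∀ j, ∑ R ∈ A, uu N R ^ v j ≤ Real.exp (∑ R ∈ A.erase (A.sup id), uu N R) := by
    intro j
    by_cases h : v j = 1
    · simp only [h, pow_one]
      rw [← add_sum_erase A (uu N) hm]
      have e1 : uu N (A.sup id) ≤ 1 := by
        unfold uu
        exact pow_le_one₀ (xx_nonneg _ _) (xx_le_one (hAN _ hm))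
      have e2 := Real.add_one_le_exp (∑ R ∈ A.erase (A.sup id), uu N R)
      linarith
    · obtain ⟨k, hk⟩ := hv j
      exact (h3 j (by omega)).trans hr
  refine (vprod v hv hM univ _ hr (fun j => usum_nonneg N A _) h1 h3).trans ?_
  rw [← Real.exp_nat_mul, mul_sum, Real.exp_sum]
  exact prod_le_prod (fun R _ => (Real.exp_pos _).le) fun R hR =>
    pole_row hN hMN (erase_half hN1 hA R hR).1

theorem term_le2 {J : Type} [Fintype J] [DecidableEq J] (v : J → ℕ) (hv : ∀ j, Odd (v j))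
    {M : ℕ} (hM : #{j | v j = 1} ≤ M) (C : ℝ) (hC : 1 ≤ C) {N : ℕ} (hN : 101 ^ 12 ≤ N)
    (hMN : M ^ 4 ≤ N) {A : Finset ℕ} (hA : A ∈ SP N) :
    kap univ v A (uu N) * DF A * C ^ (#A ^ 2) * (100 / 97 : ℝ) ^ (N - A.sup id) ≤
      DF {N} * (4 * C) ^ 2 * Est.GG N (A.erase (A.sup id)) *
        ∏ R ∈ A.erase (A.sup id), (hh ((4 * C) ^ 4) N R * (1.01 : ℝ) ^ R) := by
  set K : ℝ := 4 * C with hKd
  have hK : 1 ≤ K := by linarith
  have hN1 : 1 ≤ N := by omega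
  have h1 := vertex_le v hv hM hN hMN hA
  have h2 : ((#A).factorial : ℝ) * 2 ^ #A * C ^ (#A ^ 2) ≤ K ^ (#A ^ 2) := by
    have := const_le 0 (#A) C hC
    rw [pow_zero, mul_one] at this
    refine this.trans (le_of_eq ?_)
    rw [hKd]
    norm_num
  have h3 := rows_erase hN1 le_rfl hA K hK
  have h4 := df_low N hN1
  rw [← DF_single] at h4
  have p1 : 0 ≤ (∏ R ∈ A, (uu N R)⁻¹ ^ (2 * R)) * DF A := by
    refine mul_nonneg (prod_nonneg fun R _ => ?_) (DF_nonneg A)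
    unfold uu
    positivity
  have p2 : 0 ≤ ∏ R ∈ A.erase (A.sup id), (2 * R : ℝ) := by positivity
  have p3 := GG_nonneg N (A.erase (A.sup id))
  have p4 : 0 ≤ ∏ R ∈ A.erase (A.sup id), hh (K ^ 4) N R :=
    prod_nonneg fun R _ => hh_nonneg (by positivity) N R
  have p5 : 0 ≤ ∏ R ∈ A.erase (A.sup id), (1.01 : ℝ) ^ R := by positivity
  refine le_of_mul_le_mul_left ?_ (by positivity : (0 : ℝ) < 2 ^ #A)
  calc _ = (∏ R ∈ A.erase (A.sup id), (2 * R : ℝ)) * ((∏ R ∈ A, (uu N R)⁻¹ ^ (2 * R)) * DF A) *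
        (((#A).factorial : ℝ) * 2 ^ #A * C ^ (#A ^ 2)) *
        (100 / 97 : ℝ) ^ (N - A.sup id) * (∏ j, ∑ R ∈ A, uu N R ^ v j) := by unfold kap; ring
    _ ≤ (∏ R ∈ A.erase (A.sup id), (2 * R : ℝ)) * ((∏ R ∈ A, (uu N R)⁻¹ ^ (2 * R)) * DF A) *
        K ^ (#A ^ 2) * (100 / 97 : ℝ) ^ (N - A.sup id) *
        ∏ R ∈ A.erase (A.sup id), (1.01 : ℝ) ^ R := by
        gcongr
        exact prod_nonneg fun j _ => usum_nonneg N A _
    _ ≤ (2 ^ #A * (2 * N / Real.exp 1) ^ N * K ^ 2 * Est.GG N (A.erase (A.sup id)) *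
        ∏ R ∈ A.erase (A.sup id), hh (K ^ 4) N R) *
        ∏ R ∈ A.erase (A.sup id), (1.01 : ℝ) ^ R := mul_le_mul_of_nonneg_right h3 p5
    _ ≤ (2 ^ #A * DF {N} * K ^ 2 * Est.GG N (A.erase (A.sup id)) *
        ∏ R ∈ A.erase (A.sup id), hh (K ^ 4) N R) *
        ∏ R ∈ A.erase (A.sup id), (1.01 : ℝ) ^ R := by gcongr
    _ = _ := by rw [prod_mul_distrib]; ring

theorem geo2 (n : ℕ) : ∑ R ∈ Icc 1 n, (0.9696 : ℝ) ^ R ≤ 32 := by
  have : ∑ R ∈ Icc 1 n, (0.9696 : ℝ) ^ R = 606 / 19 - 606 / 19 * 0.9696 ^ n := by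
    induction n with
    | zero => simp
    | succ n ih =>
      rw [Finset.sum_Icc_succ_top (by omega), ih, pow_succ]
      ring
  rw [this]
  have : (0 : ℝ) ≤ 0.9696 ^ n := by positivity
  linarith

theorem hh_sum2 (L : ℝ) (hL : 1 ≤ L) : ∃ N₀ : ℕ, ∀ N ≥ N₀,
    ∑ B ∈ (Icc 1 (N / 2)).powerset, ∏ R ∈ B, (hh L N R * (1.01 : ℝ) ^ R) ≤ Real.exp 32 := by
  obtain ⟨N₀, h⟩ := hh_le L hL
  refine ⟨N₀, fun N hN => ?_⟩
  rw [← Finset.prod_one_add]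
  refine (Real.prod_one_add_le_exp_sum _ fun R =>
    mul_nonneg (hh_nonneg (by linarith) N R) (by positivity)).trans ?_
  refine Real.exp_le_exp.2 (le_trans (sum_le_sum fun R hR => ?_) (geo2 (N / 2)))
  rw [mem_Icc] at hR
  calc _ ≤ (0.96 : ℝ) ^ R * 1.01 ^ R :=
        mul_le_mul_of_nonneg_right (h N hN R hR.1 (by omega)) (by positivity)
    _ = _ := by rw [← mul_pow]; norm_num

end Gam2Aux

open Gam2Aux in
theorem pGam2 : SGam2 := by
  intro C hC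
  have hK : (1 : ℝ) ≤ 4 * C := by linarith
  obtain ⟨N₁, hN₁⟩ := hh_sum2 ((4 * C) ^ 4) (one_le_pow₀ hK)
  obtain ⟨N₂, hN₂⟩ := gain48
  refine ⟨(4 * C) ^ 2 * Real.exp 32, N₁ + N₂ + 101 ^ 12, fun D hD J _ _ v M hv hM hMD hs => ?_⟩
  have hD1 : 1 ≤ D := by omega
  have hD' : (0 : ℝ) < D := by exact_mod_cast hD1
  have p0 := Est.DF_nonneg {D}
  have q : ∀ R, 0 ≤ Est.hh ((4 * C) ^ 4) D R * (1.01 : ℝ) ^ R := fun R =>
    mul_nonneg (Est.hh_nonneg (by positivity) _ R) (by positivity)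
  have hsum : ∑ A ∈ SP D, ∏ R ∈ A.erase (A.sup id),
      (Est.hh ((4 * C) ^ 4) D R * (1.01 : ℝ) ^ R) ≤ Real.exp 32 :=
    (Est.sum_SP_erase hD1 le_rfl _ q).trans (hN₁ D (by omega))
  have key : ∀ A ∈ SP D, ∀ η : ℝ, Est.GG D (A.erase (A.sup id)) ≤ η →
      |gm v A| * C ^ (#A ^ 2) * (100 / 97 : ℝ) ^ (D - A.sup id) ≤
        DF {D} * (4 * C) ^ 2 * η / 2 ^ D * ∏ R ∈ A.erase (A.sup id),
          (Est.hh ((4 * C) ^ 4) D R * (1.01 : ℝ) ^ R) := by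
    intro A hA η hη
    have h1 := gm_kap hv hs hD1 hA (Est.uu D) fun R hR => Est.uu_pos hD1 hR
    have h2 := term_le2 v hv hM C hC (by omega) hMD hA
    have p1 := prod_nonneg (s := A.erase (A.sup id)) fun R _ => q R
    calc _ ≤ kap univ v A (Est.uu D) * DF A / 2 ^ D * C ^ (#A ^ 2) *
          (100 / 97 : ℝ) ^ (D - A.sup id) := by gcongr
      _ = kap univ v A (Est.uu D) * DF A * C ^ (#A ^ 2) *
          (100 / 97 : ℝ) ^ (D - A.sup id) / 2 ^ D := by ring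
      _ ≤ DF {D} * (4 * C) ^ 2 * η * (∏ R ∈ A.erase (A.sup id),
          (Est.hh ((4 * C) ^ 4) D R * (1.01 : ℝ) ^ R)) / 2 ^ D := by
          refine div_le_div_of_nonneg_right (h2.trans ?_) (by positivity)
          gcongr
      _ = _ := by ring
  constructor
  · calc _ ≤ ∑ A ∈ SP D, DF {D} * (4 * C) ^ 2 * 1 / 2 ^ D * ∏ R ∈ A.erase (A.sup id),
          (Est.hh ((4 * C) ^ 4) D R * (1.01 : ℝ) ^ R) :=
          sum_le_sum fun A hA => key A hA 1 (Est.GG_le_one fun R hR =>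
            ((Est.mem_SP hA).1 R (mem_of_mem_erase hR)).2)
      _ ≤ DF {D} * (4 * C) ^ 2 * 1 / 2 ^ D * Real.exp 32 := by
          rw [← mul_sum]
          gcongr
      _ = _ := by ring
  · calc _ ≤ ∑ A ∈ SP D with 48 < D - A.sup id,
          DF {D} * (4 * C) ^ 2 * ((D : ℝ) ^ 4)⁻¹ / 2 ^ D * ∏ R ∈ A.erase (A.sup id),
          (Est.hh ((4 * C) ^ 4) D R * (1.01 : ℝ) ^ R) := by
          refine sum_le_sum fun A hA => ?_
          obtain ⟨hA, h48⟩ := mem_filter.1 hA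
          refine key A hA _ (hN₂ D (by omega) _ (fun R hR => (Est.erase_half hD1 hA R hR).2) ?_)
          have := Est.sum_erase hD1 hA
          omega
      _ ≤ DF {D} * (4 * C) ^ 2 * ((D : ℝ) ^ 4)⁻¹ / 2 ^ D * Real.exp 32 := by
          rw [← mul_sum]
          gcongr
          exact (sum_le_sum_of_subset_of_nonneg (filter_subset _ _) fun A _ _ =>
            prod_nonneg fun R _ => q R).trans hsum
      _ = _ := by field_simp

end Pool.Agent.STS.Cy
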