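import Pool.Agent.P.MP_bb7f8f_gt.Q2.Base

set_option linter.unusedSectionVars false

namespace Pool.Agent.STS.Cy
open Equiv Finset Filter Topology

namespace GdgAux

variable {H I : Type} [Fintype H] [DecidableEq H] [Fintype I] [DecidableEq I]

theorem gdg_nxt_self (σ : Perm H) (Y : Finset H) {x : H} (hx : x ∈ Y) : nxt σ Y x = x := by
  have h0 : sInf {j : ℕ | (σ ^ j) x ∈ Y} = 0 :=
    Nat.eq_zero_of_le_zero (Nat.sInf_le (by simpa using hx))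
  unfold nxt
  rw [h0]
  simp

theorem gdg_sInf (σ : Perm H) (Y : Finset H) {x : H} (hx : ∃ n : ℕ, (σ ^ n) x ∈ Y) {j : ℕ}
    (hj : ∀ i < j, (σ ^ i) x ∉ Y) :
    (∃ n : ℕ, (σ ^ n) ((σ ^ j) x) ∈ Y) ∧
      sInf {n : ℕ | (σ ^ n) x ∈ Y} = sInf {n : ℕ | (σ ^ n) ((σ ^ j) x) ∈ Y} + j := by
  have hm : (σ ^ sInf {n : ℕ | (σ ^ n) x ∈ Y}) x ∈ Y :=
    Nat.sInf_mem (s := {n : ℕ | (σ ^ n) x ∈ Y}) hx
  have hle : j ≤ sInf {n : ℕ | (σ ^ n) x ∈ Y} := by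
    by_contra hlt
    exact hj _ (not_le.1 hlt) hm
  obtain ⟨e, he⟩ := Nat.exists_eq_add_of_le' hle
  have h1 : (σ ^ e) ((σ ^ j) x) ∈ Y := by
    rw [← Perm.mul_apply, ← pow_add, ← he]
    exact hm
  have hex : ∃ n : ℕ, (σ ^ n) ((σ ^ j) x) ∈ Y := ⟨e, h1⟩
  refine ⟨hex, le_antisymm ?_ ?_⟩
  · have h2 : (σ ^ sInf {n : ℕ | (σ ^ n) ((σ ^ j) x) ∈ Y}) ((σ ^ j) x) ∈ Y :=
      Nat.sInf_mem (s := {n : ℕ | (σ ^ n) ((σ ^ j) x) ∈ Y}) hex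
    rw [← Perm.mul_apply, ← pow_add] at h2
    exact Nat.sInf_le h2
  · have h3 : sInf {n : ℕ | (σ ^ n) ((σ ^ j) x) ∈ Y} ≤ e := Nat.sInf_le h1
    omega

theorem gdg_nxt_pow (σ : Perm H) (Y : Finset H) {x : H} (hx : ∃ n : ℕ, (σ ^ n) x ∈ Y) {j : ℕ}
    (hj : ∀ i < j, (σ ^ i) x ∉ Y) : nxt σ Y ((σ ^ j) x) = nxt σ Y x := by
  unfold nxt
  rw [(gdg_sInf σ Y hx hj).2, pow_add, Perm.mul_apply]

/-- labelled points outside the core -/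
def GLab (Y : Finset H) {K : Type} (c₂ : {x // x ∉ Y} → Option K) (z : H) : Prop :=
  ∃ h : z ∉ Y, c₂ ⟨z, h⟩ ≠ none

section
variable {σ : Perm H} {Y : Finset H} {L : Finset I} {p : Dg H I}
  {p₁ : Dg {x // x ∈ Y} {i // i ∈ L}} {α₂ : Perm {x // x ∉ Y}}
  {c₂ : {x // x ∉ Y} → Option ({i // i ∉ L} × Bool)}

theorem gdg_mt (h1 : IsDg (red σ Y) p₁) (h2 : Adm σ Y α₂ c₂) (h3 : Glue σ Y L p p₁ α₂ c₂) :
    IsMt p.1 := by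
  intro x
  by_cases hx : x ∈ Y
  · have e1 := h3.a1 ⟨x, hx⟩
    have e2 := h3.a1 (p₁.1 ⟨x, hx⟩)
    have e3 := h1.1 ⟨x, hx⟩
    simp only at e1
    refine ⟨by rw [e1, e2, e3.1], fun h => e3.2 (Subtype.ext (e1.symm.trans h))⟩
  · have e1 := h3.a2 ⟨x, hx⟩
    have e2 := h3.a2 (α₂ ⟨x, hx⟩)
    have e3 := h2.mt ⟨x, hx⟩
    simp only at e1
    refine ⟨by rw [e1, e2, e3.1], fun h => e3.2 (Subtype.ext (e1.symm.trans h))⟩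

theorem gdg_lab_step (h2 : Adm σ Y α₂ c₂) (h3 : Glue σ Y L p p₁ α₂ c₂) {z : H}
    (hz : GLab Y c₂ z) : GLab Y c₂ ((σ * p.1) z) ∧ p.2 ((σ * p.1) z) = p.2 z := by
  obtain ⟨h, hc⟩ := hz
  obtain ⟨h', hc'⟩ := h2.inner ⟨z, h⟩ hc
  have e1 : (σ * p.1) z = σ (α₂ ⟨z, h⟩).1 := by
    rw [Perm.mul_apply, ← h3.a2 ⟨z, h⟩]
  rw [e1]
  refine ⟨⟨h', by rw [hc']; exact hc⟩, ?_⟩
  obtain ⟨f, hf⟩ := Option.ne_none_iff_exists'.1 hc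
  have e2 := h3.c2 ⟨z, h⟩ f hf
  have e3 := h3.c2 ⟨_, h'⟩ f (hc'.trans hf)
  exact e3.trans e2.symm

theorem gdg_lab_pow (h2 : Adm σ Y α₂ c₂) (h3 : Glue σ Y L p p₁ α₂ c₂) {z : H}
    (hz : GLab Y c₂ z) (n : ℕ) : GLab Y c₂ (((σ * p.1) ^ n) z) := by
  induction n with
  | zero => simpa using hz
  | succ n ih =>
    rw [pow_succ', Perm.mul_apply]
    exact (gdg_lab_step h2 h3 ih).1

theorem gdg_lab_back (h2 : Adm σ Y α₂ c₂) (h3 : Glue σ Y L p p₁ α₂ c₂) {z : H}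
    (hz : GLab Y c₂ ((σ * p.1) z)) : GLab Y c₂ z := by
  have h := gdg_lab_pow h2 h3 hz (orderOf (σ * p.1) - 1)
  rwa [← Perm.mul_apply, ← pow_succ, Nat.sub_add_cancel (orderOf_pos _), pow_orderOf_eq_one,
    Perm.one_apply] at h

theorem gdg_lab_agree (h2 : Adm σ Y α₂ c₂) (h3 : Glue σ Y L p p₁ α₂ c₂) {z : H}
    (hz : GLab Y c₂ z) (n : ℕ) :
    ((σ * Perm.ofSubtype α₂) ^ n) z = ((σ * p.1) ^ n) z := by
  induction n with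
  | zero => simp
  | succ n ih =>
    rw [pow_succ', pow_succ', Perm.mul_apply, Perm.mul_apply (σ * p.1), ih]
    obtain ⟨h, -⟩ := gdg_lab_pow h2 h3 hz n
    rw [Perm.mul_apply, Perm.mul_apply σ p.1, Perm.ofSubtype_apply_of_mem α₂ h, h3.a2 ⟨_, h⟩]

theorem gdg_unl {z : H} (hz : ¬ GLab Y c₂ z) (h : z ∉ Y) : c₂ ⟨z, h⟩ = none := by
  by_contra hc
  exact hz ⟨h, hc⟩

theorem gdg_c_nxt (h3 : Glue σ Y L p p₁ α₂ c₂) {z : H} (hz : ¬ GLab Y c₂ z) :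
    nxt σ Y z ∈ Y ∧ p.2 z = p.2 (nxt σ Y z) := by
  by_cases h : z ∈ Y
  · rw [gdg_nxt_self σ Y h]
    exact ⟨h, rfl⟩
  · exact h3.c3 ⟨z, h⟩ (gdg_unl hz h)

theorem gdg_unl_step (h2 : Adm σ Y α₂ c₂) (h3 : Glue σ Y L p p₁ α₂ c₂) {z : H}
    (hz : ¬ GLab Y c₂ z) (h : z ∉ Y) : nxt σ Y ((σ * p.1) z) = nxt σ Y z ∧
      sInf {n : ℕ | (σ ^ n) ((σ * p.1) z) ∈ Y} < sInf {n : ℕ | (σ ^ n) z ∈ Y} := by
  obtain ⟨hex, j, hj0, hj1, hj2⟩ := h2.outer ⟨z, h⟩ (gdg_unl hz h)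
  have e1 : (σ * p.1) z = (σ ^ j) z := by
    rw [Perm.mul_apply, h3.a2 ⟨z, h⟩, hj1]
  rw [e1]
  refine ⟨gdg_nxt_pow σ Y hex hj2, ?_⟩
  have := (gdg_sInf σ Y hex hj2).2
  simp only at this
  omega

theorem gdg_cyc_nxt (h2 : Adm σ Y α₂ c₂) (h3 : Glue σ Y L p p₁ α₂ c₂) (m : ℕ) : ∀ z : H,
    sInf {n : ℕ | (σ ^ n) z ∈ Y} = m → ¬ GLab Y c₂ z → (σ * p.1).SameCycle z (nxt σ Y z) := by
  induction m using Nat.strong_induction_on with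
  | _ m ih =>
    intro z hm hz
    by_cases h : z ∈ Y
    · rw [gdg_nxt_self σ Y h]
    · obtain ⟨e1, e2⟩ := gdg_unl_step h2 h3 hz h
      have h4 := ih _ (hm ▸ e2) ((σ * p.1) z) rfl fun h' => hz (gdg_lab_back h2 h3 h')
      rw [e1] at h4
      exact Perm.sameCycle_apply_left.1 h4

theorem gdg_core_step (h3 : Glue σ Y L p p₁ α₂ c₂) (y : {x // x ∈ Y}) :
    nxt σ Y ((σ * p.1) y.1) = ((red σ Y * p₁.1) y).1 := by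
  rw [Perm.mul_apply, Perm.mul_apply, red_apply, h3.a1 y]

theorem gdg_core_nl (y : {x // x ∈ Y}) : ¬ GLab Y c₂ y.1 := fun h => h.1 y.2

theorem gdg_core_cyc (h2 : Adm σ Y α₂ c₂) (h3 : Glue σ Y L p p₁ α₂ c₂) (y : {x // x ∈ Y})
    (n : ℕ) : (σ * p.1).SameCycle y.1 (((red σ Y * p₁.1) ^ n) y).1 := by
  induction n with
  | zero => simpa using Perm.SameCycle.refl _ _
  | succ n ih =>
    rw [pow_succ', Perm.mul_apply]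
    refine ih.trans ?_
    rw [← gdg_core_step h3]
    have h4 := gdg_cyc_nxt h2 h3 _ ((σ * p.1) (((red σ Y * p₁.1) ^ n) y).1) rfl
      fun h' => gdg_core_nl _ (gdg_lab_back h2 h3 h')
    exact Perm.sameCycle_apply_left.1 h4

theorem gdg_c_step (h1 : IsDg (red σ Y) p₁) (h2 : Adm σ Y α₂ c₂) (h3 : Glue σ Y L p p₁ α₂ c₂)
    (z : H) : p.2 ((σ * p.1) z) = p.2 z := by
  by_cases hz : GLab Y c₂ z
  · exact (gdg_lab_step h2 h3 hz).2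
  have hz' : ¬ GLab Y c₂ ((σ * p.1) z) := fun h' => hz (gdg_lab_back h2 h3 h')
  rw [(gdg_c_nxt h3 hz').2]
  by_cases h : z ∈ Y
  · have e1 := gdg_core_step h3 ⟨z, h⟩
    simp only at e1
    have e2 : p₁.2 ((red σ Y * p₁.1) ⟨z, h⟩) = p₁.2 ⟨z, h⟩ :=
      (h1.2.1 _ _).2 (Perm.sameCycle_apply_left.2 (Perm.SameCycle.refl _ _))
    rw [e1, h3.c1, e2, ← h3.c1 ⟨z, h⟩]
  · rw [(gdg_unl_step h2 h3 hz h).1, ← (gdg_c_nxt h3 hz).2]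

theorem gdg_c_pow (h1 : IsDg (red σ Y) p₁) (h2 : Adm σ Y α₂ c₂) (h3 : Glue σ Y L p p₁ α₂ c₂)
    (z : H) (n : ℕ) : p.2 (((σ * p.1) ^ n) z) = p.2 z := by
  induction n with
  | zero => simp
  | succ n ih => rw [pow_succ', Perm.mul_apply, gdg_c_step h1 h2 h3, ih]

theorem gdg_lab_notMem (h3 : Glue σ Y L p p₁ α₂ c₂) {z : H} (hz : GLab Y c₂ z) :
    (p.2 z).1 ∉ L := by
  obtain ⟨h, hc⟩ := hz
  obtain ⟨f, hf⟩ := Option.ne_none_iff_exists'.1 hc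
  have e2 := h3.c2 ⟨z, h⟩ f hf
  simp only at e2
  rw [e2]
  exact f.1.2

theorem gdg_nl_mem (h3 : Glue σ Y L p p₁ α₂ c₂) {z : H} (hz : ¬ GLab Y c₂ z) :
    (p.2 z).1 ∈ L := by
  obtain ⟨h, hc⟩ := gdg_c_nxt h3 hz
  have e2 := h3.c1 ⟨_, h⟩
  simp only at e2
  rw [hc, e2]
  exact (p₁.2 ⟨_, h⟩).1.2

theorem gdg_same (h1 : IsDg (red σ Y) p₁) (h2 : Adm σ Y α₂ c₂) (h3 : Glue σ Y L p p₁ α₂ c₂)
    (x y : H) (h : p.2 x = p.2 y) : (σ * p.1).SameCycle x y := by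
  by_cases hx : GLab Y c₂ x
  · by_cases hy : GLab Y c₂ y
    · obtain ⟨hx0, hcx⟩ := id hx
      obtain ⟨hy0, hcy⟩ := hy
      obtain ⟨f, hf⟩ := Option.ne_none_iff_exists'.1 hcx
      obtain ⟨g, hg⟩ := Option.ne_none_iff_exists'.1 hcy
      have e1 := h3.c2 ⟨x, hx0⟩ f hf
      have e2 := h3.c2 ⟨y, hy0⟩ g hg
      simp only at e1 e2
      have e3 : (f.1.1, f.2) = (g.1.1, g.2) := e1.symm.trans (h.trans e2)
      have e4 : f = g :=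
        Prod.ext (Subtype.ext (Prod.mk.inj e3).1) (Prod.mk.inj e3).2
      have e5 := h2.same ⟨x, hx0⟩ ⟨y, hy0⟩ hcx (by rw [hf, hg, e4])
      obtain ⟨n, -, hn⟩ := e5.exists_pow_eq'
      simp only at hn
      rw [gdg_lab_agree h2 h3 hx] at hn
      exact ⟨n, by rw [zpow_natCast]; exact hn⟩
    · exact absurd (h ▸ gdg_nl_mem h3 hy) (gdg_lab_notMem h3 hx)
  · by_cases hy : GLab Y c₂ y
    · exact absurd (h ▸ gdg_nl_mem h3 hx) (gdg_lab_notMem h3 hy)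
    · obtain ⟨hx0, hcx⟩ := gdg_c_nxt h3 hx
      obtain ⟨hy0, hcy⟩ := gdg_c_nxt h3 hy
      have e1 := h3.c1 ⟨_, hx0⟩
      have e2 := h3.c1 ⟨_, hy0⟩
      simp only at e1 e2
      have e3 := e1.symm.trans (hcx.symm.trans (h.trans (hcy.trans e2)))
      have e4 : p₁.2 ⟨_, hx0⟩ = p₁.2 ⟨_, hy0⟩ :=
        Prod.ext (Subtype.ext (Prod.mk.inj e3).1) (Prod.mk.inj e3).2
      obtain ⟨n, -, hn⟩ := ((h1.2.1 _ _).1 e4).exists_pow_eq'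
      have e5 := gdg_core_cyc h2 h3 ⟨_, hx0⟩ n
      rw [hn] at e5
      exact ((gdg_cyc_nxt h2 h3 _ x rfl hx).trans e5).trans (gdg_cyc_nxt h2 h3 _ y rfl hy).symm

theorem gdg_surj (h1 : IsDg (red σ Y) p₁) (h2 : Adm σ Y α₂ c₂) (h3 : Glue σ Y L p p₁ α₂ c₂) :
    Function.Surjective p.2 := by
  rintro ⟨i, b⟩
  by_cases hi : i ∈ L
  · obtain ⟨y, hy⟩ := h1.2.2 (⟨i, hi⟩, b)
    exact ⟨y.1, by rw [h3.c1 y, hy]⟩
  · obtain ⟨x, hx⟩ := h2.surj (⟨i, hi⟩, b)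
    exact ⟨x.1, h3.c2 x _ hx⟩

end

end GdgAux

theorem pGdg : SGdg := by
  intro H I _ _ _ _ σ Y L p p₁ α₂ c₂ h1 h2 h3
  refine ⟨GdgAux.gdg_mt h1 h2 h3, fun x y => ⟨GdgAux.gdg_same h1 h2 h3 x y, fun h => ?_⟩,
    GdgAux.gdg_surj h1 h2 h3⟩
  obtain ⟨n, -, hn⟩ := h.exists_pow_eq'
  rw [← hn, GdgAux.gdg_c_pow h1 h2 h3]

end Pool.Agent.STS.Cy
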