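import Pool.Agent.P.MP_bb7f8f_gt.Q2.Base

set_option linter.unusedSectionVars false

namespace Pool.Agent.STS.Cy
open Equiv Finset Filter Topology

namespace GlueAux

section
variable {A R : Type} [DecidableEq A]

/-- restriction to `Y` -/
def r1 (Y : Finset A) (l : A → R) : {x // x ∈ Y} → R := fun x => l x.1

/-- restriction to the complement of `Y` -/
def r2 (Y : Finset A) (l : A → R) : {x // x ∉ Y} → R := fun x => l x.1

/-- a function from its two restrictions -/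
def gl (Y : Finset A) (a : {x // x ∈ Y} → R) (b : {x // x ∉ Y} → R) : A → R :=
  fun x => if h : x ∈ Y then a ⟨x, h⟩ else b ⟨x, h⟩

theorem r1_gl (Y : Finset A) (a : {x // x ∈ Y} → R) (b : {x // x ∉ Y} → R) :
    r1 Y (gl Y a b) = a := funext fun x => dif_pos x.2

theorem r2_gl (Y : Finset A) (a : {x // x ∈ Y} → R) (b : {x // x ∉ Y} → R) :
    r2 Y (gl Y a b) = b := funext fun x => dif_neg x.2

theorem gl_r (Y : Finset A) (l : A → R) : gl Y (r1 Y l) (r2 Y l) = l := funext fun x => by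
  unfold gl r1 r2
  split_ifs <;> rfl

theorem all_iff (Y : Finset A) (P : A → Prop) :
    (∀ x, P x) ↔ (∀ x : {x // x ∈ Y}, P x.1) ∧ ∀ x : {x // x ∉ Y}, P x.1 :=
  ⟨fun h => ⟨fun x => h x.1, fun x => h x.1⟩, fun h x => by
    by_cases hx : x ∈ Y
    · exact h.1 ⟨x, hx⟩
    · exact h.2 ⟨x, hx⟩⟩

theorem sum_split [Fintype A] [AddCommMonoid R] (Y : Finset A) (f : A → R) :
    ∑ x, f x = ∑ x : {x // x ∈ Y}, f x.1 + ∑ x : {x // x ∉ Y}, f x.1 := by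
  rw [← Fintype.sum_subtype_add_sum_subtype (· ∈ Y) f,
    Subsingleton.elim (Subtype.fintype fun x => x ∈ Y) (Finset.Subtype.fintype Y)]

end

theorem count {A B C : Type} [Finite A] [Fintype B] (e : A × B ≃ C) (S : Set C) (T : Set B)
    (n : ℕ) (h1 : ∀ b ∈ T, Set.ncard {a | e (a, b) ∈ S} = n)
    (h0 : ∀ a b, e (a, b) ∈ S → b ∈ T) : S.ncard = n * T.ncard := by
  classical
  let g : (Σ b : T, {a | e (a, b.1) ∈ S}) ≃ S :=
    { toFun := fun z => ⟨e (z.2.1, z.1.1), z.2.2⟩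
      invFun := fun s => ⟨⟨(e.symm s.1).2, h0 (e.symm s.1).1 _ (by simp)⟩,
        ⟨(e.symm s.1).1, by simp⟩⟩
      left_inv := by
        rintro ⟨⟨b, hb⟩, ⟨a, ha⟩⟩
        refine Sigma.subtype_ext (Subtype.ext (by simp)) (by simp)
      right_inv := fun s => Subtype.ext (by simp) }
  rw [← Nat.card_coe_set_eq, ← Nat.card_congr g, Nat.card_sigma,
    Finset.sum_congr rfl fun b _ => (Nat.card_coe_set_eq _).trans (h1 b.1 b.2),
    Finset.sum_const, card_univ, smul_eq_mul, mul_comm, ← Nat.card_coe_set_eq,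
    Nat.card_eq_fintype_card]

section
variable {H I : Type} [Fintype H] [DecidableEq H] [Fintype I] [DecidableEq I]
  {σ : Perm H} {Y : Finset H} {L : Finset I} {p : Dg H I} {p₁ : Dg {x // x ∈ Y} {i // i ∈ L}}
  {α₂ : Perm {x // x ∉ Y}} {c₂ : {x // x ∉ Y} → Option ({i // i ∉ L} × Bool)}

/-- the contribution of the unlabelled outside points to the face `f` -/
def U {R : Type} [AddCommMonoid R] (p : Dg H I)
    (c₂ : {x // x ∉ Y} → Option ({i // i ∉ L} × Bool)) (l : {x // x ∉ Y} → R)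
    (f : {i // i ∈ L} × Bool) : R :=
  ∑ x with c₂ x = none ∧ p.2 x.1 = (f.1.1, f.2), l x

theorem U_congr {R : Type} [AddCommMonoid R] {l l' : {x // x ∉ Y} → R}
    (h : ∀ x, c₂ x = none → l x = l' x) : U p c₂ l = U p c₂ l' :=
  funext fun _ => Finset.sum_congr rfl fun x hx => h x (mem_filter.1 hx).2.1

theorem U_zero {R : Type} [AddCommMonoid R] {l : {x // x ∉ Y} → R}
    (h : ∀ x, c₂ x = none → l x = 0) (f : {i // i ∈ L} × Bool) : U p c₂ l f = 0 :=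
  Finset.sum_eq_zero fun x hx => h x (mem_filter.1 hx).2.1

theorem pr_in (hG : Glue σ Y L p p₁ α₂ c₂) {R : Type} [AddCommMonoid R] (l : H → R)
    (i : {i // i ∈ L}) (b : Bool) :
    pr (tot p.2) l (i.1, b) = pr (tot p₁.2) (r1 Y l) (i, b) + U p c₂ (r2 Y l) (i, b) := by
  rw [pr_tot, pr_tot, U, sum_filter, sum_filter, sum_filter, sum_split Y]
  congr 1
  · refine Finset.sum_congr rfl fun x _ => if_congr ?_ rfl rfl
    rw [hG.c1, Prod.ext_iff, Prod.ext_iff, Subtype.ext_iff]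
  · refine Finset.sum_congr rfl fun x _ => if_congr ⟨fun h => ⟨?_, h⟩, fun h => h.2⟩ rfl rfl
    rcases hx : c₂ x with _ | f
    · rfl
    · rw [hG.c2 x f hx] at h
      have h1 : f.1.1 = i.1 := congrArg Prod.fst h
      exact absurd (h1 ▸ i.2) f.1.2

theorem pr_out (hG : Glue σ Y L p p₁ α₂ c₂) {R : Type} [AddCommMonoid R] (l : H → R)
    (i : {i // i ∉ L}) (b : Bool) :
    pr (tot p.2) l (i.1, b) = pr c₂ (r2 Y l) (i, b) := by
  have key : ∀ x : {x // x ∈ Y}, p.2 x.1 ≠ (i.1, b) := fun x h => by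
    rw [hG.c1] at h
    have h1 : (p₁.2 x).1.1 = i.1 := congrArg Prod.fst h
    exact i.2 (h1 ▸ (p₁.2 x).1.2)
  rw [pr_tot, pr, sum_filter, sum_filter, sum_split Y,
    Finset.sum_eq_zero fun x _ => if_neg (key x), zero_add]
  refine Finset.sum_congr rfl fun x _ => if_congr ⟨fun h => ?_, fun h => hG.c2 x _ h⟩ rfl rfl
  rcases hx : c₂ x with _ | f
  · obtain ⟨h1, h2⟩ := hG.c3 x hx
    exact absurd (h2.symm.trans h) (key ⟨_, h1⟩)
  · rw [hG.c2 x f hx] at h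
    exact congrArg some (Prod.ext (Subtype.ext (Prod.ext_iff.1 h).1) (Prod.ext_iff.1 h).2)

theorem inv_iff (hG : Glue σ Y L p p₁ α₂ c₂) {R : Type} (l : H → R) :
    (∀ x, l (p.1 x) = l x) ↔
      (∀ x, r1 Y l (p₁.1 x) = r1 Y l x) ∧ ∀ x, r2 Y l (α₂ x) = r2 Y l x := by
  rw [all_iff Y]
  simp only [hG.a1, hG.a2, r1, r2]

theorem sol_iff (hG : Glue σ Y L p p₁ α₂ c₂) (δ : I × Bool → ℤ) (l : H → ℤ) :
    Sol p.1 (tot p.2) δ l ↔
      Sol p₁.1 (tot p₁.2) (fun f => δ (f.1.1, f.2) + U p c₂ (r2 Y l) f) (r1 Y l) ∧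
        Sol α₂ c₂ (fun f => δ (f.1.1, f.2)) (r2 Y l) := by
  unfold Sol
  rw [inv_iff hG, all_iff L, and_and_and_comm]
  simp only [pr_in hG, pr_out hG]
  refine and_congr (and_congr Iff.rfl (forall_congr' fun i => ?_)) Iff.rfl
  constructor <;> intro h <;> linarith

theorem sol0_iff (hG : Glue σ Y L p p₁ α₂ c₂) (hs : ∀ x, c₂ x = none → Static α₂ c₂ x)
    (l : H → ℤ) : Sol p.1 (tot p.2) 0 l ↔
      Sol p₁.1 (tot p₁.2) 0 (r1 Y l) ∧ Sol α₂ c₂ 0 (r2 Y l) := by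
  rw [sol_iff hG]
  refine and_congr_left fun h => ?_
  have : (fun f : {i // i ∈ L} × Bool => (0 : I × Bool → ℤ) (f.1.1, f.2) + U p c₂ (r2 Y l) f) =
      0 := funext fun f => by
    rw [U_zero (fun x hx => hs x hx _ h)]
    rfl
  rw [this]

theorem static1 (hG : Glue σ Y L p p₁ α₂ c₂) (hs : ∀ x, c₂ x = none → Static α₂ c₂ x)
    (x : {x // x ∈ Y}) : Static p.1 (tot p.2) x.1 ↔ Static p₁.1 (tot p₁.2) x := by
  refine ⟨fun h l hl => ?_, fun h l hl => h _ ((sol0_iff hG hs l).1 hl).1⟩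
  have := h (gl Y l 0) ((sol0_iff hG hs _).2 (by rw [r1_gl, r2_gl]; exact ⟨hl, sol_zero⟩))
  exact (congrFun (r1_gl Y l 0) x).symm.trans this

theorem static2 (hG : Glue σ Y L p p₁ α₂ c₂) (hs : ∀ x, c₂ x = none → Static α₂ c₂ x)
    (x : {x // x ∉ Y}) : Static p.1 (tot p.2) x.1 ↔ Static α₂ c₂ x := by
  refine ⟨fun h l hl => ?_, fun h l hl => h _ ((sol0_iff hG hs l).1 hl).2⟩
  have := h (gl Y 0 l) ((sol0_iff hG hs _).2 (by rw [r1_gl, r2_gl]; exact ⟨sol_zero, hl⟩))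
  exact (congrFun (r2_gl Y 0 l) x).symm.trans this

theorem mem_VO {H I : Type} [Fintype H] [Fintype I] [DecidableEq I] {α : Perm H}
    {c : H → Option (I × Bool)} {l : H → ℚ} : l ∈ VO α c ↔
      (∀ x, l (α x) = l x) ∧ ∀ i, pr c l (i, true) = pr c l (i, false) := Iff.rfl

theorem vo_iff (hG : Glue σ Y L p p₁ α₂ c₂) (hs : ∀ x, c₂ x = none → Static α₂ c₂ x)
    (l : H → ℚ) : l ∈ VO p.1 (tot p.2) ↔
      r1 Y l ∈ VO p₁.1 (tot p₁.2) ∧ r2 Y l ∈ VO α₂ c₂ := by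
  rw [mem_VO, inv_iff hG, all_iff L, and_and_and_comm]
  simp only [pr_in hG, pr_out hG]
  refine and_congr_left fun h => ?_
  have h0 := U_zero (p := p) (fun x hx => static_iff.1 (hs x hx) _ (mem_VO.2 h))
  simp only [h0, add_zero]
  exact mem_VO.symm

theorem rank (hG : Glue σ Y L p p₁ α₂ c₂) (hs : ∀ x, c₂ x = none → Static α₂ c₂ x) :
    Module.finrank ℚ (VO p.1 (tot p.2)) =
      Module.finrank ℚ (VO p₁.1 (tot p₁.2)) + Module.finrank ℚ (VO α₂ c₂) := by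
  let e : VO p.1 (tot p.2) ≃ₗ[ℚ] VO p₁.1 (tot p₁.2) × VO α₂ c₂ :=
    { toFun := fun l => (⟨r1 Y l.1, ((vo_iff hG hs _).1 l.2).1⟩,
        ⟨r2 Y l.1, ((vo_iff hG hs _).1 l.2).2⟩)
      map_add' := fun _ _ => rfl
      map_smul' := fun _ _ => rfl
      invFun := fun q => ⟨gl Y q.1.1 q.2.1, (vo_iff hG hs _).2 (by
        rw [r1_gl, r2_gl]; exact ⟨q.1.2, q.2.2⟩)⟩
      left_inv := fun l => Subtype.ext (gl_r Y l.1)
      right_inv := fun q => Prod.ext (Subtype.ext (r1_gl Y _ _)) (Subtype.ext (r2_gl Y _ _)) }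
  rw [e.finrank_eq, Module.finrank_prod]

theorem area_nonneg {H I : Type} [Fintype H] [Fintype I] [DecidableEq I]
    (c : H → Option (I × Bool)) {l : H → ℤ} {h : I → ℤ} (hl : ∀ x, 0 ≤ l x) (hh : ∀ i, 1 ≤ h i) :
    0 ≤ ∑ i, h i * (pr c l (i, true) + 0) :=
  Finset.sum_nonneg fun i _ => mul_nonneg (by have := hh i; omega)
    (by have := pr_nonneg (c := c) hl (i, true); omega)

theorem cone_iff (hG : Glue σ Y L p p₁ α₂ c₂) (hs : ∀ x, c₂ x = none → Static α₂ c₂ x)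
    (m : ℕ) (z : (H → ℤ) × (I → ℤ) × (I → ℤ)) : z ∈ Cone p.1 (tot p.2) 0 m ↔
      ∃ q ∈ antidiagonal m, (r1 Y z.1, r1 L z.2.1, r1 L z.2.2) ∈ Cone p₁.1 (tot p₁.2) 0 q.1 ∧
        (r2 Y z.1, r2 L z.2.1, r2 L z.2.2) ∈ Cone α₂ c₂ 0 q.2 := by
  obtain ⟨l, h, t⟩ := z
  simp only [Cone, Set.mem_ofPred_eq, Pi.zero_apply]
  constructor
  · rintro ⟨h1, h2, h3, h4, h5⟩
    obtain ⟨s1, s2⟩ := (sol0_iff hG hs l).1 h1
    have h0 := U_zero (p := p) (fun x hx => hs x hx _ s2)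
    rw [all_iff L] at h4
    rw [sum_split L] at h5
    simp only [pr_in hG, pr_out hG, h0, add_zero] at h4 h5
    have n1 := area_nonneg (tot p₁.2) (l := r1 Y l) (h := r1 L h) (fun x => h2 _) fun i => h3 _
    have n2 := area_nonneg c₂ (l := r2 Y l) (h := r2 L h) (fun x => h2 _) fun i => h3 _
    obtain ⟨a, ha⟩ := Int.eq_ofNat_of_zero_le n1
    obtain ⟨b, hb⟩ := Int.eq_ofNat_of_zero_le n2
    refine ⟨(a, b), mem_antidiagonal.2 ?_, ⟨s1, fun x => h2 _, fun i => h3 _, fun i => ?_, ha⟩,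
      s2, fun x => h2 _, fun i => h3 _, fun i => ?_, hb⟩
    · simp only [add_zero, r1, r2] at ha hb h5
      rw [ha, hb] at h5
      exact_mod_cast h5
    · rw [add_zero]; exact h4.1 i
    · rw [add_zero]; exact h4.2 i
  · rintro ⟨q, hq, ⟨s1, a2, a3, a4, a5⟩, s2, b2, b3, b4, b5⟩
    have h0 := U_zero (p := p) (fun x hx => hs x hx _ s2)
    refine ⟨(sol0_iff hG hs l).2 ⟨s1, s2⟩, (all_iff Y _).2 ⟨a2, b2⟩, (all_iff L _).2 ⟨a3, b3⟩,
      ?_, ?_⟩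
    · rw [all_iff L]
      simp only [pr_in hG, pr_out hG, h0, add_zero] at a4 b4 ⊢
      exact ⟨a4, b4⟩
    · rw [sum_split L, ← mem_antidiagonal.1 hq]
      simp only [pr_in hG, pr_out hG, h0, add_zero, r1, r2] at a5 b5 ⊢
      rw [a5, b5]
      push_cast
      rfl

theorem cone_card (hG : Glue σ Y L p p₁ α₂ c₂) (hs : ∀ x, c₂ x = none → Static α₂ c₂ x)
    (m : ℕ) : cn p.1 (tot p.2) 0 m =
      ∑ q ∈ antidiagonal m, cn p₁.1 (tot p₁.2) 0 q.1 * cn α₂ c₂ 0 q.2 := by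
  let F : (H → ℤ) × (I → ℤ) × (I → ℤ) →
      (({x // x ∈ Y} → ℤ) × ({i // i ∈ L} → ℤ) × ({i // i ∈ L} → ℤ)) ×
        (({x // x ∉ Y} → ℤ) × ({i // i ∉ L} → ℤ) × ({i // i ∉ L} → ℤ)) :=
    fun z => ((r1 Y z.1, r1 L z.2.1, r1 L z.2.2), (r2 Y z.1, r2 L z.2.1, r2 L z.2.2))
  let G : (({x // x ∈ Y} → ℤ) × ({i // i ∈ L} → ℤ) × ({i // i ∈ L} → ℤ)) ×
        (({x // x ∉ Y} → ℤ) × ({i // i ∉ L} → ℤ) × ({i // i ∉ L} → ℤ)) →
      (H → ℤ) × (I → ℤ) × (I → ℤ) :=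
    fun w => (gl Y w.1.1 w.2.1, gl L w.1.2.1 w.2.2.1, gl L w.1.2.2 w.2.2.2)
  have GF : Function.LeftInverse G F := fun z => by simp only [F, G, gl_r]
  have FG : Function.RightInverse G F := fun w => by simp only [F, G, r1_gl, r2_gl]
  have him : F '' Cone p.1 (tot p.2) 0 m = ⋃ q ∈ (antidiagonal m : Set (ℕ × ℕ)),
      Cone p₁.1 (tot p₁.2) 0 q.1 ×ˢ Cone α₂ c₂ 0 q.2 := by
    ext w
    obtain ⟨z, rfl⟩ := FG.surjective w
    rw [GF.injective.mem_set_image, cone_iff hG hs]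
    simp only [Set.mem_iUnion, Set.mem_prod, mem_coe, exists_prop, F]
  rw [cn, ← Set.ncard_image_of_injective _ GF.injective, him,
    (antidiagonal m).finite_toSet.ncard_biUnion, finsum_mem_coe_finset]
  · exact Finset.sum_congr rfl fun q _ => Set.ncard_prod
  · exact fun q _ => (cone_finite (fun _ h => by simp [tot] at h) (fun _ => le_rfl) _).prod
      (cone_finite hs (fun _ => le_rfl) _)
  · intro q _ q' _ hne
    refine Set.disjoint_left.2 fun w h1 h2 => hne (Prod.ext ?_ ?_)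
    · exact_mod_cast h1.1.2.2.2.2.symm.trans h2.1.2.2.2.2
    · exact_mod_cast h1.2.2.2.2.2.symm.trans h2.2.2.2.2.2

theorem good_iff (hG : Glue σ Y L p p₁ α₂ c₂) (hs : ∀ x, c₂ x = none → Static α₂ c₂ x)
    (hn : ∀ x, ¬ Static p₁.1 (tot p₁.2) x) (ε₁ : {x // x ∈ Y} → Bool)
    (ε₂ : {x // x ∉ Y} → Bool) : Good p.1 (tot p.2) (eo (tot p.2) (gl Y ε₁ ε₂)) ↔
      ∃ a₂, (Sol α₂ c₂ (eo c₂ ε₂) a₂ ∧ ∀ x, Static α₂ c₂ x → 0 ≤ a₂ x) ∧
        ∃ a₁, Sol p₁.1 (tot p₁.2) (eo (tot p₁.2) ε₁ +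
          (U p c₂ (fun x => ((ε₂ x).toNat : ℤ)) + U p c₂ a₂)) a₁ := by
  have e1 : r1 Y (fun x => ((gl Y ε₁ ε₂ x).toNat : ℤ)) = fun x => ((ε₁ x).toNat : ℤ) :=
    funext fun x => congrArg (fun b : Bool => (b.toNat : ℤ)) (congrFun (r1_gl Y ε₁ ε₂) x)
  have e2 : r2 Y (fun x => ((gl Y ε₁ ε₂ x).toNat : ℤ)) = fun x => ((ε₂ x).toNat : ℤ) :=
    funext fun x => congrArg (fun b : Bool => (b.toNat : ℤ)) (congrFun (r2_gl Y ε₁ ε₂) x)
  have key : ∀ a, Sol p.1 (tot p.2) (eo (tot p.2) (gl Y ε₁ ε₂)) a ↔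
      Sol p₁.1 (tot p₁.2) (eo (tot p₁.2) ε₁ +
        (U p c₂ (fun x => ((ε₂ x).toNat : ℤ)) + U p c₂ (r2 Y a))) (r1 Y a) ∧
        Sol α₂ c₂ (eo c₂ ε₂) (r2 Y a) := fun a => by
    have f1 : (fun f : {i // i ∈ L} × Bool => eo (tot p.2) (gl Y ε₁ ε₂) (f.1.1, f.2) +
        U p c₂ (r2 Y a) f) = eo (tot p₁.2) ε₁ +
        (U p c₂ (fun x => ((ε₂ x).toNat : ℤ)) + U p c₂ (r2 Y a)) := funext fun f => by
      rw [eo, pr_in hG, e1, e2, add_assoc]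
      rfl
    have f2 : (fun f : {i // i ∉ L} × Bool => eo (tot p.2) (gl Y ε₁ ε₂) (f.1.1, f.2)) =
        eo c₂ ε₂ := funext fun f => by
      rw [eo, pr_out hG, e2]
      rfl
    rw [sol_iff hG, f1, f2]
  constructor
  · rintro ⟨a, h1, h2⟩
    obtain ⟨s1, s2⟩ := (key a).1 h1
    exact ⟨r2 Y a, ⟨s2, fun x hx => h2 _ ((static2 hG hs x).2 hx)⟩, _, s1⟩
  · rintro ⟨a₂, ⟨s2, h2⟩, a₁, s1⟩
    refine ⟨gl Y a₁ a₂, (key _).2 (by rw [r1_gl, r2_gl]; exact ⟨s1, s2⟩),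
      (all_iff Y _).2 ⟨fun x hx => absurd ((static1 hG hs x).1 hx) (hn x), fun x hx => ?_⟩⟩
    exact (h2 x ((static2 hG hs x).1 hx)).trans_eq (congrFun (r2_gl Y a₁ a₂) x).symm

theorem nu_eq (hG : Glue σ Y L p p₁ α₂ c₂) (hs : ∀ x, c₂ x = none → Static α₂ c₂ x)
    (n : ℕ) (hn : ∀ x, ¬ Static p₁.1 (tot p₁.2) x) (hδ : ∀ δ : {i // i ∈ L} × Bool → ℤ,
      Set.ncard {ε : {x // x ∈ Y} → Bool |
        ∃ a, Sol p₁.1 (tot p₁.2) (eo (tot p₁.2) ε + δ) a} = n) :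
    nu p.1 (tot p.2) = n * nu α₂ c₂ := by
  let e : ({x // x ∈ Y} → Bool) × ({x // x ∉ Y} → Bool) ≃ (H → Bool) :=
    { toFun := fun w => gl Y w.1 w.2
      invFun := fun l => (r1 Y l, r2 Y l)
      left_inv := fun w => Prod.ext (r1_gl Y _ _) (r2_gl Y _ _)
      right_inv := fun l => gl_r Y l }
  refine count e _ _ n (fun ε₂ h => ?_) fun ε₁ ε₂ h => ?_
  · obtain ⟨a₀, h1, h2⟩ := h
    rw [← hδ (U p c₂ (fun x => ((ε₂ x).toNat : ℤ)) + U p c₂ a₀)]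
    refine congrArg Set.ncard (Set.ext fun ε₁ => (good_iff hG hs hn ε₁ ε₂).trans ⟨?_, ?_⟩)
    · rintro ⟨a₂, ⟨s2, -⟩, h3⟩
      rw [U_congr (p := p) fun x hx => s2.eq_of_static h1 (hs x hx)] at h3
      exact h3
    · exact fun h3 => ⟨a₀, ⟨h1, h2⟩, h3⟩
  · obtain ⟨a₂, h1, -⟩ := (good_iff hG hs hn ε₁ ε₂).1 h
    exact ⟨a₂, h1⟩

end

end GlueAux

theorem pGlue : SGlue := by
  intro H I _ _ _ _ σ Y L p p₁ α₂ c₂ hG hs
  exact ⟨GlueAux.static1 hG hs, GlueAux.static2 hG hs, GlueAux.rank hG hs,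
    GlueAux.cone_card hG hs, GlueAux.nu_eq hG hs⟩

end Pool.Agent.STS.Cy
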