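import Pool.Agent.P.MP_bb7f8f_gt.Q2.Base

set_option linter.unusedSectionVars false

namespace Pool.Agent.STS.Cy
open Equiv Finset Filter Topology

namespace IdAux

theorem egf_conv (a b : ℕ → ℝ) (n₁ n₂ : ℕ) (ha : ∀ j, n₁ < j → a j = 0)
    (hb : ∀ j, n₂ < j → b j = 0) (t : ℂ) :
    egf (fun k => ∑ j ∈ range (k + 1), (k.choose j : ℝ) * (a j * b (k - j))) (n₁ + n₂) t =
      egf a n₁ t * egf b n₂ t := by
  set A : ℕ → ℂ := fun j => (a j : ℂ) * t ^ j / (2 ^ j * j.factorial) with hA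
  set B : ℕ → ℂ := fun j => (b j : ℂ) * t ^ j / (2 ^ j * j.factorial) with hB
  have hA0 : ∀ j ∉ range (n₁ + 1), A j = 0 := fun j hj => by
    simp [hA, ha j (by simpa using hj)]
  have hB0 : ∀ j ∉ range (n₂ + 1), B j = 0 := fun j hj => by
    simp [hB, hb j (by simpa using hj)]
  have h := tsum_mul_tsum_eq_tsum_sum_antidiagonal_of_summable_norm (f := A) (g := B)
    (summable_of_ne_finset_zero (s := range (n₁ + 1)) fun j hj => by rw [hA0 j hj, norm_zero])
    (summable_of_ne_finset_zero (s := range (n₂ + 1)) fun j hj => by rw [hB0 j hj, norm_zero])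
  rw [tsum_eq_sum hA0, tsum_eq_sum hB0, tsum_eq_sum (s := range (n₁ + n₂ + 1))] at h
  · change _ = (∑ j ∈ range (n₁ + 1), A j) * ∑ j ∈ range (n₂ + 1), B j
    rw [h]
    refine Finset.sum_congr rfl fun k _ => ?_
    rw [Finset.Nat.sum_antidiagonal_eq_sum_range_succ_mk]
    push_cast
    rw [Finset.sum_mul, Finset.sum_div]
    refine Finset.sum_congr rfl fun j hj => ?_
    obtain ⟨i, rfl⟩ := Nat.exists_eq_add_of_le (Nat.lt_succ_iff.1 (mem_range.1 hj))
    have h1 : ((j + i).choose j : ℂ) * j.factorial * i.factorial = (j + i).factorial := by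
      have := Nat.add_choose_mul_factorial_mul_factorial j i
      rw [Nat.choose_symm_add.symm] at this
      exact_mod_cast this
    have h2 : (j.factorial : ℂ) ≠ 0 := by exact_mod_cast j.factorial_ne_zero
    have h3 : (i.factorial : ℂ) ≠ 0 := by exact_mod_cast i.factorial_ne_zero
    have h4 : ((j + i).choose j : ℂ) ≠ 0 := by
      exact_mod_cast (Nat.choose_pos (Nat.le_add_right j i)).ne'
    simp only [hA, hB, Nat.add_sub_cancel_left, ← h1, pow_add]
    field_simp
  · intro k hk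
    refine Finset.sum_eq_zero fun q hq => ?_
    have h1 := mem_antidiagonal.1 hq
    have h2 : n₁ + n₂ < k := by simpa using hk
    by_cases h3 : q.1 ∈ range (n₁ + 1)
    · rw [hB0 q.2 (by simp at h3 ⊢; omega), mul_zero]
    · rw [hA0 _ h3, zero_mul]

theorem egf_add (a b : ℕ → ℝ) (n : ℕ) (t : ℂ) :
    egf (fun k => a k + b k) n t = egf a n t + egf b n t := by
  simp only [egf, ← Finset.sum_add_distrib]
  refine Finset.sum_congr rfl fun k _ => ?_
  push_cast
  ring

theorem egf_mul (r : ℝ) (a : ℕ → ℝ) (n : ℕ) (t : ℂ) :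
    egf (fun k => r * a k) n t = r * egf a n t := by
  simp only [egf, Finset.mul_sum]
  refine Finset.sum_congr rfl fun k _ => ?_
  push_cast
  ring

theorem egf_sum {ι : Type} (S : Finset ι) (a : ι → ℕ → ℝ) (n : ℕ) (t : ℂ) :
    egf (fun k => ∑ i ∈ S, a i k) n t = ∑ i ∈ S, egf (a i) n t := by
  simp only [egf]
  rw [Finset.sum_comm]
  refine Finset.sum_congr rfl fun k _ => ?_
  push_cast
  rw [Finset.sum_mul, Finset.sum_div]

theorem mf {α : Type} {q : α → Prop} [Fintype α] {_ : DecidablePred q} {a : α} :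
    a ∈ (univ : Finset α).filter q ↔ q a := by simp

variable {H J : Type} [Fintype H] [DecidableEq H] [Fintype J] [DecidableEq J]

theorem tt_zero (σ : Perm H) (j : ℕ) (hj : Fintype.card H < 2 * j) : TT σ j = 0 := by
  refine Finset.sum_eq_zero fun p hp => ?_
  have h := Fintype.card_le_of_surjective _ (mf.1 hp).1.1.2.2
  simp at h
  omega

theorem ww_zero (σ : Perm H) (Y : Finset H) (j : ℕ) (hj : #Yᶜ < 2 * j) : WW σ Y j = 0 := by
  refine Finset.sum_eq_zero fun p hp => ?_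
  choose g hg using (mf.1 hp).surj
  have h := Fintype.card_le_of_injective (fun f => (⟨(g f).1, mem_compl.2 (g f).2⟩ : {x // x ∈ Yᶜ}))
    fun f f' hf => Option.some.inj (by
      have h1 : g f = g f' := Subtype.ext (congrArg (fun z : {x // x ∈ Yᶜ} => z.1) hf)
      rw [← hg f, ← hg f', h1])
  rw [Fintype.card_coe] at h
  simp at h
  omega

open Classical in
theorem xp_eq (σ : Perm H) (I : Type) [Fintype I] [DecidableEq I] (P : Dg H I → Prop) :
    XP σ I P = ∑ p : Dg H I with IsDg σ p,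
      if P p then (nu p.1 (tot p.2) : ℝ) * zz p.1 (tot p.2) (Fintype.card H / 2) else 0 := by
  unfold XP
  rw [← Finset.sum_filter, Finset.filter_filter]

theorem mem_cores {σ : Perm H} {π : H → J} {s : ℕ} {Y : Finset H} (h : Y ∈ Cores σ π s) :
    #Yᶜ = 2 * s := (mf.1 h).2

theorem xp_prim (hPar : SPar) {σ : Perm H} {π : H → J} {v : J → ℕ} {D M : ℕ} (h : Vx σ π v D M)
    (k : ℕ) : XP σ (Fin k) (Prim σ) = 2 ^ (2 * D - 1) * TT σ k := by
  unfold XP TT TP
  rw [Finset.mul_sum]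
  refine Finset.sum_congr (Finset.ext fun p => ?_) fun p hp => ?_
  · rw [mf, mf]
    exact ⟨fun h1 => ⟨h1.2, trivial⟩, fun h1 => ⟨h1.1.1, h1.1⟩⟩
  · obtain ⟨h1, h2, h3⟩ := (mf.1 hp).1
    have h4 := hPar H J (Fin k) σ π v h.cyc p h1 h2 0
    have h5 : nu p.1 (tot p.2) = 2 ^ (2 * D - 1) := by
      rw [← h.card, ← h4, nu]
      congr 1
      ext ε
      simp only [Set.mem_ofPred_eq, Good, add_zero]
      exact ⟨fun ⟨a, ha, _⟩ => ⟨a, ha⟩, fun ⟨a, ha⟩ => ⟨a, ha, fun x hx => (h3 x hx).elim⟩⟩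
    rw [h5]
    push_cast
    rfl

theorem xx_split (hUniq : SUniq) {σ : Perm H} {π : H → J} {v : J → ℕ} {D M : ℕ}
    (h : Vx σ π v D M) {u : ℕ} (hu : 2 * u < D) (k : ℕ) :
    XX σ k = XP σ (Fin k) (Prim σ) + ∑ s ∈ Icc 1 u, ∑ Y ∈ Cores σ π s,
      ∑ L : Finset (Fin k), XP σ (Fin k) (Splits σ Y L) + RR σ π u k := by
  classical
  have hc : ∀ s Y, Y ∈ Cores σ π s → #Y + 2 * s = 2 * D := fun s Y hY => by
    rw [← mem_cores hY, Finset.card_add_card_compl, h.card]
  simp only [XX, RR, xp_eq]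
  simp only [Finset.sum_comm (t := univ.filter (IsDg σ)), ← Finset.sum_add_distrib]
  refine Finset.sum_congr rfl fun p _ => ?_
  rw [if_pos trivial]
  by_cases h1 : ∃ s ∈ Icc 1 u, ∃ Y ∈ Cores σ π s, ∃ L, Splits σ Y L p
  · obtain ⟨s, hs, Y, hY, L, hL⟩ := h1
    have hs' := mem_Icc.1 hs
    have h2 := hc s Y hY
    have hU := hUniq H (Fin k) σ p Y L hL
    have h3 : ¬ Prim σ p := fun hp => by
      have h4 := hU.2 hp (Finset.card_pos.1 (by omega))
      rw [h4, Finset.card_univ, h.card] at h2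
      omega
    have key : ∀ s' ∈ Icc 1 u, ∀ Y' ∈ Cores σ π s', ∀ L', Splits σ Y' L' p →
        s' = s ∧ Y' = Y ∧ L' = L := fun s' hs'' Y' hY' L' hL' => by
      have h5 := hc s' Y' hY'
      have h6 := mem_Icc.1 hs''
      obtain ⟨rfl, rfl⟩ := hU.1 Y' L' hL' (by rw [h.card]; omega)
      exact ⟨by omega, rfl, rfl⟩
    rw [if_neg h3, if_neg (fun hr : RestP σ π u p => hr.2 ⟨s, hs, Y, hY, L, hL⟩), zero_add,
      add_zero, Finset.sum_eq_single_of_mem s hs, Finset.sum_eq_single_of_mem Y hY,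
      Finset.sum_eq_single_of_mem L (mem_univ _), if_pos hL]
    · exact fun L' _ hne => if_neg fun hL' => hne (key s hs Y hY L' hL').2.2
    · exact fun Y' hY' hne => Finset.sum_eq_zero fun L' _ =>
        if_neg fun hL' => hne (key s hs Y' hY' L' hL').2.1
    · exact fun s' hs'' hne => Finset.sum_eq_zero fun Y' hY' => Finset.sum_eq_zero fun L' _ =>
        if_neg fun hL' => hne (key s' hs'' Y' hY' L' hL').1
  · rw [Finset.sum_eq_zero fun s hs => Finset.sum_eq_zero fun Y hY =>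
      Finset.sum_eq_zero fun L _ => if_neg fun hL => h1 ⟨s, hs, Y, hY, L, hL⟩, add_zero]
    by_cases h2 : Prim σ p
    · rw [if_pos h2, if_neg (fun hr : RestP σ π u p => hr.1 h2), add_zero]
    · rw [if_neg h2, if_pos (show RestP σ π u p from ⟨h2, h1⟩), zero_add]

theorem sum_lab (hDec : SDec) (hRel : SRel) {σ : Perm H} {π : H → J} {v : J → ℕ} {D M : ℕ}
    (h : Vx σ π v D M) {s : ℕ} {Y : Finset H} (hY : Y ∈ Cores σ π s) (k : ℕ) :
    ∑ L : Finset (Fin k), XP σ (Fin k) (Splits σ Y L) = 2 ^ (2 * (D - s) - 1) *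
      ∑ j ∈ range (k + 1), (k.choose j : ℝ) * (TT (red σ Y) j * WW σ Y (k - j)) := by
  have h1 := Finset.sum_powerset_apply_card (fun j => TT (red σ Y) j * WW σ Y (k - j))
    (x := (univ : Finset (Fin k)))
  simp only [Finset.powerset_univ, Finset.card_univ, Fintype.card_fin, nsmul_eq_mul] at h1
  rw [← h1, Finset.mul_sum]
  refine Finset.sum_congr rfl fun L _ => ?_
  rw [hDec H J (Fin k) σ π v D M h s Y hY L, (hRel _ _ (red σ Y)).1, (hRel _ _ σ).2 Y, mul_assoc]
  have h2 : Fintype.card {i // i ∉ L} = k - #L := by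
    rw [Fintype.card_subtype_compl, Fintype.card_fin, Fintype.card_coe]
  rw [h2, Fintype.card_coe]

end IdAux

open IdAux in
theorem pId (hPar : SPar) (hDec : SDec) (hUniq : SUniq) (hRel : SRel) : SId := by
  intro H J _ _ _ _ σ π v D M h u hu t
  have h1 : XX σ = fun k => (2 ^ (2 * D - 1) * TT σ k + ∑ s ∈ Icc 1 u, ∑ Y ∈ Cores σ π s,
      2 ^ (2 * (D - s) - 1) * ∑ j ∈ range (k + 1),
        (k.choose j : ℝ) * (TT (red σ Y) j * WW σ Y (k - j))) + RR σ π u k := by
    funext k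
    rw [xx_split hUniq h hu k, xp_prim hPar h k]
    congr 2
    exact Finset.sum_congr rfl fun s _ => Finset.sum_congr rfl fun Y hY => sum_lab hDec hRel h hY k
  rw [h1, egf_add, egf_add, egf_mul, egf_sum]
  push_cast
  congr 2
  refine Finset.sum_congr rfl fun s hs => ?_
  rw [egf_sum]
  refine Finset.sum_congr rfl fun Y hY => ?_
  have h2 := mem_cores hY
  have h3 := Finset.card_add_card_compl Y
  have h4 := mem_Icc.1 hs
  rw [h.card] at h3
  have h5 := egf_conv (TT (red σ Y)) (WW σ Y) (D - s) s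
    (fun j hj => tt_zero _ j (by rw [Fintype.card_coe]; omega))
    (fun j hj => ww_zero σ Y j (by omega)) t
  rw [Nat.sub_add_cancel (by omega)] at h5
  rw [egf_mul, h5, mul_assoc]
  push_cast
  rfl

end Pool.Agent.STS.Cy
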