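import Pool.Agent.P.MP_bb7f8f_gt.Q2.Base

set_option linter.unusedSectionVars false

namespace Pool.Agent.STS.Cy
open Equiv Finset Filter Topology

namespace LatAux

section
variable {H I : Type} [Fintype H] [Fintype I] [DecidableEq I] {α : Perm H}
  {c : H → Option (I × Bool)}

theorem projZ (U : Submodule ℚ (H → ℚ)) (S : Set (H → ℤ)) (B : ℕ)
    (hB : ∀ l ∈ S, ∀ x, 0 ≤ l x ∧ l x ≤ B)
    (hU : ∀ l ∈ S, ∀ l' ∈ S, (fun x => (l x : ℚ) - l' x) ∈ U) :
    S.ncard ≤ (B + 1) ^ Module.finrank ℚ U := by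
  classical
  have hinj : Set.InjOn (fun (l : H → ℤ) x => (l x).toNat) S := fun l hl l' hl' h => by
    funext x
    have h1 := congrFun h x
    have h2 := (hB l hl x).1
    have h3 := (hB l' hl' x).1
    simp only at h1
    omega
  rw [← hinj.ncard_image]
  refine proj U _ B ?_ ?_
  · rintro _ ⟨l, hl, rfl⟩ x
    have := hB l hl x
    simp only
    omega
  · rintro _ ⟨l, hl, rfl⟩ _ ⟨l', hl', rfl⟩
    have key : ∀ m ∈ S, ∀ x, (((m x).toNat : ℕ) : ℚ) = (m x : ℚ) := fun m hm x => by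
      rw [← Int.cast_natCast, Int.toNat_of_nonneg (hB m hm x).1]
    simpa only [key l hl, key l' hl'] using hU l hl l' hl'

/-- the set counted for fixed heights -/
def SS (α : Perm H) (c : H → Option (I × Bool)) (δ : I × Bool → ℤ) (h : I → ℤ) (N : ℕ) :
    Set ((H → ℤ) × (I → ℤ)) :=
  {q | Sol α c δ q.1 ∧ (∀ x, 0 ≤ q.1 x) ∧
      (∀ i, 0 ≤ q.2 i ∧ q.2 i < pr c q.1 (i, true) + δ (i, true)) ∧
      ∑ i, h i * (pr c q.1 (i, true) + δ (i, true)) ≤ N}

/-- the length functions which occur for fixed heights -/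
def LL (α : Perm H) (c : H → Option (I × Bool)) (δ : I × Bool → ℤ) (h : I → ℕ) (N : ℕ) :
    Set (H → ℤ) :=
  {l | Sol α c δ l ∧ (∀ x, 0 ≤ l x) ∧
      ∀ i, 1 ≤ pr c l (i, true) + δ (i, true) ∧
        pr c l (i, true) + δ (i, true) ≤ (N / (h i + 1) : ℕ)}

def up (h : I → ℕ) : I → ℤ := fun i => (h i : ℤ) + 1

theorem ss_sub {δ : I × Bool → ℤ} {h : I → ℕ} {N : ℕ} :
    SS α c δ (up h) N ⊆ LL α c δ h N ×ˢ
      (Fintype.piFinset fun i => Finset.Ico (0 : ℤ) (N / (h i + 1) : ℕ) : Finset (I → ℤ)) := by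
  rintro q ⟨h1, h2, h3, h4⟩
  have hw : ∀ j, 1 ≤ pr c q.1 (j, true) + δ (j, true) := fun j => by have := h3 j; omega
  have key : ∀ i, pr c q.1 (i, true) + δ (i, true) ≤ (N / (h i + 1) : ℕ) := fun i => by
    have := Finset.single_le_sum (f := fun j => up h j * (pr c q.1 (j, true) + δ (j, true)))
      (fun j _ => mul_nonneg (by unfold up; omega) (by have := hw j; omega)) (mem_univ i)
    have h5 : up h i * (pr c q.1 (i, true) + δ (i, true)) ≤ N := this.trans h4
    obtain ⟨w, hw'⟩ := Int.eq_ofNat_of_zero_le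
      (show 0 ≤ pr c q.1 (i, true) + δ (i, true) by have := hw i; omega)
    rw [hw'] at h5 ⊢
    have h6 : w * (h i + 1) ≤ N := by
      unfold up at h5
      have : ((w * (h i + 1) : ℕ) : ℤ) ≤ N := by push_cast; linarith
      exact_mod_cast this
    exact_mod_cast (Nat.le_div_iff_mul_le (Nat.succ_pos _)).2 h6
  refine ⟨⟨h1, h2, fun i => ⟨hw i, key i⟩⟩, ?_⟩
  simp only [Finset.mem_coe, Fintype.mem_piFinset, Finset.mem_Ico]
  exact fun i => ⟨(h3 i).1, (h3 i).2.trans_le (key i)⟩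

theorem ll_le (hs : ∀ x, c x = none → Static α c x) {δ : I × Bool → ℤ} (hδ : ∀ f, 0 ≤ δ f)
    {a : H → ℤ} (ha : Sol α c δ a) {h : I → ℕ} {N : ℕ} {l : H → ℤ} (hl : l ∈ LL α c δ h N)
    (x : H) : 0 ≤ l x ∧ l x ≤ (N + ∑ y, (a y).natAbs : ℕ) := by
  refine ⟨hl.2.1 x, ?_⟩
  by_cases hx : c x = none
  · rw [hl.1.eq_of_static ha (hs x hx)]
    have := Finset.single_le_sum (f := fun y => (a y).natAbs) (fun _ _ => Nat.zero_le _)
      (mem_univ x)
    omega
  · obtain ⟨⟨i, b⟩, hf⟩ := Option.ne_none_iff_exists'.1 hx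
    have h1 := le_pr hl.2.1 hf
    have h2 := (hl.2.2 i).2
    have h3 := hl.1.2 i
    have h4 := hδ (i, b)
    have h5 := Nat.div_le_self N (h i + 1)
    cases b <;> omega

theorem ll_finite (hs : ∀ x, c x = none → Static α c x) {δ : I × Bool → ℤ} (hδ : ∀ f, 0 ≤ δ f)
    {a : H → ℤ} (ha : Sol α c δ a) (h : I → ℕ) (N : ℕ) : (LL α c δ h N).Finite :=
  (Set.Finite.pi' (t := fun _ : H => Set.Icc (0 : ℤ) (N + ∑ y, (a y).natAbs : ℕ)) fun _ =>
    Set.finite_Icc _ _).subset fun _ hl x => ll_le hs hδ ha hl x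

theorem diff_mem {δ : I × Bool → ℤ} {l l' : H → ℤ} (h : Sol α c δ l) (h' : Sol α c δ l') :
    (fun x => (l x : ℚ) - l' x) ∈ VO α c := by
  simpa using cast_mem_VO.2 (h.sub h')

theorem ll_card (hs : ∀ x, c x = none → Static α c x) {δ : I × Bool → ℤ} (hδ : ∀ f, 0 ≤ δ f)
    {a : H → ℤ} (ha : Sol α c δ a) (h : I → ℕ) (N : ℕ) :
    (LL α c δ h N).ncard ≤ (N + ∑ y, (a y).natAbs + 1) ^ Module.finrank ℚ (VO α c) :=
  projZ _ _ _ (fun _ hl x => ll_le hs hδ ha hl x) fun _ hl _ hl' => diff_mem hl.1 hl'.1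

theorem ll_card' (hs : ∀ x, c x = none → Static α c x) {δ : I × Bool → ℤ} (hδ : ∀ f, 0 ≤ δ f)
    {a : H → ℤ} (ha : Sol α c δ a) (h : I → ℕ) (N : ℕ) (j : I)
    (hW : ∃ l ∈ VO α c, pr c l (j, true) ≠ 0) :
    ∃ r, Module.finrank ℚ (VO α c) = r + 1 ∧
      (LL α c δ h N).ncard ≤ 2 * (N / (h j + 1)) * (N + ∑ y, (a y).natAbs + 1) ^ r := by
  classical
  obtain ⟨l₀, hl₀, h0⟩ := hW
  obtain ⟨x₀, hx₀, h1⟩ := Finset.exists_ne_zero_of_sum_ne_zero h0
  have hx : c x₀ = some (j, true) := (mem_filter.1 hx₀).2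
  let U : Submodule ℚ (H → ℚ) := VO α c ⊓ LinearMap.ker (LinearMap.proj x₀)
  have hlt : U < VO α c := lt_of_le_of_ne inf_le_left fun he => h1 (by
    have : l₀ ∈ U := he ▸ hl₀
    exact this.2)
  have hr := Submodule.finrank_lt_finrank_of_lt hlt
  refine ⟨Module.finrank ℚ (VO α c) - 1, by omega, ?_⟩
  rcases (LL α c δ h N).eq_empty_or_nonempty with he | ⟨l₁, hl₁⟩
  · rw [he, Set.ncard_empty]; exact Nat.zero_le _
  have hq : 1 ≤ N / (h j + 1) := by have := hl₁.2.2 j; omega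
  have hfin := ll_finite hs hδ ha h N
  rw [Set.ncard_eq_toFinset_card _ hfin,
    Finset.card_eq_sum_card_fiberwise (f := fun l => (l x₀).toNat)
      (t := range (N / (h j + 1) + 1)) fun l hl => by
        have hl' : l ∈ LL α c δ h N := by simpa using hl
        have h2 := le_pr hl'.2.1 hx
        have h3 := (hl'.2.2 j).2
        have h4 := hδ (j, true)
        simp only [Finset.coe_range, Set.mem_Iio]
        omega]
  refine (Finset.sum_le_card_nsmul _ _
    ((N + ∑ y, (a y).natAbs + 1) ^ (Module.finrank ℚ (VO α c) - 1)) fun v _ => ?_).trans ?_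
  · rw [← Set.ncard_coe_finset]
    refine (projZ U _ (N + ∑ y, (a y).natAbs) (fun l hl x => ?_) fun l hl l' hl' => ?_).trans
      (Nat.pow_le_pow_right (Nat.succ_pos _) (by omega))
    · exact ll_le hs hδ ha (by simpa using (mem_filter.1 hl).1) x
    · have h2 : l ∈ LL α c δ h N := by simpa using (mem_filter.1 hl).1
      have h3 : l' ∈ LL α c δ h N := by simpa using (mem_filter.1 hl').1
      refine ⟨diff_mem h2.1 h3.1, ?_⟩
      have h4 := (mem_filter.1 hl).2
      have h5 := (mem_filter.1 hl').2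
      have h6 := h2.2.1 x₀
      have h7 := h3.2.1 x₀
      have h8 : l x₀ = l' x₀ := by omega
      simp [h8]
  · rw [Finset.card_range, smul_eq_mul]
    exact Nat.mul_le_mul_right _ (by omega)

/-- the summable majorant -/
noncomputable def bd (h : I → ℕ) : ℝ :=
  ∏ i, ((h i : ℝ) + 1) ^ (-(1 + 1 / (Fintype.card I : ℝ)))

theorem bd_summable : Summable (bd : (I → ℕ) → ℝ) := by
  classical
  rcases isEmpty_or_nonempty I with hI | hI
  · exact Summable.of_finite
  have hk : (0 : ℝ) < Fintype.card I := by exact_mod_cast Fintype.card_pos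
  let f : ℕ → ℝ := fun n => ((n : ℝ) + 1) ^ (-(1 + 1 / (Fintype.card I : ℝ)))
  have hf0 : ∀ n, 0 ≤ f n := fun n => by positivity
  have hf : Summable f := by
    have h1 : Summable fun n : ℕ => (n : ℝ) ^ (-(1 + 1 / (Fintype.card I : ℝ))) :=
      Real.summable_nat_rpow.2 (by have := one_div_pos.2 hk; linarith)
    simpa [f] using (summable_nat_add_iff 1).2 h1
  refine summable_of_sum_le (c := ∏ _i : I, ∑' n, f n)
    (fun h => Finset.prod_nonneg fun i _ => hf0 _) fun u => ?_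
  calc ∑ h ∈ u, bd h ≤ ∑ h ∈ Fintype.piFinset (fun i => u.image (· i)), ∏ i, f (h i) :=
        Finset.sum_le_sum_of_subset_of_nonneg
          (fun h hh => Fintype.mem_piFinset.2 fun i => mem_image_of_mem _ hh)
          fun h _ _ => Finset.prod_nonneg fun i _ => hf0 _
    _ = ∏ i, ∑ n ∈ u.image (· i), f n := (Finset.prod_univ_sum _ _).symm
    _ ≤ _ := Finset.prod_le_prod (fun i _ => Finset.sum_nonneg fun n _ => hf0 n)
          fun i _ => hf.sum_le_tsum _ fun n _ => hf0 n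

theorem inv_le_prod (h : I → ℕ) (j : I) (hj : ∀ i, h i ≤ h j) :
    1 / ((h j : ℝ) + 1) ≤ ∏ i, ((h i : ℝ) + 1) ^ (-(1 / (Fintype.card I : ℝ))) := by
  have hI : Nonempty I := ⟨j⟩
  have hk : (0 : ℝ) < Fintype.card I := by exact_mod_cast Fintype.card_pos
  calc 1 / ((h j : ℝ) + 1) = ∏ _i : I, ((h j : ℝ) + 1) ^ (-(1 / (Fintype.card I : ℝ))) := by
        rw [Finset.prod_const, Finset.card_univ, ← Real.rpow_natCast,
          ← Real.rpow_mul (by positivity), neg_mul, one_div_mul_cancel hk.ne',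
          Real.rpow_neg_one, one_div]
    _ ≤ _ := Finset.prod_le_prod (fun i _ => by positivity) fun i _ =>
        Real.rpow_le_rpow_of_nonpos (by positivity)
          (by have : (h i : ℝ) ≤ h j := by exact_mod_cast hj i
              linarith) (by have := one_div_pos.2 hk; linarith)

theorem ll_bound (hs : ∀ x, c x = none → Static α c x) {δ : I × Bool → ℤ} (hδ : ∀ f, 0 ≤ δ f)
    {a : H → ℤ} (ha : Sol α c δ a) (hW : ∀ i, ∃ l ∈ VO α c, pr c l (i, true) ≠ 0)
    (h : I → ℕ) {N : ℕ} (hN : ∑ y, (a y).natAbs + 1 ≤ N) :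
    ((LL α c δ h N).ncard : ℝ) ≤ (2 * N) ^ Module.finrank ℚ (VO α c) *
      ∏ i, ((h i : ℝ) + 1) ^ (-(1 / (Fintype.card I : ℝ))) := by
  have hB : N + ∑ y, (a y).natAbs + 1 ≤ 2 * N := by omega
  rcases isEmpty_or_nonempty I with hI | hI
  · rw [Finset.univ_eq_empty, Finset.prod_empty, mul_one]
    exact_mod_cast (ll_card hs hδ ha h N).trans (Nat.pow_le_pow_left hB _)
  obtain ⟨j, hj⟩ := Finite.exists_max h
  obtain ⟨r, hr, h1⟩ := ll_card' hs hδ ha h N j (hW j)
  have h2 : ((LL α c δ h N).ncard : ℝ) ≤ 2 * ((N / (h j + 1) : ℕ) : ℝ) * (2 * N) ^ r := by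
    exact_mod_cast h1.trans (Nat.mul_le_mul_left _ (Nat.pow_le_pow_left hB _))
  have h3 : ((N / (h j + 1) : ℕ) : ℝ) ≤ N * (1 / ((h j : ℝ) + 1)) := by
    have := Nat.cast_div_le (α := ℝ) (m := N) (n := h j + 1)
    push_cast at this
    rwa [mul_one_div]
  have h4 := inv_le_prod h j hj
  rw [hr, pow_succ]
  calc _ ≤ 2 * ((N / (h j + 1) : ℕ) : ℝ) * (2 * N) ^ r := h2
    _ ≤ 2 * (N * ∏ i, ((h i : ℝ) + 1) ^ (-(1 / (Fintype.card I : ℝ)))) * (2 * N) ^ r := by
        gcongr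
        exact h3.trans (by gcongr)
    _ = _ := by ring

theorem ss_bound (hs : ∀ x, c x = none → Static α c x) {δ : I × Bool → ℤ} (hδ : ∀ f, 0 ≤ δ f)
    {a : H → ℤ} (ha : Sol α c δ a) (hW : ∀ i, ∃ l ∈ VO α c, pr c l (i, true) ≠ 0)
    (h : I → ℕ) {N : ℕ} (hN : ∑ y, (a y).natAbs + 1 ≤ N) :
    ((SS α c δ (up h) N).ncard : ℝ) / (N : ℝ) ^ (Module.finrank ℚ (VO α c) + Fintype.card I) ≤
      2 ^ Module.finrank ℚ (VO α c) * bd h := by
  have hN0 : (0 : ℝ) < N := by exact_mod_cast (show 0 < N by omega)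
  have h1 := Set.ncard_le_ncard (ss_sub (α := α) (c := c) (δ := δ) (h := h) (N := N))
    ((ll_finite hs hδ ha h N).prod (Finset.finite_toSet _))
  rw [Set.ncard_prod, Set.ncard_coe_finset, Fintype.card_piFinset] at h1
  simp only [Int.card_Ico, sub_zero, Int.toNat_natCast] at h1
  have h2 : ((SS α c δ (up h) N).ncard : ℝ) ≤
      (LL α c δ h N).ncard * ∏ i, ((N / (h i + 1) : ℕ) : ℝ) := by exact_mod_cast h1
  have h3 : ∏ i, ((N / (h i + 1) : ℕ) : ℝ) ≤ ∏ i, (N : ℝ) * ((h i : ℝ) + 1) ^ (-1 : ℝ) :=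
    Finset.prod_le_prod (fun i _ => by positivity) fun i _ => by
      have := Nat.cast_div_le (α := ℝ) (m := N) (n := h i + 1)
      push_cast at this
      rwa [Real.rpow_neg_one, ← div_eq_mul_inv]
  have h4 := ll_bound hs hδ ha hW h hN
  have h5 : bd h = (∏ i, ((h i : ℝ) + 1) ^ (-(1 / (Fintype.card I : ℝ)))) *
      ∏ i, ((h i : ℝ) + 1) ^ (-1 : ℝ) := by
    rw [bd, ← Finset.prod_mul_distrib]
    exact Finset.prod_congr rfl fun i _ => by
      rw [← Real.rpow_add (by positivity)]; congr 1; ring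
  rw [div_le_iff₀ (by positivity), h5]
  refine h2.trans ((mul_le_mul h4 h3 (by positivity) (by positivity)).trans_eq ?_)
  rw [Finset.prod_mul_distrib, Finset.prod_const, Finset.card_univ, mul_pow, pow_add]
  ring

theorem sum_cn (hs : ∀ x, c x = none → Static α c x) {δ : I × Bool → ℤ} (hδ : ∀ f, 0 ≤ δ f)
    (N : ℕ) : ∑ m ∈ range (N + 1), (cn α c δ m : ℝ) =
      ∑' h : I → ℕ, ((SS α c δ (up h) N).ncard : ℝ) := by
  classical
  let T : Finset ((H → ℤ) × (I → ℤ) × (I → ℤ)) :=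
    (range (N + 1)).biUnion fun m => (cone_finite hs hδ m).toFinset
  have hT : ∀ p, p ∈ T ↔ ∃ m ≤ N, p ∈ Cone α c δ m := fun p => by
    simp [T]
  have h1 : #T = ∑ m ∈ range (N + 1), cn α c δ m := by
    rw [Finset.card_biUnion]
    · exact Finset.sum_congr rfl fun m _ => by
        rw [cn, Set.ncard_eq_toFinset_card _ (cone_finite hs hδ m)]
    · intro m _ m' _ hne
      rw [Function.onFun, Finset.disjoint_left]
      intro p hp hp'
      rw [Set.Finite.mem_toFinset] at hp hp'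
      have h2 := hp.2.2.2.2
      have h3 := hp'.2.2.2.2
      omega
  have h2 : ∀ h : I → ℕ, (SS α c δ (up h) N).ncard =
      #{p ∈ T | (fun i => (p.2.1 i - 1).toNat) = h} := fun h => by
    rw [← Set.ncard_coe_finset]
    refine Set.ncard_congr (fun q _ => (q.1, up h, q.2)) (fun q hq => ?_) (fun q q' _ _ he => ?_)
      fun p hp => ?_
    · obtain ⟨a1, a2, a3, a4⟩ := hq
      have h0 : 0 ≤ ∑ i, up h i * (pr c q.1 (i, true) + δ (i, true)) :=
        Finset.sum_nonneg fun i _ => mul_nonneg (by unfold up; omega) (by have := a3 i; omega)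
      rw [Finset.mem_coe, mem_filter, hT]
      refine ⟨⟨(∑ i, up h i * (pr c q.1 (i, true) + δ (i, true))).toNat, by omega,
        a1, a2, fun i => ?_, a3, (Int.toNat_of_nonneg h0).symm⟩, funext fun i => ?_⟩
      · change 1 ≤ up h i
        unfold up; omega
      · change (up h i - 1).toNat = h i
        unfold up; omega
    · simp only [Prod.mk.injEq] at he
      exact Prod.ext he.1 he.2.2
    · rw [Finset.mem_coe, mem_filter, hT] at hp
      obtain ⟨⟨m, hm, a1, a2, a3, a4, a5⟩, hh⟩ := hp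
      have h3 : up h = p.2.1 := funext fun i => by
        have := congrFun hh i
        have := a3 i
        unfold up; omega
      refine ⟨(p.1, p.2.2), ⟨a1, a2, a4, ?_⟩, ?_⟩
      · rw [h3, a5]; exact_mod_cast hm
      · rw [h3]
  rw [← Nat.cast_sum, ← h1, tsum_eq_sum (s := T.image fun p i => (p.2.1 i - 1).toNat)]
  · rw [Finset.card_eq_sum_card_image (fun p : (H → ℤ) × (I → ℤ) × (I → ℤ) =>
      fun i => (p.2.1 i - 1).toNat) T, Nat.cast_sum]
    exact Finset.sum_congr rfl fun h _ => by rw [h2]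
  · intro h hh
    rw [h2, Nat.cast_eq_zero, Finset.card_eq_zero, Finset.filter_eq_empty_iff]
    exact fun p hp he => hh (mem_image.2 ⟨p, hp, he⟩)

end

theorem ratio (e d : ℕ) (h : e ≤ d) :
    ∃ y : ℝ, Tendsto (fun N : ℕ => (N : ℝ) ^ e / (N : ℝ) ^ d) atTop (𝓝 y) := by
  rcases h.eq_or_lt with rfl | h
  · refine ⟨1, tendsto_const_nhds.congr' ?_⟩
    filter_upwards [eventually_gt_atTop 0] with N hN
    have : (0 : ℝ) < N := by exact_mod_cast hN
    rw [div_self (by positivity)]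
  · exact ⟨0, (tendsto_pow_div_pow_atTop_zero h).comp tendsto_natCast_atTop_atTop⟩

end LatAux

theorem pLat (hLatH : SLatH) : SLat := by
  intro H I _ _ _ α c d hok
  obtain ⟨hs, hd⟩ := hok
  by_cases hW : ∀ i, ∃ l ∈ VO α c, pr c l (i, true) ≠ 0
  · choose V hV using fun h : I → ℕ =>
      hLatH H I α c hs (LatAux.up h) fun i => by unfold LatAux.up; omega
    obtain ⟨y, hy⟩ := LatAux.ratio _ _ hd
    have key : ∀ δ : I × Bool → ℤ, (∀ f, 0 ≤ δ f) → Good α c δ →
        Asy (fun m => cn α c δ m) d (d.factorial * (∑' h, V h) * y) := fun δ hδ hg => by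
      obtain ⟨a, ha, -⟩ := id hg
      have h1 := tendsto_tsum_of_dominated_convergence
        (LatAux.bd_summable.mul_left (2 ^ Module.finrank ℚ (VO α c))) (fun h => hV h δ hg)
        (by
          filter_upwards [eventually_ge_atTop (∑ y, (a y).natAbs + 1)] with N hN h
          rw [Real.norm_of_nonneg (by positivity)]
          exact LatAux.ss_bound hs hδ ha hW h hN)
      refine ((h1.const_mul (d.factorial : ℝ)).mul hy).congr' ?_
      filter_upwards [eventually_gt_atTop 0] with N hN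
      have hN0 : (0 : ℝ) < N := by exact_mod_cast hN
      rw [LatAux.sum_cn hs hδ, tsum_div_const]
      change _ * ((∑' h, ((LatAux.SS α c δ (LatAux.up h) N).ncard : ℝ)) / _) * _ = _
      field_simp
    have h0 := key 0 (fun _ => le_rfl) good_zero
    have hz : zz α c d = d.factorial * (∑' h, V h) * y := Tendsto.limUnder_eq h0
    rw [hz]
    exact ⟨h0, fun _ => key⟩
  · refine ⟨?_, fun h => absurd h hW⟩
    push Not at hW
    obtain ⟨i, hi⟩ := hW
    have h1 : ∀ m, cn α c 0 m = 0 := fun m => by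
      rw [cn, Set.eq_empty_of_forall_notMem (s := Cone α c 0 m) fun p hp => ?_, Set.ncard_empty]
      have h2 := hi _ (cast_mem_VO.2 hp.1)
      rw [pr_cast, Int.cast_eq_zero] at h2
      have h3 := hp.2.2.2.1 i
      rw [h2] at h3
      simp only [Pi.zero_apply] at h3
      omega
    have h0 : Asy (fun m => (cn α c 0 m : ℝ)) d 0 := by
      simp only [h1, Nat.cast_zero]; exact asy_zero d
    have hz : zz α c d = 0 := Tendsto.limUnder_eq h0
    rw [hz]
    exact h0

end Pool.Agent.STS.Cy
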