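import Pool.Agent.P.MP_bb7f8f_gt.Q2.Base

set_option linter.unusedSectionVars false

namespace Pool.Agent.STS.Cy
open Equiv Finset Filter Topology

namespace LatHAux

variable {H I : Type} [Fintype H] [Fintype I] [DecidableEq I]

/-- the lattice of balanced integral length functions -/
def Lam (α : Perm H) (c : H → Option (I × Bool)) : Submodule ℤ (H → ℤ) where
  carrier := {l | Sol α c 0 l}
  add_mem' := fun ha hb => Sol.add ha hb
  zero_mem' := sol_zero
  smul_mem' := fun r a ha => ⟨fun x => by simp [ha.1 x], fun i => by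
    have h1 := ha.2 i
    simp only [pr, Pi.smul_apply, smul_eq_mul, ← Finset.mul_sum, Pi.zero_apply, add_zero] at h1 ⊢
    rw [h1]⟩

theorem exists_basis (α : Perm H) (c : H → Option (I × Bool)) :
    ∃ (r : ℕ) (b : Fin r → H → ℤ), r = Module.finrank ℚ (VO α c) ∧ (∀ j, Sol α c 0 (b j)) ∧
      (∀ l, Sol α c 0 l → ∃ n : Fin r → ℤ, ∀ x, l x = ∑ j, n j * b j x) ∧
      LinearIndependent ℤ b := by
  let B := Module.finBasis ℤ (Lam α c)
  have hli : LinearIndependent ℤ (fun j => (B j : H → ℤ)) :=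
    B.linearIndependent.map' (Lam α c).subtype (Submodule.ker_subtype _)
  have hsp : ∀ l, Sol α c 0 l → ∃ n : Fin (Module.finrank ℤ (Lam α c)) → ℤ,
      ∀ x, l x = ∑ j, n j * (B j : H → ℤ) x := by
    intro l hl
    refine ⟨fun j => B.repr ⟨l, hl⟩ j, fun x => ?_⟩
    have h1 := congrArg (fun v : Lam α c => (v : H → ℤ) x) (B.sum_repr ⟨l, hl⟩)
    simp only [Submodule.coe_sum, Submodule.coe_smul, Finset.sum_apply, Pi.smul_apply,
      smul_eq_mul] at h1
    exact h1.symm
  refine ⟨_, fun j => (B j : H → ℤ), ?_, fun j => (B j).2, hsp, hli⟩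
  have hq : LinearIndependent ℚ (fun j => algebraMap ℤ ℚ ∘ (B j : H → ℤ)) :=
    linearIndependent_algebraMap_comp_iff.2 hli
  have h2 := finrank_span_eq_card hq
  have h3 : Submodule.span ℚ (Set.range fun j => algebraMap ℤ ℚ ∘ (B j : H → ℤ)) = VO α c := by
    apply le_antisymm
    · rw [Submodule.span_le]
      rintro _ ⟨j, rfl⟩
      exact cast_mem_VO.2 (B j).2
    · intro l hl
      obtain ⟨n, l', hn, h1, h4⟩ := exists_int_mul hl
      obtain ⟨m, hm⟩ := hsp l' h1
      have h5 : l = ∑ j, ((m j : ℚ) / n) • (algebraMap ℤ ℚ ∘ (B j : H → ℤ)) := by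
        funext x
        have hn' : (n : ℚ) ≠ 0 := by exact_mod_cast hn.ne'
        have h6 := h4 x
        rw [hm x] at h6
        push_cast at h6
        simp only [Finset.sum_apply, Pi.smul_apply, Function.comp_apply, smul_eq_mul,
          eq_intCast]
        refine mul_left_cancel₀ hn' ?_
        rw [← h6, Finset.mul_sum]
        refine Finset.sum_congr rfl fun j _ => ?_
        field_simp
      rw [h5]
      exact Submodule.sum_mem _ fun j _ =>
        Submodule.smul_mem _ _ (Submodule.subset_span ⟨j, rfl⟩)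
  rw [h3] at h2
  rw [h2, Fintype.card_fin]

theorem pr_comb {R : Type} [CommRing R] (c : H → Option (I × Bool)) {r : ℕ} (b : Fin r → H → ℤ)
    (n : Fin r → R) (f : I × Bool) :
    pr c (fun x => ∑ j, n j * (b j x : R)) f = ∑ j, n j * ((pr c (b j) f : ℤ) : R) := by
  simp only [pr, Int.cast_sum, Finset.mul_sum]
  exact Finset.sum_comm

/-- the index type of the inequalities -/
abbrev JJ (α : Perm H) (c : H → Option (I × Bool)) := {x // ¬ Static α c x} ⊕ I ⊕ I ⊕ Unit

/-- the matrix of the inequalities -/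
def AA (α : Perm H) (c : H → Option (I × Bool)) {r : ℕ} (b : Fin r → H → ℤ) (h : I → ℤ) :
    JJ α c → Fin r ⊕ I → ℤ
  | Sum.inl x, Sum.inl j => - b j x.1
  | Sum.inl _, Sum.inr _ => 0
  | Sum.inr (Sum.inl _), Sum.inl _ => 0
  | Sum.inr (Sum.inl i), Sum.inr i' => if i' = i then -1 else 0
  | Sum.inr (Sum.inr (Sum.inl i)), Sum.inl j => - pr c (b j) (i, true)
  | Sum.inr (Sum.inr (Sum.inl i)), Sum.inr i' => if i' = i then 1 else 0
  | Sum.inr (Sum.inr (Sum.inr _)), Sum.inl j => ∑ i, h i * pr c (b j) (i, true)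
  | Sum.inr (Sum.inr (Sum.inr _)), Sum.inr _ => 0

def BB (α : Perm H) (c : H → Option (I × Bool)) : JJ α c → ℤ
  | Sum.inl _ => 0
  | Sum.inr (Sum.inl _) => 0
  | Sum.inr (Sum.inr (Sum.inl _)) => 0
  | Sum.inr (Sum.inr (Sum.inr _)) => 1

def GG (α : Perm H) (c : H → Option (I × Bool)) (h : I → ℤ) (δ : I × Bool → ℤ) (a : H → ℤ) :
    JJ α c → ℤ
  | Sum.inl x => a x.1
  | Sum.inr (Sum.inl _) => 0
  | Sum.inr (Sum.inr (Sum.inl i)) => pr c a (i, true) + δ (i, true) - 1
  | Sum.inr (Sum.inr (Sum.inr _)) => - ∑ i, h i * (pr c a (i, true) + δ (i, true))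

section
variable {R : Type} [CommRing R] (α : Perm H) (c : H → Option (I × Bool)) {r : ℕ}
  (b : Fin r → H → ℤ) (h : I → ℤ) (z : Fin r ⊕ I → R)

/-- the length function with coordinates `z` -/
def LL (b : Fin r → H → ℤ) (z : Fin r ⊕ I → R) : H → R :=
  fun x => ∑ j, z (Sum.inl j) * (b j x : R)

theorem row1 (x : {x // ¬ Static α c x}) :
    ∑ i, (AA α c b h (Sum.inl x) i : R) * z i = - LL b z x.1 := by
  simp [Fintype.sum_sum_type, AA, LL, mul_comm]

theorem row2 (i : I) :
    ∑ i', (AA α c b h (Sum.inr (Sum.inl i)) i' : R) * z i' = - z (Sum.inr i) := by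
  simp [Fintype.sum_sum_type, AA]

theorem row3 (i : I) :
    ∑ i', (AA α c b h (Sum.inr (Sum.inr (Sum.inl i))) i' : R) * z i' =
      z (Sum.inr i) - pr c (LL b z) (i, true) := by
  have h1 : pr c (LL b z) (i, true) = _ := pr_comb c b (fun j => z (Sum.inl j)) (i, true)
  rw [h1]
  simp [Fintype.sum_sum_type, AA, mul_comm]
  ring

theorem row4 (u : Unit) :
    ∑ i', (AA α c b h (Sum.inr (Sum.inr (Sum.inr u))) i' : R) * z i' =
      ∑ i, (h i : R) * pr c (LL b z) (i, true) := by
  have h1 : ∀ i, pr c (LL b z) (i, true) = _ :=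
    fun i => pr_comb c b (fun j => z (Sum.inl j)) (i, true)
  simp only [h1, Fintype.sum_sum_type, AA, Int.cast_zero, zero_mul, Finset.sum_const_zero,
    add_zero, Int.cast_sum, Int.cast_mul, Finset.sum_mul, Finset.mul_sum]
  rw [Finset.sum_comm]
  exact Finset.sum_congr rfl fun i _ => Finset.sum_congr rfl fun j _ => by ring

variable {α c b}

theorem LL_static (hb : ∀ j, Sol α c 0 (b j)) {x : H} (hx : Static α c x) : LL b z x = 0 := by
  refine Finset.sum_eq_zero fun j _ => ?_
  rw [hx _ (hb j), Int.cast_zero, mul_zero]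

theorem LL_bal (hb : ∀ j, Sol α c 0 (b j)) (i : I) :
    pr c (LL b z) (i, true) = pr c (LL b z) (i, false) := by
  have h1 : pr c (LL b z) (i, true) = _ := pr_comb c b (fun j => z (Sum.inl j)) (i, true)
  have h2 : pr c (LL b z) (i, false) = _ := pr_comb c b (fun j => z (Sum.inl j)) (i, false)
  rw [h1, h2]
  refine Finset.sum_congr rfl fun j _ => ?_
  have h3 := (hb j).2 i
  simp only [Pi.zero_apply, add_zero] at h3
  rw [h3]

theorem LL_inv (hb : ∀ j, Sol α c 0 (b j)) (x : H) : LL b z (α x) = LL b z x :=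
  Finset.sum_congr rfl fun j _ => by rw [(hb j).1 x]

end

variable {α : Perm H} {c : H → Option (I × Bool)} {r : ℕ} {b : Fin r → H → ℤ}

theorem LL_sol (hb : ∀ j, Sol α c 0 (b j)) (z : Fin r ⊕ I → ℤ) : Sol α c 0 (LL b z) :=
  ⟨LL_inv z hb, fun i => by simp only [Pi.zero_apply, add_zero]; exact LL_bal z hb i⟩

theorem rows_ne (hsp : ∀ l, Sol α c 0 l → ∃ n : Fin r → ℤ, ∀ x, l x = ∑ j, n j * b j x)
    (h : I → ℤ) (j : JJ α c) : AA α c b h j ≠ 0 ∨ 0 < BB α c j := by
  rcases j with x | i | i | u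
  · left
    intro h0
    refine x.2 fun l hl => ?_
    obtain ⟨n, hn⟩ := hsp l hl
    rw [hn]
    refine Finset.sum_eq_zero fun j _ => ?_
    have h1 := congrFun h0 (Sum.inl j)
    simp only [AA, Pi.zero_apply, neg_eq_zero] at h1
    rw [h1, mul_zero]
  · left
    intro h0
    have h1 := congrFun h0 (Sum.inr i)
    simp [AA] at h1
  · left
    intro h0
    have h1 := congrFun h0 (Sum.inr i)
    simp [AA] at h1
  · right
    simp [BB]

theorem recession (hs : ∀ x, c x = none → Static α c x) (hb : ∀ j, Sol α c 0 (b j))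
    (hli : LinearIndependent ℤ b) {h : I → ℤ} (hh : ∀ i, 1 ≤ h i) (z : Fin r ⊕ I → ℝ)
    (hz : ∀ j, ∑ i, (AA α c b h j i : ℝ) * z i ≤ 0) : z = 0 := by
  have hL : ∀ x, 0 ≤ LL b z x := by
    intro x
    by_cases hx : Static α c x
    · rw [LL_static z hb hx]
    · have h1 := hz (Sum.inl ⟨x, hx⟩)
      rw [row1] at h1
      linarith
  have hW : ∀ f, 0 ≤ pr c (LL b z) f := fun f => Finset.sum_nonneg fun y _ => hL y
  have h4 := hz (Sum.inr (Sum.inr (Sum.inr ())))
  rw [row4] at h4
  have hnn : ∀ i ∈ (univ : Finset I), 0 ≤ (h i : ℝ) * pr c (LL b z) (i, true) := fun i _ => by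
    have h1 : (1 : ℝ) ≤ h i := by exact_mod_cast hh i
    exact mul_nonneg (by linarith) (hW _)
  have h5 := (Finset.sum_eq_zero_iff_of_nonneg hnn).1 (le_antisymm h4 (Finset.sum_nonneg hnn))
  have hW0 : ∀ i, pr c (LL b z) (i, true) = 0 := fun i => by
    have h1 : (1 : ℝ) ≤ h i := by exact_mod_cast hh i
    exact (mul_eq_zero.1 (h5 i (Finset.mem_univ _))).resolve_left (by linarith)
  have hW1 : ∀ f, pr c (LL b z) f = 0 := by
    rintro ⟨i, _ | _⟩
    · rw [← LL_bal z hb i]; exact hW0 i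
    · exact hW0 i
  have hL0 : ∀ x, LL b z x = 0 := by
    intro x
    rcases hc : c x with _ | f
    · exact LL_static z hb (hs x hc)
    · have h1 : LL b z x ≤ pr c (LL b z) f :=
        Finset.single_le_sum (f := LL b z) (fun y _ => hL y) (by simpa using hc)
      exact le_antisymm (h1.trans_eq (hW1 f)) (hL x)
  have hr : LinearIndependent ℝ (fun j => algebraMap ℤ ℝ ∘ b j) :=
    linearIndependent_algebraMap_comp_iff.2 hli
  have hn := Fintype.linearIndependent_iff.1 hr (fun j => z (Sum.inl j)) (by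
    funext x
    have h1 := hL0 x
    simpa [LL] using h1)
  funext j
  rcases j with j | i
  · exact hn j
  · have h2 := hz (Sum.inr (Sum.inl i))
    have h3 := hz (Sum.inr (Sum.inr (Sum.inl i)))
    rw [row2] at h2
    rw [row3, hW0] at h3
    simp only [Pi.zero_apply]
    linarith

/-- the parametrisation of the lattice points -/
def FF (b : Fin r → H → ℤ) (a : H → ℤ) (z : Fin r ⊕ I → ℤ) : (H → ℤ) × (I → ℤ) :=
  (a + LL b z, fun i => z (Sum.inr i))

theorem FF_inj (hli : LinearIndependent ℤ b) (a : H → ℤ) :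
    Function.Injective (FF (I := I) b a) := by
  intro z z' hzz
  have h1 : LL b z = LL b z' := add_left_cancel (congrArg Prod.fst hzz)
  have h2 : (fun i => z (Sum.inr i)) = fun i => z' (Sum.inr i) := congrArg Prod.snd hzz
  have hn := Fintype.linearIndependent_iff.1 hli (fun j => z (Sum.inl j) - z' (Sum.inl j)) (by
    funext x
    have h3 := congrFun h1 x
    simp only [LL, Int.cast_id] at h3
    simp only [Finset.sum_apply, Pi.smul_apply, smul_eq_mul, sub_mul, Finset.sum_sub_distrib,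
      Pi.zero_apply, h3, sub_self])
  funext j
  rcases j with j | i
  · exact sub_eq_zero.1 (hn j)
  · exact congrFun h2 i

theorem mem_iff (hb : ∀ j, Sol α c 0 (b j)) (h : I → ℤ) {δ : I × Bool → ℤ} {a : H → ℤ}
    (ha : ∀ x, Static α c x → 0 ≤ a x) (N : ℕ) (z : Fin r ⊕ I → ℤ) :
    (∀ j, ∑ i, AA α c b h j i * z i ≤ BB α c j * N + GG α c h δ a j) ↔
      ((∀ x, 0 ≤ (FF b a z).1 x) ∧
        (∀ i, 0 ≤ (FF b a z).2 i ∧ (FF b a z).2 i < pr c (FF b a z).1 (i, true) + δ (i, true)) ∧
        ∑ i, h i * (pr c (FF b a z).1 (i, true) + δ (i, true)) ≤ N) := by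
  have r1 := row1 α c b h z
  have r2 := row2 α c b h z
  have r3 := row3 α c b h z
  have r4 := row4 α c b h z
  simp only [Int.cast_id] at r1 r2 r3 r4
  have e4 : ∑ i, h i * (pr c a (i, true) + pr c (LL b z) (i, true) + δ (i, true)) =
      ∑ i, h i * pr c (LL b z) (i, true) + ∑ i, h i * (pr c a (i, true) + δ (i, true)) := by
    rw [← Finset.sum_add_distrib]
    exact Finset.sum_congr rfl fun i _ => by ring
  simp only [FF, pr_add, Pi.add_apply, e4]
  constructor
  · intro hz
    refine ⟨fun x => ?_, fun i => ⟨?_, ?_⟩, ?_⟩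
    · by_cases hx : Static α c x
      · rw [LL_static z hb hx, add_zero]; exact ha x hx
      · have h1 := hz (Sum.inl ⟨x, hx⟩)
        rw [r1] at h1
        simp only [BB, GG] at h1
        linarith
    · have h1 := hz (Sum.inr (Sum.inl i))
      rw [r2] at h1
      simp only [BB, GG] at h1
      linarith
    · have h1 := hz (Sum.inr (Sum.inr (Sum.inl i)))
      rw [r3] at h1
      simp only [BB, GG] at h1
      linarith
    · have h1 := hz (Sum.inr (Sum.inr (Sum.inr ())))
      rw [r4] at h1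
      simp only [BB, GG] at h1
      linarith
  · rintro ⟨h1, h2, h3⟩ j
    rcases j with x | i | i | u
    · rw [r1]
      have := h1 x.1
      simp only [BB, GG]
      linarith
    · rw [r2]
      have := (h2 i).1
      simp only [BB, GG]
      linarith
    · rw [r3]
      have := (h2 i).2
      simp only [BB, GG]
      linarith
    · rw [r4]
      simp only [BB, GG]
      linarith

theorem image_eq (hb : ∀ j, Sol α c 0 (b j))
    (hsp : ∀ l, Sol α c 0 l → ∃ n : Fin r → ℤ, ∀ x, l x = ∑ j, n j * b j x)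
    (h : I → ℤ) {δ : I × Bool → ℤ} {a : H → ℤ} (ha0 : Sol α c δ a)
    (ha : ∀ x, Static α c x → 0 ≤ a x) (N : ℕ) :
    FF b a '' {z : Fin r ⊕ I → ℤ |
      ∀ j, ∑ i, AA α c b h j i * z i ≤ BB α c j * N + GG α c h δ a j} =
    {q : (H → ℤ) × (I → ℤ) | Sol α c δ q.1 ∧ (∀ x, 0 ≤ q.1 x) ∧
      (∀ i, 0 ≤ q.2 i ∧ q.2 i < pr c q.1 (i, true) + δ (i, true)) ∧
      ∑ i, h i * (pr c q.1 (i, true) + δ (i, true)) ≤ N} := by
  ext q
  constructor
  · rintro ⟨z, hz, rfl⟩
    exact ⟨ha0.add (LL_sol hb z), (mem_iff hb h ha N z).1 hz⟩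
  · rintro ⟨h1, h2⟩
    obtain ⟨n, hn⟩ := hsp _ (h1.sub ha0)
    have hq : FF b a (Sum.elim n q.2) = q := by
      refine Prod.ext ?_ rfl
      funext x
      have h3 := hn x
      simp only [Pi.sub_apply] at h3
      simp only [FF, LL, Pi.add_apply, Sum.elim_inl, Int.cast_id, ← h3]
      ring
    refine ⟨Sum.elim n q.2, (mem_iff hb h ha N _).2 ?_, hq⟩
    rw [hq]
    exact h2

end LatHAux

open LatHAux in
theorem pLatH (hPoly : SPoly) : SLatH := by
  classical
  intro H I _ _ _ α c hs h hh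
  obtain ⟨r, b, hr, hb, hsp, hli⟩ := exists_basis α c
  obtain ⟨V, hV⟩ := hPoly (Fin r ⊕ I) (JJ α c) (AA α c b h) (LatHAux.BB α c) (rows_ne hsp h)
    (recession hs hb hli hh)
  refine ⟨V, fun δ hδ => ?_⟩
  obtain ⟨a, ha0, ha⟩ := hδ
  refine (hV (LatHAux.GG α c h δ a)).congr fun N => ?_
  rw [← image_eq hb hsp h ha0 ha N, Set.ncard_image_of_injective _ (FF_inj hli a),
    Fintype.card_sum, Fintype.card_fin, ← hr]

end Pool.Agent.STS.Cy
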