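import Pool.Agent.P.MP_bb7f8f_gt.Q2.Base

/-!
Lower bound for the number of framed surfaces with `k` cylinders by double counting.
-/

set_option linter.unusedSectionVars false

namespace Pool.Agent.STS.Cy
open Equiv Finset Filter Topology

namespace LowAux
open StructUp

variable {H : Type} {σ : Perm H} {N k : ℕ}

/-- the framed surface transported along `g` -/
def cj (g : Perm (XS N)) (T : Tri H N) : Tri H N :=
  (g * T.1 * g⁻¹, g * T.2.1 * g⁻¹, fun x => g (T.2.2 x))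

variable {g g' : Perm (XS N)} {T : Tri H N}

theorem cj_a (y : XS N) : (cj g T).1 (g y) = g (T.1 y) := by
  simp [cj]

theorem cj_f (y : XS N) : (cj g T).2.1 (g y) = g (T.2.1 y) := by
  simp [cj]

theorem cj_th (x : H) : (cj g T).2.2 x = g (T.2.2 x) := rfl

theorem cj_fpow (m : ℕ) (y : XS N) : ((cj g T).2.1 ^ m) (g y) = g ((T.2.1 ^ m) y) := by
  induction m with
  | zero => rfl
  | succ m ih => rw [pow_succ_app, pow_succ_app, ih, cj_f]

theorem g_io (hg : g * io N = io N * g) (y : XS N) : io N (g y) = g (io N y) :=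
  (SymA.comm_apply hg y).symm

theorem cj_dn (hg : g * io N = io N * g) (y : XS N) : dn (cj g T) (g y) = g (dn T y) := by
  rw [dn_apply, dn_apply, g_io hg, cj_a]

theorem cj_dpow (hg : g * io N = io N * g) (m : ℕ) (y : XS N) :
    (dn (cj g T) ^ m) (g y) = g ((dn T ^ m) y) := by
  induction m with
  | zero => rfl
  | succ m ih => rw [pow_succ_app, pow_succ_app, ih, cj_dn hg]

theorem cj_range (y : XS N) : g y ∈ Set.range (cj g T).2.2 ↔ y ∈ Set.range T.2.2 := by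
  constructor
  · rintro ⟨x, hx⟩
    exact ⟨x, g.injective hx⟩
  · rintro ⟨x, rfl⟩
    exact ⟨x, rfl⟩

theorem cj_top (y : XS N) : Top (cj g T) (g y) ↔ Top T y := by
  constructor
  · rintro ⟨x, hx⟩
    obtain ⟨n, hn⟩ := hx.exists_nat_pow_eq
    rw [cj_fpow, cj_th] at hn
    exact ⟨x, n, by simpa using g.injective hn⟩
  · rintro ⟨x, hx⟩
    obtain ⟨n, hn⟩ := hx.exists_nat_pow_eq
    refine ⟨x, n, ?_⟩
    rw [zpow_natCast, cj_fpow, cj_th, hn]

theorem cj_isFr (hg : g * io N = io N * g) (hT : IsFr σ T) : IsFr σ (cj g T) := by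
  refine ⟨fun x => ?_, fun x => ?_, fun x => ?_, fun x => ?_, fun x y => ?_, ?_, fun h => ?_,
    fun x hx => ?_⟩
  · obtain ⟨x, rfl⟩ := g.surjective x
    rw [cj_a, cj_a, hT.aa]
  · obtain ⟨x, rfl⟩ := g.surjective x
    rw [cj_a]
    exact fun h => hT.ane x (g.injective h)
  · obtain ⟨x, rfl⟩ := g.surjective x
    rw [cj_f, g_io hg, cj_f, g_io hg, hT.ff]
  · obtain ⟨x, rfl⟩ := g.surjective x
    rw [cj_f, g_io hg]
    exact fun h => hT.fne x (g.injective h)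
  · obtain ⟨x, rfl⟩ := g.surjective x
    obtain ⟨y, rfl⟩ := g.surjective y
    induction hT.conn x y with
    | rel p q h =>
      refine Relation.EqvGen.rel _ _ ?_
      rcases h with rfl | rfl | rfl
      · exact Or.inl (g_io hg p).symm
      · exact Or.inr (Or.inl (cj_a p).symm)
      · exact Or.inr (Or.inr (cj_f p).symm)
    | refl p => exact Relation.EqvGen.refl _
    | symm p q _ ih => exact ih.symm
    | trans p q r _ _ ih1 ih2 => exact Relation.EqvGen.trans _ _ _ ih1 ih2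
  · exact g.injective.comp hT.inj
  · rw [cj_th, cj_th, cj_a, cj_f, hT.eqv]
  · obtain ⟨x, rfl⟩ := g.surjective x
    rw [cj_range] at hx
    rw [cj_a, cj_f, cj_a, cj_f, (hT.reg x hx).1]
    exact ⟨rfl, fun h => (hT.reg x hx).2 (g.injective h)⟩

theorem cj_inj [Nonempty H] (hg : g * io N = io N * g) (hg' : g' * io N = io N * g')
    (hT : IsFr σ T) (h : cj g T = cj g' T) : g = g' := by
  have key : ∀ p q, Relation.EqvGen (fun p q => q = io N p ∨ q = T.1 p ∨ q = T.2.1 p) p q →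
      (g p = g' p ↔ g q = g' q) := by
    intro p q hpq
    induction hpq with
    | rel p q hpq =>
      rcases hpq with rfl | rfl | rfl
      · rw [← g_io hg, ← g_io hg', (io N).injective.eq_iff]
      · rw [← cj_a (g := g), ← cj_a (g := g'), h, (cj g' T).1.injective.eq_iff]
      · rw [← cj_f (g := g), ← cj_f (g := g'), h, (cj g' T).2.1.injective.eq_iff]
    | refl p => rfl
    | symm p q _ ih => exact ih.symm
    | trans p q r _ _ ih1 ih2 => exact ih1.trans ih2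
  ext1 z
  refine (key (T.2.2 (Classical.arbitrary H)) z (hT.conn _ _)).1 ?_
  rw [← cj_th, ← cj_th, h]

variable [Fintype H] [Nonempty H] {δ δ' : Datum H k}

theorem cj_real (hg : g * io N = io N * g) (hr : Realizes σ T δ) : Realizes σ (cj g T) δ := by
  refine ⟨fun x => ?_, fun x => ?_, fun x i h0 hi => ?_, fun x m j h0 hj => ?_, fun i s m => ?_,
    fun x m => ?_⟩
  · rw [cj_th, cj_th, cj_fpow, cj_a, hr.r1]
  · rw [cj_th, cj_th, cj_fpow, hr.r2]
  · rw [cj_th, cj_fpow, cj_range]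
    exact hr.r3 x i h0 hi
  · rw [cj_th, cj_fpow, cj_dpow hg, cj_top]
    exact hr.r4 x m j h0 hj
  · rw [cj_th, cj_th, cj_fpow, cj_dpow hg, g_io hg, cj_fpow, cj_fpow, hr.r5]
  · rw [cj_th, cj_fpow, g.injective.eq_iff]
    exact hr.r6 x m

theorem pre (hd : IsDat σ N δ) : Pre σ δ := ⟨hd.lab, hd.pos, hd.hpos, hd.tlt⟩

theorem ell_eq (hd : IsDat σ N δ) (hd' : IsDat σ N δ') (hr : Realizes σ T δ)
    (hr' : Realizes σ T δ') : δ.ℓ = δ'.ℓ := by
  funext x
  refine le_antisymm (SymA.ell_le hr (hd'.pos x) ?_) (SymA.ell_le hr' (hd.pos x) ?_)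
  · rw [hr'.r2]; exact ⟨_, rfl⟩
  · rw [hr.r2]; exact ⟨_, rfl⟩

theorem al_eq (hT : IsFr σ T) (hd : IsDat σ N δ) (hd' : IsDat σ N δ') (hr : Realizes σ T δ)
    (hr' : Realizes σ T δ') : δ.α = δ'.α := by
  ext1 x
  apply hT.inj
  rw [hr.r1, hr'.r1, ell_eq hd hd' hr hr']

theorem ht_eq (hT : IsFr σ T) (hd : IsDat σ N δ) (hr : Realizes σ T δ) (x : H) :
    ht T (T.2.2 x) = δ.h (δ.c x).1 := by
  obtain ⟨m, hm⟩ := co_th (N := N) (pre hd) x
  refine ret_eq _ (top_of_mem ⟨x, rfl⟩) (hd.hpos _) ?_ fun i h1 h2 => ?_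
  · rw [hm T hr]
    exact SymA.top_h hT hd hr (δ.c x).1 (δ.c x).2 m
  · exact hr.r4 x 0 i h1 h2

theorem dat_eq (hT : IsFr σ T) (hd : IsDat σ N δ) (hd' : IsDat σ N δ') (hr : Realizes σ T δ)
    (hr' : Realizes σ T δ') (hc : δ.c = δ'.c) : δ = δ' := by
  have h1 := ell_eq hd hd' hr hr'
  have h2 := al_eq hT hd hd' hr hr'
  have hb : δ.bs = δ'.bs := by
    funext a
    rw [Datum.bs, Datum.bs, hc]
  have hw : δ.w = δ'.w := by
    funext i
    rw [Datum.w, Datum.w, hc, h1]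
  have h3 : δ.h = δ'.h := by
    funext i
    have e1 := ht_eq hT hd hr (δ.bs (i, true))
    have e2 := ht_eq hT hd' hr' (δ'.bs (i, true))
    rw [SymA.c_bs hd] at e1
    rw [SymA.c_bs hd', ← hb] at e2
    exact e1.symm.trans e2
  have h4 : δ.t = δ'.t := by
    funext i
    have e1 := hr.r5 i true 0
    have e2 := hr'.r5 i true 0
    rw [← hb, ← h3, e1] at e2
    have e3 := SymA.modEq_of_pow (hr.r6 (δ.bs (i, !true))) e2
    rw [SymA.c_bs hd] at e3
    have e4 := hd'.tlt i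
    rw [← hw] at e4
    exact Nat.ModEq.eq_of_lt_of_lt e3 (hd.tlt i) e4
  obtain ⟨a, c, l, h, t⟩ := δ
  obtain ⟨a', c', l', h', t'⟩ := δ'
  simp only at h1 h2 h3 h4 hc
  rw [h1, h2, h3, h4, hc]

theorem exists_rel (hT : IsFr σ T) (hd : IsDat σ N δ) (hd' : IsDat σ N δ') (hr : Realizes σ T δ)
    (hr' : Realizes σ T δ') : ∃ u : Perm (XS k), u * io k = io k * u ∧ δ'.c = u ∘ δ.c := by
  have h2 := al_eq hT hd hd' hr hr'
  have hu : ∀ x, δ'.c (δ.bs (δ.c x)) = δ'.c x := fun x => by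
    rw [hd'.lab.1, ← h2, ← hd.lab.1, SymA.c_bs hd]
  have hs : Function.Surjective fun a => δ'.c (δ.bs a) := fun b => by
    obtain ⟨x, rfl⟩ := hd'.lab.2 b
    exact ⟨δ.c x, hu x⟩
  refine ⟨Equiv.ofBijective _ (Finite.surjective_iff_bijective.1 hs), ?_,
    funext fun x => (hu x).symm⟩
  ext1 ⟨i, s⟩
  change δ'.c (δ.bs (i, !s)) = io k (δ'.c (δ.bs (i, s)))
  obtain ⟨m, hm⟩ := co_th (N := N) (pre hd') (δ.bs (i, s))
  have hm := hm T hr'
  have e1 := ht_eq hT hd hr (δ.bs (i, s))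
  have e2 := ht_eq hT hd' hr' (δ.bs (i, s))
  rw [SymA.c_bs hd] at e1
  obtain ⟨⟨j, s'⟩, hj⟩ : ∃ a, δ'.c (δ.bs (i, s)) = a := ⟨_, rfl⟩
  rw [hj] at hm e2 ⊢
  have e3 := hr'.r5 j s' m
  have e4 := hr.r5 i s 0
  have e5 : δ'.h j = δ.h i := e2.symm.trans e1
  rw [pow_zero, Perm.one_apply, Perm.one_apply] at e4
  rw [← hm, e5, e4, ← pow_add_app] at e3
  have e6 : T.2.1.SameCycle (T.2.2 (δ.bs (i, !s))) (T.2.2 (δ'.bs (j, !s'))) := by
    rw [← Perm.sameCycle_pow_left (n := m + δ.t i), e3, Perm.sameCycle_pow_left]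
  obtain ⟨n, hn⟩ := e6.exists_nat_pow_eq
  rw [(hd'.lab.1 _ _).2 (SymA.same_face hT hd' hr' n _ _ hn), SymA.c_bs hd', io_apply]

end LowAux

open LowAux in
theorem pLow (hCons : SCons) (hReal : SReal) : SLow := by
  intro H J _ _ _ _ _ σ π v hc k N
  let DD := {δ : Datum H k // IsDat σ N δ ∧ Conn (δ.α, δ.c)}
  let TT := {T : Tri H N // IsFr σ T ∧ xcyl T = k}
  let PP := {p : TT × DD // Realizes σ p.1.1 p.2.1}
  have hfin : Finite DD :=
    ((dat_finite σ k N).subset fun δ (h : IsDat σ N δ ∧ Conn (δ.α, δ.c)) => h.1).to_subtype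
  have hD : datc σ k N (fun δ => Conn (δ.α, δ.c)) = Nat.card DD :=
    (Nat.card_coe_set_eq _).symm
  choose T₀ hT₀ hR₀ using fun δ : DD => hCons H J σ π v hc k N δ.1 δ.2.1 δ.2.2
  have h1 : Nat.card ({g : Perm (XS N) // g * io N = io N * g} × DD) ≤ Nat.card PP := by
    refine Nat.card_le_card_of_injective (fun q => (⟨(⟨cj q.1.1 (T₀ q.2), cj_isFr q.1.2 (hT₀ _),
      (hReal H σ k N _ q.2.1 (cj_isFr q.1.2 (hT₀ _)) q.2.2.1 (cj_real q.1.2 (hR₀ _))).1⟩, q.2),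
      cj_real q.1.2 (hR₀ _)⟩ : PP)) ?_
    rintro ⟨g, δ⟩ ⟨g', δ'⟩ h
    obtain rfl : δ = δ' := congrArg (fun p : PP => p.1.2) h
    have h2 : cj g.1 (T₀ δ) = cj g'.1 (T₀ δ) := congrArg (fun p : PP => p.1.1.1) h
    rw [Subtype.ext (cj_inj g.2 g'.2 (hT₀ δ) h2)]
  have h3 : ∀ T : TT, ∃ u : DD → {u : Perm (XS k) // u * io k = io k * u},
      ∀ δ δ' : DD, Realizes σ T.1 δ.1 → Realizes σ T.1 δ'.1 → u δ = u δ' → δ = δ' := by
    intro T
    by_cases h : ∃ δ₀ : DD, Realizes σ T.1 δ₀.1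
    · obtain ⟨δ₀, h₀⟩ := h
      have h4 : ∀ δ : DD, ∃ u : {u : Perm (XS k) // u * io k = io k * u},
          Realizes σ T.1 δ.1 → δ.1.c = u.1 ∘ δ₀.1.c := by
        intro δ
        by_cases hδ : Realizes σ T.1 δ.1
        · obtain ⟨u, hu, hu'⟩ := exists_rel T.2.1 δ₀.2.1 δ.2.1 h₀ hδ
          exact ⟨⟨u, hu⟩, fun _ => hu'⟩
        · exact ⟨⟨1, by simp⟩, fun h => absurd h hδ⟩
      choose u hu using h4
      refine ⟨u, fun δ δ' hδ hδ' e => Subtype.ext (dat_eq T.2.1 δ.2.1 δ'.2.1 hδ hδ' ?_)⟩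
      rw [hu δ hδ, hu δ' hδ', e]
    · exact ⟨fun _ => ⟨1, by simp⟩, fun δ _ hδ => absurd ⟨δ, hδ⟩ h⟩
  choose u hu using h3
  have h5 : Nat.card PP ≤ Nat.card ({u : Perm (XS k) // u * io k = io k * u} × TT) := by
    refine Nat.card_le_card_of_injective (fun p => (u p.1.1 p.1.2, p.1.1)) ?_
    rintro ⟨⟨T, δ⟩, h⟩ ⟨⟨T', δ'⟩, h'⟩ e
    obtain rfl : T = T' := congrArg Prod.snd e
    obtain rfl : δ = δ' := hu T δ δ' h h' (congrArg Prod.fst e)
    rfl
  have h6 := h1.trans h5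
  rwa [Nat.card_prod, Nat.card_prod, cent, cent, ← hD] at h6

end Pool.Agent.STS.Cy
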