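import Pool.Agent.P.MP_bb7f8f_gt.Q2.Base

/-!
The last step: from the asymptotics of the weights to the statement on surfaces.
-/

namespace Pool.Agent.STS.Cy
open Equiv Finset Filter Topology

theorem range_cut {D N : ℕ} (hN : D ≤ N) (a : ℕ → ℝ) (ha : ∀ k, D < k → a k = 0) (T : ℝ) (t : ℂ) :
    ∑ k ∈ range (N + 1), ((a k / T : ℝ) : ℂ) * t ^ k =
      ∑ k ∈ range (D + 1), ((a k / T : ℝ) : ℂ) * t ^ k := by
  refine (Finset.sum_subset (range_subset_range.2 (by omega)) fun k _ hk => ?_).symm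
  rw [ha k (by rw [mem_range] at hk; omega)]
  simp

theorem near {D : ℕ} (hD : 1 ≤ D) (T S A : ℕ → ℝ) {F C η : ℝ} (hF : 0 < F) (hη : 0 ≤ η)
    (hS : egr S D 2 ≤ F / (D : ℝ) ^ 5) (hη' : (2 * D + 1) * η * 2 ^ (D + 1) ≤ F / (D : ℝ) ^ 3)
    (hA : ∀ k ∈ range (D + 1), |A k - T k / (2 ^ k * k.factorial)| ≤
      2 * D * (S k / (2 ^ k * k.factorial) + η) + η) {t : ℂ} (ht : ‖t‖ ≤ 2)
    (hT : ‖egf T D t - (F : ℝ) * GG D t‖ ≤ C * F * (D : ℝ) ^ (t.re / 2 - 2)) :
    ‖∑ k ∈ range (D + 1), ((A k / F : ℝ) : ℂ) * t ^ k - GG D t‖ ≤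
      (C + 3) * (D : ℝ) ^ (t.re / 2 - 2) := by
  have hD' : (1 : ℝ) ≤ D := by exact_mod_cast hD
  have e : ∑ k ∈ range (D + 1), ((A k / F : ℝ) : ℂ) * t ^ k - GG D t =
      ((egf T D t - (F : ℝ) * GG D t) + ∑ k ∈ range (D + 1),
        ((A k - T k / (2 ^ k * k.factorial) : ℝ) : ℂ) * t ^ k) / (F : ℝ) := by
    have : ((F : ℝ) : ℂ) ≠ 0 := by exact_mod_cast hF.ne'
    rw [eq_div_iff this, sub_mul, Finset.sum_mul, egf, sub_add_eq_add_sub,
      ← Finset.sum_add_distrib, mul_comm (GG D t)]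
    congr 1
    refine Finset.sum_congr rfl fun k _ => ?_
    push_cast
    field_simp
    ring
  have h1 : ‖∑ k ∈ range (D + 1), ((A k - T k / (2 ^ k * k.factorial) : ℝ) : ℂ) * t ^ k‖ ≤
      2 * D * egr S D 2 + (2 * D + 1) * η * 2 ^ (D + 1) := by
    have g : ∑ k ∈ range (D + 1), (2 : ℝ) ^ k ≤ 2 ^ (D + 1) := by
      rw [geom_sum_eq (by norm_num)]; norm_num
    refine (norm_sum_le _ _).trans (le_trans (Finset.sum_le_sum (g := fun k =>
      2 * D * (S k * 2 ^ k / (2 ^ k * k.factorial)) + (2 * D + 1) * η * 2 ^ k) fun k hk => ?_) ?_)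
    · rw [norm_mul, norm_pow, Complex.norm_real, Real.norm_eq_abs]
      refine (mul_le_mul (hA k hk) (pow_le_pow_left₀ (norm_nonneg _) ht k) (by positivity)
        ((abs_nonneg _).trans (hA k hk))).trans (le_of_eq ?_)
      ring
    · rw [Finset.sum_add_distrib, ← Finset.mul_sum, ← Finset.mul_sum, egr]
      gcongr
  have h2 : 1 / (D : ℝ) ^ 3 ≤ (D : ℝ) ^ (t.re / 2 - 2) := by
    have : -2 ≤ t.re := by
      have := (abs_le.1 ((Complex.abs_re_le_norm t).trans ht)).1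
      linarith
    rw [one_div, ← Real.rpow_natCast, ← Real.rpow_neg (by positivity)]
    exact Real.rpow_le_rpow_of_exponent_le hD' (by push_cast; linarith)
  have h3 : 2 * D * egr S D 2 ≤ 2 * (F / (D : ℝ) ^ 3) := by
    refine (mul_le_mul_of_nonneg_left hS (by positivity)).trans ?_
    rw [mul_assoc]
    refine mul_le_mul_of_nonneg_left ?_ (by norm_num)
    rw [← mul_div_assoc, div_le_div_iff₀ (by positivity) (by positivity)]
    have : (D : ℝ) ^ 4 ≤ (D : ℝ) ^ 5 := pow_le_pow_right₀ hD' (by norm_num)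
    nlinarith
  rw [e, norm_div, Complex.norm_real, Real.norm_eq_abs, abs_of_pos hF, div_le_iff₀ hF]
  refine (norm_add_le _ _).trans ?_
  have h4 := mul_le_mul_of_nonneg_left h2 hF.le
  rw [mul_one_div] at h4
  linarith

theorem main (hB : SBoot) (hS : SSy) (hM : SMass) (hW : SSand) (hU : SSum) (hF : SFin)
    (M d₀ : ℕ) (r : ℝ) (hr : r < 2) :
    ∃ C : ℝ, ∀ (g n : ℕ) (κ : Fin n → ℤ), 0 < n → (∀ j, Odd (κ j)) → (∀ j, -1 ≤ κ j) →
      #{j | κ j = -1} ≤ M → ∑ j, κ j = 4 * (g : ℤ) - 4 → ∀ d : ℕ, d + 2 = 2 * g + n →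
      ∀ F : ∀ m, Perm (Side m) → Prop, (∀ m γ, F m γ → InStratum κ γ) →
      (d₀ ≤ d → ∀ m γ, InStratum κ γ → NoAut γ → F m γ) →
      ∀ᶠ N : ℕ in atTop, ∀ t : ℂ, ‖t‖ ≤ r →
        ‖∑ k ∈ range (N + 1), (((numClasses (fun m γ => F m γ ∧ numCyl γ = k) N : ℝ) /
          numClasses F N : ℝ) : ℂ) * t ^ k - mt d t‖ ≤ C / d * ‖mt d t‖ ∧
        ‖∑ k ∈ range (N + 1), ((mass (fun m γ => F m γ ∧ numCyl γ = k) N /
          mass F N : ℝ) : ℂ) * t ^ k - mt d t‖ ≤ C / d * ‖mt d t‖ := by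
  obtain ⟨C₁, D₁, hB⟩ := hB M
  obtain ⟨D₂, hS⟩ := hS M
  obtain ⟨hF1, hF2⟩ := hF r hr
  obtain ⟨C₂, D₃, hF1⟩ := hF1 (C₁ + 3)
  choose! C₃ hF2 using hF2
  refine ⟨|C₂| + ∑ D ∈ range (D₁ + D₂ + D₃ + d₀), |C₃ D|,
    fun g n κ hn hodd hm hM' hs D hD F hF hF' => ?_⟩
  set v : Fin n → ℕ := fun j => (κ j + 2).toNat with hv
  have hκ : ∀ j, (v j : ℤ) = κ j + 2 := fun j => Int.toNat_of_nonneg (by linarith [hm j])
  have hvo : ∀ j, Odd (v j) := fun j => by
    rw [← Int.odd_coe_nat, hκ]; exact (hodd j).add_even even_two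
  have hc := cyc_model v hvo
  set σ := Perm.sigmaCongrRight fun j => finRotate (v j)
  have hcard : Fintype.card (Σ j, Fin (v j)) = 2 * D := by
    rw [hc.card_eq]
    have : ((∑ j, v j : ℕ) : ℤ) = 4 * g - 4 + 2 * n := by
      push_cast
      simp only [hκ, Finset.sum_add_distrib, hs]
      simp [mul_comm]
    omega
  have hev : Even D := by
    have h1 : Even (∑ j, v j) := by rw [← hc.card_eq, hcard]; exact even_two_mul D
    rw [Finset.even_sum_iff_even_card_odd, Finset.filter_true_of_mem fun j _ => hvo j,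
      Finset.card_univ, Fintype.card_fin] at h1
    obtain ⟨r, hr⟩ := h1
    exact ⟨g + r - 1, by omega⟩
  have hV : Vx σ Sigma.fst v D M := ⟨hc, hcard, by
    refine le_trans (le_of_eq (congrArg _ (Finset.filter_congr fun j _ => ?_))) hM'
    have := hκ j; omega⟩
  have hD1 : 1 ≤ D := by
    have h1 : Nonempty (Σ j, Fin (v j)) := ⟨⟨⟨0, hn⟩, ⟨0, (hvo _).pos⟩⟩⟩
    have := Fintype.card_pos_iff.2 h1
    omega
  have hD' : (0 : ℝ) < D := by exact_mod_cast hD1
  obtain ⟨hcy, hM⟩ := hM _ n κ σ _ v D M hV hD1 hκ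
  have hU := hU F D fun m γ h => (hcy m γ (hF m γ h)).2
  have hz : ∀ k N, k = 0 ∨ D < k →
      (numClasses (fun m γ => F m γ ∧ numCyl γ = k) N : ℝ) = 0 ∧
      mass (fun m γ => F m γ ∧ numCyl γ = k) N = 0 := fun k N hk => by
    have he : ∀ m, IsEmpty {γ : Perm (Side m) // F m γ ∧ numCyl γ = k} := fun m =>
      ⟨fun γ => by have := hcy m γ.1 (hF m _ γ.2.1); have := γ.2.2; omega⟩
    constructor
    · rw [numClasses, Finset.sum_eq_zero, Nat.cast_zero]
      intro m _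
      haveI := he m
      haveI : IsEmpty (Quot fun a b : {γ : Perm (Side m) // F m γ ∧ numCyl γ = k} =>
        Iso a.1 b.1) := ⟨fun q => Quot.inductionOn q fun a => isEmptyElim a⟩
      exact Nat.card_of_isEmpty
    · refine Finset.sum_eq_zero fun m _ => ?_
      haveI := he m
      rw [Nat.card_of_isEmpty, Nat.cast_zero, zero_div]
  have hmass : ∀ (P : ∀ m, Perm (Side m) → Prop) N, 0 ≤ mass P N := fun P N =>
    Finset.sum_nonneg fun m _ => by positivity
  have hsum : 0 ≤ ∑ D ∈ range (D₁ + D₂ + D₃ + d₀), |C₃ D| :=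
    Finset.sum_nonneg fun _ _ => abs_nonneg _
  by_cases hbig : D₁ + D₂ + D₃ + d₀ ≤ D
  · have hB := hB D (by omega) hev _ _ σ _ v hV
    have hS := hS D (by omega) _ _ σ _ v hV
    have hW := hW _ n κ σ _ v D M hV hD1 hκ F hF (hF' (by omega))
    have hDF := DF_pos {D}
    set η : ℝ := DF {D} / (D : ℝ) ^ 3 / ((2 * D + 1) * 2 ^ (D + 1)) with hη
    have hη0 : 0 < η := by positivity
    have hη1 : (2 * D + 1) * η * 2 ^ (D + 1) ≤ DF {D} / (D : ℝ) ^ 3 := by
      rw [hη]; exact le_of_eq (by field_simp)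
    have e1 := (Filter.eventually_all_finset (range (D + 1))).2 fun k _ =>
      (Metric.tendsto_nhds.1 (hM k).1) η hη0
    have e2 := (Filter.eventually_all_finset (range (D + 1))).2 fun k _ => (hM k).2 η hη0
    filter_upwards [e1, e2, eventually_ge_atTop D] with N e1 e2 hN t ht
    have hN' : (0 : ℝ) < N := by exact_mod_cast (by omega : 0 < N)
    have z := zc_pos σ
    have key : ∀ a : ℕ → ℝ, a 0 = 0 → (∀ k, D < k → a k = 0) →
        (∀ k, |a k - mass (fun _ γ => InStratum κ γ ∧ numCyl γ = k) N| ≤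
          2 * D * mass (fun _ γ => (InStratum κ γ ∧ numCyl γ = k) ∧ ¬ NoAut γ) N) →
        ‖∑ k ∈ range (N + 1), ((a k / ∑ j ∈ range (D + 1), a j : ℝ) : ℂ) * t ^ k - mt D t‖ ≤
          (|C₂| + ∑ D ∈ range (D₁ + D₂ + D₃ + d₀), |C₃ D|) / D * ‖mt D t‖ := by
      intro a a0 a1 a2
      set Z : ℝ := (D.factorial : ℝ) * zc σ / (N : ℝ) ^ D with hZ
      have hZ0 : 0 < Z := by positivity
      have h := hF1 D (by omega) (fun k => Z * a k / DF {D}) (by simp [a0]) (fun t ht =>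
        near hD1 (TT σ) (SY σ) (fun k => Z * a k) hDF hη0.le hS hη1 (fun k hk => by
          have b1 := e1 k hk
          have b2 := e2 k hk
          have b3 := mul_le_mul_of_nonneg_left (a2 k) hZ0.le
          rw [Real.dist_eq] at b1
          rw [← abs_of_pos hZ0, ← abs_mul, abs_of_pos hZ0, mul_sub] at b3
          rw [mul_div_right_comm, ← hZ] at b1 b2
          have b4 := mul_le_mul_of_nonneg_left b2 (by positivity : (0 : ℝ) ≤ 2 * D)
          have b5 := abs_sub_le (Z * a k)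
            (Z * mass (fun _ γ => InStratum κ γ ∧ numCyl γ = k) N)
            (TT σ k / (2 ^ k * k.factorial))
          linarith) ht (hB t ht)) t ht
      rw [range_cut hN a a1]
      have e : ∀ k, Z * a k / DF {D} / ∑ j ∈ range (D + 1), Z * a j / DF {D} =
          a k / ∑ j ∈ range (D + 1), a j := fun k => by
        rw [← Finset.sum_div, ← Finset.mul_sum, div_div_div_cancel_right₀ hDF.ne',
          mul_div_mul_left _ _ hZ0.ne']
      simp only [e] at h
      refine h.trans ?_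
      gcongr
      linarith [le_abs_self C₂]
    constructor
    · have := key (fun k => numClasses (fun m γ => F m γ ∧ numCyl γ = k) N)
        (hz 0 N (Or.inl rfl)).1 (fun k hk => (hz k N (Or.inr hk)).1) fun k => (hW k N).1
      rwa [← Nat.cast_sum, ← (hU N).1] at this
    · have := key (fun k => mass (fun m γ => F m γ ∧ numCyl γ = k) N)
        (hz 0 N (Or.inl rfl)).2 (fun k hk => (hz k N (Or.inr hk)).2) fun k => (hW k N).2
      rwa [← (hU N).2] at this
  · filter_upwards [eventually_ge_atTop D] with N hN t ht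
    have key : ∀ a : ℕ → ℝ, a 0 = 0 → (∀ k, D < k → a k = 0) → (∀ k, 0 ≤ a k) →
        ‖∑ k ∈ range (N + 1), ((a k / ∑ j ∈ range (D + 1), a j : ℝ) : ℂ) * t ^ k - mt D t‖ ≤
          (|C₂| + ∑ D ∈ range (D₁ + D₂ + D₃ + d₀), |C₃ D|) / D * ‖mt D t‖ := by
      intro a a0 a1 a2
      rw [range_cut hN a a1]
      have hT : 0 ≤ ∑ j ∈ range (D + 1), a j := Finset.sum_nonneg fun j _ => a2 j
      refine (hF2 D hD1 (fun k => a k / ∑ j ∈ range (D + 1), a j) (by simp [a0]) (fun k => ?_)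
        t ht).trans ?_
      · rw [abs_of_nonneg (div_nonneg (a2 k) hT)]
        refine div_le_one_of_le₀ ?_ hT
        by_cases hk : D < k
        · rw [a1 k hk]; exact hT
        · exact Finset.single_le_sum (fun j _ => a2 j) (mem_range.2 (by omega))
      · have := Finset.single_le_sum (f := fun D => |C₃ D|) (fun _ _ => abs_nonneg _)
          (mem_range.2 (not_le.1 hbig))
        gcongr
        linarith [le_abs_self (C₃ D), abs_nonneg C₂]
    constructor
    · have := key (fun k => numClasses (fun m γ => F m γ ∧ numCyl γ = k) N)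
        (hz 0 N (Or.inl rfl)).1 (fun k hk => (hz k N (Or.inr hk)).1) fun k => by positivity
      rwa [← Nat.cast_sum, ← (hU N).1] at this
    · have := key (fun k => mass (fun m γ => F m γ ∧ numCyl γ = k) N)
        (hz 0 N (Or.inl rfl)).2 (fun k hk => (hz k N (Or.inr hk)).2) fun k => hmass _ N
      rwa [← (hU N).2] at this

end Pool.Agent.STS.Cy
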