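import Pool.Agent.P.MP_bb7f8f_gt.Q2.Base

set_option linter.unusedSectionVars false

namespace Pool.Agent.STS.Cy
open Equiv Finset Filter Topology

namespace MassAux
open Dart

variable {H : Type} [Fintype H] [DecidableEq H] {σ : Perm H} {n : ℕ} {κ : Fin n → ℤ}
  {ρ : H → Fin n} {u : Fin n → ℕ} {D : ℕ}

theorem count_ge (hc : Cyc σ ρ u) (hκ : ∀ j, (u j : ℤ) = κ j + 2) (N : ℕ)
    (P : Perm (Side N) → Prop) (Q : Tri H N → Prop)
    (hPQ : ∀ γ a f θ, Corr 1 γ a f → IsFr σ (a, f, θ) → Q (a, f, θ) → P γ) :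
    Nat.card {T : Tri H N // IsFr σ T ∧ Q T} ≤
      zc σ * Nat.card {γ : Perm (Side N) // InStratum κ γ ∧ P γ} := by
  choose γ hγ using fun a f : Perm (XS N) => exists_glue 1 a f
  choose θ₀ hθ₀ using fun (a f : Perm (XS N)) (h : ∃ θ, IsFr σ (a, f, θ)) => h
  choose g hg hg' using fun T : {T : Tri H N // IsFr σ T ∧ Q T} =>
    frame_diff hc (hθ₀ T.1.1 T.1.2.1 ⟨T.1.2.2, T.2.1⟩) T.2.1
  unfold zc
  rw [← Nat.card_prod]
  refine Nat.card_le_card_of_injective (fun T => (⟨g T, hg T⟩,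
    ⟨γ T.1.1 T.1.2.1, stratum_of_frame hc hκ (hγ _ _) T.2.1,
      hPQ _ _ _ T.1.2.2 (hγ _ _) T.2.1 T.2.2⟩)) ?_
  rintro ⟨⟨a, f, θ⟩, hT⟩ ⟨⟨a', f', θ'⟩, hT'⟩ e
  simp only [Subtype.mk.injEq, Prod.mk.injEq] at e
  obtain ⟨rfl, rfl⟩ := (hγ a f).right_unique (e.2 ▸ hγ a' f')
  have e1 := hg' ⟨_, hT⟩
  rw [e.1] at e1
  exact Subtype.ext (Prod.ext rfl (Prod.ext rfl (e1.trans (hg' ⟨_, hT'⟩).symm)))

theorem sum_single (k N : ℕ) (Q : ∀ k, Datum H k → Prop) :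
    ∑ k' ∈ range (D + 1), (∑ m ∈ range (N + 1),
      (datc σ k' m (fun δ => k' = k ∧ Q k' δ) : ℝ)) / (2 ^ k' * k'.factorial) ≤
      (∑ m ∈ range (N + 1), (datc σ k m (Q k) : ℝ)) / (2 ^ k * k.factorial) := by
  have h0 : ∀ k', k' ≠ k → (∑ m ∈ range (N + 1),
      (datc σ k' m (fun δ => k' = k ∧ Q k' δ) : ℝ)) / (2 ^ k' * k'.factorial) = 0 := by
    intro k' hk
    simp [datc, hk]
  by_cases hk : k ∈ range (D + 1)
  · rw [Finset.sum_eq_single_of_mem k hk fun k' _ h => h0 k' h]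
    simp only [true_and, le_refl]
  · rw [Finset.sum_eq_zero fun k' hk' => h0 k' fun e => hk (e ▸ hk')]
    positivity

theorem up [Nonempty H] (hReal : SReal) (hc : Cyc σ ρ u) (hD : Fintype.card H = 2 * D) (k : ℕ)
    (B : ∀ m, Perm (Side m) → Prop) (F : ∀ m, Tri H m → Prop) (Q : ∀ k, Datum H k → Prop)
    (hB : ∀ m, Nat.card {γ // B m γ} * zc σ ≤
      Nat.card {T : Tri H m // IsFr σ T ∧ xcyl T = k ∧ F m T})
    (hP : ∀ m T k (δ : Datum H k), IsFr σ T → F m T → IsDat σ m δ → Realizes σ T δ →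
      Conn (δ.α, δ.c) → Q k δ) (N : ℕ) :
    mass B N * zc σ ≤ (∑ m ∈ range (N + 1), (datc σ k m (Q k) : ℝ)) / (2 ^ k * k.factorial) := by
  refine (mass_up hc hD B (fun m T => IsFr σ T ∧ xcyl T = k ∧ F m T)
    (fun k' δ => k' = k ∧ Q k' δ) hB (fun _ _ h => h.1) (fun m T k' δ h hd hr => ?_) N).trans
    (sum_single k N Q)
  obtain ⟨h1, h2⟩ := hReal H σ k' m T δ h.1 hd hr
  exact ⟨h1.symm.trans h.2.1, hP m T k' δ h.1 h.2.2 hd hr h2⟩

theorem exists_sym [Nonempty H] (hc : Cyc σ ρ u) {N k : ℕ} {T : Tri H N} {δ : Datum H k}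
    (hT : IsFr σ T) (hb : 1 < xautc T) (hd : IsDat σ N δ) (hr : Realizes σ T δ) :
    ∃ ψ : Perm H, ψ * σ = σ * ψ ∧ ψ * δ.α = δ.α * ψ ∧ (∀ x, ψ x ≠ x) ∧
      ∀ x, δ.ℓ (ψ x) = δ.ℓ x := by
  have hn : Nontrivial (SymA.aut T) := Finite.one_lt_card_iff_nontrivial.1 hb
  obtain ⟨g, hg⟩ := exists_ne (1 : SymA.aut T)
  obtain ⟨ψ, hψ⟩ := SymA.exists_psi hc hT g.2
  refine ⟨ψ, SymA.psi_sigma hT g.2 hψ, SymA.psi_alpha hc hT hd hr g.2 hψ, fun x hx => hg ?_,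
    SymA.psi_ell hc hT hd hr g.2 hψ⟩
  exact Subtype.ext (SymA.ext_of_conn hT g.2 (SymA.aut T).one_mem (y := T.2.2 x) (by
    rw [← hψ, hx]; rfl))

theorem one_lt_autc {N : ℕ} {γ : Perm (Side N)} (h : ¬ NoAut γ) : 1 < autc γ := by
  unfold NoAut at h
  push Not at h
  obtain ⟨g, h1, h2, h3⟩ := h
  refine Finite.one_lt_card_iff_nontrivial.2 ⟨⟨g, h1, h2⟩, ⟨1, ⟨by simp, fun x => Or.inl rfl⟩,
    by simp⟩, fun e => h3 (congrArg Subtype.val e)⟩

end MassAux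

open MassAux in
theorem pMass (hReal : SReal) (hLow : SLow) (hCorr : SCorr) (hDat : SDat) : SMass := by
  intro H _ _ n κ σ π v D M hV hD hκ
  have hc := hV.cyc
  have : Nonempty H := Fintype.card_pos_iff.1 (by rw [hV.card]; omega)
  refine ⟨fun m γ hγ => ?_, fun k => ⟨?_, fun η hη => ?_⟩⟩
  · obtain ⟨a, f, h⟩ := Dart.exists_corr 1 hγ.1
    obtain ⟨θ, hT⟩ := Dart.exists_frame hc hκ h hγ
    obtain ⟨k, c, hs, h1⟩ := StructUp.exists_dat hT
    obtain ⟨δ, -, hd, hr⟩ := h1 1 (by simp)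
    rw [hCorr.1 H _ σ π v hc m γ a f θ h hT, (hReal H σ k m _ δ hT hd hr).1]
    have h2 := Fintype.card_le_of_surjective c hs
    simp only [Fintype.card_prod, Fintype.card_fin, Fintype.card_bool, hV.card] at h2
    obtain ⟨x⟩ := ‹Nonempty H›
    exact ⟨(c x).1.pos, by omega⟩
  · have h1 : Tendsto _ _ _ := hDat H _ σ π v D M hV k fun _ => True
    refine (h1.div_const (2 ^ k * k.factorial : ℝ)).congr fun N => ?_
    have h2 := up hReal hc hV.card k (fun _ γ => InStratum κ γ ∧ numCyl γ = k)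
      (fun _ _ => True) (fun _ δ => Conn (δ.α, δ.c) ∧ True)
      (fun m => Dart.count_le hc hκ 1 _ _ fun γ a f θ h hT hP =>
        ⟨(hCorr.1 H _ σ π v hc m γ a f θ h hT).symm.trans hP, trivial⟩)
      (fun _ _ _ _ _ _ _ _ h => ⟨h, trivial⟩) N
    have h3 : (∑ m ∈ range (N + 1), (datc σ k m (fun δ => Conn (δ.α, δ.c) ∧ True) : ℝ)) /
        (2 ^ k * k.factorial) ≤ mass (fun _ γ => InStratum κ γ ∧ numCyl γ = k) N * zc σ := by
      rw [mass, Finset.sum_div, Finset.sum_mul]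
      refine Finset.sum_le_sum fun m _ => ?_
      have h4 := (hLow H _ σ π v hc k m).trans (Nat.mul_le_mul_left _
        (count_ge hc hκ m (fun γ => numCyl γ = k) (fun T => xcyl T = k)
          fun γ a f θ h hT hP => (hCorr.1 H _ σ π v hc m γ a f θ h hT).trans hP))
      rw [div_mul_eq_mul_div, div_le_div_iff₀ (by positivity) (by positivity)]
      simp only [and_true]
      have h5 : (2 : ℝ) ^ m * m.factorial * datc σ k m (fun δ => Conn (δ.α, δ.c)) ≤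
          2 ^ k * k.factorial *
            (zc σ * Nat.card {γ : Perm (Side m) // InStratum κ γ ∧ numCyl γ = k}) := by
        exact_mod_cast h4
      linarith
    have h4 := le_antisymm h2 h3
    rw [mul_assoc, mul_comm (zc σ : ℝ), h4]
    ring
  · have h1 : Tendsto _ _ _ := hDat H _ σ π v D M hV k (SymP σ)
    have h2 : SymB.Negl σ D k (fun δ => ∃ α : Perm H, ∃ c : H → Fin k × Bool, ∃ ψ : Perm H,
        δ.α = α ∧ δ.c = c ∧ (∀ x, δ.ℓ (ψ x) = δ.ℓ x) ∧ ¬ ∀ l ∈ Vsp α c, ∀ x, l (ψ x) = l x) :=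
      SymB.negl_exists fun α => SymB.negl_exists fun c => SymB.negl_exists fun ψ =>
        SymB.negl_fix hc hV.card α c ψ
    have hf : (0 : ℝ) < D.factorial := by positivity
    filter_upwards [h1.eventually (gt_mem_nhds (lt_add_of_pos_right _ (half_pos hη))),
      h2 (η / 2 / D.factorial) (by positivity), eventually_ge_atTop 1] with N a1 a2 a3
    have h3 := up hReal hc hV.card k
      (fun _ γ => (InStratum κ γ ∧ numCyl γ = k) ∧ ¬ NoAut γ) (fun _ T => 1 < xautc T)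
      (fun k δ => (Conn (δ.α, δ.c) ∧ SymP σ (δ.α, δ.c)) ∨
        ∃ α : Perm H, ∃ c : H → Fin k × Bool, ∃ ψ : Perm H,
        δ.α = α ∧ δ.c = c ∧ (∀ x, δ.ℓ (ψ x) = δ.ℓ x) ∧ ¬ ∀ l ∈ Vsp α c, ∀ x, l (ψ x) = l x)
      (fun m => by
        simp only [and_assoc]
        exact Dart.count_le hc hκ 1 _ _ fun γ a f θ h hT hP =>
          ⟨(hCorr.1 H _ σ π v hc m γ a f θ h hT).symm.trans hP.1,
            (one_lt_autc hP.2).trans_le (Dart.autc_le h θ)⟩)
      (fun m T k δ hT hF hd hr hcn => by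
        obtain ⟨ψ, b1, b2, b3, b4⟩ := exists_sym hc hT hF hd hr
        by_cases hs : ∀ l ∈ Vsp δ.α δ.c, ∀ x, l (ψ x) = l x
        · exact Or.inl ⟨hcn, ψ, b1, b2, b3, by rw [vo_eq_vsp]; exact hs⟩
        · exact Or.inr ⟨δ.α, δ.c, ψ, rfl, rfl, b4, hs⟩) N
    have h4 := Finset.sum_le_sum fun m (_ : m ∈ range (N + 1)) =>
      (Nat.cast_le (α := ℝ)).2 (SymB.datc_or (σ := σ) m
        (fun δ : Datum H k => Conn (δ.α, δ.c) ∧ SymP σ (δ.α, δ.c))
        fun δ => ∃ α : Perm H, ∃ c : H → Fin k × Bool, ∃ ψ : Perm H,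
        δ.α = α ∧ δ.c = c ∧ (∀ x, δ.ℓ (ψ x) = δ.ℓ x) ∧ ¬ ∀ l ∈ Vsp α c, ∀ x, l (ψ x) = l x)
    simp only [Nat.cast_add, Finset.sum_add_distrib] at h4
    have hN : (0 : ℝ) < (N : ℝ) ^ D := by positivity
    have hk : (1 : ℝ) ≤ 2 ^ k * k.factorial := by
      have : 1 ≤ 2 ^ k * k.factorial := Nat.succ_le_of_lt (by positivity)
      exact_mod_cast this
    have h5 := h3.trans (div_le_div_of_nonneg_right (h4.trans (add_le_add_right a2 _))
      (by positivity))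
    rw [div_lt_iff₀ hN] at a1
    rw [le_div_iff₀ (by positivity)] at h5
    have h6 := mul_le_mul_of_nonneg_left h5 hf.le
    have h7 : (D.factorial : ℝ) * (η / 2 / D.factorial * (N : ℝ) ^ D) = η / 2 * (N : ℝ) ^ D := by
      field_simp
    rw [mul_add, h7] at h6
    have h8 := mul_le_mul_of_nonneg_left hk (mul_pos hη hN).le
    rw [div_le_iff₀ hN, div_add' _ _ _ (by positivity), div_mul_eq_mul_div,
      le_div_iff₀ (by positivity), SY]
    linarith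

end Pool.Agent.STS.Cy
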