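import Pool.Agent.P.MP_bb7f8f_gt.Q2.Base

set_option linter.unusedSectionVars false

namespace Pool.Agent.STS.Cy
open Equiv Finset Filter Topology

namespace MidSAux

lemma arith {A D s w : ℕ} (hD : 1 ≤ D) (hs : 25 ≤ s) (hw : 2 * s + 1 ≤ w) (hA : A ^ 6 ≤ D)
    (h1 : 81 * w ^ 40 ≤ D) :
    A * ((2 * D * (2 * s + 1) + 1) ^ (2 * s / 3) * (2 * s + 1) ^ (6 * s)) * D ^ 4 ≤ D ^ s := by
  have h2 : 2 * D * (2 * s + 1) + 1 ≤ 3 * D * w := by nlinarith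
  have h3 : ((2 * D * (2 * s + 1) + 1) ^ (2 * s / 3) * (2 * s + 1) ^ (6 * s)) ^ 6 ≤
      (D ^ 5) ^ s := by
    calc _ = (2 * D * (2 * s + 1) + 1) ^ (2 * s / 3 * 6) * (2 * s + 1) ^ (36 * s) := by
            rw [mul_pow, ← pow_mul, ← pow_mul, show 6 * s * 6 = 36 * s by ring]
      _ ≤ (2 * D * (2 * s + 1) + 1) ^ (4 * s) * (2 * s + 1) ^ (36 * s) :=
            Nat.mul_le_mul_right _ (Nat.pow_le_pow_right (by omega) (by omega))
      _ ≤ (3 * D * w) ^ (4 * s) * w ^ (36 * s) :=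
            Nat.mul_le_mul (Nat.pow_le_pow_left h2 _) (Nat.pow_le_pow_left hw _)
      _ = (D ^ 4 * (81 * w ^ 40)) ^ s := by
            rw [pow_mul, pow_mul, ← mul_pow]
            congr 1; ring
      _ ≤ (D ^ 4 * D) ^ s := Nat.pow_le_pow_left (Nat.mul_le_mul_left _ h1) _
      _ = _ := by rw [← pow_succ]
  refine (Nat.pow_le_pow_iff_left (n := 6) (by norm_num)).1 ?_
  calc _ = A ^ 6 * ((2 * D * (2 * s + 1) + 1) ^ (2 * s / 3) * (2 * s + 1) ^ (6 * s)) ^ 6 *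
        D ^ 24 := by rw [mul_pow, mul_pow A, ← pow_mul D]
    _ ≤ D * (D ^ 5) ^ s * D ^ 24 := Nat.mul_le_mul_right _ (Nat.mul_le_mul hA h3)
    _ = D ^ (5 * s + 25) := by rw [← pow_mul]; ring
    _ ≤ D ^ (s * 6) := Nat.pow_le_pow_right hD (by omega)
    _ = _ := by rw [pow_mul]

lemma egr_mul (a : ℕ → ℝ) (r : ℝ) (n : ℕ) (ρ : ℝ) : r * egr a n ρ = egr (fun k => r * a k) n ρ := by
  unfold egr
  rw [mul_sum]
  exact sum_congr rfl fun k _ => by ring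

end MidSAux

open MidSAux in
theorem pMid (hF2 : SF2) (hPos : SPos) (hRed : SRed) (hCores : SCores) (hWW : SWW) : SMid := by
  intro M
  obtain ⟨C, D₁, hC⟩ := hF2 2 (by norm_num)
  set c : ℕ := ⌈C⌉₊ with hc
  have hCc : C ≤ c := Nat.le_ceil C
  obtain ⟨D₀, hD₀⟩ := log_small (81 * 3 ^ 40 + (2 ^ M * c) ^ 6 + M + D₁) 160
  refine ⟨D₀, fun D hD H J _ _ _ _ σ π v hV => ?_⟩
  obtain ⟨e1, e2⟩ := hD₀ D hD
  set l := Nat.log 2 D with hl
  have l1 : 1 ≤ l := by omega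
  have lp : ∀ e ≤ 160, l ^ e ≤ l ^ 160 := fun e he => Nat.pow_le_pow_right l1 he
  have lu : l ≤ l ^ 4 := Nat.le_self_pow (by norm_num) l
  have f1 : 81 * 3 ^ 40 * l ^ 160 ≤ D := le_trans (Nat.mul_le_mul_right _ (by omega)) e2
  have f2 : (2 ^ M * c) ^ 6 * l ^ 160 ≤ D := le_trans (Nat.mul_le_mul_right _ (by omega)) e2
  have g4 := lp 4 (by norm_num)
  have g16 := lp 16 (by norm_num)
  have g24 := lp 24 (by norm_num)
  have D1 : 1 ≤ D := by omega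
  have Dp : (0 : ℝ) < D := by exact_mod_cast D1
  have up : (0 : ℝ) < ((l ^ 4 : ℕ) : ℝ) := by exact_mod_cast (by omega : 0 < l ^ 4)
  have hA : (l ^ 4 * (2 ^ M * c)) ^ 6 ≤ D := by
    rw [mul_pow, ← pow_mul, mul_comm]
    exact le_trans (Nat.mul_le_mul_left _ g24) f2
  have hw : 81 * (3 * l ^ 4) ^ 40 ≤ D := by
    rw [mul_pow, ← pow_mul, ← mul_assoc]
    exact f1
  have key : ∀ s ∈ Ioc 24 (l ^ 4), ∑ Y ∈ Cores σ π s,
      2 ^ (2 * (D - s) - 1) * egr (TT (red σ Y)) (D - s) 2 * egr (WW σ Y) s 2 ≤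
        4 ^ D * DF {D} / (D : ℝ) ^ 3 / ((l ^ 4 : ℕ) : ℝ) := by
    intro s hs
    obtain ⟨s1, s2⟩ := mem_Ioc.1 hs
    have hDF := Est.DF_nonneg {D - s}
    have t1 : ∀ Y ∈ Cores σ π s,
        2 ^ (2 * (D - s) - 1) * egr (TT (red σ Y)) (D - s) 2 * egr (WW σ Y) s 2 ≤
          (c * 4 ^ (D - s) * DF {D - s} * D) * (4 ^ s * (2 * s + 1) ^ (6 * s)) := by
      intro Y hY
      simp only [Cores, mem_filter, mem_univ, true_and] at hY
      obtain ⟨-, J', _, _, π', v', hV'⟩ := hRed H J σ π v D M hV Y s hY.1 hY.2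
      obtain ⟨w1, w2⟩ := hWW H σ Y s hY.2
      have hM : (M + 2 * s) ^ 4 ≤ D - s := by
        have : (M + 2 * s) ^ 4 ≤ (3 * l ^ 4) ^ 4 := Nat.pow_le_pow_left (by omega) _
        rw [mul_pow, ← pow_mul, show 4 * 4 = 16 from rfl] at this
        omega
      have h1 := hC (D - s) (by omega) _ J' (red σ Y) π' v' (M + 2 * s) hV' hM
      have h2 : 2 ^ (2 * (D - s) - 1) * egr (TT (red σ Y)) (D - s) 2 ≤
          c * 4 ^ (D - s) * DF {D - s} * D := by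
        rw [egr_mul]
        refine (egr_mono (fun k => ((hPos _ J' (red σ Y) π' v' _ _ hV' k).1 _).2.2.2.1) _
          (by norm_num)).trans (h1.trans ?_)
        rw [show (2 : ℝ) / 2 = 1 by norm_num, Real.rpow_one]
        have : ((D - s : ℕ) : ℝ) ≤ D := by exact_mod_cast Nat.sub_le D s
        gcongr
      exact mul_le_mul h2 w2 (egr_nonneg w1 _ (by norm_num)) (by positivity)
    have t2 : (#(Cores σ π s) : ℝ) ≤ 2 ^ M * (2 * D * (2 * s + 1) + 1) ^ (2 * s / 3) := by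
      exact_mod_cast hCores H J σ π v D M hV s
    have t3 : ((l ^ 4 : ℕ) : ℝ) * (2 ^ M * c) * ((2 * D * (2 * s + 1) + 1) ^ (2 * s / 3) *
        (2 * s + 1) ^ (6 * s)) * D ^ 4 ≤ (D : ℝ) ^ s := by
      exact_mod_cast arith D1 s1 (w := 3 * l ^ 4) (by omega) hA hw
    have t4 := Est.DF_shift D s (by omega)
    have t5 : (4 : ℝ) ^ D = 4 ^ (D - s) * 4 ^ s := by
      rw [← pow_add, Nat.sub_add_cancel (by omega)]
    refine (sum_le_card_nsmul _ _ _ t1).trans ?_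
    rw [nsmul_eq_mul, le_div_iff₀ up, le_div_iff₀ (by positivity)]
    calc _ ≤ (2 ^ M * (2 * D * (2 * s + 1) + 1) ^ (2 * s / 3)) *
          ((c * 4 ^ (D - s) * DF {D - s} * D) * (4 ^ s * (2 * s + 1) ^ (6 * s))) *
          ((l ^ 4 : ℕ) : ℝ) * (D : ℝ) ^ 3 := by gcongr
      _ = 4 ^ D * (DF {D - s} * (((l ^ 4 : ℕ) : ℝ) * (2 ^ M * c) *
          ((2 * D * (2 * s + 1) + 1) ^ (2 * s / 3) * (2 * s + 1) ^ (6 * s)) * D ^ 4)) := by
            rw [t5]; ring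
      _ ≤ 4 ^ D * (DF {D - s} * (D : ℝ) ^ s) := by gcongr
      _ ≤ _ := by gcongr
  refine (sum_le_card_nsmul _ _ _ key).trans ?_
  have hDF := Est.DF_nonneg {D}
  rw [nsmul_eq_mul, Nat.card_Ioc]
  calc _ ≤ ((l ^ 4 : ℕ) : ℝ) * (4 ^ D * DF {D} / (D : ℝ) ^ 3 / ((l ^ 4 : ℕ) : ℝ)) := by
        gcongr
        exact Nat.sub_le _ _
    _ = _ := by field_simp

end Pool.Agent.STS.Cy
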