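import Pool.Agent.P.MP_bb7f8f_gt.Q2.Base

set_option linter.unusedSectionVars false

namespace Pool.Agent.STS.Cy
open Equiv Finset Filter Topology

namespace MtAux

/-- the odd double factorial -/
def df (n : ℕ) : ℕ := (2 * n - 1).doubleFactorial

theorem df_succ (n : ℕ) : df (n + 1) = (2 * n + 1) * df n := by
  rcases n with _ | n
  · rfl
  · unfold df
    rw [show 2 * (n + 1 + 1) - 1 = (2 * (n + 1) - 1) + 2 by omega, Nat.doubleFactorial_add_two]
    congr 1

theorem df_mul (r m : ℕ) : df r * df m ≤ df (r + m) := by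
  induction m with
  | zero => simp [df]
  | succ m ih =>
    rw [← add_assoc, df_succ, df_succ, mul_left_comm]
    exact Nat.mul_le_mul (by omega) ih

theorem fact_le (r : ℕ) : (r.factorial : ℝ) ≤ (2 / 3) ^ (r - 1) * df r := by
  rcases r with _ | r
  · simp [df]
  · induction r with
    | zero => simp [df]
    | succ r ih =>
      rw [Nat.factorial_succ, df_succ]
      simp only [Nat.add_sub_cancel] at ih ⊢
      push_cast
      have h0 : (0 : ℝ) ≤ r := r.cast_nonneg
      calc _ ≤ (2 / 3 * (2 * (r + 1) + 1) : ℝ) * ((2 / 3) ^ r * df (r + 1)) :=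
            mul_le_mul (by linarith) ih (by positivity) (by positivity)
        _ = _ := by ring

variable {H : Type} [Fintype H] [DecidableEq H]

/-- matchings of a subset -/
def MS (S : Finset H) : Finset (H → H) :=
  {f | (∀ x ∈ S, f x ∈ S ∧ f (f x) = x ∧ f x ≠ x) ∧ ∀ x ∉ S, f x = x}

theorem mem_MS {S : Finset H} {f : H → H} : f ∈ MS S ↔
    (∀ x ∈ S, f x ∈ S ∧ f (f x) = x ∧ f x ≠ x) ∧ ∀ x ∉ S, f x = x := by
  simp only [MS, mem_filter, mem_univ, true_and]

/-- restriction to a subset -/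
def rs (S : Finset H) (f : H → H) : H → H := fun x => if x ∈ S then f x else x

theorem rs_mem {S : Finset H} {f : H → H} (h : ∀ x ∈ S, f x ∈ S ∧ f (f x) = x ∧ f x ≠ x) :
    rs S f ∈ MS S := by
  refine mem_MS.2 ⟨fun x hx => ?_, fun x hx => if_neg hx⟩
  obtain ⟨h1, h2, h3⟩ := h x hx
  simp only [rs, if_pos hx, if_pos h1]
  exact ⟨h1, h2, h3⟩

theorem rs_eq {S : Finset H} {f g : H → H} (h : rs S f = rs S g) {x : H} (hx : x ∈ S) :
    f x = g x := by
  simpa only [rs, if_pos hx] using congrFun h x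

theorem card_MS (n : ℕ) : ∀ S : Finset H, #S = 2 * n → #(MS S) ≤ df n := by
  induction n with
  | zero =>
    intro S hS
    rw [card_eq_zero.1 hS]
    refine card_le_one.2 fun f hf g hg => funext fun x => ?_
    rw [(mem_MS.1 hf).2 x (notMem_empty x), (mem_MS.1 hg).2 x (notMem_empty x)]
  | succ n ih =>
    intro S hS
    obtain ⟨a, ha⟩ := card_pos.1 (show 0 < #S by omega)
    have h1 : #(S.erase a) = 2 * n + 1 := by rw [card_erase_of_mem ha]; omega
    rw [df_succ, mul_comm, ← h1]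
    refine card_le_mul_card_image_of_maps_to (f := fun f => f a) (fun f hf => ?_) _ fun b hb => ?_
    · have := (mem_MS.1 hf).1 a ha
      exact mem_erase.2 ⟨this.2.2, this.1⟩
    · refine le_trans (card_le_card_of_injOn (rs ((S.erase a).erase b)) (fun f hf => ?_)
        fun f hf g hg hfg => ?_) (ih _ (by rw [card_erase_of_mem hb]; omega))
      · obtain ⟨hf1, hf2⟩ := mem_filter.1 (mem_coe.1 hf)
        have hf3 := (mem_MS.1 hf1).1
        refine mem_coe.2 (rs_mem fun x hx => ?_)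
        obtain ⟨h2, h3⟩ := mem_erase.1 hx
        obtain ⟨h3, h4⟩ := mem_erase.1 h3
        obtain ⟨h5, h6, h7⟩ := hf3 x h4
        refine ⟨mem_erase.2 ⟨fun h => h3 ?_, mem_erase.2 ⟨fun h => h2 ?_, h5⟩⟩, h6, h7⟩
        · rw [← h6, h, ← hf2, (hf3 a ha).2.1]
        · rw [← h6, h, hf2]
      · obtain ⟨hf1, hf2⟩ := mem_filter.1 (mem_coe.1 hf)
        obtain ⟨hg1, hg2⟩ := mem_filter.1 (mem_coe.1 hg)
        funext x
        by_cases hx : x ∈ S
        · by_cases h2 : x = a
          · rw [h2, hf2, hg2]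
          · by_cases h3 : x = b
            · have h4 := ((mem_MS.1 hf1).1 a ha).2.1
              have h5 := ((mem_MS.1 hg1).1 a ha).2.1
              rw [hf2] at h4
              rw [hg2] at h5
              rw [h3, h4, h5]
            · exact rs_eq hfg (mem_erase.2 ⟨h3, mem_erase.2 ⟨h2, hx⟩⟩)
        · rw [(mem_MS.1 hf1).2 x hx, (mem_MS.1 hg1).2 x hx]

theorem part_a {D d : ℕ} (hD : Fintype.card H = 2 * D) {S : Finset H} (hS : #S = 2 * d) :
    Set.ncard {α : Perm H | IsMt α ∧ ∀ x, α x ∈ S ↔ x ∈ S} ≤ df d * df (D - d) := by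
  have h1 : #Sᶜ = 2 * (D - d) := by rw [card_compl]; omega
  refine le_trans ?_ (Nat.mul_le_mul (card_MS d S hS) (card_MS _ _ h1))
  rw [← card_product, ← Set.ncard_coe_finset]
  refine Set.ncard_le_ncard_of_injOn (fun α => (rs S α, rs Sᶜ α)) (fun α hα => ?_)
    (fun α _ β _ h => ?_) (Finset.finite_toSet _)
  · refine mem_coe.2 (mem_product.2 ⟨rs_mem fun x hx => ⟨(hα.2 x).2 hx, hα.1 x⟩,
      rs_mem fun x hx => ⟨?_, hα.1 x⟩⟩)
    rw [mem_compl] at hx ⊢
    exact fun h => hx ((hα.2 x).1 h)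
  · ext x
    by_cases hx : x ∈ S
    · exact rs_eq (congrArg Prod.fst h) hx
    · exact rs_eq (congrArg Prod.snd h) (mem_compl.2 hx)

theorem part_b {D : ℕ} (hD : Fintype.card H = 2 * D) {S₁ S₀ : Finset H} (hd : Disjoint S₁ S₀)
    (hr : #S₀ = #S₁) :
    Set.ncard {α : Perm H | IsMt α ∧ (∀ x ∈ S₁, α x ∈ S₀) ∧ ∀ x ∈ S₀, α x ∈ S₁} ≤
      (#S₁).factorial * df (D - #S₁) := by
  have h1 : #(S₁ ∪ S₀)ᶜ = 2 * (D - #S₁) := by rw [card_compl, card_union_of_disjoint hd]; omega
  have h2 : Fintype.card ({x // x ∈ S₁} ↪ {x // x ∈ S₀}) = (#S₁).factorial := by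
    rw [Fintype.card_embedding_eq, Fintype.card_coe, Fintype.card_coe, hr, Nat.descFactorial_self]
  refine le_trans ?_ (Nat.mul_le_mul h2.le (card_MS _ _ h1))
  rw [← Fintype.card_coe (MS _), ← Fintype.card_prod, ← Nat.card_eq_fintype_card,
    ← Nat.card_coe_set_eq]
  refine Nat.card_le_card_of_injective (fun α => (⟨fun x => ⟨α.1 x.1, α.2.2.1 x.1 x.2⟩,
    fun x y h => Subtype.ext (α.1.injective (congrArg Subtype.val h))⟩,
    ⟨rs (S₁ ∪ S₀)ᶜ α.1, rs_mem fun x hx => ⟨?_, α.2.1 x⟩⟩)) fun α β h => ?_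
  · rw [mem_compl, mem_union, not_or] at hx ⊢
    exact ⟨fun h => hx.2 ((α.2.1 x).1 ▸ α.2.2.1 _ h), fun h => hx.1 ((α.2.1 x).1 ▸ α.2.2.2 _ h)⟩
  · have h3 : ∀ x ∈ S₁, α.1 x = β.1 x := fun x hx =>
      congrArg (fun z : ({x // x ∈ S₁} ↪ {x // x ∈ S₀}) × _ => (z.1 ⟨x, hx⟩).1) h
    refine Subtype.ext (Equiv.ext fun x => ?_)
    by_cases hx : x ∈ S₁
    · exact h3 x hx
    · by_cases hx' : x ∈ S₀
      · have h4 := h3 _ (α.2.2.2 x hx')
        rw [(α.2.1 x).1] at h4
        exact β.1.injective (by rw [← h4, (β.2.1 x).1])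
      · exact rs_eq (congrArg (fun z => z.2.1) h) (by simp [hx, hx'])

end MtAux

open MtAux in
theorem pMt : SMt := by
  intro H _ _ D hD
  refine ⟨fun S d hS => ?_, fun S₁ S₀ hd => ?_⟩
  · rw [Est.DF_single, Est.DF_single]
    exact_mod_cast part_a hD hS
  · rcases Set.eq_empty_or_nonempty
      {α : Perm H | IsMt α ∧ (∀ x ∈ S₁, α x ∈ S₀) ∧ ∀ x ∈ S₀, α x ∈ S₁} with h | ⟨α, hα⟩
    · rw [h, Set.ncard_empty, Nat.cast_zero]
      exact mul_nonneg (by positivity) (Est.DF_nonneg _)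
    · have hr : #S₀ = #S₁ := le_antisymm
        (card_le_card_of_injOn α (fun x hx => hα.2.2 x hx) α.injective.injOn)
        (card_le_card_of_injOn α (fun x hx => hα.2.1 x hx) α.injective.injOn)
      have h1 := card_le_univ (S₁ ∪ S₀)
      rw [card_union_of_disjoint hd] at h1
      have h2 := df_mul #S₁ (D - #S₁)
      rw [Nat.add_sub_cancel' (by omega)] at h2
      have h3 : (df #S₁ : ℝ) * df (D - #S₁) ≤ df D := by exact_mod_cast h2
      have h4 : (_ : ℝ) ≤ _ := Nat.cast_le.2 (part_b hD hd hr)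
      rw [Est.DF_single]
      refine h4.trans ?_
      push_cast
      calc _ ≤ (2 / 3 : ℝ) ^ (#S₁ - 1) * df #S₁ * df (D - #S₁) :=
            mul_le_mul_of_nonneg_right (fact_le _) (by positivity)
        _ ≤ _ := by
            rw [mul_assoc]
            exact mul_le_mul_of_nonneg_left h3 (by positivity)

end Pool.Agent.STS.Cy
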