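import Pool.Agent.P.MP_bb7f8f_gt.Q2.Base

set_option linter.unusedSectionVars false

namespace Pool.Agent.STS.Cy.ParAux
open Equiv Finset

variable {H J I : Type} [Fintype H] [DecidableEq H] [Fintype J] [DecidableEq J]
  [Fintype I] [DecidableEq I]

/-- offsets which admit a balanced length function -/
def Lam (α : Perm H) (c : H → I × Bool) : AddSubgroup (I × Bool → ℤ) where
  carrier := {δ | ∃ a, Sol α (tot c) δ a}
  add_mem' := fun {δ δ'} ⟨a, ha⟩ ⟨b, hb⟩ => ⟨a + b, fun x => by simp [ha.1 x, hb.1 x], fun i => by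
    have h1 := ha.2 i
    have h2 := hb.2 i
    simp only [pr_add, Pi.add_apply]
    linarith⟩
  zero_mem' := ⟨0, sol_zero⟩
  neg_mem' := fun {δ} ⟨a, ha⟩ => ⟨0 - a, fun x => by simp [ha.1 x], fun i => by
    have h1 := ha.2 i
    have h0 : ∀ f, pr (tot c) (0 : H → ℤ) f = 0 := fun f => by simp [pr]
    simp only [pr_sub, Pi.neg_apply, h0]
    linarith⟩

/-- the unit vector of a face -/
def ev (f : I × Bool) : I × Bool → ℤ := Pi.single f 1

theorem pr_single (c : H → I × Bool) (x : H) (f : I × Bool) :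
    pr (tot c) (Pi.single x (1 : ℤ)) f = ev (c x) f := by
  rw [pr_tot, Finset.sum_filter, Finset.sum_eq_single x]
  · simp only [ev, Pi.single_apply, if_true, eq_comm]
  · intro y _ hy
    simp [hy]
  · simp

theorem edge_mem {α : Perm H} (hα : IsMt α) (c : H → I × Bool) (x : H) :
    ev (c x) + ev (c (α x)) ∈ Lam α c := by
  refine ⟨0 - (Pi.single x 1 + Pi.single (α x) 1), fun z => ?_, fun i => ?_⟩
  · have e1 : α z = x ↔ z = α x :=
      ⟨fun h => by rw [← h, (hα z).1], fun h => by rw [h, (hα x).1]⟩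
    simp only [Pi.sub_apply, Pi.zero_apply, Pi.add_apply, Pi.single_apply, e1,
      α.injective.eq_iff]
    ring
  · have h0 : ∀ f, pr (tot c) (0 : H → ℤ) f = 0 := fun f => by simp [pr]
    simp only [pr_sub, pr_add, pr_single, h0, Pi.add_apply]
    ring

theorem cyl_mem (α : Perm H) (c : H → I × Bool) (i : I) :
    ev (i, true) + ev (i, false) ∈ Lam α c := by
  refine ⟨0, fun _ => rfl, fun j => ?_⟩
  have h0 : ∀ f, pr (tot c) (0 : H → ℤ) f = 0 := fun f => by simp [pr]
  simp [h0, ev, Pi.single_apply]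

variable {σ : Perm H} {π : H → J} {v : J → ℕ}

theorem two_mem (hc : Cyc σ π v) {p : Dg H I} (hp : IsDg σ p) (x : H) :
    ev (p.2 x) + ev (p.2 x) ∈ Lam p.1 p.2 := by
  have h2 : ∀ n : ℕ, ev (p.2 ((σ ^ n) x)) - ((-1 : ℤ) ^ n) • ev (p.2 x) ∈ Lam p.1 p.2 := fun n => by
    induction n with
    | zero => simp
    | succ n ih =>
      have h1 := edge_mem hp.1 p.2 ((σ ^ n) x)
      rw [← hp.sigma] at h1
      have h3 := (Lam p.1 p.2).sub_mem h1 ih
      have e : ev (p.2 ((σ ^ (n + 1)) x)) - ((-1 : ℤ) ^ (n + 1)) • ev (p.2 x) =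
          ev (p.2 ((σ ^ n) x)) + ev (p.2 (σ ((σ ^ n) x))) -
            (ev (p.2 ((σ ^ n) x)) - ((-1 : ℤ) ^ n) • ev (p.2 x)) := by
        rw [pow_succ' σ, Perm.mul_apply, pow_succ, mul_smul]
        simp only [neg_smul, one_smul, smul_neg]
        abel
      rw [e]; exact h3
  obtain ⟨n, hn, hx⟩ := Base.exists_odd_pow hc x
  have h := h2 n
  rw [hx, hn.neg_one_pow] at h
  simpa using h

theorem diff_mem (hc : Cyc σ π v) {p : Dg H I} (hp : IsDg σ p) (hcn : Conn p) (x y : H) :
    ev (p.2 x) - ev (p.2 y) ∈ Lam p.1 p.2 := by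
  induction hcn x y with
  | rel a b h =>
    have key : ev (p.2 a) + ev (p.2 b) ∈ Lam p.1 p.2 := by
      rcases h with h | h
      · rw [h]; exact edge_mem hp.1 p.2 a
      · have h1 := two_mem hc hp a
        have h2 := cyl_mem p.1 p.2 (p.2 a).1
        generalize p.2 a = f at *
        generalize p.2 b = g at *
        obtain ⟨i, s⟩ := f
        obtain ⟨j, t⟩ := g
        obtain rfl : j = i := h
        cases s <;> cases t
        · exact h1
        · rw [add_comm]; exact h2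
        · exact h2
        · exact h1
    have h3 := (Lam p.1 p.2).sub_mem key (two_mem hc hp b)
    rwa [add_sub_add_right_eq_sub] at h3
  | refl a => simp
  | symm a b _ ih => simpa using (Lam p.1 p.2).neg_mem ih
  | trans a b d _ _ ih ih' => simpa using (Lam p.1 p.2).add_mem ih ih'

theorem sum_pr (c : H → I × Bool) (a : H → ℤ) : ∑ f, pr (tot c) a f = ∑ x, a x := by
  simp only [pr_tot]
  exact Finset.sum_fiberwise (s := univ) (g := c) a

theorem even_sum {α : Perm H} (hα : IsMt α) {a : H → ℤ} (ha : ∀ x, a (α x) = a x) :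
    Even (∑ x, a x) := by
  rw [← ZMod.intCast_eq_zero_iff_even, Int.cast_sum]
  refine Finset.sum_involution (fun x _ => α x) (fun x _ => ?_) (fun x _ _ => (hα x).2)
    (fun _ _ => mem_univ _) fun x _ => (hα x).1
  rw [ha x]
  exact CharTwo.add_self_eq_zero _

theorem mem_iff (hc : Cyc σ π v) {p : Dg H I} (hp : IsDg σ p) (hcn : Conn p) (x₀ : H)
    (δ : I × Bool → ℤ) : δ ∈ Lam p.1 p.2 ↔ Even (∑ f, δ f) := by
  constructor
  · rintro ⟨a, ha⟩
    have h1 := even_sum hp.1 ha.1
    rw [← sum_pr p.2] at h1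
    have h2 : Even (∑ f, pr (tot p.2) a f + ∑ f, δ f) := by
      rw [← Finset.sum_add_distrib, Fintype.sum_prod_type]
      refine Finset.even_sum _ fun i _ => ?_
      rw [Fintype.sum_bool, ha.2 i]
      exact ⟨_, rfl⟩
    exact (Int.even_add.1 h2).1 h1
  · rintro ⟨k, hk⟩
    have e : δ = ∑ f, δ f • (ev f - ev (p.2 x₀)) + k • (ev (p.2 x₀) + ev (p.2 x₀)) := by
      have e1 : ∑ f, δ f • ev f = δ := by
        funext g
        simp [ev, Finset.sum_apply, Pi.single_apply]
      simp only [smul_sub, Finset.sum_sub_distrib, e1, ← Finset.sum_smul, hk, add_smul, smul_add]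
      abel
    rw [e]
    refine (Lam p.1 p.2).add_mem (AddSubgroup.sum_mem _ fun f _ => ?_)
      ((Lam p.1 p.2).zsmul_mem (two_mem hc hp x₀) k)
    obtain ⟨x, rfl⟩ := hp.2.2 f
    exact (Lam p.1 p.2).zsmul_mem (diff_mem hc hp hcn x x₀) _

theorem count (x₀ : H) (S : ℤ) :
    Set.ncard {ε : H → Bool | Even (∑ x, ((ε x).toNat : ℤ) + S)} = 2 ^ (Fintype.card H - 1) := by
  set A := {ε : H → Bool | Even (∑ x, ((ε x).toNat : ℤ) + S)} with hA
  let g : (H → Bool) → (H → Bool) := fun ε => Function.update ε x₀ (!ε x₀)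
  have hg : Function.Involutive g := fun ε => by
    funext x
    by_cases hx : x = x₀
    · subst hx; simp [g]
    · simp [g, hx]
  have hm : ∀ ε, g ε ∈ A ↔ ε ∉ A := fun ε => by
    have e1 : ∑ x ∈ univ.erase x₀, ((g ε x).toNat : ℤ) = ∑ x ∈ univ.erase x₀, ((ε x).toNat : ℤ) :=
      Finset.sum_congr rfl fun x hx => by simp [g, (mem_erase.1 hx).1]
    have e2 : g ε x₀ = !ε x₀ := by simp [g]
    simp only [hA, Set.mem_ofPred_eq]
    rw [← Finset.add_sum_erase univ _ (mem_univ x₀), ← Finset.add_sum_erase univ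
      (fun x => ((ε x).toNat : ℤ)) (mem_univ x₀), e1, e2]
    generalize ∑ x ∈ univ.erase x₀, ((ε x).toNat : ℤ) = T
    simp only [Int.even_iff]
    cases ε x₀ <;> simp <;> omega
  have h1 : g '' Aᶜ = A := by
    ext ε
    constructor
    · rintro ⟨η, hη, rfl⟩
      exact (hm η).2 hη
    · intro h
      exact ⟨g ε, fun h' => (hm ε).1 h' h, hg ε⟩
  have h2 : Aᶜ.ncard = A.ncard := by
    conv_rhs => rw [← h1]
    rw [Set.ncard_image_of_injective _ hg.injective]
  have h3 := Set.ncard_add_ncard_compl A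
  rw [h2, Nat.card_eq_fintype_card, Fintype.card_fun, Fintype.card_bool] at h3
  have h4 : 0 < Fintype.card H := Fintype.card_pos_iff.2 ⟨x₀⟩
  obtain ⟨n, hn⟩ : ∃ n, Fintype.card H = n + 1 := ⟨_, (Nat.succ_pred_eq_of_pos h4).symm⟩
  rw [hn, pow_succ] at h3
  rw [hn, Nat.add_sub_cancel]
  omega

end Pool.Agent.STS.Cy.ParAux

namespace Pool.Agent.STS.Cy
open Equiv Finset Filter Topology

theorem pPar : SPar := by
  intro H J I _ _ _ _ _ _ σ π v hc p hp hcn δ
  rcases isEmpty_or_nonempty H with hH | ⟨⟨x₀⟩⟩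
  · have h1 : {ε : H → Bool | ∃ a, Sol p.1 (tot p.2) (eo (tot p.2) ε + δ) a} = Set.univ := by
      refine Set.eq_univ_of_forall fun ε => ⟨0, fun _ => rfl, fun i => ?_⟩
      obtain ⟨x, -⟩ := hp.2.2 (i, true)
      exact hH.elim x
    rw [h1, Set.ncard_univ, Nat.card_eq_fintype_card, Fintype.card_fun, Fintype.card_bool,
      Fintype.card_eq_zero (α := H)]
  · rw [← ParAux.count x₀ (∑ f, δ f)]
    congr 1
    ext ε
    have h := ParAux.mem_iff hc hp hcn x₀ (eo (tot p.2) ε + δ)
    simp only [Pi.add_apply, Finset.sum_add_distrib, eo, ParAux.sum_pr] at h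
    exact h

end Pool.Agent.STS.Cy
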