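import Pool.Agent.P.MP_bb7f8f_gt.Q2.Base

set_option linter.unusedSectionVars false

namespace Pool.Agent.STS.Cy
open Equiv Finset Filter Topology

namespace Phi0Aux

theorem coeff_pow_congr {f g : PowerSeries ℝ} {D : ℕ}
    (h : ∀ j ≤ D, PowerSeries.coeff j f = PowerSeries.coeff j g) (k : ℕ) :
    ∀ j ≤ D, PowerSeries.coeff j (f ^ k) = PowerSeries.coeff j (g ^ k) := by
  induction k with
  | zero => intro j _; rw [pow_zero, pow_zero]
  | succ k ih =>
    intro j hj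
    rw [pow_succ, pow_succ, PowerSeries.coeff_mul, PowerSeries.coeff_mul]
    refine sum_congr rfl fun x hx => ?_
    have := HasAntidiagonal.mem_antidiagonal.1 hx
    rw [ih _ (by omega), h _ (by omega)]

theorem sum_OT_eq (w : ℕ × ℕ → ℝ) (D k : ℕ) :
    ∑ κ ∈ OT (Fin k × Bool) D, ∏ i, w (κ (i, true), κ (i, false)) =
      PowerSeries.coeff D ((PowerSeries.mk fun n =>
        ∑ p ∈ antidiagonal n with Odd p.1 ∧ Odd p.2, w p) ^ k) := by
  set P : PowerSeries ℝ :=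
    ∑ p ∈ Xi.prs D, PowerSeries.C (w p) * PowerSeries.X ^ (p.1 + p.2) with hP
  have h0 : ∀ j ≤ D, PowerSeries.coeff j (PowerSeries.mk fun n =>
      ∑ p ∈ antidiagonal n with Odd p.1 ∧ Odd p.2, w p) = PowerSeries.coeff j P := by
    intro j hj
    rw [PowerSeries.coeff_mk, hP, map_sum]
    simp only [PowerSeries.coeff_C_mul, PowerSeries.coeff_X_pow, mul_ite, mul_one, mul_zero]
    rw [← sum_filter]
    refine sum_congr ?_ fun _ _ => rfl
    ext p
    simp only [Xi.prs, mem_filter, HasAntidiagonal.mem_antidiagonal, mem_product, mem_range]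
    constructor
    · rintro ⟨h1, h2, h3⟩
      exact ⟨⟨⟨by omega, by omega⟩, h2, h3, by omega⟩, h1.symm⟩
    · rintro ⟨⟨-, h2, h3, -⟩, h1⟩
      exact ⟨h1.symm, h2, h3⟩
  rw [coeff_pow_congr h0 k D le_rfl]
  have h1 : P ^ k = ∑ f ∈ Fintype.piFinset (fun _ : Fin k => Xi.prs D),
      PowerSeries.C (∏ i, w (f i)) * PowerSeries.X ^ (∑ i, ((f i).1 + (f i).2)) := by
    rw [← Fin.prod_const, hP, prod_univ_sum]
    refine sum_congr rfl fun f _ => ?_
    rw [prod_mul_distrib, prod_pow_eq_pow_sum, map_prod]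
  rw [h1, map_sum]
  simp only [PowerSeries.coeff_C_mul, PowerSeries.coeff_X_pow, mul_ite, mul_one, mul_zero]
  rw [← sum_filter]
  refine sum_bij' (fun (κ : Fin k × Bool → ℕ) _ (i : Fin k) => (κ (i, true), κ (i, false)))
    (fun f _ a => if a.2 then (f a.1).1 else (f a.1).2) ?_ ?_ ?_ ?_ ?_
  · intro κ hκ
    simp only [OT, mem_filter, Fintype.mem_piFinset] at hκ
    obtain ⟨h3, h4, h5⟩ := hκ
    rw [Fintype.sum_prod_type] at h5
    simp only [Fintype.sum_bool] at h5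
    simp only [Xi.prs, mem_filter, Fintype.mem_piFinset, mem_product]
    refine ⟨fun i => ⟨⟨h3 _, h3 _⟩, h4 _, h4 _, ?_⟩, h5.symm⟩
    rw [← h5]
    exact single_le_sum (f := fun i => κ (i, true) + κ (i, false)) (fun _ _ => Nat.zero_le _)
      (mem_univ i)
  · intro f hf
    simp only [Xi.prs, mem_filter, Fintype.mem_piFinset, mem_product] at hf
    obtain ⟨h3, h4⟩ := hf
    simp only [OT, mem_filter, Fintype.mem_piFinset]
    refine ⟨fun a => ?_, fun a => ?_, ?_⟩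
    · obtain ⟨i, b⟩ := a
      cases b
      · exact (h3 i).1.2
      · exact (h3 i).1.1
    · obtain ⟨i, b⟩ := a
      cases b
      · exact (h3 i).2.2.1
      · exact (h3 i).2.1
    · rw [Fintype.sum_prod_type, h4]
      refine sum_congr rfl fun i _ => ?_
      rw [Fintype.sum_bool]
      rfl
  · intro κ _
    funext a
    obtain ⟨i, b⟩ := a
    cases b <;> rfl
  · intro f _
    funext i
    rfl
  · intro κ _
    rfl

theorem bt_eq {a b : ℕ} (ha : 1 ≤ a) (hb : 1 ≤ b) :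
    bt a b * (2 / (a : ℝ) * (2 / (b : ℝ))) =
      4 * 2 ^ (a + b) * zt (a + b) * (a + b - 1).factorial / (a.factorial * b.factorial) := by
  unfold bt
  rw [← Nat.mul_factorial_pred (show a ≠ 0 by omega),
    ← Nat.mul_factorial_pred (show b ≠ 0 by omega), Nat.cast_mul, Nat.cast_mul]
  have h1 : (a : ℝ) ≠ 0 := by exact_mod_cast (show a ≠ 0 by omega)
  have h2 : (b : ℝ) ≠ 0 := by exact_mod_cast (show b ≠ 0 by omega)
  have h3 : ((a - 1).factorial : ℝ) ≠ 0 := by exact_mod_cast (a - 1).factorial_ne_zero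
  have h4 : ((b - 1).factorial : ℝ) ≠ 0 := by exact_mod_cast (b - 1).factorial_ne_zero
  field_simp
  ring

theorem tot_eq (n : ℕ) :
    ∑ p ∈ antidiagonal n with Odd p.1 ∧ Odd p.2, bt p.1 p.2 * (2 / (p.1 : ℝ) * (2 / (p.2 : ℝ))) =
      2 * (4 ^ n * PowerSeries.coeff n GZ) := by
  rw [GZ, PowerSeries.coeff_mk]
  split_ifs with hn
  · have hn0 : n ≠ 0 := by omega
    have h1 : ∑ p ∈ antidiagonal n with Odd p.1 ∧ Odd p.2,
        bt p.1 p.2 * (2 / (p.1 : ℝ) * (2 / (p.2 : ℝ))) =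
        ∑ a ∈ (range (n + 1)).filter Odd, 4 * 2 ^ n * zt n / n * (n.choose a : ℝ) := by
      refine sum_bij' (fun p _ => p.1) (fun a _ => (a, n - a)) ?_ ?_ ?_ ?_ ?_
      · intro p hp
        simp only [mem_filter, HasAntidiagonal.mem_antidiagonal, mem_range] at hp ⊢
        exact ⟨by omega, hp.2.1⟩
      · intro a ha
        simp only [mem_filter, HasAntidiagonal.mem_antidiagonal, mem_range] at ha ⊢
        obtain ⟨c, hc⟩ := hn.1
        obtain ⟨d, hd⟩ := ha.2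
        exact ⟨by omega, ha.2, ⟨c - d - 1, by omega⟩⟩
      · intro p hp
        simp only [mem_filter, HasAntidiagonal.mem_antidiagonal] at hp
        exact Prod.ext rfl (by simp only; omega)
      · intro a _
        rfl
      · intro p hp
        simp only [mem_filter, HasAntidiagonal.mem_antidiagonal] at hp
        obtain ⟨h2, h3, h4⟩ := hp
        rw [bt_eq h3.pos h4.pos, ← h2, Nat.cast_add_choose,
          ← Nat.mul_factorial_pred (show p.1 + p.2 ≠ 0 by omega), Nat.cast_mul]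
        have h5 : ((p.1 + p.2 : ℕ) : ℝ) ≠ 0 := by exact_mod_cast (show p.1 + p.2 ≠ 0 by omega)
        have h6 : (p.1.factorial : ℝ) ≠ 0 := by exact_mod_cast p.1.factorial_ne_zero
        have h7 : (p.2.factorial : ℝ) ≠ 0 := by exact_mod_cast p.2.factorial_ne_zero
        field_simp
    rw [h1, ← mul_sum, Asym.card_odd n hn0, show (4 : ℝ) ^ n = 2 ^ n * 2 ^ n by
      rw [← mul_pow]; norm_num]
    ring
  · rw [mul_zero, mul_zero]
    refine sum_eq_zero fun p hp => ?_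
    exfalso
    obtain ⟨h1, ⟨a, ha⟩, ⟨b, hb⟩⟩ := mem_filter.1 hp
    rw [HasAntidiagonal.mem_antidiagonal] at h1
    exact hn ⟨⟨a + b + 1, by omega⟩, by omega⟩

theorem ph_eq (n k : ℕ) :
    Ph n k (QF.q n) = 2 ^ k * (4 ^ n * PowerSeries.coeff n (GZ ^ k)) := by
  have h1 : Ph n k (QF.q n) = ∑ κ ∈ OT (Fin k × Bool) n, ∏ i,
      (fun p : ℕ × ℕ => bt p.1 p.2 * (2 / (p.1 : ℝ) * (2 / (p.2 : ℝ))))
        (κ (i, true), κ (i, false)) := by
    rw [← phA_single, PhA, Ph]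
    refine sum_congr rfl fun κ hκ => ?_
    rw [QF.face_main n κ hκ, Fintype.prod_prod_type, mul_comm]
    push_cast
    rw [← prod_mul_distrib]
    refine prod_congr rfl fun i _ => ?_
    rw [Fintype.prod_bool]
  have h2 : (PowerSeries.mk fun n => ∑ p ∈ antidiagonal n with Odd p.1 ∧ Odd p.2,
      bt p.1 p.2 * (2 / (p.1 : ℝ) * (2 / (p.2 : ℝ)))) =
      PowerSeries.C (2 : ℝ) * PowerSeries.rescale (4 : ℝ) GZ := by
    ext j
    rw [PowerSeries.coeff_mk, tot_eq, PowerSeries.coeff_C_mul, PowerSeries.coeff_rescale]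
  rw [h1.trans (sum_OT_eq (fun p : ℕ × ℕ => bt p.1 p.2 * (2 / (p.1 : ℝ) * (2 / (p.2 : ℝ))))
    n k), h2, mul_pow, ← map_pow, ← map_pow, PowerSeries.coeff_C_mul,
    PowerSeries.coeff_rescale]

theorem zt_nonneg (n : ℕ) : 0 ≤ zt n := tsum_nonneg fun _ => by positivity

theorem zt_le {n : ℕ} (hn : 2 ≤ n) : zt n ≤ 1 + 4 / 2 ^ n := by
  refine Real.tsum_le_of_sum_range_le (fun _ => by positivity) fun N => ?_
  refine le_of_eq_of_le ?_ (Asym.zeta N n hn)
  rw [← Finset.Ico_add_one_right_eq_Icc, Finset.sum_Ico_eq_sum_range, Nat.add_sub_cancel]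
  refine sum_congr rfl fun h _ => ?_
  push_cast
  rw [add_comm]

theorem bt_nonneg (a b : ℕ) : 0 ≤ bt a b := by
  have := zt_nonneg (a + b)
  unfold bt
  positivity

theorem bt_le {a b : ℕ} (ha : 1 ≤ a) (hb : 1 ≤ b) :
    bt a b * (2 / (a : ℝ) * (2 / (b : ℝ))) ≤ 4 ^ (a + b) * cyl a b := by
  rw [bt_eq ha hb]
  have h1 := zt_le (show 2 ≤ a + b by omega)
  have h2 : (4 : ℝ) ^ (a + b) * cyl a b = 4 * 2 ^ (a + b) * (1 + 4 / 2 ^ (a + b)) *
      (a + b - 1).factorial / (a.factorial * b.factorial) := by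
    unfold cyl
    rw [show (4 : ℝ) ^ (a + b) = 2 ^ (a + b) * 2 ^ (a + b) by rw [← mul_pow]; norm_num]
    have h6 : (a.factorial : ℝ) ≠ 0 := by exact_mod_cast a.factorial_ne_zero
    have h7 : (b.factorial : ℝ) ≠ 0 := by exact_mod_cast b.factorial_ne_zero
    field_simp
  rw [h2]
  gcongr

theorem coeff_le_eval (p : Polynomial ℝ) (h0 : ∀ n, 0 ≤ p.coeff n) (k D : ℕ) :
    (p ^ k).coeff D ≤ p.eval 1 ^ k := by
  rw [← Polynomial.eval_pow]
  refine le_trans ?_ (Xi.sum_coeff_le_eval _ (Xi.coeff_pow_nonneg p h0 k) (D + 1))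
  exact single_le_sum (f := fun i => (p ^ k).coeff i)
    (fun i _ => Xi.coeff_pow_nonneg p h0 k i) (mem_range.2 (Nat.lt_succ_self D))

theorem ph_le {D k : ℕ} {f : QF.Gm} {E : ℝ} (hE : 0 ≤ E) {T : ℕ → ℝ} (hT : ∀ j, 0 ≤ T j)
    (h : ∀ κ ∈ OT (Fin k × Bool) D,
      |((MvPolynomial.constantCoeff (QF.ddI κ f) : ℚ) : ℝ)| ≤
        E * ∏ a, (2 / (κ a : ℝ) * T (κ a))) :
    |Ph D k f| ≤ 4 ^ D * E * (Xi.gen T D).eval 1 ^ k := by
  have hc0 : ∀ n, 0 ≤ (Xi.gen T D).coeff n := fun n => by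
    rw [Xi.gen_coeff]
    exact sum_nonneg fun p _ => Xi.wt_nonneg hT p
  refine le_trans ?_ (mul_le_mul_of_nonneg_left
    ((Xi.sum_OT_le hT D k).trans (coeff_le_eval _ hc0 k D)) (by positivity))
  rw [Ph, mul_sum]
  refine (abs_sum_le_sum_abs _ _).trans (sum_le_sum fun κ hκ => ?_)
  have hb : 0 ≤ ∏ i, bt (κ (i, true)) (κ (i, false)) := prod_nonneg fun i _ => bt_nonneg _ _
  have hT' : 0 ≤ ∏ a, T (κ a) := prod_nonneg fun a _ => hT _
  simp only [OT, mem_filter, Fintype.mem_piFinset] at hκ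
  have h5 := hκ.2.2
  rw [Fintype.sum_prod_type] at h5
  simp only [Fintype.sum_bool] at h5
  have h6 : (∏ i, bt (κ (i, true)) (κ (i, false))) * ∏ a, 2 / (κ a : ℝ) ≤
      4 ^ D * ∏ i, cyl (κ (i, true)) (κ (i, false)) := by
    rw [← h5, ← prod_pow_eq_pow_sum, ← prod_mul_distrib, Fintype.prod_prod_type,
      ← prod_mul_distrib]
    refine prod_le_prod (fun i _ => mul_nonneg (bt_nonneg _ _) (prod_nonneg fun _ _ => by
      positivity)) fun i _ => ?_
    rw [Fintype.prod_bool]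
    exact bt_le (hκ.2.1 _).pos (hκ.2.1 _).pos
  rw [abs_mul, abs_of_nonneg hb]
  refine (mul_le_mul_of_nonneg_right (h κ (by
    simp only [OT, mem_filter, Fintype.mem_piFinset]; exact hκ)) hb).trans ?_
  rw [prod_mul_distrib]
  have h7 := mul_le_mul_of_nonneg_left h6 (mul_nonneg hE hT')
  calc _ = E * (∏ a, T (κ a)) * ((∏ i, bt (κ (i, true)) (κ (i, false))) *
        ∏ a, 2 / (κ a : ℝ)) := by ring
    _ ≤ _ := h7
    _ = _ := by ring

end Phi0Aux

theorem pPhi0 : SPhi0 := by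
  intro n t
  rw [egf, ee, mul_sum]
  refine sum_congr rfl fun k _ => ?_
  rw [Phi0Aux.ph_eq]
  have h1 : (k.factorial : ℂ) ≠ 0 := by exact_mod_cast k.factorial_ne_zero
  push_cast
  field_simp

theorem pPhi2 : SPhi2 := by
  intro ρ hρ
  obtain ⟨C, hC, hb⟩ := QF.face_bound (97 / 100) (98 / 100) (by norm_num) (by norm_num)
    (by norm_num)
  have hX : 1 ≤ Real.exp (ρ / 2 * 801) := Real.one_le_exp (by positivity)
  refine ⟨C * Real.exp (ρ / 2 * 801), one_le_mul_of_one_le_of_one_le hC hX, fun D hD A hA => ?_⟩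
  have hne : 1 ≤ #A := by
    rw [Nat.succ_le_iff, card_pos, nonempty_iff_ne_empty]
    rintro rfl
    simp only [SP, mem_filter, sum_empty] at hA
    omega
  set T : ℕ → ℝ := fun j => 1 + ((#A - 1 : ℕ) : ℝ) * (98 / 100 : ℝ) ^ j with hTdef
  have hT : ∀ j, 0 ≤ T j := fun j => by simp only [hTdef]; positivity
  set E : ℝ := C ^ (#A ^ 2) * (100 / 97 : ℝ) ^ (D - A.sup id) with hEdef
  have hE : 0 ≤ E := by positivity
  have hc0 : ∀ n, 0 ≤ (Xi.gen T D).coeff n := fun n => by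
    rw [Xi.gen_coeff]
    exact sum_nonneg fun p _ => Xi.wt_nonneg hT p
  have hS0 : 0 ≤ (Xi.gen T D).eval 1 := by
    simpa using Xi.sum_coeff_le_eval _ hc0 0
  have hS := (Xi.gen_eval_le hT D).trans
    (Xi.sum_tot_le (τ := 98 / 100) (by norm_num) (by norm_num) (#A - 1) hT (fun _ => le_rfl) D)
  have hm : (((#A - 1 : ℕ) : ℝ) + 1) = #A := by
    rw [Nat.cast_sub hne]; push_cast; ring
  rw [hm, show (1 - (1 + 98 / 100) / 2 : ℝ)⁻¹ = 100 by norm_num] at hS
  have hr : (1 : ℝ) ≤ (#A : ℝ) ^ 2 := one_le_pow₀ (by exact_mod_cast hne)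
  have hk : ∀ k, |PhA D A k| ≤ 4 ^ D * E * (Xi.gen T D).eval 1 ^ k := fun k =>
    Phi0Aux.ph_le hE hT fun κ hκ => by
      have := (hb D A hA _ κ hκ).1
      rwa [show (97 / 100 : ℝ)⁻¹ = 100 / 97 by norm_num] at this
  have hD0 : (0 : ℝ) < D := by exact_mod_cast hD
  generalize (Xi.gen T D).eval 1 = s at hS hS0 hk
  calc egr (fun k => |PhA D A k|) D ρ
      ≤ egr (fun k => 4 ^ D * E * s ^ k) D ρ := egr_mono hk D hρ
    _ = 4 ^ D * E * ∑ k ∈ range (D + 1), (ρ / 2 * s) ^ k / k.factorial := by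
        rw [egr, mul_sum]
        refine sum_congr rfl fun k _ => ?_
        have h1 : (k.factorial : ℝ) ≠ 0 := by exact_mod_cast k.factorial_ne_zero
        rw [mul_pow, div_pow]
        field_simp
    _ ≤ 4 ^ D * E * Real.exp (ρ / 2 * s) :=
        mul_le_mul_of_nonneg_left (Real.sum_le_exp_of_nonneg (by positivity) _) (by positivity)
    _ ≤ 4 ^ D * E * Real.exp (((#A ^ 2 : ℕ) : ℝ) * (ρ / 2 * 801) + Real.log D * (ρ / 2)) := by
        refine mul_le_mul_of_nonneg_left (Real.exp_le_exp.2 ?_) (by positivity)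
        have h1 : s ≤ Real.log D + 801 * (#A : ℝ) ^ 2 := by linarith
        have h2 := mul_le_mul_of_nonneg_left h1 (show 0 ≤ ρ / 2 by positivity)
        push_cast
        linarith
    _ = _ := by
        rw [Real.exp_add, Real.exp_nat_mul, ← Real.rpow_def_of_pos hD0, mul_pow, hEdef]
        ring

end Pool.Agent.STS.Cy
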