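import Pool.Agent.P.MP_bb7f8f_gt.Q2.Base

set_option linter.unusedSectionVars false

namespace Pool.Agent.STS.Cy
open Equiv Finset Filter Topology

namespace RealAux
open StructUp

variable {H : Type} [Fintype H] [Nonempty H] {σ : Perm H} {N k : ℕ} {T : Tri H N}
  {δ : Datum H k}

lemma ex_idx (hd : Pre σ δ) (hT : IsFr σ T) (hr : Realizes σ T δ) :
    ∃ g : XS N → Fin k × Bool, ∀ a m j, j < δ.h a.1 → g (co T δ a m j) = a := by
  let e : Idx δ ≃ XS N := Equiv.ofBijective _ ⟨cx_inj hd hT hr, cx_surj hd hT hr⟩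
  refine ⟨fun y => (e.symm y).1, fun a m j hj => ?_⟩
  have h : co T δ a m j =
      e ⟨a, ⟨m % δ.w a.1, Nat.mod_lt _ (Nat.zero_lt_of_lt (hd.tlt _))⟩, ⟨j, hj⟩⟩ :=
    (co_mod hd hr _ _ _).symm
  simp only [h, Equiv.symm_apply_apply]

lemma ex_co (hd : Pre σ δ) (hT : IsFr σ T) (hr : Realizes σ T δ) (y : XS N) :
    ∃ a m j, j < δ.h a.1 ∧ y = co T δ a m j := by
  obtain ⟨⟨a, m, j⟩, rfl⟩ := cx_surj hd hT hr y
  exact ⟨a, m, j, j.2, rfl⟩

lemma a_succ (hT : IsFr σ T) (a : Fin k × Bool) (m j : ℕ) :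
    T.1 (co T δ a m (j + 1)) = io N (co T δ a m j) := by
  unfold co
  rw [pow_succ_app, dn_apply, hT.aa]

lemma top_zero (a : Fin k × Bool) (m : ℕ) : Top T (co T δ a m 0) := by
  simp only [co, pow_zero, Perm.one_apply, top_pow]
  exact top_of_mem ⟨_, rfl⟩

lemma th_co (hd : Pre σ δ) (hr : Realizes σ T δ) (x : H) (i : ℕ) :
    ∃ m, (T.2.1 ^ i) (T.2.2 x) = co T δ (δ.c x) m 0 := by
  obtain ⟨m, hm⟩ := co_th (N := N) hd x
  refine ⟨i + m, ?_⟩
  simp only [co, pow_zero, Perm.one_apply]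
  rw [pow_add_app, ← hm T hr]

lemma inv (hd : Pre σ δ) (hT : IsFr σ T) (hr : Realizes σ T δ) {g : XS N → Fin k × Bool}
    (hg : ∀ a m j, j < δ.h a.1 → g (co T δ a m j) = a) (p q : XS N)
    (h : q = io N p ∨ q = T.2.1 p ∨ (q = T.1 p ∧ ¬ Top T p)) : (g p).1 = (g q).1 := by
  obtain ⟨a, m, j, hj, rfl⟩ := ex_co hd hT hr p
  have hio : ∀ j, j < δ.h a.1 → (g (io N (co T δ a m j))).1 = a.1 := fun j hj => by
    rw [co_io hd hT hr _ _ _ hj, hg _ _ _ (by simp only; omega)]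
  rw [hg _ _ _ hj]
  rcases h with rfl | rfl | ⟨rfl, h⟩
  · exact (hio j hj).symm
  · rw [co_f hd hT hr _ _ _ hj, hg _ _ _ hj]
  · rcases j with _ | j
    · exact absurd (top_zero a m) h
    · rw [a_succ hT, hio j (by omega)]

/-- the relation whose classes are the cylinders -/
def CR (T : Tri H N) (p q : XS N) : Prop := q = io N p ∨ q = T.2.1 p ∨ (q = T.1 p ∧ ¬ Top T p)

lemma mk_eq {p q : XS N} (h : CR T p q) : Quot.mk (CR T) p = Quot.mk (CR T) q := Quot.sound h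

lemma mk_co (hd : Pre σ δ) (hT : IsFr σ T) (hr : Realizes σ T δ) (a : Fin k × Bool) (m j : ℕ)
    (hj : j < δ.h a.1) : Quot.mk (CR T) (co T δ a m j) = Quot.mk (CR T) (co T δ a 0 0) := by
  induction j with
  | zero =>
    induction m with
    | zero => rfl
    | succ m ih =>
      rw [← ih]
      exact (mk_eq (Or.inr (Or.inl (co_f hd hT hr _ _ _ hj).symm))).symm
  | succ j ih =>
    rw [← ih (by omega)]
    have h1 : ¬ Top T (co T δ a m (j + 1)) :=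
      hr.r4 _ _ _ (by omega) (by rw [c_bs hd]; exact hj)
    exact (mk_eq (Or.inr (Or.inr ⟨(a_succ hT a m j).symm, h1⟩))).trans (mk_eq (Or.inl rfl)).symm

lemma mk_co' (hd : Pre σ δ) (hT : IsFr σ T) (hr : Realizes σ T δ) (a : Fin k × Bool) (m j : ℕ)
    (hj : j < δ.h a.1) :
    Quot.mk (CR T) (co T δ a m j) = Quot.mk (CR T) (co T δ (a.1, true) 0 0) := by
  obtain ⟨i, _ | _⟩ := a
  · exact (mk_eq (Or.inl (co_io hd hT hr _ _ _ hj).symm)).trans
      (mk_co hd hT hr (i, true) _ _ (by simp only at hj ⊢; omega))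
  · exact mk_co hd hT hr _ _ _ hj

lemma card (hd : Pre σ δ) (hT : IsFr σ T) (hr : Realizes σ T δ) : xcyl T = k := by
  obtain ⟨g, hg⟩ := ex_idx hd hT hr
  unfold xcyl
  rw [Nat.card_eq_of_bijective (Quot.lift (fun y => (g y).1) (inv hd hT hr hg)) ⟨?_, ?_⟩,
    Nat.card_eq_fintype_card, Fintype.card_fin]
  · rintro ⟨p⟩ ⟨q⟩ h
    obtain ⟨a, m, j, hj, rfl⟩ := ex_co hd hT hr p
    obtain ⟨a', m', j', hj', rfl⟩ := ex_co hd hT hr q
    have h1 : a.1 = a'.1 := by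
      rw [← hg a m j hj, ← hg a' m' j' hj']
      exact h
    exact (mk_co' hd hT hr _ _ _ hj).trans (h1 ▸ (mk_co' hd hT hr _ _ _ hj').symm)
  · intro i
    exact ⟨Quot.mk _ (co T δ (i, true) 0 0), congrArg Prod.fst (hg (i, true) 0 0 (hd.hpos i))⟩

lemma conn (hd : Pre σ δ) (hT : IsFr σ T) (hr : Realizes σ T δ) : Conn (δ.α, δ.c) := by
  obtain ⟨g, hg⟩ := ex_idx hd hT hr
  have h0 : ∀ x y : H, (δ.c x).1 = (δ.c y).1 →
      Relation.EqvGen (fun a b => b = δ.α a ∨ (δ.c b).1 = (δ.c a).1) x y :=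
    fun x y h => Relation.EqvGen.rel _ _ (Or.inr h.symm)
  have h1 : ∀ p q : XS N, (g p).1 = (g q).1 →
      Relation.EqvGen (fun a b => b = δ.α a ∨ (δ.c b).1 = (δ.c a).1) (δ.bs (g p)) (δ.bs (g q)) :=
    fun p q h => h0 _ _ (by rw [c_bs hd, c_bs hd, h])
  have h2 : ∀ x i, g ((T.2.1 ^ i) (T.2.2 x)) = δ.c x := fun x i => by
    obtain ⟨m, hm⟩ := th_co hd hr x i
    rw [hm, hg _ _ _ (hd.hpos _)]
  have h3 : ∀ p q : XS N,
      Relation.EqvGen (fun p q => q = io N p ∨ q = T.1 p ∨ q = T.2.1 p) p q →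
      Relation.EqvGen (fun a b => b = δ.α a ∨ (δ.c b).1 = (δ.c a).1)
        (δ.bs (g p)) (δ.bs (g q)) := by
    intro p q h
    induction h with
    | rel p q h =>
      rcases h with rfl | rfl | rfl
      · exact h1 _ _ (inv hd hT hr hg _ _ (Or.inl rfl))
      · obtain ⟨a, m, j, hj, rfl⟩ := ex_co hd hT hr p
        rcases j with _ | j
        · obtain ⟨x, i, hi, h4⟩ := co_red (N := N) hd m (δ.bs a)
          have h5 : co T δ a m 0 = (T.2.1 ^ i) (T.2.2 x) := by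
            simp only [co, pow_zero, Perm.one_apply]
            exact h4 T hr
          have h6 : T.1 ((T.2.1 ^ i) (T.2.2 x)) = (T.2.1 ^ (δ.ℓ x - 1 - i)) (T.2.2 (δ.α x)) := by
            rw [hr.r1, a_row hT _ _ (fun i h1 h2 => hr.r3 x i h1 (by omega)) _ (by omega)]
            congr 3; omega
          rw [h5, h6, h2, h2]
          exact ((h0 _ x (by rw [c_bs hd])).trans _ _ _
            (Relation.EqvGen.rel _ _ (Or.inl rfl))).trans _ _ _ (h0 _ _ (by rw [c_bs hd]))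
        · exact h1 _ _ (inv hd hT hr hg _ _ (Or.inr (Or.inr ⟨rfl,
            hr.r4 _ _ _ (by omega) (by rw [c_bs hd]; exact hj)⟩)))
      · exact h1 _ _ (inv hd hT hr hg _ _ (Or.inr (Or.inl rfl)))
    | refl => exact Relation.EqvGen.refl _
    | symm _ _ _ ih => exact ih.symm _ _
    | trans _ _ _ _ _ ih ih' => exact ih.trans _ _ _ ih'
  intro x y
  have h4 := h3 _ _ (hT.conn ((T.2.1 ^ 0) (T.2.2 x)) ((T.2.1 ^ 0) (T.2.2 y)))
  rw [h2, h2] at h4
  exact ((h0 x _ (by rw [c_bs hd])).trans _ _ _ h4).trans _ _ _ (h0 _ y (by rw [c_bs hd]))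

end RealAux

theorem pReal : SReal := fun _ _ _ _ _ _ _ _ _ hT hd hr =>
  ⟨RealAux.card ⟨hd.lab, hd.pos, hd.hpos, hd.tlt⟩ hT hr,
    RealAux.conn ⟨hd.lab, hd.pos, hd.hpos, hd.tlt⟩ hT hr⟩

end Pool.Agent.STS.Cy
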