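import Pool.Agent.P.MP_bb7f8f_gt.Q2.Base

/-!
The first return map to a core is again a vertex structure.
-/

set_option linter.unusedSectionVars false

namespace Pool.Agent.STS.Cy
open Equiv Finset Filter Topology

namespace RedAux

variable {H : Type} [Fintype H] [DecidableEq H] {σ : Perm H} {Y : Finset H}

theorem same_red (y : {x // x ∈ Y}) : σ.SameCycle y.1 (red σ Y y).1 := by
  rw [red_apply, nxt, Perm.sameCycle_pow_right, Perm.sameCycle_apply_right]

theorem same_pow (n : ℕ) (y : {x // x ∈ Y}) : σ.SameCycle y.1 ((red σ Y ^ n) y).1 := by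
  induction n with
  | zero => exact Perm.SameCycle.refl _ _
  | succ n ih =>
    rw [pow_succ', Perm.mul_apply]
    exact ih.trans (same_red _)

theorem red_of_pow (n : ℕ) : ∀ y y' : {x // x ∈ Y}, (σ ^ n) y.1 = y'.1 →
    (red σ Y).SameCycle y y' := by
  induction n using Nat.strong_induction_on with
  | _ n ih =>
  intro y y' h
  rcases n with _ | n
  · rw [Subtype.ext (show y.1 = y'.1 from h)]
  rw [pow_succ, Perm.mul_apply] at h
  have h1 : sInf {j : ℕ | (σ ^ j) (σ y.1) ∈ Y} ≤ n :=
    Nat.sInf_le (show (σ ^ n) (σ y.1) ∈ Y by rw [h]; exact y'.2)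
  obtain ⟨e, he⟩ := Nat.exists_eq_add_of_le h1
  refine Perm.sameCycle_apply_left.1 (ih e (by omega) _ _ ?_)
  rw [red_apply, nxt, ← Perm.mul_apply, ← pow_add, add_comm, ← he, h]

theorem red_same (y y' : {x // x ∈ Y}) : (red σ Y).SameCycle y y' ↔ σ.SameCycle y.1 y'.1 := by
  constructor
  · intro h
    obtain ⟨n, rfl⟩ := h.exists_nat_pow_eq
    exact same_pow n y
  · intro h
    obtain ⟨n, hn⟩ := h.exists_nat_pow_eq
    exact red_of_pow n y y' hn

end RedAux

open RedAux in
theorem pRed : SRed := by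
  intro H J _ _ _ _ σ π v D M hV Y s hS hY
  have hc : #Y + 2 * s = 2 * D := by rw [← hY, card_add_card_compl, hV.card]
  refine ⟨by omega, {j // ∃ x ∈ Y, π x = j}, inferInstance, inferInstance,
    fun y => ⟨π y.1, y.1, y.2, rfl⟩, fun j => #{x ∈ Y | π x = j.1}, ⟨fun x y => ?_, fun j => ?_,
    fun j => hS.odd j.1 j.2⟩, ?_, ?_⟩
  · rw [red_same, ← hV.cyc.same, Subtype.ext_iff]
  · refine card_nbij (fun y => y.1) (fun y hy => ?_) (fun y _ y' _ h => Subtype.ext h)
      fun x hx => ?_
    · simp only [coe_filter, mem_univ, true_and, Set.mem_ofPred_eq] at hy ⊢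
      exact ⟨y.2, congrArg Subtype.val hy⟩
    · simp only [coe_filter, Set.mem_ofPred_eq] at hx
      exact ⟨⟨x, hx.1⟩, by simpa [Subtype.ext_iff] using hx.2, rfl⟩
  · rw [Fintype.card_coe]; omega
  · rw [← card_image_of_injective _ Subtype.val_injective]
    refine (card_le_card (t := univ.filter (fun j => v j = 1) ∪ Yᶜ.image π) fun j hj => ?_).trans
      ((card_union_le _ _).trans (add_le_add hV.pole (card_image_le.trans hY.le)))
    obtain ⟨j, hj', rfl⟩ := mem_image.1 hj
    have h1 : #{x ∈ Y | π x = j.1} = 1 := (mem_filter.1 hj').2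
    by_contra h2
    simp only [mem_union, mem_filter, mem_univ, true_and, mem_image, mem_compl, not_or,
      not_exists, not_and] at h2
    refine h2.1 ?_
    rw [← hV.cyc.card, ← h1]
    congr 1
    ext x
    simp only [mem_filter, mem_univ, true_and]
    exact ⟨fun h => ⟨by_contra fun hx => h2.2 x hx h, h⟩, fun h => h.2⟩

end Pool.Agent.STS.Cy
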