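import Pool.Agent.P.MP_bb7f8f_gt.Q2.Base

set_option linter.unusedSectionVars false

namespace Pool.Agent.STS.Cy
open Equiv Finset Filter Topology

namespace RelAux

variable {H I I' : Type} [Fintype H] [Fintype I] [DecidableEq I] [Fintype I'] [DecidableEq I']

/-- relabelling of faces -/
def fe (e : I ≃ I') : I × Bool ≃ I' × Bool := e.prodCongr (Equiv.refl Bool)

@[simp] theorem fe_apply (e : I ≃ I') (i : I) (b : Bool) : fe e (i, b) = (e i, b) := rfl

/-- relabelling of labellings -/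
def rl (e : I ≃ I') (c : H → Option (I × Bool)) : H → Option (I' × Bool) :=
  fun x => (c x).map (fe e)

theorem rl_some (e : I ≃ I') (c : H → Option (I × Bool)) (x : H) (f : I × Bool) :
    rl e c x = some (fe e f) ↔ c x = some f := by
  unfold rl
  rcases c x with _ | g
  · simp
  · simp

theorem rl_none (e : I ≃ I') (c : H → Option (I × Bool)) (x : H) :
    rl e c x = none ↔ c x = none := by
  simp [rl]

theorem rl_eq (e : I ≃ I') (c : H → Option (I × Bool)) (x y : H) :
    rl e c x = rl e c y ↔ c x = c y :=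
  (Option.map_injective (fe e).injective).eq_iff

theorem pr_rl {R : Type} [AddCommMonoid R] (e : I ≃ I') (c : H → Option (I × Bool)) (l : H → R)
    (i : I) (b : Bool) : pr (rl e c) l (e i, b) = pr c l (i, b) := by
  unfold pr
  refine Finset.sum_congr (Finset.filter_congr fun x _ => ?_) fun _ _ => rfl
  exact rl_some e c x (i, b)

theorem sol_rl (e : I ≃ I') (α : Perm H) (c : H → Option (I × Bool)) (δ : I' × Bool → ℤ)
    (l : H → ℤ) : Sol α (rl e c) δ l ↔ Sol α c (fun f => δ (fe e f)) l := by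
  unfold Sol
  refine and_congr Iff.rfl ?_
  rw [e.surjective.forall]
  simp only [pr_rl, fe_apply]

theorem sol_rl0 (e : I ≃ I') (α : Perm H) (c : H → Option (I × Bool)) (l : H → ℤ) :
    Sol α (rl e c) 0 l ↔ Sol α c 0 l := sol_rl e α c 0 l

theorem static_rl (e : I ≃ I') (α : Perm H) (c : H → Option (I × Bool)) (x : H) :
    Static α (rl e c) x ↔ Static α c x := by
  simp only [Static, sol_rl0]

theorem vo_rl (e : I ≃ I') (α : Perm H) (c : H → Option (I × Bool)) :
    VO α (rl e c) = VO α c := by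
  ext l
  change ((∀ x, _) ∧ ∀ i, _) ↔ ((∀ x, _) ∧ ∀ i, _)
  refine and_congr Iff.rfl ?_
  rw [e.surjective.forall]
  simp only [pr_rl]

theorem cn_rl (e : I ≃ I') (α : Perm H) (c : H → Option (I × Bool)) (m : ℕ) :
    cn α (rl e c) 0 m = cn α c 0 m := by
  unfold cn
  refine Set.ncard_congr (fun p _ => (p.1, fun i => p.2.1 (e i), fun i => p.2.2 (e i))) ?_ ?_ ?_
  · rintro p ⟨h1, h2, h3, h4, h5⟩
    refine ⟨(sol_rl0 e α c _).1 h1, h2, fun i => h3 _, fun i => ?_, ?_⟩
    · simpa only [pr_rl, Pi.zero_apply] using h4 (e i)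
    · rw [← h5, ← e.sum_comp]
      simp only [pr_rl, Pi.zero_apply]
  · rintro ⟨l, h, t⟩ ⟨l', h', t'⟩ _ _ hp
    simp only [Prod.mk.injEq] at hp ⊢
    refine ⟨hp.1, funext fun j => ?_, funext fun j => ?_⟩
    · simpa using congrFun hp.2.1 (e.symm j)
    · simpa using congrFun hp.2.2 (e.symm j)
  · rintro p ⟨h1, h2, h3, h4, h5⟩
    refine ⟨(p.1, fun j => p.2.1 (e.symm j), fun j => p.2.2 (e.symm j)),
      ⟨(sol_rl0 e α c _).2 h1, h2, fun j => h3 _, ?_, ?_⟩, by simp⟩
    · rw [e.surjective.forall]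
      simpa only [pr_rl, Pi.zero_apply, Equiv.symm_apply_apply] using h4
    · rw [← h5, ← e.sum_comp]
      simp only [pr_rl, Pi.zero_apply, Equiv.symm_apply_apply]

theorem zz_rl (e : I ≃ I') (α : Perm H) (c : H → Option (I × Bool)) (d : ℕ) :
    zz α (rl e c) d = zz α c d := by
  simp only [zz, cn_rl]

theorem nu_rl (e : I ≃ I') (α : Perm H) (c : H → Option (I × Bool)) :
    nu α (rl e c) = nu α c := by
  unfold nu
  congr 1
  ext ε
  have h : (fun f => eo (rl e c) ε (fe e f)) = eo c ε := funext fun f => pr_rl e c _ f.1 f.2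
  simp only [Set.mem_ofPred_eq, Good, sol_rl, static_rl, h]

theorem ok_rl (e : I ≃ I') (α : Perm H) (c : H → Option (I × Bool)) (d : ℕ) :
    Ok α (rl e c) d ↔ Ok α c d := by
  unfold Ok
  rw [vo_rl]
  simp only [rl_none, static_rl, Fintype.card_congr e]

theorem tot_rl (e : I ≃ I') (c : H → I × Bool) : tot (fun x => fe e (c x)) = rl e (tot c) := rfl

/-- relabelling of diagrams -/
def dgE (e : I ≃ I') : Dg H I ≃ Dg H I' :=
  (Equiv.refl _).prodCongr (Equiv.piCongrRight fun _ => fe e)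

theorem dgE_apply (e : I ≃ I') (p : Dg H I) : dgE e p = (p.1, fun x => fe e (p.2 x)) := rfl

variable [DecidableEq H]

theorem prim_rl (e : I ≃ I') (σ : Perm H) (p : Dg H I) : Prim σ (dgE e p) ↔ Prim σ p := by
  rw [dgE_apply]
  unfold Prim IsDg Conn
  refine and_congr (and_congr Iff.rfl ⟨fun h => ⟨fun x y => ?_, fun f => ?_⟩,
    fun h => ⟨fun x y => ?_, fun f => ?_⟩⟩) (and_congr ?_ ?_)
  · rw [← h.1 x y]; exact (fe e).injective.eq_iff.symm
  · obtain ⟨x, hx⟩ := h.2 (fe e f)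
    exact ⟨x, (fe e).injective hx⟩
  · rw [← h.1 x y]; exact (fe e).injective.eq_iff
  · obtain ⟨x, hx⟩ := h.2 ((fe e).symm f)
    exact ⟨x, by simp [hx]⟩
  · have h : ∀ a b : H, (fe e (p.2 b)).1 = (fe e (p.2 a)).1 ↔ (p.2 b).1 = (p.2 a).1 :=
      fun a b => e.injective.eq_iff
    simp only [h]
  · simp only [tot_rl, static_rl]

theorem tp_rl (e : I ≃ I') (σ : Perm H) :
    TP σ I (fun _ => True) = TP σ I' (fun _ => True) := by
  unfold TP
  refine Finset.sum_equiv (dgE e) (fun p => ?_) fun p _ => ?_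
  · simp only [Finset.mem_filter, Finset.mem_univ, true_and, and_true, prim_rl]
  · rw [dgE_apply]
    simp only [tot_rl, zz_rl]

/-- relabelling of outer parts -/
def outE (K : Type) (e : I ≃ I') :
    Perm K × (K → Option (I × Bool)) ≃ Perm K × (K → Option (I' × Bool)) :=
  (Equiv.refl _).prodCongr (Equiv.piCongrRight fun _ => Equiv.optionCongr (fe e))

theorem adm_rl (e : I ≃ I') (σ : Perm H) (Y : Finset H) (α : Perm {x // x ∉ Y})
    (c : {x // x ∉ Y} → Option (I × Bool)) : Adm σ Y α (rl e c) ↔ Adm σ Y α c := by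
  constructor
  · intro h
    refine ⟨h.mt, fun x hx => ?_, fun x y hx hy => ?_, fun f => ?_,
      fun x hx => h.outer x ((rl_none e c x).2 hx), (ok_rl e α c _).1 h.ok⟩
    · obtain ⟨h1, h2⟩ := h.inner x (_root_.mt (rl_none e c x).1 hx)
      exact ⟨h1, (rl_eq e c _ _).1 h2⟩
    · exact h.same x y (_root_.mt (rl_none e c x).1 hx) ((rl_eq e c _ _).2 hy)
    · obtain ⟨x, hx⟩ := h.surj (fe e f)
      exact ⟨x, (rl_some e c x f).1 hx⟩
  · intro h
    refine ⟨h.mt, fun x hx => ?_, fun x y hx hy => ?_, fun f => ?_,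
      fun x hx => h.outer x ((rl_none e c x).1 hx), (ok_rl e α c _).2 h.ok⟩
    · obtain ⟨h1, h2⟩ := h.inner x (_root_.mt (rl_none e c x).2 hx)
      exact ⟨h1, (rl_eq e c _ _).2 h2⟩
    · exact h.same x y (_root_.mt (rl_none e c x).2 hx) ((rl_eq e c _ _).1 hy)
    · obtain ⟨x, hx⟩ := h.surj ((fe e).symm f)
      exact ⟨x, by rw [← (fe e).apply_symm_apply f]; exact (rl_some e c x _).2 hx⟩

theorem wi_rl (e : I ≃ I') (σ : Perm H) (Y : Finset H) : WI σ Y I = WI σ Y I' := by
  unfold WI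
  have h : ∀ p : Perm {x // x ∉ Y} × ({x // x ∉ Y} → Option (I × Bool)),
      outE _ e p = (p.1, rl e p.2) := fun _ => rfl
  refine Finset.sum_equiv (outE _ e) (fun p => ?_) fun p _ => ?_
  · simp only [Finset.mem_filter, Finset.mem_univ, true_and, h, adm_rl]
  · simp only [h, zz_rl, nu_rl]

end RelAux

theorem pRel : SRel := fun _ I _ _ _ _ σ =>
  ⟨RelAux.tp_rl (Fintype.equivFin I) σ, fun Y => RelAux.wi_rl (Fintype.equivFin I) σ Y⟩

end Pool.Agent.STS.Cy
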