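import Pool.Agent.P.MP_bb7f8f_gt.Q2.Base

set_option linter.unusedSectionVars false

namespace Pool.Agent.STS.Cy
open Equiv Finset Filter Topology

namespace RestAux

theorem tail (a b : ℕ → ℝ) (n K : ℕ) (B : ℝ) (hb : ∀ k, 0 ≤ b k) (hab : ∀ k, a k ≤ b k)
    (hB : ∀ k ≤ K, a k ≤ B) (hB0 : 0 ≤ B) :
    egr a n 2 ≤ (K + 1) * B + egr b n 4 / 2 ^ K := by
  have h1 : ∀ k, a k * 2 ^ k / (2 ^ k * k.factorial) ≤
      (if k ≤ K then B else 0) + b k * 4 ^ k / (2 ^ k * k.factorial) / 2 ^ K := by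
    intro k
    have hf : (1 : ℝ) ≤ k.factorial := by exact_mod_cast k.factorial_pos
    have hbk := hb k
    have e1 : a k * 2 ^ k / (2 ^ k * k.factorial) = a k / k.factorial := by field_simp
    rw [e1]
    split_ifs with hk
    · have h2 : a k / k.factorial ≤ B := by
        rw [div_le_iff₀ (by positivity)]
        have := hB k hk
        nlinarith
      have h3 : 0 ≤ b k * 4 ^ k / (2 ^ k * k.factorial) / 2 ^ K := by positivity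
      linarith
    · have e2 : b k * 4 ^ k / (2 ^ k * k.factorial) / 2 ^ K =
          b k / k.factorial * (2 ^ k / 2 ^ K) := by
        rw [show (4 : ℝ) ^ k = 2 ^ k * 2 ^ k by rw [← mul_pow]; norm_num]
        field_simp
      have h2 : (1 : ℝ) ≤ 2 ^ k / 2 ^ K := by
        rw [le_div_iff₀ (by positivity), one_mul]
        exact pow_le_pow_right₀ (by norm_num) (by omega)
      have h3 : a k / k.factorial ≤ b k / k.factorial := by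
        have := hab k
        gcongr
      have h4 : 0 ≤ b k / k.factorial := by positivity
      rw [e2, zero_add]
      nlinarith
  unfold egr
  refine (Finset.sum_le_sum fun k _ => h1 k).trans ?_
  rw [Finset.sum_add_distrib, ← Finset.sum_div, ← Finset.sum_filter, Finset.sum_const,
    nsmul_eq_mul]
  have h5 : #{k ∈ range (n + 1) | k ≤ K} ≤ K + 1 := by
    refine (Finset.card_le_card (t := range (K + 1)) fun k hk => ?_).trans (by simp)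
    simp only [Finset.mem_filter, Finset.mem_range] at hk ⊢
    omega
  have h6 : (#{k ∈ range (n + 1) | k ≤ K} : ℝ) ≤ K + 1 := by exact_mod_cast h5
  gcongr

theorem df_pos (D : ℕ) : 0 < DF {D} := by
  simp only [DF, Finset.prod_singleton]
  exact_mod_cast Nat.doubleFactorial_pos _

theorem two_third (j : ℕ) : ((2 : ℝ) / 3) ^ j ≤ (1 / 2) ^ (j / 2) := by
  calc ((2 : ℝ) / 3) ^ j ≤ (2 / 3) ^ (2 * (j / 2)) :=
        pow_le_pow_of_le_one (by norm_num) (by norm_num) (by omega)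
    _ = ((2 / 3) ^ 2) ^ (j / 2) := by rw [pow_mul]
    _ ≤ (1 / 2) ^ (j / 2) := by gcongr; norm_num

theorem expo {l : ℕ} (hl : 60 ≤ l) :
    l ^ 2 + 2 + (2 * l + 6) * (2 * l ^ 2 + 2) + (l + 1) * (3 * l ^ 2) + 3 * (l + 1) ≤
      (l ^ 4 / 4 - 1) / 2 := by
  have h1 : 60 * l ^ 3 ≤ l ^ 4 := by
    calc 60 * l ^ 3 ≤ l * l ^ 3 := by gcongr
      _ = l ^ 4 := by ring
  have h2 : 60 * l ^ 2 ≤ l ^ 3 := by
    calc 60 * l ^ 2 ≤ l * l ^ 2 := by gcongr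
      _ = l ^ 3 := by ring
  have h3 : 60 * l ≤ l ^ 2 := by
    calc 60 * l ≤ l * l := by gcongr
      _ = l ^ 2 := by ring
  have e : l ^ 2 + 2 + (2 * l + 6) * (2 * l ^ 2 + 2) + (l + 1) * (3 * l ^ 2) + 3 * (l + 1) =
      7 * l ^ 3 + 16 * l ^ 2 + 7 * l + 17 := by ring
  rw [e]
  omega

/-- the number of bad matchings -/
theorem bad_le {M D l k : ℕ} {X : ℝ} (hX : 0 ≤ X) (hl : 60 ≤ l) (hM : M ≤ l) (hD : D < 2 ^ (l + 1))
    (hk : k ≤ l ^ 2) :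
    2 ^ (M + 2) * ((D : ℝ) + 1) * X * (1 / 2) ^ (l ^ 4 / 6) +
      (2 * (D : ℝ) * (2 * D + 1) + 1) ^ (2 * k + 2) * (2 / 3) ^ (l ^ 4 / 4 - 1) * X ≤
      2 * 2 ^ ((2 * l + 6) * (2 * l ^ 2 + 2)) * (1 / 2) ^ ((l ^ 4 / 4 - 1) / 2) * X := by
  have hD1 : (D : ℝ) + 1 ≤ 2 ^ (l + 1) := by exact_mod_cast hD
  have hD0 : (0 : ℝ) ≤ D := by positivity
  have h1 : (2 : ℝ) ^ (M + 2) * ((D : ℝ) + 1) ≤ 2 ^ ((2 * l + 6) * (2 * l ^ 2 + 2)) := by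
    calc (2 : ℝ) ^ (M + 2) * ((D : ℝ) + 1) ≤ 2 ^ (M + 2) * 2 ^ (l + 1) := by gcongr
      _ = 2 ^ (M + 2 + (l + 1)) := by rw [← pow_add]
      _ ≤ _ := pow_le_pow_right₀ (by norm_num) (by nlinarith [Nat.zero_le (l ^ 2)])
  have h2 : ((1 : ℝ) / 2) ^ (l ^ 4 / 6) ≤ (1 / 2) ^ ((l ^ 4 / 4 - 1) / 2) :=
    pow_le_pow_of_le_one (by norm_num) (by norm_num) (by omega)
  have h3 : 2 * (D : ℝ) * (2 * D + 1) + 1 ≤ 2 ^ (2 * l + 6) := by
    have e : (2 : ℝ) ^ (2 * l + 6) = 16 * (2 ^ (l + 1) * 2 ^ (l + 1)) := by ring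
    have h4 : ((D : ℝ) + 1) * (D + 1) ≤ 2 ^ (l + 1) * 2 ^ (l + 1) := by gcongr
    rw [e]
    nlinarith
  have h4 : (2 * (D : ℝ) * (2 * D + 1) + 1) ^ (2 * k + 2) ≤
      2 ^ ((2 * l + 6) * (2 * l ^ 2 + 2)) := by
    calc (2 * (D : ℝ) * (2 * D + 1) + 1) ^ (2 * k + 2) ≤ (2 ^ (2 * l + 6)) ^ (2 * k + 2) := by
          gcongr
      _ = 2 ^ ((2 * l + 6) * (2 * k + 2)) := by rw [← pow_mul]
      _ ≤ _ := pow_le_pow_right₀ (by norm_num) (by gcongr)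
  have h5 := two_third (l ^ 4 / 4 - 1)
  have h6 : 2 ^ (M + 2) * ((D : ℝ) + 1) * X * (1 / 2) ^ (l ^ 4 / 6) ≤
      2 ^ ((2 * l + 6) * (2 * l ^ 2 + 2)) * X * (1 / 2) ^ ((l ^ 4 / 4 - 1) / 2) := by gcongr
  have h7 : (2 * (D : ℝ) * (2 * D + 1) + 1) ^ (2 * k + 2) * (2 / 3) ^ (l ^ 4 / 4 - 1) * X ≤
      2 ^ ((2 * l + 6) * (2 * l ^ 2 + 2)) * (1 / 2) ^ ((l ^ 4 / 4 - 1) / 2) * X := by gcongr
  linarith

theorem fac_le {D l k : ℕ} (hD : D < 2 ^ (l + 1)) (hk : k ≤ l ^ 2) (h2 : 2 * l ^ 2 ≤ D) :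
    ((2 * k).factorial : ℝ) * (D : ℝ) ^ k ≤ 2 ^ ((l + 1) * (3 * l ^ 2)) := by
  have h1 : (2 * k).factorial * D ^ k ≤ 2 ^ ((l + 1) * (3 * l ^ 2)) := by
    calc (2 * k).factorial * D ^ k ≤ (2 * k) ^ (2 * k) * D ^ k := by
          gcongr; exact Nat.factorial_le_pow _
      _ ≤ (2 ^ (l + 1)) ^ (2 * k) * (2 ^ (l + 1)) ^ k := by
          gcongr
          · omega
      _ = 2 ^ ((l + 1) * (3 * k)) := by rw [← pow_add, ← pow_mul]; congr 1; ring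
      _ ≤ _ := Nat.pow_le_pow_right (by norm_num) (by gcongr)
  exact_mod_cast h1

theorem small {D l : ℕ} (hl : 60 ≤ l) (hD : D < 2 ^ (l + 1)) (hD0 : 0 < D) :
    (((l ^ 2 : ℕ) : ℝ) + 1) * (2 * 2 ^ ((2 * l + 6) * (2 * l ^ 2 + 2)) *
      (1 / 2) ^ ((l ^ 4 / 4 - 1) / 2) * 2 ^ ((l + 1) * (3 * l ^ 2))) ≤ 1 / 2 / (D : ℝ) ^ 3 := by
  have h1 : (l ^ 2 + 1) * (2 * 2 ^ ((2 * l + 6) * (2 * l ^ 2 + 2)) *
      2 ^ ((l + 1) * (3 * l ^ 2))) * (2 * D ^ 3) ≤ 2 ^ ((l ^ 4 / 4 - 1) / 2) := by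
    have h2 : l ^ 2 + 1 ≤ 2 ^ (l ^ 2) := Nat.lt_two_pow_self
    calc (l ^ 2 + 1) * (2 * 2 ^ ((2 * l + 6) * (2 * l ^ 2 + 2)) *
          2 ^ ((l + 1) * (3 * l ^ 2))) * (2 * D ^ 3) ≤ 2 ^ (l ^ 2) *
          (2 * 2 ^ ((2 * l + 6) * (2 * l ^ 2 + 2)) * 2 ^ ((l + 1) * (3 * l ^ 2))) *
          (2 * (2 ^ (l + 1)) ^ 3) := by gcongr
      _ = 2 ^ (l ^ 2 + 2 + (2 * l + 6) * (2 * l ^ 2 + 2) + (l + 1) * (3 * l ^ 2) +
          3 * (l + 1)) := by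
          rw [← pow_mul, mul_comm (l + 1) 3]
          simp only [pow_add]
          ring
      _ ≤ _ := Nat.pow_le_pow_right (by norm_num) (expo hl)
  have h3 : (((l ^ 2 : ℕ) : ℝ) + 1) * (2 * 2 ^ ((2 * l + 6) * (2 * l ^ 2 + 2)) *
      2 ^ ((l + 1) * (3 * l ^ 2))) * (2 * (D : ℝ) ^ 3) ≤ 2 ^ ((l ^ 4 / 4 - 1) / 2) := by
    exact_mod_cast h1
  have hD1 : (0 : ℝ) < D := by exact_mod_cast hD0
  generalize (2 : ℝ) ^ ((2 * l + 6) * (2 * l ^ 2 + 2)) = x at h3 ⊢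
  generalize (2 : ℝ) ^ ((l + 1) * (3 * l ^ 2)) = y at h3 ⊢
  rw [one_div_pow, div_div, le_div_iff₀ (by positivity)]
  have h4 : (0 : ℝ) < 2 ^ ((l ^ 4 / 4 - 1) / 2) := by positivity
  generalize (2 : ℝ) ^ ((l ^ 4 / 4 - 1) / 2) = w at h3 h4 ⊢
  have e : (((l ^ 2 : ℕ) : ℝ) + 1) * (2 * x * (1 / w) * y) * (2 * (D : ℝ) ^ 3) =
      (((l ^ 2 : ℕ) : ℝ) + 1) * (2 * x * y) * (2 * (D : ℝ) ^ 3) / w := by ring
  rw [e, div_le_one h4]
  exact h3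

theorem large {D l c : ℕ} {C : ℝ} (hC : C ≤ c) (hl : 60 ≤ l) (hc : c ≤ l) (hD : D < 2 ^ (l + 1))
    (hD0 : 0 < D) : C * (D : ℝ) ^ 2 / 2 ^ (l ^ 2) ≤ 1 / 2 / (D : ℝ) ^ 3 := by
  have h1 : c * D ^ 2 * (2 * D ^ 3) ≤ 2 ^ (l ^ 2) := by
    have h2 : c ≤ 2 ^ l := hc.trans Nat.lt_two_pow_self.le
    calc c * D ^ 2 * (2 * D ^ 3) ≤ 2 ^ l * (2 ^ (l + 1)) ^ 2 * (2 * (2 ^ (l + 1)) ^ 3) := by gcongr
      _ = 2 ^ (6 * l + 6) := by ring
      _ ≤ _ := Nat.pow_le_pow_right (by norm_num) (by nlinarith)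
  have h3 : (c : ℝ) * (D : ℝ) ^ 2 * (2 * (D : ℝ) ^ 3) ≤ 2 ^ (l ^ 2) := by exact_mod_cast h1
  have hD1 : (0 : ℝ) < D := by exact_mod_cast hD0
  rw [div_div, div_le_div_iff₀ (by positivity) (by positivity), one_mul]
  refine le_trans ?_ h3
  gcongr

end RestAux

open RestAux in
theorem pRest (hF2 : SF2) (hPos : SPos) (hStr : SStr) (hBadA : SBadA) (hBadB : SBadB) : SRest := by
  intro M
  obtain ⟨C, D₁, hC⟩ := hF2 4 (by norm_num)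
  obtain ⟨c, hc⟩ := exists_nat_ge C
  obtain ⟨D₂, h₂⟩ := log_small (60 + M + c) 4
  refine ⟨max D₁ D₂, fun D hD H J _ _ _ _ σ π v hV => ?_⟩
  obtain ⟨h3, h4⟩ := h₂ D (le_of_max_le_right hD)
  have hlt : D < 2 ^ (Nat.log 2 D + 1) := Nat.lt_pow_succ_log_self (by norm_num) D
  generalize Nat.log 2 D = l at h3 h4 hlt ⊢
  have hl : 60 ≤ l := by omega
  have hl4 : 1 ≤ l ^ 4 := Nat.one_le_pow _ _ (by omega)
  have h60 : 60 * l ^ 4 ≤ D := le_trans (by gcongr; omega) h4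
  have hl2 : l ^ 2 ≤ l ^ 4 := Nat.pow_le_pow_right (by omega) (by norm_num)
  have hM4 : M ^ 4 ≤ D := (Nat.pow_le_pow_left (by omega : M ≤ l) 4).trans (by omega)
  have hX := df_pos D
  have hF := hC D (le_of_max_le_left hD) H J σ π v M hV hM4
  rw [show (4 : ℝ) / 2 = (2 : ℕ) by norm_num, Real.rpow_natCast] at hF
  have hB : ∀ k ≤ l ^ 2, RR σ π (l ^ 4) k ≤ 4 ^ D * DF {D} *
      (2 * 2 ^ ((2 * l + 6) * (2 * l ^ 2 + 2)) * (1 / 2) ^ ((l ^ 4 / 4 - 1) / 2) *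
        2 ^ ((l + 1) * (3 * l ^ 2))) := by
    intro k hk
    have h5 := (((hPos H J σ π v D M hV k).1 (RestP σ π (l ^ 4))).2.2.2.2 _ le_rfl).1
    have h6 : Set.ncard {α : Perm H | ∃ c : H → Fin k × Bool, IsDg σ (α, c) ∧
        RestP σ π (l ^ 4) (α, c)} ≤ Set.ncard {α : Perm H | IsMt α ∧ BadA π (l ^ 4) α} +
        Set.ncard {α : Perm H | IsMt α ∧ BadB σ (2 * k + 2) (l ^ 4) α} := by
      refine le_trans (Set.ncard_le_ncard ?_) (Set.ncard_union_le _ _)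
      rintro α ⟨c, h7, h8⟩
      have h9 := hStr H J (Fin k) σ π v D M hV (l ^ 4) hl4 (by omega) (α, c) h7 h8
      rw [Fintype.card_fin] at h9
      exact h9.imp (fun h => ⟨h7.1, h⟩) fun h => ⟨h7.1, h⟩
    have h7 := hBadA H J σ π v D M hV (l ^ 4) hl4
    have h8 := hBadB H σ D hV.card (2 * k + 2) (l ^ 4)
    have h9 := bad_le (M := M) hX.le hl (by omega) hlt hk
    have h10 := fac_le hlt hk (by omega)
    have h11 : (Set.ncard {α : Perm H | ∃ c : H → Fin k × Bool, IsDg σ (α, c) ∧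
        RestP σ π (l ^ 4) (α, c)} : ℝ) ≤
        2 * 2 ^ ((2 * l + 6) * (2 * l ^ 2 + 2)) * (1 / 2) ^ ((l ^ 4 / 4 - 1) / 2) * DF {D} := by
      refine le_trans ?_ h9
      refine le_trans ?_ (add_le_add h7 h8)
      exact_mod_cast h6
    refine h5.trans ?_
    rw [mul_assoc (Set.ncard _ : ℝ)]
    refine le_trans (mul_le_mul_of_nonneg_left
      (mul_le_mul h11 h10 (by positivity) (by positivity)) (by positivity)) (le_of_eq ?_)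
    ring
  have hT := tail (RR σ π (l ^ 4)) (XX σ) D (l ^ 2) _
    (fun k => ((hPos H J σ π v D M hV k).1 fun _ => True).1)
    (fun k => ((hPos H J σ π v D M hV k).1 (RestP σ π (l ^ 4))).2.1) hB (by positivity)
  have hS := small hl hlt (by omega)
  have hL := large hc hl (by omega) hlt (by omega)
  have hY : (0 : ℝ) ≤ 4 ^ D * DF {D} := by positivity
  have hS' := mul_le_mul_of_nonneg_left hS hY
  have hL' := mul_le_mul_of_nonneg_left hL hY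
  have hF' : egr (XX σ) D 4 / 2 ^ (l ^ 2) ≤ 4 ^ D * DF {D} * (C * (D : ℝ) ^ 2 / 2 ^ (l ^ 2)) := by
    refine (div_le_div_of_nonneg_right hF (by positivity)).trans (le_of_eq ?_)
    ring
  have e : 4 ^ D * DF {D} / (D : ℝ) ^ 3 = 4 ^ D * DF {D} * (1 / 2 / (D : ℝ) ^ 3) +
      4 ^ D * DF {D} * (1 / 2 / (D : ℝ) ^ 3) := by ring
  rw [e]
  refine hT.trans (add_le_add (le_trans (le_of_eq ?_) hS') (hF'.trans hL'))
  ring

end Pool.Agent.STS.Cy
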