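import Pool.Agent.P.MP_bb7f8f_gt.Q2.Base

/-!
Comparison of the number of isomorphism classes with the weighted count, and the splitting of
both counts according to the number of cylinders.
-/

set_option linter.unusedSectionVars false

namespace Pool.Agent.STS.Cy
open Equiv Finset Filter Topology

namespace SandAux

variable {m : ℕ}

theorem card_mono {P Q : Perm (Side m) → Prop} (h : ∀ γ, P γ → Q γ) :
    Nat.card {γ // P γ} ≤ Nat.card {γ // Q γ} :=
  Nat.card_le_card_of_injective (fun a => ⟨a.1, h _ a.2⟩) fun _ _ e =>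
    Subtype.ext (Subtype.mk.inj e)

/-- the map on classes induced by an inclusion of families -/
def clMap {P Q : Perm (Side m) → Prop} (h : ∀ γ, P γ → Q γ) : Class.Cl P → Class.Cl Q :=
  Quot.map (fun a => ⟨a.1, h _ a.2⟩) fun _ _ hab => hab

theorem clMap_inj {P Q : Perm (Side m) → Prop} (h : ∀ γ, P γ → Q γ) :
    Function.Injective (clMap h) := by
  intro a b e
  induction a using Quot.ind with
  | mk a =>
    induction b using Quot.ind with
    | mk b =>
      have e' : (Quot.mk _ ⟨a.1, h _ a.2⟩ : Class.Cl Q) = Quot.mk _ ⟨b.1, h _ b.2⟩ := e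
      exact (Class.mk_eq P).2 ((Class.mk_eq Q).1 e')

theorem cl_mono {P Q : Perm (Side m) → Prop} (h : ∀ γ, P γ → Q γ) :
    Nat.card (Class.Cl P) ≤ Nat.card (Class.Cl Q) :=
  Nat.card_le_card_of_injective _ (clMap_inj h)

theorem card_split (P B : Perm (Side m) → Prop) :
    Nat.card {γ // P γ} ≤ Nat.card {γ // P γ ∧ B γ} + Nat.card {γ // P γ ∧ ¬ B γ} := by
  rw [← Nat.card_sum]
  refine Nat.card_le_card_of_surjective
    (Sum.elim (fun a => ⟨a.1, a.2.1⟩) (fun a => ⟨a.1, a.2.1⟩)) fun a => ?_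
  by_cases h : B a.1
  · exact ⟨Sum.inl ⟨a.1, a.2, h⟩, rfl⟩
  · exact ⟨Sum.inr ⟨a.1, a.2, h⟩, rfl⟩

theorem autc_le_one {γ : Perm (Side m)} (h : NoAut γ) : autc γ ≤ 1 := by
  have : Subsingleton {g : Perm (Side m) // IsRelabel g ∧ g * γ = γ * g} :=
    ⟨fun a b => Subtype.ext ((h _ a.2.1 a.2.2).trans (h _ b.2.1 b.2.2).symm)⟩
  exact Finite.card_le_one_iff_subsingleton.2 this

theorem sum_aut (P : Perm (Side m) → Prop) (M : ℕ) (hB : ∀ γ, P γ → autc γ ≤ M) :
    Nat.card (Σ a : {γ : Perm (Side m) // P γ},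
        {g : Perm (Side m) // IsRelabel g ∧ g * a.1 = a.1 * g}) ≤
      Nat.card {γ : Perm (Side m) // P γ} +
        M * Nat.card {γ : Perm (Side m) // P γ ∧ ¬ NoAut γ} := by
  classical
  rw [Nat.card_sigma]
  calc ∑ a : {γ : Perm (Side m) // P γ},
        Nat.card {g : Perm (Side m) // IsRelabel g ∧ g * a.1 = a.1 * g}
      ≤ ∑ a : {γ : Perm (Side m) // P γ}, (1 + M * if ¬ NoAut a.1 then 1 else 0) :=
        Finset.sum_le_sum fun a _ => by
          have h := hB a.1 a.2
          show autc a.1 ≤ _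
          split_ifs with h4
          · have := autc_le_one h4
            omega
          · omega
    _ = Nat.card {γ : Perm (Side m) // P γ} +
        M * #{a : {γ : Perm (Side m) // P γ} | ¬ NoAut a.1} := by
        rw [Finset.sum_add_distrib, ← Finset.mul_sum, Finset.sum_boole, Finset.sum_const,
          Finset.card_univ, Nat.card_eq_fintype_card, smul_eq_mul, mul_one, Nat.cast_id]
    _ ≤ _ := by
        refine Nat.add_le_add_left (Nat.mul_le_mul_left _ ?_) _
        rw [← Fintype.card_subtype, ← Nat.card_eq_fintype_card]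
        exact Nat.card_le_card_of_injective
          (fun a => ⟨a.1.1, a.1.2, a.2⟩) fun a b h =>
            Subtype.ext (Subtype.ext (Subtype.mk.inj h))

/-- the sandwich for a fixed number of squares -/
theorem sand_one (P G : Perm (Side m) → Prop) (M : ℕ) (hM : 1 ≤ M)
    (hP : ∀ γ γ', Iso γ γ' → P γ → P γ') (hB : ∀ γ, P γ → autc γ ≤ M)
    (h1 : ∀ γ, G γ → P γ) (h2 : ∀ γ, P γ → NoAut γ → G γ) :
    |(Nat.card (Class.Cl G) : ℝ) - (Nat.card {γ // P γ} : ℝ) / (2 ^ m * m.factorial)| ≤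
      M * ((Nat.card {γ // P γ ∧ ¬ NoAut γ} : ℝ) / (2 ^ m * m.factorial)) ∧
    |(Nat.card {γ // G γ} : ℝ) / (2 ^ m * m.factorial) -
        (Nat.card {γ // P γ} : ℝ) / (2 ^ m * m.factorial)| ≤
      M * ((Nat.card {γ // P γ ∧ ¬ NoAut γ} : ℝ) / (2 ^ m * m.factorial)) := by
  have hd := Class.den_pos m
  have a1 : (Nat.card {γ // P γ} : ℝ) ≤
      Nat.card {γ // G γ} + Nat.card {γ // P γ ∧ ¬ NoAut γ} := by
    have := (card_split P NoAut).trans
      (Nat.add_le_add_right (card_mono (Q := G) fun γ h => h2 γ h.1 h.2) _)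
    exact_mod_cast this
  have a2 : (Nat.card {γ // G γ} : ℝ) ≤ Nat.card {γ // P γ} := by
    exact_mod_cast card_mono h1
  have a3 : (Nat.card {γ // G γ} : ℝ) ≤ Nat.card (Class.Cl G) * (2 ^ m * m.factorial) := by
    exact_mod_cast Class.low G
  have a4 : (Nat.card (Class.Cl G) : ℝ) * (2 ^ m * m.factorial) ≤
      Nat.card {γ // P γ} + M * Nat.card {γ // P γ ∧ ¬ NoAut γ} := by
    have := ((Nat.mul_le_mul_right _ (cl_mono h1)).trans (Class.up P hP)).trans (sum_aut P M hB)
    exact_mod_cast this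
  have a5 : (Nat.card {γ // P γ ∧ ¬ NoAut γ} : ℝ) ≤ M * Nat.card {γ // P γ ∧ ¬ NoAut γ} :=
    le_mul_of_one_le_left (Nat.cast_nonneg _) (by exact_mod_cast hM)
  have a6 : (0 : ℝ) ≤ Nat.card {γ // P γ ∧ ¬ NoAut γ} := Nat.cast_nonneg _
  generalize (Nat.card {γ // P γ} : ℝ) = p at *
  generalize (Nat.card {γ // G γ} : ℝ) = g at *
  generalize (Nat.card {γ // P γ ∧ ¬ NoAut γ} : ℝ) = b at *
  generalize (Nat.card (Class.Cl G) : ℝ) = c at *
  generalize ((2 : ℝ) ^ m * m.factorial) = d at *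
  have e1 : c - p / d = (c * d - p) / d := by field_simp
  rw [e1, ← sub_div, abs_div, abs_div, abs_of_pos hd, ← mul_div_assoc]
  constructor
  · exact div_le_div_of_nonneg_right (abs_le.2 ⟨by linarith, by linarith⟩) hd.le
  · exact div_le_div_of_nonneg_right (abs_le.2 ⟨by linarith, by linarith⟩) hd.le

theorem card_fib {X : Type} [Finite X] (φ : X → ℕ) (D : ℕ) (h : ∀ x, φ x ≤ D) :
    Nat.card X = ∑ k ∈ range (D + 1), Nat.card {x // φ x = k} := by
  classical
  have := Fintype.ofFinite X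
  rw [Nat.card_eq_fintype_card, ← Finset.card_univ,
    Finset.card_eq_sum_card_fiberwise (f := φ) (t := range (D + 1))
      (fun x _ => by simpa using Nat.lt_succ_of_le (h x))]
  exact Finset.sum_congr rfl fun k _ => by rw [Nat.card_eq_fintype_card, Fintype.card_subtype]

theorem card_sum (F : Perm (Side m) → Prop) (φ : Perm (Side m) → ℕ) (D : ℕ)
    (h : ∀ γ, F γ → φ γ ≤ D) :
    Nat.card {γ // F γ} = ∑ k ∈ range (D + 1), Nat.card {γ // F γ ∧ φ γ = k} := by
  rw [card_fib (fun a : {γ // F γ} => φ a.1) D fun a => h _ a.2]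
  exact Finset.sum_congr rfl fun k _ =>
    Nat.card_congr (Equiv.subtypeSubtypeEquivSubtypeInter F fun γ => φ γ = k)

theorem cl_sum (F : Perm (Side m) → Prop) (φ : Perm (Side m) → ℕ) (D : ℕ)
    (hφ : ∀ γ γ', Iso γ γ' → φ γ = φ γ') (h : ∀ γ, F γ → φ γ ≤ D) :
    Nat.card (Class.Cl F) = ∑ k ∈ range (D + 1), Nat.card (Class.Cl fun γ => F γ ∧ φ γ = k) := by
  let ψ : Class.Cl F → ℕ := Quot.lift (fun a => φ a.1) fun a b hab => hφ _ _ hab
  rw [card_fib ψ D fun q => by
    induction q using Quot.ind with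
    | mk a => exact h _ a.2]
  refine Finset.sum_congr rfl fun k _ => Eq.symm ?_
  have hk : ∀ q : Class.Cl fun γ => F γ ∧ φ γ = k, ψ (clMap (fun _ h => h.1) q) = k := fun q => by
    induction q using Quot.ind with
    | mk a => exact a.2.2
  refine Nat.card_eq_of_bijective (fun q => ⟨_, hk q⟩) ⟨fun a b e =>
    clMap_inj (fun _ h => h.1) (Subtype.mk.inj e), fun q => ?_⟩
  obtain ⟨q, hq⟩ := q
  induction q using Quot.ind with
  | mk a => exact ⟨Quot.mk _ ⟨a.1, a.2, hq⟩, rfl⟩

end SandAux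

theorem pSand (hCorr : SCorr) : SSand := by
  intro H _ _ n κ σ π v D M hV hD hκ F hF1 hF2 k N
  have hne : Nonempty H := Fintype.card_pos_iff.1 (by rw [hV.card]; omega)
  have key := fun m => SandAux.sand_one (m := m) (fun γ => InStratum κ γ ∧ numCyl γ = k)
    (fun γ => F m γ ∧ numCyl γ = k) (2 * D) (by omega)
    (fun γ γ' h hγ => ⟨Class.stratum_iso h hγ.1, (hCorr.2 m γ γ' h).symm.trans hγ.2⟩)
    (fun γ hγ => hV.card ▸ Class.autc_le hV.cyc hκ hγ.1)
    (fun γ hγ => ⟨hF1 m γ hγ.1, hγ.2⟩) (fun γ hγ h => ⟨hF2 m γ hγ.1 h, hγ.2⟩)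
  unfold mass numClasses
  rw [Nat.cast_sum, ← Finset.sum_sub_distrib, ← Finset.sum_sub_distrib, Finset.mul_sum]
  constructor
  · refine (Finset.abs_sum_le_sum_abs _ _).trans (Finset.sum_le_sum fun m _ => ?_)
    have := (key m).1
    push_cast at this
    exact this
  · refine (Finset.abs_sum_le_sum_abs _ _).trans (Finset.sum_le_sum fun m _ => ?_)
    have := (key m).2
    push_cast at this
    exact this

theorem pSum (hCorr : SCorr) : SSum := by
  intro F D hF N
  unfold mass numClasses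
  constructor
  · rw [Finset.sum_comm]
    exact Finset.sum_congr rfl fun m _ =>
      SandAux.cl_sum (F m) numCyl D (hCorr.2 m) (hF m)
  · rw [Finset.sum_comm]
    refine Finset.sum_congr rfl fun m _ => ?_
    rw [SandAux.card_sum (F m) numCyl D (hF m), Nat.cast_sum, Finset.sum_div]

end Pool.Agent.STS.Cy
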