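import Pool.Agent.P.MP_bb7f8f_gt.Q2.Base

set_option linter.unusedSectionVars false

namespace Pool.Agent.STS.Cy.SplitAux
open Equiv Finset Filter Topology

variable {H J I : Type} [Fintype H] [DecidableEq H] [Fintype J] [DecidableEq J]
  [Fintype I] [DecidableEq I] {σ : Perm H} {π : H → J} {v : J → ℕ} {p : Dg H I}

theorem mem_seg {q : H × ℕ} {z : H} : z ∈ seg σ q ↔ ∃ j, j ≤ q.2 ∧ z = (σ ^ j) q.1 := by
  simp only [seg, mem_image, mem_range, Nat.lt_succ_iff]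
  exact ⟨fun ⟨j, h1, h2⟩ => ⟨j, h1, h2.symm⟩, fun ⟨j, h1, h2⟩ => ⟨j, h1, h2.symm⟩⟩

/-- the inner points of a tile -/
def Inner (σ : Perm H) (a : H) (m : ℕ) (z : H) : Prop :=
  ∃ j : ℕ, 1 ≤ j ∧ j ≤ m ∧ z = (σ ^ j) a

theorem Inner.mem {a : H} {m : ℕ} {z : H} (h : Inner σ a m z) : z ∈ seg σ (a, m) := by
  obtain ⟨j, -, h2, h3⟩ := h
  exact mem_seg.2 ⟨j, h2, h3⟩

theorem start_mem (q : H × ℕ) : q.1 ∈ seg σ q := mem_seg.2 ⟨0, Nat.zero_le _, rfl⟩

theorem seg_cases {q : H × ℕ} {z : H} (h : z ∈ seg σ q) : z = q.1 ∨ Inner σ q.1 q.2 z := by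
  obtain ⟨j, h1, h2⟩ := mem_seg.1 h
  rcases Nat.eq_zero_or_pos j with rfl | hj
  · exact Or.inl h2
  · exact Or.inr ⟨j, hj, h1, h2⟩

theorem not_inner {a : H} {m : ℕ} (ht : Tile σ p a m) : ¬ Inner σ a m a := by
  rintro ⟨j, h1, h2, h3⟩
  have h4 : Function.IsPeriodicPt σ j a := by
    change σ^[j] a = a
    rw [Equiv.Perm.iterate_eq_pow]
    exact h3.symm
  have h5 := h4.minimalPeriod_le h1
  have := ht.lt
  omega

theorem inner_lab {a : H} {m : ℕ} (ht : Tile σ p a m) {x z : H} (hx : Inner σ a m x)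
    (hz : (p.2 z).1 = (p.2 x).1) : Inner σ a m z := by
  obtain ⟨y, y1, y2, y3⟩ := ht.ex
  obtain ⟨j, h1, h2, rfl⟩ := hx
  refine (y3 z).resolve_right fun h0 => ?_
  have h4 := y2 j h1 h2
  have h5 : ((-1 : ℚ)) ^ (j + 1) ≠ 0 := pow_ne_zero _ (by norm_num)
  generalize p.2 ((σ ^ j) a) = f at hz h4
  generalize p.2 z = g at hz h0
  obtain ⟨i, b⟩ := f
  obtain ⟨i', b'⟩ := g
  obtain rfl : i' = i := hz
  have h6 := y1 i'
  apply h5
  rw [← h4]
  cases b <;> cases b' <;> linarith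

theorem alpha_inner (hp : IsDg σ p) {a : H} {m : ℕ} (ht : Tile σ p a m) {j : ℕ} (h1 : 1 ≤ j)
    (h2 : j < m) : Inner σ a m (p.1 ((σ ^ j) a)) := by
  refine inner_lab ht (x := (σ ^ (j + 1)) a) ⟨j + 1, by omega, by omega, rfl⟩ ?_
  rw [pow_succ', Perm.mul_apply, hp.sigma]

theorem alpha_seg (hp : IsDg σ p) {q : H × ℕ} (ht : Tile σ p q.1 q.2) {z : H}
    (hz : z ∈ seg σ q) : p.1 z ∈ seg σ q := by
  obtain ⟨j, h1, rfl⟩ := mem_seg.1 hz
  rcases Nat.eq_zero_or_pos j with rfl | hj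
  · exact mem_seg.2 ⟨q.2, le_rfl, ht.al⟩
  rcases h1.eq_or_lt with rfl | h2
  · rw [← ht.al, (hp.1 _).1]
    exact start_mem q
  · exact (alpha_inner hp ht hj h2).mem

/-- a length function which is balanced on the inner faces vanishes at the start of a tile -/
theorem tile_zero (hp : IsDg σ p) {a : H} {m : ℕ} (ht : Tile σ p a m) (l : H → ℚ)
    (hl : ∀ x, l (p.1 x) = l x)
    (hb : ∀ z, Inner σ a m z →
      pr (tot p.2) l ((p.2 z).1, true) = pr (tot p.2) l ((p.2 z).1, false)) : l a = 0 := by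
  obtain ⟨y, y1, y2, y3⟩ := ht.ex
  have h0 : ∑ x, y (p.2 x) * l x = 0 := by
    rw [sum_face p.2 y y1 l]
    refine Finset.sum_eq_zero fun i _ => ?_
    obtain ⟨z, hz⟩ := hp.2.2 (i, true)
    rcases y3 z with h | h
    · have := hb z h
      rw [hz] at this
      rw [this, sub_self, mul_zero]
    · rw [hz] at h
      rw [h, zero_mul]
  have h1 : ∑ x, y (p.2 (p.1 x)) * l x = 0 := by
    rw [← h0, ← Equiv.sum_comp p.1 fun x => y (p.2 x) * l x]
    exact Finset.sum_congr rfl fun x _ => by rw [hl]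
  have ha : y (p.2 a) = 0 := (y3 a).resolve_left (not_inner ht)
  have hm : y (p.2 (p.1 a)) = 1 := by
    rw [ht.al, y2 m (by have := ht.three; omega) le_rfl]
    exact (ht.odd.add_one).neg_one_pow
  have h2 : ∀ x, y (p.2 x) + y (p.2 (p.1 x)) =
      (if x = a then 1 else 0) + (if x = p.1 a then 1 else 0) := fun x => by
    by_cases e1 : x = a
    · subst e1
      rw [ha, hm, if_pos rfl, if_neg (hp.1 x).2.symm]
      norm_num
    by_cases e2 : x = p.1 a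
    · subst e2
      rw [(hp.1 a).1, ha, hm, if_neg e1, if_pos rfl]
      norm_num
    rw [if_neg e1, if_neg e2, add_zero]
    rcases y3 x with ⟨j, j1, j2, rfl⟩ | h
    · have j3 : j < m := lt_of_le_of_ne j2 fun e => e2 (by rw [e, ht.al])
      rw [← hp.sigma, ← Perm.mul_apply, ← pow_succ', y2 j j1 j2, y2 (j + 1) (by omega) j3]
      ring
    · rcases y3 (p.1 x) with ⟨j, j1, j2, e⟩ | h'
      · exfalso
        have e3 : x = p.1 ((σ ^ j) a) := by rw [← e, (hp.1 x).1]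
        have j3 : j < m := lt_of_le_of_ne j2 fun e' => e1 (by
          rw [e3, e', ← ht.al, (hp.1 a).1])
        obtain ⟨k, k1, k2, e4⟩ := alpha_inner hp ht j1 j3
        rw [← e3] at e4
        rw [e4, y2 k k1 k2] at h
        exact pow_ne_zero _ (by norm_num) h
      · rw [h, h', add_zero]
  have h3 : ∑ x, (y (p.2 x) + y (p.2 (p.1 x))) * l x = 0 := by
    simp only [add_mul, Finset.sum_add_distrib, h0, h1, add_zero]
  simp only [h2, add_mul, Finset.sum_add_distrib, ite_mul, one_mul, zero_mul, Finset.sum_ite_eq',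
    mem_univ, if_true, hl] at h3
  linarith

theorem tile_static (hp : IsDg σ p) {a : H} {m : ℕ} (ht : Tile σ p a m) :
    Static p.1 (tot p.2) a :=
  static_iff.2 fun l hl => tile_zero hp ht l hl.1 fun _ _ => hl.2 _

theorem nxt_self {Y : Finset H} {z : H} (hz : z ∈ Y) : nxt σ Y z = z := by
  have : sInf {j : ℕ | (σ ^ j) z ∈ Y} = 0 :=
    Nat.le_zero.1 (Nat.sInf_le (show (σ ^ 0) z ∈ Y from hz))
  rw [nxt, this, pow_zero, Perm.one_apply]

theorem nxt_shift {Y : Finset H} {z : H} {k : ℕ} (hk : ∀ i < k, (σ ^ i) z ∉ Y)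
    (h : ∃ j : ℕ, (σ ^ j) ((σ ^ k) z) ∈ Y) : nxt σ Y z = nxt σ Y ((σ ^ k) z) := by
  have e : ∀ j : ℕ, (σ ^ j) ((σ ^ k) z) = (σ ^ (j + k)) z := fun j => by
    rw [pow_add, Perm.mul_apply]
  have h1 : sInf {j : ℕ | (σ ^ j) z ∈ Y} = sInf {j : ℕ | (σ ^ j) ((σ ^ k) z) ∈ Y} + k := by
    apply le_antisymm
    · apply Nat.sInf_le
      change (σ ^ _) z ∈ Y
      rw [← e]
      exact Nat.sInf_mem (s := {j : ℕ | (σ ^ j) ((σ ^ k) z) ∈ Y}) h
    · obtain ⟨j, hj⟩ := h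
      rw [e] at hj
      have h2 : (σ ^ sInf {j : ℕ | (σ ^ j) z ∈ Y}) z ∈ Y :=
        Nat.sInf_mem (s := {j : ℕ | (σ ^ j) z ∈ Y}) ⟨_, hj⟩
      have h3 : k ≤ sInf {j : ℕ | (σ ^ j) z ∈ Y} := not_lt.1 fun h => hk _ h h2
      obtain ⟨d, hd⟩ := Nat.exists_eq_add_of_le' h3
      rw [hd] at h2 ⊢
      rw [← e] at h2
      exact Nat.add_le_add_right (Nat.sInf_le h2) k
  rw [nxt, nxt, h1, e]

theorem lab_pow (hp : IsDg σ p) (n : ℕ) (z : H) : p.2 (((σ * p.1) ^ n) z) = p.2 z := by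
  induction n with
  | zero => rfl
  | succ n ih => rw [pow_succ', Perm.mul_apply, Perm.mul_apply, hp.step, ih]

theorem exists_pow (hp : IsDg σ p) {x y : H} (h : p.2 x = p.2 y) :
    ∃ n : ℕ, ((σ * p.1) ^ n) x = y :=
  ((hp.2.1 x y).1 h).exists_nat_pow_eq

/-- the hypotheses of the splitting -/
structure Ctx (σ : Perm H) (π : H → J) (v : J → ℕ) (p : Dg H I) (G : Finset H)
    (O : Finset (H × ℕ)) (Y : Finset H) (L : Finset I) : Prop where
  cyc : Cyc σ π v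
  dg : IsDg σ p
  cls : ∀ x ∈ G, ∀ y, y ∈ G ↔ Relation.EqvGen (Rel p) x y
  tile : ∀ q ∈ O, Tile σ p q.1 q.2 ∧ q.1 ∈ G
  disj : ∀ q ∈ O, ∀ q' ∈ O, q ≠ q' → Disjoint (seg σ q) (seg σ q')
  stat : ∀ x ∈ G, Static p.1 (tot p.2) x → ∃ q ∈ O, x ∈ seg σ q
  memY : ∀ x, x ∈ Y ↔ x ∈ G ∧ ∀ q ∈ O, x ∉ seg σ q
  memL : ∀ i, i ∈ L ↔ ∃ x ∈ Y, (p.2 x).1 = i

namespace Ctx
variable {G : Finset H} {O : Finset (H × ℕ)} {Y : Finset H} {L : Finset I}

theorem uniq (h : Ctx σ π v p G O Y L) {q q' : H × ℕ} (hq : q ∈ O) (hq' : q' ∈ O) {z : H}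
    (h1 : z ∈ seg σ q) (h2 : z ∈ seg σ q') : q = q' := by
  by_contra e
  exact Finset.disjoint_left.1 (h.disj q hq q' hq' e) h1 h2

theorem g_lab (h : Ctx σ π v p G O Y L) {x z : H} (hx : x ∈ G) (hz : (p.2 z).1 = (p.2 x).1) :
    z ∈ G := (h.cls x hx z).2 (.rel _ _ (Or.inr hz))

theorem g_al (h : Ctx σ π v p G O Y L) {x : H} (hx : x ∈ G) : p.1 x ∈ G :=
  (h.cls x hx _).2 (.rel _ _ (Or.inl rfl))

theorem y_al (h : Ctx σ π v p G O Y L) {x : H} (hx : x ∈ Y) : p.1 x ∈ Y := by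
  rw [h.memY] at hx ⊢
  refine ⟨h.g_al hx.1, fun q hq hs => hx.2 q hq ?_⟩
  have := alpha_seg h.dg (h.tile q hq).1 hs
  rwa [(h.dg.1 x).1] at this

theorem y_al_iff (h : Ctx σ π v p G O Y L) (x : H) : p.1 x ∈ Y ↔ x ∈ Y :=
  ⟨fun hx => by have := h.y_al hx; rwa [(h.dg.1 x).1] at this, h.y_al⟩

theorem lab_mem (h : Ctx σ π v p G O Y L) {x : H} (hx : x ∈ Y) : (p.2 x).1 ∈ L :=
  (h.memL _).2 ⟨x, hx, rfl⟩

theorem inner_not (h : Ctx σ π v p G O Y L) {q : H × ℕ} (hq : q ∈ O) {z : H}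
    (hz : Inner σ q.1 q.2 z) : (p.2 z).1 ∉ L := fun hL => by
  obtain ⟨x, hx, e⟩ := (h.memL _).1 hL
  exact ((h.memY x).1 hx).2 q hq (inner_lab (h.tile q hq).1 hz e).mem

theorem start_of_seg (h : Ctx σ π v p G O Y L) {q : H × ℕ} (hq : q ∈ O) {z : H}
    (hz : z ∈ seg σ q) (hL : (p.2 z).1 ∈ L) : z = q.1 :=
  (seg_cases hz).resolve_right fun hi => h.inner_not hq hi hL

theorem start (h : Ctx σ π v p G O Y L) {z : H} (hz : z ∉ Y) (hL : (p.2 z).1 ∈ L) :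
    ∃ q ∈ O, z = q.1 := by
  obtain ⟨x, hx, e⟩ := (h.memL _).1 hL
  have hG : z ∈ G := h.g_lab ((h.memY x).1 hx).1 e.symm
  by_contra hn
  refine hz ((h.memY z).2 ⟨hG, fun q hq hs => hn ⟨q, hq, h.start_of_seg hq hs hL⟩⟩)

theorem face (h : Ctx σ π v p G O Y L) {f : I × Bool} (hf : f.1 ∈ L) : ∃ x ∈ Y, p.2 x = f := by
  obtain ⟨x, h1, h2⟩ := dg_face h.cyc h.dg f
  refine ⟨x, ?_, h1⟩
  by_contra hx
  obtain ⟨q, hq, rfl⟩ := h.start hx (by rw [h1]; exact hf)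
  exact h2 (tile_static h.dg (h.tile q hq).1)

theorem start_lab (h : Ctx σ π v p G O Y L) {q : H × ℕ} (hq : q ∈ O) : (p.2 q.1).1 ∈ L := by
  obtain ⟨x, h1, h2⟩ := dg_face h.cyc h.dg (p.2 q.1)
  have hG : x ∈ G := h.g_lab (h.tile q hq).2 (by rw [h1])
  refine (h.memL _).2 ⟨x, (h.memY x).2 ⟨hG, fun q' hq' hs => ?_⟩, by rw [h1]⟩
  rcases seg_cases hs with rfl | hi
  · exact h2 (tile_static h.dg (h.tile q' hq').1)
  · have h3 := inner_lab (h.tile q' hq').1 hi (z := q.1) (by rw [h1])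
    obtain rfl := h.uniq hq hq' (start_mem q) h3.mem
    exact not_inner (h.tile q hq).1 h3

theorem phi_start (h : Ctx σ π v p G O Y L) {q : H × ℕ} (hq : q ∈ O) :
    σ (p.1 q.1) = (σ ^ (q.2 + 1)) q.1 ∧ ∀ i < q.2 + 1, (σ ^ i) q.1 ∉ Y :=
  ⟨by rw [(h.tile q hq).1.al, pow_succ', Perm.mul_apply], fun i hi hY =>
    ((h.memY _).1 hY).2 q hq (mem_seg.2 ⟨i, by omega, rfl⟩)⟩

theorem ret_aux (h : Ctx σ π v p G O Y L) (n : ℕ) : ∀ z, (p.2 z).1 ∈ L →
    ((σ * p.1) ^ n) z ∈ Y → (∃ j : ℕ, (σ ^ j) z ∈ Y) ∧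
      ∃ k ≤ n, nxt σ Y z = ((σ * p.1) ^ k) z := by
  induction n with
  | zero =>
    intro z _ hz
    exact ⟨⟨0, hz⟩, 0, le_rfl, nxt_self hz⟩
  | succ n ih =>
    intro z hL hz
    by_cases hY : z ∈ Y
    · exact ⟨⟨0, hY⟩, 0, Nat.zero_le _, nxt_self hY⟩
    obtain ⟨q, hq, rfl⟩ := h.start hY hL
    rw [pow_succ, Perm.mul_apply] at hz
    obtain ⟨⟨j, hj⟩, k, hk, e⟩ := ih ((σ * p.1) q.1)
      (by rw [Perm.mul_apply, h.dg.step]; exact hL) hz
    have e1 : (σ * p.1) q.1 = (σ ^ (q.2 + 1)) q.1 := (h.phi_start hq).1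
    refine ⟨⟨j + (q.2 + 1), by rw [pow_add, Perm.mul_apply, ← e1]; exact hj⟩, k + 1, by omega, ?_⟩
    rw [nxt_shift (h.phi_start hq).2 ⟨j, by rw [← e1]; exact hj⟩, ← e1, e, pow_succ]
    rfl

theorem ret (h : Ctx σ π v p G O Y L) {z : H} (hL : (p.2 z).1 ∈ L) :
    (∃ j : ℕ, (σ ^ j) z ∈ Y) ∧ p.2 (nxt σ Y z) = p.2 z := by
  obtain ⟨x, hx, e⟩ := h.face hL
  obtain ⟨n, rfl⟩ := exists_pow h.dg e.symm
  obtain ⟨h1, k, -, h2⟩ := h.ret_aux n z hL hx
  exact ⟨h1, by rw [h2, lab_pow h.dg]⟩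

/-- the diagram on the core -/
def core (h : Ctx σ π v p G O Y L) : Dg {x // x ∈ Y} {i // i ∈ L} :=
  (p.1.subtypePerm h.y_al_iff, fun x => (⟨(p.2 x.1).1, h.lab_mem x.2⟩, (p.2 x.1).2))

/-- the matching outside the core -/
def out (h : Ctx σ π v p G O Y L) : Perm {x // x ∉ Y} :=
  p.1.subtypePerm fun x => not_congr (h.y_al_iff x)

end Ctx

/-- the labels outside the core -/
def outc (p : Dg H I) (Y : Finset H) (L : Finset I) :
    {x // x ∉ Y} → Option ({i // i ∉ L} × Bool) :=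
  fun x => if h : (p.2 x.1).1 ∈ L then none else some (⟨(p.2 x.1).1, h⟩, (p.2 x.1).2)

theorem outc_none {Y : Finset H} {L : Finset I} {x : {x // x ∉ Y}} :
    outc p Y L x = none ↔ (p.2 x.1).1 ∈ L := by
  unfold outc
  split_ifs with h <;> simp [h]

theorem outc_some {Y : Finset H} {L : Finset I} {x : {x // x ∉ Y}} {f : {i // i ∉ L} × Bool} :
    outc p Y L x = some f ↔ p.2 x.1 = (f.1.1, f.2) := by
  unfold outc
  split_ifs with h
  · refine ⟨fun e => by simp at e, fun e => ?_⟩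
    rw [e] at h
    exact absurd h f.1.2
  · rw [Option.some_inj, Prod.ext_iff, Prod.ext_iff, Subtype.ext_iff]

namespace Ctx
variable {G : Finset H} {O : Finset (H × ℕ)} {Y : Finset H} {L : Finset I}

theorem core_lab (h : Ctx σ π v p G O Y L) (x y : {x // x ∈ Y}) :
    h.core.2 x = h.core.2 y ↔ p.2 x.1 = p.2 y.1 := by
  change (_, _) = (_, _) ↔ _
  rw [Prod.ext_iff, Prod.ext_iff, Subtype.ext_iff]

theorem glue (h : Ctx σ π v p G O Y L) : Glue σ Y L p h.core h.out (outc p Y L) where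
  a1 := fun _ => rfl
  a2 := fun _ => rfl
  c1 := fun _ => rfl
  c2 := fun _ _ e => outc_some.1 e
  c3 := fun x e => by
    have h1 := h.ret (outc_none.1 e)
    exact ⟨nxt_mem σ Y _ h1.1, h1.2.symm⟩

theorem out_static (h : Ctx σ π v p G O Y L) (x : {x // x ∉ Y}) (e : outc p Y L x = none) :
    Static h.out (outc p Y L) x := by
  obtain ⟨q, hq, e1⟩ := h.start x.2 (outc_none.1 e)
  refine static_iff.2 fun l hl => ?_
  have key := tile_zero h.dg (h.tile q hq).1 (fun z => if hz : z ∈ Y then 0 else l ⟨z, hz⟩)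
    (fun z => by
      by_cases hz : z ∈ Y
      · rw [dif_pos hz, dif_pos (h.y_al hz)]
      · rw [dif_neg hz, dif_neg fun h1 => hz ((h.y_al_iff z).1 h1)]
        exact hl.1 ⟨z, hz⟩)
    (fun z hz => by
      have hn := h.inner_not hq hz
      have e2 : ∀ b, pr (tot p.2) (fun z => if hz : z ∈ Y then 0 else l ⟨z, hz⟩) ((p.2 z).1, b) =
          pr (outc p Y L) l (⟨(p.2 z).1, hn⟩, b) := fun b => by
        rw [pr_tot, pr]
        symm
        refine Finset.sum_bij (fun x _ => x.1) (fun x hx => ?_) (fun x _ y _ e => Subtype.ext e)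
          (fun x hx => ?_) (fun x _ => ?_)
        · exact mem_filter.2 ⟨mem_univ _, outc_some.1 (mem_filter.1 hx).2⟩
        · have h1 := (mem_filter.1 hx).2
          have h2 : x ∉ Y := fun hY => hn (by have := h.lab_mem hY; rwa [h1] at this)
          exact ⟨⟨x, h2⟩, mem_filter.2 ⟨mem_univ _, outc_some.2 h1⟩, rfl⟩
        · rw [dif_neg x.2]
      rw [e2, e2]
      exact hl.2 _)
  rw [← e1] at key
  rwa [dif_neg x.2] at key

theorem psi (h : Ctx σ π v p G O Y L) (y : {x // x ∈ Y}) :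
    ((red σ Y * h.core.1) y).1 = nxt σ Y ((σ * p.1) y.1) := rfl

theorem core_same (h : Ctx σ π v p G O Y L) (n : ℕ) : ∀ x y : {x // x ∈ Y},
    ((σ * p.1) ^ n) x.1 = y.1 → (red σ Y * h.core.1).SameCycle x y := by
  induction n using Nat.strong_induction_on with
  | _ n ih =>
    intro x y e
    rcases n with _ | n
    · obtain rfl : x = y := Subtype.ext e
      exact Perm.SameCycle.refl _ _
    rw [pow_succ, Perm.mul_apply] at e
    obtain ⟨-, k, hk, e1⟩ := h.ret_aux n ((σ * p.1) x.1)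
      (by rw [Perm.mul_apply, h.dg.step]; exact h.lab_mem x.2) (by rw [e]; exact y.2)
    have h1 := ih (n - k) (by omega) ((red σ Y * h.core.1) x) y (by
      rw [h.psi, e1, ← Perm.mul_apply, ← pow_add, Nat.sub_add_cancel hk, e])
    exact Perm.sameCycle_apply_left.1 h1

theorem core_dg (h : Ctx σ π v p G O Y L) : IsDg (red σ Y) h.core := by
  refine ⟨fun x => ⟨Subtype.ext (h.dg.1 x.1).1, fun e => (h.dg.1 x.1).2 (congrArg Subtype.val e)⟩,
    fun x y => ⟨fun e => ?_, fun e => ?_⟩, fun f => ?_⟩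
  · obtain ⟨n, hn⟩ := exists_pow h.dg ((h.core_lab x y).1 e)
    exact h.core_same n x y hn
  · obtain ⟨n, rfl⟩ := e.exists_nat_pow_eq
    rw [h.core_lab]
    clear e
    induction n with
    | zero => rfl
    | succ n ih =>
      rw [pow_succ', Perm.mul_apply, h.psi, (h.ret _).2, Perm.mul_apply, h.dg.step, ih]
      rw [Perm.mul_apply, h.dg.step]
      exact h.lab_mem (Subtype.property _)
  · obtain ⟨x, hx, e⟩ := h.face (f := (f.1.1, f.2)) f.1.2
    have e2 : (p.2 x).2 = f.2 := congrArg Prod.snd e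
    exact ⟨⟨x, hx⟩, Prod.ext (Subtype.ext (congrArg Prod.fst e)) e2⟩

/-- the cylinder of the core attached to a point -/
def Lk (σ : Perm H) (p : Dg H I) (O : Finset (H × ℕ)) (Y : Finset H) (z : H) (i : I) : Prop :=
  (z ∈ Y ∧ i = (p.2 z).1) ∨ ∃ q ∈ O, z ∈ seg σ q ∧ i = (p.2 q.1).1

theorem lk_ex (h : Ctx σ π v p G O Y L) {z : H} (hz : z ∈ G) : ∃ i ∈ L, Lk σ p O Y z i := by
  by_cases hY : z ∈ Y
  · exact ⟨_, h.lab_mem hY, Or.inl ⟨hY, rfl⟩⟩
  by_contra hn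
  exact hY ((h.memY z).2 ⟨hz, fun q hq hs => hn ⟨_, h.start_lab hq, Or.inr ⟨q, hq, hs, rfl⟩⟩⟩)

theorem lk_seg (h : Ctx σ π v p G O Y L) {q : H × ℕ} (hq : q ∈ O) {z : H} (hz : z ∈ seg σ q)
    {i : I} (hi : Lk σ p O Y z i) : i = (p.2 q.1).1 := by
  rcases hi with ⟨h1, -⟩ | ⟨q', hq', h1, h2⟩
  · exact absurd hz (((h.memY z).1 h1).2 q hq)
  · rw [h2, h.uniq hq hq' hz h1]

theorem lk_lab (h : Ctx σ π v p G O Y L) {z : H} (hz : (p.2 z).1 ∈ L) {i : I}
    (hi : Lk σ p O Y z i) : i = (p.2 z).1 := by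
  rcases hi with ⟨-, h1⟩ | ⟨q, hq, h1, h2⟩
  · exact h1
  · rw [h2, ← h.start_of_seg hq h1 hz]

theorem core_rel (h : Ctx σ π v p G O Y L) {x y : {x // x ∈ Y}} (e : (p.2 x.1).1 = (p.2 y.1).1) :
    Relation.EqvGen (Rel h.core) x y :=
  .rel _ _ (Or.inr (Subtype.ext e.symm))

theorem conn_aux (h : Ctx σ π v p G O Y L) {a b : H} (hab : Relation.EqvGen (Rel p) a b) :
    a ∈ G → ∀ x y : {x // x ∈ Y}, Lk σ p O Y a (p.2 x.1).1 → Lk σ p O Y b (p.2 y.1).1 →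
      Relation.EqvGen (Rel h.core) x y := by
  induction hab with
  | rel a b hr =>
    intro ha x y hx hy
    rcases hr with rfl | hr
    · by_cases hY : a ∈ Y
      · have e1 := h.lk_lab (h.lab_mem hY) hx
        have e2 := h.lk_lab (h.lab_mem (h.y_al hY)) hy
        exact .trans _ ⟨a, hY⟩ _ (h.core_rel e1) (.trans _ ⟨p.1 a, h.y_al hY⟩ _
          (.rel _ _ (Or.inl rfl)) (h.core_rel e2.symm))
      · rcases hx with ⟨h1, -⟩ | ⟨q, hq, h1, h2⟩
        · exact absurd h1 hY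
        · exact h.core_rel (h2.trans (h.lk_seg hq (alpha_seg h.dg (h.tile q hq).1 h1) hy).symm)
    · by_cases hL : (p.2 a).1 ∈ L
      · exact h.core_rel ((h.lk_lab hL hx).trans (hr.symm.trans (h.lk_lab (hr ▸ hL) hy).symm))
      · rcases hx with ⟨h1, -⟩ | ⟨q, hq, h1, h2⟩
        · exact absurd (h.lab_mem h1) hL
        · have h3 : Inner σ q.1 q.2 a := (seg_cases h1).resolve_left fun e =>
            hL (e ▸ h.start_lab hq)
          exact h.core_rel (h2.trans (h.lk_seg hq (inner_lab (h.tile q hq).1 h3 hr).mem hy).symm)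
  | refl a =>
    intro ha x y hx hy
    rcases hx with ⟨h1, h2⟩ | ⟨q, hq, h1, h2⟩
    · exact h.core_rel (h2.trans (h.lk_lab (h.lab_mem h1) hy).symm)
    · exact h.core_rel (h2.trans (h.lk_seg hq h1 hy).symm)
  | symm a b hr ih =>
    intro hb x y hx hy
    exact .symm _ _ (ih ((h.cls b hb a).2 (.symm _ _ hr)) y x hy hx)
  | trans a b c h1 _ ih1 ih2 =>
    intro ha x y hx hy
    have hb := (h.cls a ha b).2 h1
    obtain ⟨i, hi, hk⟩ := h.lk_ex hb
    obtain ⟨z, hz, rfl⟩ := (h.memL i).1 hi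
    exact .trans _ ⟨z, hz⟩ _ (ih1 ha x ⟨z, hz⟩ hx hk) (ih2 hb ⟨z, hz⟩ y hk hy)

theorem core_conn (h : Ctx σ π v p G O Y L) : Conn h.core := fun x y =>
  h.conn_aux ((h.cls x.1 ((h.memY _).1 x.2).1 y.1).1 ((h.memY _).1 y.2).1) ((h.memY _).1 x.2).1
    x y (Or.inl ⟨x.2, rfl⟩) (Or.inl ⟨y.2, rfl⟩)

theorem out_pow (h : Ctx σ π v p G O Y L) {x : H} (hx : (p.2 x).1 ∉ L) (n : ℕ) :
    ((σ * Perm.ofSubtype h.out) ^ n) x = ((σ * p.1) ^ n) x := by
  induction n with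
  | zero => rfl
  | succ n ih =>
    have h1 : ((σ * p.1) ^ n) x ∉ Y := fun hY => hx (by
      have := h.lab_mem hY
      rwa [lab_pow h.dg] at this)
    rw [pow_succ', pow_succ', Perm.mul_apply, ih, Perm.mul_apply, Perm.mul_apply, Perm.mul_apply,
      Perm.ofSubtype_apply_of_mem h.out h1]
    rfl

theorem adm (h : Ctx σ π v p G O Y L)
    (hd : Module.finrank ℚ (VO h.out (outc p Y L)) + Fintype.card {i // i ∉ L} ≤
      Fintype.card {x // x ∉ Y} / 2) : Adm σ Y h.out (outc p Y L) where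
  mt := fun x => ⟨Subtype.ext (h.dg.1 x.1).1, fun e => (h.dg.1 x.1).2 (congrArg Subtype.val e)⟩
  inner := fun x hx => by
    obtain ⟨f, hf⟩ := Option.ne_none_iff_exists'.1 hx
    have e : p.2 (σ (h.out x).1) = p.2 x.1 := h.dg.step x.1
    refine ⟨fun hY => hx (outc_none.2 (by have := h.lab_mem hY; rwa [e] at this)), ?_⟩
    exact (outc_some.2 (e.trans (outc_some.1 hf))).trans hf.symm
  same := fun x y hx e => by
    obtain ⟨f, hf⟩ := Option.ne_none_iff_exists'.1 hx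
    obtain ⟨n, hn⟩ := exists_pow h.dg ((outc_some.1 hf).trans (outc_some.1 (e ▸ hf)).symm)
    refine ⟨n, ?_⟩
    rw [zpow_natCast, h.out_pow (fun hL => hx (outc_none.2 hL)), hn]
  surj := fun f => by
    obtain ⟨x, hx⟩ := h.dg.2.2 (f.1.1, f.2)
    have h1 : x ∉ Y := fun hY => f.1.2 (by have := h.lab_mem hY; rwa [hx] at this)
    exact ⟨⟨x, h1⟩, outc_some.2 hx⟩
  outer := fun x e => by
    obtain ⟨q, hq, e1⟩ := h.start x.2 (outc_none.1 e)
    refine ⟨(h.ret (outc_none.1 e)).1, q.2 + 1, Nat.succ_pos _, ?_, ?_⟩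
    · change σ (p.1 x.1) = _
      rw [e1]
      exact (h.phi_start hq).1
    · rw [e1]
      exact (h.phi_start hq).2
  ok := ⟨h.out_static, hd⟩

end Ctx

end Pool.Agent.STS.Cy.SplitAux

namespace Pool.Agent.STS.Cy
open Equiv Finset Filter Topology

theorem pSplit (hRed : SRed) (hGlue : SGlue) : SSplit := by
  intro H J I _ _ _ _ _ _ σ π v D M hV p hp G O h1 h2 h3 h4 hS
  generalize hY : G \ O.biUnion (seg σ) = Y at hS
  have h : SplitAux.Ctx σ π v p G O Y (Y.image fun x => (p.2 x).1) :=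
    ⟨hV.cyc, hp, h1, h2, h3, h4, fun x => by rw [← hY]; simp, fun i => by simp⟩
  generalize (Y.image fun x => (p.2 x).1) = L at h
  obtain ⟨g1, -, g3, -⟩ := hGlue H I σ Y L p h.core h.out _ h.glue h.out_static
  have hc : #Yᶜ + #Y = 2 * D := by rw [Finset.card_compl_add_card, hV.card]
  obtain ⟨r, hr⟩ := hS.even
  obtain ⟨hs, J', _, _, π', v', hV'⟩ := hRed H J σ π v D M hV Y (D - r) hS (by omega)
  have d1 := dg_dim hV.cyc hV.card hp
  have d2 := dg_dim hV'.cyc hV'.card h.core_dg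
  have d3 : Fintype.card {i // i ∉ L} = Fintype.card I - Fintype.card {i // i ∈ L} :=
    Fintype.card_subtype_compl fun i => i ∈ L
  have d4 : Fintype.card {i // i ∈ L} ≤ Fintype.card I := Fintype.card_subtype_le _
  have d5 : Fintype.card {x // x ∉ Y} = #Yᶜ := by
    rw [Fintype.card_subtype]
    congr 1
    ext x
    simp
  refine ⟨L, h.core, h.out, _, ⟨h.core_dg, h.core_conn, fun x hx => ?_⟩, h.adm (by omega), h.glue⟩
  have hx' := (h.memY x.1).1 x.2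
  obtain ⟨q, hq, hs⟩ := h4 x.1 hx'.1 ((g1 x).2 hx)
  exact hx'.2 q hq hs

end Pool.Agent.STS.Cy
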