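import Pool.Agent.P.MP_bb7f8f_gt.Q2.Base

/-!
Static edges of a diagram: each one starts or ends a tile, or joins the two vertices of a pair.
-/

set_option linter.unusedSectionVars false

namespace Pool.Agent.STS.Cy.StatAux
open Equiv Finset Function

variable {H : Type} [Fintype H] {σ : Perm H} {Y : H → ℚ} {a b : H}

/-- alternation along an arc which avoids `a` and `b` -/
theorem alt (h : ∀ z, z ≠ a → z ≠ b → Y (σ z) = - Y z) (w : H) (j : ℕ) (h1 : 1 ≤ j)
    (hj : ∀ i, 1 ≤ i → i < j → (σ ^ i) w ≠ a ∧ (σ ^ i) w ≠ b) :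
    Y ((σ ^ j) w) = (-1) ^ (j + 1) * Y (σ w) := by
  induction j, h1 using Nat.le_induction with
  | base => simp
  | succ n hn ih =>
    have h2 := hj n hn (Nat.lt_succ_self n)
    rw [pow_succ' σ n, Perm.mul_apply, h _ h2.1 h2.2,
      ih fun i hi hi' => hj i hi (Nat.lt_succ_of_lt hi')]
    ring

/-- the weight vanishes on the odd cycles which avoid `a` and `b` -/
theorem zero (h : ∀ z, z ≠ a → z ≠ b → Y (σ z) = - Y z) {z : H}
    (ho : Odd (minimalPeriod σ z)) (ha : ¬ σ.SameCycle a z) (hb : ¬ σ.SameCycle b z) :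
    Y z = 0 := by
  have key : ∀ i : ℕ, (σ ^ i) z ≠ a ∧ (σ ^ i) z ≠ b := fun i =>
    ⟨fun e => ha ((Dart.same_iff σ _ _).2 ⟨i, e⟩).symm,
      fun e => hb ((Dart.same_iff σ _ _).2 ⟨i, e⟩).symm⟩
  have h1 := alt h z _ ho.pos fun i _ _ => key i
  have h2 := h z (key 0).1 (key 0).2
  rw [(Dart.per_iff σ z _).2 dvd_rfl, (ho.add_one).neg_one_pow, h2] at h1
  linarith

theorem pow_ne {i j : ℕ} (hi : i < minimalPeriod σ a) (hj : j < minimalPeriod σ a) (h : i ≠ j) :
    (σ ^ i) a ≠ (σ ^ j) a := fun e => by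
  rw [Dart.pow_eq_iff, Nat.mod_eq_of_lt hi, Nat.mod_eq_of_lt hj] at e
  exact h e

theorem pow_ne_self {i : ℕ} (h1 : 1 ≤ i) (hi : i < minimalPeriod σ a) : (σ ^ i) a ≠ a :=
  pow_ne (j := 0) hi (by omega) (by omega)

/-- points of the cycle of `a` are reached with an exponent in `[1, period]` -/
theorem exists_pow {z : H} (h : σ.SameCycle a z) :
    ∃ n, 1 ≤ n ∧ n ≤ minimalPeriod σ a ∧ (σ ^ n) a = z := by
  have h0 := minimalPeriod_pos_of_mem_periodicPts (σ.injective.mem_periodicPts a)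
  obtain ⟨n, rfl⟩ := (Dart.same_iff σ _ _).1 h
  by_cases hn : n % minimalPeriod σ a = 0
  · exact ⟨_, h0, le_rfl, (Dart.pow_eq_iff σ a _ _).2 (by rw [hn, Nat.mod_self])⟩
  · exact ⟨n % minimalPeriod σ a, Nat.pos_of_ne_zero hn, (Nat.mod_lt _ h0).le,
      (Dart.pow_eq_iff σ a _ _).2 (Nat.mod_mod _ _)⟩

/-- two different cycles -/
theorem pair (h : ∀ z, z ≠ a → z ≠ b → Y (σ z) = - Y z) (hs : Y a + Y b = 1)
    (ha : Y (σ a) = Y b) (ho : Odd (minimalPeriod σ a)) (hab : ¬ σ.SameCycle a b) (j : ℕ)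
    (h1 : 1 ≤ j) (hj : j ≤ minimalPeriod σ a) : 2 * Y ((σ ^ j) a) = (-1) ^ (j + 1) := by
  have key : ∀ n, 1 ≤ n → n ≤ minimalPeriod σ a → Y ((σ ^ n) a) = (-1) ^ (n + 1) * Y b :=
    fun n hn hn' => by
      rw [← ha]
      exact alt h a n hn fun i hi hi' => ⟨pow_ne_self hi (by omega),
        fun e => hab ((Dart.same_iff σ _ _).2 ⟨i, e⟩)⟩
  have h2 := key _ ho.pos le_rfl
  rw [(Dart.per_iff σ a _).2 dvd_rfl, (ho.add_one).neg_one_pow] at h2
  have h3 : Y b = 1 / 2 := by linarith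
  rw [key j h1 hj, h3]
  ring

/-- one cycle, odd arc from `a` to `b` -/
theorem arc (h : ∀ z, z ≠ a → z ≠ b → Y (σ z) = - Y z) (hs : Y a + Y b = 1)
    (ha : Y (σ a) = Y b) (hb : Y (σ b) = Y a) (ho : ∀ z, Odd (minimalPeriod σ z)) {m : ℕ}
    (hm : Odd m) (hlt : m < minimalPeriod σ a) (e : b = (σ ^ m) a) :
    (∀ j : ℕ, 1 ≤ j → j ≤ m → Y ((σ ^ j) a) = (-1) ^ (j + 1)) ∧
      ∀ z, (∃ j : ℕ, 1 ≤ j ∧ j ≤ m ∧ z = (σ ^ j) a) ∨ Y z = 0 := by
  have e2 : ∀ i, (σ ^ i) b = (σ ^ (i + m)) a := fun i => by rw [e, pow_add, Perm.mul_apply]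
  have k1 : ∀ n, 1 ≤ n → n ≤ m → Y ((σ ^ n) a) = (-1) ^ (n + 1) * Y b := fun n hn hn' => by
    rw [← ha]
    exact alt h a n hn fun i hi hi' => ⟨pow_ne_self hi (by omega),
      e ▸ pow_ne (by omega) hlt (by omega)⟩
  have k2 : ∀ n, 1 ≤ n → n + m ≤ minimalPeriod σ a → Y ((σ ^ n) b) = (-1) ^ (n + 1) * Y a :=
    fun n hn hn' => by
      rw [← hb]
      refine alt h b n hn fun i hi hi' => ?_
      rw [e2]
      exact ⟨pow_ne_self (by omega) (by omega), e ▸ pow_ne (by omega) hlt (by omega)⟩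
  have h2 := k2 (minimalPeriod σ a - m) (by omega) (by omega)
  have h3 : Odd (minimalPeriod σ a - m + 1) := (Nat.Odd.sub_odd (ho a) hm).add_one
  rw [e2, Nat.sub_add_cancel hlt.le, (Dart.per_iff σ a _).2 dvd_rfl, h3.neg_one_pow] at h2
  have h4 : Y a = 0 := by linarith
  have h5 : Y b = 1 := by linarith
  refine ⟨fun j h1 hj => by rw [k1 j h1 hj, h5, mul_one], fun z => ?_⟩
  by_cases hz : σ.SameCycle a z
  · obtain ⟨n, h1, hn, rfl⟩ := exists_pow hz
    by_cases hnm : n ≤ m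
    · exact Or.inl ⟨n, h1, hnm, rfl⟩
    · right
      have := k2 (n - m) (by omega) (by omega)
      rwa [e2, Nat.sub_add_cancel (by omega), h4, mul_zero] at this
  · exact Or.inr (zero h (ho z) hz fun hbz =>
      hz (((Dart.same_iff σ _ _).2 ⟨m, e.symm⟩).trans hbz))

variable {I : Type} [DecidableEq H] [Fintype I] [DecidableEq I]

theorem tile {p : Dg H I} (hp : IsDg σ p) (ho : ∀ z, Odd (minimalPeriod σ z))
    {y : I × Bool → ℚ} (hy : ∀ i, y (i, false) = - y (i, true))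
    (h : ∀ z, z ≠ a → z ≠ p.1 a → y (p.2 (σ z)) = - y (p.2 z))
    (hs : y (p.2 a) + y (p.2 (p.1 a)) = 1) {m : ℕ} (hm : Odd m) (hlt : m < minimalPeriod σ a)
    (e : p.1 a = (σ ^ m) a) : Tile σ p a m := by
  obtain ⟨h1, h2⟩ := arc (Y := fun z => y (p.2 z)) h hs (by simp only [hp.sigma])
    (by simp only [hp.step]) ho hm hlt e
  refine ⟨hm, ?_, hlt, e, y, hy, h1, h2⟩
  by_contra h3
  have hm1 : m = 1 := by obtain ⟨r, rfl⟩ := hm; omega
  subst hm1
  have h4 := h1 1 le_rfl le_rfl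
  obtain ⟨z, hz⟩ := hp.2.2 ((p.2 ((σ ^ 1) a)).1, !(p.2 ((σ ^ 1) a)).2)
  have h5 : y (p.2 z) = - y (p.2 ((σ ^ 1) a)) := by
    rw [hz]
    rcases p.2 ((σ ^ 1) a) with ⟨i, _ | _⟩ <;> simp [hy]
  rcases h2 z with ⟨j, hj, hj', rfl⟩ | h6
  · obtain rfl : j = 1 := by omega
    norm_num at h4 h5
    linarith
  · norm_num at h4 h5 h6
    linarith

end Pool.Agent.STS.Cy.StatAux

namespace Pool.Agent.STS.Cy
open Equiv Finset Filter Topology

theorem pStat : SStat := by
  intro H J I _ _ _ _ _ _ σ π v hc p hp x hx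
  have ho : ∀ z, Odd (Function.minimalPeriod σ z) := fun z => by
    rw [Dart.cyc_per hc]; exact hc.odd _
  obtain ⟨y, hy, h1⟩ := dual_VO hp.1 p.2 (fun z => if z = x then 1 else 0) fun l hl => by
    simpa using static_iff.1 hx l hl
  have haa := (hp.1 x).1
  have hne := (hp.1 x).2
  have h : ∀ z, z ≠ x → z ≠ p.1 x → y (p.2 (σ z)) = - y (p.2 z) := fun z hz hz' => by
    have h2 := h1 z
    have h3 : p.1 z ≠ x := fun e => hz' (by rw [← e, (hp.1 z).1])
    rw [if_neg hz, if_neg h3] at h2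
    rw [hp.sigma]
    linarith
  have hs : y (p.2 x) + y (p.2 (p.1 x)) = 1 := by
    have h2 := h1 x
    rw [if_pos rfl, if_neg hne] at h2
    linarith
  by_cases hab : σ.SameCycle x (p.1 x)
  · obtain ⟨m, hm1, hm2, e⟩ := StatAux.exists_pow hab
    have hlt : m < Function.minimalPeriod σ x := lt_of_le_of_ne hm2 fun e' => hne (by
      rw [← e, e', (Dart.per_iff σ x _).2 dvd_rfl])
    rcases Nat.even_or_odd m with hm | hm
    · have hper : Function.minimalPeriod σ (p.1 x) = Function.minimalPeriod σ x := by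
        rw [Dart.cyc_per hc, Dart.cyc_per hc, (hc.same _ _).2 hab]
      refine Or.inr (Or.inl ⟨Function.minimalPeriod σ x - m, StatAux.tile hp ho hy
        (fun z hz hz' => h z (by rwa [haa] at hz') hz) (by rw [haa]; linarith)
        (Nat.Odd.sub_even hm2 (ho x) hm) (by omega) ?_⟩)
      rw [haa, ← e, ← Perm.mul_apply, ← pow_add, Nat.sub_add_cancel hm2,
        (Dart.per_iff σ x _).2 dvd_rfl]
    · exact Or.inl ⟨m, StatAux.tile hp ho hy h hs hm hlt e.symm⟩
  · refine Or.inr (Or.inr ⟨hab, fun f => 2 * y f, fun i => by simp only [hy, mul_neg], ?_, ?_,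
      fun z => ?_⟩)
    · exact StatAux.pair (Y := fun z => y (p.2 z)) h hs (by simp only [hp.sigma]) (ho x) hab
    · exact StatAux.pair (Y := fun z => y (p.2 z)) (b := x) (fun z hz hz' => h z hz' hz)
        (by linarith) (by simp only [hp.step]) (ho _) fun e => hab e.symm
    · by_cases ha : σ.SameCycle x z
      · exact Or.inl ha
      · by_cases hb : σ.SameCycle (p.1 x) z
        · exact Or.inr (Or.inl hb)
        · have := StatAux.zero (Y := fun z => y (p.2 z)) h (ho z) ha hb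
          exact Or.inr (Or.inr (by simp only [this, mul_zero]))

end Pool.Agent.STS.Cy
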