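import Pool.Agent.P.MP_bb7f8f_gt.Q2.Base

/-! Structure of the diagrams without a large core. -/

set_option linter.unusedSectionVars false

namespace Pool.Agent.STS.Cy
open Equiv Finset Function

namespace StrAux

variable {H J I : Type} [Fintype H] [DecidableEq H] [Fintype J] [DecidableEq J]
  [Fintype I] [DecidableEq I] {σ : Perm H} {π : H → J} {v : J → ℕ} {D M : ℕ} {p : Dg H I}

theorem pow_inj {a : H} {i j : ℕ} (hi : i < minimalPeriod σ a) (hj : j < minimalPeriod σ a)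
    (h : (σ ^ i) a = (σ ^ j) a) : i = j := by
  rwa [Dart.pow_eq_iff, Nat.mod_eq_of_lt hi, Nat.mod_eq_of_lt hj] at h

theorem per_pos (a : H) : 0 < minimalPeriod σ a :=
  minimalPeriod_pos_of_mem_periodicPts (σ.injective.mem_periodicPts a)

theorem pow_per (a : H) : (σ ^ minimalPeriod σ a) a = a := (Dart.per_iff σ a _).2 dvd_rfl

theorem exists_pow {a z : H} (h : σ.SameCycle a z) :
    ∃ i, 1 ≤ i ∧ i ≤ minimalPeriod σ a ∧ (σ ^ i) a = z := by
  obtain ⟨n, rfl⟩ := (Dart.same_iff σ a z).1 h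
  have h0 := per_pos (σ := σ) a
  by_cases h1 : n % minimalPeriod σ a = 0
  · exact ⟨_, h0, le_rfl, (Dart.pow_eq_iff σ a _ _).2 (by rw [h1, Nat.mod_self])⟩
  · exact ⟨n % minimalPeriod σ a, by omega, (Nat.mod_lt _ h0).le,
      (Dart.pow_eq_iff σ a _ _).2 (Nat.mod_mod _ _)⟩

theorem same_pow (a : H) (i : ℕ) : σ.SameCycle a ((σ ^ i) a) := ⟨i, by simp⟩

theorem mem_seg {q : H × ℕ} {z : H} : z ∈ seg σ q ↔ ∃ i ≤ q.2, (σ ^ i) q.1 = z := by
  simp [seg]

theorem card_seg {q : H × ℕ} (h : q.2 < minimalPeriod σ q.1) : #(seg σ q) = q.2 + 1 := by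
  rw [seg, card_image_of_injOn, card_range]
  intro i hi j hj e
  rw [coe_range, Set.mem_Iio] at hi hj
  exact pow_inj (by omega) (by omega) e

theorem mem_alt {O : Finset (H × ℕ)} {b : ℕ} {z : H} : z ∈ alt σ O b ↔
    ∃ q ∈ O, ∃ j, j < q.2 ∧ 0 < j ∧ j % 2 = b ∧ (σ ^ j) q.1 = z := by
  simp [alt, and_assoc]

theorem card_odd (m : ℕ) : #{j ∈ range m | 0 < j ∧ j % 2 = 1} = m / 2 := by
  induction m with
  | zero => simp
  | succ m ih =>
    rw [range_add_one, filter_insert]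
    split_ifs with h
    · rw [card_insert_of_notMem (by simp), ih]; omega
    · rw [ih]; omega

theorem card_alt {O : Finset (H × ℕ)} (h1 : ∀ q ∈ O, q.2 ≤ minimalPeriod σ q.1)
    (h2 : ∀ q ∈ O, ∀ q' ∈ O, ∀ i < q.2, ∀ j < q'.2, (σ ^ i) q.1 = (σ ^ j) q'.1 → q = q') :
    #(alt σ O 1) = ∑ q ∈ O, q.2 / 2 := by
  rw [alt, card_biUnion]
  · refine Finset.sum_congr rfl fun q hq => ?_
    rw [card_image_of_injOn, card_odd]
    intro i hi j hj e
    simp only [coe_filter, mem_range, Set.mem_ofPred_eq] at hi hj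
    have := h1 q hq
    exact pow_inj (by omega) (by omega) e
  · intro q hq q' hq' hne
    refine Finset.disjoint_left.2 fun z a b => hne ?_
    simp only [mem_image, mem_filter, mem_range] at a b
    obtain ⟨i, hi, rfl⟩ := a
    obtain ⟨j, hj, e⟩ := b
    exact h2 q hq q' hq' i hi.1 j hj.1 e.symm

theorem even_of_inv {α : Perm H} (hα : IsMt α) {S : Finset H} (h : ∀ x ∈ S, α x ∈ S) :
    Even #S := by
  rw [← ZMod.natCast_eq_zero_iff_even, card_eq_sum_ones, Nat.cast_sum]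
  exact Finset.sum_involution (fun x _ => α x) (fun _ _ => by decide)
    (fun x _ _ => (hα x).2) h fun x _ => (hα x).1

theorem par_of {i j : ℕ} (h : (-1 : ℚ) ^ (i + 1) = (-1) ^ (j + 1 + 1)) : i % 2 ≠ j % 2 := by
  intro e
  rcases Nat.even_or_odd i with a | a
  · have b : Even j := by rw [Nat.even_iff] at a ⊢; omega
    rw [a.add_one.neg_one_pow, b.add_one.add_one.neg_one_pow] at h
    norm_num at h
  · have b : Odd j := by rw [Nat.odd_iff] at a ⊢; omega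
    rw [a.add_one.neg_one_pow, b.add_one.add_one.neg_one_pow] at h
    norm_num at h

theorem succ_app (a : H) (j : ℕ) : σ ((σ ^ j) a) = (σ ^ (j + 1)) a := by
  rw [pow_succ', Perm.mul_apply]

theorem tile_step (hp : IsDg σ p) {a : H} {m j : ℕ} (h : Tile σ p a m) (h0 : 0 < j) (h1 : j < m) :
    ∃ i, i < m ∧ 0 < i ∧ i % 2 ≠ j % 2 ∧ (σ ^ i) a = p.1 ((σ ^ j) a) := by
  obtain ⟨y, -, y1, y2⟩ := h.ex
  have e := y1 (j + 1) (by omega) (by omega)
  rw [← succ_app, hp.sigma] at e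
  rcases y2 (p.1 ((σ ^ j) a)) with ⟨i, i1, i2, e1⟩ | e1
  · refine ⟨i, lt_of_le_of_ne i2 ?_, i1, par_of ?_, e1.symm⟩
    · rintro rfl
      rw [← h.al] at e1
      have := h.lt
      have := pow_inj (i := j) (j := 0) (by omega) (by omega) (p.1.injective e1)
      omega
    · rw [← e, e1, y1 i i1 i2]
  · rw [e1] at e
    exact absurd e.symm (pow_ne_zero _ (by norm_num))

theorem tile_inv (hp : IsDg σ p) {q : H × ℕ} (h : Tile σ p q.1 q.2) {z : H} (hz : z ∈ seg σ q) :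
    p.1 z ∈ seg σ q := by
  obtain ⟨j, hj, rfl⟩ := mem_seg.1 hz
  rcases Nat.eq_zero_or_pos j with rfl | h0
  · exact mem_seg.2 ⟨_, le_rfl, h.al.symm⟩
  rcases hj.eq_or_lt with rfl | h1
  · rw [← h.al, (hp.1 _).1]
    exact mem_seg.2 ⟨0, Nat.zero_le _, rfl⟩
  · obtain ⟨i, i1, -, -, e⟩ := tile_step hp h h0 h1
    exact mem_seg.2 ⟨i, i1.le, e⟩

theorem per_le (a : H) : minimalPeriod σ a ≤ Fintype.card H := minimalPeriod_le_card

theorem badB_tiles (hp : IsDg σ p) {O : Finset (H × ℕ)} (h1 : ∀ q ∈ O, Tile σ p q.1 q.2)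
    (h2 : ∀ q ∈ O, ∀ q' ∈ O, q ≠ q' → Disjoint (seg σ q) (seg σ q')) {K u : ℕ} (hK : #O ≤ K)
    (hu : u ≤ #(O.biUnion (seg σ))) : BadB σ K u p.1 := by
  have key : ∀ q ∈ O, ∀ q' ∈ O, ∀ i < q.2, ∀ j < q'.2, (σ ^ i) q.1 = (σ ^ j) q'.1 → q = q' :=
    fun q hq q' hq' i hi j hj e => by
      by_contra hne
      exact Finset.disjoint_left.1 (h2 q hq q' hq' hne) (mem_seg.2 ⟨i, hi.le, rfl⟩)
        (mem_seg.2 ⟨j, hj.le, e.symm⟩)
  refine ⟨O, hK, fun q hq => (h1 q hq).lt.le.trans (per_le _), Finset.disjoint_left.2 ?_,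
    fun z hz => ?_, fun z hz => ?_, hu.trans (card_biUnion_le.trans ?_)⟩
  · intro z a b
    obtain ⟨q, hq, i, i1, -, i3, rfl⟩ := mem_alt.1 a
    obtain ⟨q', hq', j, j1, -, j3, e⟩ := mem_alt.1 b
    obtain rfl := key q hq q' hq' i i1 j j1 e.symm
    have := (h1 q hq).lt
    have := pow_inj (by omega) (by omega) e
    omega
  · obtain ⟨q, hq, j, j1, j2, j3, rfl⟩ := mem_alt.1 hz
    obtain ⟨i, i1, i2, i3, e⟩ := tile_step hp (h1 q hq) j2 j1
    exact mem_alt.2 ⟨q, hq, i, i1, i2, by omega, e⟩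
  · obtain ⟨q, hq, j, j1, j2, j3, rfl⟩ := mem_alt.1 hz
    obtain ⟨i, i1, i2, i3, e⟩ := tile_step hp (h1 q hq) j2 j1
    exact mem_alt.2 ⟨q, hq, i, i1, i2, by omega, e⟩
  · rw [card_alt (fun q hq => (h1 q hq).lt.le) key, Finset.mul_sum]
    refine Finset.sum_le_sum fun q hq => ?_
    rw [card_seg (h1 q hq).lt]
    have := (h1 q hq).three
    omega

/-- closed under the relation of connectedness -/
def Closed (p : Dg H I) (S : Finset H) : Prop :=
  ∀ x y, Relation.EqvGen (Rel p) x y → (x ∈ S ↔ y ∈ S)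

theorem rel_alpha (x : H) : Relation.EqvGen (Rel p) x (p.1 x) := .rel _ _ (Or.inl rfl)

theorem rel_same (hp : IsDg σ p) {x y : H} (h : σ.SameCycle x y) :
    Relation.EqvGen (Rel p) x y := by
  obtain ⟨n, rfl⟩ := (Dart.same_iff σ x y).1 h
  clear h
  induction n with
  | zero => exact .refl _
  | succ n ih =>
    rw [← succ_app]
    exact .trans _ _ _ ih (.trans _ _ _ (rel_alpha _) (.rel _ _ (Or.inr (by rw [hp.sigma]))))

theorem badA_of (hc : Cyc σ π v) (hp : IsDg σ p) {S : Finset H} (hS : Closed p S) {u : ℕ}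
    (h1 : u ≤ #S) (h2 : u ≤ #Sᶜ) : BadA π u p.1 := by
  have key : ∀ x, π x ∈ S.image π ↔ x ∈ S := fun x => by
    refine ⟨fun h => ?_, mem_image_of_mem π⟩
    obtain ⟨y, hy, e⟩ := mem_image.1 h
    exact (hS _ _ (rel_same hp ((hc.same _ _).1 e))).1 hy
  refine ⟨S.image π, fun x => by rw [key, key, hS _ _ (rel_alpha x)], ?_, ?_⟩
  · simpa only [key, filter_mem_eq_inter, univ_inter] using h1
  · refine h2.trans (le_of_eq (congrArg _ ?_))
    ext x
    simp only [key, mem_compl, mem_filter, mem_univ, true_and]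

theorem giant (hV : Vx σ π v D M) (hp : IsDg σ p) {u : ℕ} (hu : 1 ≤ u) (hD : 3 * u ≤ 2 * D)
    (hA : ¬ BadA π u p.1) : ∃ G : Finset H, Closed p G ∧
      (∀ x ∈ G, ∀ y, y ∈ G ↔ Relation.EqvGen (Rel p) x y) ∧ #Gᶜ < u := by
  classical
  have hb : ∀ S, Closed p S → u ≤ #S → #Sᶜ < u := fun S h1 h2 =>
    not_le.1 fun h3 => hA (badA_of hV.cyc hp h1 h2 h3)
  obtain ⟨S, hS, hm⟩ := exists_min_image {S : Finset H | Closed p S ∧ u ≤ #S} card
    ⟨univ, by
      simp only [mem_filter, mem_univ, true_and, card_univ, hV.card]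
      exact ⟨fun _ _ _ => by simp, by omega⟩⟩
  simp only [mem_filter, mem_univ, true_and] at hS hm
  obtain ⟨x₀, hx⟩ := card_pos.1 (show 0 < #S by omega)
  let G : Finset H := {y | Relation.EqvGen (Rel p) x₀ y}
  have hG : ∀ y, y ∈ G ↔ Relation.EqvGen (Rel p) x₀ y := fun y => by simp [G]
  have h1 : Closed p G := fun x y h => by
    rw [hG, hG]
    exact ⟨fun a => .trans _ _ _ a h, fun a => .trans _ _ _ a (.symm _ _ h)⟩
  have h2 : G ⊆ S := fun y hy => (hS.1 _ _ ((hG y).1 hy)).1 hx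
  have h3 : Closed p (S \ G) := fun x y h => by rw [mem_sdiff, mem_sdiff, hS.1 x y h, h1 x y h]
  have h4 := card_sdiff_add_card_eq_card h2
  have h5 : 0 < #G := card_pos.2 ⟨x₀, (hG _).2 (.refl _)⟩
  have h6 : #(S \ G) < u := not_le.1 fun h => by have := hm _ ⟨h3, h⟩; omega
  have h7 := hb S hS.1 hS.2
  have h8 := card_add_card_compl S
  rw [hV.card] at h8
  refine ⟨G, h1, fun x hx y => ⟨fun hy => .trans _ _ _ (.symm _ _ ((hG x).1 hx)) ((hG y).1 hy),
    fun h => (h1 x y h).1 hx⟩, hb G h1 (by omega)⟩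

theorem badB_pair (hV : Vx σ π v D M) (hp : IsDg σ p) {u : ℕ} (hu : 1 ≤ u) (hD : 3 * u ≤ 2 * D)
    {G : Finset H} (hG : ∀ x ∈ G, ∀ y, y ∈ G ↔ Relation.EqvGen (Rel p) x y) (hu' : #Gᶜ < u)
    {a : H} (ha : a ∈ G) (h : Pair σ p a) {K : ℕ} (hK : 2 ≤ K) : BadB σ K u p.1 := by
  obtain ⟨y, y0, y1, y2, y3⟩ := h.ex
  let O : Finset (H × ℕ) := {(a, minimalPeriod σ a), (p.1 a, minimalPeriod σ (p.1 a))}
  have hO : ∀ q, q ∈ O ↔ q = (a, minimalPeriod σ a) ∨ q = (p.1 a, minimalPeriod σ (p.1 a)) :=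
    fun q => by simp [O]
  have o1 : ∀ q ∈ O, q.2 = minimalPeriod σ q.1 := fun q hq => by
    rcases (hO q).1 hq with rfl | rfl <;> rfl
  have o2 : ∀ q ∈ O, ∀ j, 1 ≤ j → j ≤ q.2 → y (p.2 ((σ ^ j) q.1)) = (-1) ^ (j + 1) :=
    fun q hq => by
      rcases (hO q).1 hq with rfl | rfl
      · exact y1
      · exact y2
  have o3 : ∀ z, y (p.2 z) ≠ 0 ↔ ∃ q ∈ O, ∃ j, 1 ≤ j ∧ j ≤ q.2 ∧ (σ ^ j) q.1 = z := fun z => by
    constructor
    · intro hz
      rcases y3 z with e | e | e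
      · exact ⟨_, (hO _).2 (Or.inl rfl), exists_pow e⟩
      · exact ⟨_, (hO _).2 (Or.inr rfl), exists_pow e⟩
      · exact absurd e hz
    · rintro ⟨q, hq, j, j1, j2, rfl⟩
      rw [o2 q hq j j1 j2]
      exact pow_ne_zero _ (by norm_num)
  have o4 : ∀ q ∈ O, ∀ q' ∈ O, σ.SameCycle q.1 q'.1 → q = q' := fun q hq q' hq' e => by
    rcases (hO q).1 hq with rfl | rfl <;> rcases (hO q').1 hq' with rfl | rfl
    · rfl
    · exact absurd e h.ne
    · exact absurd e.symm h.ne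
    · rfl
  have o5 : ∀ q ∈ O, ∃ q' ∈ O, p.1 q.1 = q'.1 := fun q hq => by
    rcases (hO q).1 hq with rfl | rfl
    · exact ⟨_, (hO _).2 (Or.inr rfl), rfl⟩
    · exact ⟨_, (hO _).2 (Or.inl rfl), (hp.1 a).1⟩
  have o6 : ∀ q ∈ O, Odd q.2 := fun q hq => by
    rw [o1 q hq, Dart.cyc_per hV.cyc]; exact hV.cyc.odd _
  have step : ∀ q ∈ O, ∀ j, j < q.2 → 0 < j → ∃ q' ∈ O, ∃ i, i < q'.2 ∧ 0 < i ∧ i % 2 ≠ j % 2 ∧
      (σ ^ i) q'.1 = p.1 ((σ ^ j) q.1) := fun q hq j j1 j2 => by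
    have e := o2 q hq (j + 1) (by omega) (by omega)
    rw [← succ_app, hp.sigma] at e
    obtain ⟨q', hq', i, i1, i2, e1⟩ := (o3 (p.1 ((σ ^ j) q.1))).1
      (by rw [e]; exact pow_ne_zero _ (by norm_num))
    refine ⟨q', hq', i, lt_of_le_of_ne i2 ?_, i1, par_of ?_, e1⟩
    · rintro rfl
      rw [o1 q' hq', pow_per] at e1
      obtain ⟨q'', hq'', e2⟩ := o5 q' hq'
      rw [e1, (hp.1 _).1] at e2
      obtain rfl := o4 q hq q'' hq'' (e2 ▸ same_pow _ _)
      have := o1 q hq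
      have := pow_inj (i := j) (j := 0) (by omega) (by omega) e2
      omega
    · rw [← e, ← e1, o2 q' hq' i i1 i2]
  have hne : (a, minimalPeriod σ a) ≠ (p.1 a, minimalPeriod σ (p.1 a)) := fun e =>
    (hp.1 a).2 (congrArg Prod.fst e).symm
  refine ⟨O, (card_pair hne).le.trans hK, fun q hq => (o1 q hq).le.trans (per_le _),
    Finset.disjoint_left.2 ?_, fun z hz => ?_, fun z hz => ?_, ?_⟩
  · intro z a b
    obtain ⟨q, hq, i, i1, i2, i3, rfl⟩ := mem_alt.1 a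
    obtain ⟨q', hq', j, j1, j2, j3, e⟩ := mem_alt.1 b
    have e1 := o2 q hq i i2 i1.le
    rw [← e, o2 q' hq' j j2 j1.le, (Nat.odd_iff.2 i3).add_one.neg_one_pow,
      (Nat.even_iff.2 j3).add_one.neg_one_pow] at e1
    norm_num at e1
  · obtain ⟨q, hq, j, j1, j2, j3, rfl⟩ := mem_alt.1 hz
    obtain ⟨q', hq', i, i1, i2, i3, e⟩ := step q hq j j1 j2
    exact mem_alt.2 ⟨q', hq', i, i1, i2, by omega, e⟩
  · obtain ⟨q, hq, j, j1, j2, j3, rfl⟩ := mem_alt.1 hz
    obtain ⟨q', hq', i, i1, i2, i3, e⟩ := step q hq j j1 j2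
    exact mem_alt.2 ⟨q', hq', i, i1, i2, by omega, e⟩
  · rw [card_alt (fun q hq => (o1 q hq).le) fun q hq q' hq' i _ j _ e =>
      o4 q hq q' hq' ((same_pow q.1 i).trans (e ▸ (same_pow q'.1 j).symm)), sum_pair hne]
    have inv : ∀ z z', Relation.EqvGen (Rel p) z z' → (y (p.2 z) ≠ 0 ↔ y (p.2 z') ≠ 0) := by
      have st : ∀ z, y (p.2 z) ≠ 0 → y (p.2 (p.1 z)) ≠ 0 := fun z hz => by
        obtain ⟨q, hq, j, -, -, rfl⟩ := (o3 z).1 hz
        rw [← hp.sigma, succ_app]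
        obtain ⟨i, i1, i2, e⟩ := exists_pow (same_pow (σ := σ) q.1 (j + 1))
        exact (o3 _).2 ⟨q, hq, i, i1, (o1 q hq).symm ▸ i2, e⟩
      intro z z' r
      induction r with
      | rel z z' r =>
        rcases r with rfl | r
        · exact ⟨st z, fun h => by simpa only [(hp.1 z).1] using st _ h⟩
        · have := y0 (p.2 z).1
          generalize p.2 z = f at *
          generalize p.2 z' = f' at *
          obtain ⟨i, b⟩ := f
          obtain ⟨i', b'⟩ := f'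
          obtain rfl : i' = i := r
          cases b <;> cases b' <;> simp [y0]
      | refl => rfl
      | symm _ _ _ ih => exact ih.symm
      | trans _ _ _ _ _ a b => exact a.trans b
    have a0 : y (p.2 a) ≠ 0 :=
      (o3 a).2 ⟨_, (hO _).2 (Or.inl rfl), _, per_pos a, le_rfl, pow_per a⟩
    have sub : G ⊆ O.biUnion fun q => (Icc 1 q.2).image fun j => (σ ^ j) q.1 := fun z hz => by
      obtain ⟨q, hq, j, j1, j2, e⟩ := (o3 z).1 ((inv a z ((hG a ha z).1 hz)).1 a0)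
      exact mem_biUnion.2 ⟨q, hq, mem_image.2 ⟨j, mem_Icc.2 ⟨j1, j2⟩, e⟩⟩
    have c1 := (card_le_card sub).trans (card_biUnion_le.trans
      (Finset.sum_le_sum fun q _ => card_image_le))
    rw [sum_pair hne] at c1
    simp only [Nat.card_Icc] at c1
    have c2 := card_add_card_compl G
    rw [hV.card] at c2
    have c3 := Nat.odd_iff.1 (o6 _ ((hO _).2 (Or.inl rfl)))
    have c4 := Nat.odd_iff.1 (o6 _ ((hO _).2 (Or.inr rfl)))
    simp only at c3 c4 ⊢
    omega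

theorem shape (hV : Vx σ π v D M) (hp : IsDg σ p) {G : Finset H} (hG : Closed p G)
    {O : Finset (H × ℕ)} (h1 : ∀ q ∈ O, Tile σ p q.1 q.2 ∧ q.1 ∈ G)
    (h2 : ∀ q ∈ O, ∀ q' ∈ O, q ≠ q' → Disjoint (seg σ q) (seg σ q')) :
    Shape σ π (G \ O.biUnion (seg σ)) := by
  have hc := hV.cyc
  have same : ∀ (q : H × ℕ), ∀ z ∈ seg σ q, π z = π q.1 := fun q z hz => by
    obtain ⟨i, -, rfl⟩ := mem_seg.1 hz
    exact ((hc.same _ _).2 (same_pow _ _)).symm
  have cl : ∀ x y, π x = π y → (x ∈ G ↔ y ∈ G) := fun x y e =>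
    hG x y (rel_same hp ((hc.same _ _).1 e))
  have U1 : ∀ x ∈ O.biUnion (seg σ), p.1 x ∈ O.biUnion (seg σ) ∧ π (p.1 x) = π x := fun x hx => by
    obtain ⟨q, hq, e⟩ := mem_biUnion.1 hx
    have := tile_inv hp (h1 q hq).1 e
    exact ⟨mem_biUnion.2 ⟨q, hq, this⟩, by rw [same q _ this, same q _ e]⟩
  refine ⟨even_of_inv hp.1 fun x hx => ?_, ?_, ?_⟩
  · rw [mem_sdiff] at hx ⊢
    exact ⟨(hG _ _ (rel_alpha x)).1 hx.1, fun h => hx.2 (by
      simpa only [(hp.1 x).1] using (U1 _ h).1)⟩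
  · rintro j ⟨x, hx, rfl⟩
    have e1 : Even #{z ∈ O.biUnion (seg σ) | π z = π x} := even_of_inv hp.1 fun z hz => by
      rw [mem_filter] at hz ⊢
      exact ⟨(U1 z hz.1).1, (U1 z hz.1).2.trans hz.2⟩
    have e2 : ({z | π z = π x} : Finset H) = {z ∈ G \ O.biUnion (seg σ) | π z = π x} ∪
        {z ∈ O.biUnion (seg σ) | π z = π x} := by
      ext z
      simp only [mem_filter, mem_univ, true_and, mem_union, mem_sdiff]
      have := cl z x
      have := (mem_sdiff.1 hx).1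
      tauto
    have e3 := hc.odd (π x)
    rw [← hc.card, e2, card_union_of_disjoint (disjoint_filter_filter sdiff_disjoint)] at e3
    rw [Nat.odd_iff] at e3 ⊢
    rw [Nat.even_iff] at e1
    omega
  · obtain ⟨b, hb⟩ := Dart.cyc_base hc
    let O₂ : Finset (H × ℕ) := ({j | b j ∉ G ∧ 3 ≤ v j} : Finset J).image fun j => (b j, v j - 1)
    have hO₂ : ∀ q, q ∈ O₂ ↔ ∃ j, (b j ∉ G ∧ 3 ≤ v j) ∧ (b j, v j - 1) = q := fun q => by
      simp only [O₂, mem_image, mem_filter, mem_univ, true_and]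
    have s1 : ∀ q ∈ O ∪ O₂, 2 ≤ q.2 ∧ #(seg σ q) = q.2 + 1 ∧
        seg σ q ⊆ (G \ O.biUnion (seg σ))ᶜ := fun q hq => by
      rcases mem_union.1 hq with hq | hq
      · refine ⟨by have := (h1 q hq).1.three; omega, card_seg (h1 q hq).1.lt, fun z hz => ?_⟩
        rw [mem_compl, mem_sdiff]
        exact fun h => h.2 (mem_biUnion.2 ⟨q, hq, hz⟩)
      · obtain ⟨j, hj, rfl⟩ := (hO₂ q).1 hq
        refine ⟨by simp only; omega, card_seg ?_, fun z hz => ?_⟩
        · simp only [Dart.cyc_per hc, hb]; omega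
        · rw [mem_compl, mem_sdiff]
          exact fun h => hj.1 ((cl _ _ (same _ z hz)).1 h.1)
    have s2 : ∀ q ∈ O ∪ O₂, ∀ q' ∈ O ∪ O₂, q ≠ q' → Disjoint (seg σ q) (seg σ q') := by
      intro q hq q' hq' hne
      have m : ∀ q ∈ O, ∀ q' ∈ O₂, Disjoint (seg σ q) (seg σ q') := fun q hq q' hq' => by
        obtain ⟨j, hj, rfl⟩ := (hO₂ q').1 hq'
        exact Finset.disjoint_left.2 fun z a b =>
          hj.1 ((cl _ _ ((same _ z a).symm.trans (same _ z b))).1 (h1 q hq).2)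
      rcases mem_union.1 hq with hq | hq <;> rcases mem_union.1 hq' with hq' | hq'
      · exact h2 q hq q' hq' hne
      · exact m q hq q' hq'
      · exact (m q' hq' q hq).symm
      · obtain ⟨j, -, rfl⟩ := (hO₂ q).1 hq
        obtain ⟨j', -, rfl⟩ := (hO₂ q').1 hq'
        refine Finset.disjoint_left.2 fun z a b => hne ?_
        have e := (same _ z a).symm.trans (same _ z b)
        simp only [hb] at e
        rw [e]
    refine ⟨univ.filter fun x => x ∉ G ∧ σ x = x, O ∪ O₂, fun x hx => (mem_filter.1 hx).2.2, fun q hq => ?_, ?_,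
      Subset.antisymm (fun x hx => ?_) (union_subset (fun x hx => ?_)
        (biUnion_subset.2 fun q hq => (s1 q hq).2.2))⟩
    · have := card_le_card (s1 q hq).2.2
      have := (s1 q hq).2.1
      omega
    · refine le_trans ?_ (card_le_card (biUnion_subset.2 fun q hq => (s1 q hq).2.2))
      rw [card_biUnion fun q hq q' hq' => s2 q hq q' hq', mul_comm, ← smul_eq_mul]
      exact card_nsmul_le_sum _ _ _ fun q hq => by have := s1 q hq; omega
    · rw [mem_compl, mem_sdiff, not_and_or, not_not] at hx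
      rcases hx with hx | hx
      · by_cases h3 : 3 ≤ v (π x)
        · refine mem_union_right _ (mem_biUnion.2 ⟨_, mem_union_right _ ((hO₂ _).2
            ⟨π x, ⟨fun h => hx ((cl _ _ (hb _)).1 h), h3⟩, rfl⟩), ?_⟩)
          obtain ⟨i, i1, i2, e⟩ := exists_pow ((hc.same _ _).1 (hb (π x)))
          rcases i2.eq_or_lt with rfl | i2
          · exact mem_seg.2 ⟨0, Nat.zero_le _, (pow_per _).symm.trans e⟩
          · rw [Dart.cyc_per hc, hb] at i2
            exact mem_seg.2 ⟨i, by simp only; omega, e⟩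
        · refine mem_union_left _ (mem_filter.2 ⟨mem_univ _, hx, ?_⟩)
          have e1 := Nat.odd_iff.1 (hc.odd (π x))
          have e2 := pow_per (σ := σ) x
          rwa [Dart.cyc_per hc, show v (π x) = 1 by omega, pow_one] at e2
      · exact mem_union_right _ (biUnion_subset_biUnion_of_subset_left _ subset_union_left hx)
    · rw [mem_compl, mem_sdiff]
      exact fun h => (mem_filter.1 hx).2.1 h.1

end StrAux

open StrAux in
theorem pStr (hStat : SStat) (hFam : SFam) (hSplit : SSplit) : SStr := by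
  intro H J I _ _ _ _ _ _ σ π v D M hV u hu hD p hp hR
  by_contra hn
  obtain ⟨hA, hB⟩ := not_or.1 hn
  obtain ⟨G, g1, g2, g3⟩ := giant hV hp hu hD hA
  obtain ⟨O₀, o1, o2, o3, o4⟩ := hFam H J I σ π v hV.cyc p hp
  set O : Finset (H × ℕ) := {q ∈ O₀ | q.1 ∈ G} with hO
  have a1 : ∀ q ∈ O, Tile σ p q.1 q.2 ∧ q.1 ∈ G := fun q hq =>
    ⟨o1 q (mem_filter.1 hq).1, (mem_filter.1 hq).2⟩
  have a2 : ∀ q ∈ O, ∀ q' ∈ O, q ≠ q' → Disjoint (seg σ q) (seg σ q') := fun q hq q' hq' =>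
    o2 q (mem_filter.1 hq).1 q' (mem_filter.1 hq').1
  have a3 : ∀ x ∈ G, Static p.1 (tot p.2) x → ∃ q ∈ O, x ∈ seg σ q := fun x hx hs => by
    have key : ∀ a m, Tile σ p a m → x ∈ seg σ (a, m) → ∃ q ∈ O, x ∈ seg σ q := by
      intro a m ht h
      obtain ⟨q, hq, e⟩ := o3 a m ht
      refine ⟨q, mem_filter.2 ⟨hq, ?_⟩, e h⟩
      obtain ⟨i, -, rfl⟩ := mem_seg.1 (e h)
      exact (g1 _ _ (rel_same hp (same_pow _ _))).2 hx
    rcases hStat H J I σ π v hV.cyc p hp x hs with ⟨m, h⟩ | ⟨m, h⟩ | h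
    · exact key x m h (mem_seg.2 ⟨0, Nat.zero_le _, rfl⟩)
    · exact key _ m h (mem_seg.2 ⟨m, le_rfl, h.al.symm.trans (hp.1 x).1⟩)
    · exact absurd (badB_pair hV hp hu hD g2 g3 hx h (by omega)) hB
  have a4 : #(O.biUnion (seg σ)) < u := not_le.1 fun h => hB (badB_tiles hp
    (fun q hq => (a1 q hq).1) a2 ((card_filter_le _ _).trans (by omega)) h)
  have hS := shape hV hp g1 a1 a2
  obtain ⟨L, hL⟩ := hSplit H J I σ π v D M hV p hp G O g2 a1 a2 a3 hS
  have e1 : (G \ O.biUnion (seg σ))ᶜ = Gᶜ ∪ O.biUnion (seg σ) := by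
    ext x; simp only [mem_compl, mem_sdiff, mem_union]; tauto
  have e2 := card_add_card_compl (G \ O.biUnion (seg σ))
  obtain ⟨r, hr⟩ := hS.even
  rw [hV.card] at e2
  have e3 := card_union_le Gᶜ (O.biUnion (seg σ))
  rw [← e1] at e3
  by_cases h0 : r = D
  · have e4 : Gᶜ ∪ O.biUnion (seg σ) = ∅ := by rw [← e1, ← card_eq_zero]; omega
    rw [union_eq_empty] at e4
    have e5 : ∀ x, x ∈ G := fun x => by
      by_contra h
      exact notMem_empty x (e4.1 ▸ mem_compl.2 h)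
    refine hR.1 ⟨hp, fun x y => (g2 x (e5 x) y).1 (e5 y), fun x hs => ?_⟩
    obtain ⟨q, hq, h⟩ := a3 x (e5 x) hs
    exact notMem_empty x (e4.2 ▸ mem_biUnion.2 ⟨q, hq, h⟩)
  · refine hR.2 ⟨D - r, mem_Icc.2 ⟨by omega, by omega⟩, _, ?_, L, hL⟩
    simp only [Cores, mem_filter, mem_univ, true_and]
    exact ⟨hS, by omega⟩

end Pool.Agent.STS.Cy
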