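import Pool.Agent.P.MP_bb7f8f_gt.Q2.Base

set_option linter.unusedSectionVars false

namespace Pool.Agent.STS.Cy.SyAux
open Equiv Finset Filter Topology Est

theorem df_ge (D : ℕ) (hD : 108 ≤ D) :
    (2 : ℝ) ^ D * (2 * D : ℝ) ^ (2 * D / 3) ≤ DF {D} := by
  have h1 := df_low D (by omega)
  rw [← DF_single] at h1
  refine le_trans ?_ h1
  have hD' : (108 : ℝ) ≤ D := by exact_mod_cast hD
  have he : Real.exp 1 ≤ 3 := by have := Real.exp_one_lt_d9; linarith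
  have h2 : (2 * D / 3 : ℝ) ^ D ≤ (2 * D / Real.exp 1) ^ D := by
    have := Real.exp_pos 1
    gcongr
  refine le_trans ?_ h2
  obtain ⟨r, hr⟩ : ∃ r, D = 2 * D / 3 + r := ⟨D - 2 * D / 3, by omega⟩
  have h3 : (6 : ℝ) ^ D ≤ (2 * D : ℝ) ^ r := by
    calc (6 : ℝ) ^ D ≤ 6 ^ (3 * r) := pow_le_pow_right₀ (by norm_num) (by omega)
      _ = 216 ^ r := by rw [pow_mul]; norm_num
      _ ≤ _ := pow_le_pow_left₀ (by norm_num) (by linarith) r
  have h4 : (2 * D : ℝ) ^ D = (2 * D : ℝ) ^ (2 * D / 3) * (2 * D : ℝ) ^ r := by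
    rw [← pow_add, ← hr]
  rw [div_pow, le_div_iff₀ (by positivity), h4]
  have h5 : (6 : ℝ) ^ D = 2 ^ D * 3 ^ D := by rw [← mul_pow]; norm_num
  calc (2 : ℝ) ^ D * (2 * D : ℝ) ^ (2 * D / 3) * 3 ^ D
      = (2 * D : ℝ) ^ (2 * D / 3) * 6 ^ D := by rw [h5]; ring
    _ ≤ _ := by gcongr

theorem small (D M K l : ℕ) (hl : D ≤ 2 ^ (l + 1)) (hK : K = 8 * (l + 1))
    (h1 : 2 * M + 500 ≤ l) (h2 : (2 * M + 500) * l ^ 2 ≤ D) :
    2 * (2 * D) ^ M * D ^ (15 * K + 6) ≤ 2 ^ D := by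
  have a1 : (2 * D) ^ M ≤ 2 ^ ((l + 2) * M) := by
    rw [pow_mul]
    exact Nat.pow_le_pow_left (by rw [pow_succ]; omega) M
  have a2 : D ^ (15 * K + 6) ≤ 2 ^ ((l + 1) * (15 * K + 6)) := by
    rw [pow_mul]
    exact Nat.pow_le_pow_left hl _
  calc 2 * (2 * D) ^ M * D ^ (15 * K + 6)
      ≤ 2 ^ 1 * 2 ^ ((l + 2) * M) * 2 ^ ((l + 1) * (15 * K + 6)) := by gcongr; norm_num
    _ = 2 ^ (1 + (l + 2) * M + (l + 1) * (15 * K + 6)) := by rw [← pow_add, ← pow_add]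
    _ ≤ 2 ^ D := by
      refine Nat.pow_le_pow_right (by norm_num) (le_trans ?_ h2)
      subst hK
      have b1 : (l + 2) * M ≤ 2 * M * l ^ 2 := by
        have : l + 2 ≤ 2 * l ^ 2 := by nlinarith
        nlinarith
      nlinarith

theorem term (D M K k : ℕ) (hD : 5 ≤ D) (hk : k ≤ K) (hK : 2 * K ≤ D) :
    (2 * D) ^ (M + 2 * D / 3) * (4 * D ^ 2 + 1) ^ (4 * k) * (2 * k).factorial * D ^ k ≤
      (2 * D) ^ (M + 2 * D / 3) * D ^ (15 * K) := by
  have a1 : (4 * D ^ 2 + 1) ^ (4 * k) ≤ D ^ (12 * k) := by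
    rw [show 12 * k = 3 * (4 * k) by ring, pow_mul D 3]
    exact Nat.pow_le_pow_left (by nlinarith [Nat.mul_le_mul hD hD]) _
  have a2 : (2 * k).factorial ≤ D ^ (2 * k) :=
    (Nat.factorial_le_pow _).trans (Nat.pow_le_pow_left (by omega) _)
  calc _ ≤ (2 * D) ^ (M + 2 * D / 3) * D ^ (12 * k) * D ^ (2 * k) * D ^ k := by gcongr
    _ = (2 * D) ^ (M + 2 * D / 3) * D ^ (15 * k) := by ring
    _ ≤ _ := by gcongr; omega

end Pool.Agent.STS.Cy.SyAux

namespace Pool.Agent.STS.Cy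
open Equiv Finset Filter Topology

theorem pSy (hF2 : SF2) (hPos : SPos) (hSym : SSym) : SSy := by
  intro M
  obtain ⟨C, D₁, hC⟩ := hF2 4 (by norm_num)
  obtain ⟨D₂, hD₂⟩ := log_small (2 * M + 500) 2
  obtain ⟨c, hc⟩ := exists_nat_ge (4 * C)
  refine ⟨D₁ + D₂ + M ^ 4 + c + 108, fun D hD H J _ _ _ _ σ π v hV => ?_⟩
  obtain ⟨hl1, hl2⟩ := hD₂ D (by omega)
  set l := Nat.log 2 D with hl
  have hDl : D ≤ 2 ^ (l + 1) := (Nat.lt_pow_succ_log_self (by norm_num) D).le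
  obtain ⟨K, hK⟩ : ∃ K, K = 8 * (l + 1) := ⟨_, rfl⟩
  have hK2 : 2 * K ≤ D := by
    refine le_trans ?_ hl2
    subst hK
    nlinarith
  have hD0 : (0 : ℝ) < D := by exact_mod_cast (show 0 < D by omega)
  have hF := hC D (by omega) H J σ π v M hV (by omega)
  rw [show ((4 : ℝ) / 2) = ((2 : ℕ) : ℝ) by norm_num, Real.rpow_natCast] at hF
  have hDF := Est.DF_nonneg {D}
  set B : ℝ := (((2 * D) ^ (M + 2 * D / 3) * D ^ (15 * K) : ℕ) : ℝ) with hB
  have hB0 : 0 ≤ B := Nat.cast_nonneg _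
  have key : ∀ k ∈ range (D + 1), SY σ k * 2 ^ k / (2 ^ k * k.factorial) ≤
      (if k ∈ range (K + 1) then B else 0) +
        (XX σ k * 4 ^ k / (2 ^ k * k.factorial)) / (2 ^ K * 2 ^ (2 * D - 1)) := by
    intro k _
    obtain ⟨p1, p2, p3, p4, p5⟩ := (hPos H J σ π v D M hV k).1 (SymP σ)
    have hX : 0 ≤ XX σ k := p1.trans p2
    have hf : (1 : ℝ) ≤ k.factorial := by exact_mod_cast Nat.factorial_pos k
    have e : SY σ k * 2 ^ k / (2 ^ k * k.factorial) = SY σ k / k.factorial := by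
      field_simp
    rw [e]
    split_ifs with hk
    · have h1 := (p5 _ (hSym H J σ π v D M hV (by omega) k)).2
      have h2 : ((((2 * D) ^ (M + 2 * D / 3) * (4 * D ^ 2 + 1) ^ (4 * k) * (2 * k).factorial *
          D ^ k : ℕ)) : ℝ) ≤ B := by
        rw [hB]
        exact_mod_cast SyAux.term D M K k (by omega) (by simpa [Nat.lt_succ_iff] using hk) hK2
      have h3 : SY σ k ≤ B := by
        refine h1.trans (le_of_eq_of_le ?_ h2)
        push_cast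
        ring
      have h4 : SY σ k / k.factorial ≤ SY σ k := div_le_self p3 hf
      have h5 : 0 ≤ (XX σ k * 4 ^ k / (2 ^ k * k.factorial)) / (2 ^ K * 2 ^ (2 * D - 1)) := by
        positivity
      linarith
    · have hk' : K ≤ k := by simp at hk; omega
      have e2 : XX σ k * 4 ^ k / (2 ^ k * k.factorial) = XX σ k * 2 ^ k / k.factorial := by
        rw [show (4 : ℝ) ^ k = 2 ^ k * 2 ^ k by rw [← mul_pow]; norm_num]
        field_simp
      rw [zero_add, e2, le_div_iff₀ (by positivity), div_mul_eq_mul_div]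
      have h6 : (2 : ℝ) ^ K ≤ 2 ^ k := pow_le_pow_right₀ (by norm_num) hk'
      have p4' : 2 ^ (2 * D - 1) * SY σ k ≤ XX σ k := p4
      have p3' : 0 ≤ SY σ k := p3
      refine div_le_div_of_nonneg_right ?_ (by positivity)
      calc SY σ k * (2 ^ K * 2 ^ (2 * D - 1)) = (2 ^ (2 * D - 1) * SY σ k) * 2 ^ K := by ring
        _ ≤ _ := by gcongr
  have s1 := Finset.sum_le_sum key
  rw [Finset.sum_add_distrib, ← Finset.sum_div] at s1
  have s2 : ∑ k ∈ range (D + 1), (if k ∈ range (K + 1) then B else 0) ≤ D * B := by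
    rw [← Finset.sum_filter, Finset.sum_const, nsmul_eq_mul]
    have : #((range (D + 1)).filter fun k => k ∈ range (K + 1)) ≤ D := by
      refine le_trans (card_le_card fun k hk => (mem_filter.1 hk).2) ?_
      rw [card_range]
      omega
    gcongr
  have s3 : (D : ℝ) * B ≤ DF {D} / (D : ℝ) ^ 5 / 2 := by
    have h1 := SyAux.df_ge D (by omega)
    have h2 : ((2 * (2 * D) ^ M * D ^ (15 * K + 6) : ℕ) : ℝ) ≤ ((2 ^ D : ℕ) : ℝ) := by
      exact_mod_cast SyAux.small D M K l hDl hK hl1 hl2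
    push_cast at h2
    rw [le_div_iff₀ (by norm_num), le_div_iff₀ (by positivity)]
    refine le_trans ?_ h1
    calc (D : ℝ) * B * 2 * (D : ℝ) ^ 5
        = (2 * (2 * D) ^ M * D ^ (15 * K + 6)) * (2 * D : ℝ) ^ (2 * D / 3) := by
          rw [hB]; push_cast; ring
      _ ≤ _ := by gcongr
  have s4 : egr (XX σ) D 4 / (2 ^ K * 2 ^ (2 * D - 1)) ≤ DF {D} / (D : ℝ) ^ 5 / 2 := by
    have h1 : (D : ℝ) ^ 8 ≤ 2 ^ K := by
      rw [hK, mul_comm, pow_mul]
      have : (D : ℝ) ≤ 2 ^ (l + 1) := by exact_mod_cast hDl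
      gcongr
    have h2 : 4 * C ≤ D := hc.trans (by exact_mod_cast (show c ≤ D by omega))
    have h3 : (4 : ℝ) ^ D = 2 * 2 ^ (2 * D - 1) := by
      rw [← pow_succ', show 2 * D - 1 + 1 = 2 * D by omega, pow_mul]; norm_num
    rw [div_le_iff₀ (by positivity)]
    refine hF.trans ?_
    calc C * 4 ^ D * DF {D} * (D : ℝ) ^ 2
        = (4 * C) * (2 ^ (2 * D - 1) * DF {D} * (D : ℝ) ^ 2 / 2) := by rw [h3]; ring
      _ ≤ D * (2 ^ (2 * D - 1) * DF {D} * (D : ℝ) ^ 2 / 2) := by gcongr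
      _ = DF {D} / (D : ℝ) ^ 5 / 2 * ((D : ℝ) ^ 8 * 2 ^ (2 * D - 1)) := by field_simp
      _ ≤ _ := by gcongr
  have s5 : egr (SY σ) D 2 ≤ ∑ k ∈ range (D + 1), (if k ∈ range (K + 1) then B else 0) +
      egr (XX σ) D 4 / (2 ^ K * 2 ^ (2 * D - 1)) := s1
  linarith

end Pool.Agent.STS.Cy
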