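import Pool.Agent.P.MP_bb7f8f_gt.Q2.Base

set_option linter.unusedSectionVars false

namespace Pool.Agent.STS.Cy
open Equiv Finset Filter Topology

namespace SymAux

variable {H J : Type} [Fintype H] [DecidableEq H] [Fintype J] [DecidableEq J]

/-- the number of orbits of two commuting free permutations, one of them an involution -/
theorem orbit_count {α ψ : Perm H} (hα : IsMt α) (hc : ψ * α = α * ψ) (hψ : ∀ x, ψ x ≠ x)
    {Q : Type} [Fintype Q] [DecidableEq Q] (q : H → Q) (hq : Function.Surjective q)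
    (h1 : ∀ x, q (α x) = q x) (h2 : ∀ x, q (ψ x) = q x) :
    4 * Fintype.card Q + #{x | α x ≠ ψ x} ≤ 2 * Fintype.card H := by
  have hcomm : ∀ x, ψ (α x) = α (ψ x) := fun x => by
    have := congrArg (fun g : Perm H => g x) hc
    simpa using this
  let w : H → ℕ := fun x => if α x ≠ ψ x then 1 else 2
  have hw : ∑ x, w x + #{x | α x ≠ ψ x} = 2 * Fintype.card H := by
    rw [Finset.card_filter, ← Finset.sum_add_distrib, Finset.sum_congr rfl
      (g := fun _ => 2) fun x _ => by simp only [w]; split_ifs <;> rfl]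
    simp [mul_comm]
  have hf : ∀ t : Q, 4 ≤ ∑ x with q x = t, w x := fun t => by
    obtain ⟨x, rfl⟩ := hq t
    by_cases hx : α x = ψ x
    · have hx2 : α (α x) = ψ (α x) := by rw [hcomm, ← hx]
      have hs : ({x, α x} : Finset H) ⊆ univ.filter fun y => q y = q x := by
        intro y hy
        simp only [mem_insert, mem_singleton] at hy
        rcases hy with rfl | rfl <;> simp [h1]
      refine le_trans (le_of_eq ?_) (Finset.sum_le_sum_of_subset hs)
      rw [Finset.sum_pair (hα x).2.symm]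
      simp only [w]
      rw [if_neg (not_not.2 hx), if_neg (not_not.2 hx2)]
    · have hs : ({x, α x, ψ x, α (ψ x)} : Finset H) ⊆ univ.filter fun y => q y = q x := by
        intro y hy
        simp only [mem_insert, mem_singleton] at hy
        rcases hy with rfl | rfl | rfl | rfl <;> simp [h1, h2]
      have e1 : x ≠ α x := (hα x).2.symm
      have e2 : x ≠ ψ x := (hψ x).symm
      have e3 : x ≠ α (ψ x) := fun h => hx (by
        have := congrArg α h
        rwa [(hα _).1] at this)
      have e4 : α x ≠ α (ψ x) := fun h => e2 (α.injective h)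
      have e5 : ψ x ≠ α (ψ x) := (hα _).2.symm
      have hcard : #({x, α x, ψ x, α (ψ x)} : Finset H) = 4 := by
        rw [Finset.card_insert_of_notMem (by simp [e1, e2, e3]),
          Finset.card_insert_of_notMem (by simp [hx, e4]), Finset.card_pair e5]
      refine le_trans ?_ (Finset.sum_le_sum_of_subset hs)
      rw [← hcard, Finset.card_eq_sum_ones]
      exact Finset.sum_le_sum fun y _ => by simp only [w]; split_ifs <;> omega
  have h3 : 4 * Fintype.card Q ≤ ∑ x, w x := by
    rw [← Finset.sum_fiberwise (s := univ) (g := q)]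
    calc 4 * Fintype.card Q = ∑ _t : Q, 4 := by simp [mul_comm]
      _ ≤ _ := Finset.sum_le_sum fun t _ => hf t
  omega

/-- a space of invariant functions has dimension at most the number of orbits -/
theorem finrank_bound {α ψ : Perm H} (hα : IsMt α) (hc : ψ * α = α * ψ) (hψ : ∀ x, ψ x ≠ x)
    (U : Submodule ℚ (H → ℚ)) (h1 : ∀ l ∈ U, ∀ x, l (α x) = l x)
    (h2 : ∀ l ∈ U, ∀ x, l (ψ x) = l x) :
    4 * Module.finrank ℚ U + #{x | α x ≠ ψ x} ≤ 2 * Fintype.card H := by
  classical
  let r : H → H → Prop := fun a b => b = α a ∨ b = ψ a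
  let Q := Quot r
  have : Finite Q := Finite.of_surjective (Quot.mk r) Quot.mk_surjective
  let _ : Fintype Q := Fintype.ofFinite Q
  have h3 : 4 * Fintype.card Q + #{x | α x ≠ ψ x} ≤ 2 * Fintype.card H :=
    orbit_count (Q := Q) hα hc hψ (Quot.mk r) Quot.mk_surjective
    (fun x => (Quot.sound (r := r) (Or.inl rfl)).symm)
    (fun x => (Quot.sound (r := r) (Or.inr rfl)).symm)
  let F : U →ₗ[ℚ] (Q → ℚ) :=
    { toFun := fun l => Quot.lift l.1 fun a b hab => by
        rcases hab with rfl | rfl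
        · exact (h1 l.1 l.2 a).symm
        · exact (h2 l.1 l.2 a).symm
      map_add' := fun a b => funext fun t => by
        obtain ⟨x, rfl⟩ := Quot.mk_surjective t
        rfl
      map_smul' := fun c a => funext fun t => by
        obtain ⟨x, rfl⟩ := Quot.mk_surjective t
        rfl }
  have hF : Function.Injective F := fun a b hab =>
    Subtype.ext (funext fun x => congrFun hab (Quot.mk r x))
  have h4 := LinearMap.finrank_le_finrank_of_injective hF
  rw [Module.finrank_fintype_fun_eq_card] at h4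
  omega

theorem card_J {σ : Perm H} {π : H → J} {v : J → ℕ} {D M : ℕ} (h : Vx σ π v D M) :
    Fintype.card J ≤ M + 2 * D / 3 := by
  have h1 := h.sum
  have h2 := h.pole
  have h3 : 3 * #{j | ¬ v j = 1} ≤ ∑ j, v j := by
    calc 3 * #{j | ¬ v j = 1} = ∑ _j with ¬ v _j = 1, 3 := by simp [mul_comm]
      _ ≤ ∑ j with ¬ v j = 1, v j := Finset.sum_le_sum fun j hj => by
          have a := (mem_filter.1 hj).2
          obtain ⟨b, hb⟩ := h.cyc.odd j
          omega
      _ ≤ _ := Finset.sum_le_sum_of_subset (filter_subset _ _)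
  have h4 := Finset.card_filter_add_card_filter_not (s := (univ : Finset J)) fun j => v j = 1
  rw [card_univ] at h4
  omega

theorem exists_enum {X : Type} (T : Finset X) (n : ℕ) (h : #T ≤ n) :
    ∃ e : Fin n → Option X, ∀ p, p ∈ T ↔ ∃ i, e i = some p := by
  refine ⟨fun i => T.toList[i.1]?, fun p => ?_⟩
  rw [← Finset.mem_toList, List.mem_iff_getElem?]
  constructor
  · rintro ⟨i, hi⟩
    have h1 : i < T.toList.length := (List.getElem?_eq_some_iff.1 hi).1
    rw [Finset.length_toList] at h1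
    exact ⟨⟨i, by omega⟩, hi⟩
  · rintro ⟨i, hi⟩
    exact ⟨i.1, hi⟩

theorem comm_ext {σ : Perm H} {π : H → J} {v : J → ℕ} (hc : Cyc σ π v) {s : J → H}
    (hs : ∀ j, π (s j) = j) {ψ ψ' : Perm H} (h1 : ψ * σ = σ * ψ) (h2 : ψ' * σ = σ * ψ')
    (h : ∀ j, ψ (s j) = ψ' (s j)) : ψ = ψ' := by
  ext x
  obtain ⟨n, hn⟩ := ((hc.same (s (π x)) x).1 (hs _)).exists_nat_pow_eq
  have e1 : ψ * σ ^ n = σ ^ n * ψ := (Commute.pow_right (h1 : Commute ψ σ) n)
  have e2 : ψ' * σ ^ n = σ ^ n * ψ' := (Commute.pow_right (h2 : Commute ψ' σ) n)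
  have a1 := congrArg (fun g : Perm H => g (s (π x))) e1
  have a2 := congrArg (fun g : Perm H => g (s (π x))) e2
  simp only [Perm.mul_apply, hn] at a1 a2
  rw [a1, a2, h]

end SymAux

open SymAux in
theorem pSym : SSym := by
  intro H J _ _ _ _ σ π v D M hV hD k
  have hrep : ∀ j, ∃ x, π x = j := fun j => by
    have h1 : 0 < #{x | π x = j} := by rw [hV.cyc.card]; exact (hV.cyc.odd j).pos
    obtain ⟨x, hx⟩ := Finset.card_pos.1 h1
    exact ⟨x, (mem_filter.1 hx).2⟩
  choose s hs using hrep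
  have key : ∀ α : Perm H, ∃ (ψ : Perm H) (e : Fin (4 * k) → Option (H × H)),
      α ∈ {α : Perm H | ∃ c : H → Fin k × Bool, IsDg σ (α, c) ∧ SymP σ (α, c)} →
        ψ * σ = σ * ψ ∧ ∀ p : H × H, (α p.1 ≠ ψ p.1 ∧ α p.1 = p.2) ↔ ∃ i, e i = some p := by
    intro α
    by_cases hα : α ∈ {α : Perm H | ∃ c : H → Fin k × Bool, IsDg σ (α, c) ∧ SymP σ (α, c)}
    swap
    · exact ⟨1, fun _ => none, fun h => absurd h hα⟩
    obtain ⟨c, hd, ψ, h1, h2, h3, h4⟩ := hα
    have h5 := finrank_bound (α := α) hd.1 h2 h3 (VO α (tot c)) (fun l hl => hl.1) h4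
    have h6 := dg_dim hV.cyc hV.card hd
    rw [Fintype.card_fin] at h6
    rw [hV.card] at h5
    have h7 : #(({x | α x ≠ ψ x} : Finset H).image fun x => (x, α x)) ≤ 4 * k := by
      refine Finset.card_image_le.trans ?_
      change Module.finrank ℚ (VO α (tot c)) + k = D at h6
      omega
    obtain ⟨e, he⟩ := exists_enum _ _ h7
    refine ⟨ψ, e, fun _ => ⟨h1, fun p => ?_⟩⟩
    rw [← he, Finset.mem_image]
    constructor
    · rintro ⟨a, b⟩
      exact ⟨p.1, mem_filter.2 ⟨mem_univ _, a⟩, Prod.ext rfl b⟩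
    · rintro ⟨x, hx, rfl⟩
      exact ⟨(mem_filter.1 hx).2, rfl⟩
  choose ψ e hψ using key
  have hinj : Set.InjOn (fun α : Perm H => ((fun j => ψ α (s j), e α) :
      (J → H) × (Fin (4 * k) → Option (H × H))))
      {α : Perm H | ∃ c : H → Fin k × Bool, IsDg σ (α, c) ∧ SymP σ (α, c)} := by
    intro α hα β hβ h
    obtain ⟨a1, a2⟩ := hψ α hα
    obtain ⟨b1, b2⟩ := hψ β hβ
    have h1 : ψ α = ψ β := comm_ext hV.cyc hs a1 b1 fun j => congrFun (congrArg Prod.fst h) j
    have h2 : e α = e β := congrArg Prod.snd h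
    ext x
    by_cases hx : α x = ψ α x
    · by_cases hy : β x = ψ β x
      · rw [hx, hy, h1]
      · have := (b2 (x, β x)).1 ⟨hy, rfl⟩
        rw [← h2] at this
        exact ((a2 (x, β x)).2 this).2
    · have := (a2 (x, α x)).1 ⟨hx, rfl⟩
      rw [h2] at this
      exact ((b2 (x, α x)).2 this).2.symm
  have h1 := Set.ncard_le_ncard_of_injOn _ (t := Set.univ) (fun _ _ => Set.mem_univ _) hinj
  refine h1.trans ?_
  rw [Set.ncard_univ, Nat.card_eq_fintype_card, Fintype.card_prod, Fintype.card_fun,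
    Fintype.card_fun, Fintype.card_option, Fintype.card_prod, Fintype.card_fin, hV.card]
  refine Nat.mul_le_mul (Nat.pow_le_pow_right (by omega) (card_J hV)) (le_of_eq ?_)
  congr 1
  ring

end Pool.Agent.STS.Cy
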