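import Pool.Agent.P.MP_bb7f8f_gt.Q2.Base

set_option linter.unusedSectionVars false

namespace Pool.Agent.STS.Cy.Uniq2Aux
open Equiv Finset Filter Topology

variable {H I : Type} [Fintype H] [DecidableEq H] [Fintype I] [DecidableEq I]

/-- the properties of a splitting which determine it -/
structure Facts (p : Dg H I) (Y : Finset H) (L : Finset I) : Prop where
  live : ∀ x ∈ Y, ¬ Static p.1 (tot p.2) x
  stat : ∀ x, x ∉ Y → (p.2 x).1 ∈ L → Static p.1 (tot p.2) x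
  inv : ∀ x, p.1 x ∈ Y ↔ x ∈ Y
  lab : ∀ x ∈ Y, (p.2 x).1 ∈ L
  surj : ∀ i ∈ L, ∃ x ∈ Y, (p.2 x).1 = i
  conn : ∀ Z : H → Prop, (∀ x ∈ Y, Z (p.1 x) ↔ Z x) →
    (∀ x ∈ Y, ∀ y ∈ Y, (p.2 y).1 = (p.2 x).1 → Z x → Z y) → ∀ x ∈ Y, ∀ y ∈ Y, Z x ↔ Z y

theorem facts (hGlue : SGlue) {σ : Perm H} {p : Dg H I} {Y : Finset H} {L : Finset I}
    (h : Splits σ Y L p) : Facts p Y L := by
  obtain ⟨p₁, α₂, c₂, hP, hA, hG⟩ := h
  obtain ⟨g1, g2, -⟩ := hGlue H I σ Y L p p₁ α₂ c₂ hG hA.ok.1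
  refine ⟨fun x hx hs => hP.2.2 ⟨x, hx⟩ ((g1 ⟨x, hx⟩).1 hs), fun x hx hl => ?_, fun x => ?_,
    fun x hx => ?_, fun i hi => ?_, fun Z h1 h2 x hx y hy => ?_⟩
  · refine (g2 ⟨x, hx⟩).2 (hA.ok.1 _ ?_)
    rcases hc : c₂ ⟨x, hx⟩ with _ | f
    · rfl
    · have e : p.2 x = (f.1.1, f.2) := hG.c2 ⟨x, hx⟩ f hc
      rw [e] at hl
      exact absurd hl f.1.2
  · by_cases hx : x ∈ Y
    · have e : p.1 x = (p₁.1 ⟨x, hx⟩).1 := hG.a1 ⟨x, hx⟩
      rw [e]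
      exact iff_of_true (p₁.1 ⟨x, hx⟩).2 hx
    · have e : p.1 x = (α₂ ⟨x, hx⟩).1 := hG.a2 ⟨x, hx⟩
      rw [e]
      exact iff_of_false (α₂ ⟨x, hx⟩).2 hx
  · have e : p.2 x = ((p₁.2 ⟨x, hx⟩).1.1, (p₁.2 ⟨x, hx⟩).2) := hG.c1 ⟨x, hx⟩
    rw [e]
    exact (p₁.2 ⟨x, hx⟩).1.2
  · obtain ⟨x, hx⟩ := hP.1.2.2 (⟨i, hi⟩, true)
    refine ⟨x.1, x.2, ?_⟩
    rw [hG.c1 x, hx]
  · have key : ∀ a b : {x // x ∈ Y}, Relation.EqvGen
        (fun a b => b = p₁.1 a ∨ (p₁.2 b).1 = (p₁.2 a).1) a b → (Z a.1 ↔ Z b.1) := by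
      intro a b hab
      induction hab with
      | rel a b hab =>
        rcases hab with hab | hab
        · rw [hab, ← hG.a1 a]
          exact (h1 a.1 a.2).symm
        · have e : (p.2 b.1).1 = (p.2 a.1).1 := by
            rw [hG.c1 a, hG.c1 b, hab]
          exact ⟨h2 a.1 a.2 b.1 b.2 e, h2 b.1 b.2 a.1 a.2 e.symm⟩
      | refl a => exact Iff.rfl
      | symm a b _ ih => exact ih.symm
      | trans a b c _ _ ih1 ih2 => exact ih1.trans ih2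
    exact key ⟨x, hx⟩ ⟨y, hy⟩ (hP.2.1 _ _)

theorem Facts.sub {p : Dg H I} {Y Y' : Finset H} {L L' : Finset I} (h : Facts p Y L)
    (h' : Facts p Y' L') {z : H} (hz : z ∈ Y) (hz' : z ∈ Y') : Y ⊆ Y' := fun x hx =>
  (h.conn (fun x => x ∈ Y') (fun x _ => h'.inv x) (fun a _ b hb e ha' => by
    by_contra hb'
    exact h.live b hb (h'.stat b hb' (e ▸ h'.lab a ha'))) z hz x hx).1 hz'

theorem Facts.lab_sub {p : Dg H I} {Y : Finset H} {L L' : Finset I} (h : Facts p Y L)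
    (h' : Facts p Y L') : L ⊆ L' := fun i hi => by
  obtain ⟨x, hx, rfl⟩ := h.surj i hi
  exact h'.lab x hx

theorem meet {Y Y' : Finset H} (h : Fintype.card H < #Y + #Y') : ∃ z, z ∈ Y ∧ z ∈ Y' := by
  by_contra hn
  have hd : Disjoint Y Y' := Finset.disjoint_left.2 fun z h1 h2 => hn ⟨z, h1, h2⟩
  have h1 := Finset.card_le_univ (Y ∪ Y')
  rw [Finset.card_union_of_disjoint hd] at h1
  omega

end Pool.Agent.STS.Cy.Uniq2Aux

namespace Pool.Agent.STS.Cy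
open Equiv Finset Filter Topology

theorem pUniq (hGlue : SGlue) : SUniq := by
  intro H I _ _ _ _ σ p Y L hS
  have h := Uniq2Aux.facts hGlue hS
  refine ⟨fun Y' L' hS' hc => ?_, fun hP hY => ?_⟩
  · have h' := Uniq2Aux.facts hGlue hS'
    obtain ⟨z, hz, hz'⟩ := Uniq2Aux.meet hc
    have e : Y = Y' := Finset.Subset.antisymm (h.sub h' hz hz') (h'.sub h hz' hz)
    subst e
    exact ⟨rfl, Finset.Subset.antisymm (h.lab_sub h') (h'.lab_sub h)⟩
  · obtain ⟨z, hz⟩ := hY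
    have step : ∀ a b, (p.2 b).1 = (p.2 a).1 → a ∈ Y → b ∈ Y := fun a b e ha => by
      by_contra hb
      exact hP.2.2 b (h.stat b hb (e ▸ h.lab a ha))
    have key : ∀ a b : H, Relation.EqvGen
        (fun a b => b = p.1 a ∨ (p.2 b).1 = (p.2 a).1) a b → (a ∈ Y ↔ b ∈ Y) := by
      intro a b hab
      induction hab with
      | rel a b hab =>
        rcases hab with hab | hab
        · rw [hab]
          exact (h.inv a).symm
        · exact ⟨step a b hab, step b a hab.symm⟩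
      | refl a => exact Iff.rfl
      | symm a b _ ih => exact ih.symm
      | trans a b c _ _ ih1 ih2 => exact ih1.trans ih2
    exact Finset.eq_univ_of_forall fun x => (key z x (hP.2.1 z x)).1 hz

end Pool.Agent.STS.Cy
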