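import Pool.Agent.P.MP_bb7f8f_gt.Q2.Base

set_option linter.unusedSectionVars false

namespace Pool.Agent.STS.Cy
open Equiv Finset Filter Topology

namespace XFAux

variable {H : Type} [Fintype H] [DecidableEq H] {k : ℕ}

theorem t_finite (α : Perm H) (c : H → Fin k × Bool) (b : Fin k × Bool → ℕ) :
    (QF.GenFun.T α c b).Finite := by
  refine ((Set.Finite.pi' (t := fun x => Set.Iic (b (c x))) fun _ =>
    Set.finite_Iic _).prod Set.finite_univ).subset fun z hz => ⟨fun x => ?_, trivial⟩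
  have h1 : z.1 x + (z.2 x).toNat ≤ per c (fun x => z.1 x + (z.2 x).toNat) (c x) :=
    Finset.single_le_sum (f := fun x => z.1 x + (z.2 x).toNat) (fun _ _ => Nat.zero_le _)
      (by simp)
  rw [hz.2] at h1
  exact le_trans (Nat.le_add_right _ _) h1

theorem pr_eo (c : H → Fin k × Bool) (l : H → ℕ) (ε : H → Bool) (f : Fin k × Bool) :
    pr (tot c) (fun x => (l x : ℤ)) f + eo (tot c) ε f =
      (per c (fun x => l x + (ε x).toNat) f : ℕ) := by
  rw [eo, pr_tot, pr_tot, per, ← Finset.sum_add_distrib]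
  push_cast
  rfl

theorem key (α : Perm H) (c : H → Fin k × Bool) (m : ℕ) :
    ∑ ε : H → Bool, cn α (tot c) (eo (tot c) ε) m =
      ∑ q ∈ HWm k m, (∏ i, q.2 i) * (QF.GenFun.T α c fun f => q.2 f.1).ncard := by
  classical
  have hf : ∀ ε, (Cone α (tot c) (eo (tot c) ε) m).Finite := fun ε =>
    cone_finite (fun x h => by simp [tot] at h) (eo_nonneg ε) m
  have e1 : ∑ ε : H → Bool, cn α (tot c) (eo (tot c) ε) m =
      #(univ.sigma fun ε : H → Bool => (hf ε).toFinset) := by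
    rw [card_sigma]
    exact sum_congr rfl fun ε _ => Set.ncard_eq_toFinset_card _ (hf ε)
  have e2 : ∑ q ∈ HWm k m, (∏ i, q.2 i) * (QF.GenFun.T α c fun f => q.2 f.1).ncard =
      #((HWm k m).sigma fun q => (Fintype.piFinset fun i => range (q.2 i)) ×ˢ
        (t_finite α c fun f => q.2 f.1).toFinset) := by
    rw [card_sigma]
    refine sum_congr rfl fun q _ => ?_
    rw [card_product, Fintype.card_piFinset, Set.ncard_eq_toFinset_card _ (t_finite α c _)]
    simp
  rw [e1, e2]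
  symm
  refine card_bij (fun z _ => ⟨z.2.2.2, (fun x => (z.2.2.1 x : ℤ), fun i => (z.1.1 i : ℤ),
    fun i => (z.2.1 i : ℤ))⟩) ?_ ?_ ?_
  · rintro ⟨⟨h, w⟩, t, l, ε⟩ hz
    simp only [mem_sigma, mem_product, Fintype.mem_piFinset, mem_range, Set.Finite.mem_toFinset,
      HWm, mem_filter, mem_Icc] at hz
    obtain ⟨⟨⟨h1, h2⟩, h3⟩, h4, h5, h6⟩ := hz
    simp only at h5 h6
    simp only [mem_sigma, mem_univ, true_and, Set.Finite.mem_toFinset]
    refine ⟨⟨fun x => by simp only [h5 x], fun i => ?_⟩, fun x => by positivity,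
      fun i => Int.ofNat_le.2 (h1 i).1, fun i => ⟨by positivity, ?_⟩, ?_⟩
    · rw [pr_eo, pr_eo, h6, h6]
    · simp only
      rw [pr_eo, h6]
      exact_mod_cast h4 i
    · simp only [pr_eo, h6]
      exact_mod_cast h3
  · rintro ⟨⟨h, w⟩, t, l, ε⟩ hz ⟨⟨h', w'⟩, t', l', ε'⟩ hz' e
    simp only [mem_sigma, mem_product, Set.Finite.mem_toFinset] at hz hz'
    simp only [Sigma.mk.injEq, heq_eq_eq, Prod.mk.injEq] at e
    obtain ⟨rfl, e1, e2, e3⟩ := e
    obtain rfl : l = l' := funext fun x => by exact_mod_cast congrFun e1 x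
    obtain rfl : h = h' := funext fun x => by exact_mod_cast congrFun e2 x
    obtain rfl : t = t' := funext fun x => by exact_mod_cast congrFun e3 x
    obtain rfl : w = w' := funext fun i =>
      (hz.2.2.2 (i, true)).symm.trans (hz'.2.2.2 (i, true))
    rfl
  · rintro ⟨ε, l, h, t⟩ hz
    simp only [mem_sigma, mem_univ, true_and, Set.Finite.mem_toFinset] at hz
    have hle := cone_le hz
    obtain ⟨⟨h1, h2⟩, h3, h4, h5, h6⟩ := hz
    simp only at h1 h2 h3 h4 h5 h6 hle
    lift l to H → ℕ using h3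
    lift h to Fin k → ℕ using fun i => by have := h4 i; omega
    lift t to Fin k → ℕ using fun i => (h5 i).1
    simp only [pr_eo] at h2 h5 h6 hle
    refine ⟨⟨(h, fun i => per c (fun x => l x + (ε x).toNat) (i, true)), t, l, ε⟩, ?_, rfl⟩
    simp only [mem_sigma, mem_product, Fintype.mem_piFinset, mem_range, Set.Finite.mem_toFinset,
      HWm, mem_filter, mem_Icc]
    refine ⟨⟨⟨fun i => ⟨Int.ofNat_le.1 (h4 i), by exact_mod_cast (hle i).1⟩,
      fun i => ⟨?_, by exact_mod_cast (hle i).2⟩⟩, by exact_mod_cast h6⟩,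
      fun i => by exact_mod_cast (h5 i).2, fun x => Int.ofNat_inj.1 (h1 x), ?_⟩
    · have := h5 i
      omega
    · rintro ⟨i, b⟩
      cases b
      · exact_mod_cast (h2 i).symm
      · rfl

open Classical in
theorem nu_eq {I : Type} [Fintype I] [DecidableEq I] (α : Perm H) (c : H → Option (I × Bool)) :
    nu α c = #{ε : H → Bool | Good α c (eo c ε)} := by
  rw [nu, ← Set.ncard_coe_finset]
  congr 1
  ext ε
  simp

theorem asy_one {J : Type} [Fintype J] [DecidableEq J] {σ : Perm H} {π : H → J} {v : J → ℕ}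
    {D M : ℕ} (hLat : SLat) (h : Vx σ π v D M) {p : Dg H (Fin k)} (hp : IsDg σ p) :
    Asy (fun m => ∑ ε : H → Bool, (cn p.1 (tot p.2) (eo (tot p.2) ε) m : ℝ)) D
      ((nu p.1 (tot p.2) : ℝ) * zz p.1 (tot p.2) D) := by
  classical
  have h1 := (hLat H (Fin k) p.1 (tot p.2) D (dg_ok h.cyc h.card hp)).2
    fun i => dg_w h.cyc hp i true
  have h2 : (nu p.1 (tot p.2) : ℝ) * zz p.1 (tot p.2) D = ∑ ε : H → Bool,
      if Good p.1 (tot p.2) (eo (tot p.2) ε) then zz p.1 (tot p.2) D else 0 := by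
    rw [← Finset.sum_filter, Finset.sum_const, nsmul_eq_mul, nu_eq]
  rw [h2]
  refine asy_sum univ fun ε _ => ?_
  split_ifs with hg
  · exact h1 _ (eo_nonneg ε) hg
  · simp only [cn_eq_zero hg, Nat.cast_zero]
    exact asy_zero D

open Classical in
theorem sum_eq (σ : Perm H) (m : ℕ) :
    ∑ p : Dg H (Fin k) with IsDg σ p ∧ True,
        ∑ ε : H → Bool, (cn p.1 (tot p.2) (eo (tot p.2) ε) m : ℝ) =
      ∑ q ∈ HWm k m, (∏ i, (q.2 i : ℝ)) * Sm σ fun f : Fin k × Bool => q.2 f.1 := by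
  have h1 : ∀ q : (Fin k → ℕ) × (Fin k → ℕ), Sm σ (fun f : Fin k × Bool => q.2 f.1) =
      ∑ p : Dg H (Fin k) with IsDg σ p ∧ True,
        (QF.GenFun.T p.1 p.2 fun f => q.2 f.1).ncard := fun q => by
    rw [QF.GenFun.Sm_eq, Finset.sum_finset_product (univ.filter fun p : Dg H (Fin k) =>
      IsDg σ p ∧ True) (univ.filter IsMt) (fun α => univ.filter (IsLab σ α)) (by simp [IsDg])]
  simp only [h1]
  push_cast
  simp only [Finset.mul_sum]
  refine Eq.trans (Finset.sum_congr rfl fun p _ => ?_) Finset.sum_comm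
  exact_mod_cast key p.1 p.2 m

end XFAux

theorem pXF (hLat : SLat) (hExpl : SExpl) : SXF := by
  classical
  intro H J _ _ _ _ σ π v D M h h1 k
  have hA := asy_sum (univ.filter fun p : Dg H (Fin k) => IsDg σ p ∧ True) fun p hp =>
    XFAux.asy_one hLat h (mem_filter.1 hp).2.1
  have hB : Asy (fun m => 2 ^ D * ∑ A ∈ SP D, gm v A * ∑ κ ∈ OT (Fin k × Bool) D,
      ((MvPolynomial.constantCoeff (QF.ddI κ (QF.Q (QF.sl A))) : ℚ) : ℝ) *
        ∑ q ∈ HWm k m, ∏ i, ((q.2 i : ℝ) * yc (κ (i, true)) (q.2 i) * yc (κ (i, false)) (q.2 i)))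
      D (2 ^ D * ∑ A ∈ SP D, gm v A * PhA D A k) := by
    refine Asy.const_mul (asy_sum _ fun A _ => Asy.const_mul (asy_sum _ fun κ hκ =>
      Asy.const_mul ?_ _) _) _
    obtain ⟨-, h2, h3⟩ := mem_filter.1 hκ
    have := hExpl k κ fun a => (h2 a).pos
    rwa [h3] at this
  have e : (fun m => ∑ p : Dg H (Fin k) with IsDg σ p ∧ True,
      ∑ ε : H → Bool, (cn p.1 (tot p.2) (eo (tot p.2) ε) m : ℝ)) = fun m =>
      2 ^ D * ∑ A ∈ SP D, gm v A * ∑ κ ∈ OT (Fin k × Bool) D,
      ((MvPolynomial.constantCoeff (QF.ddI κ (QF.Q (QF.sl A))) : ℚ) : ℝ) *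
        ∑ q ∈ HWm k m, ∏ i, ((q.2 i : ℝ) * yc (κ (i, true)) (q.2 i) *
          yc (κ (i, false)) (q.2 i)) := by
    funext m
    rw [XFAux.sum_eq]
    simp only [sm_formula h h1, Finset.mul_sum]
    rw [Finset.sum_comm]
    refine Finset.sum_congr rfl fun A _ => ?_
    rw [Finset.sum_comm]
    refine Finset.sum_congr rfl fun κ _ => Finset.sum_congr rfl fun q _ => ?_
    rw [Fintype.prod_prod_type]
    simp only [Fintype.prod_bool, Finset.prod_mul_distrib]
    ring
  rw [e] at hA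
  rw [XX, XP, h.half]
  exact (Finset.sum_congr (by ext p; simp) fun _ _ => rfl).trans (hA.unique hB)

end Pool.Agent.STS.Cy
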