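import Pool.Agent.P.MP_bb7f8f_gt.Q2.Base

set_option linter.unusedSectionVars false

namespace Pool.Agent.STS.Cy
open Equiv Finset Filter Topology

namespace ZleAux
variable {H I : Type} [Fintype H] [Fintype I] [DecidableEq I] {α : Perm H}
  {c : H → Option (I × Bool)}

/-- a determining set of coordinates which contains no edge -/
theorem exists_free (hα : IsMt α) : ∃ F : Finset H, #F ≤ Module.finrank ℚ (VO α c) ∧
    (∀ x ∈ F, α x ∉ F) ∧ ∀ u ∈ VO α c, (∀ x ∈ F, u x = 0) → u = 0 := by
  classical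
  obtain ⟨F, h1, h2⟩ := Base.exists_coords _ (VO α c) rfl
  let e := Fintype.equivFin H
  refine ⟨F.filter fun x => ¬ (α x ∈ F ∧ e (α x) < e x), (card_filter_le _ _).trans h1,
    fun x hx hx' => ?_, fun u hu h => h2 u hu fun x hx => ?_⟩
  · simp only [mem_filter, (hα x).1, not_and, not_lt] at hx hx'
    exact (hα x).2 (e.injective (le_antisymm (hx'.2 hx.1) (hx.2 hx'.1)))
  · by_cases h3 : α x ∈ F ∧ e (α x) < e x
    · rw [← hu.1 x]
      refine h _ (mem_filter.2 ⟨h3.1, fun h4 => ?_⟩)
      rw [(hα x).1] at h4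
      exact lt_asymm h3.2 h4.2
    · exact h x (mem_filter.2 ⟨hx, h3⟩)

theorem sum_all (hs : ∀ x, c x = none → Static α c x) {l : H → ℤ} (hl : Sol α c 0 l) :
    ∑ x, l x = 2 * ∑ i, pr c l (i, true) := by
  classical
  rw [← Finset.sum_fiberwise (s := univ) (g := c), Fintype.sum_option, Fintype.sum_prod_type,
    Finset.sum_eq_zero fun x hx => hs x (mem_filter.1 hx).2 l hl, zero_add, Finset.mul_sum]
  refine Finset.sum_congr rfl fun i _ => ?_
  have h := hl.2 i
  simp only [Pi.zero_apply, add_zero, pr] at h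
  rw [Fintype.sum_bool, two_mul, pr]
  congr 1
  exact h.symm

theorem sum_free (hs : ∀ x, c x = none → Static α c x) {F : Finset H} (hF : ∀ x ∈ F, α x ∉ F)
    {l : H → ℤ} (hl : Sol α c 0 l) (h0 : ∀ x, 0 ≤ l x) :
    ∑ x ∈ F, l x ≤ ∑ i, pr c l (i, true) := by
  classical
  have h1 : Disjoint F (F.map α.toEmbedding) := by
    rw [Finset.disjoint_right]
    intro x hx
    obtain ⟨y, hy, rfl⟩ := mem_map.1 hx
    exact hF y hy
  have h2 : ∑ x ∈ F.disjUnion _ h1, l x ≤ ∑ x, l x :=
    Finset.sum_le_sum_of_subset_of_nonneg (subset_univ _) fun x _ _ => h0 x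
  rw [Finset.sum_disjUnion, Finset.sum_map, sum_all hs hl] at h2
  have h3 : ∑ x ∈ F, l (α.toEmbedding x) = ∑ x ∈ F, l x :=
    Finset.sum_congr rfl fun x _ => hl.1 x
  omega

theorem count (hs : ∀ x, c x = none → Static α c x) {F : Finset H} (hF : ∀ x ∈ F, α x ∉ F)
    (hd : ∀ u ∈ VO α c, (∀ x ∈ F, u x = 0) → u = 0) (N : ℕ) :
    ∑ m ∈ range (N + 1), cn α c 0 m ≤ (#F + N).choose N * N ^ Fintype.card I := by
  classical
  have hfin : ∀ m, (Cone α c 0 m).Finite := cone_finite hs fun _ => le_rfl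
  have h1 : ∑ m ∈ range (N + 1), cn α c 0 m =
      #((range (N + 1)).biUnion fun m => (hfin m).toFinset) := by
    rw [Finset.card_biUnion]
    · exact Finset.sum_congr rfl fun m _ => Set.ncard_eq_toFinset_card _ (hfin m)
    · intro m _ m' _ hne
      rw [Function.onFun, Finset.disjoint_left]
      intro p hp hp'
      rw [Set.Finite.mem_toFinset] at hp hp'
      exact hne (by exact_mod_cast hp.2.2.2.2.symm.trans hp'.2.2.2.2)
  let f : (H → ℤ) × (I → ℤ) × (I → ℤ) → (Option {x // x ∈ F} →₀ ℕ) × (I → ℕ) := fun p =>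
    (Finsupp.equivFunOnFinite.symm fun o =>
      o.elim (N - ∑ x ∈ F, (p.1 x).toNat) fun x => (p.1 x.1).toNat,
      fun i => (p.2.2 i + pr c p.1 (i, true) * (p.2.1 i - 1)).toNat)
  have h2 : (#F + N).choose N * N ^ Fintype.card I =
      #(((univ : Finset (Option {x // x ∈ F})).finsuppAntidiag N) ×ˢ
        Fintype.piFinset fun _ : I => range N) := by
    rw [card_product, card_finsuppAntidiag_nat_eq_choose, Fintype.card_piFinset]
    simp only [card_univ, Fintype.card_option, Fintype.card_coe, card_range, prod_const]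
    congr 2
    omega
  rw [h1, h2]
  refine Finset.card_le_card_of_injOn f (fun p hp => ?_) fun p hp q hq he => ?_
  · obtain ⟨m, hm, hp⟩ := mem_biUnion.1 hp
    rw [Set.Finite.mem_toFinset] at hp
    have hm' : m ≤ N := Nat.lt_succ_iff.1 (mem_range.1 hm)
    obtain ⟨p1, p2, p3, p4, p5⟩ := hp
    simp only [Pi.zero_apply, add_zero] at p4 p5
    have hw : ∀ i, 0 ≤ pr c p.1 (i, true) := fun i => pr_nonneg p2 _
    refine mem_coe.2 (mem_product.2 ⟨mem_finsuppAntidiag.2 ⟨?_, subset_univ _⟩,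
      Fintype.mem_piFinset.2 fun i => mem_range.2 ?_⟩)
    · have e1 : ∑ i, pr c p.1 (i, true) ≤ m := by
        rw [← p5]
        exact Finset.sum_le_sum fun i _ => by have := hw i; have := p3 i; nlinarith
      have e2 := sum_free hs hF p1 p2
      have e3 : ((∑ x ∈ F, (p.1 x).toNat : ℕ) : ℤ) = ∑ x ∈ F, p.1 x := by
        push_cast
        exact Finset.sum_congr rfl fun x _ => Int.toNat_of_nonneg (p2 x)
      have e4 : ∑ x : {x // x ∈ F}, (p.1 x.1).toNat = ∑ x ∈ F, (p.1 x).toNat :=
        Finset.sum_coe_sort F fun x => (p.1 x).toNat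
      simp only [f, Fintype.sum_option, Finsupp.equivFunOnFinite_symm_apply_apply, Option.elim]
      omega
    · have e1 : p.2.1 i * pr c p.1 (i, true) ≤ m := by
        rw [← p5]
        exact Finset.single_le_sum (f := fun j => p.2.1 j * pr c p.1 (j, true))
          (fun j _ => mul_nonneg (by have := p3 j; omega) (hw j)) (mem_univ i)
      have e2 := p4 i
      have e3 : p.2.2 i + pr c p.1 (i, true) * (p.2.1 i - 1) < m := by nlinarith
      have e4 : 0 ≤ pr c p.1 (i, true) * (p.2.1 i - 1) :=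
        mul_nonneg (hw i) (by have := p3 i; omega)
      simp only [f]
      omega
  · obtain ⟨m, -, hp⟩ := mem_biUnion.1 hp
    obtain ⟨m', -, hq⟩ := mem_biUnion.1 hq
    rw [Set.Finite.mem_toFinset] at hp hq
    obtain ⟨p1, p2, p3, p4, -⟩ := hp
    obtain ⟨q1, q2, q3, q4, -⟩ := hq
    simp only [Pi.zero_apply, add_zero] at p4 q4
    obtain ⟨l, h, t⟩ := p
    obtain ⟨l', h', t'⟩ := q
    simp only [f, Prod.mk.injEq, EmbeddingLike.apply_eq_iff_eq] at he p1 p2 p3 p4 q1 q2 q3 q4
    obtain rfl : l = l' := by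
      have e1 := hd _ (cast_mem_VO.2 (p1.sub q1)) fun x hx => by
        have e2 : (l x).toNat = (l' x).toNat := congrFun he.1 (some ⟨x, hx⟩)
        have := p2 x
        have := q2 x
        have e3 : (l - l') x = 0 := by simp only [Pi.sub_apply]; omega
        simp only [e3, Int.cast_zero]
      funext x
      have e2 : (((l - l') x : ℤ) : ℚ) = 0 := congrFun e1 x
      exact sub_eq_zero.1 (by exact_mod_cast e2)
    have key : ∀ i, h i = h' i ∧ t i = t' i := fun i => by
      have e : (t i + pr c l (i, true) * (h i - 1)).toNat =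
        (t' i + pr c l (i, true) * (h' i - 1)).toNat := congrFun he.2 i
      have a1 := p4 i
      have a2 := q4 i
      have a3 := p3 i
      have a4 := q3 i
      generalize pr c l (i, true) = w at e a1 a2
      have b1 : 0 ≤ w * (h i - 1) := mul_nonneg (by omega) (by omega)
      have b2 : 0 ≤ w * (h' i - 1) := mul_nonneg (by omega) (by omega)
      have e' : t i + w * (h i - 1) = t' i + w * (h' i - 1) := by omega
      have b3 : h i = h' i := by
        rcases lt_trichotomy (h i) (h' i) with b | b | b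
        · nlinarith
        · exact b
        · nlinarith
      rw [b3] at e'
      exact ⟨b3, by omega⟩
    rw [funext fun i => (key i).1, funext fun i => (key i).2]

end ZleAux

theorem pZle (hLat : SLat) : SZle := by
  intro H I _ _ _ α c d hok
  have hA := (hLat H I α c d hok).1
  refine ⟨hA.nonneg fun m => Nat.cast_nonneg _, fun hα => ?_⟩
  obtain ⟨F, h1, h2, h3⟩ := ZleAux.exists_free (c := c) hα
  obtain ⟨r, hr⟩ : ∃ r, d = r + Fintype.card I := ⟨d - Fintype.card I, by have := hok.2; omega⟩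
  have hF : #F ≤ r := by have := hok.2; omega
  set k := Fintype.card I
  have hlim : Tendsto (fun N : ℕ => (d : ℝ) ^ k * (1 + r / (N : ℝ)) ^ r) atTop
      (𝓝 ((d : ℝ) ^ k * (1 + 0) ^ r)) :=
    ((tendsto_const_nhds.add (tendsto_const_div_atTop_nhds_zero_nat (r : ℝ))).pow r).const_mul _
  rw [add_zero, one_pow, mul_one] at hlim
  refine le_of_tendsto_of_tendsto hA hlim (eventually_atTop.2 ⟨1, fun N hN => ?_⟩)
  have hN0 : (0 : ℝ) < N := by exact_mod_cast hN
  have e1 : ∑ m ∈ range (N + 1), cn α c 0 m ≤ (r + N).choose r * N ^ k := by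
    refine (ZleAux.count hok.1 h2 h3 N).trans (Nat.mul_le_mul_right _ ?_)
    rw [Nat.choose_symm_add]
    exact Nat.choose_le_choose _ (by omega)
  have e2 : ∑ m ∈ range (N + 1), (cn α c 0 m : ℝ) ≤ ((r + N).choose r : ℝ) * (N : ℝ) ^ k := by
    exact_mod_cast e1
  have e3 : ((r + N).choose r : ℝ) ≤ ((r + N : ℕ) : ℝ) ^ r / r.factorial :=
    Nat.choose_le_pow_div r (r + N)
  have e4 : (d.factorial : ℝ) ≤ r.factorial * (d : ℝ) ^ k := by
    have e5 := Nat.factorial_mul_descFactorial (n := d) (k := k) (by omega)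
    rw [show d - k = r by omega] at e5
    rw [← e5]
    exact_mod_cast Nat.mul_le_mul_left _ (Nat.descFactorial_le_pow d k)
  have hr0 : (0 : ℝ) < r.factorial := by exact_mod_cast r.factorial_pos
  change (d.factorial : ℝ) * (∑ m ∈ range (N + 1), (cn α c 0 m : ℝ)) / (N : ℝ) ^ d ≤
    (d : ℝ) ^ k * (1 + r / (N : ℝ)) ^ r
  calc _ ≤ (r.factorial * (d : ℝ) ^ k) * (((r + N : ℕ) : ℝ) ^ r / r.factorial * (N : ℝ) ^ k) /
        (N : ℝ) ^ d := by
        gcongr
        exact e2.trans (by gcongr)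
    _ = _ := by
        have e6 : (N : ℝ) ^ d = (N : ℝ) ^ r * (N : ℝ) ^ k := by rw [← pow_add, ← hr]
        have e7 : (1 + r / (N : ℝ)) = ((r + N : ℕ) : ℝ) / N := by
          push_cast; field_simp; ring
        rw [e6, e7, div_pow]
        field_simp

end Pool.Agent.STS.Cy
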