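import Pool.Agent.P.MP_bb7f8f_gt.Q2.Poly
import Pool.Agent.P.MP_bb7f8f_gt.Q2.LatH
import Pool.Agent.P.MP_bb7f8f_gt.Q2.Lat
import Pool.Agent.P.MP_bb7f8f_gt.Q2.Zle
import Pool.Agent.P.MP_bb7f8f_gt.Q2.Conv
import Pool.Agent.P.MP_bb7f8f_gt.Q2.Expl
import Pool.Agent.P.MP_bb7f8f_gt.Q2.XF
import Pool.Agent.P.MP_bb7f8f_gt.Q2.EmA
import Pool.Agent.P.MP_bb7f8f_gt.Q2.EmB
import Pool.Agent.P.MP_bb7f8f_gt.Q2.Em
import Pool.Agent.P.MP_bb7f8f_gt.Q2.Phi0
import Pool.Agent.P.MP_bb7f8f_gt.Q2.Phi1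
import Pool.Agent.P.MP_bb7f8f_gt.Q2.Gam1
import Pool.Agent.P.MP_bb7f8f_gt.Q2.Gam2
import Pool.Agent.P.MP_bb7f8f_gt.Q2.F12
import Pool.Agent.P.MP_bb7f8f_gt.Q2.Red
import Pool.Agent.P.MP_bb7f8f_gt.Q2.Par
import Pool.Agent.P.MP_bb7f8f_gt.Q2.Glue
import Pool.Agent.P.MP_bb7f8f_gt.Q2.Gdg
import Pool.Agent.P.MP_bb7f8f_gt.Q2.Dec
import Pool.Agent.P.MP_bb7f8f_gt.Q2.Uniq2
import Pool.Agent.P.MP_bb7f8f_gt.Q2.Rel
import Pool.Agent.P.MP_bb7f8f_gt.Q2.Id
import Pool.Agent.P.MP_bb7f8f_gt.Q2.Pos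
import Pool.Agent.P.MP_bb7f8f_gt.Q2.Stat
import Pool.Agent.P.MP_bb7f8f_gt.Q2.Fam
import Pool.Agent.P.MP_bb7f8f_gt.Q2.Split
import Pool.Agent.P.MP_bb7f8f_gt.Q2.Str
import Pool.Agent.P.MP_bb7f8f_gt.Q2.Cores
import Pool.Agent.P.MP_bb7f8f_gt.Q2.Mt
import Pool.Agent.P.MP_bb7f8f_gt.Q2.Bad
import Pool.Agent.P.MP_bb7f8f_gt.Q2.Sym
import Pool.Agent.P.MP_bb7f8f_gt.Q2.Rest
import Pool.Agent.P.MP_bb7f8f_gt.Q2.Sy
import Pool.Agent.P.MP_bb7f8f_gt.Q2.MidS
import Pool.Agent.P.MP_bb7f8f_gt.Q2.Boot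
import Pool.Agent.P.MP_bb7f8f_gt.Q2.Cons
import Pool.Agent.P.MP_bb7f8f_gt.Q2.Real
import Pool.Agent.P.MP_bb7f8f_gt.Q2.Low
import Pool.Agent.P.MP_bb7f8f_gt.Q2.Corr2
import Pool.Agent.P.MP_bb7f8f_gt.Q2.Sand
import Pool.Agent.P.MP_bb7f8f_gt.Q2.Dat
import Pool.Agent.P.MP_bb7f8f_gt.Q2.Mass
import Pool.Agent.P.MP_bb7f8f_gt.Q2.Fin
import Pool.Agent.P.MP_bb7f8f_gt.Q2.Main

/-! All parts of the proof put together. -/

namespace Pool.Agent.STS.Cy

theorem allPoly : SPoly := pPoly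

theorem allLatH : SLatH := pLatH allPoly

theorem allLat : SLat := pLat allLatH

theorem allConv : SConv := pConv

theorem allExpl : SExpl := pExpl allConv

theorem allXF : SXF := pXF allLat allExpl

theorem allPhi0 : SPhi0 := pPhi0

theorem allEmA : SEmA := pEmA

theorem allEmB : SEmB := pEmB

theorem allEm : SEm := pEm allEmA allEmB

theorem allPhi1 : SPhi1 := pPhi1 allPhi0 allEm

theorem allPhi2 : SPhi2 := pPhi2

theorem allGam1 : SGam1 := pGam1

theorem allGam2 : SGam2 := pGam2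

theorem allF1 : SF1 := pF1 allXF allPhi0 allPhi1 allPhi2 allGam1 allGam2

theorem allF2 : SF2 := pF2 allXF allPhi2 allGam2

theorem allPar : SPar := pPar

theorem allRed : SRed := pRed

theorem allGlue : SGlue := pGlue

theorem allGdg : SGdg := pGdg

theorem allDec : SDec := pDec allLat allConv allRed allPar allGlue allGdg

theorem allUniq : SUniq := pUniq allGlue

theorem allRel : SRel := pRel

theorem allId : SId := pId allPar allDec allUniq allRel

theorem allZle : SZle := pZle allLat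

theorem allPos : SPos := pPos allZle allPar

theorem allCores : SCores := pCores

theorem allWW : SWW := pWW allZle

theorem allStat : SStat := pStat

theorem allFam : SFam := pFam

theorem allSplit : SSplit := pSplit allRed allGlue

theorem allStr : SStr := pStr allStat allFam allSplit

theorem allMt : SMt := pMt

theorem allBadA : SBadA := pBadA allMt

theorem allBadB : SBadB := pBadB allMt

theorem allRest : SRest := pRest allF2 allPos allStr allBadA allBadB

theorem allMid : SMid := pMid allF2 allPos allRed allCores allWW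

theorem allBoot : SBoot := pBoot allF1 allF2 allEm allId allPos allRed allCores allWW allRest allMid

theorem allSym : SSym := pSym

theorem allSy : SSy := pSy allF2 allPos allSym

theorem allReal : SReal := pReal

theorem allCons : SCons := pCons

theorem allLow : SLow := pLow allCons allReal

theorem allCorr : SCorr := pCorr

theorem allDat : SDat := pDat allLat

theorem allMass : SMass := pMass allReal allLow allCorr allDat

theorem allSand : SSand := pSand allCorr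

theorem allSum : SSum := pSum allCorr

theorem allFin : SFin := pFin

end Pool.Agent.STS.Cy
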