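import Pool.Agent.P.MP_bb7f8f_gt.Q2.Stmt

/-!
Basic facts used by all parts of the proof of the cylinder statistics.
-/

set_option linter.unusedSectionVars false

namespace Pool.Agent.STS.Cy
open Equiv Finset Filter Topology

/-! ### Asymptotic constants -/

theorem Asy.unique {a : ℕ → ℝ} {d : ℕ} {z z' : ℝ} (h : Asy a d z) (h' : Asy a d z') : z = z' :=
  tendsto_nhds_unique h h'

theorem asy_zero (d : ℕ) : Asy (fun _ => 0) d 0 := by
  simp [Asy]

theorem Asy.add {a b : ℕ → ℝ} {d : ℕ} {z z' : ℝ} (h : Asy a d z) (h' : Asy b d z') :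
    Asy (fun m => a m + b m) d (z + z') :=
  (Tendsto.add h h').congr fun N => by rw [Finset.sum_add_distrib]; ring

theorem Asy.const_mul {a : ℕ → ℝ} {d : ℕ} {z : ℝ} (h : Asy a d z) (r : ℝ) :
    Asy (fun m => r * a m) d (r * z) :=
  (Tendsto.const_mul r h).congr fun N => by rw [← Finset.mul_sum]; ring

theorem asy_sum {ι : Type*} (s : Finset ι) {a : ι → ℕ → ℝ} {d : ℕ} {z : ι → ℝ}
    (h : ∀ i ∈ s, Asy (a i) d (z i)) : Asy (fun m => ∑ i ∈ s, a i m) d (∑ i ∈ s, z i) := by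
  classical
  induction s using Finset.induction_on with
  | empty => simpa using asy_zero d
  | insert i s hi ih =>
    simp only [Finset.sum_insert hi]
    exact (h i (mem_insert_self _ _)).add (ih fun j hj => h j (mem_insert_of_mem hj))

theorem Asy.nonneg {a : ℕ → ℝ} {d : ℕ} {z : ℝ} (h : Asy a d z) (ha : ∀ m, 0 ≤ a m) : 0 ≤ z :=
  ge_of_tendsto' h fun N => by
    have := Finset.sum_nonneg fun m (_ : m ∈ range (N + 1)) => ha m
    positivity

theorem norm_egf_le (a : ℕ → ℝ) (n : ℕ) {t : ℂ} {ρ : ℝ} (ht : ‖t‖ ≤ ρ) :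
    ‖egf a n t‖ ≤ egr (fun k => |a k|) n ρ := by
  refine (norm_sum_le _ _).trans (Finset.sum_le_sum fun k _ => ?_)
  simp only [norm_div, norm_mul, norm_pow, Complex.norm_real, Real.norm_eq_abs,
    Complex.norm_ofNat, Complex.norm_natCast]
  gcongr

theorem norm_egf_le' {a : ℕ → ℝ} (ha : ∀ k, 0 ≤ a k) (n : ℕ) {t : ℂ} {ρ : ℝ} (ht : ‖t‖ ≤ ρ) :
    ‖egf a n t‖ ≤ egr a n ρ := by
  simpa only [abs_of_nonneg (ha _)] using norm_egf_le a n ht

theorem egr_mono {a b : ℕ → ℝ} (h : ∀ k, a k ≤ b k) (n : ℕ) {ρ : ℝ} (hρ : 0 ≤ ρ) :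
    egr a n ρ ≤ egr b n ρ :=
  Finset.sum_le_sum fun k _ => by have := h k; gcongr

theorem egr_nonneg {a : ℕ → ℝ} (h : ∀ k, 0 ≤ a k) (n : ℕ) {ρ : ℝ} (hρ : 0 ≤ ρ) :
    0 ≤ egr a n ρ :=
  Finset.sum_nonneg fun k _ => by have := h k; positivity

/-- powers of the binary logarithm are small -/
theorem log_small (c e : ℕ) : ∃ D₀ : ℕ, ∀ D ≥ D₀,
    c ≤ Nat.log 2 D ∧ c * Nat.log 2 D ^ e ≤ D := by
  have h := (tendsto_pow_const_div_const_pow_of_one_lt e (r := 2) (by norm_num)).eventually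
    (gt_mem_nhds (show (0 : ℝ) < 1 / (c + 1) by positivity))
  obtain ⟨l₀, hl⟩ := eventually_atTop.1 h
  refine ⟨2 ^ (l₀ + c), fun D hD => ?_⟩
  have h0 : D ≠ 0 := by have := Nat.two_pow_pos (l₀ + c); omega
  have h1 : l₀ + c ≤ Nat.log 2 D := (Nat.le_log_iff_pow_le (by norm_num) h0).2 hD
  refine ⟨by omega, le_trans ?_ (Nat.pow_log_le_self 2 h0)⟩
  have h2 := hl (Nat.log 2 D) (by omega)
  rw [div_lt_div_iff₀ (by positivity) (by positivity)] at h2
  have h3 : (c : ℝ) * (Nat.log 2 D : ℝ) ^ e ≤ 2 ^ Nat.log 2 D := by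
    have : (0 : ℝ) ≤ (Nat.log 2 D : ℝ) ^ e := by positivity
    nlinarith
  exact_mod_cast h3

/-! ### Balanced length functions -/

section
variable {H I : Type} [Fintype H] [Fintype I] [DecidableEq I] {α : Perm H}
  {c : H → Option (I × Bool)}

theorem pr_tot {R : Type} [AddCommMonoid R] (c : H → I × Bool) (l : H → R) (f : I × Bool) :
    pr (tot c) l f = ∑ x with c x = f, l x := by
  simp [pr, tot]

theorem pr_add {R : Type} [AddCommMonoid R] (l l' : H → R) (f : I × Bool) :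
    pr c (l + l') f = pr c l f + pr c l' f := by
  simp [pr, Finset.sum_add_distrib]

theorem pr_sub {R : Type} [AddCommGroup R] (l l' : H → R) (f : I × Bool) :
    pr c (l - l') f = pr c l f - pr c l' f := by
  simp [pr, Finset.sum_sub_distrib]

theorem pr_cast (l : H → ℤ) (f : I × Bool) :
    pr c (fun x => (l x : ℚ)) f = ((pr c l f : ℤ) : ℚ) := by
  simp [pr]

theorem Sol.sub {δ : I × Bool → ℤ} {l l' : H → ℤ} (h : Sol α c δ l) (h' : Sol α c δ l') :
    Sol α c 0 (l - l') :=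
  ⟨fun x => by simp [h.1 x, h'.1 x], fun i => by
    have h1 := h.2 i
    have h2 := h'.2 i
    simp only [pr_sub, Pi.zero_apply]
    linarith⟩

theorem Sol.add {δ : I × Bool → ℤ} {l l' : H → ℤ} (h : Sol α c δ l) (h' : Sol α c 0 l') :
    Sol α c δ (l + l') :=
  ⟨fun x => by simp [h.1 x, h'.1 x], fun i => by
    have h1 := h.2 i
    have h2 := h'.2 i
    simp only [pr_add, Pi.zero_apply] at h2 ⊢
    linarith⟩

theorem sol_zero : Sol α c 0 0 := ⟨fun _ => rfl, fun i => by simp [pr]⟩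

theorem good_zero : Good α c 0 := ⟨0, sol_zero, fun _ _ => le_rfl⟩

theorem Sol.eq_of_static {δ : I × Bool → ℤ} {l l' : H → ℤ} (h : Sol α c δ l) (h' : Sol α c δ l')
    {x : H} (hx : Static α c x) : l x = l' x :=
  sub_eq_zero.1 (hx _ (h.sub h'))

theorem cast_mem_VO {l : H → ℤ} : (fun x => (l x : ℚ)) ∈ VO α c ↔ Sol α c 0 l := by
  change ((∀ x, _) ∧ ∀ i, _) ↔ _
  simp only [pr_cast, Int.cast_inj, Sol, Pi.zero_apply, add_zero]

theorem exists_int_mul {l : H → ℚ} (hl : l ∈ VO α c) :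
    ∃ (n : ℤ) (l' : H → ℤ), 0 < n ∧ Sol α c 0 l' ∧ ∀ x, (l' x : ℚ) = n * l x := by
  classical
  refine ⟨∏ x, ((l x).den : ℤ), fun x => (l x).num * ∏ y ∈ univ.erase x, ((l y).den : ℤ),
    Finset.prod_pos fun x _ => by exact_mod_cast (l x).den_pos, ?_⟩
  have key : ∀ x, (((l x).num * ∏ y ∈ univ.erase x, ((l y).den : ℤ) : ℤ) : ℚ) =
      (∏ x, ((l x).den : ℤ) : ℤ) * l x := fun x => by
    rw [← Finset.mul_prod_erase univ _ (mem_univ x)]
    push_cast
    have := Rat.mul_den_eq_num (l x)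
    rw [← this]; ring
  refine ⟨cast_mem_VO.1 ?_, key⟩
  have := (VO α c).smul_mem (((∏ x, ((l x).den : ℤ) : ℤ) : ℚ)) hl
  rw [show (fun x => (((l x).num * ∏ y ∈ univ.erase x, ((l y).den : ℤ) : ℤ) : ℚ)) =
    (((∏ x, ((l x).den : ℤ) : ℤ) : ℚ)) • l from funext key]
  exact this

theorem static_iff {x : H} : Static α c x ↔ ∀ l ∈ VO α c, l x = 0 := by
  constructor
  · intro h l hl
    obtain ⟨n, l', hn, h1, h2⟩ := exists_int_mul hl
    have := h2 x
    rw [h l' h1, Int.cast_zero] at this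
    exact (mul_eq_zero.1 this.symm).resolve_left (by exact_mod_cast hn.ne')
  · intro h l hl
    exact_mod_cast h _ (cast_mem_VO.2 hl)

theorem le_pr {l : H → ℤ} (hl : ∀ x, 0 ≤ l x) {x : H} {f : I × Bool} (hx : c x = some f) :
    l x ≤ pr c l f :=
  Finset.single_le_sum (f := l) (fun y _ => hl y) (by simpa using hx)

theorem pr_nonneg {l : H → ℤ} (hl : ∀ x, 0 ≤ l x) (f : I × Bool) : 0 ≤ pr c l f :=
  Finset.sum_nonneg fun y _ => hl y

theorem eo_nonneg (ε : H → Bool) (f : I × Bool) : 0 ≤ eo c ε f :=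
  pr_nonneg (fun _ => by positivity) f

theorem good_of_mem {δ : I × Bool → ℤ} {m : ℕ} {p : (H → ℤ) × (I → ℤ) × (I → ℤ)}
    (hp : p ∈ Cone α c δ m) : Good α c δ := ⟨p.1, hp.1, fun x _ => hp.2.1 x⟩

theorem cn_eq_zero {δ : I × Bool → ℤ} (h : ¬ Good α c δ) (m : ℕ) : cn α c δ m = 0 := by
  rw [cn, Set.eq_empty_of_forall_notMem fun p hp => h (good_of_mem hp), Set.ncard_empty]

/-- widths and heights are at most the area -/
theorem cone_le {δ : I × Bool → ℤ} {m : ℕ} {p : (H → ℤ) × (I → ℤ) × (I → ℤ)}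
    (hp : p ∈ Cone α c δ m) (i : I) :
    p.2.1 i ≤ m ∧ pr c p.1 (i, true) + δ (i, true) ≤ m := by
  obtain ⟨-, -, h3, h4, h5⟩ := hp
  have hw : ∀ j, 1 ≤ pr c p.1 (j, true) + δ (j, true) := fun j => by have := h4 j; omega
  have := Finset.single_le_sum (f := fun j => p.2.1 j * (pr c p.1 (j, true) + δ (j, true)))
    (fun j _ => mul_nonneg (by have := h3 j; omega) (by have := hw j; omega)) (mem_univ i)
  rw [h5] at this
  have a := h3 i
  have b := hw i
  constructor <;> nlinarith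

theorem cone_len_le {δ : I × Bool → ℤ} (hδ : ∀ f, 0 ≤ δ f) {m : ℕ}
    {p : (H → ℤ) × (I → ℤ) × (I → ℤ)} (hp : p ∈ Cone α c δ m) {x : H} (hx : c x ≠ none) :
    p.1 x ≤ m := by
  obtain ⟨⟨i, b⟩, hf⟩ := Option.ne_none_iff_exists'.1 hx
  have h1 := le_pr hp.2.1 hf
  have h2 := (cone_le hp i).2
  have h3 := hp.1.2 i
  have h4 := hδ (i, b)
  cases b <;> omega

theorem cone_finite (hs : ∀ x, c x = none → Static α c x) {δ : I × Bool → ℤ}
    (hδ : ∀ f, 0 ≤ δ f) (m : ℕ) : (Cone α c δ m).Finite := by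
  rcases (Cone α c δ m).eq_empty_or_nonempty with h | ⟨p₀, h₀⟩
  · rw [h]; exact Set.finite_empty
  refine ((Set.Finite.pi' (t := fun x => Set.Icc (0 : ℤ) (m + p₀.1 x)) fun _ =>
    Set.finite_Icc _ _).prod ((Set.Finite.pi' (t := fun _ : I => Set.Icc (0 : ℤ) m) fun _ =>
    Set.finite_Icc _ _).prod (Set.Finite.pi' (t := fun _ : I => Set.Icc (0 : ℤ) m) fun _ =>
    Set.finite_Icc _ _))).subset fun p hp => ⟨fun x => ⟨hp.2.1 x, ?_⟩, fun i => ⟨?_, ?_⟩,
      fun i => ⟨(hp.2.2.2.1 i).1, ?_⟩⟩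
  · by_cases hx : c x = none
    · rw [hp.1.eq_of_static h₀.1 (hs x hx)]; omega
    · have := cone_len_le hδ hp hx
      have := h₀.2.1 x
      omega
  · have := hp.2.2.1 i; omega
  · exact (cone_le hp i).1
  · have := (cone_le hp i).2
    have := (hp.2.2.2.1 i).2
    omega

theorem nu_le : nu α c ≤ 2 ^ Fintype.card H := by
  classical
  have := Set.ncard_le_ncard (Set.subset_univ {ε : H → Bool | Good α c (eo c ε)})
  rwa [Set.ncard_univ, Nat.card_eq_fintype_card, Fintype.card_fun, Fintype.card_bool] at this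

theorem sum_face (c : H → I × Bool) (y : I × Bool → ℚ) (hy : ∀ i, y (i, false) = - y (i, true))
    (l : H → ℚ) : ∑ x, y (c x) * l x =
      ∑ i, y (i, true) * (pr (tot c) l (i, true) - pr (tot c) l (i, false)) := by
  rw [← Finset.sum_fiberwise (s := univ) (g := c), Fintype.sum_prod_type]
  refine Finset.sum_congr rfl fun i _ => ?_
  rw [Fintype.sum_bool, pr_tot, pr_tot, mul_sub, Finset.mul_sum, Finset.mul_sum, sub_eq_add_neg,
    ← Finset.sum_neg_distrib]
  congr 1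
  · exact Finset.sum_congr rfl fun x hx => by rw [(Finset.mem_filter.1 hx).2]
  · exact Finset.sum_congr rfl fun x hx => by rw [(Finset.mem_filter.1 hx).2, hy]; ring

/-- a functional which vanishes on the balanced lengths comes from an antisymmetric weight -/
theorem dual_VO [DecidableEq H] (hα : IsMt α) (c : H → I × Bool) (g : H → ℚ)
    (hg : ∀ l ∈ VO α (tot c), ∑ x, g x * l x = 0) : ∃ y : I × Bool → ℚ,
    (∀ i, y (i, false) = - y (i, true)) ∧ ∀ x, y (c x) + y (c (α x)) = g x + g (α x) := by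
  let φ : I → Base.Inv α →ₗ[ℚ] ℚ := fun i =>
    { toFun := fun l => pr (tot c) l.1 (i, true) - pr (tot c) l.1 (i, false)
      map_add' := fun a b => by simp only [Submodule.coe_add, pr_add]; ring
      map_smul' := fun r a => by
        simp only [pr, Submodule.coe_smul, Pi.smul_apply, smul_eq_mul, RingHom.id_apply,
          ← Finset.mul_sum]
        ring }
  let K : Base.Inv α →ₗ[ℚ] ℚ :=
    { toFun := fun l => ∑ x, g x * l.1 x
      map_add' := fun a b => by simp [mul_add, Finset.sum_add_distrib]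
      map_smul' := fun r a => by simp [Finset.mul_sum, mul_left_comm] }
  have h1 : K ∈ Submodule.span ℚ (Set.range φ) := mem_span_of_iInf_ker_le_ker fun l hl =>
    hg l.1 ⟨l.2, fun i => sub_eq_zero.1 ((Submodule.mem_iInf _).1 hl i)⟩
  obtain ⟨a, ha⟩ := (Submodule.mem_span_range_iff_exists_fun ℚ).1 h1
  refine ⟨fun f => if f.2 then a f.1 else - a f.1, fun i => by simp, fun x => ?_⟩
  let e : Base.Inv α := ⟨Pi.single x 1 + Pi.single (α x) 1, fun z => by
    have e1 : α z = x ↔ z = α x :=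
      ⟨fun h => by rw [← h, (hα z).1], fun h => by rw [h, (hα x).1]⟩
    simp only [Pi.add_apply, Pi.single_apply, e1, α.injective.eq_iff]
    ring⟩
  have h2 := sum_face c (fun f => if f.2 then a f.1 else - a f.1) (fun i => by simp) e.1
  have h3 : ∑ i, a i * (pr (tot c) e.1 (i, true) - pr (tot c) e.1 (i, false)) =
      ∑ z, g z * e.1 z := by
    have := LinearMap.congr_fun ha e
    rw [LinearMap.sum_apply] at this
    exact this
  simp only [if_true] at h2
  rw [h3] at h2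
  simpa [e, mul_add, Finset.sum_add_distrib, Pi.single_apply] using h2

end

theorem vo_eq_vsp {H : Type} [Fintype H] {k : ℕ} (α : Perm H) (c : H → Fin k × Bool) :
    VO α (tot c) = Vsp α c := by
  ext l
  change ((∀ x, _) ∧ ∀ i, _) ↔ ((∀ x, _) ∧ ∀ i, _)
  simp only [pr_tot]

section
variable {H J I : Type} [Fintype H] [DecidableEq H] [Fintype J] [DecidableEq J]
  [Fintype I] [DecidableEq I] {σ : Perm H} {π : H → J} {v : J → ℕ} {D M : ℕ}

theorem IsDg.step {p : Dg H I} (hp : IsDg σ p) (x : H) : p.2 (σ (p.1 x)) = p.2 x :=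
  Base.lab_step hp.2 x

theorem IsDg.sigma {p : Dg H I} (hp : IsDg σ p) (x : H) : p.2 (σ x) = p.2 (p.1 x) := by
  rw [← hp.step (p.1 x), (hp.1 x).1]

theorem conn_iff (p : Dg H I) : Conn p ↔ ∀ x y, Relation.EqvGen (Rel p) x y := Iff.rfl

theorem dg_dim (hc : Cyc σ π v) (hD : Fintype.card H = 2 * D) {p : Dg H I} (hp : IsDg σ p) :
    Module.finrank ℚ (VO p.1 (tot p.2)) + Fintype.card I = D := by
  obtain ⟨α, c⟩ := p
  let e := (Fintype.equivFin I).prodCongr (Equiv.refl Bool)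
  have hl : IsLab σ α (e ∘ c) := ⟨fun x y => by
    rw [← hp.2.1, Function.comp_apply, Function.comp_apply, e.injective.eq_iff],
    e.surjective.comp hp.2.2⟩
  suffices h : VO α (tot c) = Vsp α (e ∘ c) by
    change Module.finrank ℚ (VO α (tot c)) + _ = _
    rw [h]; exact vsp_dim hc hD hl hp.1
  ext l
  change ((∀ x, _) ∧ ∀ i, _) ↔ ((∀ x, _) ∧ ∀ i, _)
  refine and_congr Iff.rfl ((Fintype.equivFin I).forall_congr fun i => ?_)
  have : ∀ b x, (e ∘ c) x = (Fintype.equivFin I i, b) ↔ c x = (i, b) := fun b x =>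
    e.injective.eq_iff (a := c x) (b := (i, b))
  simp only [pr_tot, this]

theorem dg_ok (hc : Cyc σ π v) (hD : Fintype.card H = 2 * D) {p : Dg H I} (hp : IsDg σ p) :
    Ok p.1 (tot p.2) D := ⟨fun _ h => by simp [tot] at h, (dg_dim hc hD hp).le⟩

/-- no width vanishes identically -/
theorem dg_w (hc : Cyc σ π v) {p : Dg H I} (hp : IsDg σ p) (i : I) (b : Bool) :
    ∃ l ∈ VO p.1 (tot p.2), pr (tot p.2) l (i, b) ≠ 0 := by
  by_contra h
  push Not at h
  obtain ⟨y, hy, h1⟩ := dual_VO hp.1 p.2 (fun x => if p.2 x = (i, b) then 1 else 0) fun l hl => by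
    refine Eq.trans ?_ (h l hl)
    rw [pr_tot, Finset.sum_filter]
    exact Finset.sum_congr rfl fun x _ => by split_ifs <;> simp
  have h2 := rank_full hc hp.2 hp.1 (fun f => y f - if f = (i, b) then 1 else 0) fun x => by
    have := h1 x; linarith
  have h3 := congrFun h2 (i, true)
  have h4 := congrFun h2 (i, false)
  have h5 := hy i
  cases b <;> simp at h3 h4 <;> linarith

/-- every face contains a point which is not static -/
theorem dg_face (hc : Cyc σ π v) {p : Dg H I} (hp : IsDg σ p) (f : I × Bool) :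
    ∃ x, p.2 x = f ∧ ¬ Static p.1 (tot p.2) x := by
  obtain ⟨l, hl, h⟩ := dg_w hc hp f.1 f.2
  rw [pr_tot] at h
  obtain ⟨x, hx, h1⟩ := Finset.exists_ne_zero_of_sum_ne_zero h
  exact ⟨x, (mem_filter.1 hx).2, fun hs => h1 (static_iff.1 hs l hl)⟩

theorem Vx.half (h : Vx σ π v D M) : Fintype.card H / 2 = D := by rw [h.card]; omega

theorem Vx.sum (h : Vx σ π v D M) : ∑ j, v j = 2 * D := by rw [← h.cyc.card_eq, h.card]

theorem Vx.mono (h : Vx σ π v D M) {M' : ℕ} (hM : M ≤ M') : Vx σ π v D M' :=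
  ⟨h.cyc, h.card, h.pole.trans hM⟩

end

end Pool.Agent.STS.Cy

namespace Pool.Agent.STS.QF
open MvPolynomial Finset Mor

variable {J : Type} [Fintype J] [DecidableEq J]

theorem decomp_gam (v : J → ℕ) (hv : ∀ j, Odd (v j)) (D : ℕ) (hD : ∑ j, v j = 2 * D) (h1 : 1 ≤ D) :
    ∀ γ : Finset ℕ → ℚ, γ = gam ((univ : Finset J).toList.map v) →
      (∀ (R : Type) [AddCommGroup R] [Module ℚ R] (W W' : Gm →ₗ[ℚ] R),
        (∀ ν : List ℕ, (∀ e ∈ ν, 1 ≤ e) → W (Q (ν.map fun e : ℕ => (e : ℤ))) =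
          (ν.map mu).prod • W' (Q (ν.map fun e : ℕ => ((e / 2 : ℕ) : ℤ)))) →
        W (∏ j, X (v j)) = ∑ A ∈ SP D, γ A • W' (Q (sl A))) ∧
      (∀ A ∈ SP D, ∀ u : ℕ → ℝ, (∀ R, 1 ≤ R → 0 < u R) →
        |(γ A : ℝ)| ≤ kap univ v A u * DF A / 2 ^ D) ∧
      (γ {D} : ℝ) = DF {D} / 2 ^ (D + 1) := by
  rintro γ rfl
  set V : List ℕ := (univ : Finset J).toList.map v with hV
  have V1 : ∀ k ∈ V, Odd k := fun k hk => by
    obtain ⟨j, _, rfl⟩ := List.mem_map.1 hk
    exact hv j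
  have V2 : V.sum = 2 * D := by rw [hV, sum_map_toList, hD]
  refine ⟨fun R _ _ W W' hW => ?_, fun A hA u hu => ?_, ?_⟩
  · let Ψ : (List ℕ → ℚ) →ₗ[ℚ] R :=
      ∑ A ∈ SP D, (∑ l ∈ ords A, (sg l * ((l.map fun R => 2 * R).map mu).prod) •
        (LinearMap.proj (l.map fun R => 2 * R) : (List ℕ → ℚ) →ₗ[ℚ] ℚ)).smulRight (W' (Q (sl A)))
    have hΨ : ∀ g : List ℕ → ℚ, Ψ g = ∑ A ∈ SP D, (∑ l ∈ ords A,
        sg l * ((l.map fun R => 2 * R).map mu).prod * g (l.map fun R => 2 * R)) •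
          W' (Q (sl A)) := fun g => by
      simp only [Ψ, LinearMap.sum_apply, LinearMap.smulRight_apply, LinearMap.smul_apply,
        LinearMap.proj_apply, smul_eq_mul]
    have e1 : (∏ j, X (v j) : Gm) = (V.map X).prod := by
      rw [hV, List.map_map, prod_map_toList]; rfl
    rw [e1, prod_X V V1, map_cof, cof_congr V (fun k hk => (V1 k hk).pos) _
      (fun ν' => Ψ fun x => if ν' = x then 1 else 0) (fun ν h2 h3 => by
        rw [hΨ, ← group W' D ν h2 (h3.trans V2)]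
        exact hW ν h2), ← map_cof, hΨ]
    simp only [gam, cf_eq]
  · simp only [SP, mem_filter, mem_powerset] at hA
    have hA1 : ∀ R ∈ A, 1 ≤ R := fun R hR => (mem_Icc.1 (hA.1 hR)).1
    have hne : A.Nonempty := by
      rw [nonempty_iff_ne_empty]
      rintro rfl
      simp at hA
      omega
    have hDF : 0 ≤ DF A / 2 ^ D := by
      unfold DF
      positivity
    rw [gam]
    push_cast
    refine (abs_sum_le_sum_abs _ _).trans ?_
    set B : ℝ := (∏ R ∈ A.erase (A.sup id), (2 * R : ℝ)) *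
      (∏ R ∈ A, (u R)⁻¹ ^ (2 * R)) * (V.map fun k => ∑ R ∈ A, u R ^ k).prod with hB
    have h2 : ∀ l ∈ ords A, |(sg l : ℝ) * ((((l.map fun R => 2 * R).map mu).prod : ℚ) : ℝ) *
        (cf V (l.map fun R => 2 * R) : ℝ)| ≤ DF A / 2 ^ D * B := fun l hl => by
      rw [abs_mul, abs_mul, abs_sg, one_mul, prod_mu l (mem_ords.1 hl).1, (mem_ords.1 hl).2, hA.2,
        abs_of_nonneg hDF]
      exact mul_le_mul_of_nonneg_left (cf_bound V A hA1 hne u hu l hl) hDF
    have h3 : 0 ≤ DF A / 2 ^ D * B :=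
      (abs_nonneg _).trans (h2 (A.sort (· ≥ ·)) (mem_ords.2 ⟨sort_nodup _ _, sort_toFinset _ _⟩))
    have h4 : (#(ords A) : ℝ) ≤ (#A).factorial := by exact_mod_cast card_ords A
    have h5 : (V.map fun k => ∑ R ∈ A, u R ^ k).prod = ∏ j, ∑ R ∈ A, u R ^ v j := by
      rw [hV, List.map_map, prod_map_toList]; rfl
    calc _ ≤ #(ords A) • (DF A / 2 ^ D * B) := sum_le_card_nsmul _ _ _ (by
            intro l hl
            have := h2 l hl
            push_cast at this
            exact this)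
      _ ≤ (#A).factorial * (DF A / 2 ^ D * B) := by
            rw [nsmul_eq_mul]; gcongr
      _ = _ := by rw [hB, h5, kap]; ring
  · have h2 : ords {D} = {[D]} := by
      ext l
      simp [ords, List.mem_permutations]
    have h3 : sg [D] = 1 := by
      rw [sg, if_pos]
      simp [sl, Qn]
    have h4 : cf V [2 * D] = 1 / 2 := by
      rw [cf, cof_short V _ fun ν hν => if_neg (by rintro rfl; simp at hν), if_neg, V2]
      · simp
      · intro h
        rw [h] at V2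
        simp at V2
        omega
    have h5 := prod_mu [D] (by simp)
    rw [gam, h2, sum_singleton, h3, one_mul]
    simp only [List.map_cons, List.map_nil, List.toFinset_cons, List.toFinset_nil, insert_empty_eq,
      sum_singleton] at h5 ⊢
    rw [h4, Rat.cast_mul, h5]
    push_cast
    ring

end Pool.Agent.STS.QF

namespace Pool.Agent.STS.Cy
open Equiv Finset Filter Topology

section
variable {H J I : Type} [Fintype H] [DecidableEq H] [Fintype J] [DecidableEq J]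
  [Fintype I] [DecidableEq I] {σ : Perm H} {π : H → J} {v : J → ℕ} {D M : ℕ}

theorem gm_kap (hv : ∀ j, Odd (v j)) (hD : ∑ j, v j = 2 * D) (h1 : 1 ≤ D) {A : Finset ℕ}
    (hA : A ∈ SP D) (u : ℕ → ℝ) (hu : ∀ R, 1 ≤ R → 0 < u R) :
    |gm v A| ≤ kap univ v A u * DF A / 2 ^ D :=
  (QF.decomp_gam v hv D hD h1 _ rfl).2.1 A hA u hu

theorem gm_single (hv : ∀ j, Odd (v j)) (hD : ∑ j, v j = 2 * D) (h1 : 1 ≤ D) :
    gm v {D} = DF {D} / 2 ^ (D + 1) :=
  (QF.decomp_gam v hv D hD h1 _ rfl).2.2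

/-- the exact formula for the smoothed count -/
theorem sm_formula (h : Vx σ π v D M) (h1 : 1 ≤ D) (b : I → ℕ) :
    (Sm σ b : ℝ) = 2 ^ D * ∑ A ∈ SP D, gm v A * ∑ κ ∈ OT I D,
      ((MvPolynomial.constantCoeff (QF.ddI κ (QF.Q (QF.sl A))) : ℚ) : ℝ) *
        ∏ i, yc (κ i) (b i) := by
  have hγ := (QF.decomp_gam v h.cyc.odd D h.sum h1 _ rfl).1
  have h := QF.gf σ D h.card _
    (fun S _ _ lam Cm a1 a2 => QF.core h.cyc _ _ hγ S lam Cm a1 a2) b
  rw [map_sum, MvPolynomial.coeff_sum, map_sum] at h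
  rw [Finset.sum_congr rfl fun A hA => by
    rw [map_smul, MvPolynomial.coeff_smul, QF.multilin _ _ D (sl_sum hA), map_smul, map_sum]] at h
  simp only [map_smul, smul_eq_mul, QF.GenFun.coeff_prod_xs] at h
  have h2 := congrArg (Rat.cast : ℚ → ℝ) h
  push_cast at h2
  exact h2

theorem phA_single (D k : ℕ) : PhA D {D} k = Ph D k (QF.q D) := by
  simp [PhA, QF.sl, QF.Q_single, QF.qz]

end

end Pool.Agent.STS.Cy
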