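import Pool.Agent.P.MP_bb7f8f_gt.Q2.Base

/-! The bootstrap for the weights of the primitive diagrams. -/

set_option linter.unusedSectionVars false

namespace Pool.Agent.STS.Cy
open Equiv Finset Filter Topology

namespace BootAux

def PP (e : ℝ) (M : ℕ) : Prop := ∃ (C : ℝ) (D₀ : ℕ), 0 ≤ C ∧ ∀ D ≥ D₀, ∀ (H J : Type) [Fintype H]
  [DecidableEq H] [Fintype J] [DecidableEq J] (σ : Perm H) (π : H → J) (v : J → ℕ),
  Vx σ π v D M → ∀ t : ℂ, ‖t‖ ≤ 2 →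
  ‖egf (TT σ) D t‖ ≤ C * DF {D} * ((D : ℝ) ^ (t.re / 2 - 1) + (D : ℝ) ^ e)

def QQ (e : ℝ) (M : ℕ) : Prop := ∃ (C : ℝ) (D₀ : ℕ), 0 ≤ C ∧ ∀ D ≥ D₀, ∀ (H J : Type) [Fintype H]
  [DecidableEq H] [Fintype J] [DecidableEq J] (σ : Perm H) (π : H → J) (v : J → ℕ),
  Vx σ π v D M → ∀ t : ℂ, ‖t‖ ≤ 2 →
  ‖egf (TT σ) D t - (DF {D} : ℝ) * ee D t‖ ≤
    C * DF {D} * ((D : ℝ) ^ (t.re / 2 - 2) + (D : ℝ) ^ (e - 1))

theorem re_bounds {t : ℂ} (ht : ‖t‖ ≤ 2) : -2 ≤ t.re ∧ t.re ≤ 2 :=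
  abs_le.1 ((Complex.abs_re_le_norm t).trans ht)

theorem shift {D s : ℕ} (hD : 1 ≤ D) (hs : 2 * s ≤ D) {x : ℝ} (h1 : -2 ≤ x) :
    ((D - s : ℕ) : ℝ) ^ x ≤ 4 * (D : ℝ) ^ x := by
  have hD' : (0 : ℝ) < D := by exact_mod_cast hD
  have h0 : 0 ≤ (D : ℝ) ^ x := by positivity
  rcases le_total 0 x with h | h
  · have := Real.rpow_le_rpow (x := ((D - s : ℕ) : ℝ)) (y := D) (by positivity)
      (by exact_mod_cast Nat.sub_le D s) h
    linarith
  · have h2 : (D : ℝ) / 2 ≤ ((D - s : ℕ) : ℝ) := by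
      have : D ≤ 2 * (D - s) := by omega
      have : (D : ℝ) ≤ 2 * ((D - s : ℕ) : ℝ) := by exact_mod_cast this
      linarith
    refine (Real.rpow_le_rpow_of_nonpos (by positivity) h2 h).trans ?_
    rw [Real.div_rpow hD'.le (by norm_num), div_le_iff₀ (by positivity)]
    have h3 : (2 : ℝ) ^ (-2 : ℝ) ≤ 2 ^ x := Real.rpow_le_rpow_of_exponent_le (by norm_num) h1
    have h4 : (2 : ℝ) ^ (-2 : ℝ) = 1 / 4 := by
      rw [Real.rpow_neg (by norm_num), Real.rpow_two]; norm_num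
    rw [h4] at h3
    nlinarith [mul_le_mul_of_nonneg_left h3 h0]

theorem two_pow {D : ℕ} (hD : 1 ≤ D) : (2 : ℝ) ^ (2 * D - 1) * 2 = 4 ^ D := by
  rw [← pow_succ, show 2 * D - 1 + 1 = 2 * D by omega, pow_mul]; norm_num

theorem inv_cube {D : ℕ} (hD : 1 ≤ D) {x : ℝ} (hx : -3 ≤ x) : 1 / (D : ℝ) ^ 3 ≤ (D : ℝ) ^ x := by
  rw [one_div, ← Real.rpow_natCast, ← Real.rpow_neg (by positivity)]
  exact Real.rpow_le_rpow_of_exponent_le (by exact_mod_cast hD) (by push_cast; linarith)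

theorem start (hF2 : SF2) (hPos : SPos) (M : ℕ) : PP 1 M := by
  obtain ⟨C, D₀, h⟩ := hF2 2 (by norm_num)
  refine ⟨2 * |C|, D₀ + M ^ 4 + 1, by positivity, fun D hD H J _ _ _ _ σ π v hV t ht => ?_⟩
  have h1 := h D (by omega) H J σ π v M hV (by omega)
  have h2 := fun k => (hPos H J σ π v D M hV k).1 fun _ => True
  have h3 : 2 ^ (2 * D - 1) * egr (TT σ) D 2 ≤ egr (XX σ) D 2 := by
    refine le_trans (le_of_eq ?_) (egr_mono (a := fun k => 2 ^ (2 * D - 1) * TT σ k)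
      (fun k => (h2 k).2.2.2.1) D (by norm_num))
    rw [egr, egr, Finset.mul_sum]
    exact Finset.sum_congr rfl fun k _ => by ring
  refine (norm_egf_le' (fun k => (h2 k).2.2.1) D ht).trans ?_
  have hDF := DF_pos {D}
  have e := two_pow (D := D) (by omega)
  have p : (0 : ℝ) < 2 ^ (2 * D - 1) := by positivity
  rw [show (2 : ℝ) / 2 = 1 by norm_num] at h1
  refine le_of_mul_le_mul_left (h3.trans (h1.trans ?_)) p
  have a1 : (0 : ℝ) ≤ (D : ℝ) ^ (t.re / 2 - 1) := by positivity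
  have a2 : (0 : ℝ) ≤ (D : ℝ) ^ (1 : ℝ) := by positivity
  calc _ ≤ |C| * 4 ^ D * DF {D} * ((D : ℝ) ^ (t.re / 2 - 1) + (D : ℝ) ^ (1 : ℝ)) := by
        gcongr
        · exact le_abs_self C
        · linarith
    _ = _ := by rw [← e]; ring

theorem next (hEm : SEm) {e : ℝ} {M : ℕ} (h : QQ e M) : PP (e - 1) M := by
  obtain ⟨C, D₀, hC, h⟩ := h
  obtain ⟨C', h'⟩ := hEm
  refine ⟨C + |C'|, D₀ + 1, by positivity, fun D hD H J _ _ _ _ σ π v hV t ht => ?_⟩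
  have hD' : (1 : ℝ) ≤ D := by exact_mod_cast (by omega : 1 ≤ D)
  have h1 := h D (by omega) H J σ π v hV t ht
  have h2 := (h' t ht).1 D
  have hDF := DF_pos {D}
  have r := re_bounds ht
  have a1 : ((D : ℝ) + 1) ^ (t.re / 2 - 1) ≤ (D : ℝ) ^ (t.re / 2 - 1) :=
    Real.rpow_le_rpow_of_nonpos (by linarith) (by linarith) (by linarith)
  have a2 : (D : ℝ) ^ (t.re / 2 - 2) ≤ (D : ℝ) ^ (t.re / 2 - 1) :=
    Real.rpow_le_rpow_of_exponent_le hD' (by linarith)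
  have a3 : (0 : ℝ) ≤ (D : ℝ) ^ (e - 1) := by positivity
  have a4 : ‖ee D t‖ ≤ |C'| * ((D : ℝ) ^ (t.re / 2 - 1) + (D : ℝ) ^ (e - 1)) :=
    h2.trans (mul_le_mul (le_abs_self _) (by linarith) (by positivity) (abs_nonneg _))
  have a5 := norm_le_norm_sub_add (egf (TT σ) D t) ((DF {D} : ℝ) * ee D t)
  rw [norm_mul, Complex.norm_real, Real.norm_eq_abs, abs_of_pos hDF] at a5
  have a6 := mul_le_mul_of_nonneg_left a4 hDF.le
  have a7 := mul_le_mul_of_nonneg_left a2 (mul_nonneg hC hDF.le)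
  linarith

theorem small (hRed : SRed) (hCores : SCores) (hWW : SWW) {e : ℝ} (he : -2 ≤ e) {M : ℕ}
    (h : PP e (M + 48)) : ∃ (C : ℝ) (D₀ : ℕ), 0 ≤ C ∧ ∀ D ≥ D₀, ∀ (H J : Type) [Fintype H]
    [DecidableEq H] [Fintype J] [DecidableEq J] (σ : Perm H) (π : H → J) (v : J → ℕ),
    Vx σ π v D M → ∀ t : ℂ, ‖t‖ ≤ 2 → ∀ s ∈ Icc 1 24, ∑ Y ∈ Cores σ π s,
      ‖2 ^ (2 * (D - s) - 1) * egf (TT (red σ Y)) (D - s) t * egf (WW σ Y) s t‖ ≤
      C * 4 ^ D * DF {D} * ((D : ℝ) ^ (t.re / 2 - 2) + (D : ℝ) ^ (e - 1)) := by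
  obtain ⟨C, D₀, hC, h⟩ := h
  obtain ⟨W, hW0, hW⟩ : ∃ W : ℝ, 0 ≤ W ∧ ∀ s : ℕ, s ≤ 24 →
      (99 : ℝ) ^ (s - 1) * (4 ^ s * (2 * s + 1) ^ (6 * s)) ≤ W := by
    refine ⟨∑ s ∈ range 25, (99 : ℝ) ^ (s - 1) * (4 ^ s * (2 * s + 1) ^ (6 * s)),
      Finset.sum_nonneg fun s _ => by positivity, fun s hs => ?_⟩
    exact Finset.single_le_sum (f := fun s : ℕ => (99 : ℝ) ^ (s - 1) *
      (4 ^ s * (2 * s + 1) ^ (6 * s))) (fun s _ => by positivity) (mem_range.2 (by omega))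
  refine ⟨2 ^ M * W * (4 * C), D₀ + 48, by positivity,
    fun D hD H J _ _ _ _ σ π v hV t ht s hs => ?_⟩
  obtain ⟨hs1, hs2⟩ := mem_Icc.1 hs
  have hD' : (1 : ℝ) ≤ D := by exact_mod_cast (by omega : 1 ≤ D)
  have r := re_bounds ht
  have hDF := DF_pos {D}
  have hDF' := DF_pos {D - s}
  set B : ℝ := 4 ^ D * (C * DF {D - s} * (4 * (D : ℝ) ^ (t.re / 2 - 1) + 4 * (D : ℝ) ^ e)) *
    (4 ^ s * (2 * s + 1) ^ (6 * s)) with hB
  have h1 : ∀ Y ∈ Cores σ π s,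
      ‖2 ^ (2 * (D - s) - 1) * egf (TT (red σ Y)) (D - s) t * egf (WW σ Y) s t‖ ≤ B := by
    intro Y hY
    simp only [Cores, mem_filter, mem_univ, true_and] at hY
    obtain ⟨-, J', _, _, π', v', hV'⟩ := hRed H J σ π v D M hV Y s hY.1 hY.2
    have a1 := h (D - s) (by omega) _ J' _ π' v' (hV'.mono (by omega)) t ht
    obtain ⟨a2, a3⟩ := hWW H σ Y s hY.2
    have a4 := (norm_egf_le' a2 s ht).trans a3
    have a5 := shift (D := D) (s := s) (by omega) (by omega) (x := t.re / 2 - 1) (by linarith)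
    have a6 := shift (D := D) (s := s) (by omega) (by omega) he
    have a7 : (2 : ℝ) ^ (2 * (D - s) - 1) ≤ 4 ^ D := by
      rw [show (4 : ℝ) = 2 ^ 2 by norm_num, ← pow_mul]
      exact pow_le_pow_right₀ (by norm_num) (by omega)
    rw [norm_mul, norm_mul, norm_pow, Complex.norm_ofNat, hB]
    refine mul_le_mul (mul_le_mul a7 (a1.trans ?_) (norm_nonneg _) (by positivity)) a4
      (norm_nonneg _) (by positivity)
    gcongr
  refine (Finset.sum_le_card_nsmul _ _ _ h1).trans ?_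
  have h2 : (#(Cores σ π s) : ℝ) ≤ 2 ^ M * (99 ^ (s - 1) * (D : ℝ) ^ (s - 1)) := by
    have a1 := hCores H J σ π v D M hV s
    have a2 : (2 * D * (2 * s + 1) + 1) ^ (2 * s / 3) ≤ (99 * D) ^ (s - 1) :=
      (Nat.pow_le_pow_left (by nlinarith) _).trans
        (Nat.pow_le_pow_right (by omega) (by omega))
    have a3 := a1.trans (Nat.mul_le_mul_left _ a2)
    rw [← mul_pow]
    exact_mod_cast a3
  have h3 : DF {D - s} * (D : ℝ) ^ (s - 1) * D ≤ DF {D} := by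
    have := Est.DF_shift D s (by omega)
    rwa [show s = s - 1 + 1 by omega, pow_succ, ← mul_assoc, show s - 1 + 1 = s by omega] at this
  have e1 : (D : ℝ) ^ (t.re / 2 - 1) = (D : ℝ) ^ (t.re / 2 - 2) * D := by
    rw [← Real.rpow_add_one (by positivity)]; congr 1; ring
  have e2 : (D : ℝ) ^ e = (D : ℝ) ^ (e - 1) * D := by
    rw [← Real.rpow_add_one (by positivity)]; congr 1; ring
  rw [nsmul_eq_mul]
  calc _ ≤ 2 ^ M * (99 ^ (s - 1) * (D : ℝ) ^ (s - 1)) * B := by gcongr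
    _ = 2 ^ M * (99 ^ (s - 1) * (4 ^ s * (2 * s + 1) ^ (6 * s))) * (4 * C) * 4 ^ D *
        (DF {D - s} * (D : ℝ) ^ (s - 1) * D) *
        ((D : ℝ) ^ (t.re / 2 - 2) + (D : ℝ) ^ (e - 1)) := by rw [hB, e1, e2]; ring
    _ ≤ _ := by
        have := hW s hs2
        gcongr

theorem step (hF1 : SF1) (hId : SId) (hPos : SPos) (hRed : SRed) (hCores : SCores) (hWW : SWW)
    (hRest : SRest) (hMid : SMid) {e : ℝ} (he : -2 ≤ e) {M : ℕ} (h : PP e (M + 48)) :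
    QQ e M := by
  obtain ⟨C₁, D₁, hC₁, h1⟩ := small hRed hCores hWW he h
  obtain ⟨C₂, D₂, h2⟩ := hF1 M
  obtain ⟨D₃, h3⟩ := hRest M
  obtain ⟨D₄, h4⟩ := hMid M
  obtain ⟨D₅, h5⟩ := log_small 3 4
  refine ⟨2 * (|C₂| + 24 * C₁ + 2), D₁ + D₂ + D₃ + D₄ + D₅ + 1, by positivity,
    fun D hD H J _ _ _ _ σ π v hV t ht => ?_⟩
  obtain ⟨l1, l2⟩ := h5 D (by omega)
  set u := Nat.log 2 D ^ 4 with hu
  have hu1 : 24 ≤ u := le_trans (by norm_num) (Nat.pow_le_pow_left l1 4)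
  have a1 := h1 D (by omega) H J σ π v hV t ht
  have a2 := h2 D (by omega) H J σ π v hV t ht
  have a3 := h3 D (by omega) H J σ π v hV
  have a4 := h4 D (by omega) H J σ π v hV
  have a5 := hId H J σ π v D M hV u (by omega) t
  have hDF := DF_pos {D}
  have b3 : ‖egf (RR σ π u) D t‖ ≤ 4 ^ D * DF {D} / (D : ℝ) ^ 3 :=
    (norm_egf_le' (fun k => ((hPos H J σ π v D M hV k).1 _).1) D ht).trans a3
  set E : ℝ := (D : ℝ) ^ (t.re / 2 - 2) + (D : ℝ) ^ (e - 1) with hE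
  have b1 : ‖∑ s ∈ Icc 1 u, ∑ Y ∈ Cores σ π s,
      2 ^ (2 * (D - s) - 1) * egf (TT (red σ Y)) (D - s) t * egf (WW σ Y) s t‖ ≤
      24 * (C₁ * 4 ^ D * DF {D} * E) + 4 ^ D * DF {D} / (D : ℝ) ^ 3 := by
    refine (norm_sum_le _ _).trans ((Finset.sum_le_sum fun s _ => norm_sum_le _ _).trans ?_)
    have e1 : Icc 1 u = Icc 1 24 ∪ Ioc 24 u := by
      ext s; simp only [mem_Icc, mem_union, mem_Ioc]; omega
    rw [e1, Finset.sum_union (Finset.disjoint_left.2 fun s a b => by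
      rw [mem_Icc] at a; rw [mem_Ioc] at b; omega)]
    refine add_le_add ((Finset.sum_le_card_nsmul _ _ _ a1).trans (le_of_eq ?_))
      (le_trans (Finset.sum_le_sum fun s _ => Finset.sum_le_sum fun Y hY => ?_) a4)
    · simp
    · simp only [Cores, mem_filter, mem_univ, true_and] at hY
      obtain ⟨-, J', _, _, π', v', hV'⟩ := hRed H J σ π v D M hV Y s hY.1 hY.2
      have c1 := fun k => ((hPos _ J' _ π' v' _ _ hV' k).1 fun _ => True).2.2.1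
      rw [norm_mul, norm_mul, norm_pow, Complex.norm_ofNat]
      exact mul_le_mul (mul_le_mul_of_nonneg_left (norm_egf_le' c1 _ ht) (by positivity))
        (norm_egf_le' (hWW H σ Y s hY.2).1 s ht) (norm_nonneg _)
        (mul_nonneg (by positivity) (egr_nonneg c1 _ (by norm_num)))
  have e0 : (2 : ℂ) ^ (2 * D - 1) * (egf (TT σ) D t - (DF {D} : ℝ) * ee D t) =
      (egf (XX σ) D t - 2 ^ (2 * D - 1) * (DF {D} : ℝ) * ee D t) -
      (∑ s ∈ Icc 1 u, ∑ Y ∈ Cores σ π s,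
        2 ^ (2 * (D - s) - 1) * egf (TT (red σ Y)) (D - s) t * egf (WW σ Y) s t) -
      egf (RR σ π u) D t := by
    rw [a5]; ring
  have b4 := congrArg norm e0
  rw [norm_mul, norm_pow, Complex.norm_ofNat] at b4
  have b5 := (norm_sub_le _ _).trans (add_le_add ((norm_sub_le _ _).trans (add_le_add a2 b1)) b3)
  rw [← b4] at b5
  have p : (0 : ℝ) < 2 ^ (2 * D - 1) := by positivity
  refine le_of_mul_le_mul_left (b5.trans ?_) p
  have c1 : (0 : ℝ) ≤ (D : ℝ) ^ (t.re / 2 - 2) := by positivity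
  have c2 : (0 : ℝ) ≤ (D : ℝ) ^ (e - 1) := by positivity
  have c3 : 4 ^ D * DF {D} / (D : ℝ) ^ 3 ≤ 4 ^ D * DF {D} * E := by
    rw [div_eq_mul_one_div]
    have := inv_cube (D := D) (by omega) (x := e - 1) (by linarith)
    gcongr
    linarith
  have c4 : C₂ * 4 ^ D * DF {D} * (D : ℝ) ^ (t.re / 2 - 2) ≤ |C₂| * 4 ^ D * DF {D} * E := by
    gcongr
    · exact le_abs_self _
    · linarith
  calc _ ≤ (|C₂| + 24 * C₁ + 2) * (4 ^ D * DF {D} * E) := by linarith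
    _ = _ := by rw [← two_pow (D := D) (by omega)]; ring

end BootAux

open BootAux in
theorem pBoot (hF1 : SF1) (hF2 : SF2) (hEm : SEm) (hId : SId) (hPos : SPos) (hRed : SRed)
    (hCores : SCores) (hWW : SWW) (hRest : SRest) (hMid : SMid) : SBoot := by
  have st := fun {e : ℝ} (he : -2 ≤ e) {M : ℕ} (h : PP e (M + 48)) =>
    step hF1 hId hPos hRed hCores hWW hRest hMid he h
  intro M
  obtain ⟨C, D₀, hC, h⟩ := st (by norm_num) (next hEm (st (by norm_num) (next hEm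
    (st (by norm_num) (next hEm (st (by norm_num) (start hF2 hPos (M + 48 + 48 + 48 + 48))))))))
  obtain ⟨C', h'⟩ := hEm
  refine ⟨2 * C + C', D₀ + 2, fun D hD hev H J _ _ _ _ σ π v hV t ht => ?_⟩
  have h1 := h D (by omega) H J σ π v hV t ht
  have h2 := (h' t ht).2 D hev (by omega)
  have hDF := DF_pos {D}
  have r := re_bounds ht
  have a1 : (D : ℝ) ^ ((1 : ℝ) - 1 - 1 - 1 - 1) ≤ (D : ℝ) ^ (t.re / 2 - 2) :=
    Real.rpow_le_rpow_of_exponent_le (by exact_mod_cast (by omega : 1 ≤ D)) (by linarith)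
  have a2 := norm_sub_le_norm_sub_add_norm_sub (egf (TT σ) D t) ((DF {D} : ℝ) * ee D t)
    ((DF {D} : ℝ) * GG D t)
  rw [← mul_sub, norm_mul, Complex.norm_real, Real.norm_eq_abs, abs_of_pos hDF] at a2
  have a3 := mul_le_mul_of_nonneg_left h2 hDF.le
  have a4 := mul_le_mul_of_nonneg_left a1 (mul_nonneg hC hDF.le)
  linarith

end Pool.Agent.STS.Cy
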