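import Pool.Agent.P.MP_bb7f8f_gt.Defs

/-!
Horizontal cylinders and automorphisms of square-tiled surfaces: statement-level definitions.
-/

namespace Pool.Agent.STS
open Equiv

variable {N : ℕ}

/-- The starting vertex of the side `x` is joined to a singular vertex by a path of horizontal
sides: for a horizontal side `x` this says that `x` lies on a singular horizontal leaf. -/
def OnSing (γ : Perm (Side N)) (x : Side N) : Prop :=
  ∃ y, corners γ y ≠ 4 ∧
    Relation.EqvGen (fun a b => b = vert γ a ∨ ((a.2 = 1 ∨ a.2 = 3) ∧ b = γ a)) x y

/-- The number of maximal horizontal cylinders: classes of squares under crossing a vertical side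
or a horizontal side which is not on a singular leaf. -/
noncomputable def numCyl (γ : Perm (Side N)) : ℕ :=
  Nat.card (Quot fun s s' : Fin N =>
    ∃ x : Side N, x.1 = s ∧ (γ x).1 = s' ∧ (x.2 = 0 ∨ x.2 = 2 ∨ ¬ OnSing γ x))

/-- The surface has no automorphism but the identity. -/
def NoAut (γ : Perm (Side N)) : Prop := ∀ g, IsRelabel g → g * γ = γ * g → g = 1

end Pool.Agent.STS
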