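import Pool.Agent.P.MP_bb7f8f_gt.Q2.Defs
import Pool.Agent.P.MP_bb7f8f_gt.Final

/-!
Intermediate objects for the cylinder statistics and the interface statements of the proof.
-/

namespace Pool.Agent.STS.Cy
open Equiv Finset Filter Topology

/-! ### Asymptotic constants -/

/-- the partial sums of `a` are asymptotic to `z N ^ d / d!` -/
def Asy (a : ℕ → ℝ) (d : ℕ) (z : ℝ) : Prop :=
  Tendsto (fun N : ℕ => (d.factorial : ℝ) * (∑ m ∈ range (N + 1), a m) / (N : ℝ) ^ d) atTop (𝓝 z)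

/-- exponential generating polynomial with weights `t ^ k / (2 ^ k k!)` -/
noncomputable def egf (a : ℕ → ℝ) (n : ℕ) (t : ℂ) : ℂ :=
  ∑ k ∈ range (n + 1), (a k : ℂ) * t ^ k / (2 ^ k * k.factorial)

/-- the same at a real point -/
noncomputable def egr (a : ℕ → ℝ) (n : ℕ) (ρ : ℝ) : ℝ :=
  ∑ k ∈ range (n + 1), a k * ρ ^ k / (2 ^ k * k.factorial)

/-! ### Balanced length functions -/

section Lat
variable {H I : Type} [Fintype H] [Fintype I] [DecidableEq I]

/-- perimeter of the face `f` for a labelling with possibly unlabelled points -/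
def pr {R : Type} [AddCommMonoid R] (c : H → Option (I × Bool)) (l : H → R) (f : I × Bool) : R :=
  ∑ x with c x = some f, l x

/-- integral length functions which are balanced after adding the offsets `δ` -/
def Sol (α : Perm H) (c : H → Option (I × Bool)) (δ : I × Bool → ℤ) (l : H → ℤ) : Prop :=
  (∀ x, l (α x) = l x) ∧
    ∀ i, pr c l (i, true) + δ (i, true) = pr c l (i, false) + δ (i, false)

/-- all balanced length functions vanish at `x` -/
def Static (α : Perm H) (c : H → Option (I × Bool)) (x : H) : Prop :=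
  ∀ l, Sol α c 0 l → l x = 0

def Good (α : Perm H) (c : H → Option (I × Bool)) (δ : I × Bool → ℤ) : Prop :=
  ∃ a, Sol α c δ a ∧ ∀ x, Static α c x → 0 ≤ a x

/-- rational balanced length functions -/
def VO (α : Perm H) (c : H → Option (I × Bool)) : Submodule ℚ (H → ℚ) where
  carrier := {l | (∀ x, l (α x) = l x) ∧ ∀ i, pr c l (i, true) = pr c l (i, false)}
  add_mem' := fun {a b} ha hb => ⟨fun x => by simp [ha.1 x, hb.1 x], fun i => by
    have h1 := ha.2 i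
    have h2 := hb.2 i
    simp only [pr, Pi.add_apply, Finset.sum_add_distrib] at h1 h2 ⊢
    rw [h1, h2]⟩
  zero_mem' := ⟨fun x => rfl, fun i => by simp [pr]⟩
  smul_mem' := fun r a ha => ⟨fun x => by simp [ha.1 x], fun i => by
    have h1 := ha.2 i
    simp only [pr, Pi.smul_apply, smul_eq_mul, ← Finset.mul_sum] at h1 ⊢
    rw [h1]⟩

/-- lengths, heights and twists of total area `m` -/
def Cone (α : Perm H) (c : H → Option (I × Bool)) (δ : I × Bool → ℤ) (m : ℕ) :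
    Set ((H → ℤ) × (I → ℤ) × (I → ℤ)) :=
  {p | Sol α c δ p.1 ∧ (∀ x, 0 ≤ p.1 x) ∧ (∀ i, 1 ≤ p.2.1 i) ∧
    (∀ i, 0 ≤ p.2.2 i ∧ p.2.2 i < pr c p.1 (i, true) + δ (i, true)) ∧
    ∑ i, p.2.1 i * (pr c p.1 (i, true) + δ (i, true)) = m}

noncomputable def cn (α : Perm H) (c : H → Option (I × Bool)) (δ : I × Bool → ℤ) (m : ℕ) : ℕ :=
  (Cone α c δ m).ncard

/-- the asymptotic constant of a diagram -/
noncomputable def zz (α : Perm H) (c : H → Option (I × Bool)) (d : ℕ) : ℝ :=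
  limUnder atTop fun N : ℕ =>
    (d.factorial : ℝ) * (∑ m ∈ range (N + 1), (cn α c 0 m : ℝ)) / (N : ℝ) ^ d

/-- the offsets of a smoothing vector -/
def eo (c : H → Option (I × Bool)) (ε : H → Bool) : I × Bool → ℤ :=
  pr c fun x => ((ε x).toNat : ℤ)

/-- the number of admissible smoothing vectors -/
noncomputable def nu (α : Perm H) (c : H → Option (I × Bool)) : ℕ :=
  Set.ncard {ε : H → Bool | Good α c (eo c ε)}

/-- unlabelled points are static and the dimension is at most `d` -/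
def Ok (α : Perm H) (c : H → Option (I × Bool)) (d : ℕ) : Prop :=
  (∀ x, c x = none → Static α c x) ∧ Module.finrank ℚ (VO α c) + Fintype.card I ≤ d

/-! ### Diagrams -/

abbrev Dg (H I : Type) := Perm H × (H → I × Bool)

/-- a total labelling -/
def tot (c : H → I × Bool) : H → Option (I × Bool) := fun x => some (c x)

def IsDg (σ : Perm H) (p : Dg H I) : Prop := IsMt p.1 ∧ IsLab σ p.1 p.2

/-- the glued surface is connected -/
def Conn (p : Dg H I) : Prop :=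
  ∀ x y, Relation.EqvGen (fun a b => b = p.1 a ∨ (p.2 b).1 = (p.2 a).1) x y

/-- connected diagrams without static edges -/
def Prim (σ : Perm H) (p : Dg H I) : Prop :=
  IsDg σ p ∧ Conn p ∧ ∀ x, ¬ Static p.1 (tot p.2) x

variable [DecidableEq H]

open Classical in
/-- smoothed weight of the diagrams with property `P` -/
noncomputable def XP (σ : Perm H) (I : Type) [Fintype I] [DecidableEq I] (P : Dg H I → Prop) : ℝ :=
  ∑ p : Dg H I with IsDg σ p ∧ P p,
    (nu p.1 (tot p.2) : ℝ) * zz p.1 (tot p.2) (Fintype.card H / 2)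

open Classical in
/-- true weight of the connected diagrams with property `P` -/
noncomputable def TP (σ : Perm H) (I : Type) [Fintype I] [DecidableEq I] (P : Dg H I → Prop) : ℝ :=
  ∑ p : Dg H I with Prim σ p ∧ P p, zz p.1 (tot p.2) (Fintype.card H / 2)

noncomputable def XX (σ : Perm H) (k : ℕ) : ℝ := XP σ (Fin k) fun _ => True

noncomputable def TT (σ : Perm H) (k : ℕ) : ℝ := TP σ (Fin k) fun _ => True

/-! ### Cores -/

/-- the first point of `Y` on the forward orbit of `x` -/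
noncomputable def nxt (σ : Perm H) (Y : Finset H) (x : H) : H :=
  (σ ^ sInf {j : ℕ | (σ ^ j) x ∈ Y}) x

omit [DecidableEq H] in
theorem nxt_mem (σ : Perm H) (Y : Finset H) (x : H) (h : ∃ j : ℕ, (σ ^ j) x ∈ Y) :
    nxt σ Y x ∈ Y := Nat.sInf_mem (s := {j : ℕ | (σ ^ j) x ∈ Y}) h

theorem ret_mem (σ : Perm H) (Y : Finset H) (y : {x // x ∈ Y}) : ∃ j : ℕ, (σ ^ j) (σ y.1) ∈ Y := by
  refine ⟨orderOf σ - 1, ?_⟩
  have h : σ ^ (orderOf σ - 1) * σ = 1 := by
    rw [← pow_succ, Nat.sub_add_cancel (orderOf_pos σ), pow_orderOf_eq_one]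
  have h2 : (σ ^ (orderOf σ - 1)) (σ y.1) = y.1 := by
    rw [← Perm.mul_apply, h, Perm.one_apply]
  rw [h2]; exact y.2

theorem ret_inj (σ : Perm H) (Y : Finset H) : Function.Injective
    fun y : {x // x ∈ Y} => (⟨nxt σ Y (σ y.1), nxt_mem σ Y _ (ret_mem σ Y y)⟩ : {x // x ∈ Y}) := by
  have key : ∀ y y' : {x // x ∈ Y}, nxt σ Y (σ y.1) = nxt σ Y (σ y'.1) →
      sInf {j : ℕ | (σ ^ j) (σ y.1) ∈ Y} ≤ sInf {j : ℕ | (σ ^ j) (σ y'.1) ∈ Y} → y = y' := by
    intro y y' h hle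
    obtain ⟨e, he⟩ := Nat.exists_eq_add_of_le hle
    unfold nxt at h
    rw [he, pow_add, Perm.mul_apply] at h
    have h1 := (σ ^ sInf {j : ℕ | (σ ^ j) (σ y.1) ∈ Y}).injective h
    rcases e with _ | e
    · exact Subtype.ext (σ.injective (by simpa using h1))
    · exfalso
      rw [pow_succ', Perm.mul_apply] at h1
      have h2 : (σ ^ e) (σ y'.1) ∈ Y := by rw [← σ.injective h1]; exact y.2
      have h3 : sInf {j : ℕ | (σ ^ j) (σ y'.1) ∈ Y} ≤ e := Nat.sInf_le h2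
      omega
  intro y y' h
  have h' : nxt σ Y (σ y.1) = nxt σ Y (σ y'.1) := congrArg Subtype.val h
  rcases le_total (sInf {j : ℕ | (σ ^ j) (σ y.1) ∈ Y}) (sInf {j : ℕ | (σ ^ j) (σ y'.1) ∈ Y}) with
    h1 | h1
  · exact key y y' h' h1
  · exact (key y' y h'.symm h1).symm

/-- the first return map of `σ` to `Y` -/
noncomputable def red (σ : Perm H) (Y : Finset H) : Perm {x // x ∈ Y} :=
  Equiv.ofBijective _ (Finite.injective_iff_bijective.1 (ret_inj σ Y))

theorem red_apply (σ : Perm H) (Y : Finset H) (y : {x // x ∈ Y}) :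
    (red σ Y y).1 = nxt σ Y (σ y.1) := rfl

/-- the part of a diagram outside the core `Y` -/
structure Adm (σ : Perm H) (Y : Finset H) (α : Perm {x // x ∉ Y})
    (c : {x // x ∉ Y} → Option (I × Bool)) : Prop where
  mt : IsMt α
  inner : ∀ x, c x ≠ none → ∃ h : σ (α x).1 ∉ Y, c ⟨_, h⟩ = c x
  same : ∀ x y, c x ≠ none → c x = c y → (σ * Perm.ofSubtype α).SameCycle x.1 y.1
  surj : ∀ f, ∃ x, c x = some f
  outer : ∀ x, c x = none → (∃ n : ℕ, (σ ^ n) x.1 ∈ Y) ∧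
    ∃ j : ℕ, 0 < j ∧ σ (α x).1 = (σ ^ j) x.1 ∧ ∀ i < j, (σ ^ i) x.1 ∉ Y
  ok : Ok α c (Fintype.card {x // x ∉ Y} / 2)

open Classical in
/-- smoothed weight of the parts outside `Y` -/
noncomputable def WI (σ : Perm H) (Y : Finset H) (I : Type) [Fintype I] [DecidableEq I] : ℝ :=
  ∑ p : Perm {x // x ∉ Y} × ({x // x ∉ Y} → Option (I × Bool)) with Adm σ Y p.1 p.2,
    (nu p.1 p.2 : ℝ) * zz p.1 p.2 (Fintype.card {x // x ∉ Y} / 2)

noncomputable def WW (σ : Perm H) (Y : Finset H) (k : ℕ) : ℝ := WI σ Y (Fin k)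

/-- `p` is glued from `p₁` on `Y` with labels in `L` and from `(α₂, c₂)` outside -/
structure Glue (σ : Perm H) (Y : Finset H) (L : Finset I) (p : Dg H I)
    (p₁ : Dg {x // x ∈ Y} {i // i ∈ L}) (α₂ : Perm {x // x ∉ Y})
    (c₂ : {x // x ∉ Y} → Option ({i // i ∉ L} × Bool)) : Prop where
  a1 : ∀ x : {x // x ∈ Y}, p.1 x.1 = (p₁.1 x).1
  a2 : ∀ x : {x // x ∉ Y}, p.1 x.1 = (α₂ x).1
  c1 : ∀ x : {x // x ∈ Y}, p.2 x.1 = ((p₁.2 x).1.1, (p₁.2 x).2)
  c2 : ∀ (x : {x // x ∉ Y}) f, c₂ x = some f → p.2 x.1 = (f.1.1, f.2)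
  c3 : ∀ x : {x // x ∉ Y}, c₂ x = none → nxt σ Y x.1 ∈ Y ∧ p.2 x.1 = p.2 (nxt σ Y x.1)

def Splits (σ : Perm H) (Y : Finset H) (L : Finset I) (p : Dg H I) : Prop :=
  ∃ p₁ α₂ c₂, Prim (red σ Y) p₁ ∧ Adm σ Y α₂ c₂ ∧ Glue σ Y L p p₁ α₂ c₂

/-- the points `a, σ a, …, σ ^ m a` -/
def seg (σ : Perm H) (q : H × ℕ) : Finset H := (range (q.2 + 1)).image fun i => (σ ^ i) q.1

structure Shape {J : Type} [DecidableEq J] (σ : Perm H) (π : H → J) (Y : Finset H) : Prop where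
  even : Even #Y
  odd : ∀ j, (∃ x ∈ Y, π x = j) → Odd #{x ∈ Y | π x = j}
  cov : ∃ (P : Finset H) (O : Finset (H × ℕ)), (∀ x ∈ P, σ x = x) ∧ (∀ q ∈ O, q.2 ≤ #Yᶜ) ∧
    3 * #O ≤ #Yᶜ ∧ Yᶜ = P ∪ O.biUnion (seg σ)

open Classical in
/-- the cores whose complement has `2 s` points -/
noncomputable def Cores {J : Type} [DecidableEq J] (σ : Perm H) (π : H → J) (s : ℕ) :
    Finset (Finset H) := {Y | Shape σ π Y ∧ #Yᶜ = 2 * s}

/-- diagrams without a core of codimension at most `u` -/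
def RestP {J : Type} [DecidableEq J] (σ : Perm H) (π : H → J) (u : ℕ) (p : Dg H I) : Prop :=
  ¬ Prim σ p ∧ ¬ ∃ s ∈ Icc 1 u, ∃ Y ∈ Cores σ π s, ∃ L, Splits σ Y L p

noncomputable def RR {J : Type} [DecidableEq J] (σ : Perm H) (π : H → J) (u k : ℕ) : ℝ :=
  XP σ (Fin k) (RestP σ π u)

/-- a balanced invariant set of vertices -/
def BadA {J : Type} [DecidableEq J] (π : H → J) (u : ℕ) (α : Perm H) : Prop :=
  ∃ V : Finset J, (∀ x, π (α x) ∈ V ↔ π x ∈ V) ∧ u ≤ #{x | π x ∈ V} ∧ u ≤ #{x | π x ∉ V}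

/-- the points `σ ^ j a` with `0 < j < m`, `j ≡ b mod 2`, for `(a, m) ∈ O` -/
def alt (σ : Perm H) (O : Finset (H × ℕ)) (b : ℕ) : Finset H :=
  O.biUnion fun q => ((range q.2).filter fun j => 0 < j ∧ j % 2 = b).image fun j => (σ ^ j) q.1

/-- a large alternating part -/
def BadB (σ : Perm H) (K u : ℕ) (α : Perm H) : Prop :=
  ∃ O : Finset (H × ℕ), #O ≤ K ∧ (∀ q ∈ O, q.2 ≤ Fintype.card H) ∧
    Disjoint (alt σ O 1) (alt σ O 0) ∧ (∀ x ∈ alt σ O 1, α x ∈ alt σ O 0) ∧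
    (∀ x ∈ alt σ O 0, α x ∈ alt σ O 1) ∧ u ≤ 4 * #(alt σ O 1)

/-- diagrams with a symmetry fixing all balanced lengths -/
def SymP (σ : Perm H) (p : Dg H I) : Prop :=
  ∃ ψ : Perm H, ψ * σ = σ * ψ ∧ ψ * p.1 = p.1 * ψ ∧ (∀ x, ψ x ≠ x) ∧
    ∀ l ∈ VO p.1 (tot p.2), ∀ x, l (ψ x) = l x

noncomputable def SY (σ : Perm H) (k : ℕ) : ℝ := TP σ (Fin k) (SymP σ)

end Lat

/-- the number of cylinders of a framed surface -/
noncomputable def xcyl {H : Type} {N : ℕ} (T : Tri H N) : ℕ :=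
  Nat.card (Quot fun p q : XS N => q = io N p ∨ q = T.2.1 p ∨ (q = T.1 p ∧ ¬ Top T p))

/-! ### Explicit quantities -/

noncomputable def zt (n : ℕ) : ℝ := ∑' h : ℕ, 1 / ((h : ℝ) + 1) ^ n

noncomputable def bt (a b : ℕ) : ℝ :=
  2 ^ (a + b) * zt (a + b) * (a + b - 1).factorial / ((a - 1).factorial * (b - 1).factorial)

/-- heights and widths of total area `m` -/
def HWm (k m : ℕ) : Finset ((Fin k → ℕ) × (Fin k → ℕ)) :=
  ((Fintype.piFinset fun _ => Icc 1 m) ×ˢ (Fintype.piFinset fun _ => Icc 1 m)).filter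
    fun p => ∑ i, p.1 i * p.2 i = m

/-- coefficients of `((1 + y) / (1 - y)) ^ a` -/
noncomputable def yc (a w : ℕ) : ℝ := (PowerSeries.coeff w (QF.GenFun.y ^ a) : ℚ)

noncomputable def Ph (D k : ℕ) (f : QF.Gm) : ℝ :=
  ∑ κ ∈ OT (Fin k × Bool) D, (MvPolynomial.constantCoeff (QF.ddI κ f) : ℚ) *
    ∏ i, bt (κ (i, true)) (κ (i, false))

noncomputable def PhA (D : ℕ) (A : Finset ℕ) (k : ℕ) : ℝ := Ph D k (QF.Q (QF.sl A))

noncomputable def gm {J : Type} [Fintype J] (v : J → ℕ) (A : Finset ℕ) : ℝ :=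
  (QF.Mor.gam ((univ : Finset J).toList.map v) A : ℚ)

noncomputable def GZ : PowerSeries ℝ :=
  PowerSeries.mk fun j => if Even j ∧ 2 ≤ j then zt j / j else 0

/-- the coefficient of `X ^ n` in `exp (t GZ)` -/
noncomputable def ee (n : ℕ) (t : ℂ) : ℂ :=
  ∑ k ∈ range (n + 1), t ^ k / k.factorial * (PowerSeries.coeff n (GZ ^ k) : ℝ)

/-- the limit function -/
noncomputable def GG (D : ℕ) (t : ℂ) : ℂ := 2 * (D : ℂ) ^ (t / 2 - 1) / Complex.Gamma (t / 2)

/-- data of a vertex structure with `2 D` prongs and at most `M` poles -/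
structure Vx {H J : Type} [Fintype H] [Fintype J] [DecidableEq J] (σ : Perm H) (π : H → J)
    (v : J → ℕ) (D M : ℕ) : Prop where
  cyc : Cyc σ π v
  card : Fintype.card H = 2 * D
  pole : #{j | v j = 1} ≤ M

end Pool.Agent.STS.Cy
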