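import Pool.Agent.P.MP_bb7f8f_gt.Q2.Base

set_option linter.unusedSectionVars false

namespace Pool.Agent.STS.Cy.Phi1Aux
open Equiv Finset Filter Topology MvPolynomial QF

theorem pd_X_mul (u w : ℕ) (φ : Gm) :
    pderiv w (X u * φ) = X u * pderiv w φ + if u = w then φ else 0 := by
  rw [Derivation.leibniz]
  by_cases h : u = w
  · subst h; simp
  · simp [pderiv_X_of_ne h, h]

theorem pd_comm (u w : ℕ) (φ : Gm) : pderiv u (pderiv w φ) = pderiv w (pderiv u φ) := by
  induction φ using MvPolynomial.induction_on with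
  | C a => simp
  | add p q hp hq => simp [hp, hq]
  | mul_X p k hp =>
    simp only [Derivation.leibniz, smul_eq_mul, map_add, hp]
    by_cases h1 : k = u <;> by_cases h2 : k = w
    · subst h1; subst h2; rfl
    · subst h1; simp [pderiv_X_of_ne h2]; ring
    · subst h2; simp [pderiv_X_of_ne h1]; ring
    · simp [pderiv_X_of_ne h1, pderiv_X_of_ne h2]

/-- the odd numbers below `N` -/
def O (N : ℕ) : Finset ℕ := (range N).filter Odd

theorem mem_O {N a : ℕ} : a ∈ O N ↔ a < N ∧ Odd a := by simp [O]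

theorem bt_comm (a b : ℕ) : bt a b = bt b a := by
  simp only [bt, add_comm a b, mul_comm ((a - 1).factorial : ℝ)]

theorem zt_nonneg (n : ℕ) : 0 ≤ zt n := tsum_nonneg fun _ => by positivity

theorem bt_nonneg (a b : ℕ) : 0 ≤ bt a b := by
  have := zt_nonneg (a + b)
  unfold bt
  positivity

/-- recursive form of `Ph` -/
noncomputable def P (N : ℕ) : ℕ → ℤ → (Gm →ₗ[ℚ] ℂ)
  | 0, D => if D = 0 then Algebra.linearMap ℚ ℂ ∘ₗ lcoeff ℚ 0 else 0
  | k + 1, D => ∑ c ∈ O N, ∑ d ∈ O N, (bt c d : ℂ) •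
      (P N k (D - c - d) ∘ₗ (pderiv c).toLinearMap ∘ₗ (pderiv d).toLinearMap)

theorem P_zero (N : ℕ) (D : ℤ) (f : Gm) :
    P N 0 D f = if D = 0 then ((constantCoeff f : ℚ) : ℂ) else 0 := by
  rw [P]
  split_ifs
  · simp [constantCoeff_eq]
  · simp

theorem P_succ (N k : ℕ) (D : ℤ) (f : Gm) : P N (k + 1) D f =
    ∑ c ∈ O N, ∑ d ∈ O N, (bt c d : ℂ) * P N k (D - c - d) (pderiv c (pderiv d f)) := by
  rw [P]
  simp [LinearMap.sum_apply]

theorem P_lt (N : ℕ) : ∀ (k : ℕ) (D : ℤ) (f : Gm), D < 2 * k → P N k D f = 0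
  | 0, D, f, h => by rw [P_zero, if_neg (by omega)]
  | k + 1, D, f, h => by
    rw [P_succ]
    refine sum_eq_zero fun c hc => sum_eq_zero fun d hd => ?_
    have h1 := (mem_O.1 hc).2.pos
    have h2 := (mem_O.1 hd).2.pos
    rw [P_lt N k _ _ (by omega), mul_zero]

theorem P_qz (N : ℕ) : ∀ (k : ℕ) (D e : ℤ), D ≠ e → P N k D (qz e) = 0
  | 0, D, e, h => by
    rw [P_zero, Face.cc_qz]
    split_ifs with h1 h2
    · omega
    · simp
    · rfl
  | k + 1, D, e, h => by
    rw [P_succ]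
    refine sum_eq_zero fun c hc => sum_eq_zero fun d hd => ?_
    rw [pderiv_qz, if_pos (mem_O.1 hd).2, pderiv_C_mul, pderiv_qz, if_pos (mem_O.1 hc).2,
      C_mul', C_mul', map_smul, map_smul, P_qz N k _ _ (by omega)]
    simp

theorem stein_aux (N a k : ℕ) (D : ℤ) (f : Gm) : P N (k + 1) D (X a * f) =
    ∑ c ∈ O N, ∑ d ∈ O N, (bt c d : ℂ) * P N k (D - c - d) (X a * pderiv c (pderiv d f)) +
      if a ∈ O N then 2 * ∑ b ∈ O N, (bt a b : ℂ) * P N k (D - a - b) (pderiv b f) else 0 := by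
  have e : ∀ c d, (bt c d : ℂ) * P N k (D - c - d) (pderiv c (pderiv d (X a * f))) =
      (bt c d : ℂ) * P N k (D - c - d) (X a * pderiv c (pderiv d f)) +
      ((if a = c then (bt a d : ℂ) * P N k (D - a - d) (pderiv d f) else 0) +
      if a = d then (bt a c : ℂ) * P N k (D - a - c) (pderiv c f) else 0) := by
    intro c d
    rw [pd_X_mul, map_add, pd_X_mul, map_add, map_add, mul_add, mul_add, add_assoc]
    congr 2
    · split_ifs with h
      · subst h; rfl
      · simp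
    · split_ifs with h
      · subst h; rw [bt_comm, sub_right_comm]
      · simp
  rw [P_succ]
  simp only [e, sum_add_distrib]
  congr 1
  rw [sum_comm]
  simp only [sum_ite_eq]
  split_ifs
  · ring
  · simp

theorem P_zero_X (N a : ℕ) (D : ℤ) (f : Gm) : P N 0 D (X a * f) = 0 := by
  simp [P_zero]

/-- integration by parts -/
theorem stein (N a : ℕ) : ∀ (k : ℕ) (D : ℤ) (f : Gm), P N (k + 1) D (X a * f) =
    if a ∈ O N then 2 * (k + 1) * ∑ b ∈ O N, (bt a b : ℂ) * P N k (D - a - b) (pderiv b f)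
    else 0
  | 0, D, f => by
    rw [stein_aux]
    simp [P_zero_X]
  | k + 1, D, f => by
    rw [stein_aux]
    simp only [stein N a k]
    split_ifs
    · have e : ∑ c ∈ O N, ∑ d ∈ O N, (bt c d : ℂ) * (2 * (k + 1) * ∑ b ∈ O N, (bt a b : ℂ) *
          P N k (D - c - d - a - b) (pderiv b (pderiv c (pderiv d f)))) =
          2 * (k + 1) * ∑ b ∈ O N, (bt a b : ℂ) * P N (k + 1) (D - a - b) (pderiv b f) := by
        simp only [P_succ, mul_sum]
        rw [sum_comm (s := O N) (t := O N) (f := fun b c => ∑ d ∈ O N, 2 * ((k : ℂ) + 1) *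
          ((bt a b : ℂ) * ((bt c d : ℂ) *
            P N k (D - a - b - c - d) (pderiv c (pderiv d (pderiv b f))))))]
        refine sum_congr rfl fun c _ => ?_
        rw [sum_comm]
        refine sum_congr rfl fun b _ => sum_congr rfl fun d _ => ?_
        rw [pd_comm b c, pd_comm b d, show D - c - d - a - b = D - a - b - c - d by ring]
        ring
      rw [e]
      push_cast
      ring
    · simp

theorem ddI_succ {k : ℕ} (κ : Fin (k + 1) × Bool → ℕ) (f : Gm) :
    ddI κ f = ddI (fun p : Fin k × Bool => κ (p.1.succ, p.2))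
      (pderiv (κ (0, true)) (pderiv (κ (0, false)) f)) := by
  have hp : (univ : Finset (Fin (k + 1) × Bool)).toList.Perm
      ((univ : Finset (Fin k × Bool)).toList.map (fun p => (p.1.succ, p.2)) ++
        [(0, true), (0, false)]) := by
    refine (List.perm_ext_iff_of_nodup (nodup_toList _) ?_).2 ?_
    · refine List.Nodup.append ((nodup_toList _).map fun p p' h => ?_) (by simp) ?_
      · simp only [Prod.mk.injEq, Fin.succ_inj] at h
        exact Prod.ext h.1 h.2
      · intro x h1 h2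
        obtain ⟨p, _, rfl⟩ := List.mem_map.1 h1
        simp at h2
    · rintro ⟨i, b⟩
      refine Fin.cases ?_ (fun j => ?_) i
      · cases b <;> simp
      · simp
  have : LeftCommutative (fun (k : ℕ) (g : Gm) => pderiv k g) := ⟨fun a b g => pd_comm a b g⟩
  rw [ddI, (hp.map κ).foldr_eq, List.map_append, List.foldr_append, List.map_map]
  rfl

theorem sum_succ {k : ℕ} (s : Finset ℕ) (F : (Fin (k + 1) × Bool → ℕ) → ℂ) :
    ∑ κ ∈ Fintype.piFinset (fun _ => s), F κ = ∑ c ∈ s, ∑ d ∈ s,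
      ∑ κ ∈ Fintype.piFinset (fun _ : Fin k × Bool => s),
        F fun p => Fin.cases (if p.2 then c else d) (fun j => κ (j, p.2)) p.1 := by
  rw [← sum_product', ← sum_product']
  refine sum_nbij' (fun κ => ((κ (0, true), κ (0, false)), fun p => κ (p.1.succ, p.2)))
    (fun x p => Fin.cases (if p.2 then x.1.1 else x.1.2) (fun j => x.2 (j, p.2)) p.1)
    ?_ ?_ ?_ ?_ ?_
  · intro κ hκ
    simp only [Fintype.mem_piFinset, mem_product] at hκ ⊢
    exact ⟨⟨hκ _, hκ _⟩, fun _ => hκ _⟩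
  · intro x hx
    simp only [Fintype.mem_piFinset, mem_product] at hx ⊢
    rintro ⟨i, b⟩
    refine Fin.cases ?_ (fun j => ?_) i
    · cases b
      · exact hx.1.2
      · exact hx.1.1
    · exact hx.2 _
  · intro κ _
    funext ⟨i, b⟩
    refine Fin.cases ?_ (fun j => ?_) i
    · cases b <;> rfl
    · rfl
  · intro x _
    rfl
  · intro κ _
    congr 1
    funext ⟨i, b⟩
    refine Fin.cases ?_ (fun j => ?_) i
    · cases b <;> rfl
    · rfl

theorem P_eq (N : ℕ) : ∀ (k : ℕ) (D : ℤ) (f : Gm), P N k D f =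
    ∑ κ ∈ Fintype.piFinset (fun _ : Fin k × Bool => O N), if ((∑ a, κ a : ℕ) : ℤ) = D then
      ((constantCoeff (ddI κ f) : ℚ) : ℂ) * ∏ i, (bt (κ (i, true)) (κ (i, false)) : ℂ) else 0
  | 0, D, f => by
    rw [P_zero, Fintype.piFinset_of_isEmpty]
    simp [ddI, eq_comm]
  | k + 1, D, f => by
    rw [P_succ, sum_succ]
    refine sum_congr rfl fun c _ => sum_congr rfl fun d _ => ?_
    rw [P_eq N k, mul_sum]
    refine sum_congr rfl fun κ _ => ?_
    rw [ddI_succ, Fin.prod_univ_succ, Fintype.sum_prod_type, Fintype.sum_prod_type,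
      Fin.sum_univ_succ]
    simp only [Fin.cases_zero, Fin.cases_succ, Fintype.sum_bool, if_true, Bool.false_eq_true,
      if_false]
    split_ifs with h1 h2 h2
    · ring
    · exact absurd (by push_cast at h1 ⊢; omega) h2
    · exact absurd (by push_cast at h2 ⊢; omega) h1
    · simp

theorem Ph_eq {N D : ℕ} (h : D < N) (k : ℕ) (f : Gm) : (Ph D k f : ℂ) = P N k D f := by
  rw [P_eq, ← sum_filter, Ph]
  push_cast
  refine sum_congr ?_ fun _ _ => rfl
  ext κ
  simp only [OT, mem_filter, Fintype.mem_piFinset, mem_range, mem_O]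
  constructor
  · rintro ⟨h1, h2, h3⟩
    exact ⟨fun a => ⟨by have := h1 a; omega, h2 a⟩, by exact_mod_cast h3⟩
  · rintro ⟨h1, h2⟩
    have h3 : ∑ a, κ a = D := by exact_mod_cast h2
    refine ⟨fun a => ?_, fun a => (h1 a).2, h3⟩
    have := single_le_sum (f := κ) (fun _ _ => Nat.zero_le _) (mem_univ a)
    omega

/-- the generating polynomial as a linear functional -/
noncomputable def EE (N : ℕ) (D : ℤ) (t : ℂ) : Gm →ₗ[ℚ] ℂ :=
  ∑ k ∈ range N, (t ^ k / (2 ^ k * k.factorial)) • P N k D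

theorem EE_apply (N : ℕ) (D : ℤ) (t : ℂ) (f : Gm) :
    EE N D t f = ∑ k ∈ range N, P N k D f * t ^ k / (2 ^ k * k.factorial) := by
  rw [EE, LinearMap.sum_apply]
  exact sum_congr rfl fun k _ => by rw [LinearMap.smul_apply, smul_eq_mul]; ring

theorem egf_eq {N D : ℕ} (h : D < N) (t : ℂ) (f : Gm) :
    egf (fun k => Ph D k f) D t = EE N D t f := by
  rw [EE_apply, egf]
  simp only [Ph_eq h]
  refine sum_subset (range_subset_range.2 h) fun k _ hk => ?_
  rw [P_lt N k D f (by simp at hk; omega)]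
  simp

theorem EE_X {N : ℕ} {D : ℤ} (h : D < N) (a : ℕ) (t : ℂ) (f : Gm) : EE N D t (X a * f) =
    if a ∈ O N then t * ∑ b ∈ O N, (bt a b : ℂ) * EE N (D - a - b) t (pderiv b f) else 0 := by
  rcases N with _ | N
  · simp [EE, O]
  rw [EE_apply, sum_range_succ', P_zero_X]
  simp only [stein, EE_apply]
  split_ifs with ha
  · simp only [mul_sum, sum_mul, sum_div, zero_mul, zero_div, add_zero]
    rw [sum_comm]
    refine sum_congr rfl fun b hb => ?_
    have h1 := (mem_O.1 ha).2.pos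
    have h2 := (mem_O.1 hb).2.pos
    have h3 := (mem_O.1 ha).1
    rw [sum_range_succ, P_lt (N + 1) N _ _ (by push_cast at h; omega)]
    simp only [zero_mul, zero_div, mul_zero, add_zero]
    refine sum_congr rfl fun k _ => ?_
    have h4 : (k.factorial : ℂ) ≠ 0 := by exact_mod_cast k.factorial_ne_zero
    have h5 : (k : ℂ) + 1 ≠ 0 := by exact_mod_cast k.succ_ne_zero
    rw [Nat.factorial_succ]
    push_cast
    field_simp
    ring
  · simp

/-- the estimate for a fixed polynomial factor -/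
def Gd (g : Gm) : Prop := ∃ C : ℝ, 0 ≤ C ∧ ∀ (N : ℕ) (D : ℤ), D < N → ∀ (n : ℕ) (t : ℂ),
  ‖t‖ ≤ 2 → ‖EE N D t (g * q n)‖ ≤ C * (4 ^ n * ((n : ℝ) + 1) ^ (t.re / 2 - 1))

theorem gd_zero : Gd 0 := ⟨0, le_rfl, fun _ _ _ _ _ _ => by simp⟩

theorem Gd.add {g g' : Gm} (h : Gd g) (h' : Gd g') : Gd (g + g') := by
  obtain ⟨C, hC, h⟩ := h
  obtain ⟨C', hC', h'⟩ := h'
  refine ⟨C + C', by positivity, fun N D hD n t ht => ?_⟩
  rw [add_mul, map_add, add_mul]
  exact (norm_add_le _ _).trans (add_le_add (h N D hD n t ht) (h' N D hD n t ht))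

theorem gd_C (hPhi0 : SPhi0) (hEm : SEm) (c : ℚ) : Gd (C c) := by
  obtain ⟨K, hK⟩ := hEm
  refine ⟨‖(c : ℂ)‖ * |K|, by positivity, fun N D hD n t ht => ?_⟩
  rw [C_mul', map_smul, Rat.smul_def, norm_mul, mul_assoc]
  refine mul_le_mul_of_nonneg_left ?_ (norm_nonneg _)
  by_cases h : D = n
  · subst h
    rw [← egf_eq (by exact_mod_cast hD), hPhi0, norm_mul, norm_pow, Complex.norm_ofNat,
      mul_left_comm]
    refine mul_le_mul_of_nonneg_left (((hK t ht).1 n).trans ?_) (by positivity)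
    exact mul_le_mul_of_nonneg_right (le_abs_self K) (by positivity)
  · rw [EE_apply, ← Mor.qz_nat, sum_eq_zero fun k _ => by rw [P_qz N k _ _ h]; simp, norm_zero]
    positivity

theorem rpow_cmp {x y z : ℝ} {t : ℂ} (ht : ‖t‖ ≤ 2) (hx : 0 < x) (hy : 1 ≤ y) (hz : 0 < z)
    (h : z ≤ x * y) : x ^ (t.re / 2 - 1) ≤ y ^ 2 * z ^ (t.re / 2 - 1) := by
  have h1 := abs_le.1 ((Complex.abs_re_le_norm t).trans ht)
  have h2 : (x * y) ^ (t.re / 2 - 1) ≤ z ^ (t.re / 2 - 1) :=
    Real.rpow_le_rpow_of_nonpos hz h (by linarith)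
  have h3 : y ^ (-(t.re / 2 - 1)) ≤ y ^ 2 := by
    rw [← Real.rpow_two]
    exact Real.rpow_le_rpow_of_exponent_le hy (by linarith)
  have hy0 : 0 < y := by linarith
  have h4 : x ^ (t.re / 2 - 1) = y ^ (-(t.re / 2 - 1)) * (x * y) ^ (t.re / 2 - 1) := by
    rw [Real.mul_rpow hx.le hy0.le, Real.rpow_neg hy0.le]
    have := (Real.rpow_pos_of_pos hy0 (t.re / 2 - 1)).ne'
    field_simp
  rw [h4]
  exact mul_le_mul h3 h2 (by positivity) (by positivity)

theorem zt_le {n : ℕ} (hn : 2 ≤ n) : zt n ≤ zt 2 := by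
  have hs : ∀ m : ℕ, 2 ≤ m → Summable fun h : ℕ => 1 / ((h : ℝ) + 1) ^ m := fun m hm => by
    have := (summable_nat_add_iff 1).2 (Real.summable_one_div_nat_pow.2 (by omega : 1 < m))
    simpa using this
  refine (hs n hn).tsum_le_tsum (fun h => ?_) (hs 2 le_rfl)
  have : (1 : ℝ) ≤ h + 1 := by simp
  exact one_div_le_one_div_of_le (by positivity) (pow_le_pow_right₀ this hn)

theorem bt_le {a b : ℕ} (ha : 1 ≤ a) (hb : 1 ≤ b) :
    bt a b ≤ 2 ^ (a + b) * zt 2 * ((a : ℝ) + b) ^ a := by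
  have h1 : (a + b - 1).factorial ≤ (b - 1).factorial * (a + b) ^ a := by
    rw [show a + b - 1 = b - 1 + a by omega, ← Nat.factorial_mul_ascFactorial]
    exact Nat.mul_le_mul_left _ ((Nat.ascFactorial_le_pow_add _ _).trans
      (Nat.pow_le_pow_left (by omega) _))
  have h2 : ((a + b - 1).factorial : ℝ) ≤
      ((a : ℝ) + b) ^ a * ((a - 1).factorial * (b - 1).factorial) := by
    have h3 : 1 ≤ (a - 1).factorial := Nat.factorial_pos _
    have : (a + b - 1).factorial ≤ (a + b) ^ a * ((a - 1).factorial * (b - 1).factorial) := by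
      refine h1.trans ?_
      rw [mul_comm]
      exact Nat.mul_le_mul_left _ (Nat.le_mul_of_pos_left _ h3)
    exact_mod_cast this
  rw [bt, div_le_iff₀ (by positivity), mul_assoc (2 ^ (a + b) * zt 2)]
  have := zt_nonneg 2
  exact mul_le_mul (mul_le_mul_of_nonneg_left (zt_le (by omega)) (by positivity)) h2
    (by positivity) (by positivity)

theorem sum_bt (a : ℕ) (ha : 1 ≤ a) : ∃ K : ℝ, 0 ≤ K ∧ ∀ N,
    ∑ b ∈ O N, bt a b * (2 * ((b : ℝ) + 1) ^ 2 / 4 ^ b) ≤ K := by
  have hs : Summable fun b : ℕ => ((b + a : ℕ) : ℝ) ^ (a + 2) * (1 / 2 : ℝ) ^ (b + a) :=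
    (summable_nat_add_iff (f := fun n : ℕ => (n : ℝ) ^ (a + 2) * (1 / 2 : ℝ) ^ n) a).2
      (summable_pow_mul_geometric_of_norm_lt_one _ (by norm_num))
  have hz := zt_nonneg 2
  have hs' := hs.mul_left (2 * 4 ^ a * zt 2)
  refine ⟨_, tsum_nonneg fun b => by positivity, fun N =>
    le_trans (sum_le_sum fun b hb => ?_) (hs'.sum_le_tsum (O N) fun b _ => by positivity)⟩
  have hb1 := (mem_O.1 hb).2.pos
  have h1 : (b : ℝ) + 1 ≤ a + b := by
    have : (1 : ℝ) ≤ a := by exact_mod_cast ha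
    linarith
  calc _ ≤ 2 ^ (a + b) * zt 2 * ((a : ℝ) + b) ^ a * (2 * ((a : ℝ) + b) ^ 2 / 4 ^ b) := by
        have := bt_le ha hb1
        gcongr
    _ = _ := by
        rw [show (4 : ℝ) = 2 * 2 by norm_num]
        simp only [mul_pow, pow_add, one_div, inv_pow]
        push_cast
        field_simp
        ring

theorem Gd.X_mul {g : Gm} (hg : Gd g) (hd : ∀ b, Gd (pderiv b g)) (a : ℕ) : Gd (X a * g) := by
  rcases Nat.eq_zero_or_pos a with rfl | ha
  · refine ⟨0, le_rfl, fun N D hD n t _ => ?_⟩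
    rw [mul_assoc, EE_X hD, if_neg (by simp [mem_O])]
    simp
  obtain ⟨K, hK0, hK⟩ := sum_bt a ha
  obtain ⟨C, hC0, hC⟩ := hg
  choose C' hC0' hC' using hd
  have hS : 0 ≤ ∑ b ∈ g.vars, bt a b * C' b :=
    sum_nonneg fun b _ => mul_nonneg (bt_nonneg _ _) (hC0' b)
  refine ⟨2 * (∑ b ∈ g.vars, bt a b * C' b + K * C), by positivity, fun N D hD n t ht => ?_⟩
  set W : ℝ := 4 ^ n * ((n : ℝ) + 1) ^ (t.re / 2 - 1) with hW
  have hW0 : 0 ≤ W := by positivity
  rw [mul_assoc, EE_X hD]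
  split_ifs
  swap
  · rw [norm_zero]; positivity
  rw [norm_mul, mul_assoc]
  refine mul_le_mul ht ((norm_sum_le _ _).trans ?_) (norm_nonneg _) (by norm_num)
  have key : ∀ b ∈ O N, ‖(bt a b : ℂ) * EE N (D - a - b) t (pderiv b (g * q n))‖ ≤
      (if b ∈ g.vars then bt a b * C' b else 0) * W +
        bt a b * (2 * ((b : ℝ) + 1) ^ 2 / 4 ^ b) * (C * W) := by
    intro b hb
    have hb1 := (mem_O.1 hb).2.pos
    have hD' : D - a - b < N := by omega
    have hbt := bt_nonneg a b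
    rw [pderiv_mul, map_add, mul_add]
    refine (norm_add_le _ _).trans (add_le_add ?_ ?_)
    · split_ifs with hv
      · rw [norm_mul, Complex.norm_real, Real.norm_of_nonneg hbt, mul_assoc]
        exact mul_le_mul_of_nonneg_left (hC' b N _ hD' n t ht) hbt
      · simp [pderiv_eq_zero_of_notMem_vars hv]
    · rw [norm_mul, Complex.norm_real, Real.norm_of_nonneg hbt, mul_assoc]
      refine mul_le_mul_of_nonneg_left ?_ hbt
      rw [pderiv_q, if_pos (mem_O.1 hb).2, mul_left_comm, C_mul', map_smul, Rat.smul_def, norm_mul]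
      by_cases hbn : b ≤ n
      · obtain ⟨m, rfl⟩ := Nat.exists_eq_add_of_le hbn
        rw [show ((b + m : ℕ) : ℤ) - b = m by push_cast; ring, Mor.qz_nat]
        have h1 : ‖((2 / (b : ℚ) : ℚ) : ℂ)‖ ≤ 2 := by
          push_cast
          rw [norm_div, Complex.norm_ofNat, Complex.norm_natCast]
          exact div_le_self (by norm_num) (by exact_mod_cast hb1)
        have h2 : ((m : ℝ) + 1) ^ (t.re / 2 - 1) ≤
            ((b : ℝ) + 1) ^ 2 * (((b + m : ℕ) : ℝ) + 1) ^ (t.re / 2 - 1) := by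
          refine rpow_cmp ht (by positivity) (by simp) (by positivity) ?_
          push_cast
          have : (0 : ℝ) ≤ m * b := by positivity
          linarith
        calc _ ≤ 2 * (C * (4 ^ m * (((b : ℝ) + 1) ^ 2 *
              (((b + m : ℕ) : ℝ) + 1) ^ (t.re / 2 - 1)))) := by
              refine mul_le_mul h1 ((hC N _ hD' m t ht).trans ?_) (norm_nonneg _) (by norm_num)
              gcongr
          _ = _ := by
              rw [hW, pow_add]
              field_simp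
      · rw [qz, if_neg (by omega), mul_zero, map_zero, norm_zero, mul_zero]
        positivity
  refine (sum_le_sum key).trans ?_
  rw [sum_add_distrib, ← sum_mul, ← sum_mul, add_mul, mul_assoc K]
  refine add_le_add (mul_le_mul_of_nonneg_right ?_ hW0)
    (mul_le_mul_of_nonneg_right (hK N) (by positivity))
  rw [← sum_filter]
  exact sum_le_sum_of_subset_of_nonneg (fun b hb => (mem_filter.1 hb).2) fun b _ _ =>
    mul_nonneg (bt_nonneg _ _) (hC0' b)

theorem gd_monomial (h0 : ∀ c, Gd (C c)) : ∀ (d : ℕ) (m : ℕ →₀ ℕ), m.degree ≤ d →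
    ∀ c : ℚ, Gd (monomial m c) := by
  intro d
  induction d with
  | zero =>
    intro m hm c
    obtain rfl := (Finsupp.degree_eq_zero_iff m).1 (Nat.le_zero.1 hm)
    exact h0 c
  | succ d ih =>
    intro m hm c
    by_cases h : m = 0
    · subst h; exact h0 c
    obtain ⟨a, ha⟩ := Finsupp.ne_iff.1 h
    obtain ⟨m', rfl⟩ : ∃ m', m = Finsupp.single a 1 + m' :=
      exists_add_of_le (Finsupp.single_le_iff.2 (Nat.one_le_iff_ne_zero.2 ha))
    rw [map_add, Finsupp.degree_single] at hm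
    rw [monomial_single_add, pow_one]
    refine (ih m' (by omega) c).X_mul (fun b => ?_) a
    rw [pderiv_monomial]
    exact ih _ ((Finsupp.degree_mono tsub_le_self).trans (by omega)) _

theorem gd_all (h0 : ∀ c, Gd (C c)) (g : Gm) : Gd g := by
  rw [g.as_sum]
  exact sum_induction _ Gd (fun _ _ => Gd.add) gd_zero fun m _ => gd_monomial h0 _ m le_rfl _

theorem phi_bound (h : ∀ g, Gd g) (a₀ : ℕ) (g : Gm) : ∃ C : ℝ, 0 ≤ C ∧ ∀ D R : ℕ, R ≤ D →
    D - R ≤ a₀ → ∀ t : ℂ, ‖t‖ ≤ 2 → ‖egf (fun k => Ph D k (phi R g)) D t‖ ≤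
      C * 4 ^ D * ((D : ℝ) + 1) ^ (t.re / 2 - 1) := by
  obtain ⟨B, hB⟩ := exists_S_bound g
  choose C hC0 hC using h
  refine ⟨∑ l ∈ range B, C ((-1) ^ l * S l g) * 4 ^ l * ((a₀ : ℝ) + 1) ^ 2,
    sum_nonneg fun l _ => by have := hC0 ((-1) ^ l * S l g); positivity,
    fun D R hR ha t ht => ?_⟩
  rw [egf_eq (Nat.lt_succ_self D), phi_eq _ g B hB, map_sum, sum_mul, sum_mul]
  refine (norm_sum_le _ _).trans (sum_le_sum fun l _ => ?_)
  rw [mul_right_comm, ← Nat.cast_add, Mor.qz_nat]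
  refine (hC _ _ _ (by omega) _ t ht).trans ?_
  have h1 := hC0 ((-1) ^ l * S l g)
  have h2 : (((R + l : ℕ) : ℝ) + 1) ^ (t.re / 2 - 1) ≤
      ((a₀ : ℝ) + 1) ^ 2 * ((D : ℝ) + 1) ^ (t.re / 2 - 1) := by
    refine rpow_cmp ht (by positivity) (by simp) (by positivity) ?_
    have h3 : D + 1 ≤ (R + l + 1) * (a₀ + 1) := by
      have : D ≤ R + a₀ := by omega
      nlinarith [Nat.zero_le ((R + l) * a₀)]
    exact_mod_cast h3
  have h3 : (4 : ℝ) ^ (R + l) ≤ 4 ^ (D + l) := pow_le_pow_right₀ (by norm_num) (by omega)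
  calc _ ≤ C ((-1) ^ l * S l g) * (4 ^ (D + l) *
        (((a₀ : ℝ) + 1) ^ 2 * ((D : ℝ) + 1) ^ (t.re / 2 - 1))) := by gcongr
    _ = _ := by ring

theorem Q_sl (A : Finset ℕ) : Q (sl A) = phi (A.sup id : ℕ) (Q (sl (A.erase (A.sup id)))) := by
  rcases A.eq_empty_or_nonempty with rfl | hA
  · simp [sl, Q, phi_one, qz, q_zero]
  · obtain ⟨R, hR, e⟩ := exists_mem_eq_sup A hA id
    have h1 : A.sort (· ≥ ·) = A.sup id :: (A.erase (A.sup id)).sort (· ≥ ·) := by
      rw [← sort_insert (· ≥ ·) (fun b hb => le_sup (f := id) (mem_of_mem_erase hb))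
        (notMem_erase _ _), insert_erase (by rw [e]; exact hR)]
    rw [sl, h1]
    rfl

end Pool.Agent.STS.Cy.Phi1Aux

namespace Pool.Agent.STS.Cy
open Equiv Finset Filter Topology

theorem pPhi1 (hPhi0 : SPhi0) (hEm : SEm) : SPhi1 := by
  intro a₀
  choose C hC0 hC using Phi1Aux.phi_bound (Phi1Aux.gd_all (Phi1Aux.gd_C hPhi0 hEm)) a₀
  refine ⟨∑ T ∈ (range (a₀ + 1)).powerset, C (QF.Q (QF.sl T)), fun D A hA ha t ht => ?_⟩
  have hs : ∑ R ∈ A, R = D := (mem_filter.1 hA).2
  have h1 : A.sup id ≤ D := Finset.sup_le fun b hb =>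
    hs ▸ single_le_sum (f := fun R => R) (fun _ _ => Nat.zero_le _) hb
  have h2 : A.erase (A.sup id) ∈ (range (a₀ + 1)).powerset := by
    refine mem_powerset.2 fun b hb => mem_range.2 ?_
    obtain ⟨R, hR, e⟩ := exists_mem_eq_sup A ⟨b, mem_of_mem_erase hb⟩ id
    have h3 := add_sum_erase A (fun R => R) (show A.sup id ∈ A by rw [e]; exact hR)
    have h4 := single_le_sum (f := fun R => R) (fun _ _ => Nat.zero_le _) hb
    omega
  have h3 : PhA D A = fun k => Ph D k (QF.phi (A.sup id : ℕ)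
      (QF.Q (QF.sl (A.erase (A.sup id))))) := funext fun k => by rw [PhA, Phi1Aux.Q_sl]
  rw [h3]
  refine (hC _ D _ h1 ha t ht).trans ?_
  gcongr
  exact single_le_sum (f := fun T => C (QF.Q (QF.sl T))) (fun _ _ => hC0 _) h2

end Pool.Agent.STS.Cy
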