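import Pool.Agent.P.MP_bb7f8f_gt.Q2.Base

set_option linter.unusedSectionVars false

namespace Pool.Agent.STS.Cy
open Equiv Finset Filter Topology

namespace PolyAux
open MeasureTheory
open scoped Pointwise

variable {ι J : Type} [Fintype ι] [Fintype J]

/-- the polyhedron with relaxed right hand sides -/
def PP (A : J → ι → ℤ) (β : J → ℤ) (η : ℝ) : Set (ι → ℝ) :=
  {z | ∀ j, ∑ i, (A j i : ℝ) * z i ≤ β j + η}

theorem PP_mono (A : J → ι → ℤ) (β : J → ℤ) {η η' : ℝ} (h : η ≤ η') : PP A β η ⊆ PP A β η' :=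
  fun z hz j => (hz j).trans (by linarith)

theorem cont (a : ι → ℤ) : Continuous fun z : ι → ℝ => ∑ i, (a i : ℝ) * z i := by
  fun_prop

theorem PP_closed (A : J → ι → ℤ) (β : J → ℤ) (η : ℝ) : IsClosed (PP A β η) := by
  have h : PP A β η = ⋂ j, {z : ι → ℝ | ∑ i, (A j i : ℝ) * z i ≤ β j + η} := by
    ext z; simp [PP]
  rw [h]
  exact isClosed_iInter fun j => isClosed_le (cont (A j)) continuous_const

theorem PP_convex (A : J → ι → ℤ) (β : J → ℤ) (η : ℝ) : Convex ℝ (PP A β η) := by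
  intro x hx y hy a b ha hb hab j
  have h1 := hx j
  have h2 := hy j
  have h3 : ∑ i, (A j i : ℝ) * (a • x + b • y) i =
      a * ∑ i, (A j i : ℝ) * x i + b * ∑ i, (A j i : ℝ) * y i := by
    rw [Finset.mul_sum, Finset.mul_sum, ← Finset.sum_add_distrib]
    refine Finset.sum_congr rfl fun i _ => ?_
    simp only [Pi.add_apply, Pi.smul_apply, smul_eq_mul]
    ring
  rw [h3]
  have h4 := mul_le_mul_of_nonneg_left h1 ha
  have h5 := mul_le_mul_of_nonneg_left h2 hb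
  have h6 : a * ((β j : ℝ) + η) + b * (β j + η) = β j + η := by
    rw [← add_mul, hab, one_mul]
  linarith

theorem PP_bdd (A : J → ι → ℤ) (β : J → ℤ)
    (h : ∀ z : ι → ℝ, (∀ j, ∑ i, (A j i : ℝ) * z i ≤ 0) → z = 0) (η : ℝ) :
    Bornology.IsBounded (PP A β η) := by
  set g : (ι → ℝ) → ℝ := fun z => ∑ j, max (∑ i, (A j i : ℝ) * z i) 0 with hg
  have gc : Continuous g :=
    continuous_finsetSum _ fun j _ => (cont (A j)).max continuous_const
  have gpos : ∀ z ∈ Metric.sphere (0 : ι → ℝ) 1, 0 < g z := by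
    intro z hz
    have h0 : 0 ≤ g z := Finset.sum_nonneg fun j _ => le_max_right _ _
    rcases h0.lt_or_eq with h1 | h1
    · exact h1
    · exfalso
      have h2 := (Finset.sum_eq_zero_iff_of_nonneg
        (fun j _ => le_max_right (∑ i, (A j i : ℝ) * z i) 0)).1 h1.symm
      have h3 : z = 0 := h z fun j => by
        have h4 := h2 j (Finset.mem_univ j)
        exact (le_max_left _ _).trans h4.le
      rw [h3] at hz
      simp at hz
  obtain ⟨μ, hμ, hμ'⟩ := (isCompact_sphere (0 : ι → ℝ) 1).exists_forall_le' gc.continuousOn gpos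
  rw [isBounded_iff_forall_norm_le]
  refine ⟨(∑ j, max ((β j : ℝ) + η) 0) / μ, fun z hz => ?_⟩
  have hC : 0 ≤ ∑ j, max ((β j : ℝ) + η) 0 := Finset.sum_nonneg fun j _ => le_max_right _ _
  rcases eq_or_ne z 0 with rfl | hz0
  · rw [norm_zero]; positivity
  have hn : 0 < ‖z‖ := norm_pos_iff.2 hz0
  have h1 : μ ≤ g (‖z‖⁻¹ • z) := hμ' _ (by
    rw [mem_sphere_zero_iff_norm, norm_smul, norm_inv, norm_norm, inv_mul_cancel₀ hn.ne'])
  have h2 : g (‖z‖⁻¹ • z) ≤ ‖z‖⁻¹ * ∑ j, max ((β j : ℝ) + η) 0 := by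
    rw [Finset.mul_sum]
    refine Finset.sum_le_sum fun j _ => ?_
    have h3 : ∑ i, (A j i : ℝ) * (‖z‖⁻¹ • z) i = ‖z‖⁻¹ * ∑ i, (A j i : ℝ) * z i := by
      rw [Finset.mul_sum]
      refine Finset.sum_congr rfl fun i _ => ?_
      simp only [Pi.smul_apply, smul_eq_mul]
      ring
    rw [h3]
    have h4 : 0 ≤ ‖z‖⁻¹ := by positivity
    refine max_le (mul_le_mul_of_nonneg_left ((hz j).trans (le_max_left _ _)) h4) ?_
    exact mul_nonneg h4 (le_max_right _ _)
  rw [le_div_iff₀ hμ]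
  have h5 := mul_le_mul_of_nonneg_left (h1.trans h2) hn.le
  rwa [← mul_assoc, mul_inv_cancel₀ hn.ne', one_mul] at h5

/-- the integral points of the dilated polyhedron -/
def ZZ (A : J → ι → ℤ) (β : J → ℤ) (η : ℝ) (N : ℕ) : Set (ι → ℤ) :=
  {z | (fun i => (z i : ℝ) / N) ∈ PP A β η}

theorem inj (N : ℕ) (hN : N ≠ 0) : Function.Injective fun (z : ι → ℤ) (i : ι) => (z i : ℝ) / N := by
  intro z w h
  funext i
  have h1 : (z i : ℝ) / N = w i / N := congrFun h i
  have h2 : (N : ℝ) ≠ 0 := Nat.cast_ne_zero.2 hN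
  exact_mod_cast (div_left_inj' h2).1 h1

theorem image_ZZ (A : J → ι → ℤ) (β : J → ℤ) (η : ℝ) (N : ℕ) (hN : N ≠ 0) :
    (fun (z : ι → ℤ) (i : ι) => (z i : ℝ) / N) '' ZZ A β η N =
      PP A β η ∩ (N : ℝ)⁻¹ • Submodule.span ℤ (Set.range (Pi.basisFun ℝ ι)) := by
  have : NeZero N := ⟨hN⟩
  have h2 : (N : ℝ) ≠ 0 := Nat.cast_ne_zero.2 hN
  ext x
  constructor
  · rintro ⟨z, hz, rfl⟩
    refine ⟨hz, BoxIntegral.unitPartition.mem_smul_span_iff.2 fun i => ⟨z i, ?_⟩⟩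
    simp only [eq_intCast]
    field_simp
  · rintro ⟨h1, h3⟩
    have h4 := BoxIntegral.unitPartition.mem_smul_span_iff.1 h3
    choose z hz using h4
    have h5 : (fun i => (z i : ℝ) / N) = x := by
      funext i
      have h6 := hz i
      simp only [eq_intCast] at h6
      rw [h6]
      field_simp
    exact ⟨z, by rw [ZZ, Set.mem_ofPred_eq, h5]; exact h1, h5⟩

theorem tendsto_ZZ (A : J → ι → ℤ) (β : J → ℤ)
    (h : ∀ z : ι → ℝ, (∀ j, ∑ i, (A j i : ℝ) * z i ≤ 0) → z = 0) (η : ℝ) :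
    Tendsto (fun N : ℕ => ((ZZ A β η N).ncard : ℝ) / (N : ℝ) ^ Fintype.card ι) atTop
      (𝓝 (volume.real (PP A β η))) := by
  refine (tendsto_card_div_pow_atTop_volume (PP A β η) (PP_bdd A β h η)
    (PP_closed A β η).measurableSet ((PP_convex A β η).addHaar_frontier volume)).congr' ?_
  filter_upwards [eventually_ne_atTop 0] with N hN
  rw [← Set.ncard_image_of_injective _ (inj N hN), image_ZZ A β η N hN]
  rfl

theorem finite_ZZ (A : J → ι → ℤ) (β : J → ℤ)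
    (h : ∀ z : ι → ℝ, (∀ j, ∑ i, (A j i : ℝ) * z i ≤ 0) → z = 0) (η : ℝ) (N : ℕ) (hN : N ≠ 0) :
    (ZZ A β η N).Finite := by
  obtain ⟨C, hC⟩ := isBounded_iff_forall_norm_le.1 (PP_bdd A β h η)
  refine (Set.Finite.pi' fun _ : ι => Set.finite_Icc (-⌈C * N⌉) ⌈C * N⌉).subset fun z hz i => ?_
  have h1 : |(z i : ℝ) / N| ≤ C := (norm_le_pi_norm (fun i => (z i : ℝ) / N) i).trans (hC _ hz)
  have h2 : (0 : ℝ) < N := Nat.cast_pos.2 (Nat.pos_of_ne_zero hN)
  rw [abs_div, abs_of_pos h2, div_le_iff₀ h2] at h1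
  have h3 : |(z i : ℝ)| ≤ ((⌈C * N⌉ : ℤ) : ℝ) := h1.trans (Int.le_ceil _)
  have h4 : |z i| ≤ ⌈C * N⌉ := by exact_mod_cast h3
  exact abs_le.1 h4

theorem mem_ZZ (A : J → ι → ℤ) (β : J → ℤ) (η : ℝ) (N : ℕ) (hN : N ≠ 0) (z : ι → ℤ) :
    z ∈ ZZ A β η N ↔ ∀ j, ((∑ i, A j i * z i : ℤ) : ℝ) ≤ β j * N + η * N := by
  have h2 : (0 : ℝ) < N := Nat.cast_pos.2 (Nat.pos_of_ne_zero hN)
  refine forall_congr' fun j => ?_
  have h3 : ∑ i, (A j i : ℝ) * ((z i : ℝ) / N) = ((∑ i, A j i * z i : ℤ) : ℝ) / N := by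
    push_cast
    rw [Finset.sum_div]
    exact Finset.sum_congr rfl fun i _ => by ring
  rw [h3, div_le_iff₀ h2, add_mul]

theorem null_plane (a : ι → ℤ) (b : ℤ) (h : a ≠ 0 ∨ 0 < b) :
    volume {z : ι → ℝ | ∑ i, (a i : ℝ) * z i = b} = 0 := by
  by_cases ha : a = 0
  · have hb : 0 < b := h.resolve_left (not_not.2 ha)
    have h1 : {z : ι → ℝ | ∑ i, (a i : ℝ) * z i = b} = ∅ := by
      ext z
      have h2 : (0 : ℝ) < b := by exact_mod_cast hb
      simp [ha, h2.ne]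
    rw [h1, measure_empty]
  · obtain ⟨i0, hi0⟩ := Function.ne_iff.1 ha
    have hc : Convex ℝ {z : ι → ℝ | ∑ i, (a i : ℝ) * z i ≤ b} := by
      have h1 := PP_convex (J := Unit) (fun _ => a) (fun _ => b) 0
      have h2 : PP (J := Unit) (fun _ => a) (fun _ => b) 0 =
          {z : ι → ℝ | ∑ i, (a i : ℝ) * z i ≤ b} := by
        ext z; simp [PP]
      rwa [h2] at h1
    refine measure_mono_null ?_ (hc.addHaar_frontier volume)
    intro z hz
    have hz' : ∑ i, (a i : ℝ) * z i = b := hz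
    refine ⟨subset_closure hz'.le, fun hi => ?_⟩
    have h1 : Tendsto (fun t : ℝ => z + t • fun i => (a i : ℝ)) (𝓝 0) (𝓝 z) := by
      have h2 : Continuous fun t : ℝ => z + t • fun i => (a i : ℝ) := by fun_prop
      simpa using h2.tendsto 0
    have h3 := (h1.eventually (mem_interior_iff_mem_nhds.1 hi)).filter_mono
      (nhdsWithin_le_nhds (s := Set.Ioi (0 : ℝ)))
    obtain ⟨t, ht, ht0⟩ := (h3.and self_mem_nhdsWithin).exists
    have h4 : ∑ i, (a i : ℝ) * (z + t • fun i => (a i : ℝ)) i =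
        b + t * ∑ i, (a i : ℝ) * a i := by
      rw [← hz', Finset.mul_sum, ← Finset.sum_add_distrib]
      refine Finset.sum_congr rfl fun i _ => ?_
      simp only [Pi.add_apply, Pi.smul_apply, smul_eq_mul]
      ring
    have h5 : 0 < ∑ i, (a i : ℝ) * a i := by
      refine Finset.sum_pos' (fun i _ => mul_self_nonneg _) ⟨i0, Finset.mem_univ _, ?_⟩
      exact mul_self_pos.2 (by exact_mod_cast hi0)
    have h6 : ∑ i, (a i : ℝ) * (z + t • fun i => (a i : ℝ)) i ≤ b := ht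
    have h7 : 0 < t := ht0
    have h8 := mul_pos h7 h5
    linarith

theorem vol_up (A : J → ι → ℤ) (β : J → ℤ)
    (h : ∀ z : ι → ℝ, (∀ j, ∑ i, (A j i : ℝ) * z i ≤ 0) → z = 0) :
    Tendsto (fun m : ℕ => volume.real (PP A β (1 / ((m : ℝ) + 1)))) atTop
      (𝓝 (volume.real (PP A β 0))) := by
  have h1 : Antitone fun m : ℕ => PP A β (1 / ((m : ℝ) + 1)) := fun m m' hm =>
    PP_mono A β (Nat.one_div_le_one_div hm)
  have h2 := tendsto_measure_iInter_atTop (μ := volume)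
    (fun m => (PP_closed A β _).measurableSet.nullMeasurableSet) h1
    ⟨0, (PP_bdd A β h _).measure_lt_top.ne⟩
  have h3 : ⋂ m : ℕ, PP A β (1 / ((m : ℝ) + 1)) = PP A β 0 := by
    refine Set.Subset.antisymm (fun z hz j => ?_)
      (Set.subset_iInter fun m => PP_mono A β (by positivity))
    have h4 : Tendsto (fun m : ℕ => (β j : ℝ) + 1 / ((m : ℝ) + 1)) atTop (𝓝 (β j + 0)) :=
      tendsto_const_nhds.add tendsto_one_div_add_atTop_nhds_zero_nat
    exact ge_of_tendsto' h4 fun m => Set.mem_iInter.1 hz m j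
  rw [h3] at h2
  exact (ENNReal.tendsto_toReal (PP_bdd A β h 0).measure_lt_top.ne).comp h2

theorem vol_down (A : J → ι → ℤ) (β : J → ℤ) (hA : ∀ j, A j ≠ 0 ∨ 0 < β j)
    (h : ∀ z : ι → ℝ, (∀ j, ∑ i, (A j i : ℝ) * z i ≤ 0) → z = 0) :
    Tendsto (fun m : ℕ => volume.real (PP A β (-(1 / ((m : ℝ) + 1))))) atTop
      (𝓝 (volume.real (PP A β 0))) := by
  have h1 : Monotone fun m : ℕ => PP A β (-(1 / ((m : ℝ) + 1))) := fun m m' hm =>
    PP_mono A β (neg_le_neg (Nat.one_div_le_one_div hm))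
  have h2 := tendsto_measure_iUnion_atTop (μ := volume) h1
  have h3 : volume (⋃ m : ℕ, PP A β (-(1 / ((m : ℝ) + 1)))) = volume (PP A β 0) := by
    refine le_antisymm (measure_mono (Set.iUnion_subset fun m => PP_mono A β ?_)) ?_
    · exact neg_nonpos.2 (by positivity)
    have h4 : PP A β 0 ⊆ (⋃ m : ℕ, PP A β (-(1 / ((m : ℝ) + 1)))) ∪
        ⋃ j, {z : ι → ℝ | ∑ i, (A j i : ℝ) * z i = β j} := by
      intro z hz
      by_cases h5 : ∃ j, ∑ i, (A j i : ℝ) * z i = β j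
      · exact Or.inr (Set.mem_iUnion.2 h5)
      · refine Or.inl (Set.mem_iUnion.2 ?_)
        have h6 : ∀ j, ∀ᶠ m : ℕ in atTop,
            ∑ i, (A j i : ℝ) * z i ≤ β j + -(1 / ((m : ℝ) + 1)) := by
          intro j
          have h7 : ∑ i, (A j i : ℝ) * z i < β j + -0 := by
            have h8 := hz j
            have h9 : ∑ i, (A j i : ℝ) * z i ≠ β j := fun e => h5 ⟨j, e⟩
            rw [add_zero] at h8
            rw [neg_zero, add_zero]
            exact lt_of_le_of_ne h8 h9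
          have h10 : Tendsto (fun m : ℕ => (β j : ℝ) + -(1 / ((m : ℝ) + 1))) atTop
              (𝓝 (β j + -0)) :=
            tendsto_const_nhds.add tendsto_one_div_add_atTop_nhds_zero_nat.neg
          exact (h10.eventually (lt_mem_nhds h7)).mono fun m hm => hm.le
        exact (eventually_all.2 h6).exists
    refine (measure_mono h4).trans ((measure_union_le _ _).trans ?_)
    rw [measure_iUnion_null fun j => null_plane (A j) (β j) (hA j), add_zero]
  rw [h3] at h2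
  exact (ENNReal.tendsto_toReal (PP_bdd A β h 0).measure_lt_top.ne).comp h2

theorem ev_small (γ : J → ℤ) {η : ℝ} (hη : 0 < η) :
    ∀ᶠ N : ℕ in atTop, ∀ j, |(γ j : ℝ)| ≤ η * N := by
  refine eventually_all.2 fun j => ?_
  exact (tendsto_natCast_atTop_atTop.const_mul_atTop hη).eventually_ge_atTop _

theorem main (A : J → ι → ℤ) (β : J → ℤ) (hA : ∀ j, A j ≠ 0 ∨ 0 < β j)
    (h : ∀ z : ι → ℝ, (∀ j, ∑ i, (A j i : ℝ) * z i ≤ 0) → z = 0) (γ : J → ℤ) :
    Tendsto (fun N : ℕ =>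
      (Set.ncard {z : ι → ℤ | ∀ j, ∑ i, A j i * z i ≤ β j * N + γ j} : ℝ) /
        (N : ℝ) ^ Fintype.card ι) atTop (𝓝 (volume.real (PP A β 0))) := by
  have sub : ∀ {η : ℝ} (N : ℕ), N ≠ 0 → (∀ j, |(γ j : ℝ)| ≤ η * N) →
      ZZ A β (-η) N ⊆ {z : ι → ℤ | ∀ j, ∑ i, A j i * z i ≤ β j * N + γ j} ∧
      {z : ι → ℤ | ∀ j, ∑ i, A j i * z i ≤ β j * N + γ j} ⊆ ZZ A β η N := by
    intro η N hN hγ
    constructor
    · intro z hz j
      have h1 := (mem_ZZ A β _ N hN z).1 hz j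
      have h2 := (abs_le.1 (hγ j)).1
      have h3 : ((∑ i, A j i * z i : ℤ) : ℝ) ≤ ((β j * N + γ j : ℤ) : ℝ) := by
        rw [Int.cast_add, Int.cast_mul, Int.cast_natCast]
        linarith
      exact_mod_cast h3
    · intro z hz
      refine (mem_ZZ A β _ N hN z).2 fun j => ?_
      have h1 : ((∑ i, A j i * z i : ℤ) : ℝ) ≤ ((β j * N + γ j : ℤ) : ℝ) := Int.cast_le.2 (hz j)
      have h2 := (abs_le.1 (hγ j)).2
      rw [Int.cast_add, Int.cast_mul, Int.cast_natCast] at h1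
      linarith
  refine tendsto_order.2 ⟨fun a ha => ?_, fun a ha => ?_⟩
  · obtain ⟨m, hm⟩ := ((vol_down A β hA h).eventually (lt_mem_nhds ha)).exists
    have hη : (0 : ℝ) < 1 / ((m : ℝ) + 1) := by positivity
    filter_upwards [(tendsto_ZZ A β h _).eventually (lt_mem_nhds hm), ev_small γ hη,
      eventually_ne_atTop 0] with N h1 h2 h3
    refine h1.trans_le (div_le_div_of_nonneg_right ?_ (by positivity))
    obtain ⟨h4, h5⟩ := sub N h3 h2
    exact_mod_cast Set.ncard_le_ncard h4 ((finite_ZZ A β h _ N h3).subset h5)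
  · obtain ⟨m, hm⟩ := ((vol_up A β h).eventually (gt_mem_nhds ha)).exists
    have hη : (0 : ℝ) < 1 / ((m : ℝ) + 1) := by positivity
    filter_upwards [(tendsto_ZZ A β h _).eventually (gt_mem_nhds hm), ev_small γ hη,
      eventually_ne_atTop 0] with N h1 h2 h3
    refine lt_of_le_of_lt (div_le_div_of_nonneg_right ?_ (by positivity)) h1
    exact_mod_cast Set.ncard_le_ncard (sub N h3 h2).2 (finite_ZZ A β h _ N h3)

end PolyAux

theorem pPoly : SPoly := fun _ _ _ _ A β hA h => ⟨_, PolyAux.main A β hA h⟩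

end Pool.Agent.STS.Cy
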