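import Pool.Agent.P.MP_bb7f8f_gt.Q2.Base

set_option linter.unusedSectionVars false

namespace Pool.Agent.STS.Cy
open Equiv Finset Filter Topology

namespace PosAux

theorem pos_mem {A : Type} [Fintype A] {q : A → Prop} {inst : DecidablePred q} {a : A} :
    a ∈ @Finset.filter A q inst univ ↔ q a := by simp

theorem pos_perm {H F : Type} [Fintype H] [Fintype F] {σ α : Perm H} {c₀ c : H → F}
    (h₀ : IsLab σ α c₀) (h : IsLab σ α c) : ∃ g : Perm F, c = g ∘ c₀ := by
  obtain ⟨r, hr⟩ := h₀.2.hasRightInverse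
  have hi : Function.Injective (c ∘ r) := fun f f' hf => by
    have := (h₀.1 _ _).2 ((h.1 _ _).1 hf)
    rwa [hr f, hr f'] at this
  refine ⟨Equiv.ofBijective _ (Finite.injective_iff_bijective.1 hi), funext fun x => ?_⟩
  exact (h.1 _ _).2 ((h₀.1 _ _).1 (hr (c₀ x)).symm)

theorem pos_card {H : Type} [Fintype H] [DecidableEq H] (σ : Perm H) (k : ℕ)
    (P : Dg H (Fin k) → Prop) (n : ℕ)
    (hn : Set.ncard {α : Perm H | ∃ c, IsDg σ (α, c) ∧ P (α, c)} ≤ n)
    (S : Finset (Dg H (Fin k))) (hS : ∀ p ∈ S, IsDg σ p ∧ P p) :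
    #S ≤ n * (2 * k).factorial := by
  classical
  have h1 : #S ≤ (2 * k).factorial * #(S.image Prod.fst) := by
    refine Finset.card_le_mul_card_image S _ fun α hα => ?_
    obtain ⟨p₀, hp₀, rfl⟩ := Finset.mem_image.1 hα
    have h2 : ({p ∈ S | p.1 = p₀.1} : Finset (Dg H (Fin k))) ⊆
        (univ : Finset (Perm (Fin k × Bool))).image
          fun g : Perm (Fin k × Bool) => (p₀.1, g ∘ p₀.2) := by
      intro p hp
      obtain ⟨hp1, hp2⟩ := Finset.mem_filter.1 hp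
      have h3 : IsLab σ p₀.1 p.2 := hp2 ▸ (hS p hp1).1.2
      obtain ⟨g, hg⟩ := pos_perm (hS p₀ hp₀).1.2 h3
      have h5 : (p₀.1, g ∘ p₀.2) = p := Prod.ext hp2.symm hg.symm
      rw [← h5]
      exact Finset.mem_image_of_mem (fun g : Perm (Fin k × Bool) => (p₀.1, g ∘ p₀.2)) (mem_univ g)
    refine (Finset.card_le_card h2).trans (Finset.card_image_le.trans ?_)
    rw [Finset.card_univ, Fintype.card_perm, Fintype.card_prod, Fintype.card_fin,
      Fintype.card_bool, mul_comm]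
  have h4 : #(S.image Prod.fst) ≤ n := by
    refine le_trans ?_ hn
    rw [← Set.ncard_coe_finset]
    refine Set.ncard_le_ncard (fun α hα => ?_) (Set.toFinite _)
    obtain ⟨p, hp, rfl⟩ := Finset.mem_image.1 (Finset.mem_coe.1 hα)
    exact ⟨p.2, hS p hp⟩
  calc #S ≤ (2 * k).factorial * #(S.image Prod.fst) := h1
    _ ≤ (2 * k).factorial * n := Nat.mul_le_mul_left _ h4
    _ = n * (2 * k).factorial := mul_comm _ _

theorem pos_nu (hPar : SPar) {H J I : Type} [Fintype H] [DecidableEq H] [Fintype J]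
    [DecidableEq J] [Fintype I] [DecidableEq I] {σ : Perm H} {π : H → J} {v : J → ℕ}
    (hc : Cyc σ π v) {p : Dg H I} (hp : Prim σ p) :
    nu p.1 (tot p.2) = 2 ^ (Fintype.card H - 1) := by
  rw [← hPar H J I σ π v hc p hp.1 hp.2.1 0, nu]
  congr 1
  ext ε
  simp only [Set.mem_ofPred_eq, add_zero]
  exact ⟨fun ⟨a, ha, _⟩ => ⟨a, ha⟩, fun ⟨a, ha⟩ => ⟨a, ha, fun x hx => absurd hx (hp.2.2 x)⟩⟩

end PosAux

theorem pPos (hZle : SZle) (hPar : SPar) : SPos := by
  intro H J _ _ _ _ σ π v D M hV k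
  have hz : ∀ p : Dg H (Fin k), IsDg σ p → 0 ≤ zz p.1 (tot p.2) (Fintype.card H / 2) ∧
      zz p.1 (tot p.2) (Fintype.card H / 2) ≤ (D : ℝ) ^ k := fun p hp => by
    have := hZle H (Fin k) p.1 (tot p.2) D (dg_ok hV.cyc hV.card hp)
    rw [hV.half]
    refine ⟨this.1, ?_⟩
    have h2 := this.2 hp.1
    rwa [Fintype.card_fin] at h2
  have hnu : ∀ p : Dg H (Fin k), (nu p.1 (tot p.2) : ℝ) ≤ 4 ^ D := fun p => by
    have h1 : nu p.1 (tot p.2) ≤ 2 ^ Fintype.card H := nu_le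
    rw [hV.card, pow_mul] at h1
    exact_mod_cast h1
  have hD : (0 : ℝ) ≤ (D : ℝ) ^ k := by positivity
  refine ⟨fun P => ⟨?_, ?_, ?_, ?_, fun n hn => ⟨?_, ?_⟩⟩, fun h1 => ?_⟩
  · exact Finset.sum_nonneg fun p hp =>
      mul_nonneg (Nat.cast_nonneg _) (hz p (PosAux.pos_mem.1 hp).1).1
  · exact Finset.sum_le_sum_of_subset_of_nonneg
      (fun p hp => PosAux.pos_mem.2 ⟨(PosAux.pos_mem.1 hp).1, trivial⟩)
      fun p hp _ => mul_nonneg (Nat.cast_nonneg _) (hz p (PosAux.pos_mem.1 hp).1).1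
  · exact Finset.sum_nonneg fun p hp => (hz p (PosAux.pos_mem.1 hp).1.1).1
  · unfold TP XX XP
    rw [Finset.mul_sum]
    refine le_trans (le_of_eq (Finset.sum_congr rfl fun p hp => ?_))
      (Finset.sum_le_sum_of_subset_of_nonneg
      (fun p hp => PosAux.pos_mem.2 ⟨(PosAux.pos_mem.1 hp).1.1, trivial⟩)
      fun p hp _ => mul_nonneg (Nat.cast_nonneg _) (hz p (PosAux.pos_mem.1 hp).1).1)
    rw [PosAux.pos_nu hPar hV.cyc (PosAux.pos_mem.1 hp).1, hV.card]
    push_cast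
    rfl
  · unfold XP
    refine (Finset.sum_le_card_nsmul _ _ (4 ^ D * (D : ℝ) ^ k) fun p hp => ?_).trans ?_
    · have := hz p (PosAux.pos_mem.1 hp).1
      exact mul_le_mul (hnu p) this.2 this.1 (by positivity)
    · rw [nsmul_eq_mul, mul_left_comm]
      refine mul_le_mul_of_nonneg_left (mul_le_mul_of_nonneg_right ?_ hD) (by positivity)
      refine Nat.cast_le.2 (PosAux.pos_card σ k P n hn _ fun p hp => ?_) |>.trans_eq (by push_cast; rfl)
      have h6 := PosAux.pos_mem.1 hp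
      exact h6
  · unfold TP
    refine (Finset.sum_le_card_nsmul _ _ ((D : ℝ) ^ k) fun p hp => ?_).trans ?_
    · exact (hz p (PosAux.pos_mem.1 hp).1.1).2
    · rw [nsmul_eq_mul]
      refine mul_le_mul_of_nonneg_right ?_ hD
      refine Nat.cast_le.2 (PosAux.pos_card σ k P n hn _ fun p hp => ?_) |>.trans_eq (by push_cast; rfl)
      have h6 := PosAux.pos_mem.1 hp
      exact ⟨h6.1.1, h6.2⟩
  · have hne : Nonempty H := Fintype.card_pos_iff.1 (by rw [hV.card]; omega)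
    obtain ⟨x⟩ := hne
    exact Finset.sum_eq_zero fun p _ => (p.2 x).1.elim0

end Pool.Agent.STS.Cy
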