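import Pool.Agent.P.MP_bb7f8f_gt.Q2.Mid

/-!
Interface statements of the proof of the cylinder statistics.
-/

namespace Pool.Agent.STS.Cy
open Equiv Finset Filter Topology

/-! ### Tiles of static edges -/

section
variable {H J I : Type}

/-- `a` starts a static loop which encloses the points `σ a, …, σ ^ m a` -/
structure Tile (σ : Perm H) (p : Dg H I) (a : H) (m : ℕ) : Prop where
  odd : Odd m
  three : 3 ≤ m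
  lt : m < Function.minimalPeriod σ a
  al : p.1 a = (σ ^ m) a
  ex : ∃ y : I × Bool → ℚ, (∀ i, y (i, false) = - y (i, true)) ∧
    (∀ j : ℕ, 1 ≤ j → j ≤ m → y (p.2 ((σ ^ j) a)) = (-1) ^ (j + 1)) ∧
    (∀ z, (∃ j : ℕ, 1 ≤ j ∧ j ≤ m ∧ z = (σ ^ j) a) ∨ y (p.2 z) = 0)

/-- `a` is a static edge between two vertices which form a component -/
structure Pair (σ : Perm H) (p : Dg H I) (a : H) : Prop where
  ne : ¬ σ.SameCycle a (p.1 a)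
  ex : ∃ y : I × Bool → ℚ, (∀ i, y (i, false) = - y (i, true)) ∧
    (∀ j : ℕ, 1 ≤ j → j ≤ Function.minimalPeriod σ a → y (p.2 ((σ ^ j) a)) = (-1) ^ (j + 1)) ∧
    (∀ j : ℕ, 1 ≤ j → j ≤ Function.minimalPeriod σ (p.1 a) →
      y (p.2 ((σ ^ j) (p.1 a))) = (-1) ^ (j + 1)) ∧
    (∀ z, σ.SameCycle a z ∨ σ.SameCycle (p.1 a) z ∨ y (p.2 z) = 0)

/-- the relation which generates connectedness -/
def Rel (p : Dg H I) (a b : H) : Prop := b = p.1 a ∨ (p.2 b).1 = (p.2 a).1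

end

/-- coefficients of `(1 - X) ^ (-s)` -/
noncomputable def ab (s : ℂ) (n : ℕ) : ℂ := (∏ i ∈ range n, (s + i)) / n.factorial

/-- the main term of the theorem -/
noncomputable def mt (d : ℕ) (t : ℂ) : ℂ :=
  (d : ℂ) ^ ((t - 1) / 2) * (√Real.pi : ℝ) / Complex.Gamma (t / 2)

/-! ### A. Lattice points -/

def SPoly : Prop := ∀ (ι J : Type) [Fintype ι] [Fintype J] (A : J → ι → ℤ) (β : J → ℤ),
  (∀ j, A j ≠ 0 ∨ 0 < β j) → (∀ z : ι → ℝ, (∀ j, ∑ i, (A j i : ℝ) * z i ≤ 0) → z = 0) →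
  ∃ V : ℝ, ∀ γ : J → ℤ, Tendsto (fun N : ℕ =>
    (Set.ncard {z : ι → ℤ | ∀ j, ∑ i, A j i * z i ≤ β j * N + γ j} : ℝ) /
      (N : ℝ) ^ Fintype.card ι) atTop (𝓝 V)

/-- the limit for fixed heights -/
def SLatH : Prop := ∀ (H I : Type) [Fintype H] [Fintype I] [DecidableEq I] (α : Perm H)
  (c : H → Option (I × Bool)), (∀ x, c x = none → Static α c x) →
  ∀ h : I → ℤ, (∀ i, 1 ≤ h i) →
  ∃ V : ℝ, ∀ δ : I × Bool → ℤ, Good α c δ → Tendsto (fun N : ℕ =>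
    (Set.ncard {q : (H → ℤ) × (I → ℤ) | Sol α c δ q.1 ∧ (∀ x, 0 ≤ q.1 x) ∧
      (∀ i, 0 ≤ q.2 i ∧ q.2 i < pr c q.1 (i, true) + δ (i, true)) ∧
      ∑ i, h i * (pr c q.1 (i, true) + δ (i, true)) ≤ N} : ℝ) /
      (N : ℝ) ^ (Module.finrank ℚ (VO α c) + Fintype.card I)) atTop (𝓝 V)

def SLat : Prop := ∀ (H I : Type) [Fintype H] [Fintype I] [DecidableEq I] (α : Perm H)
  (c : H → Option (I × Bool)) (d : ℕ), Ok α c d →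
  Asy (fun m => cn α c 0 m) d (zz α c d) ∧
  ((∀ i, ∃ l ∈ VO α c, pr c l (i, true) ≠ 0) → ∀ δ : I × Bool → ℤ, (∀ f, 0 ≤ δ f) →
    Good α c δ → Asy (fun m => cn α c δ m) d (zz α c d))

def SZle : Prop := ∀ (H I : Type) [Fintype H] [Fintype I] [DecidableEq I] (α : Perm H)
  (c : H → Option (I × Bool)) (d : ℕ), Ok α c d →
  0 ≤ zz α c d ∧ (IsMt α → zz α c d ≤ (d : ℝ) ^ Fintype.card I)

def SConv : Prop := ∀ (a b : ℕ → ℝ) (d₁ d₂ : ℕ) (z₁ z₂ : ℝ), (∀ m, 0 ≤ a m) → (∀ m, 0 ≤ b m) →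
  Asy a d₁ z₁ → Asy b d₂ z₂ →
  Asy (fun m => ∑ q ∈ antidiagonal m, a q.1 * b q.2) (d₁ + d₂) (z₁ * z₂)

def SExpl : Prop := ∀ (k : ℕ) (κ : Fin k × Bool → ℕ), (∀ a, 1 ≤ κ a) →
  Asy (fun m => ∑ p ∈ HWm k m, ∏ i, ((p.2 i : ℝ) * yc (κ (i, true)) (p.2 i) *
    yc (κ (i, false)) (p.2 i))) (∑ a, κ a) (∏ i, bt (κ (i, true)) (κ (i, false)))

def SXF : Prop := ∀ (H J : Type) [Fintype H] [DecidableEq H] [Fintype J] [DecidableEq J]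
  (σ : Perm H) (π : H → J) (v : J → ℕ) (D M : ℕ), Vx σ π v D M → 1 ≤ D → ∀ k,
  XX σ k = 2 ^ D * ∑ A ∈ SP D, gm v A * PhA D A k

/-! ### B. Estimates for the smoothed count -/

def SEmA : Prop := ∃ C : ℝ, ∀ n : ℕ, 1 ≤ n → ∀ s : ℂ, ‖s‖ ≤ 1 →
  ‖ab s n - (n : ℂ) ^ (s - 1) / Complex.Gamma s‖ ≤ C * (n : ℝ) ^ (s.re - 2)

def SEmB : Prop := ∃ C : ℝ, ∀ s : ℂ, ‖s‖ ≤ 1 → ∃ b : ℕ → ℂ, (∀ i, ‖b i‖ ≤ C / 3 ^ i) ∧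
  HasSum b (2 ^ s) ∧ ∀ n, ee (2 * n + 1) (2 * s) = 0 ∧
    ee (2 * n) (2 * s) = ∑ q ∈ antidiagonal n, b q.1 * ab s q.2

def SEm : Prop := ∃ C : ℝ, ∀ t : ℂ, ‖t‖ ≤ 2 →
  (∀ n : ℕ, ‖ee n t‖ ≤ C * ((n : ℝ) + 1) ^ (t.re / 2 - 1)) ∧
  ∀ D : ℕ, Even D → 2 ≤ D → ‖ee D t - GG D t‖ ≤ C * (D : ℝ) ^ (t.re / 2 - 2)

def SPhi0 : Prop := ∀ (n : ℕ) (t : ℂ), egf (fun k => Ph n k (QF.q n)) n t = 4 ^ n * ee n t

def SPhi1 : Prop := ∀ a₀ : ℕ, ∃ C : ℝ, ∀ D : ℕ, ∀ A ∈ SP D, D - A.sup id ≤ a₀ → ∀ t : ℂ,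
  ‖t‖ ≤ 2 → ‖egf (PhA D A) D t‖ ≤ C * 4 ^ D * ((D : ℝ) + 1) ^ (t.re / 2 - 1)

def SPhi2 : Prop := ∀ ρ : ℝ, 0 ≤ ρ → ∃ C : ℝ, 1 ≤ C ∧ ∀ D : ℕ, 1 ≤ D → ∀ A ∈ SP D,
  egr (fun k => |PhA D A k|) D ρ ≤
    4 ^ D * C ^ (#A ^ 2) * (100 / 97 : ℝ) ^ (D - A.sup id) * (D : ℝ) ^ (ρ / 2)

def SGam1 : Prop := ∀ M a₀ : ℕ, ∃ (C : ℝ) (D₀ : ℕ), ∀ D ≥ D₀, ∀ (J : Type) [Fintype J]
  [DecidableEq J] (v : J → ℕ), (∀ j, Odd (v j)) → #{j | v j = 1} ≤ M → ∑ j, v j = 2 * D →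
  ∀ A ∈ SP D, A ≠ {D} → D - A.sup id ≤ a₀ → |gm v A| ≤ C * DF {D} / (2 ^ D * D)

def SGam2 : Prop := ∀ C : ℝ, 1 ≤ C → ∃ (C' : ℝ) (D₀ : ℕ), ∀ D ≥ D₀, ∀ (J : Type) [Fintype J]
  [DecidableEq J] (v : J → ℕ) (M : ℕ), (∀ j, Odd (v j)) → #{j | v j = 1} ≤ M → M ^ 4 ≤ D →
  ∑ j, v j = 2 * D →
  ∑ A ∈ SP D, |gm v A| * C ^ (#A ^ 2) * (100 / 97 : ℝ) ^ (D - A.sup id) ≤
    C' * DF {D} / 2 ^ D ∧
  ∑ A ∈ SP D with 48 < D - A.sup id,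
    |gm v A| * C ^ (#A ^ 2) * (100 / 97 : ℝ) ^ (D - A.sup id) ≤ C' * DF {D} / (2 ^ D * D ^ 4)

def SF1 : Prop := ∀ M : ℕ, ∃ (C : ℝ) (D₀ : ℕ), ∀ D ≥ D₀, ∀ (H J : Type) [Fintype H]
  [DecidableEq H] [Fintype J] [DecidableEq J] (σ : Perm H) (π : H → J) (v : J → ℕ),
  Vx σ π v D M → ∀ t : ℂ, ‖t‖ ≤ 2 →
  ‖egf (XX σ) D t - 2 ^ (2 * D - 1) * (DF {D} : ℝ) * ee D t‖ ≤
    C * 4 ^ D * DF {D} * (D : ℝ) ^ (t.re / 2 - 2)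

def SF2 : Prop := ∀ ρ : ℝ, 0 ≤ ρ → ∃ (C : ℝ) (D₀ : ℕ), ∀ D ≥ D₀, ∀ (H J : Type) [Fintype H]
  [DecidableEq H] [Fintype J] [DecidableEq J] (σ : Perm H) (π : H → J) (v : J → ℕ) (M : ℕ),
  Vx σ π v D M → M ^ 4 ≤ D → egr (XX σ) D ρ ≤ C * 4 ^ D * DF {D} * (D : ℝ) ^ (ρ / 2)

/-! ### C. Cores -/

def SRed : Prop := ∀ (H J : Type) [Fintype H] [DecidableEq H] [Fintype J] [DecidableEq J]
  (σ : Perm H) (π : H → J) (v : J → ℕ) (D M : ℕ), Vx σ π v D M → ∀ (Y : Finset H) (s : ℕ),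
  Shape σ π Y → #Yᶜ = 2 * s → s ≤ D ∧ ∃ (J' : Type) (_ : Fintype J') (_ : DecidableEq J')
    (π' : {x // x ∈ Y} → J') (v' : J' → ℕ), Vx (red σ Y) π' v' (D - s) (M + 2 * s)

def SPar : Prop := ∀ (H J I : Type) [Fintype H] [DecidableEq H] [Fintype J] [DecidableEq J]
  [Fintype I] [DecidableEq I] (σ : Perm H) (π : H → J) (v : J → ℕ), Cyc σ π v →
  ∀ p : Dg H I, IsDg σ p → Conn p → ∀ δ : I × Bool → ℤ,
  Set.ncard {ε : H → Bool | ∃ a, Sol p.1 (tot p.2) (eo (tot p.2) ε + δ) a} =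
    2 ^ (Fintype.card H - 1)

def SGlue : Prop := ∀ (H I : Type) [Fintype H] [DecidableEq H] [Fintype I] [DecidableEq I]
  (σ : Perm H) (Y : Finset H) (L : Finset I) (p : Dg H I) (p₁ : Dg {x // x ∈ Y} {i // i ∈ L})
  (α₂ : Perm {x // x ∉ Y}) (c₂ : {x // x ∉ Y} → Option ({i // i ∉ L} × Bool)),
  Glue σ Y L p p₁ α₂ c₂ → (∀ x, c₂ x = none → Static α₂ c₂ x) →
  (∀ x : {x // x ∈ Y}, Static p.1 (tot p.2) x.1 ↔ Static p₁.1 (tot p₁.2) x) ∧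
  (∀ x : {x // x ∉ Y}, Static p.1 (tot p.2) x.1 ↔ Static α₂ c₂ x) ∧
  Module.finrank ℚ (VO p.1 (tot p.2)) =
    Module.finrank ℚ (VO p₁.1 (tot p₁.2)) + Module.finrank ℚ (VO α₂ c₂) ∧
  (∀ m, cn p.1 (tot p.2) 0 m =
    ∑ q ∈ antidiagonal m, cn p₁.1 (tot p₁.2) 0 q.1 * cn α₂ c₂ 0 q.2) ∧
  ∀ n : ℕ, (∀ x, ¬ Static p₁.1 (tot p₁.2) x) → (∀ δ : {i // i ∈ L} × Bool → ℤ,
    Set.ncard {ε : {x // x ∈ Y} → Bool |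
      ∃ a, Sol p₁.1 (tot p₁.2) (eo (tot p₁.2) ε + δ) a} = n) →
    nu p.1 (tot p.2) = n * nu α₂ c₂

def SGdg : Prop := ∀ (H I : Type) [Fintype H] [DecidableEq H] [Fintype I] [DecidableEq I]
  (σ : Perm H) (Y : Finset H) (L : Finset I) (p : Dg H I) (p₁ : Dg {x // x ∈ Y} {i // i ∈ L})
  (α₂ : Perm {x // x ∉ Y}) (c₂ : {x // x ∉ Y} → Option ({i // i ∉ L} × Bool)),
  IsDg (red σ Y) p₁ → Adm σ Y α₂ c₂ → Glue σ Y L p p₁ α₂ c₂ → IsDg σ p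

def SDec : Prop := ∀ (H J I : Type) [Fintype H] [DecidableEq H] [Fintype J] [DecidableEq J]
  [Fintype I] [DecidableEq I] (σ : Perm H) (π : H → J) (v : J → ℕ) (D M : ℕ), Vx σ π v D M →
  ∀ (s : ℕ) (Y : Finset H), Y ∈ Cores σ π s → ∀ L : Finset I,
  XP σ I (Splits σ Y L) = 2 ^ (2 * (D - s) - 1) *
    TP (red σ Y) {i // i ∈ L} (fun _ => True) * WI σ Y {i // i ∉ L}

def SUniq : Prop := ∀ (H I : Type) [Fintype H] [DecidableEq H] [Fintype I] [DecidableEq I]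
  (σ : Perm H) (p : Dg H I) (Y : Finset H) (L : Finset I), Splits σ Y L p →
  (∀ (Y' : Finset H) (L' : Finset I), Splits σ Y' L' p → Fintype.card H < #Y + #Y' →
    Y = Y' ∧ L = L') ∧ (Prim σ p → Y.Nonempty → Y = univ)

def SRel : Prop := ∀ (H I : Type) [Fintype H] [DecidableEq H] [Fintype I] [DecidableEq I]
  (σ : Perm H), TP σ I (fun _ => True) = TT σ (Fintype.card I) ∧
    ∀ Y : Finset H, WI σ Y I = WW σ Y (Fintype.card I)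

def SId : Prop := ∀ (H J : Type) [Fintype H] [DecidableEq H] [Fintype J] [DecidableEq J]
  (σ : Perm H) (π : H → J) (v : J → ℕ) (D M : ℕ), Vx σ π v D M → ∀ u : ℕ, 2 * u < D →
  ∀ t : ℂ, egf (XX σ) D t = 2 ^ (2 * D - 1) * egf (TT σ) D t +
    ∑ s ∈ Icc 1 u, ∑ Y ∈ Cores σ π s,
      2 ^ (2 * (D - s) - 1) * egf (TT (red σ Y)) (D - s) t * egf (WW σ Y) s t +
    egf (RR σ π u) D t

/-- signs and comparisons of the weights -/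
def SPos : Prop := ∀ (H J : Type) [Fintype H] [DecidableEq H] [Fintype J] [DecidableEq J]
  (σ : Perm H) (π : H → J) (v : J → ℕ) (D M : ℕ), Vx σ π v D M → ∀ k : ℕ,
  (∀ P : Dg H (Fin k) → Prop, 0 ≤ XP σ (Fin k) P ∧ XP σ (Fin k) P ≤ XX σ k ∧
    0 ≤ TP σ (Fin k) P ∧ 2 ^ (2 * D - 1) * TP σ (Fin k) P ≤ XX σ k ∧
    ∀ n : ℕ, Set.ncard {α : Perm H | ∃ c, IsDg σ (α, c) ∧ P (α, c)} ≤ n →
      XP σ (Fin k) P ≤ 4 ^ D * (n * (2 * k).factorial * (D : ℝ) ^ k) ∧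
      TP σ (Fin k) P ≤ n * (2 * k).factorial * (D : ℝ) ^ k) ∧
  (1 ≤ D → TT σ 0 = 0)

def SStat : Prop := ∀ (H J I : Type) [Fintype H] [DecidableEq H] [Fintype J] [DecidableEq J]
  [Fintype I] [DecidableEq I] (σ : Perm H) (π : H → J) (v : J → ℕ), Cyc σ π v →
  ∀ p : Dg H I, IsDg σ p → ∀ x, Static p.1 (tot p.2) x →
  (∃ m, Tile σ p x m) ∨ (∃ m, Tile σ p (p.1 x) m) ∨ Pair σ p x

def SFam : Prop := ∀ (H J I : Type) [Fintype H] [DecidableEq H] [Fintype J] [DecidableEq J]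
  [Fintype I] [DecidableEq I] (σ : Perm H) (π : H → J) (v : J → ℕ), Cyc σ π v →
  ∀ p : Dg H I, IsDg σ p → ∃ O : Finset (H × ℕ), (∀ q ∈ O, Tile σ p q.1 q.2) ∧
    (∀ q ∈ O, ∀ q' ∈ O, q ≠ q' → Disjoint (seg σ q) (seg σ q')) ∧
    (∀ a m, Tile σ p a m → ∃ q ∈ O, seg σ (a, m) ⊆ seg σ q) ∧ #O ≤ 2 * Fintype.card I

def SSplit : Prop := ∀ (H J I : Type) [Fintype H] [DecidableEq H] [Fintype J] [DecidableEq J]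
  [Fintype I] [DecidableEq I] (σ : Perm H) (π : H → J) (v : J → ℕ) (D M : ℕ), Vx σ π v D M →
  ∀ p : Dg H I, IsDg σ p → ∀ (G : Finset H) (O : Finset (H × ℕ)),
  (∀ x ∈ G, ∀ y, y ∈ G ↔ Relation.EqvGen (Rel p) x y) →
  (∀ q ∈ O, Tile σ p q.1 q.2 ∧ q.1 ∈ G) →
  (∀ q ∈ O, ∀ q' ∈ O, q ≠ q' → Disjoint (seg σ q) (seg σ q')) →
  (∀ x ∈ G, Static p.1 (tot p.2) x → ∃ q ∈ O, x ∈ seg σ q) →
  Shape σ π (G \ O.biUnion (seg σ)) → ∃ L, Splits σ (G \ O.biUnion (seg σ)) L p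

def SStr : Prop := ∀ (H J I : Type) [Fintype H] [DecidableEq H] [Fintype J] [DecidableEq J]
  [Fintype I] [DecidableEq I] (σ : Perm H) (π : H → J) (v : J → ℕ) (D M : ℕ), Vx σ π v D M →
  ∀ u : ℕ, 1 ≤ u → 3 * u ≤ 2 * D → ∀ p : Dg H I, IsDg σ p → RestP σ π u p →
  BadA π u p.1 ∨ BadB σ (2 * Fintype.card I + 2) u p.1

/-! ### D. Counting -/

def SCores : Prop := ∀ (H J : Type) [Fintype H] [DecidableEq H] [Fintype J] [DecidableEq J]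
  (σ : Perm H) (π : H → J) (v : J → ℕ) (D M : ℕ), Vx σ π v D M → ∀ s : ℕ,
  #(Cores σ π s) ≤ 2 ^ M * (2 * D * (2 * s + 1) + 1) ^ (2 * s / 3)

def SWW : Prop := ∀ (H : Type) [Fintype H] [DecidableEq H] (σ : Perm H) (Y : Finset H) (s : ℕ),
  #Yᶜ = 2 * s → (∀ k, 0 ≤ WW σ Y k) ∧ egr (WW σ Y) s 2 ≤ 4 ^ s * (2 * s + 1) ^ (6 * s)

/-- matchings which respect or swap given sets -/
def SMt : Prop := ∀ (H : Type) [Fintype H] [DecidableEq H] (D : ℕ), Fintype.card H = 2 * D →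
  (∀ (S : Finset H) (d : ℕ), #S = 2 * d →
    (Set.ncard {α : Perm H | IsMt α ∧ ∀ x, α x ∈ S ↔ x ∈ S} : ℝ) ≤ DF {d} * DF {D - d}) ∧
  ∀ S₁ S₀ : Finset H, Disjoint S₁ S₀ →
    (Set.ncard {α : Perm H | IsMt α ∧ (∀ x ∈ S₁, α x ∈ S₀) ∧ ∀ x ∈ S₀, α x ∈ S₁} : ℝ) ≤
      (2 / 3) ^ (#S₁ - 1) * DF {D}

def SBadA : Prop := ∀ (H J : Type) [Fintype H] [DecidableEq H] [Fintype J] [DecidableEq J]
  (σ : Perm H) (π : H → J) (v : J → ℕ) (D M : ℕ), Vx σ π v D M → ∀ u : ℕ, 1 ≤ u →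
  (Set.ncard {α : Perm H | IsMt α ∧ BadA π u α} : ℝ) ≤
    2 ^ (M + 2) * (D + 1) * DF {D} * (1 / 2) ^ (u / 6)

def SBadB : Prop := ∀ (H : Type) [Fintype H] [DecidableEq H] (σ : Perm H) (D : ℕ),
  Fintype.card H = 2 * D → ∀ K u : ℕ,
  (Set.ncard {α : Perm H | IsMt α ∧ BadB σ K u α} : ℝ) ≤
    (2 * D * (2 * D + 1) + 1) ^ K * (2 / 3) ^ (u / 4 - 1) * DF {D}

def SSym : Prop := ∀ (H J : Type) [Fintype H] [DecidableEq H] [Fintype J] [DecidableEq J]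
  (σ : Perm H) (π : H → J) (v : J → ℕ) (D M : ℕ), Vx σ π v D M → 1 ≤ D → ∀ k : ℕ,
  Set.ncard {α : Perm H | ∃ c : H → Fin k × Bool, IsDg σ (α, c) ∧ SymP σ (α, c)} ≤
    (2 * D) ^ (M + 2 * D / 3) * (4 * D ^ 2 + 1) ^ (4 * k)

def SRest : Prop := ∀ M : ℕ, ∃ D₀ : ℕ, ∀ D ≥ D₀, ∀ (H J : Type) [Fintype H]
  [DecidableEq H] [Fintype J] [DecidableEq J] (σ : Perm H) (π : H → J) (v : J → ℕ),
  Vx σ π v D M → egr (RR σ π (Nat.log 2 D ^ 4)) D 2 ≤ 4 ^ D * DF {D} / (D : ℝ) ^ 3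

def SSy : Prop := ∀ M : ℕ, ∃ D₀ : ℕ, ∀ D ≥ D₀, ∀ (H J : Type) [Fintype H]
  [DecidableEq H] [Fintype J] [DecidableEq J] (σ : Perm H) (π : H → J) (v : J → ℕ),
  Vx σ π v D M → egr (SY σ) D 2 ≤ DF {D} / (D : ℝ) ^ 5

def SMid : Prop := ∀ M : ℕ, ∃ D₀ : ℕ, ∀ D ≥ D₀, ∀ (H J : Type) [Fintype H]
  [DecidableEq H] [Fintype J] [DecidableEq J] (σ : Perm H) (π : H → J) (v : J → ℕ),
  Vx σ π v D M → ∑ s ∈ Ioc 24 (Nat.log 2 D ^ 4), ∑ Y ∈ Cores σ π s,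
    2 ^ (2 * (D - s) - 1) * egr (TT (red σ Y)) (D - s) 2 * egr (WW σ Y) s 2 ≤
      4 ^ D * DF {D} / (D : ℝ) ^ 3

def SBoot : Prop := ∀ M : ℕ, ∃ (C : ℝ) (D₀ : ℕ), ∀ D ≥ D₀, Even D → ∀ (H J : Type) [Fintype H]
  [DecidableEq H] [Fintype J] [DecidableEq J] (σ : Perm H) (π : H → J) (v : J → ℕ),
  Vx σ π v D M → ∀ t : ℂ, ‖t‖ ≤ 2 →
  ‖egf (TT σ) D t - (DF {D} : ℝ) * GG D t‖ ≤ C * DF {D} * (D : ℝ) ^ (t.re / 2 - 2)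

/-! ### E. Surfaces -/

def SCons : Prop := ∀ (H J : Type) [Fintype H] [DecidableEq H] [Nonempty H] [Fintype J]
  [DecidableEq J] (σ : Perm H) (π : H → J) (v : J → ℕ), Cyc σ π v → ∀ (k N : ℕ)
  (δ : Datum H k), IsDat σ N δ → Conn (δ.α, δ.c) → ∃ T : Tri H N, IsFr σ T ∧ Realizes σ T δ

def SReal : Prop := ∀ (H : Type) [Fintype H] [DecidableEq H] [Nonempty H] (σ : Perm H)
  (k N : ℕ) (T : Tri H N) (δ : Datum H k), IsFr σ T → IsDat σ N δ → Realizes σ T δ →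
  xcyl T = k ∧ Conn (δ.α, δ.c)

def SLow : Prop := ∀ (H J : Type) [Fintype H] [DecidableEq H] [Nonempty H] [Fintype J]
  [DecidableEq J] (σ : Perm H) (π : H → J) (v : J → ℕ), Cyc σ π v → ∀ k N : ℕ,
  2 ^ N * N.factorial * datc σ k N (fun δ => Conn (δ.α, δ.c)) ≤
    2 ^ k * k.factorial * Nat.card {T : Tri H N // IsFr σ T ∧ xcyl T = k}

def SCorr : Prop :=
  (∀ (H J : Type) [Fintype H] [DecidableEq H] [Fintype J] [DecidableEq J] (σ : Perm H)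
    (π : H → J) (v : J → ℕ), Cyc σ π v → ∀ (N : ℕ) (γ : Perm (Side N)) (a f : Perm (XS N))
    (θ : H → XS N), Dart.Corr 1 γ a f → IsFr σ (a, f, θ) → numCyl γ = xcyl (a, f, θ)) ∧
  ∀ (N : ℕ) (γ γ' : Perm (Side N)), Iso γ γ' → numCyl γ = numCyl γ'

def SDat : Prop := ∀ (H J : Type) [Fintype H] [DecidableEq H] [Fintype J] [DecidableEq J]
  (σ : Perm H) (π : H → J) (v : J → ℕ) (D M : ℕ), Vx σ π v D M → ∀ (k : ℕ)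
  (P : Dg H (Fin k) → Prop),
  Asy (fun m => datc σ k m fun δ => Conn (δ.α, δ.c) ∧ P (δ.α, δ.c)) D (TP σ (Fin k) P)

def SMass : Prop := ∀ (H : Type) [Fintype H] [DecidableEq H] (n : ℕ) (κ : Fin n → ℤ)
  (σ : Perm H) (π : H → Fin n) (v : Fin n → ℕ) (D M : ℕ), Vx σ π v D M → 1 ≤ D →
  (∀ j, (v j : ℤ) = κ j + 2) →
  (∀ (m : ℕ) (γ : Perm (Side m)), InStratum κ γ → 1 ≤ numCyl γ ∧ numCyl γ ≤ D) ∧ ∀ k : ℕ,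
  Tendsto (fun N : ℕ => (D.factorial : ℝ) * zc σ *
    mass (fun _ γ => InStratum κ γ ∧ numCyl γ = k) N / (N : ℝ) ^ D) atTop
    (𝓝 (TT σ k / (2 ^ k * k.factorial))) ∧
  ∀ η : ℝ, 0 < η → ∀ᶠ N : ℕ in atTop, (D.factorial : ℝ) * zc σ *
    mass (fun _ γ => (InStratum κ γ ∧ numCyl γ = k) ∧ ¬ NoAut γ) N / (N : ℝ) ^ D ≤
      SY σ k / (2 ^ k * k.factorial) + η

/-- both counts of a family lie between two weighted counts -/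
def SSand : Prop := ∀ (H : Type) [Fintype H] [DecidableEq H] (n : ℕ) (κ : Fin n → ℤ)
  (σ : Perm H) (π : H → Fin n) (v : Fin n → ℕ) (D M : ℕ), Vx σ π v D M → 1 ≤ D →
  (∀ j, (v j : ℤ) = κ j + 2) → ∀ F : ∀ m, Perm (Side m) → Prop,
  (∀ m γ, F m γ → InStratum κ γ) → (∀ m γ, InStratum κ γ → NoAut γ → F m γ) → ∀ k N : ℕ,
  |(numClasses (fun m γ => F m γ ∧ numCyl γ = k) N : ℝ) -
      mass (fun _ γ => InStratum κ γ ∧ numCyl γ = k) N| ≤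
    2 * D * mass (fun _ γ => (InStratum κ γ ∧ numCyl γ = k) ∧ ¬ NoAut γ) N ∧
  |mass (fun m γ => F m γ ∧ numCyl γ = k) N -
      mass (fun _ γ => InStratum κ γ ∧ numCyl γ = k) N| ≤
    2 * D * mass (fun _ γ => (InStratum κ γ ∧ numCyl γ = k) ∧ ¬ NoAut γ) N

/-- the counts split according to the number of cylinders -/
def SSum : Prop := ∀ (F : ∀ m, Perm (Side m) → Prop) (D : ℕ),
  (∀ m γ, F m γ → numCyl γ ≤ D) → ∀ N : ℕ,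
  numClasses F N = ∑ k ∈ range (D + 1), numClasses (fun m γ => F m γ ∧ numCyl γ = k) N ∧
  mass F N = ∑ k ∈ range (D + 1), mass (fun m γ => F m γ ∧ numCyl γ = k) N

/-! ### F. The last analytic step -/

def SFin : Prop := ∀ r : ℝ, r < 2 →
  (∀ C : ℝ, ∃ (C' : ℝ) (D₀ : ℕ), ∀ D ≥ D₀, ∀ A : ℕ → ℝ, A 0 = 0 →
    (∀ t : ℂ, ‖t‖ ≤ 2 → ‖∑ k ∈ range (D + 1), (A k : ℂ) * t ^ k - GG D t‖ ≤
      C * (D : ℝ) ^ (t.re / 2 - 2)) → ∀ t : ℂ, ‖t‖ ≤ r →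
    ‖∑ k ∈ range (D + 1), ((A k / ∑ j ∈ range (D + 1), A j : ℝ) : ℂ) * t ^ k - mt D t‖ ≤
      C' / D * ‖mt D t‖) ∧
  ∀ D : ℕ, 1 ≤ D → ∃ C' : ℝ, ∀ p : ℕ → ℝ, p 0 = 0 → (∀ k, |p k| ≤ 1) → ∀ t : ℂ, ‖t‖ ≤ r →
    ‖∑ k ∈ range (D + 1), (p k : ℂ) * t ^ k - mt D t‖ ≤ C' / D * ‖mt D t‖

end Pool.Agent.STS.Cy
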